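import Pool.Agent.Lib.MP_de485e_gt.Hi.P7
import Pool.Agent.Lib.MP_de485e_gt.Hi.RealA
import Pool.Agent.Lib.MP_de485e_gt.Hi.RealB

/-! The reaction term at a touching configuration is negative. -/

open scoped RealInnerProductSpace

namespace Pool.Agent.Lib.MP_de485e_gt.Hi

variable {n : ℕ} {V N : Type} [NormedAddCommGroup V] [InnerProductSpace ℝ V]
  [FiniteDimensional ℝ V] [NormedAddCommGroup N] [InnerProductSpace ℝ N] [FiniteDimensional ℝ N]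

namespace SF

variable {S : SF n V N} {p : Par n} {ν : N} {e e' : V} {a b : ℝ}

/-- `a Pa + b Pb = 8 Y + 2 E - mu1 (a + b)`, `Pa + Pb = 2 mu1 - 4 Z (a + b)`; `final_red`,
`final_A`, `final_B` with `th = A2 / n`, `rho = (Re - kk n / n * Ru) / (2 n)`, `r = ‖eta‖`. -/
theorem Tch.react_neg2 (t : S.Tch p ν e e' a b) (hθ : p.θ = 2) {c : ℝ} (hc0 : 0 ≤ c) (hc : c ≤ p.m / 10) :
    p.Pa a b * ((S.A2 ν - n) * a + 2 * (n * ⟪S.eta, ν⟫) + 2 * S.Ce ν e a) +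
      p.Pb a b * ((S.A2 ν - n) * b + 2 * (n * ⟪S.eta, ν⟫) + 2 * S.Ce ν e' b) -
      p.mu0 / (2 * √(p.g S.e2 S.u)) * (S.Re - kk n / n * S.Ru) +
      c * (4 * p.Z * ((a + b) / 2) ^ 2 + 4 * p.Z + p.E S.e2 S.u) < 0 := by
  have hn := S.hn
  have hn0 : (0 : ℝ) < n := by exact_mod_cast (by omega : 0 < n)
  have hr : 0 ≤ ‖S.eta‖ := norm_nonneg _
  have he2 : S.e2 = ‖S.eta‖ ^ 2 := rfl
  have hg1 : (p.l ^ 2 + ‖S.eta‖ ^ 2) / 9 ≤ p.g S.e2 S.u := t.K.g_ge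
  have hg2 : p.g S.e2 S.u ≤ p.l ^ 2 + ‖S.eta‖ ^ 2 := S.g_le p
  have hl := p.hl
  have hg0 : 0 < p.g S.e2 S.u := lt_of_lt_of_le (by positivity) hg1
  have hs : 0 ≤ (a + b) / 2 := by linarith [t.s_nonneg]
  have hd : 0 ≤ (a - b) / 2 := by linarith [t.le]
  have hen2 : |⟪S.eta, ν⟫| ≤ ‖S.eta‖ := by
    have := abs_real_inner_le_norm S.eta ν
    rwa [t.hν, mul_one] at this
  have hth1 : ⟪S.eta, ν⟫ ^ 2 ≤ S.A2 ν / n := by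
    rw [le_div_iff₀ hn0]
    linarith [t.A2_bounds.1]
  have hth : S.A2 ν / n ≤
      2 * ⟪S.eta, ν⟫ * ((a + b) / 2) - (((a + b) / 2) ^ 2 - ((a - b) / 2) ^ 2) := by
    rw [div_le_iff₀ hn0]
    refine t.A2_bounds.2.trans (le_of_eq ?_)
    ring
  have hrho : 3 / 16 * ‖S.eta‖ ^ 4 - 4 * ‖S.eta‖ ^ 2 * p.y S.e2 S.u -
      69 * p.y S.e2 S.u * (p.l ^ 2 + ‖S.eta‖ ^ 2) - 27200 * p.Z * ‖S.eta‖ ^ 2 ≤
      (S.Re - kk n / n * S.Ru) / (2 * n) := by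
    rw [le_div_iff₀ (by positivity)]
    refine le_trans (le_of_eq ?_) t.K.react_g
    rw [show ‖S.eta‖ ^ 4 = (‖S.eta‖ ^ 2) ^ 2 by ring, ← he2]
    ring
  have h1 := p.final_red hn hθ (p.E_nonneg S.e2 S.u) (y := p.y S.e2 S.u) rfl hs hd t.d_eq t.en_le
    hth hc0 hc
  have h2 : -(p.Z * p.m) - 2 * p.Z * ((a + b) / 2) ^ 2 + 7 * p.Z * p.E S.e2 S.u +
      p.E S.e2 S.u / 10 + 4 * p.y S.e2 S.u * p.E S.e2 S.u +
      (2 * (S.A2 ν / n) * (p.E S.e2 S.u - p.mu1 * ((a + b) / 2)) +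
        2 * p.E S.e2 S.u * |⟪S.eta, ν⟫| * ((a + b) / 2)) +
      2 * p.mu1 * p.y S.e2 S.u * (1 + p.y S.e2 S.u) +
      (25000 * p.Z * p.y S.e2 S.u * ‖S.eta‖ ^ 2 + 8000 * p.y S.e2 S.u ^ 2) / n -
      p.E S.e2 S.u / p.g S.e2 S.u * ((S.Re - kk n / n * S.Ru) / (2 * n)) < 0 := by
    rcases le_total (‖S.eta‖ ^ 2) (p.l ^ 2) with h | h
    · exact p.final_A hn hr h hg1 hg2 rfl rfl hs hd t.d_eq t.en_le hen2 hth1 hth hrho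
    · exact p.final_B hn hr h hg1 hg2 rfl rfl hs hd t.d_eq t.en_le hen2 hth1 hth hrho
  have h3 := t.comm_le
  have hS : a * p.Pa a b + b * p.Pb a b = 8 * p.Y + 2 * p.E S.e2 S.u - p.mu1 * (a + b) := by
    have := t.eq
    simp only [Par.Phi] at this
    simp only [Par.Pa, Par.Pb]
    linear_combination 2 * this
  have hP : p.Pa a b + p.Pb a b = 2 * p.mu1 - 4 * p.Z * (a + b) := by
    simp only [Par.Pa, Par.Pb]
    ring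
  have hq : p.mu0 / (2 * √(p.g S.e2 S.u)) * (S.Re - kk n / n * S.Ru) =
      n * (p.E S.e2 S.u / p.g S.e2 S.u * ((S.Re - kk n / n * S.Ru) / (2 * n))) := by
    have h4 : 0 < √(p.g S.e2 S.u) := Real.sqrt_pos.2 hg0
    have h5 : p.E S.e2 S.u / p.g S.e2 S.u = p.mu0 / √(p.g S.e2 S.u) := by
      rw [Par.E, div_eq_div_iff hg0.ne' h4.ne', mul_assoc, Real.mul_self_sqrt hg0.le]
    rw [h5]
    generalize S.Re - kk n / n * S.Ru = w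
    field_simp
  rw [hq]
  rw [← he2] at h2
  generalize p.E S.e2 S.u / p.g S.e2 S.u * ((S.Re - kk n / n * S.Ru) / (2 * n)) = w at h2 ⊢
  have h6 := mul_neg_of_pos_of_neg hn0 (show (S.A2 ν / n - 1) *
        (8 * p.Y + 2 * p.E S.e2 S.u - 2 * p.mu1 * ((a + b) / 2)) +
      2 * ⟪S.eta, ν⟫ * (2 * p.mu1 - 8 * p.Z * ((a + b) / 2)) +
      2 * p.y S.e2 S.u * (8 * p.Y + 2 * p.E S.e2 S.u - 2 * p.mu1 * ((a + b) / 2) -
        ⟪S.eta, ν⟫ * (2 * p.mu1 - 8 * p.Z * ((a + b) / 2))) +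
      c * (4 * p.Z * ((a + b) / 2) ^ 2 + 4 * p.Z + p.E S.e2 S.u) / n +
      (25000 * p.Z * p.y S.e2 S.u * S.e2 + 8000 * p.y S.e2 S.u ^ 2) / n - w < 0 by linarith)
  have h7 : (n : ℝ) * ((S.A2 ν / n - 1) *
        (8 * p.Y + 2 * p.E S.e2 S.u - 2 * p.mu1 * ((a + b) / 2)) +
      2 * ⟪S.eta, ν⟫ * (2 * p.mu1 - 8 * p.Z * ((a + b) / 2)) +
      2 * p.y S.e2 S.u * (8 * p.Y + 2 * p.E S.e2 S.u - 2 * p.mu1 * ((a + b) / 2) -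
        ⟪S.eta, ν⟫ * (2 * p.mu1 - 8 * p.Z * ((a + b) / 2))) +
      c * (4 * p.Z * ((a + b) / 2) ^ 2 + 4 * p.Z + p.E S.e2 S.u) / n +
      (25000 * p.Z * p.y S.e2 S.u * S.e2 + 8000 * p.y S.e2 S.u ^ 2) / n - w) =
      (S.A2 ν - n) * (8 * p.Y + 2 * p.E S.e2 S.u - p.mu1 * (a + b)) +
      2 * (n * ⟪S.eta, ν⟫) * (2 * p.mu1 - 4 * p.Z * (a + b)) +
      (2 * n * p.y S.e2 S.u * (8 * p.Y + 2 * p.E S.e2 S.u - p.mu1 * (a + b) -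
        ⟪S.eta, ν⟫ * (2 * p.mu1 - 4 * p.Z * (a + b))) +
      25000 * p.Z * p.y S.e2 S.u * S.e2 + 8000 * p.y S.e2 S.u ^ 2) +
      c * (4 * p.Z * ((a + b) / 2) ^ 2 + 4 * p.Z + p.E S.e2 S.u) - n * w := by
    field_simp
    ring
  rw [h7] at h6
  have h8 : p.Pa a b * ((S.A2 ν - n) * a + 2 * (n * ⟪S.eta, ν⟫) + 2 * S.Ce ν e a) +
      p.Pb a b * ((S.A2 ν - n) * b + 2 * (n * ⟪S.eta, ν⟫) + 2 * S.Ce ν e' b) =
      (S.A2 ν - n) * (8 * p.Y + 2 * p.E S.e2 S.u - p.mu1 * (a + b)) +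
      2 * (n * ⟪S.eta, ν⟫) * (2 * p.mu1 - 4 * p.Z * (a + b)) +
      2 * (p.Pa a b * S.Ce ν e a + p.Pb a b * S.Ce ν e' b) := by
    rw [← hS, ← hP]
    ring
  rw [h8]
  linarith

end SF

end Pool.Agent.Lib.MP_de485e_gt.Hi
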