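import Pool.Agent.Lib.MP_de485e_gt.Hi.P1

/-! Change of basis for the cubic and quartic quantities. -/

open scoped RealInnerProductSpace

namespace Pool.Agent.Lib.MP_de485e_gt.Hi

variable {n : ℕ} {V N : Type} [NormedAddCommGroup V] [InnerProductSpace ℝ V]
  [FiniteDimensional ℝ V] [NormedAddCommGroup N] [InnerProductSpace ℝ N] [FiniteDimensional ℝ N]

/-- Bilinearity of a real function of two vectors. -/
def P1b_Bil {V : Type} [AddCommGroup V] [Module ℝ V] (f : V → V → ℝ) : Prop :=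
  (∀ y, IsLinearMap ℝ fun x => f x y) ∧ ∀ x, IsLinearMap ℝ fun y => f x y

section Bil

variable {U : Type} [AddCommGroup U] [Module ℝ U]

theorem P1b_lin_sum {ι : Type} [Fintype ι] {f : ι → U → ℝ} (h : ∀ i, IsLinearMap ℝ (f i)) :
    IsLinearMap ℝ fun x => ∑ i, f i x :=
  ⟨fun x y => by simp only [(h _).map_add, Finset.sum_add_distrib],
    fun c x => by simp only [(h _).map_smul, Finset.smul_sum]⟩

theorem P1b_bil_sum {ι : Type} [Fintype ι] {f : ι → U → U → ℝ} (h : ∀ i, P1b_Bil (f i)) :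
    P1b_Bil fun x y => ∑ i, f i x y :=
  ⟨fun y => P1b_lin_sum fun i => (h i).1 y, fun x => P1b_lin_sum fun i => (h i).2 x⟩

theorem P1b_bil_mul {φ ψ : U → ℝ} (h1 : IsLinearMap ℝ φ) (h2 : IsLinearMap ℝ ψ) :
    P1b_Bil fun x y => φ x * ψ y :=
  ⟨fun y => ⟨fun a b => by simp only [h1.map_add, add_mul],
      fun c a => by simp only [h1.map_smul, smul_eq_mul, mul_assoc]⟩,
    fun x => ⟨fun a b => by simp only [h2.map_add, mul_add],
      fun c a => by simp only [h2.map_smul, smul_eq_mul, mul_left_comm]⟩⟩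

end Bil

omit [FiniteDimensional ℝ V] [FiniteDimensional ℝ N] in
theorem P1b_l1 (k : V →ₗ[ℝ] V →ₗ[ℝ] N) (y : V) (ξ : N) : IsLinearMap ℝ fun x => ⟪k x y, ξ⟫ :=
  ⟨fun a b => by simp [inner_add_left], fun c a => by simp [inner_smul_left]⟩

omit [FiniteDimensional ℝ V] [FiniteDimensional ℝ N] in
theorem P1b_l2 (k : V →ₗ[ℝ] V →ₗ[ℝ] N) (x : V) (ξ : N) : IsLinearMap ℝ fun y => ⟪k x y, ξ⟫ :=
  ⟨fun a b => by simp [inner_add_left], fun c a => by simp [inner_smul_left]⟩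

omit [FiniteDimensional ℝ V] [FiniteDimensional ℝ N] in
theorem P1b_r1 (k : V →ₗ[ℝ] V →ₗ[ℝ] N) (y : V) (ξ : N) : IsLinearMap ℝ fun x => ⟪ξ, k x y⟫ :=
  ⟨fun a b => by simp [inner_add_right], fun c a => by simp [inner_smul_right]⟩

omit [FiniteDimensional ℝ V] [FiniteDimensional ℝ N] in
theorem P1b_r2 (k : V →ₗ[ℝ] V →ₗ[ℝ] N) (x : V) (ξ : N) : IsLinearMap ℝ fun y => ⟪ξ, k x y⟫ :=
  ⟨fun a b => by simp [inner_add_right], fun c a => by simp [inner_smul_right]⟩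

theorem P1b_sum1 (b b' : OrthonormalBasis (Fin n) ℝ V) {f : V → V → ℝ} (h : P1b_Bil f) :
    ∑ i, f (b' i) (b' i) = ∑ i, f (b i) (b i) :=
  sum_bilin (LinearMap.mk₂ ℝ f (fun a a' y => (h.1 y).map_add a a')
    (fun c a y => (h.1 y).map_smul c a) (fun x a a' => (h.2 x).map_add a a')
    (fun c x a => (h.2 x).map_smul c a)) b' b

theorem P1b_sum2 (b b' : OrthonormalBasis (Fin n) ℝ V) (F : V → V → V → V → ℝ)
    (h1 : ∀ y, P1b_Bil fun x x' => F x x' y y) (h2 : ∀ x, P1b_Bil fun y y' => F x x y y') :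
    ∑ i, ∑ j, F (b' i) (b' i) (b' j) (b' j) = ∑ i, ∑ j, F (b i) (b i) (b j) (b j) := by
  rw [Finset.sum_congr rfl fun i _ => P1b_sum1 b b' (h2 (b' i))]
  exact P1b_sum1 b b' (f := fun x x' => ∑ j, F x x' (b j) (b j)) (P1b_bil_sum fun j => h1 (b j))

theorem P1b_sum4 (b b' : OrthonormalBasis (Fin n) ℝ V) (F : V → V → V → V → V → V → V → V → ℝ)
    (h1 : ∀ y z w, P1b_Bil fun x x' => F x x' y y z z w w)
    (h2 : ∀ x z w, P1b_Bil fun y y' => F x x y y' z z w w)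
    (h3 : ∀ x y w, P1b_Bil fun z z' => F x x y y z z' w w)
    (h4 : ∀ x y z, P1b_Bil fun w w' => F x x y y z z w w') :
    ∑ i, ∑ j, ∑ k, ∑ l, F (b' i) (b' i) (b' j) (b' j) (b' k) (b' k) (b' l) (b' l) =
      ∑ i, ∑ j, ∑ k, ∑ l, F (b i) (b i) (b j) (b j) (b k) (b k) (b l) (b l) := by
  rw [Finset.sum_congr rfl fun i _ => Finset.sum_congr rfl fun j _ =>
    P1b_sum2 b b' (F (b' i) (b' i) (b' j) (b' j)) (h3 _ _) (h4 _ _)]
  exact P1b_sum2 b b' (fun x x' y y' => ∑ k, ∑ l, F x x' y y' (b k) (b k) (b l) (b l))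
    (fun y => P1b_bil_sum fun k => P1b_bil_sum fun l => h1 y _ _)
    (fun x => P1b_bil_sum fun k => P1b_bil_sum fun l => h2 x _ _)

theorem P1b_reorder {ι κ : Type} [Fintype ι] [Fintype κ] (F : ι → ι → κ → κ → κ → κ → ℝ) :
    ∑ α, ∑ β, ∑ j, ∑ k, ∑ i, ∑ l, F α β j k i l = ∑ i, ∑ j, ∑ k, ∑ l, ∑ α, ∑ β, F α β j k i l :=
  calc ∑ α, ∑ β, ∑ j, ∑ k, ∑ i, ∑ l, F α β j k i l
      = ∑ p : ι × ι × κ × κ × κ × κ,
          F p.1 p.2.1 p.2.2.1 p.2.2.2.1 p.2.2.2.2.1 p.2.2.2.2.2 := by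
        simp only [Fintype.sum_prod_type]
    _ = ∑ q : κ × κ × κ × κ × ι × ι,
          F q.2.2.2.2.1 q.2.2.2.2.2 q.2.1 q.2.2.1 q.1 q.2.2.2.1 :=
        Fintype.sum_equiv
          ⟨fun p => (p.2.2.2.2.1, p.2.2.1, p.2.2.2.1, p.2.2.2.2.2, p.1, p.2.1),
            fun q => (q.2.2.2.2.1, q.2.2.2.2.2, q.2.1, q.2.2.1, q.1, q.2.2.2.1),
            fun _ => rfl, fun _ => rfl⟩ _ _ fun _ => rfl
    _ = _ := by simp only [Fintype.sum_prod_type]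

theorem P1b_reorder' {ι κ : Type} [Fintype ι] [Fintype κ] (F : ι → ι → κ → κ → κ → κ → ℝ) :
    ∑ α, ∑ β, ∑ j, ∑ k, ∑ i, ∑ l, F α β j k i l = ∑ i, ∑ l, ∑ j, ∑ α, ∑ k, ∑ β, F α β j k i l :=
  calc ∑ α, ∑ β, ∑ j, ∑ k, ∑ i, ∑ l, F α β j k i l
      = ∑ p : ι × ι × κ × κ × κ × κ,
          F p.1 p.2.1 p.2.2.1 p.2.2.2.1 p.2.2.2.2.1 p.2.2.2.2.2 := by
        simp only [Fintype.sum_prod_type]
    _ = ∑ q : κ × κ × κ × ι × κ × ι,
          F q.2.2.2.1 q.2.2.2.2.2 q.2.2.1 q.2.2.2.2.1 q.1 q.2.1 :=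
        Fintype.sum_equiv
          ⟨fun p => (p.2.2.2.2.1, p.2.2.2.2.2, p.2.2.1, p.1, p.2.2.2.1, p.2.1),
            fun q => (q.2.2.2.1, q.2.2.2.2.2, q.2.2.1, q.2.2.2.2.1, q.1, q.2.1),
            fun _ => rfl, fun _ => rfl⟩ _ _ fun _ => rfl
    _ = _ := by simp only [Fintype.sum_prod_type]

/-- Cauchy-Schwarz for `tr (A B A B)`, summed over a family of symmetric matrices. -/
theorem P1b_trace {ι κ : Type} [Fintype ι] [Fintype κ] (A : ι → κ → κ → ℝ)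
    (hA : ∀ α i j, A α i j = A α j i) :
    -(∑ i, ∑ j, ∑ k, ∑ l, (∑ α, A α i j * A α k l) * ∑ β, A β i k * A β j l) ≤
      ∑ i, ∑ l, (∑ j, ∑ α, A α i j * A α l j) ^ 2 := by
  set P : ι → ι → κ → κ → ℝ := fun α β j k => ∑ i, A α i j * A β i k with hP
  have e1 : ∑ i, ∑ j, ∑ k, ∑ l, (∑ α, A α i j * A α k l) * ∑ β, A β i k * A β j l =
      ∑ α, ∑ β, ∑ j, ∑ k, P α β j k * P α β k j := by
    simp only [hP, Finset.sum_mul_sum]
    rw [P1b_reorder fun α β j k i l => A α i j * A β i k * (A α l k * A β l j)]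
    refine Finset.sum_congr rfl fun i _ => Finset.sum_congr rfl fun j _ =>
      Finset.sum_congr rfl fun k _ => Finset.sum_congr rfl fun l _ =>
      Finset.sum_congr rfl fun α _ => Finset.sum_congr rfl fun β _ => ?_
    rw [hA α l k, hA β l j]
    ring
  have e2 : ∑ i, ∑ l, (∑ j, ∑ α, A α i j * A α l j) ^ 2 =
      ∑ α, ∑ β, ∑ j, ∑ k, P α β j k * P α β j k := by
    simp only [hP, Finset.sum_mul_sum]
    rw [P1b_reorder' fun α β j k i l => A α i j * A β i k * (A α l j * A β l k)]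
    refine Finset.sum_congr rfl fun i _ => Finset.sum_congr rfl fun l _ => ?_
    rw [sq, Finset.sum_mul]
    refine Finset.sum_congr rfl fun j _ => ?_
    rw [Finset.sum_mul]
    refine Finset.sum_congr rfl fun α _ => ?_
    rw [Finset.mul_sum]
    refine Finset.sum_congr rfl fun k _ => ?_
    rw [Finset.mul_sum]
    refine Finset.sum_congr rfl fun β _ => ?_
    ring
  rw [e1, e2, ← Finset.sum_neg_distrib]
  refine Finset.sum_le_sum fun α _ => ?_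
  rw [← Finset.sum_neg_distrib]
  refine Finset.sum_le_sum fun β _ => ?_
  have h1 : ∑ j, ∑ k, P α β k j * P α β k j = ∑ j, ∑ k, P α β j k * P α β j k := Finset.sum_comm
  have h2 : 0 ≤ ∑ j, ∑ k, (P α β j k + P α β k j) ^ 2 := by positivity
  have h3 : ∑ j, ∑ k, (P α β j k + P α β k j) ^ 2 = ∑ j, ∑ k, P α β j k * P α β j k +
      2 * ∑ j, ∑ k, P α β j k * P α β k j + ∑ j, ∑ k, P α β k j * P α β k j := by
    simp only [Finset.mul_sum, ← Finset.sum_add_distrib]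
    refine Finset.sum_congr rfl fun j _ => Finset.sum_congr rfl fun k _ => ?_
    ring
  linarith

namespace SF

variable (S : SF n V N) (b' : OrthonormalBasis (Fin n) ℝ V)

theorem wb_G2 : (S.wb b').G2 = S.G2 := by
  obtain ⟨k, hk⟩ := S.exists_h0
  simp only [G2, wb_h0, ← hk, sq]
  exact P1b_sum4 S.b b' (fun x x' y y' z z' w w' => ⟪k x y, k z w⟫ * ⟪k x' y', k z' w'⟫)
    (fun y z w => P1b_bil_mul (P1b_l1 k y _) (P1b_l1 k y _))
    (fun x z w => P1b_bil_mul (P1b_l2 k x _) (P1b_l2 k x _))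
    (fun x y w => P1b_bil_mul (P1b_r1 k w _) (P1b_r1 k w _))
    (fun x y z => P1b_bil_mul (P1b_r2 k z _) (P1b_r2 k z _))

theorem P1b_wb_M0 (i l : Fin n) :
    (S.wb b').M0 i l = ∑ j, ⟪S.h0 (b' i) (S.b j), S.h0 (b' l) (S.b j)⟫ := by
  obtain ⟨k, hk⟩ := S.exists_h0
  simp only [M0, wb_h0, ← hk]
  exact P1b_sum1 S.b b' (f := fun y y' => ⟪k (b' i) y, k (b' l) y'⟫)
    ⟨fun y => P1b_l2 k _ _, fun x => P1b_r2 k _ _⟩

theorem wb_MM : ∑ i, ∑ k, (S.wb b').M0 i k ^ 2 = ∑ i, ∑ k, S.M0 i k ^ 2 := by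
  obtain ⟨k, hk⟩ := S.exists_h0
  simp only [P1b_wb_M0]
  simp only [M0, ← hk, sq]
  exact P1b_sum2 S.b b' (fun x x' y y' => (∑ j, ⟪k x (S.b j), k y (S.b j)⟫) *
      ∑ j, ⟪k x' (S.b j), k y' (S.b j)⟫)
    (fun y => P1b_bil_mul (P1b_lin_sum fun j => P1b_l1 k _ _) (P1b_lin_sum fun j => P1b_l1 k _ _))
    (fun x => P1b_bil_mul (P1b_lin_sum fun j => P1b_r1 k _ _) (P1b_lin_sum fun j => P1b_r1 k _ _))

theorem wb_J0 : (S.wb b').J0 = S.J0 := by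
  obtain ⟨k, hk⟩ := S.exists_h0
  simp only [J0, wb_h0, ← hk]
  exact P1b_sum4 S.b b' (fun x x' y y' z z' w w' => ⟪k x y, k z w⟫ * ⟪k x' z', k y' w'⟫)
    (fun y z w => P1b_bil_mul (P1b_l1 k y _) (P1b_l1 k z _))
    (fun x z w => P1b_bil_mul (P1b_l2 k x _) (P1b_r1 k w _))
    (fun x y w => P1b_bil_mul (P1b_r1 k w _) (P1b_l2 k x _))
    (fun x y z => P1b_bil_mul (P1b_r2 k z _) (P1b_r2 k y _))

theorem wb_CC : (S.wb b').CC = S.CC := by
  rw [CC, CC, wb_MM, wb_J0]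

theorem wb_cub : (S.wb b').cub = S.cub := by
  obtain ⟨k, hk⟩ := S.exists_h0
  simp only [cub, P1b_wb_M0, wb_h0, wb_eta]
  simp only [M0, ← hk]
  exact P1b_sum2 S.b b' (fun x x' y y' => ⟪k x y, S.eta⟫ * ∑ j, ⟪k x' (S.b j), k y' (S.b j)⟫)
    (fun y => P1b_bil_mul (P1b_l1 k _ _) (P1b_lin_sum fun j => P1b_l1 k _ _))
    (fun x => P1b_bil_mul (P1b_l2 k _ _) (P1b_lin_sum fun j => P1b_r1 k _ _))

theorem wb_Ce (ν : N) (e : V) (a : ℝ) : (S.wb b').Ce ν e a = S.Ce ν e a := by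
  have h1 : ∑ j, ‖S.h e (b' j)‖ ^ 2 = ∑ j, ‖S.h e (S.b j)‖ ^ 2 := by
    simp only [← real_inner_self_eq_norm_sq]
    exact P1b_sum1 S.b b' (f := fun y y' => ⟪S.h e y, S.h e y'⟫)
      ⟨fun y => P1b_l2 S.h _ _, fun x => P1b_r2 S.h _ _⟩
  have h2 := P1b_sum2 S.b b' (fun x x' y y' => ⟪S.h x y, ν⟫ * ⟪S.h e x', S.h e y'⟫)
    (fun y => P1b_bil_mul (P1b_l1 S.h _ _) (P1b_l2 S.h _ _))
    (fun x => P1b_bil_mul (P1b_l2 S.h _ _) (P1b_r2 S.h _ _))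
  change a * ∑ j, ‖S.h e (b' j)‖ ^ 2 -
    ∑ j, ∑ k, ⟪S.h (b' j) (b' k), ν⟫ * ⟪S.h e (b' j), S.h e (b' k)⟫ = _
  rw [h1, h2, Ce]

theorem P1b_J0_le : -S.J0 ≤ ∑ i, ∑ k, S.M0 i k ^ 2 := by
  let c := stdOrthonormalBasis ℝ N
  have hc : ∀ x y : N, ⟪x, y⟫ = ∑ α, ⟪x, c α⟫ * ⟪y, c α⟫ := fun x y => by
    rw [← c.sum_inner_mul_inner x y]
    exact Finset.sum_congr rfl fun α _ => by rw [real_inner_comm y (c α)]
  have h := P1b_trace (fun α i j => ⟪S.h0 (S.b i) (S.b j), c α⟫)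
    (fun α i j => by rw [S.h0_symm])
  simp only [← hc] at h
  exact h

theorem P1b_MM_le {Ω : ℝ} (h : ∀ e : V, ‖e‖ = 1 → ∑ j, ‖S.h0 e (S.b j)‖ ^ 2 ≤ Ω) :
    ∑ i, ∑ k, S.M0 i k ^ 2 ≤ Ω * S.u := by
  obtain ⟨k, hk⟩ := S.exists_h0
  have hb : P1b_Bil fun x y => ∑ j, ⟪k x (S.b j), k y (S.b j)⟫ :=
    ⟨fun y => P1b_lin_sum fun j => P1b_l1 k _ _, fun x => P1b_lin_sum fun j => P1b_r1 k _ _⟩
  obtain ⟨f, lam, hf⟩ := exists_diag S.b
    (LinearMap.mk₂ ℝ (fun x y => ∑ j, ⟪k x (S.b j), k y (S.b j)⟫)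
      (fun a a' y => (hb.1 y).map_add a a') (fun c a y => (hb.1 y).map_smul c a)
      (fun x a a' => (hb.2 x).map_add a a') (fun c x a => (hb.2 x).map_smul c a))
    (fun x y => by
      simp only [LinearMap.mk₂_apply]
      exact Finset.sum_congr rfl fun j _ => real_inner_comm _ _)
  simp only [LinearMap.mk₂_apply, hk] at hf
  have hl : ∀ i, lam i = ∑ j, ‖S.h0 (f i) (S.b j)‖ ^ 2 := fun i => by
    have h1 := hf i (f i)
    simp only [real_inner_self_eq_norm_sq, f.orthonormal.1 i] at h1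
    rw [h1]
    ring
  have hu : S.u = ∑ i, lam i := by
    rw [← S.wb_u f]
    simp only [u, wb_h0, hl]
    exact Finset.sum_congr rfl fun i _ => S.wb_row f (f i)
  rw [← S.wb_MM f, hu, Finset.mul_sum]
  refine Finset.sum_le_sum fun i _ => ?_
  simp only [P1b_wb_M0, hf]
  rw [Finset.sum_eq_single i (fun l _ hli => by rw [f.orthonormal.2 hli.symm]; simp) (by simp)]
  have h0 : 0 ≤ lam i := by rw [hl]; positivity
  have h1 : lam i ≤ Ω := by rw [hl]; exact h _ (f.orthonormal.1 i)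
  rw [real_inner_self_eq_norm_sq, f.orthonormal.1 i]
  nlinarith

/-- With an orthonormal basis of `N` and the matrices `A α`: `|J0| ≤ ∑ M0 ^ 2`
(Cauchy-Schwarz for `tr (A B A B)`) and `∑ M0 ^ 2 = ∑ α j, M0 (A α b j, A α b j) ≤ Ω u`. -/
theorem CC_le_of_row {Ω : ℝ} (h : ∀ e : V, ‖e‖ = 1 → ∑ j, ‖S.h0 e (S.b j)‖ ^ 2 ≤ Ω) :
    S.CC ≤ 4 * Ω * S.u := by
  have h1 := S.P1b_J0_le
  have h2 := S.P1b_MM_le h
  rw [CC]
  linarith

end SF

end Pool.Agent.Lib.MP_de485e_gt.Hi
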