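import Pool.Agent.Lib.MP_de485e_gt.Hi.P4

/-! Splitting along the mean curvature vector (section 4 of the note). -/

open scoped RealInnerProductSpace

namespace Pool.Agent.Lib.MP_de485e_gt.Hi

variable {n : ℕ} {V N : Type} [NormedAddCommGroup V] [InnerProductSpace ℝ V]
  [FiniteDimensional ℝ V] [NormedAddCommGroup N] [InnerProductSpace ℝ N] [FiniteDimensional ℝ N]

theorem P5_MM (μ : Fin n → ℝ) (M : Fin n → Fin n → ℝ) :
    ∑ i, ∑ k, ((if i = k then μ i ^ 2 else 0) + M i k) ^ 2 =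
      ∑ i, μ i ^ 4 + 2 * ∑ i, μ i ^ 2 * M i i + ∑ i, ∑ k, M i k ^ 2 := by
  rw [Finset.mul_sum, ← Finset.sum_add_distrib, ← Finset.sum_add_distrib]
  refine Finset.sum_congr rfl fun i _ => ?_
  have : ∀ k, ((if i = k then μ i ^ 2 else 0) + M i k) ^ 2 =
      (if i = k then μ i ^ 4 + 2 * (μ i ^ 2 * M i i) else 0) + M i k ^ 2 := by
    intro k
    split_ifs with h
    · subst h
      ring
    · ring
  simp only [this, Finset.sum_add_distrib, Finset.sum_ite_eq, Finset.mem_univ, if_true]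

theorem P5_JJ (μ : Fin n → ℝ) (K : Fin n → Fin n → Fin n → Fin n → ℝ) :
    ∑ i, ∑ j, ∑ k, ∑ l,
      ((if i = j then μ i else 0) * (if k = l then μ k else 0) + K i j k l) *
        ((if i = k then μ i else 0) * (if j = l then μ j else 0) + K i k j l) =
      ∑ i, μ i ^ 4 + 2 * ∑ i, ∑ j, μ i * μ j * K i j i j +
        ∑ i, ∑ j, ∑ k, ∑ l, K i j k l * K i k j l := by
  have e1 : ∑ i, ∑ j, ∑ k, ∑ l, ((if i = j then μ i else 0) * (if k = l then μ k else 0)) *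
      ((if i = k then μ i else 0) * (if j = l then μ j else 0)) = ∑ i, μ i ^ 4 := by
    refine Finset.sum_congr rfl fun i _ => ?_
    rw [Finset.sum_eq_single i (fun j _ hj => by simp [hj.symm]) (by simp),
      Finset.sum_eq_single i (fun j _ hj => by simp [hj.symm]) (by simp),
      Finset.sum_eq_single i (fun j _ hj => by simp [hj.symm]) (by simp)]
    simp only [if_true]
    ring
  have e2 : ∑ i, ∑ j, ∑ k, ∑ l, ((if i = j then μ i else 0) * (if k = l then μ k else 0)) *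
      K i k j l = ∑ i, ∑ j, μ i * μ j * K i j i j := by
    refine Finset.sum_congr rfl fun i _ => ?_
    rw [Finset.sum_eq_single i (fun j _ hj => by simp [hj.symm]) (by simp)]
    refine Finset.sum_congr rfl fun k _ => ?_
    rw [Finset.sum_eq_single k (fun j _ hj => by simp [hj.symm]) (by simp)]
    simp only [if_true]
  have e3 : ∑ i, ∑ j, ∑ k, ∑ l, K i j k l *
      ((if i = k then μ i else 0) * (if j = l then μ j else 0)) =
      ∑ i, ∑ j, μ i * μ j * K i j i j := by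
    refine Finset.sum_congr rfl fun i _ => Finset.sum_congr rfl fun j _ => ?_
    rw [Finset.sum_eq_single i (fun j _ hj => by simp [hj.symm]) (by simp),
      Finset.sum_eq_single j (fun j _ hj => by simp [hj.symm]) (by simp)]
    simp only [if_true]
    ring
  simp only [add_mul, mul_add, Finset.sum_add_distrib]
  rw [e1, e2, e3]
  ring

theorem P5_inner {θ : N} (hθ : ‖θ‖ = 1 ∨ θ = 0) (x x' : N) :
    ⟪x, x'⟫ = ⟪x, θ⟫ * ⟪x', θ⟫ + ⟪off θ x, off θ x'⟫ := by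
  rcases hθ with h | rfl
  · simp only [off_apply, inner_sub_left, inner_sub_right, real_inner_smul_left,
      real_inner_smul_right, real_inner_self_eq_norm_sq, h, real_inner_comm θ]
    ring
  · simp [off_apply]

namespace SF

variable {S : SF n V N} {p : Par n}

theorem P5_eta {θ : N} (hθ : ‖θ‖ = 1 ∨ θ = 0) (hη : S.eta = ‖S.eta‖ • θ) :
    (S.post (off θ)).eta = 0 := by
  rw [post_eta, hη]
  rcases hθ with h | rfl
  · rw [off_apply, real_inner_smul_right, real_inner_self_eq_norm_sq, h]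
    simp
  · simp

/-- `h0 = ⟪h0, θ⟫ θ + k`; the cross term is `‖∑ A i j • k i j‖ ^ 2 ≤ uD θ * (n y)` by `F1` for
`S.post (off θ)`, whose `eta` is `0`. -/
theorem K0.G2_split {Z y : ℝ} (h : S.K0 Z y) (hZ : 0 ≤ Z) (hZ1 : Z ≤ 1) (hy : 0 ≤ y) {θ : N}
    (hθ : ‖θ‖ = 1 ∨ θ = 0) (hη : S.eta = ‖S.eta‖ • θ) :
    S.G2 ≤ S.uD θ ^ 2 + 3 * n * y * S.u := by
  have h' : (S.post (off θ)).K0 Z y := h.post hZ hy (off_symm θ) (off_norm_le hθ)
  have hη' := P5_eta hθ hη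
  have hu := S.post_off_u hθ
  have hu0 := (S.post (off θ)).u_nonneg
  have hD0 := S.uD_nonneg θ
  have hG : (S.post (off θ)).G2 ≤ n * y * (S.u - S.uD θ) := by
    have h1 := h'.G2_le hZ hZ1 hy
    have h2 : (S.post (off θ)).zeta = 0 := by simp [zeta, uD, hη']
    rwa [h2, mul_zero, add_zero, hu] at h1
  let A : Fin n → Fin n → ℝ := fun i j => ⟪S.h0 (S.b i) (S.b j), θ⟫
  let k : Fin n → Fin n → N := fun i j => off θ (S.h0 (S.b i) (S.b j))
  have hD : S.uD θ = ∑ i, ∑ j, A i j ^ 2 := rfl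
  have hG' : (S.post (off θ)).G2 = ∑ i, ∑ j, ∑ a, ∑ l, ⟪k i j, k a l⟫ ^ 2 := by
    simp only [G2, post_h0]
    rfl
  obtain ⟨ξ, hξ⟩ : ∃ ξ : N, ξ = ∑ i, ∑ j, A i j • k i j := ⟨_, rfl⟩
  have hD' : (S.post (off θ)).uD ξ = ∑ i, ∑ j, ⟪k i j, ξ⟫ ^ 2 := by
    simp only [uD, post_h0]
    rfl
  have e1 : ‖ξ‖ ^ 2 = ∑ i, ∑ j, A i j * ⟪k i j, ξ⟫ := by
    rw [← real_inner_self_eq_norm_sq]
    nth_rewrite 1 [hξ]
    simp only [sum_inner, real_inner_smul_left]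
  have e2 : ‖ξ‖ ^ 2 = ∑ i, ∑ j, ∑ a, ∑ l, A i j * A a l * ⟪k i j, k a l⟫ := by
    rw [e1, hξ]
    simp only [inner_sum, real_inner_smul_right, Finset.mul_sum, mul_assoc]
  have e3 : S.G2 = S.uD θ ^ 2 + 2 * ‖ξ‖ ^ 2 + (S.post (off θ)).G2 := by
    have e4 : S.uD θ ^ 2 = ∑ i, ∑ j, ∑ a, ∑ l, A i j ^ 2 * A a l ^ 2 := by
      rw [hD, sq, Finset.sum_mul]
      refine Finset.sum_congr rfl fun i _ => ?_
      rw [Finset.sum_mul]
      simp only [Finset.mul_sum]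
    rw [hG', e2, e4]
    simp only [G2, Finset.mul_sum, ← Finset.sum_add_distrib]
    refine Finset.sum_congr rfl fun i _ => Finset.sum_congr rfl fun j _ =>
      Finset.sum_congr rfl fun a _ => Finset.sum_congr rfl fun l _ => ?_
    rw [P5_inner hθ]
    simp only [A, k]
    ring
  have hcs : (‖ξ‖ ^ 2) ^ 2 ≤ S.uD θ * (S.post (off θ)).uD ξ := by
    rw [e1, hD, hD']
    simpa only [Fintype.sum_prod_type] using Finset.sum_mul_sq_le_sq_mul_sq Finset.univ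
      (fun q : Fin n × Fin n => A q.1 q.2) fun q => ⟪k q.1 q.2, ξ⟫
  have hF := h'.F1 hZ hZ1 hy ξ
  rw [hη', inner_zero_left] at hF
  have hny : 0 ≤ (n : ℝ) * y := by positivity
  have hx : ‖ξ‖ ^ 2 ≤ S.uD θ * (n * y) := by
    rcases (sq_nonneg ‖ξ‖).eq_or_lt with h0 | h0
    · rw [← h0]
      positivity
    · refine le_of_mul_le_mul_right ?_ h0
      have := mul_le_mul_of_nonneg_left hF hD0
      nlinarith
  rw [hu] at hu0
  nlinarith [mul_nonneg hny hu0, mul_nonneg hny hD0]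

/-- In an eigenbasis of `⟪h, θ⟫`: `CC = CC k + 2 ∑ (lam i - lam j) ^ 2 ‖k i j‖ ^ 2`,
`(lam i - lam j) ^ 2 ≤ 144 Z e2 + 72 y`, `CC k ≤ 4 (n + 31) y (u - uD θ)`. -/
theorem K0.CC_split {Z y : ℝ} (h : S.K0 Z y) (hZ : 0 ≤ Z) (hZ1 : Z ≤ 1) (hy : 0 ≤ y) {θ : N}
    (hθ : ‖θ‖ = 1 ∨ θ = 0) (hη : S.eta = ‖S.eta‖ • θ) :
    S.CC ≤ (288 * Z * S.e2 + (4 * n + 268) * y) * (S.u - S.uD θ) := by
  obtain ⟨f, lam, hf⟩ := S.exists_eig θ
  rw [← S.wb_CC f, ← S.wb_e2 f, ← S.wb_u f, ← S.wb_uD f]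
  rw [← S.wb_eta f] at hη
  have h1 : (S.wb f).K0 Z y := h
  have hf' : ∀ i x, ⟪(S.wb f).h ((S.wb f).b i) x, θ⟫ = lam i * ⟪(S.wb f).b i, x⟫ := hf
  generalize S.wb f = T at hη h1 hf' ⊢
  clear hf h
  have h' : (T.post (off θ)).K0 Z y := h1.post hZ hy (off_symm θ) (off_norm_le hθ)
  have hη' := P5_eta hθ hη
  have hu := T.post_off_u hθ
  have hC : (T.post (off θ)).CC ≤ 4 * ((n + 31) * y) * (T.u - T.uD θ) := by
    rw [← hu]
    refine CC_le_of_row _ fun e he => ?_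
    have := h'.row_le hZ hZ1 hy he
    simpa [e2, hη'] using this
  let μ : Fin n → ℝ := fun i => lam i - ⟪T.eta, θ⟫
  let k : Fin n → Fin n → N := fun i j => off θ (T.h0 (T.b i) (T.b j))
  have hb : ∀ i j, ⟪T.b i, T.b j⟫ = if i = j then 1 else 0 :=
    orthonormal_iff_ite.1 T.b.orthonormal
  have hA : ∀ i j, ⟪T.h0 (T.b i) (T.b j), θ⟫ = if i = j then μ i else 0 := by
    intro i j
    rw [h0, inner_sub_left, hf', real_inner_smul_left, hb]
    split_ifs <;> simp [μ]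
  have hI : ∀ i j a l, ⟪T.h0 (T.b i) (T.b j), T.h0 (T.b a) (T.b l)⟫ =
      (if i = j then μ i else 0) * (if a = l then μ a else 0) + ⟪k i j, k a l⟫ := by
    intro i j a l
    rw [P5_inner hθ, hA, hA]
  have hM' : ∀ i a, (T.post (off θ)).M0 i a = ∑ j, ⟪k i j, k a j⟫ := by
    intro i a
    simp only [M0, post_h0]
    rfl
  have hM : ∀ i a, T.M0 i a = (if i = a then μ i ^ 2 else 0) + (T.post (off θ)).M0 i a := by
    intro i a
    rw [hM', M0]
    simp only [hI, Finset.sum_add_distrib]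
    congr 1
    rw [Finset.sum_eq_single i (fun j _ hj => by simp [hj.symm]) (by simp)]
    by_cases hia : i = a
    · subst hia
      simp [sq]
    · simp [hia, Ne.symm hia]
  have hJ' : (T.post (off θ)).J0 = ∑ i, ∑ j, ∑ a, ∑ l, ⟪k i j, k a l⟫ * ⟪k i a, k j l⟫ := by
    simp only [J0, post_h0]
    rfl
  have hJ : T.J0 = ∑ i, μ i ^ 4 + 2 * ∑ i, ∑ j, μ i * μ j * ⟪k i j, k i j⟫ +
      (T.post (off θ)).J0 := by
    rw [hJ', J0]
    simp only [hI]
    exact P5_JJ μ fun i j a l => ⟪k i j, k a l⟫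
  have hu' : T.u - T.uD θ = ∑ i, ∑ j, ⟪k i j, k i j⟫ := by
    rw [← hu]
    simp only [u, post_h0, real_inner_self_eq_norm_sq]
    rfl
  have hsym : ∑ i, ∑ j, μ j ^ 2 * ⟪k i j, k i j⟫ = ∑ i, ∑ j, μ i ^ 2 * ⟪k i j, k i j⟫ := by
    rw [Finset.sum_comm]
    refine Finset.sum_congr rfl fun i _ => Finset.sum_congr rfl fun j _ => ?_
    simp only [k, T.h0_symm (T.b j) (T.b i)]
  have hsq : ∑ i, ∑ j, (μ i - μ j) ^ 2 * ⟪k i j, k i j⟫ =
      ∑ i, ∑ j, μ i ^ 2 * ⟪k i j, k i j⟫ + ∑ i, ∑ j, μ j ^ 2 * ⟪k i j, k i j⟫ -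
        2 * ∑ i, ∑ j, μ i * μ j * ⟪k i j, k i j⟫ := by
    simp only [Finset.mul_sum, ← Finset.sum_add_distrib, ← Finset.sum_sub_distrib]
    refine Finset.sum_congr rfl fun i _ => Finset.sum_congr rfl fun j _ => ?_
    ring
  have hd : ∑ i, μ i ^ 2 * (T.post (off θ)).M0 i i = ∑ i, ∑ j, μ i ^ 2 * ⟪k i j, k i j⟫ := by
    simp only [hM', Finset.mul_sum]
  have hCC : T.CC = (T.post (off θ)).CC + 2 * ∑ i, ∑ j, (μ i - μ j) ^ 2 * ⟪k i j, k i j⟫ := by
    rw [hsq, hsym, CC, CC, hJ]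
    simp only [hM]
    rw [P5_MM, hd]
    ring
  have hθ1 : ‖θ‖ ^ 2 ≤ 1 := by
    rcases hθ with h | rfl
    · rw [h, one_pow]
    · simp
  have hl : ∀ i, ⟪T.h (T.b i) (T.b i), θ⟫ = lam i := fun i => by
    rw [hf', hb, if_pos rfl, mul_one]
  have he : ⟪T.eta, θ⟫ ^ 2 ≤ T.e2 := by
    have h2 := abs_real_inner_le_norm T.eta θ
    have h3 := pow_le_pow_left₀ (abs_nonneg _) h2 2
    rw [sq_abs, mul_pow] at h3
    exact h3.trans (mul_le_of_le_one_right (sq_nonneg _) hθ1)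
  have hy1 : y * ‖θ‖ ^ 2 ≤ y := mul_le_of_le_one_right hy hθ1
  have hl2 : ∀ i, lam i ^ 2 ≤ 36 * T.e2 + 16 * y := fun i => by
    have := h1.F2 hZ hZ1 hy (T.b.orthonormal.1 i) θ
    rw [hl] at this
    linarith
  have hgap : ∀ i j, (μ i - μ j) ^ 2 ≤ 144 * Z * T.e2 + 72 * y := by
    intro i j
    have h2 := h1 _ _ (T.b.orthonormal.1 i) (T.b.orthonormal.1 j) θ
    rw [hl, hl] at h2
    have h3 : lam i * lam j ≤ 36 * T.e2 + 16 * y := by
      nlinarith [hl2 i, hl2 j, sq_nonneg (lam i - lam j)]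
    have h4 := mul_le_mul_of_nonneg_left h3 hZ
    have h5 := mul_le_mul_of_nonneg_left hy1 (show 0 ≤ 1 + Z by linarith)
    have h6 : Z * y ≤ y := mul_le_of_le_one_left hy hZ1
    have h7 : μ i - μ j = lam i - lam j := by simp [μ]
    rw [h7]
    nlinarith
  have hs : ∑ i, ∑ j, (μ i - μ j) ^ 2 * ⟪k i j, k i j⟫ ≤
      (144 * Z * T.e2 + 72 * y) * (T.u - T.uD θ) := by
    rw [hu']
    simp only [Finset.mul_sum]
    exact Finset.sum_le_sum fun i _ => Finset.sum_le_sum fun j _ =>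
      mul_le_mul_of_nonneg_right (hgap i j) real_inner_self_nonneg
  rw [hCC]
  linarith

end SF

end Pool.Agent.Lib.MP_de485e_gt.Hi
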