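import Mathlib

/-! Second fundamental forms at a point and the pinching condition. -/

open scoped RealInnerProductSpace

namespace Pool.Agent.Lib.MP_de485e_gt.Hi

/-- The parameters of the pinching condition. -/
structure Par (n : ℕ) where
  Z : ℝ
  m : ℝ
  l : ℝ
  hZ : 0 < Z
  hm : 0 < m
  hZm : Z + m ≤ 1
  big : 10 ^ 28 * Z ^ 2 ≤ n * m ^ 2
  hl : 0 < l
  hl2 : l ^ 2 = 100 * n
  θ : ℝ
  hθ : θ = 2 ∨ θ = 1 ∧ Z ≤ 1 / 2 ∨ 3 / 2 ≤ θ ∧ θ ≤ 2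

/-- The constant of the Andrews-Baker quantity. -/
noncomputable def kk (n : ℕ) : ℝ := ((n : ℝ) + 2) / (2 * ((n : ℝ) - 1))

namespace Par

variable {n : ℕ} (p : Par n)

noncomputable def Y1 : ℝ := p.Z / (1 + p.θ * p.Z)

/-- The codimension `d` is admissible. -/
def Fit (d : ℕ) : Prop := p.θ = 2 ∨ p.θ = 1 ∧ 2 * (d : ℝ) ≤ (1 - p.m) * n + 2

noncomputable def Y : ℝ := (1 + p.Z) * p.Y1

noncomputable def eps0 : ℝ := p.m / (10 ^ 6 * p.l)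

noncomputable def mu0 : ℝ := p.eps0 * p.Z

noncomputable def mu1 : ℝ := 4000 * p.mu0

noncomputable def g (e2 u : ℝ) : ℝ := p.l ^ 2 + e2 - kk n / n * u

noncomputable def E (e2 u : ℝ) : ℝ := p.mu0 * √(p.g e2 u)

noncomputable def y (e2 u : ℝ) : ℝ := p.Y1 + p.E e2 u / (4 * (1 + p.Z))

noncomputable def Phi (E a b : ℝ) : ℝ :=
  (a - b) ^ 2 - 4 * p.Z * (a * b) - 4 * p.Y + p.mu1 * (a + b) - E

noncomputable def Pa (a b : ℝ) : ℝ := 2 * (a - b) - 4 * p.Z * b + p.mu1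

noncomputable def Pb (a b : ℝ) : ℝ := -2 * (a - b) - 4 * p.Z * a + p.mu1

end Par

variable (n : ℕ) (V N : Type) [NormedAddCommGroup V] [InnerProductSpace ℝ V]
  [NormedAddCommGroup N] [InnerProductSpace ℝ N]

/-- A symmetric bilinear map with an orthonormal basis of the source. -/
structure SF where
  hn : 2 ≤ n
  b : OrthonormalBasis (Fin n) ℝ V
  h : V →ₗ[ℝ] V →ₗ[ℝ] N
  symm : ∀ x y, h x y = h y x

variable {n V N}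

namespace SF

variable (S : SF n V N)

noncomputable def eta : N := (n : ℝ)⁻¹ • ∑ i, S.h (S.b i) (S.b i)

noncomputable def e2 : ℝ := ‖S.eta‖ ^ 2

noncomputable def h0 (x y : V) : N := S.h x y - ⟪x, y⟫ • S.eta

noncomputable def u : ℝ := ∑ i, ∑ j, ‖S.h0 (S.b i) (S.b j)‖ ^ 2

/-- Squared norm of the trace free part of the shape operator in direction `ξ`. -/
noncomputable def uD (ξ : N) : ℝ := ∑ i, ∑ j, ⟪S.h0 (S.b i) (S.b j), ξ⟫ ^ 2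

noncomputable def zeta : ℝ := (n : ℝ)⁻¹ * S.uD S.eta

noncomputable def G2 : ℝ :=
  ∑ i, ∑ j, ∑ k, ∑ l, ⟪S.h0 (S.b i) (S.b j), S.h0 (S.b k) (S.b l)⟫ ^ 2

noncomputable def M0 (i k : Fin n) : ℝ := ∑ j, ⟪S.h0 (S.b i) (S.b j), S.h0 (S.b k) (S.b j)⟫

noncomputable def J0 : ℝ := ∑ i, ∑ j, ∑ k, ∑ l,
  ⟪S.h0 (S.b i) (S.b j), S.h0 (S.b k) (S.b l)⟫ * ⟪S.h0 (S.b i) (S.b k), S.h0 (S.b j) (S.b l)⟫

noncomputable def CC : ℝ := 2 * (∑ i, ∑ k, S.M0 i k ^ 2) - 2 * S.J0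

/-- The cubic term of the Simons identity. -/
noncomputable def cub : ℝ := ∑ i, ∑ k, ⟪S.h0 (S.b i) (S.b k), S.eta⟫ * S.M0 i k

noncomputable def Zs : ℝ := n * ((1 + S.e2) * S.u) + n * S.cub - S.G2 - S.CC

noncomputable def Ru : ℝ := 2 * S.G2 + 2 * ((n : ℝ) ^ 2 * S.zeta) + 2 * S.CC - 2 * (n * S.u)

noncomputable def Re : ℝ := 2 * (n * (S.e2 * S.e2 + S.zeta + S.e2))

/-- Squared norm of the shape operator in direction `ν`. -/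
noncomputable def A2 (ν : N) : ℝ := ∑ i, ∑ j, ⟪S.h (S.b i) (S.b j), ν⟫ ^ 2

/-- The commutator term `∑ β, ⟪(a - A) A^β e, A^β e⟫`. -/
noncomputable def Ce (ν : N) (e : V) (a : ℝ) : ℝ :=
  a * ∑ j, ‖S.h e (S.b j)‖ ^ 2 -
    ∑ j, ∑ k, ⟪S.h (S.b j) (S.b k), ν⟫ * ⟪S.h e (S.b j), S.h e (S.b k)⟫

/-- The same form with another basis. -/
def wb (b' : OrthonormalBasis (Fin n) ℝ V) : SF n V N := ⟨S.hn, b', S.h, S.symm⟩

/-- The form composed with a linear map of the target. -/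
def post (π : N →ₗ[ℝ] N) : SF n V N :=
  ⟨S.hn, S.b, S.h.compr₂ π, fun x y => congrArg π (S.symm x y)⟩

/-- The homogeneous quadratic pinching. -/
def K0 (Z y : ℝ) : Prop := ∀ e e' : V, ‖e‖ = 1 → ‖e'‖ = 1 → ∀ ξ : N,
  (⟪S.h e e, ξ⟫ - ⟪S.h e' e', ξ⟫) ^ 2 ≤
    4 * Z * (⟪S.h e e, ξ⟫ * ⟪S.h e' e', ξ⟫) + 4 * (1 + Z) * y * ‖ξ‖ ^ 2

/-- The preserved condition. -/
def K (p : Par n) : Prop := ∀ (ν : N) (e e' : V), ‖ν‖ = 1 → ‖e‖ = 1 → ‖e'‖ = 1 →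
  p.Phi (p.E S.e2 S.u) ⟪S.h e e, ν⟫ ⟪S.h e' e', ν⟫ ≤ 0

/-- A touching configuration. -/
structure Tch (p : Par n) (ν : N) (e e' : V) (a b : ℝ) : Prop where
  K : S.K p
  hν : ‖ν‖ = 1
  he : ‖e‖ = 1
  he' : ‖e'‖ = 1
  ha : ⟪S.h e e, ν⟫ = a
  hb : ⟪S.h e' e', ν⟫ = b
  le : b ≤ a
  eq : p.Phi (p.E S.e2 S.u) a b = 0

end SF

end Pool.Agent.Lib.MP_de485e_gt.Hi
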