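import Pool.Agent.Lib.MP_de485e_gt.Hi.A3
import Pool.Agent.Lib.MP_de485e_gt.Hi.SDef

/-! The pinching condition and the test fields in terms of arrays. -/

namespace Pool.Agent.Lib.MP_de485e_gt.Hi

variable {ι : Type} [Fintype ι]

def dot {R : Type} [CommRing R] (x y : ι → R) : R := ∑ a, x a * y a

namespace Arr

section ring

variable {R : Type} [CommRing R] [Algebra ℝ R] (X : Arr ι R)

/-- Tangential test field. -/
def U (F0 e : ι → ℝ) (Γ : ι → ι → ℝ) (a : ι) : R :=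
  ∑ b, X.P a b * (algebraMap ℝ R (e b) + ∑ d, Γ b d • (X.F d - algebraMap ℝ R (F0 d)))

/-- Normal test field. -/
def Nu (ν : ι → ℝ) (c : ι) : R :=
  algebraMap ℝ R (ν c) - ∑ d, ν d • X.P c d - X.F c * ∑ d, ν d • X.F d

def phi (U N : ι → R) : R := ∑ a, ∑ b, ∑ c, U a * U b * N c * X.T a b c

noncomputable def om (l : ℝ) : R := algebraMap ℝ R (l ^ 2) + X.e2

/-- The quantity of the gradient estimate; `ζ` is the function `Z` of time. -/
noncomputable def g1 (l : ℝ) (ζ : R) : R := (5 / 4 : ℝ) • (ζ * X.om l) - (X.n : ℝ)⁻¹ • X.u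

/-- Projector on the span of the tangent space and of the mean curvature vector; `Wi = 1 / W`. -/
def Ep (Wi : R) (a d : ι) : R := X.P a d + Wi * (X.HH a * X.HH d)

/-- Centre of the osculating sphere. -/
def cen (Wi : R) (c : ι) : R := X.F c + X.n * (Wi * X.HH c)

end ring

variable (X : Arr ι ℝ)

def Tv (x y : ι → ℝ) (c : ι) : ℝ := ∑ a, ∑ b, x a * y b * X.T a b c

def Av (ξ x y : ι → ℝ) : ℝ := dot (X.Tv x y) ξ

def Am (ξ : ι → ℝ) (a b : ι) : ℝ := ∑ c, X.T a b c * ξ c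

/-- Unit tangent vectors. -/
def UT (e : ι → ℝ) : Prop := X.Tan e ∧ dot e e = 1

/-- Unit vectors normal to the submanifold and tangent to the sphere. -/
def UN (ν : ι → ℝ) : Prop := X.Nrm ν ∧ dot ν X.F = 0 ∧ dot ν ν = 1

def K {n : ℕ} (p : Par n) : Prop := ∀ ν e e', X.UN ν → X.UT e → X.UT e' →
  p.Phi (p.E X.e2 X.u) (X.Av ν e e) (X.Av ν e' e') ≤ 0

structure Tch {n : ℕ} (p : Par n) (ν e e' : ι → ℝ) (a b : ℝ) : Prop where
  K : X.K p
  hν : X.UN ν
  he : X.UT e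
  he' : X.UT e'
  ha : X.Av ν e e = a
  hb : X.Av ν e' e' = b
  le : b ≤ a
  eq : p.Phi (p.E X.e2 X.u) a b = 0

/-- `tau ≤ c`. -/
def Tau (c : ℝ) : Prop := ∀ e e', X.UT e → X.UT e' → dot e e' = 0 →
  ∑ d, (X.Tv e e d - X.Tv e' e' d) ^ 2 ≤ c

def A2 (ν : ι → ℝ) : ℝ := ∑ a, ∑ b, X.Am ν a b ^ 2

def Gn (ν w : ι → ℝ) : ℝ := ∑ c, ∑ e, w c * X.G c e * ν e

def Qe (e : ι → ℝ) (d f : ι) : ℝ := ∑ c, (∑ a, e a * X.T a d c) * ∑ a, e a * X.T a f c

def Ce (ν e : ι → ℝ) (a : ℝ) : ℝ := a * ∑ d, X.Qe e d d - ∑ d, ∑ f, X.Am ν d f * X.Qe e d f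

/-- Reaction term of a test function. -/
def react (ν e : ι → ℝ) (a : ℝ) : ℝ :=
  -((X.n + X.A2 ν) * a) + 2 * X.Gn ν (X.Tv e e) + 2 * X.Ce ν e a

/-- Reaction term of the pinching condition without the derivative of `Y`. -/
noncomputable def Rx {n : ℕ} (p : Par n) (ν e e' : ι → ℝ) (a b : ℝ) : ℝ :=
  p.Pa a b * X.react ν e a + p.Pb a b * X.react ν e' b -
    p.mu0 / (2 * √(p.g X.e2 X.u)) * (X.Re - kk n / n * X.Ru) +
    p.m / 10 * (4 * p.Z * ((a + b) / 2) ^ 2 + p.E X.e2 X.u)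
def be (ν e : ι → ℝ) (k d : ι) : ℝ := ∑ a, ∑ c, X.B k d a c * e a * ν c

def bx (ν e : ι → ℝ) (k : ι) : ℝ := ∑ d, X.be ν e k d * e d

def Gam (ν e : ι → ℝ) (τ : ℝ) (d k : ι) : ℝ := τ * (X.be ν e k d - X.bx ν e k * e d)

/-- Gradient term of a test function. -/
def GT (ν e : ι → ℝ) (a : ℝ) (Γ : ι → ι → ℝ) : ℝ :=
  -(4 * ∑ k, ∑ d, X.be ν e k d * Γ d k) +
    2 * (a * ∑ k, ∑ d, Γ d k ^ 2 - ∑ k, ∑ d, ∑ f, X.Am ν d f * Γ d k * Γ f k)

/-- The tangent space. -/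
def Vt : Submodule ℝ (EuclideanSpace ℝ ι) where
  carrier := {x | X.Tan x.ofLp}
  add_mem' {x y} hx hy a := by
    simp only [PiLp.add_apply, mul_add, Finset.sum_add_distrib, hx a, hy a]
  zero_mem' a := by simp
  smul_mem' r x hx a := by
    have := hx a
    simp only [PiLp.smul_apply, smul_eq_mul, mul_left_comm _ r, ← Finset.mul_sum, this]

/-- The normal space in the sphere. -/
def Nn : Submodule ℝ (EuclideanSpace ℝ ι) where
  carrier := {x | X.Nrm x.ofLp ∧ dot x.ofLp X.F = 0}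
  add_mem' {x y} hx hy := ⟨fun a => by
    simp only [PiLp.add_apply, mul_add, Finset.sum_add_distrib, hx.1 a, hy.1 a, add_zero], by
    have h1 := hx.2
    have h2 := hy.2
    simp only [dot] at h1 h2 ⊢
    simp only [PiLp.add_apply, add_mul, Finset.sum_add_distrib, h1, h2, add_zero]⟩
  zero_mem' := ⟨fun a => by simp, by simp [dot]⟩
  smul_mem' r x hx := ⟨fun a => by
    have := hx.1 a
    simp only [PiLp.smul_apply, smul_eq_mul, mul_left_comm _ r, ← Finset.mul_sum, this, mul_zero], by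
    have h1 := hx.2
    simp only [dot] at h1 ⊢
    simp only [PiLp.smul_apply, smul_eq_mul, mul_assoc, ← Finset.mul_sum, h1, mul_zero]⟩

/-- `S` is the second fundamental form in the sphere described by the arrays. -/
structure Br (S : SF X.n X.Vt X.Nn) : Prop where
  h_eq : ∀ x y c, (S.h x y).1.ofLp c = X.Tv x.1.ofLp y.1.ofLp c + dot x.1.ofLp y.1.ofLp * X.F c
  compl : ∀ a c, ∑ i, (S.b i).1.ofLp a * (S.b i).1.ofLp c = X.P a c

end Arr

end Pool.Agent.Lib.MP_de485e_gt.Hi
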