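import Pool.Agent.Lib.MP_de485e_gt.Hi.R3
import Pool.Agent.Lib.MP_de485e_gt.Hi.ADef

/-! Jets of the test fields at the base point. -/

namespace Pool.Agent.Lib.MP_de485e_gt.Hi.QA

variable {ι : Type} [Fintype ι] {R : Type} [CommRing R] [Algebra ℝ R] (S : QA ι R)
  (ev : R →ₐ[ℝ] ℝ)

private theorem T1a_P (a b : ι) : ev (S.P a b) = (S.pt ev).P a b := rfl

private theorem T1a_F (a : ι) : ev (S.F a) = (S.pt ev).F a := rfl

private theorem T1a_T (a b c : ι) : ev (S.T a b c) = (S.pt ev).T a b c := rfl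

private theorem T1a_M (a b : ι) : ev (S.arr.M a b) = (S.pt ev).M a b := (S.arr.map_M ev a b).symm

private theorem T1a_G (a b : ι) : ev (S.arr.G a b) = (S.pt ev).G a b := (S.arr.map_G ev a b).symm

private theorem T1a_DF (a b : ι) : S.D a (S.F b) = S.P a b := rfl

private theorem T1a_D_mul (k : ι) (g h : R) :
    ev (S.D k (g * h)) = ev (S.D k g) * ev h + ev g * ev (S.D k h) := by
  simp only [Derivation.leibniz, smul_eq_mul, map_add, map_mul]
  ring

private theorem T1a_L_mul (g h : R) : ev (S.L (g * h)) =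
    ev (S.L g) * ev h + ev g * ev (S.L h) - 2 * ∑ k, ev (S.D k g) * ev (S.D k h) := by
  simp only [S.L_mul, grad, map_sub, map_add, map_mul, map_sum, map_ofNat]

omit S in
private theorem T1a_dot (f : ι → R) : ev (dot f f) = ∑ a, ev (f a) * ev (f a) := by
  simp only [dot, map_sum, map_mul]

private theorem T1a_D_dot (k : ι) (f : ι → R) :
    ev (S.D k (dot f f)) = 2 * ∑ a, ev (f a) * ev (S.D k (f a)) := by
  simp only [dot, map_sum, T1a_D_mul, Finset.mul_sum]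
  exact Finset.sum_congr rfl fun a _ => by ring

private theorem T1a_L_dot (f : ι → R) : ev (S.L (dot f f)) =
    2 * ∑ a, ev (f a) * ev (S.L (f a)) - 2 * ∑ k, ∑ a, ev (S.D k (f a)) * ev (S.D k (f a)) := by
  rw [Finset.sum_comm (f := fun k a => ev (S.D k (f a)) * ev (S.D k (f a)))]
  simp only [dot, S.L_sum, map_sum, T1a_L_mul, Finset.mul_sum, ← Finset.sum_sub_distrib]
  exact Finset.sum_congr rfl fun a _ => by ring

theorem U_tan (F0 e : ι → ℝ) (Γ : ι → ι → ℝ) : S.arr.Tan (S.arr.U F0 e Γ) :=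
  R2_tan_l S.good.Ptan _

theorem Nu_nrm (ν : ι → ℝ) : S.arr.Nrm (S.arr.Nu ν) := by
  intro a
  have h1 : ∑ b, S.arr.P a b * ∑ d, ν d • S.arr.P b d = ∑ b, S.arr.P a b * algebraMap ℝ R (ν b) := by
    simp only [Finset.mul_sum, mul_smul_comm]
    rw [Finset.sum_comm]
    refine Finset.sum_congr rfl fun d _ => ?_
    rw [← Finset.smul_sum, S.good.PP, Algebra.smul_def, mul_comm]
  have h2 : ∑ b, S.arr.P a b * (S.arr.F b * ∑ d, ν d • S.arr.F d) = 0 := by
    simp only [← mul_assoc]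
    rw [← Finset.sum_mul, S.good.Fnor a, zero_mul]
  simp only [Arr.Nu, mul_sub, Finset.sum_sub_distrib]
  rw [h1, h2, sub_self, sub_self]

theorem Nu_F (ν : ι → ℝ) : dot (S.arr.Nu ν) S.F = 0 := by
  have h1 : ∑ c, (∑ d, ν d • S.arr.P c d) * S.F c = 0 := by
    simp only [Finset.sum_mul, smul_mul_assoc]
    rw [Finset.sum_comm]
    refine Finset.sum_eq_zero fun d _ => ?_
    have := S.good.tn (S.good.Ptan d) S.good.Fnor
    rw [← Finset.smul_sum]
    exact (congrArg (ν d • ·) this).trans (smul_zero _)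
  have h2 : ∑ c, (S.arr.F c * ∑ d, ν d • S.arr.F d) * S.F c =
      ∑ c, algebraMap ℝ R (ν c) * S.F c := by
    simp only [mul_right_comm _ _ (S.F _)]
    rw [← Finset.sum_mul]
    have : ∑ c, S.arr.F c * S.F c = 1 := S.FF
    rw [this, one_mul]
    exact Finset.sum_congr rfl fun d _ => Algebra.smul_def _ _
  simp only [dot, Arr.Nu, sub_mul, Finset.sum_sub_distrib]
  rw [h1, h2, sub_zero, sub_self]

/-- the vector field before the projection -/
private def T1a_V (e : ι → ℝ) (Γ : ι → ι → ℝ) (b : ι) : R :=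
  algebraMap ℝ R (e b) + ∑ d, Γ b d • (S.F d - algebraMap ℝ R ((S.pt ev).F d))

private theorem T1a_U (e : ι → ℝ) (Γ : ι → ι → ℝ) (a : ι) :
    S.arr.U (S.pt ev).F e Γ a = ∑ b, S.P a b * T1a_V S ev e Γ b := rfl

private theorem T1a_V0 (e : ι → ℝ) (Γ : ι → ι → ℝ) (b : ι) : ev (T1a_V S ev e Γ b) = e b := by
  simp [T1a_V, map_sum, T1a_F]

private theorem T1a_V1 (e : ι → ℝ) {Γ : ι → ι → ℝ} (h2 : ∀ d, (S.pt ev).Tan (Γ d)) (k b : ι) :
    ev (S.D k (T1a_V S ev e Γ b)) = Γ b k := by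
  rw [← h2 b k]
  simp only [T1a_V, map_add, map_sum, Derivation.map_smul, map_sub, Derivation.map_algebraMap,
    zero_add, sub_zero, T1a_DF, map_smul, T1a_P, smul_eq_mul, mul_comm]

private theorem T1a_V2 (e : ι → ℝ) {Γ : ι → ι → ℝ} (h2 : ∀ d, (S.pt ev).Tan (Γ d)) (b : ι) :
    ev (S.L (T1a_V S ev e Γ b)) = 0 := by
  have h := (S.good_pt ev).tn (h2 b) (S.good_pt ev).Fnor
  simp only [T1a_V, S.L_add, S.L_sum, S.L_smul, S.L_sub, S.L_alg, S.L_F, zero_add, sub_zero,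
    map_sum, map_smul, map_mul, map_natCast, T1a_F, smul_eq_mul, mul_left_comm _ (S.n : ℝ),
    ← Finset.mul_sum, h, mul_zero]

/-- the normal component of a constant vector along the position -/
private def T1a_f (ν : ι → ℝ) : R := ∑ d, ν d • S.F d

private theorem T1a_Nu (ν : ι → ℝ) (c : ι) :
    S.arr.Nu ν c = algebraMap ℝ R (ν c) - ∑ d, ν d • S.P c d - S.F c * T1a_f S ν := rfl

private theorem T1a_f0 {ν : ι → ℝ} (hν : (S.pt ev).UN ν) : ev (T1a_f S ν) = 0 := by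
  rw [← hν.2.1]
  simp only [T1a_f, map_sum, map_smul, T1a_F, smul_eq_mul, dot]

private theorem T1a_f1 {ν : ι → ℝ} (hν : (S.pt ev).UN ν) (k : ι) :
    ev (S.D k (T1a_f S ν)) = 0 := by
  rw [← hν.1 k]
  simp only [T1a_f, map_sum, Derivation.map_smul, T1a_DF, map_smul, T1a_P, smul_eq_mul, mul_comm]

private theorem T1a_f2 {ν : ι → ℝ} (hν : (S.pt ev).UN ν) : ev (S.L (T1a_f S ν)) = 0 := by
  have h : ∑ d, ν d * (S.pt ev).F d = 0 := hν.2.1
  simp only [T1a_f, S.L_sum, S.L_smul, S.L_F, map_sum, map_smul, map_mul, map_natCast, T1a_F,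
    smul_eq_mul, mul_left_comm _ (S.n : ℝ), ← Finset.mul_sum, h, mul_zero]

section U

variable {e : ι → ℝ} {Γ : ι → ι → ℝ} (he : (S.pt ev).UT e)
  (h1 : ∀ k, (S.pt ev).Tan fun d => Γ d k) (h2 : ∀ d, (S.pt ev).Tan (Γ d))
include he h1 h2

theorem ev_U (a : ι) : ev (S.arr.U (S.pt ev).F e Γ a) = e a := by
  rw [← he.1 a]
  simp only [T1a_U, map_sum, map_mul, T1a_V0, T1a_P]

theorem ev_DU (k a : ι) :
    ev (S.D k (S.arr.U (S.pt ev).F e Γ a)) = ∑ b, (S.pt ev).T k b a * e b + Γ a k := by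
  have h3 := (S.good_pt ev).tn he.1 ((S.good_pt ev).Tnor k a)
  have h4 := h1 k a
  simp only [mul_comm (e _)] at h3
  simp only [T1a_U, map_sum, T1a_D_mul, T1a_V0, T1a_V1 S ev e h2, S.D_P, map_add, T1a_T, T1a_P,
    add_mul, Finset.sum_add_distrib, h3, h4, zero_add]

theorem ev_LU (a : ι) : ev (S.L (S.arr.U (S.pt ev).F e Γ a)) =
    2 * ∑ b, (S.pt ev).M a b * e b - 2 * ∑ k, ∑ b, (S.pt ev).T k b a * Γ b k := by
  have h3 := (S.good_pt ev).tn he.1 ((S.good_pt ev).G_nrm a)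
  have h4 : ∑ b, ∑ k, (S.pt ev).T k a b * Γ b k = 0 := by
    rw [Finset.sum_comm]
    refine Finset.sum_eq_zero fun k _ => ?_
    simpa only [mul_comm] using (S.good_pt ev).tn (h1 k) ((S.good_pt ev).Tnor k a)
  simp only [mul_comm (e _)] at h3
  rw [Finset.sum_comm (f := fun k b => (S.pt ev).T k b a * Γ b k)]
  simp only [T1a_U, S.L_sum, map_sum, T1a_L_mul, T1a_V0, T1a_V1 S ev e h2, T1a_V2 S ev e h2,
    S.D_P, S.L_P, map_add, map_sub, map_mul, map_ofNat, T1a_T, T1a_M, T1a_G, add_mul, sub_mul,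
    mul_zero, add_zero, mul_assoc, Finset.sum_add_distrib, Finset.sum_sub_distrib,
    ← Finset.mul_sum, h3, h4, zero_add, sub_zero]

theorem inv_U (h3 : ∀ k, ∑ d, e d * Γ d k = 0) {iU : R}
    (hU : iU * dot (S.arr.U (S.pt ev).F e Γ) (S.arr.U (S.pt ev).F e Γ) = 1) :
    ev iU = 1 ∧ (∀ k, ev (S.D k iU) = 0) ∧
      ev (S.L iU) = 2 * ∑ k, ∑ d, Γ d k ^ 2 - 2 * ∑ d, (S.pt ev).Qe e d d := by
  have hg := S.good_pt ev
  have hz : ∀ {x : ι → ℝ} (_ : (S.pt ev).Tan x) (k : ι) (y : ι → ℝ),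
      ∑ a, x a * ∑ b, (S.pt ev).T k b a * y b = 0 := by
    intro x hx k y
    exact hg.tn hx (R2_nrm_l (fun b => hg.Tnor k b) y)
  have n0 : ev (dot (S.arr.U (S.pt ev).F e Γ) (S.arr.U (S.pt ev).F e Γ)) = 1 := by
    simp only [T1a_dot, S.ev_U ev he h1 h2]
    exact he.2
  have n1 : ∀ k, ev (S.D k (dot (S.arr.U (S.pt ev).F e Γ) (S.arr.U (S.pt ev).F e Γ))) = 0 := by
    intro k
    simp only [T1a_D_dot, S.ev_U ev he h1 h2, S.ev_DU ev he h1 h2, mul_add,
      Finset.sum_add_distrib, hz he.1, h3, mul_zero, add_zero]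
  have q1 : ∑ a, e a * ∑ b, (S.pt ev).M a b * e b = ∑ d, (S.pt ev).Qe e d d := by
    simp only [Arr.M, Arr.Qe, Finset.sum_mul, Finset.mul_sum]
    rw [Arr.Good.A2_s4, Arr.Good.A2_s4]
    refine Finset.sum_congr rfl fun d _ => Finset.sum_congr rfl fun c _ => ?_
    rw [Finset.sum_comm]
    exact Finset.sum_congr rfl fun a _ => Finset.sum_congr rfl fun b _ => by ring
  have q2 : ∑ a, e a * ∑ k, ∑ b, (S.pt ev).T k b a * Γ b k = 0 := by
    rw [Finset.sum_congr rfl fun a _ => Finset.mul_sum _ _ (e a), Finset.sum_comm]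
    exact Finset.sum_eq_zero fun k _ => hz he.1 k _
  have q3 : ∀ k, ∑ a, (∑ b, (S.pt ev).T k b a * e b + Γ a k) *
      (∑ b, (S.pt ev).T k b a * e b + Γ a k) = (S.pt ev).Qe e k k + ∑ d, Γ d k ^ 2 := by
    intro k
    have e0 : ∀ x y : ℝ, (x + y) * (x + y) = x * x + 2 * (y * x) + y ^ 2 := fun _ _ => by ring
    have e1 : ∀ a, ∑ b, e b * (S.pt ev).T b k a = ∑ b, (S.pt ev).T k b a * e b := fun a =>
      Finset.sum_congr rfl fun b _ => by rw [hg.Tsymm b k, mul_comm]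
    simp only [e0, Finset.sum_add_distrib, ← Finset.mul_sum, hz (h1 k), Arr.Qe, e1, mul_zero,
      add_zero]
  have n2 : ev (S.L (dot (S.arr.U (S.pt ev).F e Γ) (S.arr.U (S.pt ev).F e Γ))) =
      2 * ∑ d, (S.pt ev).Qe e d d - 2 * ∑ k, ∑ d, Γ d k ^ 2 := by
    simp only [T1a_L_dot, S.ev_U ev he h1 h2, S.ev_DU ev he h1 h2, S.ev_LU ev he h1 h2, q3,
      mul_sub, mul_left_comm _ (2 : ℝ), Finset.sum_add_distrib, Finset.sum_sub_distrib,
      ← Finset.mul_sum, q1, q2]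
    ring
  have i0 := congrArg ev hU
  rw [map_mul, n0, mul_one, map_one] at i0
  have i1 : ∀ k, ev (S.D k iU) = 0 := fun k => by
    have := congrArg (fun g => ev (S.D k g)) hU
    simpa only [T1a_D_mul, n0, n1, mul_one, mul_zero, add_zero, Derivation.map_one_eq_zero,
      map_zero] using this
  refine ⟨i0, i1, ?_⟩
  have i2 := congrArg (fun g => ev (S.L g)) hU
  simp only [T1a_L_mul, n0, n1, n2, i0, mul_one, one_mul, mul_zero, Finset.sum_const_zero,
    S.L_one, map_zero] at i2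
  linarith

end U

section Nu

variable {ν : ι → ℝ} (hν : (S.pt ev).UN ν)
include hν

theorem ev_Nu (c : ι) : ev (S.arr.Nu ν c) = ν c := by
  have h := hν.1 c
  simp only [mul_comm _ (ν _)] at h
  simp [T1a_Nu, map_sum, T1a_f0 S ev hν, T1a_P, h]

theorem ev_DNu (k c : ι) : ev (S.D k (S.arr.Nu ν c)) = -(S.pt ev).Am ν k c := by
  have h := (S.good_pt ev).tn ((S.good_pt ev).Ttan' k c) hν.1
  simp only [mul_comm _ (ν _)] at h
  simp only [T1a_Nu, map_sub, map_sum, Derivation.map_smul, Derivation.map_algebraMap, map_neg,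
    T1a_D_mul, T1a_f0 S ev hν, T1a_f1 S ev hν, S.D_P, map_smul, map_add, T1a_T, smul_eq_mul,
    mul_add, Finset.sum_add_distrib, h, mul_zero, add_zero, sub_zero, zero_sub, Arr.Am,
    mul_comm _ (ν _)]

theorem ev_LNu (c : ι) : ev (S.L (S.arr.Nu ν c)) = 2 * ∑ e, (S.pt ev).G c e * ν e := by
  have h := (S.good_pt ev).tn ((S.good_pt ev).M_tan c) hν.1
  simp only [mul_comm _ (ν _), Arr.Good.M_symm _ c] at h
  simp only [T1a_Nu, S.L_sub, S.L_sum, S.L_smul, S.L_alg, S.L_P, map_sub, map_sum, map_zero,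
    T1a_L_mul, T1a_f0 S ev hν, T1a_f1 S ev hν, T1a_f2 S ev hν, map_smul, map_mul, map_ofNat,
    T1a_M, T1a_G, smul_eq_mul, mul_sub, mul_left_comm _ (2 : ℝ), Finset.sum_sub_distrib,
    ← Finset.mul_sum, h, mul_zero, Finset.sum_const_zero, mul_comm _ (ν _)]
  ring

theorem inv_Nu {iN : R} (hN : iN * iN * dot (S.arr.Nu ν) (S.arr.Nu ν) = 1) (h0 : 0 < ev iN) :
    ev iN = 1 ∧ (∀ k, ev (S.D k iN) = 0) ∧ ev (S.L iN) = -(S.pt ev).A2 ν := by
  have hg := S.good_pt ev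
  have n0 : ev (dot (S.arr.Nu ν) (S.arr.Nu ν)) = 1 := by
    simp only [T1a_dot, S.ev_Nu ev hν]
    exact hν.2.2
  have n1 : ∀ k, ev (S.D k (dot (S.arr.Nu ν) (S.arr.Nu ν))) = 0 := by
    intro k
    have h := hg.tn (R2_tan_l (fun d => hg.Ttan' k d) ν) hν.1
    simp only [mul_comm _ (ν _)] at h
    simp only [T1a_D_dot, S.ev_Nu ev hν, S.ev_DNu ev hν, mul_neg, Finset.sum_neg_distrib, Arr.Am,
      mul_comm _ (ν _), h, neg_zero, mul_zero]
  have q1 : ∑ c, ν c * ∑ e, (S.pt ev).G c e * ν e = (S.pt ev).A2 ν := by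
    simp only [Arr.G, Arr.A2, Arr.Am, sq, Finset.sum_mul, Finset.mul_sum]
    rw [Arr.Good.A2_s4, Arr.Good.A2_s4]
    refine Finset.sum_congr rfl fun a _ => Finset.sum_congr rfl fun b _ => ?_
    rw [Finset.sum_comm]
    exact Finset.sum_congr rfl fun c _ => Finset.sum_congr rfl fun e _ => by ring
  have n2 : ev (S.L (dot (S.arr.Nu ν) (S.arr.Nu ν))) = 2 * (S.pt ev).A2 ν := by
    simp only [T1a_L_dot, S.ev_Nu ev hν, S.ev_DNu ev hν, S.ev_LNu ev hν, mul_left_comm _ (2 : ℝ),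
      ← Finset.mul_sum, q1, ← sq, neg_sq]
    unfold Arr.A2
    ring
  have i0 : ev iN = 1 := by
    have := congrArg ev hN
    rw [map_mul, n0, mul_one, map_one, map_mul] at this
    nlinarith
  have i1 : ∀ k, ev (S.D k iN) = 0 := fun k => by
    have := congrArg (fun g => ev (S.D k g)) hN
    simp only [T1a_D_mul, n0, n1, i0, mul_one, one_mul, mul_zero, add_zero,
      Derivation.map_one_eq_zero, map_zero] at this
    linarith
  refine ⟨i0, i1, ?_⟩
  have i2 := congrArg (fun g => ev (S.L g)) hN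
  simp only [T1a_L_mul, n0, n1, n2, i0, i1, map_mul, mul_one, one_mul, mul_zero,
    Finset.sum_const_zero, S.L_one, map_zero] at i2
  linarith

end Nu

end Pool.Agent.Lib.MP_de485e_gt.Hi.QA
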