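import Pool.Agent.Lib.MP_de485e_gt.Hi.SDef

/-! Elementary facts on the parameters and the reduction of the reaction inequality. -/

namespace Pool.Agent.Lib.MP_de485e_gt.Hi.Par

variable {n : ℕ} (p : Par n)

theorem Z_lt : p.Z < 1 := by linarith [p.hm, p.hZm]

theorem m_lt : p.m < 1 := by linarith [p.hZ, p.hZm]

theorem Zl : 10 ^ 15 * p.Z ≤ p.l * p.m := by
  refine (abs_le_of_sq_le_sq' ?_ (mul_pos p.hl p.hm).le).2
  rw [mul_pow, mul_pow, p.hl2]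
  linarith [p.big]

theorem l_ge (hn : 2 ≤ n) : 14 ≤ p.l := by
  have h : (2 : ℝ) ≤ n := by exact_mod_cast hn
  refine (abs_le_of_sq_le_sq' ?_ p.hl.le).2
  rw [p.hl2]
  linarith

theorem θ_bounds : 1 ≤ p.θ ∧ p.θ ≤ 2 := by
  rcases p.hθ with h | ⟨h, -⟩ | ⟨h, h'⟩
  · rw [h]; norm_num
  · rw [h]; norm_num
  · exact ⟨by linarith, h'⟩

theorem Y1_bounds : p.Z / 3 ≤ p.Y1 ∧ p.Y1 ≤ p.Z ∧ (p.θ = 2 → p.m / 3 ≤ 1 - 3 * p.Y1) := by
  have h0 := p.hZ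
  have h1 := p.Z_lt
  have h2 := p.hZm
  have h3 := p.hm
  obtain ⟨t1, t2⟩ := p.θ_bounds
  have h4 : 0 < 1 + p.θ * p.Z := by positivity
  refine ⟨?_, ?_, fun h => ?_⟩
  · exact div_le_div_of_nonneg_left h0.le h4 (by nlinarith)
  · exact div_le_self h0.le (by nlinarith)
  · have h5 : p.Y1 ≤ (1 - p.m / 3) / 3 := by
      unfold Y1
      rw [div_le_iff₀ h4, h]
      nlinarith [mul_nonneg h3.le (show 0 ≤ 1 - p.Z by linarith)]
    linarith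

theorem Y_rel (h : p.θ = 2) : p.Y - p.Z + p.Z * p.Y1 = 0 := by
  have h4 : 1 + p.θ * p.Z ≠ 0 := by rw [h]; linarith [p.hZ]
  have h5 : p.Y1 * (1 + p.θ * p.Z) = p.Z := div_mul_cancel₀ _ h4
  rw [h] at h5
  unfold Y
  linear_combination h5

theorem Y_one (h : p.θ = 1) : p.Y = p.Z := by
  have h4 : 1 + p.θ * p.Z ≠ 0 := by rw [h]; linarith [p.hZ]
  have h5 : p.Y1 * (1 + p.θ * p.Z) = p.Z := div_mul_cancel₀ _ h4
  rw [h] at h5
  unfold Y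
  linear_combination h5

theorem Y_bounds : 2 * p.Z / 3 ≤ p.Y ∧ p.Y ≤ p.Z := by
  have h0 := p.hZ
  have h1 := p.Z_lt
  obtain ⟨t1, t2⟩ := p.θ_bounds
  have h4 : 0 < 1 + p.θ * p.Z := by positivity
  have h5 : p.Y = (1 + p.Z) * p.Z / (1 + p.θ * p.Z) := by
    unfold Y Y1
    ring
  have h6 := mul_nonneg (mul_nonneg h0.le h0.le) (sub_nonneg.2 t1)
  have h7 := mul_nonneg (mul_nonneg h0.le h0.le) (sub_nonneg.2 t2)
  have h8 := mul_nonneg h0.le (sub_nonneg.2 h1.le)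
  rw [h5]
  constructor
  · rw [le_div_iff₀ h4]
    nlinarith
  · rw [div_le_iff₀ h4]
    nlinarith

theorem Fit.mono {p : Par n} {d d' : ℕ} (h : p.Fit d) (hd : d' ≤ d) : p.Fit d' :=
  h.imp_right fun h => ⟨h.1, le_trans (by exact_mod_cast (by omega : 2 * d' ≤ 2 * d)) h.2⟩

theorem mu0_pos : 0 < p.mu0 := by
  have h0 := p.hZ
  have h1 := p.hm
  have h2 := p.hl
  unfold mu0 eps0
  positivity

theorem mu0_l : p.mu0 * p.l = p.Z * p.m / 10 ^ 6 := by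
  have h2 := p.hl.ne'
  unfold mu0 eps0
  field_simp

theorem kk_bounds (hn : 2 ≤ n) : 1 / 2 ≤ kk n ∧ kk n ≤ 2 := by
  have h : (2 : ℝ) ≤ n := by exact_mod_cast hn
  have h1 : (0 : ℝ) < 2 * ((n : ℝ) - 1) := by linarith
  unfold kk
  rw [le_div_iff₀ h1, div_le_iff₀ h1]
  constructor <;> linarith

/-- `n ≥ 7` or `Z` tiny. -/
theorem kZ (hn : 2 ≤ n) : kk n * p.Z ≤ 3 / 4 := by
  obtain ⟨k1, k2⟩ := kk_bounds hn
  have h0 := p.hZ
  rcases le_or_gt 7 n with h | h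
  · have h' : (7 : ℝ) ≤ n := by exact_mod_cast h
    have h1 : kk n ≤ 3 / 4 := by
      unfold kk
      rw [div_le_iff₀ (by linarith)]
      linarith
    exact (mul_le_of_le_one_right (by linarith) p.Z_lt.le).trans h1
  · have h' : (n : ℝ) ≤ 7 := by exact_mod_cast h.le
    have h1 : p.m ^ 2 ≤ 1 := pow_le_one₀ p.hm.le p.m_lt.le
    have h2 : (n : ℝ) * p.m ^ 2 ≤ 7 * 1 := mul_le_mul h' h1 (sq_nonneg _) (by norm_num)
    have h3 : p.Z ≤ 3 / 8 := (abs_le_of_sq_le_sq' (by linarith [p.big]) (by norm_num)).2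
    calc kk n * p.Z ≤ 2 * (3 / 8) := mul_le_mul k2 h3 h0.le (by norm_num)
      _ = 3 / 4 := by norm_num

theorem Zn (hn : 2 ≤ n) : 10 ^ 6 * p.Z ≤ n := by
  have h : (2 : ℝ) ≤ n := by exact_mod_cast hn
  have h1 : p.m ^ 2 ≤ n := (pow_le_one₀ p.hm.le p.m_lt.le).trans (by linarith)
  have h2 : (n : ℝ) * p.m ^ 2 ≤ n * n := mul_le_mul_of_nonneg_left h1 (by linarith)
  refine (abs_le_of_sq_le_sq' ?_ (by linarith)).2
  nlinarith [p.big, sq_nonneg p.Z]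

theorem E_nonneg (e2 u : ℝ) : 0 ≤ p.E e2 u := mul_nonneg p.mu0_pos.le (Real.sqrt_nonneg _)

theorem E_le (hn : 2 ≤ n) {r u : ℝ} (hr : 0 ≤ r) (hu : 0 ≤ u) :
    p.E (r ^ 2) u ≤ p.mu0 * (p.l + r) := by
  have h1 := (kk_bounds hn).1
  have h2 : 0 ≤ kk n / n * u := mul_nonneg (div_nonneg (by linarith) (Nat.cast_nonneg _)) hu
  have h3 := mul_nonneg p.hl.le hr
  refine mul_le_mul_of_nonneg_left (Real.sqrt_le_iff.2 ⟨by linarith [p.hl], ?_⟩) p.mu0_pos.le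
  unfold g
  nlinarith

theorem y_nonneg (e2 u : ℝ) : 0 ≤ p.y e2 u := by
  have h0 := p.hZ
  exact add_nonneg (by linarith [p.Y1_bounds.1]) (div_nonneg (p.E_nonneg _ _) (by linarith))

theorem y_le (hn : 2 ≤ n) {r u : ℝ} (hr : 0 ≤ r) (hu : 0 ≤ u) :
    p.y (r ^ 2) u ≤ p.Y1 + p.mu0 * (p.l + r) / 4 := by
  have h0 := p.hZ
  have h1 : p.E (r ^ 2) u / (4 * (1 + p.Z)) ≤ p.E (r ^ 2) u / 4 :=
    div_le_div_of_nonneg_left (p.E_nonneg _ _) (by norm_num) (by linarith)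
  have h2 := p.E_le hn hr hu
  unfold y
  linarith

/-- The main part: the terms with the factors `Y` and `Z`. -/
theorem Par0_main {Z m Y1 Y μ E w y s d en th : ℝ} (hZ : 0 < Z) (hZ1 : Z < 1) (hm : 0 < m)
    (b1 : Z / 3 ≤ Y1) (b2 : Y1 ≤ Z) (b3 : m / 3 ≤ 1 - 3 * Y1) (hY : Y = (1 + Z) * Y1)
    (hr : Y - Z + Z * Y1 = 0) (b4 : 2 * Z / 3 ≤ Y) (hμ : 0 ≤ μ) (hw : 0 ≤ w)
    (hE : E = 4 * (1 + Z) * w) (hy : y = Y1 + w) (hs : 0 ≤ s)
    (ht : (1 + Z) * d ^ 2 = Z * s ^ 2 + (1 + Z) * y - μ * s / 2)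
    (hth : th ≤ 2 * en * s - (s ^ 2 - d ^ 2)) :
    8 * Y * (th - 1 + 2 * y) - 16 * Z * (1 - y) * en * s ≤
      -(16 / 9 * (Z * m)) - 8 / 3 * (Z * s ^ 2) + 6 * (Z * E) + 2 * E * |en| * s := by
  have hE0 : 0 ≤ E := by rw [hE]; positivity
  have a1 : Y * th ≤ Y * (2 * en * s - (s ^ 2 - d ^ 2)) :=
    mul_le_mul_of_nonneg_left hth (by linarith)
  have a2 : Y * d ^ 2 = Y1 * (Z * s ^ 2) + Y * y - Y1 * (μ * s) / 2 := by
    rw [hY]; linear_combination Y1 * ht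
  have a3 : 0 ≤ Y1 * (μ * s) := mul_nonneg (by linarith) (mul_nonneg hμ hs)
  have a4 : Y * s ^ 2 = Y1 * s ^ 2 + Y1 * (Z * s ^ 2) := by rw [hY]; ring
  have a5 : Z / 3 * s ^ 2 ≤ Y1 * s ^ 2 := mul_le_mul_of_nonneg_right b1 (sq_nonneg _)
  have a6 : 2 * Z / 3 * (m / 3) ≤ Y * (1 - 3 * Y1) :=
    mul_le_mul b4 b3 (by linarith) (by linarith)
  have a7 : Y * y = Y * Y1 + Y1 * E / 4 := by rw [hy, hE, hY]; ring
  have a8 : Y1 * E ≤ Z * E := mul_le_mul_of_nonneg_right b2 hE0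
  have a9 : Y * (en * s) - Z * (1 - y) * en * s = Z * w * (en * s) := by
    rw [hy]; linear_combination (en * s) * hr
  have a10 : Z * w * (en * s) ≤ Z * w * (|en| * s) :=
    mul_le_mul_of_nonneg_left (mul_le_mul_of_nonneg_right (le_abs_self _) hs) (by positivity)
  have a11 : 8 * (Z * w) * (|en| * s) ≤ E * (|en| * s) := by
    refine mul_le_mul_of_nonneg_right ?_ (by positivity)
    rw [hE]
    nlinarith [mul_nonneg hw (show 0 ≤ 1 - Z by linarith)]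
  linarith

/-- The terms with the factor `mu1`. -/
theorem Par0_mu {Z μ y s d en : ℝ} (hZ : 0 < Z) (hμ : 0 ≤ μ) (hy : 0 ≤ y) (hs : 0 ≤ s)
    (ht : (1 + Z) * d ^ 2 = Z * s ^ 2 + (1 + Z) * y - μ * s / 2) (hen : |en - s| ≤ d) :
    2 * μ * s - 4 * y * μ * s + 4 * μ * en * (1 - y) ≤
      7 * μ + 5 * (μ * s ^ 2) + 2 * (μ * y) + 2 * μ * y * (1 + y) := by
  have a1 : d ^ 2 ≤ s ^ 2 + y := by
    refine le_of_mul_le_mul_left ?_ (show 0 < 1 + Z by linarith)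
    nlinarith [mul_nonneg hμ hs, sq_nonneg s]
  have a2 : d ≤ s + (y + 1) / 2 := by
    refine (abs_le_of_sq_le_sq' ?_ (by linarith)).2
    nlinarith [mul_nonneg hs hy, sq_nonneg (y - 1)]
  obtain ⟨e1, e2⟩ := abs_le.1 hen
  have a3 : en * (1 - y) ≤ s * (1 - y) + (s + (y + 1) / 2) * (1 + y) := by
    nlinarith [mul_nonneg hy (show 0 ≤ en - s + (s + (y + 1) / 2) by linarith)]
  have a4 := mul_le_mul_of_nonneg_left a3 hμ
  have a5 := mul_nonneg hμ (mul_nonneg hy hs)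
  have a6 := mul_nonneg hμ (sq_nonneg (s - 1))
  nlinarith

/-- Section 2 of the note: the terms without the commutator remainder and without `rho`. -/
theorem final_red (hn : 2 ≤ n) (hθ : p.θ = 2) {E y s d en th c : ℝ} (hE : 0 ≤ E)
    (hy : y = p.Y1 + E / (4 * (1 + p.Z))) (hs : 0 ≤ s) (hd : 0 ≤ d)
    (ht : (1 + p.Z) * d ^ 2 = p.Z * s ^ 2 + (1 + p.Z) * y - p.mu1 * s / 2)
    (hen : |en - s| ≤ d) (hth : th ≤ 2 * en * s - (s ^ 2 - d ^ 2)) (hc0 : 0 ≤ c)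
    (hc : c ≤ p.m / 10) :
    (th - 1) * (8 * p.Y + 2 * E - 2 * p.mu1 * s) + 2 * en * (2 * p.mu1 - 8 * p.Z * s) +
        2 * y * (8 * p.Y + 2 * E - 2 * p.mu1 * s - en * (2 * p.mu1 - 8 * p.Z * s)) +
        c * (4 * p.Z * s ^ 2 + 4 * p.Z + E) / n ≤
      -(p.Z * p.m) - 2 * p.Z * s ^ 2 + 7 * p.Z * E + E / 10 + 4 * y * E +
        (2 * th * (E - p.mu1 * s) + 2 * E * |en| * s) + 2 * p.mu1 * y * (1 + y) := by
  have hn' : (2 : ℝ) ≤ n := by exact_mod_cast hn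
  have hZ := p.hZ
  have hZ1 := p.Z_lt
  have hm := p.hm
  have hm1 := p.m_lt
  obtain ⟨b1, b2, b3⟩ := p.Y1_bounds
  have h0 := p.mu0_pos
  have hμ : 0 ≤ p.mu1 := by unfold mu1; linarith
  have hw : 0 ≤ E / (4 * (1 + p.Z)) := by positivity
  have hw' : E / (4 * (1 + p.Z)) ≤ E := div_le_self hE (by linarith)
  have hy0 : 0 ≤ y := by linarith
  have A := Par0_main hZ hZ1 hm b1 b2 (b3 hθ) rfl (p.Y_rel hθ) p.Y_bounds.1 hμ hw
    (show E = 4 * (1 + p.Z) * (E / (4 * (1 + p.Z))) by field_simp) hy hs ht hth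
  have B := Par0_mu hZ hμ hy0 hs ht hen
  have hZm : p.Z * p.m ≤ p.Z := mul_le_of_le_one_right hZ.le hm1.le
  have hZm0 : 0 < p.Z * p.m := mul_pos hZ hm
  have c1 : p.mu1 ≤ p.Z * p.m / 3500 := by
    have h1 : p.mu0 * 14 ≤ p.mu0 * p.l := mul_le_mul_of_nonneg_left (p.l_ge hn) h0.le
    rw [p.mu0_l] at h1
    unfold mu1
    linarith
  have c2 : p.mu1 * s ^ 2 ≤ p.Z / 3500 * s ^ 2 :=
    mul_le_mul_of_nonneg_right (by linarith) (sq_nonneg _)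
  have c3 : p.mu1 * y ≤ p.mu1 * (1 + E) := mul_le_mul_of_nonneg_left (by linarith) hμ
  have c4 : p.mu1 * E ≤ 1 / 2 * E := mul_le_mul_of_nonneg_right (by linarith) hE
  have c5 : 0 ≤ p.Z * s ^ 2 := by positivity
  have c6 : c * (4 * p.Z * s ^ 2 + 4 * p.Z + E) / n ≤
      p.m / 10 * (4 * p.Z * s ^ 2 + 4 * p.Z + E) / 2 :=
    div_le_div₀ (by positivity) (mul_le_mul_of_nonneg_right hc (by positivity)) (by norm_num) hn'
  have c7 : p.m * (p.Z * s ^ 2) ≤ p.Z * s ^ 2 := mul_le_of_le_one_left c5 hm1.le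
  have c8 : p.m * E ≤ E := mul_le_of_le_one_left hE hm1.le
  have c9 : 0 ≤ p.Z * E := mul_nonneg hZ.le hE
  have hY : (1 + p.Z) * p.Y1 = p.Y := rfl
  rw [hY] at A
  linarith

end Pool.Agent.Lib.MP_de485e_gt.Hi.Par
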