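import Pool.Agent.Lib.MP_de485e_gt.Hi.P3
import Pool.Agent.Lib.MP_de485e_gt.Hi.P1b
import Pool.Agent.Lib.MP_de485e_gt.Hi.Par0

/-! Consequences of the preserved condition; the initial condition. -/

open scoped RealInnerProductSpace

namespace Pool.Agent.Lib.MP_de485e_gt.Hi

variable {n : ℕ} {V N : Type} [NormedAddCommGroup V] [InnerProductSpace ℝ V]
  [FiniteDimensional ℝ V] [NormedAddCommGroup N] [InnerProductSpace ℝ N] [FiniteDimensional ℝ N]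

/-- The bound for `(n + 16) y`. -/
private theorem P4_ny (p : Par n) (hn : 2 ≤ n) {r y : ℝ} (hr : 0 ≤ r) (hy : 0 ≤ y)
    (hy' : y ≤ p.Y1 + p.mu0 * (p.l + r) / 4) :
    ((n : ℝ) + 16) * y ≤ p.Z * (p.l ^ 2 + r ^ 2) / 8 := by
  have hN : (2 : ℝ) ≤ n := by exact_mod_cast hn
  have hZ := p.hZ
  have hm := p.hm
  have hm1 := p.m_lt
  have hl := p.hl
  have hl2 := p.hl2
  have hY := p.Y1_bounds.2.1
  have hml := p.mu0_l
  have hmu := p.mu0_pos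
  generalize p.mu0 = mu at *
  generalize p.Y1 = Y1 at *
  generalize p.Z = Z at *
  generalize p.m = m at *
  generalize p.l = l at *
  have h1 : mu * l ≤ Z / 10 ^ 6 := by
    rw [hml]
    have : Z * m ≤ Z := by nlinarith
    linarith
  have h2 : ((n : ℝ) + 16) * y ≤ 9 / 100 * l ^ 2 * y :=
    mul_le_mul_of_nonneg_right (by linarith) hy
  have h3 : l ^ 2 * y ≤ l ^ 2 * (Z + mu * (l + r) / 4) :=
    mul_le_mul_of_nonneg_left (by linarith) (sq_nonneg l)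
  have h4 : mu * l * (l ^ 2 + l * r) ≤ Z / 10 ^ 6 * (l ^ 2 + l * r) :=
    mul_le_mul_of_nonneg_right h1 (by positivity)
  have h5 : Z * (l * r) ≤ Z * (l ^ 2 + r ^ 2) :=
    mul_le_mul_of_nonneg_left (by nlinarith [sq_nonneg (l - r), mul_nonneg hl.le hr]) hZ.le
  have h6 : 0 ≤ Z * l ^ 2 := by positivity
  have h7 : 0 ≤ Z * r ^ 2 := by positivity
  nlinarith

/-- A crude bound for `y`. -/
private theorem P4_y (p : Par n) (hn : 2 ≤ n) {r y : ℝ} (hr : 0 ≤ r) (hy : 0 ≤ y)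
    (hy' : y ≤ p.Y1 + p.mu0 * (p.l + r) / 4) : y ≤ p.Z * (p.l ^ 2 + r ^ 2) / 100 := by
  have h := P4_ny p hn hr hy hy'
  have hN : (2 : ℝ) ≤ n := by exact_mod_cast hn
  have h1 : 0 ≤ p.Z * (p.l ^ 2 + r ^ 2) := mul_nonneg p.hZ.le (by positivity)
  nlinarith

private theorem P4_react {ν k Z y e L u ζ G C : ℝ} (hν : 2 ≤ ν) (hk0 : 0 ≤ k) (hk : k ≤ 2)
    (hZ : 0 ≤ Z) (hkZ : k * Z ≤ 3 / 4) (hZn : 10 ^ 6 * Z ≤ ν) (hy : 0 ≤ y)
    (he : 0 ≤ e) (hL : L = 100 * ν) (hu0 : 0 ≤ u) (hu : u ≤ 9 / 8 * Z * ν * (L + e))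
    (hζ0 : 0 ≤ ζ) (hζ : ζ ≤ e * (Z * e + y)) (hG : G ≤ ν * y * u + ν ^ 2 * Z * ζ)
    (hC : C ≤ 4 * ((ν + 31) * y + 68 * Z * e) * u) :
    2 * ν * (3 / 16 * e ^ 2 - 4 * e * y - 69 * y * (L + e) - 27200 * Z * e) ≤
      2 * (ν * (e * e + ζ + e)) - k / ν * (2 * G + 2 * (ν ^ 2 * ζ) + 2 * C - 2 * (ν * u)) := by
  have hν0 : 0 < ν := by linarith
  have hw : 0 ≤ L + e := by rw [hL]; positivity
  obtain ⟨t, ht⟩ : ∃ t, t = k * u / ν := ⟨_, rfl⟩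
  have ht0 : 0 ≤ t := by rw [ht]; positivity
  have ht1 : t ≤ 27 / 32 * (L + e) := by
    rw [ht, div_le_iff₀ hν0]
    have a1 : k * u ≤ k * (9 / 8 * Z * ν * (L + e)) := mul_le_mul_of_nonneg_left hu hk0
    have a2 : k * Z * (ν * (L + e)) ≤ 3 / 4 * (ν * (L + e)) :=
      mul_le_mul_of_nonneg_right hkZ (by positivity)
    nlinarith
  have hkν : 0 ≤ k / ν := by positivity
  have b1 : k / ν * G ≤ ν * y * t + ν * (k * Z * ζ) := by
    calc k / ν * G ≤ k / ν * (ν * y * u + ν ^ 2 * Z * ζ) := mul_le_mul_of_nonneg_left hG hkν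
      _ = ν * y * t + ν * (k * Z * ζ) := by rw [ht]; field_simp
  have b2 : k / ν * C ≤ 4 * ((ν + 31) * y + 68 * Z * e) * t := by
    calc k / ν * C ≤ k / ν * (4 * ((ν + 31) * y + 68 * Z * e) * u) :=
          mul_le_mul_of_nonneg_left hC hkν
      _ = 4 * ((ν + 31) * y + 68 * Z * e) * t := by rw [ht]; field_simp
  have b3 : k / ν * (ν ^ 2 * ζ) = ν * (k * ζ) := by field_simp
  have b4 : 0 ≤ k / ν * (ν * u) := by positivity
  have c1 : (k * Z + k - 1) * ζ ≤ 3 / 4 * e ^ 2 + 3 * (e * y) := by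
    have hey : 0 ≤ e * y := mul_nonneg he hy
    rcases le_total (k * Z + k - 1) 0 with hc | hc
    · have := mul_nonpos_of_nonpos_of_nonneg hc hζ0
      nlinarith [sq_nonneg e]
    · have d1 := mul_le_mul_of_nonneg_left hζ hc
      have d2 : (k * Z + k - 1) * Z ≤ 3 / 4 := by nlinarith
      have d3 : k * Z + k - 1 ≤ 3 := by linarith
      have d4 := mul_le_mul_of_nonneg_right d2 (sq_nonneg e)
      have d5 := mul_le_mul_of_nonneg_right d3 hey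
      nlinarith
  have c1' := mul_le_mul_of_nonneg_left c1 hν0.le
  have c2 : y * t ≤ y * (27 / 32 * (L + e)) := mul_le_mul_of_nonneg_left ht1 hy
  have c2' := mul_le_mul_of_nonneg_left c2 hν0.le
  have c3 : (ν + 31) * (y * t) ≤ 33 / 2 * ν * (y * t) :=
    mul_le_mul_of_nonneg_right (by linarith) (mul_nonneg hy ht0)
  have c4 : Z * e * t ≤ Z * e * (27 / 32 * (L + e)) :=
    mul_le_mul_of_nonneg_left ht1 (mul_nonneg hZ he)
  have c5 : 10 ^ 6 * Z * e ^ 2 ≤ ν * e ^ 2 := mul_le_mul_of_nonneg_right hZn (sq_nonneg e)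
  have c6 : Z * e * L = 100 * (ν * (Z * e)) := by rw [hL]; ring
  have p1 : 0 ≤ ν * e := by positivity
  have p2 : 0 ≤ ν * (e * y) := by positivity
  have p3 : 0 ≤ ν * (y * (L + e)) := by positivity
  have p4 : 0 ≤ ν * (Z * e) := by positivity
  have p5 : 0 ≤ ν * e ^ 2 := by positivity
  have key : k / ν * (2 * G + 2 * (ν ^ 2 * ζ) + 2 * C - 2 * (ν * u)) =
      2 * (k / ν * G) + 2 * (k / ν * (ν ^ 2 * ζ)) + 2 * (k / ν * C) - 2 * (k / ν * (ν * u)) := by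
    ring
  rw [key, b3]
  nlinarith

private theorem P4_Ru {ν Z y e w u ζ G C : ℝ} (hν : 2 ≤ ν) (hZ : 0 ≤ Z) (hZ1 : Z ≤ 1)
    (he : 0 ≤ e) (hew : e ≤ w) (hyw : y ≤ Z * w / 100) (hu0 : 0 ≤ u)
    (hu : u ≤ 9 / 8 * Z * ν * w) (hζ0 : 0 ≤ ζ) (hζ : ζ ≤ 101 / 100 * (Z * w ^ 2))
    (hG : G ≤ ν * y * u + ν ^ 2 * Z * ζ) (hC : C ≤ 4 * ((ν + 31) * y + 68 * Z * e) * u) :
    2 * G + 2 * (ν ^ 2 * ζ) + 2 * C - 2 * (ν * u) ≤ 1000 * ν ^ 2 * Z * w ^ 2 := by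
  have hν0 : 0 < ν := by linarith
  have hw : 0 ≤ w := he.trans hew
  have hZw : Z * w ≤ w := by nlinarith
  have hZe : Z * e ≤ w := by nlinarith
  have hyw' : y ≤ w / 100 := by linarith
  have hΩ : (ν + 31) * y + 68 * Z * e ≤ 35 * (ν * w) := by
    have a1 : (ν + 31) * y ≤ (ν + 31) * (w / 100) := mul_le_mul_of_nonneg_left hyw' (by linarith)
    have a2 : 2 * w ≤ ν * w := mul_le_mul_of_nonneg_right hν hw
    nlinarith
  have hΩ' : ν * y ≤ ν * w := mul_le_mul_of_nonneg_left (by linarith) hν0.le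
  have a3 : ν * w * u ≤ ν * w * (9 / 8 * Z * ν * w) :=
    mul_le_mul_of_nonneg_left hu (by positivity)
  have a4 := mul_le_mul_of_nonneg_right hΩ hu0
  have a5 := mul_le_mul_of_nonneg_right hΩ' hu0
  have a6 : ν ^ 2 * ζ ≤ ν ^ 2 * (101 / 100 * (Z * w ^ 2)) :=
    mul_le_mul_of_nonneg_left hζ (sq_nonneg ν)
  have a7 : Z * (ν ^ 2 * ζ) ≤ 1 * (ν ^ 2 * ζ) := mul_le_mul_of_nonneg_right hZ1 (by positivity)
  have p1 : 0 ≤ ν * u := by positivity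
  have p2 : 0 ≤ ν ^ 2 * Z * w ^ 2 := by positivity
  nlinarith

namespace SF

variable {S : SF n V N} {p : Par n}

/-- Average of the condition for `ν` and `-ν`, then scale. -/
theorem K.K0 (h : S.K p) : S.K0 p.Z (p.y S.e2 S.u) := by
  intro e e' he he' ξ
  obtain ⟨θ, hθ, hξ⟩ := exists_dir ξ
  have hZ := p.hZ
  rcases hθ with hθ | hθ
  · have h1 := h θ e e' hθ he he'
    have h2 := h (-θ) e e' (by rw [norm_neg, hθ]) he he'
    rw [inner_neg_right, inner_neg_right] at h2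
    have hy : 4 * (1 + p.Z) * p.y S.e2 S.u = 4 * p.Y + p.E S.e2 S.u := by
      unfold Par.y Par.Y
      field_simp
    rw [hy]
    generalize ‖ξ‖ = r at hξ ⊢
    rw [hξ, real_inner_smul_right, real_inner_smul_right]
    unfold Par.Phi at h1 h2
    generalize ⟪S.h e e, θ⟫ = a at *
    generalize ⟪S.h e' e', θ⟫ = b at *
    have h3 : (a - b) ^ 2 ≤ 4 * p.Z * (a * b) + (4 * p.Y + p.E S.e2 S.u) := by nlinarith
    have h4 := mul_le_mul_of_nonneg_right h3 (sq_nonneg r)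
    nlinarith
  · have h0 : ξ = 0 := by rw [hξ, hθ, smul_zero]
    simp [h0]

theorem K0.u_le {y : ℝ} (h : S.K0 p.Z y) (hy : 0 ≤ y)
    (hy' : y ≤ p.Y1 + p.mu0 * (p.l + ‖S.eta‖) / 4) :
    S.u ≤ 9 / 8 * p.Z * n * (p.l ^ 2 + S.e2) ∧ (p.l ^ 2 + S.e2) / 9 ≤ p.g S.e2 S.u := by
  have hN : (2 : ℝ) ≤ n := by exact_mod_cast S.hn
  have hN0 : (0 : ℝ) < n := by linarith
  have h1 := h.u_le0 p.hZ.le p.Z_lt.le hy
  have h2 : ((n : ℝ) + 16) * y ≤ p.Z * (p.l ^ 2 + S.e2) / 8 :=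
    P4_ny p S.hn (norm_nonneg _) hy hy'
  have h3 : 0 ≤ p.Z * p.l ^ 2 := mul_nonneg p.hZ.le (sq_nonneg _)
  have h4 : S.u ≤ 9 / 8 * p.Z * n * (p.l ^ 2 + S.e2) := by
    have : (n : ℝ) * (p.Z * S.e2 + (n + 16) * y) ≤ n * (9 / 8 * p.Z * (p.l ^ 2 + S.e2)) :=
      mul_le_mul_of_nonneg_left (by nlinarith) hN0.le
    nlinarith
  refine ⟨h4, ?_⟩
  have hw : 0 ≤ p.l ^ 2 + S.e2 := add_nonneg (sq_nonneg _) (sq_nonneg _)
  have hk0 : 0 ≤ kk n := by linarith [(Par.kk_bounds S.hn).1]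
  have h5 : kk n / n * S.u ≤ 27 / 32 * (p.l ^ 2 + S.e2) := by
    rw [div_mul_eq_mul_div, div_le_iff₀ hN0]
    have a1 := mul_le_mul_of_nonneg_left h4 hk0
    have a2 := mul_le_mul_of_nonneg_right (p.kZ S.hn) (mul_nonneg hN0.le hw)
    nlinarith
  unfold Par.g
  linarith

private theorem P4_yle (S : SF n V N) (p : Par n) :
    p.y S.e2 S.u ≤ p.Y1 + p.mu0 * (p.l + ‖S.eta‖) / 4 :=
  p.y_le S.hn (norm_nonneg _) S.u_nonneg

theorem K.u_le (h : S.K p) : S.u ≤ 9 / 8 * p.Z * n * (p.l ^ 2 + S.e2) :=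
  (h.K0.u_le (p.y_nonneg _ _) (P4_yle S p)).1

theorem K.g_ge (h : S.K p) : (p.l ^ 2 + S.e2) / 9 ≤ p.g S.e2 S.u :=
  (h.K0.u_le (p.y_nonneg _ _) (P4_yle S p)).2

theorem g_le (S : SF n V N) (p : Par n) : p.g S.e2 S.u ≤ p.l ^ 2 + S.e2 := by
  have hk0 : 0 ≤ kk n := by linarith [(Par.kk_bounds S.hn).1]
  have h1 : 0 ≤ kk n / n * S.u := mul_nonneg (div_nonneg hk0 (Nat.cast_nonneg n)) S.u_nonneg
  unfold Par.g
  linarith

private theorem P4_CC (h : S.K p) :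
    S.CC ≤ 4 * (((n : ℝ) + 31) * p.y S.e2 S.u + 68 * p.Z * S.e2) * S.u :=
  S.CC_le_of_row fun _ he => h.K0.row_le p.hZ.le p.Z_lt.le (p.y_nonneg _ _) he

theorem K.react_g (h : S.K p) :
    2 * n * (3 / 16 * S.e2 ^ 2 - 4 * S.e2 * p.y S.e2 S.u - 69 * p.y S.e2 S.u * (p.l ^ 2 + S.e2) -
      27200 * p.Z * S.e2) ≤ S.Re - kk n / n * S.Ru := by
  have hN : (2 : ℝ) ≤ n := by exact_mod_cast S.hn
  have hk := Par.kk_bounds S.hn
  have hy := p.y_nonneg S.e2 S.u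
  exact P4_react hN (by linarith [hk.1]) hk.2 p.hZ.le (p.kZ S.hn) (p.Zn S.hn) hy
    (sq_nonneg _) p.hl2 S.u_nonneg h.u_le S.zeta_nonneg (h.K0.zeta_le p.hZ.le p.Z_lt.le hy)
    (h.K0.G2_le p.hZ.le p.Z_lt.le hy) (P4_CC h)

private theorem P4_yw (S : SF n V N) (p : Par n) :
    p.y S.e2 S.u ≤ p.Z * (p.l ^ 2 + S.e2) / 100 :=
  P4_y p S.hn (norm_nonneg _) (p.y_nonneg _ _) (P4_yle S p)

private theorem P4_zeta (h : S.K p) : S.zeta ≤ 101 / 100 * (p.Z * (p.l ^ 2 + S.e2) ^ 2) := by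
  have h1 := h.K0.zeta_le p.hZ.le p.Z_lt.le (p.y_nonneg _ _)
  have h2 := P4_yw S p
  have he : 0 ≤ S.e2 := sq_nonneg _
  have hZ := p.hZ.le
  have hew : S.e2 ≤ p.l ^ 2 + S.e2 := le_add_of_nonneg_left (sq_nonneg _)
  generalize p.l ^ 2 + S.e2 = w at *
  generalize p.y S.e2 S.u = y at *
  generalize S.e2 = e at *
  generalize p.Z = Z at *
  have a1 : Z * e + y ≤ 101 / 100 * (Z * w) := by
    have := mul_le_mul_of_nonneg_left hew hZ
    linarith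
  have a2 := mul_le_mul_of_nonneg_left a1 he
  have a3 : e * (Z * w) ≤ w * (Z * w) :=
    mul_le_mul_of_nonneg_right hew (mul_nonneg hZ (he.trans hew))
  nlinarith

theorem K.Ru_le (h : S.K p) : S.Ru ≤ 1000 * (n : ℝ) ^ 2 * p.Z * (p.l ^ 2 + S.e2) ^ 2 := by
  have hN : (2 : ℝ) ≤ n := by exact_mod_cast S.hn
  have hy := p.y_nonneg S.e2 S.u
  exact P4_Ru hN p.hZ.le p.Z_lt.le (sq_nonneg _) (le_add_of_nonneg_left (sq_nonneg _))
    (P4_yw S p) S.u_nonneg h.u_le S.zeta_nonneg (P4_zeta h)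
    (h.K0.G2_le p.hZ.le p.Z_lt.le hy) (P4_CC h)

theorem K.Re_le (h : S.K p) : 0 ≤ S.Re ∧ S.Re ≤ 5 * n * (p.l ^ 2 + S.e2) ^ 2 := by
  have hN : (2 : ℝ) ≤ n := by exact_mod_cast S.hn
  have hN0 : (0 : ℝ) ≤ n := by linarith
  have he : 0 ≤ S.e2 := sq_nonneg _
  have hζ0 := S.zeta_nonneg
  have hζ := P4_zeta h
  have hZ1 := p.Z_lt.le
  have hew : S.e2 ≤ p.l ^ 2 + S.e2 := le_add_of_nonneg_left (sq_nonneg _)
  have hw : 200 ≤ p.l ^ 2 + S.e2 := by rw [p.hl2]; linarith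
  unfold Re
  generalize p.l ^ 2 + S.e2 = w at *
  generalize S.e2 = e at *
  refine ⟨by positivity, ?_⟩
  have a1 : p.Z * w ^ 2 ≤ 1 * w ^ 2 := mul_le_mul_of_nonneg_right hZ1 (sq_nonneg w)
  have a2 : e * e ≤ w * w := mul_self_le_mul_self he hew
  have a3 : 200 * w ≤ w * w := mul_le_mul_of_nonneg_right hw (he.trans hew)
  have a4 : e * e + S.zeta + e ≤ 5 / 2 * w ^ 2 := by nlinarith
  have a5 := mul_le_mul_of_nonneg_left a4 hN0
  nlinarith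

/-- The value of the quadratic form at a unit vector lies between two eigenvalues. -/
private theorem P4_between (S : SF n V N) {ξ : N} {f : OrthonormalBasis (Fin n) ℝ V}
    {lam : Fin n → ℝ} (hf : ∀ i x, ⟪S.h (f i) x, ξ⟫ = lam i * ⟪f i, x⟫) {lo hi : ℝ}
    (hlo : ∀ i, lo ≤ lam i) (hhi : ∀ i, lam i ≤ hi) {e : V} (he : ‖e‖ = 1) :
    lo ≤ ⟪S.h e e, ξ⟫ ∧ ⟪S.h e e, ξ⟫ ≤ hi := by
  have h1 : ⟪S.h e e, ξ⟫ = ∑ i, lam i * ⟪f i, e⟫ ^ 2 := by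
    have h0 : S.h e e = ∑ i, ⟪f i, e⟫ • S.h (f i) e := by
      have h3 : S.h e e = S.h (∑ i, ⟪f i, e⟫ • f i) e := by rw [f.sum_repr' e]
      rw [h3, map_sum, LinearMap.sum_apply]
      refine Finset.sum_congr rfl fun i _ => ?_
      rw [map_smul, LinearMap.smul_apply]
    rw [h0, sum_inner]
    refine Finset.sum_congr rfl fun i _ => ?_
    rw [real_inner_smul_left, hf]
    ring
  have h2 : ∑ i, ⟪f i, e⟫ ^ 2 = 1 := by
    rw [f.sum_sq_inner_right e, he, one_pow]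
  rw [h1]
  constructor
  · calc lo = ∑ i, lo * ⟪f i, e⟫ ^ 2 := by rw [← Finset.mul_sum, h2, mul_one]
      _ ≤ _ := Finset.sum_le_sum fun i _ => mul_le_mul_of_nonneg_right (hlo i) (sq_nonneg _)
  · calc _ ≤ ∑ i, hi * ⟪f i, e⟫ ^ 2 :=
          Finset.sum_le_sum fun i _ => mul_le_mul_of_nonneg_right (hhi i) (sq_nonneg _)
      _ = hi := by rw [← Finset.mul_sum, h2, mul_one]

private theorem P4_gap (S : SF n V N) {τ : ℝ} (hτ : 0 ≤ τ)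
    (h : ∀ e e' : V, ‖e‖ = 1 → ‖e'‖ = 1 → ⟪e, e'⟫ = 0 → ‖S.h e e - S.h e' e'‖ ^ 2 ≤ τ)
    (ξ : N) {e e' : V} (he : ‖e‖ = 1) (he' : ‖e'‖ = 1) :
    (⟪S.h e e, ξ⟫ - ⟪S.h e' e', ξ⟫) ^ 2 ≤ τ * ‖ξ‖ ^ 2 := by
  obtain ⟨f, lam, hf⟩ := S.exists_eig ξ
  have : Nonempty (Fin n) := ⟨⟨0, by have := S.hn; omega⟩⟩
  obtain ⟨i, hi⟩ := Finite.exists_max lam
  obtain ⟨j, hj⟩ := Finite.exists_min lam
  obtain ⟨a1, a2⟩ := P4_between S hf hj hi he
  obtain ⟨b1, b2⟩ := P4_between S hf hj hi he'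
  have h1 : (⟪S.h e e, ξ⟫ - ⟪S.h e' e', ξ⟫) ^ 2 ≤ (lam i - lam j) ^ 2 :=
    sq_le_sq' (by linarith) (by linarith)
  refine h1.trans ?_
  by_cases hij : i = j
  · rw [hij, sub_self]
    have : 0 ≤ τ * ‖ξ‖ ^ 2 := by positivity
    linarith
  · have hv : ∀ k, ⟪S.h (f k) (f k), ξ⟫ = lam k := fun k => by
      rw [hf, real_inner_self_eq_norm_sq, f.norm_eq_one, one_pow, mul_one]
    have h2 := h (f i) (f j) (f.norm_eq_one i) (f.norm_eq_one j) (f.inner_eq_zero hij)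
    have h3 : lam i - lam j = ⟪S.h (f i) (f i) - S.h (f j) (f j), ξ⟫ := by
      rw [inner_sub_left, hv, hv]
    have h4 := abs_real_inner_le_norm (S.h (f i) (f i) - S.h (f j) (f j)) ξ
    rw [h3, ← sq_abs]
    calc _ ≤ (‖S.h (f i) (f i) - S.h (f j) (f j)‖ * ‖ξ‖) ^ 2 :=
          pow_le_pow_left₀ (abs_nonneg _) h4 2
      _ ≤ τ * ‖ξ‖ ^ 2 := by
          rw [mul_pow]
          exact mul_le_mul_of_nonneg_right h2 (sq_nonneg _)

/-- For unit `e`, `e'` the values lie between two eigenvalues; then `K0 Z Y1`, `K0.u_le`,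
`E ≥ mu0 l / 3 > mu1 ^ 2 / (4 Z)`. -/
theorem start (S : SF n V N) (p : Par n)
    (h : ∀ e e' : V, ‖e‖ = 1 → ‖e'‖ = 1 → ⟪e, e'⟫ = 0 → ‖S.h e e - S.h e' e'‖ ^ 2 ≤ 4 * p.Y1)
    (ν : N) (e e' : V) (hν : ‖ν‖ = 1) (he : ‖e‖ = 1) (he' : ‖e'‖ = 1) :
    p.Phi (p.E S.e2 S.u) ⟪S.h e e, ν⟫ ⟪S.h e' e', ν⟫ < 0 := by
  have hZ := p.hZ
  have hY1 : 0 ≤ p.Y1 := by linarith [p.Y1_bounds.1]
  have hmu := p.mu0_pos
  have hl := p.hl
  have hK : S.K0 p.Z p.Y1 := by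
    intro x x' hx hx' ξ
    have h1 := P4_gap S (by linarith) h ξ hx hx'
    have h2 := mul_le_mul_of_nonneg_left h1 (show 0 ≤ 1 + p.Z by linarith)
    have h3 := mul_nonneg hZ.le (sq_nonneg (⟪S.h x x, ξ⟫ + ⟪S.h x' x', ξ⟫))
    nlinarith
  have hg := (hK.u_le hY1 (le_add_of_nonneg_right (by positivity))).2
  have he2 : 0 ≤ S.e2 := sq_nonneg _
  have hs : p.l / 3 ≤ √(p.g S.e2 S.u) := Real.le_sqrt_of_sq_le (by linarith)
  have hE : p.mu0 * p.l / 3 ≤ p.E S.e2 S.u := by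
    have := mul_le_mul_of_nonneg_left hs hmu.le
    unfold Par.E
    linarith
  have h1 := P4_gap S (by linarith) h ν he he'
  rw [hν, one_pow, mul_one] at h1
  have h2 := mul_le_mul_of_nonneg_left h1 (show 0 ≤ 1 + p.Z by linarith)
  have hml := p.mu0_l
  have hm := p.hm
  have hm1 := p.m_lt
  have hl14 := p.l_ge S.hn
  unfold Par.Phi Par.Y Par.mu1
  generalize p.E S.e2 S.u = E at *
  generalize ⟪S.h e e, ν⟫ = a at *
  generalize ⟪S.h e' e', ν⟫ = b at *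
  generalize p.mu0 = mu at *
  generalize p.Y1 = Y1 at *
  generalize p.Z = Z at *
  generalize p.m = m at *
  generalize p.l = l at *
  have h3 : 4 * 10 ^ 6 * mu < Z * l / 3 := by
    have a1 : Z * m < Z * 1 := mul_lt_mul_of_pos_left hm1 hZ
    have a2 : 14 * mu ≤ l * mu := mul_le_mul_of_nonneg_right hl14 hmu.le
    have a3 : 14 * Z ≤ l * Z := mul_le_mul_of_nonneg_right hl14 hZ.le
    nlinarith
  have h4 : 4000 * mu * (a + b) - Z * (a + b) ^ 2 < mu * l / 3 := by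
    have a1 := mul_lt_mul_of_pos_left h3 hmu
    have a2 : Z * (4000 * mu * (a + b) - Z * (a + b) ^ 2) < Z * (mu * l / 3) := by
      nlinarith [sq_nonneg (Z * (a + b) - 2000 * mu)]
    exact lt_of_mul_lt_mul_left a2 hZ.le
  nlinarith

end SF

end Pool.Agent.Lib.MP_de485e_gt.Hi
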