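import Pool.Agent.Lib.MP_de485e_gt.Hi.RDefs

/-! The interface between the local calculus and the global argument, any codimension. -/

open Set Filter Topology
open scoped RealInnerProductSpace

namespace Pool.Agent.Lib.MP_de485e_gt.Hi

variable (n : ℕ) (P : Type) {Q : Type} [NormedAddCommGroup P] [InnerProductSpace ℝ P]
  [NormedAddCommGroup Q] [InnerProductSpace ℝ Q] [FiniteDimensional ℝ Q]
  {M : Type} [TopologicalSpace M] [ChartedSpace P M]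

/-- `W = n ^ 2 + |H| ^ 2`, `u = |h°| ^ 2`, `v = |∇h| ^ 2`, the projector `E` on the span of the
tangent space and of `H - n F`, the projector `Tn` on the tangent space and the Euclidean centre
`m` of the osculating sphere. -/
structure GeoData (Q M : Type) [NormedAddCommGroup Q] [InnerProductSpace ℝ Q] where
  W : ℝ → M → ℝ
  u : ℝ → M → ℝ
  v : ℝ → M → ℝ
  E : ℝ → M → Q →L[ℝ] Q
  Tn : ℝ → M → Q →L[ℝ] Q
  m : ℝ → M → Q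

/-- Description of the data at one point through the mean curvature vector `H`. -/
structure PtData (F : ℝ → M → Q) (G : GeoData Q M) (t : ℝ) (x : M) (H : Q) : Prop where
  FH : ⟪F t x, H⟫ = 0
  LH : ∀ ξ, ⟪dF P (F t) x ξ, H⟫ = 0
  LF : ∀ ξ, ⟪dF P (F t) x ξ, F t x⟫ = 0
  W_eq : G.W t x = (n : ℝ) ^ 2 + ‖H‖ ^ 2
  m_eq : G.m t x = F t x + (n / G.W t x) • (H - (n : ℝ) • F t x)
  Tn_L : ∀ ξ, G.Tn t x (dF P (F t) x ξ) = dF P (F t) x ξ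
  Tn_range : ∀ w, ∃ ξ, G.Tn t x w = dF P (F t) x ξ
  Tn_symm : ∀ w w', ⟪G.Tn t x w, w'⟫ = ⟪w, G.Tn t x w'⟫
  E_eq : ∀ w, G.E t x w =
    G.Tn t x w + ((G.W t x)⁻¹ * ⟪H - (n : ℝ) • F t x, w⟫) • (H - (n : ℝ) • F t x)
  flow : HasDerivAt (fun s => F s x) H t
  sff_le : ∀ ξ ζ, ‖sff P (F t) x ξ ζ - (⟪dF P (F t) x ξ, dF P (F t) x ζ⟫ / n) • H‖ ≤
    √(G.u t x) * ‖dF P (F t) x ξ‖ * ‖dF P (F t) x ζ‖
  dtT : ∃ T' : Q →L[ℝ] Q, HasDerivAt (fun s => G.Tn s x) T' t ∧ ‖T'‖ ≤ 2 * √(n * G.v t x)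

/-- Spatial derivatives of `E`, `m`, `1 / W` in the chart at `x`. -/
def DxData (F : ℝ → M → Q) (G : GeoData Q M) (t : ℝ) (x : M) (η : ℝ) : Prop :=
  ∃ (E' : P →L[ℝ] Q →L[ℝ] Q) (m' : P →L[ℝ] Q) (w' : P →L[ℝ] ℝ),
    HasStrictFDerivAt (fun y => G.E t ((chartAt P x).symm y)) E' (chartAt P x x) ∧
    HasStrictFDerivAt (fun y => G.m t ((chartAt P x).symm y)) m' (chartAt P x x) ∧
    HasStrictFDerivAt (fun y => (G.W t ((chartAt P x).symm y))⁻¹) w' (chartAt P x x) ∧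
    ∀ ξ, ‖E' ξ‖ ≤ 8 * n * η * √(G.W t x) * ‖dF P (F t) x ξ‖ ∧
      ‖m' ξ‖ ≤ 4 * (n : ℝ) ^ 2 * η * ‖dF P (F t) x ξ‖ ∧
      |w' ξ| ≤ 2 * n * η / √(G.W t x) * ‖dF P (F t) x ξ‖

/-- Facts at a fixed time. -/
structure GeoLoc (F : ℝ → M → Q) (J : Set ℝ) (G : GeoData Q M) : Prop where
  hn : 2 ≤ n
  hP : Module.finrank ℝ P = n
  sphere : ∀ t ∈ J, ∀ x, ‖F t x‖ = 1
  imm : ∀ t ∈ J, ∀ x, Function.Injective (dF P (F t) x)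
  strict : ∀ t ∈ J, ∀ x, HasStrictFDerivAt (loc P (F t) x) (dF P (F t) x) (chartAt P x x)
  contF : ∀ t ∈ J, Continuous (F t)
  contW : ∀ t ∈ J, Continuous (G.W t)
  contE : ∀ t ∈ J, Continuous (G.E t)
  contm : ∀ t ∈ J, Continuous (G.m t)
  u_le : ∀ t ∈ J, ∀ x, 0 ≤ G.u t x ∧ G.u t x ≤ 113 * G.W t x
  v_nonneg : ∀ t ∈ J, ∀ x, 0 ≤ G.v t x
  pt : ∀ t ∈ J, ∀ x, ∃ H, PtData n P F G t x H
  dx : ∀ t ∈ J, ∀ x, ∀ η : ℝ, 0 ≤ η → G.u t x ≤ η ^ 2 * G.W t x →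
    G.v t x ≤ η ^ 2 * G.W t x ^ 2 → DxData n P F G t x η

/-- Improved pinching and gradient estimate on a bounded interval. -/
def EstA (J : Set ℝ) (G : GeoData Q M) : Prop :=
  ∃ K σ : ℝ, 0 < K ∧ 0 < σ ∧ σ ≤ 1 ∧ ∀ t ∈ J, ∀ x,
    G.u t x ≤ K * G.W t x ^ (-σ) * G.W t x ∧ G.v t x ≤ K * G.W t x ^ (-σ) * G.W t x ^ 2

/-- Exponential decay. -/
def EstB (J : Set ℝ) (G : GeoData Q M) : Prop :=
  ∃ K c : ℝ, 0 < K ∧ 0 < c ∧ ∀ t ∈ J, ∀ x,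
    G.u t x ≤ K * Real.exp (-(c * t)) * G.W t x ∧ G.v t x ≤ K * Real.exp (-(c * t)) * G.W t x ^ 2

/-- Upper bound for the growth of `W`. -/
def Est3 (J : Set ℝ) (G : GeoData Q M) : Prop :=
  ∀ t₀ ∈ J, ∀ ε Λ W₀ b : ℝ, 0 ≤ ε → (∀ t ∈ J, t₀ ≤ t → ∀ x, Λ ≤ G.W t x → G.u t x ≤ ε * G.W t x) →
    (∀ x, G.W t₀ x < W₀) → Λ ≤ W₀ → 2 * (ε + (n : ℝ)⁻¹) < b →
    ∀ t ∈ J, t₀ ≤ t → ∀ x, (W₀⁻¹ - b * (t - t₀)) * G.W t x < 1

/-- Convex hull property. -/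
def Est4 (F : ℝ → M → Q) (J : Set ℝ) : Prop :=
  ∀ t ∈ J, ∀ s ∈ J, t ≤ s → ∀ (c : Q) (μ : ℝ), (∀ y, ⟪c, F t y⟫ ≤ μ) →
    ∀ x, Real.exp (-(n * (s - t))) * ⟪c, F s x⟫ ≤ μ

/-- Everything the argument for a finite time needs. -/
structure GeoA (F : ℝ → M → Q) (J : Set ℝ) (G : GeoData Q M) : Prop extends GeoLoc n P F J G where
  estA : EstA J G
  est3 : Est3 n J G
  est4 : Est4 n F J

/-- Everything the argument for infinite time needs. -/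
structure GeoB (F : ℝ → M → Q) (J : Set ℝ) (G : GeoData Q M) : Prop extends GeoLoc n P F J G where
  estB : EstB J G
  est4 : Est4 n F J

end Pool.Agent.Lib.MP_de485e_gt.Hi
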