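import Pool.Agent.Lib.MP_de485e_gt.Hi.M1
import Pool.Agent.Lib.MP_de485e_gt.Hi.GeoDef
import Pool.Agent.Lib.MP_de485e_gt.Conv.Mod5a

/-! Flows on an open interval and their data. -/

open Set Filter Topology
open scoped RealInnerProductSpace InnerProduct Manifold ContDiff

namespace Pool.Agent.Lib.MP_de485e_gt.Hi

open Conv

variable {P Q : Type} [NormedAddCommGroup P] [InnerProductSpace ℝ P] [CompleteSpace P]
  [FiniteDimensional ℝ P] [NormedAddCommGroup Q] [InnerProductSpace ℝ Q] [CompleteSpace Q]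
  [FiniteDimensional ℝ Q] {M : Type} [TopologicalSpace M] [ChartedSpace P M]
  [IsManifold 𝓘(ℝ, P) ∞ M] {F : ℝ → M → Q} {n : ℕ} {ι : Type} [Fintype ι] [DecidableEq ι]

/-- The parameters after time `s`. -/
noncomputable def Par.aft (p : Par n) (s : ℝ) : Par n where
  Z := p.Z * Real.exp (-(p.m / 10 * max s 0))
  m := p.m
  l := p.l
  hZ := mul_pos p.hZ (Real.exp_pos _)
  hm := p.hm
  hZm := by
    have h1 : Real.exp (-(p.m / 10 * max s 0)) ≤ 1 := Real.exp_le_one_iff.2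
      (neg_nonpos.2 (mul_nonneg (by linarith [p.hm]) (le_max_right _ _)))
    nlinarith [p.hZ, p.hZm]
  big := by
    have h1 : Real.exp (-(p.m / 10 * max s 0)) ≤ 1 := Real.exp_le_one_iff.2
      (neg_nonpos.2 (mul_nonneg (by linarith [p.hm]) (le_max_right _ _)))
    have h2 : (p.Z * Real.exp (-(p.m / 10 * max s 0))) ^ 2 ≤ p.Z ^ 2 :=
      pow_le_pow_left₀ (mul_pos p.hZ (Real.exp_pos _)).le (by nlinarith [p.hZ]) 2
    linarith [p.big]
  hl := p.hl
  hl2 := p.hl2
  θ := p.θ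
  hθ := p.hθ.imp_right fun h => h.imp_left fun h => ⟨h.1, by
    have h1 : Real.exp (-(p.m / 10 * max s 0)) ≤ 1 := Real.exp_le_one_iff.2
      (neg_nonpos.2 (mul_nonneg (by linarith [p.hm]) (le_max_right _ _)))
    nlinarith [p.hZ, h.2]⟩

theorem Par.aft_Z (p : Par n) {s : ℝ} (hs : 0 ≤ s) :
    (p.aft s).Z = p.Z * Real.exp (-(p.m / 10 * s)) := by
  simp only [Par.aft, max_eq_left hs]

theorem Par.aft_zero (p : Par n) : p.aft 0 = p := by
  cases p
  simp [Par.aft]

variable (P) in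
/-- A flow on an open time interval. -/
structure Flow (n : ℕ) (F : ℝ → M → Q) (J : Set ℝ) : Prop where
  dim : Dm P n
  ord : J.OrdConnected
  dom : Dom P F (J ×ˢ univ)
  flw : Flw P F (J ×ˢ univ)

namespace Flow

variable {J : Set ℝ} (h : Flow P n F J) (b : OrthonormalBasis ι ℝ Q)

/-- The calculus. -/
noncomputable def S : QA ι (Rg P (J ×ˢ (univ : Set M))) := qa h.dom h.dim h.flw b

/-- The arrays at a point of space-time. -/
noncomputable def X (z : ℝ × M) : Arr ι ℝ :=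
  ⟨n, fun a c => fn ((h.S b).P a c) z, fun a => fn ((h.S b).F a) z,
    fun a c d => fn ((h.S b).T a c d) z, fun k a c d => fn ((h.S b).B k a c d) z⟩

theorem X_eq (z : (J ×ˢ (univ : Set M) : Set (ℝ × M))) : h.X b z = (h.S b).pt (ev z) := by
  simp only [X, ← ev_eq]
  rfl

theorem good {t : ℝ} (ht : t ∈ J) (x : M) : (h.X b (t, x)).Good :=
  h.X_eq b ⟨(t, x), ht, mem_univ x⟩ ▸ (h.S b).good_pt _

include h in
theorem cont (g : Rg P (J ×ˢ (univ : Set M))) : ContinuousOn (fn g) (J ×ˢ univ) :=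
  (fn_smo g).continuousOn h.dom.isOpen

/-- The global data. -/
noncomputable def data : GeoData Q M where
  W t x := fn (h.S b).arr.W (t, x)
  u t x := fn (h.S b).arr.u (t, x)
  v t x := fn (h.S b).arr.v (t, x)
  E t x := opOf b fun a c => (h.X b (t, x)).Ep (fn (h.S b).arr.W (t, x))⁻¹ a c
  Tn t x := opOf b (h.X b (t, x)).P
  m t x := ∑ a, (h.X b (t, x)).cen (fn (h.S b).arr.W (t, x))⁻¹ a • b a

/-- The pinching condition from time `t₁` on. -/
def Pin (p : Par n) (t₁ : ℝ) : Prop := ∀ t ∈ J, t₁ ≤ t → ∀ x, (h.X b (t, x)).K (p.aft (t - t₁))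

end Flow

end Pool.Agent.Lib.MP_de485e_gt.Hi
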