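import Pool.Agent.Lib.MP_de485e_gt.Conv.Mod4a

/-! The identities of the abstract calculus in the ring of smooth functions. -/

open Set Filter Topology
open scoped RealInnerProductSpace InnerProduct Manifold ContDiff

namespace Pool.Agent.Lib.MP_de485e_gt.Hi

open Conv

variable {P Q : Type} [NormedAddCommGroup P] [InnerProductSpace ℝ P] [CompleteSpace P]
  [FiniteDimensional ℝ P] [NormedAddCommGroup Q] [InnerProductSpace ℝ Q] [CompleteSpace Q]
  [FiniteDimensional ℝ Q] {M : Type} [TopologicalSpace M] [ChartedSpace P M]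
  [IsManifold 𝓘(ℝ, P) ∞ M] {F : ℝ → M → Q} {n : ℕ} {ι : Type} [Fintype ι] [DecidableEq ι]
  {O : Set (ℝ × M)} (h : Dom P F O) (b : OrthonormalBasis ι ℝ Q)

/-- `ev_D_Fc`, `inner_pinv`. -/
theorem m_Psymm (a c : ι) : h.D (b a) (h.Fc (b c)) = h.D (b c) (h.Fc (b a)) :=
  rg_ext fun z => by
    rw [h.ev_D_Fc, h.ev_D_Fc, ← inner_pinv (h.imm _ z.2) (b c), ← inner_pinv (h.imm _ z.2) (b a),
      real_inner_comm]

/-- An orthonormal frame reproduces the tangential projection. -/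
theorem m_frame {L : P →L[ℝ] Q} (hL : Function.Injective L) :
    ∃ e : Fin (Module.finrank ℝ P) → P, (Orthonormal ℝ fun i => L (e i)) ∧
      ∀ w w', ∑ i, ⟪w, L (e i)⟫ * ⟪w', L (e i)⟫ = ⟪w', L (pinv L w)⟫ := by
  obtain ⟨A, hA, hi⟩ := exists_iso hL
  refine ⟨fun i => A (stdOrthonormalBasis ℝ P i), ?_, fun w w' => ?_⟩
  · rw [orthonormal_iff_ite]
    intro i j
    rw [hi]
    exact orthonormal_iff_ite.1 (stdOrthonormalBasis ℝ P).orthonormal i j
  · obtain ⟨u, hu⟩ := hA (pinv L w)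
    obtain ⟨u', hu'⟩ := hA (pinv L w')
    have h1 : ∀ (a : Q) (v : P), A v = pinv L a → ∀ x, ⟪a, L (A x)⟫ = ⟪v, x⟫ := fun a v hv x => by
      rw [← inner_pinv hL, ← hv, hi]
    simp only [h1 w u hu, h1 w' u' hu']
    rw [← hu, h1 w' u' hu', ← (stdOrthonormalBasis ℝ P).sum_inner_mul_inner u' u]
    exact Finset.sum_congr rfl fun i _ => by rw [mul_comm, real_inner_comm u]

private theorem M1a_sum (u v : Q) : ∑ a, ⟪b a, u⟫ * ⟪b a, v⟫ = ⟪u, v⟫ := by
  rw [← b.sum_inner_mul_inner u v]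
  exact Finset.sum_congr rfl fun a _ => by rw [real_inner_comm u]

private theorem M1a_one {κ : Type} {v : κ → Q} (hv : Orthonormal ℝ v) (i : κ) :
    ⟪v i, v i⟫ = (1 : ℝ) := by
  rw [real_inner_self_eq_norm_sq, hv.1 i, one_pow]

theorem m_trP (hP : Module.finrank ℝ P = n) : ∑ a, h.D (b a) (h.Fc (b a)) = n :=
  rg_ext fun z => by
    obtain ⟨e, he, hs⟩ := m_frame (h.imm _ z.2)
    rw [map_sum, map_natCast]
    simp only [h.ev_D_Fc, ← hs]
    rw [Finset.sum_comm]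
    simp only [M1a_sum, M1a_one he]
    simp [hP]

private theorem M1a_ev_D (w : Q) (g : Rg P O) (z : O) :
    ev z (h.D w g) = fderiv ℝ (rd P (fn g) z.1.2) (ptc P z.1.2 z)
      ((0 : ℝ), pinv (dF P (F z.1.1) z.1.2) w) := by
  rw [← h.Lc_centre z.2]; rfl

/-- `fderiv_space` for `ξ = pinv (dF) (b a)`. -/
theorem m_PD (a : ι) (g : Rg P O) :
    ∑ c, h.D (b a) (h.Fc (b c)) * h.D (b c) g = h.D (b a) g :=
  rg_ext fun z => by
    rw [M1a_ev_D h (b a) g z, h.fderiv_space b, map_sum]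
    exact Finset.sum_congr rfl fun c _ => by rw [map_mul, h.ev_D_Fc]

include h in
/-- The position vector is orthogonal to the spatial derivatives in every chart. -/
private theorem M1a_perp {c : M} {p : ℝ × P} (hp : p ∈ cs P O c) (ζ : P) :
    ⟪Lc P F c p ζ, rd P (fun z : ℝ × M => F z.1 z.2) c p⟫ = 0 := by
  obtain ⟨e1, e2⟩ := ptc_symm hp
  obtain ⟨A, hA, -⟩ := h.Mod2a_Lc_trans (z := (p.1, (chartAt P c).symm p.2)) hp.2 e2
  obtain ⟨ξ, rfl⟩ := A.surjective ζ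
  have h1 := h.dF_perp hp.2 ξ
  rw [← h.Lc_centre hp.2, hA, e1] at h1
  exact h1

include h in
private theorem M1a_diff {z : ℝ × M} (hz : z ∈ O) (ζ : P) :
    DifferentiableAt ℝ (fun p => Lc P F z.2 p ζ) (ptc P z.2 z) :=
  show DifferentiableAt ℝ
      (fun p => fderiv ℝ (rd P (fun z : ℝ × M => F z.1 z.2) z.2) p (0, ζ)) (ptc P z.2 z) from
    (((h.smooth.contDiffAt h.isOpen (ptc_mem hz (mem_chart_source P z.2))).fderiv_right (m := 1)
      (by norm_cast)).differentiableAt (by simp)).clm_apply (differentiableAt_const _)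

include h in
/-- The Hessian in the chart at the point, from the space-time derivative. -/
private theorem M1a_hess {z : ℝ × M} (hz : z ∈ O) (ξ ζ : P) :
    hess P (F z.1) z.2 ξ ζ = fderiv ℝ (fun p => Lc P F z.2 p ζ) (ptc P z.2 z) (0, ξ) := by
  have hp := ptc_mem hz (mem_chart_source P z.2)
  have hι : ∀ y : P, HasFDerivAt (fun y : P => ((z.1, y) : ℝ × P))
      (ContinuousLinearMap.inr ℝ ℝ P) y := fun y => hasFDerivAt_prodMk_right z.1 y
  have hn : ∀ᶠ y in 𝓝 (chartAt P z.2 z.2), ((z.1, y) : ℝ × P) ∈ cs P O z.2 :=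
    (hι _).continuousAt.eventually ((isOpen_cs h.isOpen z.2).mem_nhds hp)
  have e : (fun y => fderiv ℝ (loc P (F z.1) z.2) y ζ) =ᶠ[𝓝 (chartAt P z.2 z.2)]
      (fun p => Lc P F z.2 p ζ) ∘ fun y : P => ((z.1, y) : ℝ × P) := by
    filter_upwards [hn] with y hy
    have h1 := (((h.smooth.contDiffAt h.isOpen hy).differentiableAt
      (by simp)).hasFDerivAt.comp y (hι y)).fderiv
    exact congrArg (fun T : P →L[ℝ] Q => T ζ) h1
  rw [hess, e.fderiv_eq]
  exact congrArg (fun T : P →L[ℝ] Q => T ξ)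
    ((M1a_diff h hz ζ).hasFDerivAt.comp (chartAt P z.2 z.2) (hι _)).fderiv

include h in
/-- The component of the Hessian along the position vector. -/
private theorem M1a_F_hess {z : ℝ × M} (hz : z ∈ O) (ξ ζ : P) :
    ⟪F z.1 z.2, hess P (F z.1) z.2 ξ ζ⟫ = -⟪dF P (F z.1) z.2 ξ, dF P (F z.1) z.2 ζ⟫ := by
  have hp := ptc_mem hz (mem_chart_source P z.2)
  have hn := (h.smooth.contDiffAt h.isOpen hp).differentiableAt (by simp)
  have e : (fun p => ⟪Lc P F z.2 p ζ, rd P (fun z : ℝ × M => F z.1 z.2) z.2 p⟫)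
      =ᶠ[𝓝 (ptc P z.2 z)] fun _ => (0 : ℝ) := by
    filter_upwards [(isOpen_cs h.isOpen z.2).mem_nhds hp] with p hp'
    exact M1a_perp h hp' ζ
  have h1 := fderiv_inner_apply ℝ (M1a_diff h hz ζ) hn ((0 : ℝ), ξ)
  have h2 : fderiv ℝ (rd P (fun z : ℝ × M => F z.1 z.2) z.2) (ptc P z.2 z) ((0 : ℝ), ξ) =
      dF P (F z.1) z.2 ξ := by
    rw [← h.Lc_centre hz]; rfl
  rw [e.fderiv_eq, fderiv_fun_const, ← M1a_hess h hz, rd_ptc _ (mem_chart_source P z.2), h2,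
    h.Lc_centre hz] at h1
  simp only [Pi.zero_apply, zero_apply] at h1
  rw [real_inner_comm, real_inner_comm (dF P (F z.1) z.2 ζ)]
  linarith

include h in
/-- The projection on the normal space. -/
private theorem M1a_proj {z : ℝ × M} (hz : z ∈ O) (w : Q) :
    (normal P (F z.1) z.2).starProjection w =
      w - dF P (F z.1) z.2 (pinv (dF P (F z.1) z.2) w) - ⟪F z.1 z.2, w⟫ • F z.1 z.2 := by
  refine Submodule.eq_starProjection_of_mem_of_inner_eq_zero (h.Mod3a_mem hz w) fun u hu => ?_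
  obtain ⟨H1, H2⟩ := mem_normal_iff.1 hu
  rw [sub_sub w, sub_sub_cancel, inner_add_left, real_inner_smul_left, H1, H2, mul_zero, add_zero]

/-- The entries of the tangential projection in any chart. -/
private theorem M1a_rd (w w' : Q) {c : M} {p : ℝ × P} (hp : p ∈ cs P O c) :
    rd P (fn (h.D w (h.Fc w'))) c p = ⟪w', Lc P F c p (pinv (Lc P F c p) w)⟫ := by
  have e : rd P (fn (h.Fc w')) c =ᶠ[𝓝 p] rd P (fun z : ℝ × M => ⟪w', F z.1 z.2⟫) c :=
    rd_congr h.isOpen (fun y hy => by rw [← ev_eq ⟨y, hy⟩]; rfl) hp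
  have hd := ((h.smooth.contDiffAt h.isOpen hp).differentiableAt (by simp)).hasFDerivAt
  have k := ((innerSL ℝ w').hasFDerivAt.comp _ hd).fderiv
  refine ((h.X w).rd_der h.isOpen (h.Fc w') hp).trans ?_
  rw [e.fderiv_eq]
  exact congrArg (fun T : ℝ × P →L[ℝ] ℝ => T (0, pinv (Lc P F c p) w)) k

private theorem M1a_pi (L : P →L[ℝ] Q) (u w : Q) :
    ∑ d, ⟪b d, u⟫ * ⟪w, L (pinv L (b d))⟫ = ⟪w, L (pinv L u)⟫ := by
  conv_rhs => rw [← b.sum_repr' u]
  rw [map_sum, map_sum, inner_sum]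
  exact Finset.sum_congr rfl fun d _ => by rw [map_smul, map_smul, real_inner_smul_right]

/-- The part of the Hessian orthogonal to the tangent space. -/
private theorem M1a_key (z : O) (ξ ζ : P) (w : Q) :
    ⟪w, hess P (F z.1.1) z.1.2 ξ ζ⟫ =
      ⟪w, dF P (F z.1.1) z.1.2 (pinv (dF P (F z.1.1) z.1.2) (hess P (F z.1.1) z.1.2 ξ ζ))⟫ +
        ∑ d, ⟪b d, dF P (F z.1.1) z.1.2 ζ⟫ *
          fderiv ℝ (rd P (fn (h.D (b d) (h.Fc w))) z.1.2) (ptc P z.1.2 z) (0, ξ) := by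
  have hc := mem_chart_source P z.1.2
  have hp := ptc_mem z.2 hc
  have hY := (M1a_diff h z.2 ζ).hasFDerivAt
  have hI : ∀ u : Q, HasFDerivAt (fun p => ⟪u, Lc P F z.1.2 p ζ⟫)
      ((innerSL ℝ u).comp (fderiv ℝ (fun p => Lc P F z.1.2 p ζ) (ptc P z.1.2 z)))
      (ptc P z.1.2 z) := fun u => (innerSL ℝ u).hasFDerivAt.comp _ hY
  have hG : ∀ d, HasFDerivAt (rd P (fn (h.D (b d) (h.Fc w))) z.1.2)
      (fderiv ℝ (rd P (fn (h.D (b d) (h.Fc w))) z.1.2) (ptc P z.1.2 z)) (ptc P z.1.2 z) :=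
    fun d => (((fn_smo _).contDiffAt h.isOpen hp).differentiableAt (by simp)).hasFDerivAt
  have hS := HasFDerivAt.fun_sum (u := Finset.univ) fun d _ => (hI (b d)).fun_mul (hG d)
  have e : (fun p => ⟪w, Lc P F z.1.2 p ζ⟫) =ᶠ[𝓝 (ptc P z.1.2 z)]
      fun p => ∑ d, ⟪b d, Lc P F z.1.2 p ζ⟫ * rd P (fn (h.D (b d) (h.Fc w))) z.1.2 p := by
    filter_upwards [(isOpen_cs h.isOpen z.1.2).mem_nhds hp] with p hp'
    simp only [M1a_rd h _ _ hp']
    rw [M1a_pi, pinv_apply (h.Lc_inj hp')]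
  have k := congrArg (fun T : ℝ × P →L[ℝ] ℝ => T (0, ξ))
    ((hI w).unique (hS.congr_of_eventuallyEq e))
  simp only [ContinuousLinearMap.comp_apply, innerSL_apply_apply, sum_apply,
    add_apply, smul_apply, smul_eq_mul,
    ← M1a_hess h z.2, M1a_rd h _ _ hp, h.Lc_centre z.2] at k
  rw [k, Finset.sum_add_distrib, add_comm, ← M1a_pi b]
  congr 1
  exact Finset.sum_congr rfl fun d _ => mul_comm _ _

/-- In the chart at the point, with `Y = ∂_ζ f`: differentiate `∑ d, ⟪b d, Y⟫ P d c = ⟪b c, Y⟫`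
in the direction `ξ`; the projection on `normal` removes the tangential part and the part along
`F` (`Mod3a_mem`), and `⟪F, hess⟫ = -⟪dF ξ, dF ζ⟫`. -/
theorem sff_raw (z : O) (ξ ζ : P) (c : ι) : ⟪b c, sff P (F z.1.1) z.1.2 ξ ζ⟫ =
    ∑ a, ∑ d, ⟪b a, dF P (F z.1.1) z.1.2 ξ⟫ * ⟪b d, dF P (F z.1.1) z.1.2 ζ⟫ *
        ev z (h.D (b a) (h.D (b d) (h.Fc (b c)))) +
      ⟪dF P (F z.1.1) z.1.2 ξ, dF P (F z.1.1) z.1.2 ζ⟫ * ⟪b c, F z.1.1 z.1.2⟫ := by
  rw [sff, M1a_proj h z.2, inner_sub_right, inner_sub_right, real_inner_smul_right,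
    M1a_F_hess h z.2, M1a_key h b z ξ ζ (b c), Finset.sum_comm]
  simp only [h.fderiv_space b, Finset.mul_sum]
  rw [add_sub_cancel_left, neg_mul, sub_neg_eq_add]
  congr 1
  exact Finset.sum_congr rfl fun d _ => Finset.sum_congr rfl fun a _ => by ring

/-- `m_frame`, `sff_raw`, `m_PD`. -/
theorem m_flow (hP : Module.finrank ℝ P = n) (hf : Flw P F O) (z : O) :
    HasDerivAt (fun s => F s z.1.2)
      (∑ c, ev z (∑ a, h.D (b a) (h.D (b a) (h.Fc (b c))) + (n : Rg P O) * h.Fc (b c)) • b c)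
      z.1.1 := by
  obtain ⟨e, he, hs⟩ := m_frame (h.imm _ z.2)
  refine (hf _ z.2 e he).congr_deriv ?_
  rw [← b.sum_repr' (∑ i, sff P (F z.1.1) z.1.2 (e i) (e i))]
  refine Finset.sum_congr rfl fun c _ => ?_
  congr 1
  have h1 : ∀ a d, ∑ i, ⟪b a, dF P (F z.1.1) z.1.2 (e i)⟫ * ⟪b d, dF P (F z.1.1) z.1.2 (e i)⟫ =
      ev z (h.D (b d) (h.Fc (b a))) := fun a d => by
    rw [hs, ← h.ev_D_Fc, m_Psymm]
  rw [inner_sum]
  simp only [sff_raw h b z, M1a_one he]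
  rw [Finset.sum_add_distrib, map_add, map_mul, map_natCast, map_sum]
  congr 1
  · rw [Finset.sum_comm]
    have h2 : ∀ a, ∑ i, ∑ d, ⟪b a, dF P (F z.1.1) z.1.2 (e i)⟫ *
        ⟪b d, dF P (F z.1.1) z.1.2 (e i)⟫ * ev z (h.D (b a) (h.D (b d) (h.Fc (b c)))) =
        ∑ d, ev z (h.D (b d) (h.Fc (b a))) * ev z (h.D (b a) (h.D (b d) (h.Fc (b c)))) :=
      fun a => by
        rw [Finset.sum_comm]
        exact Finset.sum_congr rfl fun d _ => by rw [← Finset.sum_mul, h1]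
    simp only [h2]
    rw [Finset.sum_comm]
    refine Finset.sum_congr rfl fun d _ => ?_
    rw [← m_PD h b d (h.D (b d) (h.Fc (b c))), map_sum]
    exact Finset.sum_congr rfl fun a _ => (map_mul _ _ _).symm
  · rw [Finset.sum_const, Finset.card_univ, Fintype.card_fin, hP, one_mul, nsmul_eq_mul]
    rfl

theorem m_dtF (hP : Module.finrank ℝ P = n) (hf : Flw P F O) (c : ι) :
    h.dt (h.Fc (b c)) = ∑ a, h.D (b a) (h.D (b a) (h.Fc (b c))) + n * h.Fc (b c) := by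
  refine rg_ext fun z => ?_
  have h1 := h.hasDerivAt_fn (h.Fc (b c)) z
  have h2 := (innerSL ℝ (b c)).hasFDerivAt.comp_hasDerivAt _ (m_flow h b hP hf z)
  have hn : ∀ᶠ s in 𝓝 z.1.1, ((s, z.1.2) : ℝ × M) ∈ O :=
    (continuous_id.prodMk continuous_const).continuousAt.eventually (h.isOpen.mem_nhds z.2)
  have e : (fun s => fn (h.Fc (b c)) (s, z.1.2)) =ᶠ[𝓝 z.1.1]
      innerSL ℝ (b c) ∘ fun s => F s z.1.2 := by
    filter_upwards [hn] with s hs
    exact (ev_eq ⟨_, hs⟩ (h.Fc (b c))).symm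
  rw [h1.unique (h2.congr_of_eventuallyEq e), innerSL_apply_apply]
  exact b.orthonormal.inner_right_fintype _ c

end Pool.Agent.Lib.MP_de485e_gt.Hi
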