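import Pool.Agent.Lib.MP_de485e_gt.Hi.CaseA2

/-! Finite time: the limit subspace. -/

open Set Filter Topology Metric
open scoped RealInnerProductSpace

namespace Pool.Agent.Lib.MP_de485e_gt.Hi

variable {n : ℕ} {P Q : Type} [NormedAddCommGroup P] [InnerProductSpace ℝ P] [FiniteDimensional ℝ P]
  [NormedAddCommGroup Q] [InnerProductSpace ℝ Q] [FiniteDimensional ℝ Q]
  {M : Type} [TopologicalSpace M] [ChartedSpace P M] [T2Space M] [CompactSpace M]
  [ConnectedSpace M] {F : ℝ → M → Q} {a T : ℝ} {G : GeoData Q M}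

private theorem CaseA3_app {A B : Q →L[ℝ] Q} {δ : ℝ} (hAB : ‖A - B‖ ≤ δ) (w : Q) :
    ‖A w - B w‖ ≤ δ * ‖w‖ :=
  ((A - B).le_opNorm w).trans (mul_le_mul_of_nonneg_right hAB (norm_nonneg w))

private theorem CaseA3_perp {V : Submodule ℝ Q} (hV : 2 ≤ Module.finrank ℝ V) (w : Q) :
    ∃ z ∈ V, ‖z‖ = 1 ∧ ⟪z, w⟫ = 0 := by
  have h1 : LinearMap.ker ((innerₛₗ ℝ w).comp V.subtype) ≠ ⊥ :=
    LinearMap.ker_ne_bot_of_finrank_lt (by rw [Module.finrank_self]; omega)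
  obtain ⟨z, hz, hz0⟩ := (Submodule.ne_bot_iff _).mp h1
  have h2 : ⟪w, (z : Q)⟫ = 0 := hz
  have h3 : ‖(z : Q)‖ ≠ 0 := norm_ne_zero_iff.mpr fun h => hz0 (Subtype.ext h)
  refine ⟨‖(z : Q)‖⁻¹ • (z : Q), V.smul_mem _ z.2, ?_, ?_⟩
  · rw [norm_smul, norm_inv, norm_norm, inv_mul_cancel₀ h3]
  · rw [inner_smul_left, real_inner_comm, h2, mul_zero]

private theorem CaseA3_h1 (h : GeoLoc n P F (Ioo a T) G) {t : ℝ} (ht : t ∈ Ioo a T)
    {V : Submodule ℝ Q} {p : Q} {δ : ℝ} {x : M} (hE : ‖V.starProjection - G.E t x‖ ≤ δ)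
    (hm : ‖G.m t x - p‖ ≤ δ * (n / √(G.W t x))) :
    ‖V.starProjection (F t x - p) - (F t x - G.m t x)‖ ≤ 2 * δ * (n / √(G.W t x)) := by
  have e1 : V.starProjection (F t x - p) - (F t x - G.m t x) =
      (V.starProjection (F t x - G.m t x) - G.E t x (F t x - G.m t x)) +
        V.starProjection (G.m t x - p) := by
    rw [h.E_sub ht x, show F t x - p = (F t x - G.m t x) + (G.m t x - p) by abel, map_add]
    abel
  have e2 := CaseA3_app hE (F t x - G.m t x)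
  rw [h.norm_F_sub_m ht x] at e2
  have e3 := (V.norm_starProjection_apply_le (G.m t x - p)).trans hm
  rw [e1]
  linarith [norm_add_le (V.starProjection (F t x - G.m t x) - G.E t x (F t x - G.m t x))
    (V.starProjection (G.m t x - p))]

private theorem CaseA3_radial (h : GeoLoc n P F (Ioo a T) G) {t : ℝ} (ht : t ∈ Ioo a T)
    {V : Submodule ℝ Q} (hV : Module.finrank ℝ V = n + 1) {p : Q} {δ : ℝ} (hδ : δ ≤ 1 / 16)
    (hE : ∀ x, ‖V.starProjection - G.E t x‖ ≤ δ)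
    (hm : ∀ x, ‖G.m t x - p‖ ≤ δ * (n / √(G.W t x))) : SubBij V p (F t) := by
  refine h.radial ht hV p (fun x => ?_) (fun x ξ => ?_)
  · have e1 := CaseA3_h1 h ht (hE x) (hm x)
    have e2 := h.s_pos ht x
    nlinarith
  · have e1 := CaseA3_app (hE x) (dF P (F t) x ξ)
    rw [h.E_dF ht x ξ] at e1
    nlinarith [norm_nonneg (dF P (F t) x ξ)]

private theorem CaseA3_half (h : GeoLoc n P F (Ioo a T) G) {s t : ℝ} (hs : s ∈ Ioo a T)
    (ht : t ∈ Ioo a T) {V V' : Submodule ℝ Q} (hV : Module.finrank ℝ V = n + 1) {p : Q} {δ : ℝ}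
    (hδ0 : 0 ≤ δ) (hδ : δ ≤ 1 / 16) (hE : ∀ x, ‖V.starProjection - G.E t x‖ ≤ δ)
    (hE' : ∀ x, ‖V'.starProjection - G.E s x‖ ≤ δ)
    (hm : ∀ x, ‖G.m t x - p‖ ≤ δ * (n / √(G.W t x)))
    (hT : ∀ x, ‖G.Tn t x - G.Tn s x‖ ≤ δ) :
    ∀ w ∈ V, ‖w - V'.starProjection w‖ ≤ 10 * δ * ‖w‖ := by
  intro w hw
  obtain ⟨z, hzV, hz1, hzw⟩ := CaseA3_perp (V := V) (by have := h.hn; omega) w
  obtain ⟨x, -, hx⟩ := (CaseA3_radial h ht hV hδ hE hm).surjOn ⟨hzV, hz1⟩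
  have hx' : ‖V.starProjection (F t x - p)‖⁻¹ • V.starProjection (F t x - p) = z := hx
  have hg0 : ‖V.starProjection (F t x - p)‖ ≠ 0 := by
    intro h0
    rw [← hx', norm_smul, h0, mul_zero] at hz1
    exact zero_ne_one hz1
  have hgw : ⟪V.starProjection (F t x - p), w⟫ = 0 := by
    rw [← hx', real_inner_smul_left] at hzw
    exact (mul_eq_zero.mp hzw).resolve_left (inv_ne_zero hg0)
  have hsp := h.s_pos ht x
  have hw0 := norm_nonneg w
  have e1 : |⟪F t x - G.m t x, w⟫| ≤ 2 * δ * (n / √(G.W t x)) * ‖w‖ := by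
    have e2 := abs_real_inner_le_norm (V.starProjection (F t x - p) - (F t x - G.m t x)) w
    rw [inner_sub_left, hgw, zero_sub, abs_neg] at e2
    exact e2.trans (mul_le_mul_of_nonneg_right (CaseA3_h1 h ht (hE x) (hm x)) hw0)
  have e3 : ‖G.E t x w - G.Tn t x w‖ ≤ 2 * δ * ‖w‖ := by
    have hW := h.W_pos ht x
    have hn : (0 : ℝ) < n := by have := h.hn; positivity
    have e4 : G.W t x / (n : ℝ) ^ 2 * (n / √(G.W t x)) ^ 2 = 1 := by
      rw [h.s_sq ht x]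
      field_simp
    rw [h.E_eq' ht x w, add_sub_cancel_left, norm_smul, h.norm_F_sub_m ht x, Real.norm_eq_abs,
      abs_mul, abs_of_pos (by positivity)]
    calc G.W t x / (n : ℝ) ^ 2 * |⟪F t x - G.m t x, w⟫| * (n / √(G.W t x))
        ≤ G.W t x / (n : ℝ) ^ 2 * (2 * δ * (n / √(G.W t x)) * ‖w‖) * (n / √(G.W t x)) := by
          gcongr
      _ = 2 * δ * ‖w‖ * (G.W t x / (n : ℝ) ^ 2 * (n / √(G.W t x)) ^ 2) := by ring
      _ = 2 * δ * ‖w‖ := by rw [e4, mul_one]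
  have e5 := CaseA3_app (hE x) w
  rw [Submodule.starProjection_eq_self_iff.mpr hw] at e5
  have e6 := CaseA3_app (hT x) w
  have e7 : ‖w - G.Tn s x w‖ ≤ 4 * δ * ‖w‖ := by
    have := norm_sub_le_norm_sub_add_norm_sub w (G.E t x w) (G.Tn s x w)
    have := norm_sub_le_norm_sub_add_norm_sub (G.E t x w) (G.Tn t x w) (G.Tn s x w)
    linarith
  have e8 := CaseA3_app (hE' x) (G.Tn s x w)
  rw [h.E_Tn hs x w, norm_sub_rev] at e8
  have e9 : ‖G.Tn s x w‖ ≤ 2 * ‖w‖ := by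
    have := norm_sub_norm_le (G.Tn s x w) w
    rw [norm_sub_rev] at this
    nlinarith
  have e10 := V'.norm_starProjection_apply_le (G.Tn s x w - w)
  rw [map_sub, norm_sub_rev _ w] at e10
  have := norm_sub_le_norm_sub_add_norm_sub w (G.Tn s x w) (V'.starProjection w)
  have := norm_sub_le_norm_sub_add_norm_sub (G.Tn s x w) (V'.starProjection (G.Tn s x w))
    (V'.starProjection w)
  nlinarith

namespace GeoA

variable (h : GeoA n P F (Ioo a T) G) (hT : a < T)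
include h hT

/-- By `centre`, `W ≤ n / (T - t)` near `T`, so `dtT` and `estA` give
`‖T'‖ ≤ A (T - t) ^ (σ / 2 - 1)`; `cauchy_pow`. -/
theorem Tn_cauchy (hb : ∀ C : ℝ, ∃ᶠ t in 𝓝[<] T, ∃ x, C < G.W t x) {ε : ℝ} (hε : 0 < ε) :
    ∃ b < T, ∀ s ∈ Ioo b T, ∀ t ∈ Ioo b T, ∀ x, ‖G.Tn t x - G.Tn s x‖ ≤ ε := by
  obtain ⟨p, hp, hl⟩ := h.exists_limit hT hb
  obtain ⟨K, σ, hK, hσ, hσ1, hest⟩ := h.estA
  have hn : (0 : ℝ) < n := by have := h.hn; positivity
  set A : ℝ := 2 * √(n * K) * (2 * n) ^ (1 - σ / 2) with hA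
  have hA0 : 0 ≤ A := by positivity
  have hσ2 : 0 < σ / 2 := by positivity
  have h1 : Tendsto (fun s : ℝ => A / (σ / 2) * (T - s) ^ (σ / 2)) (𝓝[<] T) (𝓝 0) := by
    have h2 : ContinuousAt (fun s : ℝ => A / (σ / 2) * (T - s) ^ (σ / 2)) T :=
      continuousAt_const.mul
        ((continuousAt_const.sub continuousAt_id).rpow_const (Or.inr hσ2.le))
    have h3 := h2.tendsto.mono_left (nhdsWithin_le_nhds (s := Iio T))
    rwa [sub_self, Real.zero_rpow hσ2.ne', mul_zero] at h3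
  obtain ⟨b, hbT, hsub⟩ := mem_nhdsLT_iff_exists_Ioo_subset.mp
    ((h.centre hT hb hp hl (ε := 1 / 2) (by norm_num)).and
      ((h1.eventually (ge_mem_nhds hε)).and (Ioo_mem_nhdsLT hT)))
  have key : ∀ x, ∀ t ∈ Ioo b T, ∃ f', HasDerivAt (fun s => G.Tn s x) f' t ∧
      ‖f'‖ ≤ A * (T - t) ^ (σ / 2 - 1) := by
    intro x t ht
    obtain ⟨hc, -, htJ⟩ := hsub ht
    obtain ⟨H, hH⟩ := h.pt t htJ x
    obtain ⟨T', hd, hT'⟩ := hH.dtT
    refine ⟨T', hd, hT'.trans ?_⟩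
    have hW := h.W_pos htJ x
    have hτ : 0 < T - t := sub_pos.mpr ht.2
    have hR : 0 < √(2 * n * (T - t)) := by positivity
    have e1 : √(2 * n * (T - t)) / 2 ≤ n / √(G.W t x) := by
      have e2 := (abs_le.mp (hc x).2).1
      have e3 : 1 / 2 ≤ n / √(G.W t x) / √(2 * n * (T - t)) := by linarith
      rw [le_div_iff₀ hR] at e3
      linarith
    have e4 : G.W t x ≤ 2 * n / (T - t) := by
      have e5 := pow_le_pow_left₀ (by positivity) e1 2
      rw [h.s_sq htJ x, div_pow, Real.sq_sqrt (by positivity), div_le_div_iff₀ (by norm_num) hW]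
        at e5
      rw [le_div_iff₀ hτ]
      nlinarith
    have e6 : G.v t x ≤ K * (G.W t x ^ (1 - σ / 2)) ^ 2 := by
      refine (hest t htJ x).2.trans (le_of_eq ?_)
      rw [mul_assoc, ← Real.rpow_natCast, ← Real.rpow_natCast, ← Real.rpow_add hW,
        ← Real.rpow_mul hW.le]
      congr 2
      push_cast
      ring
    have e7 : √(n * G.v t x) ≤ √(n * K) * G.W t x ^ (1 - σ / 2) := by
      rw [← Real.sqrt_sq (Real.rpow_nonneg hW.le (1 - σ / 2)), ← Real.sqrt_mul (by positivity)]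
      refine Real.sqrt_le_sqrt ?_
      rw [mul_assoc]
      exact mul_le_mul_of_nonneg_left e6 hn.le
    have e8 : G.W t x ^ (1 - σ / 2) ≤ (2 * n) ^ (1 - σ / 2) * (T - t) ^ (σ / 2 - 1) := by
      refine (Real.rpow_le_rpow hW.le e4 (by linarith)).trans (le_of_eq ?_)
      rw [Real.div_rpow (by positivity) hτ.le, div_eq_mul_inv, ← Real.rpow_neg hτ.le, neg_sub]
    calc 2 * √(n * G.v t x) ≤ 2 * (√(n * K) * ((2 * n) ^ (1 - σ / 2) * (T - t) ^ (σ / 2 - 1))) := by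
          gcongr
          exact e7.trans (by gcongr)
      _ = A * (T - t) ^ (σ / 2 - 1) := by rw [hA]; ring
  refine ⟨b, hbT, fun s hs t ht x => ?_⟩
  rcases le_total s t with hst | hst
  · exact (cauchy_pow _ hA0 hσ2 (key x) hs.1 hst ht.2).trans (hsub hs).2.1
  · rw [norm_sub_rev]
    exact (cauchy_pow _ hA0 hσ2 (key x) ht.1 hst hs.2).trans (hsub ht).2.1

/-- Let `V` be the range of `E t x₀` and `w ∈ V`. By `radial` for `V` and `p = m t x₀` there is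
`x` with `sproj V p (F t x)` orthogonal to `w`; then `⟪F - m, w⟫` is small against `‖F - m‖ ‖w‖`
at `x`, so `w` is close to `Tn t x w` (`E_eq'`), to `Tn s x w`, which `E s x` fixes; `proj_close`. -/
theorem E_cauchy (hb : ∀ C : ℝ, ∃ᶠ t in 𝓝[<] T, ∃ x, C < G.W t x) {ε : ℝ} (hε : 0 < ε) :
    ∃ b < T, ∀ s ∈ Ioo b T, ∀ t ∈ Ioo b T, ∀ x, ‖G.E t x - G.E s x‖ ≤ ε := by
  set δ := min (ε / 20) (1 / 16) with hδ
  have hδ0 : 0 < δ := lt_min (by positivity) (by norm_num)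
  obtain ⟨b₁, hb₁, hTn⟩ := h.Tn_cauchy hT hb hδ0
  obtain ⟨b, hbT, hsub⟩ := mem_nhdsLT_iff_exists_Ioo_subset.mp
    ((h.all_round hT hb hδ0).and (inter_mem (Ioo_mem_nhdsLT hb₁) (Ioo_mem_nhdsLT hT)))
  refine ⟨b, hbT, fun s hs t ht x => ?_⟩
  obtain ⟨rs, s1, s2⟩ := hsub hs
  obtain ⟨rt, t1, t2⟩ := hsub ht
  obtain ⟨V, hV, hVE⟩ := h.exists_V t2 x
  obtain ⟨V', hV', hVE'⟩ := h.exists_V s2 x
  have e1 : ∀ y, ‖V.starProjection - G.E t y‖ ≤ δ := fun y => hVE ▸ (rt y x).2.2.1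
  have e2 : ∀ y, ‖V'.starProjection - G.E s y‖ ≤ δ := fun y => hVE' ▸ (rs y x).2.2.1
  have e3 := proj_close V V' (δ := 10 * δ) (by positivity)
    (CaseA3_half h.toGeoLoc s2 t2 hV hδ0.le (min_le_right _ _) e1 e2 (p := G.m t x)
      (fun y => by rw [norm_sub_rev]; exact (rt y x).2.2.2.1) (hTn s s1 t t1))
    (CaseA3_half h.toGeoLoc t2 s2 hV' hδ0.le (min_le_right _ _) e2 e1 (p := G.m s x)
      (fun y => by rw [norm_sub_rev]; exact (rs y x).2.2.2.1) (hTn t t1 s s1))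
  rw [hVE, hVE']
  have : δ ≤ ε / 20 := min_le_left _ _
  linarith

theorem exists_space (hb : ∀ C : ℝ, ∃ᶠ t in 𝓝[<] T, ∃ x, C < G.W t x) :
    ∃ V : Submodule ℝ Q, Module.finrank ℝ V = n + 1 ∧
      ∀ ε : ℝ, 0 < ε → ∀ᶠ t in 𝓝[<] T, ∀ x, ‖G.E t x - V.starProjection‖ ≤ ε := by
  obtain ⟨x₀⟩ : Nonempty M := inferInstance
  have h1 : Cauchy (map (fun t => G.E t x₀) (𝓝[<] T)) := by
    refine Metric.cauchy_iff.mpr ⟨inferInstance, fun ε hε => ?_⟩
    obtain ⟨b, hbT, hc⟩ := h.E_cauchy hT hb (half_pos hε)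
    refine ⟨_, image_mem_map (Ioo_mem_nhdsLT hbT), ?_⟩
    rintro _ ⟨t, ht, rfl⟩ _ ⟨s, hs, rfl⟩
    rw [dist_eq_norm]
    exact (hc s hs t ht x₀).trans_lt (half_lt_self hε)
  obtain ⟨L, hL⟩ := cauchy_map_iff_exists_tendsto.mp h1
  obtain ⟨V, hV, rfl⟩ := proj_limit (k := n + 1)
    (mem_of_superset (Ioo_mem_nhdsLT hT) fun t ht => h.exists_V ht x₀) hL
  refine ⟨V, hV, fun ε hε => ?_⟩
  filter_upwards [h.all_round hT hb (half_pos hε), Metric.tendsto_nhds.mp hL _ (half_pos hε)]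
    with t h2 h3 x
  rw [dist_eq_norm] at h3
  have := norm_sub_le_norm_sub_add_norm_sub (G.E t x) (G.E t x₀) V.starProjection
  linarith [(h2 x₀ x).2.2.1]

/-- `sff_le_W`, `exists_limit`, `exists_space`, `centre`, `shape`, `E_F`, `E_sub`, `E_dF`,
`radial`. -/
theorem round_point
    (hb : ∀ C : ℝ, ∃ᶠ t in 𝓝[<] T, ∃ x ξ, C * ‖dF P (F t) x ξ‖ ^ 2 < ‖sff P (F t) x ξ ξ‖) :
    ∃ (p : Q) (V : Submodule ℝ Q), ‖p‖ = 1 ∧ Module.finrank ℝ V = n + 1 ∧ (∀ w ∈ V, ⟪p, w⟫ = 0) ∧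
      (∀ ε : ℝ, 0 < ε → ∀ᶠ t in 𝓝[<] T, ∀ x,
        |‖F t x - p‖ / √(2 * n * (T - t)) - 1| ≤ ε ∧
        ‖F t x - p - V.starProjection (F t x - p)‖ ≤ ε * √(2 * n * (T - t)) ∧
        (∀ ξ, ‖dF P (F t) x ξ - V.starProjection (dF P (F t) x ξ)‖ ≤ ε * ‖dF P (F t) x ξ‖) ∧
        ∀ ξ ζ, ‖√(2 * n * (T - t)) • sff P (F t) x ξ ζ +
            (⟪dF P (F t) x ξ, dF P (F t) x ζ⟫ / √(2 * n * (T - t))) • (F t x - p)‖ ≤
          ε * ‖dF P (F t) x ξ‖ * ‖dF P (F t) x ζ‖) ∧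
      ∀ᶠ t in 𝓝[<] T, SubBij V p (F t) := by
  have hJ : ∀ᶠ t in 𝓝[<] T, t ∈ Ioo a T := Ioo_mem_nhdsLT hT
  have hn : (0 : ℝ) < n := by have := h.hn; positivity
  have hb' : ∀ C : ℝ, ∃ᶠ t in 𝓝[<] T, ∃ x, C < G.W t x := by
    intro C
    refine ((hb (12 * √C)).and_eventually hJ).mono ?_
    rintro t ⟨⟨x, ξ, h1⟩, ht⟩
    refine ⟨x, ?_⟩
    have h2 := h1.trans_le (h.sff_le_W ht x ξ)
    have h3 := lt_of_mul_lt_mul_right h2 (sq_nonneg _)
    by_contra h4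
    have := Real.sqrt_le_sqrt (not_lt.mp h4)
    linarith
  obtain ⟨p, hp, hl⟩ := h.exists_limit hT hb'
  obtain ⟨V, hV, hE⟩ := h.exists_space hT hb'
  obtain ⟨x₀⟩ : Nonempty M := inferInstance
  refine ⟨p, V, hp, hV, fun w hw => ?_, fun ε hε => ?_, ?_⟩
  · have h1 : V.starProjection p = 0 := by
      refine norm_le_zero_iff.mp (le_of_forall_pos_le_add fun ε hε => ?_)
      have hε3 : 0 < ε / 3 := by positivity
      obtain ⟨t, ht, h2, h3, h4⟩ := (hJ.and ((hE _ hε3).and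
        ((Metric.tendsto_nhds.mp (hl x₀) _ hε3).and
          (h.all_round hT hb' (ε := (ε / 3 / n) ^ 2) (by positivity))))).exists
      have e1 := CaseA3_app (h2 x₀) (F t x₀)
      rw [h.sphere t ht x₀, mul_one, h.E_F ht x₀, norm_sub_rev] at e1
      have e2 := V.norm_starProjection_apply_le (p - F t x₀)
      rw [map_sub, norm_sub_rev p, ← dist_eq_norm (F t x₀)] at e2
      have e3 : n / √(G.W t x₀) ≤ ε / 3 := by
        refine (pow_le_pow_iff_left₀ (h.s_pos ht x₀).le hε3.le two_ne_zero).mp ?_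
        rw [h.s_sq ht x₀, div_le_iff₀ (h.W_pos ht x₀)]
        have e4 := mul_le_mul_of_nonneg_left (h4 x₀ x₀).1 (sq_nonneg (ε / 3))
        refine le_trans (le_of_eq ?_) e4
        field_simp
      rw [← h.norm_F_sub_m ht x₀] at e3
      have e5 := norm_sub_norm_le (V.starProjection p) (V.starProjection (F t x₀))
      have e6 := norm_sub_norm_le (V.starProjection (F t x₀)) (F t x₀ - G.m t x₀)
      linarith
    rw [real_inner_comm]
    exact (Submodule.starProjection_apply_eq_zero_iff V).mp h1 w hw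
  · set δ := min (ε / 8) 1 with hδ
    have hδ0 : 0 < δ := lt_min (by positivity) one_pos
    have hδ1 : δ ≤ ε / 8 := min_le_left _ _
    have hδ2 : δ ≤ 1 := min_le_right _ _
    filter_upwards [hJ, h.shape hT hb' hp hl hε, h.centre hT hb' hp hl hδ0, hE δ hδ0]
      with t ht h1 h2 h3 x
    refine ⟨(h1 x).1, ?_, fun ξ => ?_, (h1 x).2⟩
    · have hτ : 0 < T - t := sub_pos.mpr ht.2
      have hR : 0 < √(2 * n * (T - t)) := by positivity
      have e1 := CaseA3_h1 h.toGeoLoc ht (V := V) (x := x) (by rw [norm_sub_rev]; exact h3 x)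
        (h2 x).1
      have e2 : n / √(G.W t x) ≤ 2 * √(2 * n * (T - t)) := by
        have e3 := (abs_le.mp (h2 x).2).2
        rw [← div_le_iff₀ hR]
        linarith
      have e4 := norm_sub_le_norm_sub_add_norm_sub (F t x - p) (F t x - G.m t x)
        (V.starProjection (F t x - p))
      rw [sub_sub_sub_cancel_left, norm_sub_rev (F t x - G.m t x)] at e4
      have e5 := (h2 x).1
      have e6 := mul_le_mul_of_nonneg_left e2 hδ0.le
      have e7 := mul_le_mul_of_nonneg_right hδ1 hR.le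
      nlinarith
    · have e1 := CaseA3_app (h3 x) (dF P (F t) x ξ)
      rw [h.E_dF ht x ξ] at e1
      exact e1.trans (mul_le_mul_of_nonneg_right (by linarith) (norm_nonneg _))
  · filter_upwards [hJ, h.centre hT hb' hp hl (ε := 1 / 16) (by norm_num),
      hE (1 / 16) (by norm_num)] with t ht h2 h3
    exact CaseA3_radial h.toGeoLoc ht hV le_rfl (fun x => by rw [norm_sub_rev]; exact h3 x)
      (fun x => (h2 x).1)

end GeoA

end Pool.Agent.Lib.MP_de485e_gt.Hi
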