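import Pool.Agent.Lib.MP_de485e_gt.Hi.Round

/-! Infinite time: convergence to a great sphere. -/

open Set Filter Topology Metric
open scoped RealInnerProductSpace

namespace Pool.Agent.Lib.MP_de485e_gt.Hi

variable {n : ℕ} {P Q : Type} [NormedAddCommGroup P] [InnerProductSpace ℝ P] [FiniteDimensional ℝ P]
  [NormedAddCommGroup Q] [InnerProductSpace ℝ Q] [FiniteDimensional ℝ Q]
  {M : Type} [TopologicalSpace M] [ChartedSpace P M] [T2Space M] [CompactSpace M]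
  [ConnectedSpace M] {F : ℝ → M → Q} {a : ℝ} {G : GeoData Q M}

theorem CaseB_small (B : ℝ) {c ε : ℝ} (hc : 0 < c) (hε : 0 < ε) :
    ∀ᶠ t : ℝ in atTop, B * Real.exp (-(c * t)) < ε := by
  have h1 : Tendsto (fun t : ℝ => Real.exp (-(c * t))) atTop (𝓝 0) :=
    Real.tendsto_exp_atBot.comp
      (tendsto_neg_atTop_atBot.comp (Tendsto.const_mul_atTop hc tendsto_id))
  have h2 := h1.const_mul B
  rw [mul_zero] at h2
  exact h2.eventually (gt_mem_nhds hε)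

theorem CaseB_zero {b B c t₀ : ℝ} (hc : 0 < c) (h : ∀ t, t₀ ≤ t → b ≤ B * Real.exp (-(c * t))) :
    b ≤ 0 := by
  by_contra hb
  obtain ⟨t, h1, h2⟩ := ((CaseB_small B hc (not_le.1 hb)).and (eventually_ge_atTop t₀)).exists
  exact absurd (h t h2) (not_le.2 h1)

omit [FiniteDimensional ℝ Q] in
theorem CaseB_rank (ν φ w : Q) :
    ‖⟪ν, w⟫ • ν - ⟪φ, w⟫ • φ‖ ≤ (‖ν‖ + ‖φ‖) * ‖ν - φ‖ * ‖w‖ := by
  have e : ⟪ν, w⟫ • ν - ⟪φ, w⟫ • φ = ⟪ν - φ, w⟫ • ν + ⟪φ, w⟫ • (ν - φ) := by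
    rw [inner_sub_left, sub_smul, smul_sub]
    abel
  rw [e]
  refine (norm_add_le _ _).trans ?_
  rw [norm_smul, norm_smul, Real.norm_eq_abs, Real.norm_eq_abs]
  have a1 := mul_le_mul_of_nonneg_right (abs_real_inner_le_norm (ν - φ) w) (norm_nonneg ν)
  have a2 := mul_le_mul_of_nonneg_right (abs_real_inner_le_norm φ w) (norm_nonneg (ν - φ))
  linarith

omit [FiniteDimensional ℝ P] [T2Space M] [CompactSpace M] [ConnectedSpace M] in
theorem CaseB_nu {t : ℝ} {x : M} {H : Q} (hn : 2 ≤ n) (hF : ‖F t x‖ = 1)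
    (d : PtData n P F G t x H) : ∃ ν : Q, ‖ν‖ = 1 ∧
      (∀ w, G.E t x w = G.Tn t x w + ⟪ν, w⟫ • ν) ∧ ‖ν - F t x‖ ≤ ‖H‖ := by
  have hn' : (2 : ℝ) ≤ n := by exact_mod_cast hn
  have hW : 0 < G.W t x := by rw [d.W_eq]; positivity
  obtain ⟨r, hr⟩ : ∃ r, r = √(G.W t x) := ⟨_, rfl⟩
  have hr0 : 0 < r := by rw [hr]; exact Real.sqrt_pos.2 hW
  have hr2 : r ^ 2 = G.W t x := by rw [hr]; exact Real.sq_sqrt hW.le
  have hrn : (n : ℝ) ≤ r := by
    rw [hr]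
    refine Real.le_sqrt_of_sq_le ?_
    rw [d.W_eq]
    linarith [sq_nonneg ‖H‖]
  have hFF : ⟪F t x, F t x⟫ = 1 := by rw [real_inner_self_eq_norm_sq, hF, one_pow]
  have hHF : ⟪H, F t x⟫ = 0 := by rw [real_inner_comm]; exact d.FH
  have h1 : ‖H - (n : ℝ) • F t x‖ ^ 2 = r ^ 2 := by
    rw [norm_sub_sq_real, real_inner_smul_right, hHF, norm_smul, hF, Real.norm_eq_abs,
      Nat.abs_cast, hr2, d.W_eq]
    ring
  have h2 : ‖H - (n : ℝ) • F t x‖ = r := (pow_left_inj₀ (norm_nonneg _) hr0.le two_ne_zero).1 h1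
  have h3 : ‖(-r⁻¹) • (H - (n : ℝ) • F t x)‖ = 1 := by
    rw [norm_smul, h2, norm_neg, Real.norm_eq_abs, abs_of_pos (inv_pos.2 hr0),
      inv_mul_cancel₀ hr0.ne']
  refine ⟨(-r⁻¹) • (H - (n : ℝ) • F t x), h3, fun w => ?_, ?_⟩
  · rw [d.E_eq, real_inner_smul_left (H - (n : ℝ) • F t x), smul_smul, ← hr2]
    congr 2
    field_simp
  · refine (pow_le_pow_iff_left₀ (norm_nonneg _) (norm_nonneg _) two_ne_zero).1 ?_
    rw [norm_sub_sq_real, h3, hF, real_inner_smul_left, inner_sub_left, hHF, real_inner_smul_left,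
      hFF]
    have h4 : ‖H‖ ^ 2 = (r - n) * (r + n) := by
      have := d.W_eq
      rw [← hr2] at this
      linarith
    have h5 : (1 : ℝ) ^ 2 - 2 * (-r⁻¹ * (0 - n * 1)) + 1 ^ 2 = (r - n) * (2 / r) := by
      field_simp
      ring
    rw [h4, h5]
    refine mul_le_mul_of_nonneg_left ?_ (by linarith)
    have : 2 / r ≤ 1 := (div_le_one hr0).2 (by linarith)
    linarith

namespace GeoB

variable (h : GeoB n P F (Ioi a) G)
include h

/-- If `⟪c, F t y⟫ ≥ μ > 0` for all `y`, `est4` with `-c` gives `μ exp (n (s - t)) ≤ ‖c‖`. -/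
theorem no_hemisphere {t : ℝ} (ht : a < t) (c : Q) : ∃ y, ⟪c, F t y⟫ ≤ 0 := by
  by_contra hc
  push Not at hc
  have hcont : Continuous fun y => ⟪c, F t y⟫ := continuous_const.inner (h.contF t ht)
  obtain ⟨y₀, -, hy₀⟩ := isCompact_univ.exists_isMinOn univ_nonempty hcont.continuousOn
  have hn : (2 : ℝ) ≤ n := by exact_mod_cast h.hn
  refine absurd (CaseB_zero (B := Real.exp t * ‖c‖) (t₀ := t) one_pos fun s hs => ?_)
    (not_le.2 (hc y₀))
  have h1 := h.est4 t ht s (ht.trans_le hs) hs (-c) (-⟪c, F t y₀⟫)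
    (fun y => by rw [inner_neg_left]; exact neg_le_neg (hy₀ (mem_univ y))) y₀
  rw [inner_neg_left, mul_neg, neg_le_neg_iff] at h1
  have h2 : ⟪c, F s y₀⟫ ≤ ‖c‖ := by
    simpa [h.sphere s (ht.trans_le hs) y₀] using real_inner_le_norm c (F s y₀)
  have h3 : Real.exp (-(n * (s - t))) ≤ Real.exp t * Real.exp (-(1 * s)) := by
    rw [← Real.exp_add]
    refine Real.exp_le_exp.2 ?_
    nlinarith
  calc ⟪c, F t y₀⟫ ≤ Real.exp (-(n * (s - t))) * ‖c‖ :=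
        h1.trans (mul_le_mul_of_nonneg_left h2 (Real.exp_pos _).le)
    _ ≤ Real.exp t * Real.exp (-(1 * s)) * ‖c‖ :=
        mul_le_mul_of_nonneg_right h3 (norm_nonneg c)
    _ = _ := by ring

/-- The estimates at one time in terms of `η`. -/
theorem CaseB_eta {t η : ℝ} (ht : a < t) (hη : 0 < η) (hη' : 3000 * (n : ℝ) ^ 2 * η ≤ 1)
    (hs : ∀ y, G.u t y ≤ η ^ 2 * G.W t y ∧ G.v t y ≤ η ^ 2 * G.W t y ^ 2) (x y : M) :
    G.W t x - (n : ℝ) ^ 2 ≤ 270 * (n : ℝ) ^ 4 * η ∧ G.u t x ≤ 270 * (n : ℝ) ^ 4 * η ∧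
      G.v t x ≤ 270 * (n : ℝ) ^ 4 * η ∧ ‖G.E t y - G.E t x‖ ≤ 270 * (n : ℝ) ^ 4 * η := by
  have hn : (2 : ℝ) ≤ n := by exact_mod_cast h.hn
  have hN : (4 : ℝ) ≤ (n : ℝ) ^ 2 := by nlinarith
  have hl := h.toGeoLoc
  have hW := hl.W_ge ht
  have hW0 : ∀ z, 0 < G.W t z := fun z => lt_of_lt_of_le (by linarith) (hW z)
  have hr := hl.round ht x hη hη' fun z _ => hs z
  have hq : n / √(G.W t x) ≤ 1 := hl.s_le ht x
  obtain ⟨δ, hδ⟩ : ∃ δ, δ = 90 * (n : ℝ) ^ 2 * η := ⟨_, rfl⟩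
  rw [← hδ] at hr
  have hδ0 : 0 < δ := by rw [hδ]; positivity
  have hδ1 : δ ≤ 1 / 25 := by rw [hδ]; linarith
  have hδq : δ * (n / √(G.W t x)) ≤ δ := mul_le_of_le_one_right hδ0.le hq
  obtain ⟨z, hz⟩ := h.no_hemisphere ht (G.m t x)
  obtain ⟨-, r2, r3⟩ := hr z
  have a1 : 1 - (n : ℝ) ^ 2 / G.W t z ≤ δ := by
    rw [← hl.inner_m_F ht z]
    have e : ⟪G.m t z, F t z⟫ = ⟪G.m t z - G.m t x, F t z⟫ + ⟪G.m t x, F t z⟫ := by
      rw [inner_sub_left]; ring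
    have := real_inner_le_norm (G.m t z - G.m t x) (F t z)
    rw [hl.sphere t ht z, mul_one] at this
    linarith
  have a2 : (1 - δ) * G.W t z ≤ (n : ℝ) ^ 2 := by
    rw [← le_div_iff₀ (hW0 z)]; linarith
  have a3 : G.W t x ≤ (1 + δ) * G.W t z := by
    rw [← div_le_iff₀ (hW0 z)]; linarith [(abs_le.1 r3).2]
  have a4 : (1 - δ) * G.W t x ≤ (1 + δ) * (n : ℝ) ^ 2 := by
    calc (1 - δ) * G.W t x ≤ (1 - δ) * ((1 + δ) * G.W t z) :=
          mul_le_mul_of_nonneg_left a3 (by linarith)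
      _ = (1 + δ) * ((1 - δ) * G.W t z) := by ring
      _ ≤ _ := mul_le_mul_of_nonneg_left a2 (by linarith)
  have a5 : G.W t x ≤ 2 * (n : ℝ) ^ 2 := by nlinarith [hW0 x]
  have hη1 : η ≤ 1 := by nlinarith
  have hη2 : η ^ 2 ≤ η := by nlinarith
  have e4 : (n : ℝ) ^ 4 = (n : ℝ) ^ 2 * (n : ℝ) ^ 2 := by ring
  have p4 : (n : ℝ) ^ 2 ≤ (n : ℝ) ^ 4 := by rw [e4]; nlinarith
  have p5 : (n : ℝ) ^ 2 * η ≤ (n : ℝ) ^ 4 * η := mul_le_mul_of_nonneg_right p4 hη.le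
  have p6 : 0 ≤ (n : ℝ) ^ 4 * η := by positivity
  refine ⟨?_, ?_, ?_, ?_⟩
  · have : G.W t x - (n : ℝ) ^ 2 ≤ δ * (3 * (n : ℝ) ^ 2) := by nlinarith
    refine this.trans (le_of_eq ?_)
    rw [hδ]; ring
  · have : η ^ 2 * G.W t x ≤ η * (2 * (n : ℝ) ^ 2) := mul_le_mul hη2 a5 (hW0 x).le hη.le
    linarith [(hs x).1]
  · have b : G.W t x ^ 2 ≤ (2 * (n : ℝ) ^ 2) ^ 2 := pow_le_pow_left₀ (hW0 x).le a5 2
    have : η ^ 2 * G.W t x ^ 2 ≤ η * (2 * (n : ℝ) ^ 2) ^ 2 :=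
      mul_le_mul hη2 b (sq_nonneg _) hη.le
    have e : η * (2 * (n : ℝ) ^ 2) ^ 2 = 4 * ((n : ℝ) ^ 4 * η) := by ring
    linarith [(hs x).2]
  · have := (hr y).1
    rw [hδ] at this
    linarith

/-- `estB` gives `η = √K exp (-c t / 2)`; `round` at every base point `x₀` and `no_hemisphere`
for `m t x₀` give `1 - n ^ 2 / W ≤ C η`. -/
theorem decay : ∃ K c t₀ : ℝ, 0 < K ∧ 0 < c ∧ a < t₀ ∧ ∀ t, t₀ ≤ t → ∀ x y,
    G.W t x - (n : ℝ) ^ 2 ≤ (K * Real.exp (-(c * t))) ^ 2 ∧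
      G.u t x ≤ (K * Real.exp (-(c * t))) ^ 2 ∧ G.v t x ≤ (K * Real.exp (-(c * t))) ^ 2 ∧
      ‖G.E t y - G.E t x‖ ≤ K * Real.exp (-(c * t)) := by
  obtain ⟨K, c, hK, hc, hE⟩ := h.estB
  have hn : (2 : ℝ) ≤ n := by exact_mod_cast h.hn
  have hc4 : 0 < c / 4 := by positivity
  obtain ⟨t₁, ht₁⟩ := eventually_atTop.1 (CaseB_small (3000 * (n : ℝ) ^ 2 * √K) hc4 one_pos)
  obtain ⟨L, hL⟩ : ∃ L, L = 270 * (n : ℝ) ^ 4 * √K := ⟨_, rfl⟩
  have hsK : 0 < √K := Real.sqrt_pos.2 hK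
  have hL0 : 0 < L := by rw [hL]; positivity
  refine ⟨L + 1, c / 4, max (a + 1) (max 0 t₁), by positivity, hc4,
    lt_max_of_lt_left (lt_add_one a), fun t ht x y => ?_⟩
  have hta : a < t := (lt_add_one a).trans_le ((le_max_left _ _).trans ht)
  have ht0 : 0 ≤ t := ((le_max_left _ _).trans (le_max_right _ _)).trans ht
  obtain ⟨E, hEe⟩ : ∃ E, E = Real.exp (-(c / 4 * t)) := ⟨_, rfl⟩
  have hE0 : 0 < E := by rw [hEe]; exact Real.exp_pos _
  have hE1 : E ≤ 1 := by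
    rw [hEe]
    exact Real.exp_le_one_iff.2 (neg_nonpos.2 (by positivity))
  have hE2 : E ^ 2 ≤ E := by nlinarith
  have hsm := ht₁ t (((le_max_right _ _).trans (le_max_right _ _)).trans ht)
  rw [← hEe] at hsm ⊢
  have e4 : (√K * E ^ 2) ^ 2 = K * Real.exp (-(c * t)) := by
    rw [mul_pow, Real.sq_sqrt hK.le, ← pow_mul, hEe, ← Real.exp_nat_mul]
    congr 2
    push_cast
    ring
  have hs : ∀ z, G.u t z ≤ (√K * E ^ 2) ^ 2 * G.W t z ∧
      G.v t z ≤ (√K * E ^ 2) ^ 2 * G.W t z ^ 2 := by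
    intro z
    rw [e4]
    exact hE t hta z
  have hη' : 3000 * (n : ℝ) ^ 2 * (√K * E ^ 2) ≤ 1 := by
    have : 3000 * (n : ℝ) ^ 2 * √K * E ^ 2 ≤ 3000 * (n : ℝ) ^ 2 * √K * E :=
      mul_le_mul_of_nonneg_left hE2 (by positivity)
    linarith
  obtain ⟨c1, c2, c3, c4⟩ := h.CaseB_eta hta (by positivity) hη' hs x y
  have e5 : 270 * (n : ℝ) ^ 4 * (√K * E ^ 2) = L * E ^ 2 := by rw [hL]; ring
  rw [e5] at c1 c2 c3 c4
  have d1 : L * E ^ 2 ≤ ((L + 1) * E) ^ 2 := by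
    rw [mul_pow]
    exact mul_le_mul_of_nonneg_right (by nlinarith) (sq_nonneg E)
  refine ⟨c1.trans d1, c2.trans d1, c3.trans d1, ?_⟩
  have := mul_le_mul_of_nonneg_left hE2 hL0.le
  nlinarith

/-- `F t x` and `Tn t x` converge uniformly (`limit_exp`), `H` and `m` tend to `0`, so `E t x`
converges (`E_eq`); the limit does not depend on `x`; `proj_limit`, `radial` with `p = 0`. -/
theorem great_sphere : ∃ V : Submodule ℝ Q, Module.finrank ℝ V = n + 1 ∧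
    (∃ Φ : M → Q, TendstoUniformly F Φ atTop ∧ ∀ x, Φ x ∈ V) ∧
    (∀ ε : ℝ, 0 < ε → ∀ᶠ t in atTop, ∀ x,
      (∀ ξ, ‖dF P (F t) x ξ - V.starProjection (dF P (F t) x ξ)‖ ≤ ε * ‖dF P (F t) x ξ‖) ∧
      ∀ ξ ζ, ‖sff P (F t) x ξ ζ‖ ≤ ε * ‖dF P (F t) x ξ‖ * ‖dF P (F t) x ζ‖) ∧
    ∀ᶠ t in atTop, SubBij V 0 (F t) := by
  obtain ⟨K, c, t₀, hK, hc, ht₀, hd⟩ := h.decay
  have hn : (2 : ℝ) ≤ n := by exact_mod_cast h.hn
  have hl := h.toGeoLoc
  have : CompleteSpace Q := FiniteDimensional.complete ℝ Q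
  obtain ⟨x₀⟩ : Nonempty M := inferInstance
  have hJ : ∀ t, t₀ ≤ t → t ∈ Ioi a := fun t ht => ht₀.trans_le ht
  have hp : ∀ t, t₀ ≤ t → ∀ x, ∃ H, PtData n P F G t x H ∧ ‖H‖ ≤ K * Real.exp (-(c * t)) := by
    intro t ht x
    obtain ⟨H, d⟩ := hl.pt t (hJ t ht) x
    refine ⟨H, d, (pow_le_pow_iff_left₀ (norm_nonneg _) (by positivity) two_ne_zero).1 ?_⟩
    have := (hd t ht x x).1
    rw [d.W_eq] at this
    linarith
  have hF : ∀ x, ∃ l, ∀ s, t₀ ≤ s → ‖l - F s x‖ ≤ K / c * Real.exp (-(c * s)) := fun x =>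
    limit_exp (fun s => F s x) hK.le hc fun t ht => by
      obtain ⟨H, d, hH⟩ := hp t ht x
      exact ⟨_, d.flow, hH⟩
  choose Φ hΦ using hF
  obtain ⟨T, hT⟩ := limit_exp (fun s => G.Tn s x₀) (A := 2 * (n * K)) (t₀ := t₀)
    (by positivity) hc fun t ht => by
      obtain ⟨H, d, -⟩ := hp t ht x₀
      obtain ⟨T', h1, h2⟩ := d.dtT
      refine ⟨T', h1, h2.trans ?_⟩
      have a2 := mul_le_mul_of_nonneg_left (hd t ht x₀ x₀).2.2.1 (Nat.cast_nonneg (α := ℝ) n)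
      have a3 : √(n * G.v t x₀) ≤ n * (K * Real.exp (-(c * t))) := by
        refine Real.sqrt_le_iff.2 ⟨by positivity, ?_⟩
        have a4 : (n : ℝ) * (K * Real.exp (-(c * t))) ^ 2 ≤
            (n : ℝ) ^ 2 * (K * Real.exp (-(c * t))) ^ 2 :=
          mul_le_mul_of_nonneg_right (by nlinarith) (sq_nonneg _)
        rw [mul_pow (n : ℝ)]
        linarith
      linarith
  obtain ⟨L, hLe⟩ : ∃ L : Q →L[ℝ] Q, ∀ w, L w = T w + ⟪Φ x₀, w⟫ • Φ x₀ :=
    ⟨T + (innerSL ℝ (Φ x₀)).smulRight (Φ x₀), fun w => rfl⟩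
  obtain ⟨A, hA⟩ : ∃ A, A = K + (2 * (n * K) / c + (1 + ‖Φ x₀‖) * (K + K / c)) := ⟨_, rfl⟩
  have hC : ∀ t, t₀ ≤ t → ∀ x, ‖G.E t x - L‖ ≤ A * Real.exp (-(c * t)) := by
    intro t ht x
    obtain ⟨H, d, hH⟩ := hp t ht x₀
    obtain ⟨ν, hν, hE, hνF⟩ := CaseB_nu h.hn (hl.sphere t (hJ t ht) x₀) d
    have a1 : ‖ν - Φ x₀‖ ≤ (K + K / c) * Real.exp (-(c * t)) := by
      have b1 := norm_sub_le_norm_sub_add_norm_sub ν (F t x₀) (Φ x₀)
      have b2 := hΦ x₀ t ht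
      rw [norm_sub_rev] at b2
      linarith
    have a2 : ‖G.E t x₀ - L‖ ≤
        (2 * (n * K) / c + (1 + ‖Φ x₀‖) * (K + K / c)) * Real.exp (-(c * t)) := by
      refine ContinuousLinearMap.opNorm_le_bound _ (by positivity) fun w => ?_
      have e : (G.E t x₀ - L) w =
          -((T - G.Tn t x₀) w) + (⟪ν, w⟫ • ν - ⟪Φ x₀, w⟫ • Φ x₀) := by
        rw [sub_apply, sub_apply, hE, hLe]
        abel
      have b1 := (T - G.Tn t x₀).le_of_opNorm_le (hT t ht) w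
      have b2 := CaseB_rank ν (Φ x₀) w
      rw [hν] at b2
      have b3 : (1 + ‖Φ x₀‖) * ‖ν - Φ x₀‖ * ‖w‖ ≤
          (1 + ‖Φ x₀‖) * ((K + K / c) * Real.exp (-(c * t))) * ‖w‖ :=
        mul_le_mul_of_nonneg_right (mul_le_mul_of_nonneg_left a1 (by positivity)) (norm_nonneg w)
      rw [e]
      refine (norm_add_le _ _).trans ?_
      rw [norm_neg]
      linarith
    have a3 := (hd t ht x₀ x).2.2.2
    have a4 := norm_sub_le_norm_sub_add_norm_sub (G.E t x) (G.E t x₀) L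
    rw [hA]
    linarith
  have hlim : Tendsto (fun t => G.E t x₀) atTop (𝓝 L) := by
    refine Metric.tendsto_nhds.2 fun ε hε => ?_
    filter_upwards [CaseB_small A hc hε, eventually_ge_atTop t₀] with t h1 h2
    rw [dist_eq_norm]
    exact (hC t h2 x₀).trans_lt h1
  obtain ⟨V, hV, hLV⟩ := proj_limit (k := n + 1)
    ((eventually_ge_atTop t₀).mono fun t ht => hl.exists_V (hJ t ht) x₀) hlim
  have hap : ∀ t, t₀ ≤ t → ∀ x w,
      ‖G.E t x w - V.starProjection w‖ ≤ A * Real.exp (-(c * t)) * ‖w‖ := by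
    intro t ht x w
    rw [← hLV, ← sub_apply]
    exact (G.E t x - L).le_of_opNorm_le (hC t ht x) w
  refine ⟨V, hV, ⟨Φ, ?_, fun x => ?_⟩, fun ε hε => ?_, ?_⟩
  · refine Metric.tendstoUniformly_iff.2 fun ε hε => ?_
    filter_upwards [CaseB_small (K / c) hc hε, eventually_ge_atTop t₀] with t h1 h2 x
    rw [dist_eq_norm]
    exact (hΦ x t h2).trans_lt h1
  · rw [← Submodule.starProjection_eq_self_iff, ← sub_eq_zero, ← norm_le_zero_iff]
    refine CaseB_zero (B := A + K + 2 * (K / c)) (t₀ := t₀) hc fun t ht => ?_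
    have a1 := hap t ht x (F t x)
    rw [hl.E_F (hJ t ht), hl.sphere t (hJ t ht) x, mul_one] at a1
    have a2 : ‖G.m t x‖ ≤ K * Real.exp (-(c * t)) := by
      refine (pow_le_pow_iff_left₀ (norm_nonneg _) (by positivity) two_ne_zero).1 ?_
      have hW := hl.W_pos (hJ t ht) x
      have hW' := hl.W_ge (hJ t ht) x
      have e : 1 - (n : ℝ) ^ 2 / G.W t x = (G.W t x - (n : ℝ) ^ 2) / G.W t x := by field_simp
      rw [hl.norm_m_sq (hJ t ht), e]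
      exact (div_le_self (by linarith) (by nlinarith)).trans (hd t ht x x).1
    have a3 := hΦ x t ht
    have a4 : ‖V.starProjection (Φ x - F t x)‖ ≤ ‖Φ x - F t x‖ :=
      V.norm_starProjection_apply_le _
    have e : V.starProjection (Φ x) - Φ x = V.starProjection (Φ x - F t x) -
        (F t x - G.m t x - V.starProjection (F t x)) - G.m t x - (Φ x - F t x) := by
      rw [map_sub]
      abel
    have a5 := norm_sub_le (V.starProjection (Φ x - F t x) -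
      (F t x - G.m t x - V.starProjection (F t x)) - G.m t x) (Φ x - F t x)
    have a6 := norm_sub_le (V.starProjection (Φ x - F t x) -
      (F t x - G.m t x - V.starProjection (F t x))) (G.m t x)
    have a7 := norm_sub_le (V.starProjection (Φ x - F t x))
      (F t x - G.m t x - V.starProjection (F t x))
    rw [e]
    linarith
  · filter_upwards [CaseB_small A hc hε, CaseB_small (2 * K) hc hε, eventually_ge_atTop t₀]
      with t h1 h2 ht x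
    obtain ⟨H, d, hH⟩ := hp t ht x
    refine ⟨fun ξ => ?_, fun ξ ζ => ?_⟩
    · have a1 := hap t ht x (dF P (F t) x ξ)
      rw [hl.E_dF (hJ t ht)] at a1
      exact a1.trans (mul_le_mul_of_nonneg_right h1.le (norm_nonneg _))
    · have a1 := d.sff_le ξ ζ
      have a2 : √(G.u t x) ≤ K * Real.exp (-(c * t)) :=
        Real.sqrt_le_iff.2 ⟨by positivity, (hd t ht x x).2.1⟩
      have a3 : ‖(⟪dF P (F t) x ξ, dF P (F t) x ζ⟫ / n) • H‖ ≤
          ‖dF P (F t) x ξ‖ * ‖dF P (F t) x ζ‖ * (K * Real.exp (-(c * t))) := by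
        rw [norm_smul, Real.norm_eq_abs, abs_div, Nat.abs_cast]
        exact mul_le_mul ((div_le_self (abs_nonneg _) (by linarith)).trans
          (abs_real_inner_le_norm _ _)) hH (norm_nonneg _) (by positivity)
      have a4 := norm_le_norm_sub_add (sff P (F t) x ξ ζ)
        ((⟪dF P (F t) x ξ, dF P (F t) x ζ⟫ / n) • H)
      have a0 : 0 ≤ ‖dF P (F t) x ξ‖ * ‖dF P (F t) x ζ‖ := by positivity
      have a5 := mul_le_mul_of_nonneg_right a2 a0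
      have a6 := mul_le_mul_of_nonneg_right h2.le a0
      rw [mul_assoc] at a1 ⊢
      linarith
  · filter_upwards [CaseB_small A hc (by norm_num : (0 : ℝ) < 1 / 16), CaseB_small K hc one_pos,
      eventually_ge_atTop t₀] with t h1 h2 ht
    refine hl.radial (hJ t ht) hV 0 (fun x => ?_) fun x ξ => ?_
    · have a0 := hap t ht x (F t x)
      rw [hl.E_F (hJ t ht), hl.sphere t (hJ t ht) x, mul_one, norm_sub_rev] at a0
      have hW := hl.W_pos (hJ t ht) x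
      have a1 : (K * Real.exp (-(c * t))) ^ 2 ≤ 1 := pow_le_one₀ (by positivity) h2.le
      have a2 : √(G.W t x) ≤ 2 * n := by
        refine Real.sqrt_le_iff.2 ⟨by positivity, ?_⟩
        nlinarith [(hd t ht x x).1]
      have a3 : 1 / 2 ≤ n / √(G.W t x) := by
        rw [le_div_iff₀ (Real.sqrt_pos.2 hW)]
        linarith
      rw [sub_zero]
      linarith
    · have a1 := hap t ht x (dF P (F t) x ξ)
      rw [hl.E_dF (hJ t ht), norm_sub_rev] at a1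
      have a2 := mul_le_mul_of_nonneg_right h1.le (norm_nonneg (dF P (F t) x ξ))
      linarith [norm_nonneg (dF P (F t) x ξ)]

end GeoB

end Pool.Agent.Lib.MP_de485e_gt.Hi
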