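import Pool.Agent.Lib.MP_de485e_gt.Global

/-! The strict bound on `tau` persists for a short time. -/

open Set Filter Topology
open scoped RealInnerProductSpace InnerProduct Manifold ContDiff

namespace Pool.Agent.Lib.MP_de485e_gt.Hi

variable {P Q : Type} [NormedAddCommGroup P] [InnerProductSpace ℝ P] [CompleteSpace P]
  [FiniteDimensional ℝ P] [NormedAddCommGroup Q] [InnerProductSpace ℝ Q] [CompleteSpace Q]
  [FiniteDimensional ℝ Q] {M : Type} [TopologicalSpace M] [ChartedSpace P M]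

omit [CompleteSpace P] in
private theorem M4_tau_iff {G : M → Q} (hG : ∀ x, ContDiffAt ℝ 2 (loc P G x) (chartAt P x x))
    (hi : ∀ x, Function.Injective (dF P G x)) (c : ℝ) :
    TauLt P G c ↔ ∀ x u v, u ≠ 0 → v ≠ 0 → ⟪dF P G x u, dF P G x v⟫ = 0 →
      phi 0 (loc P G x) (chartAt P x x) u v < c := by
  have key : ∀ x u v, ⟪dF P G x u, dF P G x u⟫ = 1 → ⟪dF P G x v, dF P G x v⟫ = 1 →
      phi 0 (loc P G x) (chartAt P x x) u v = ‖sff P G x u u - sff P G x v v‖ ^ 2 := by
    intro x u v hu hv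
    unfold dF at hu hv
    simp only [phi, kS, nz, hu, hv, inv_one, one_smul, sff_eq (hG x), real_inner_self_eq_norm_sq,
      zero_mul, mul_zero, sub_zero]
  have k : ∀ w : Q, ⟪w, w⟫ = 1 ↔ ‖w‖ = 1 := fun w => by
    rw [real_inner_self_eq_norm_sq, pow_eq_one_iff_of_nonneg (norm_nonneg _) two_ne_zero]
  constructor
  · intro H x u v hu hv huv
    have hu' : ‖dF P G x u‖ ≠ 0 :=
      norm_ne_zero_iff.2 fun e => hu (hi x (e.trans (map_zero _).symm))
    have hv' : ‖dF P G x v‖ ≠ 0 :=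
      norm_ne_zero_iff.2 fun e => hv (hi x (e.trans (map_zero _).symm))
    have e1 : ‖dF P G x (‖dF P G x u‖⁻¹ • u)‖ = 1 := by
      rw [map_smul, norm_smul, norm_inv, norm_norm, inv_mul_cancel₀ hu']
    have e2 : ‖dF P G x (‖dF P G x v‖⁻¹ • v)‖ = 1 := by
      rw [map_smul, norm_smul, norm_inv, norm_norm, inv_mul_cancel₀ hv']
    have e3 : ⟪dF P G x (‖dF P G x u‖⁻¹ • u), dF P G x (‖dF P G x v‖⁻¹ • v)⟫ = 0 := by
      rw [map_smul, map_smul, real_inner_smul_left, real_inner_smul_right, huv, mul_zero, mul_zero]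
    have := H x (‖dF P G x u‖⁻¹ • u) (‖dF P G x v‖⁻¹ • v) (by
      rw [orthonormal_vecCons_iff, orthonormal_vecCons_iff]
      exact ⟨e1, Fin.forall_fin_one.2 e3, e2, by simp, by simp⟩)
    rw [← key _ _ _ ((k _).2 e1) ((k _).2 e2)] at this
    simpa only [phi, kS_smul _ _ _ (inv_ne_zero hu'), kS_smul _ _ _ (inv_ne_zero hv')] using this
  · intro H x u v huv
    rw [orthonormal_vecCons_iff, orthonormal_vecCons_iff] at huv
    obtain ⟨hu, huv, hv, -⟩ := huv
    rw [← key _ _ _ ((k _).2 hu) ((k _).2 hv)]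
    exact H x u v (fun e => by simp [e] at hu) (fun e => by simp [e] at hv) (huv 0)

variable [IsManifold 𝓘(ℝ, P) ∞ M] [CompactSpace M] {F : ℝ → M → Q}

/-- As `IsSphereMCF.open_good`: for `u`, `v` on the unit sphere of `P` either
`⟪L u, L v⟫ ≠ 0` or `‖kS u - kS v‖ ^ 2 < c`, and both are open conditions (`IsSphereMCF.cont`,
`transfer`, `sff_eq`). -/
theorem tau_eventually {S c : ℝ} (hS : 0 < S) (h : IsSphereMCF P F (Ico 0 S))
    (h0 : TauLt P (F 0) c) : ∀ᶠ t in 𝓝[>] 0, TauLt P (F t) c := by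
  have hI := uniqueDiffOn_Ico 0 S
  have h00 : (0 : ℝ) ∈ Ico 0 S := ⟨le_rfl, hS⟩
  rw [M4_tau_iff (fun x => h.sm2 x h00 (mem_chart_target _ x)) (h.immersion 0 h00)] at h0
  suffices H : ∀ᶠ s in 𝓝 (0 : ℝ), ∀ x ∈ (univ : Set M), s ∈ Ico 0 S → ∀ u v, u ≠ 0 → v ≠ 0 →
      ⟪dF P (F s) x u, dF P (F s) x v⟫ = 0 →
      phi 0 (fun y => gc P F x (s, y)) (chartAt P x x) u v < c by
    filter_upwards [mem_nhdsWithin_of_mem_nhds H, Ioo_mem_nhdsGT hS] with s hs hs'
    have hs'' := Ioo_subset_Ico_self hs'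
    rw [M4_tau_iff (fun x => h.sm2 x hs'' (mem_chart_target _ x)) (h.immersion s hs'')]
    exact fun x => hs x (mem_univ x) hs''
  refine isCompact_univ.eventually_forall_of_forall_eventually fun d _ => ?_
  have ne : ∀ w ∈ Metric.sphere (0 : P) 1, w ≠ 0 := fun w hw e => by simp [e] at hw
  have h1 := param hI (chartAt P d).open_target (m := 1) (by norm_cast) (h.sm d)
  have hm : MapsTo Prod.fst ((Ico 0 S ×ˢ (chartAt P d).target) ×ˢ (univ : Set (P × P)))
    (Ico 0 S ×ˢ (chartAt P d).target) := fun _ hw => hw.1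
  have ha : ((0 : ℝ), chartAt P d d) ∈ Ico 0 S ×ˢ (chartAt P d).target :=
    mk_mem_prod h00 (mem_chart_target _ d)
  have H : ∀ᶠ p in 𝓝 ((0 : ℝ), chartAt P d d), ∀ w ∈ Metric.sphere (0 : P) 1 ×ˢ
      Metric.sphere (0 : P) 1, p ∈ Ico 0 S ×ˢ (chartAt P d).target →
      ⟪fderiv ℝ (fun y => gc P F d (p.1, y)) p.2 w.1,
        fderiv ℝ (fun y => gc P F d (p.1, y)) p.2 w.2⟫ = 0 →
      phi 0 (fun y => gc P F d (p.1, y)) p.2 w.1 w.2 < c := by
    refine ((isCompact_sphere _ _).prod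
      (isCompact_sphere _ _)).eventually_forall_of_forall_eventually fun w hw => ?_
    by_cases hz : ⟪dF P (F 0) d w.1, dF P (F 0) d w.2⟫ = 0
    · have := (h.cont hI d (Z := fun _ => 0) continuous_const (a := ((0, chartAt P d d), w))
        ha (ne _ hw.1) (ne _ hw.2)).eventually
        (gt_mem_nhds (h0 d _ _ (ne _ hw.1) (ne _ hw.2) hz))
      exact (eventually_nhdsWithin_iff.1 this).mono fun z hz hp _ =>
        hz (mk_mem_prod hp (mem_univ _))
    · have hL : ContinuousWithinAt (fun z : (ℝ × P) × P × P =>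
          fderiv ℝ (fun y => gc P F d (z.1.1, y)) z.1.2)
          ((Ico 0 S ×ˢ (chartAt P d).target) ×ˢ univ) (((0 : ℝ), chartAt P d d), w) :=
        ContinuousWithinAt.comp (f := Prod.fst) (x := (((0 : ℝ), chartAt P d d), w))
          (h1.continuousOn _ ha) continuousWithinAt_fst hm
      have hc : ContinuousWithinAt (fun z : (ℝ × P) × P × P =>
          ⟪fderiv ℝ (fun y => gc P F d (z.1.1, y)) z.1.2 z.2.1,
            fderiv ℝ (fun y => gc P F d (z.1.1, y)) z.1.2 z.2.2⟫)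
          ((Ico 0 S ×ˢ (chartAt P d).target) ×ˢ univ) (((0 : ℝ), chartAt P d d), w) :=
        ContinuousWithinAt.inner (𝕜 := ℝ)
          (hL.clm_apply (g := fun z => z.2.1) (Continuous.continuousWithinAt (by fun_prop)))
          (hL.clm_apply (g := fun z => z.2.2) (Continuous.continuousWithinAt (by fun_prop)))
      have := hc.eventually (isOpen_ne.mem_nhds hz)
      exact (eventually_nhdsWithin_iff.1 this).mono fun z hz hp e =>
        absurd e (hz (mk_mem_prod hp (mem_univ _)))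
  have T : Tendsto (fun z : ℝ × M => (z.1, chartAt P d z.2)) (𝓝 (0, d))
      (𝓝 (0, chartAt P d d)) :=
    continuousAt_fst.prodMk (((chartAt P d).continuousAt (mem_chart_source _ d)).comp_of_eq
      continuousAt_snd rfl)
  filter_upwards [T.eventually H, continuousAt_snd.eventually (chart_source_mem_nhds P d)]
    with z h1 h2 hz u v hu hv huv
  obtain ⟨-, A, hA, k1, -, k⟩ := h.transfer d hz h2
  have hu' : ‖A u‖ ≠ 0 := norm_ne_zero_iff.2 fun e => hu (hA.1 (e.trans (map_zero A).symm))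
  have hv' : ‖A v‖ ≠ 0 := norm_ne_zero_iff.2 fun e => hv (hA.1 (e.trans (map_zero A).symm))
  rw [k1, ContinuousLinearMap.comp_apply, ContinuousLinearMap.comp_apply] at huv
  have := h1 (‖A u‖⁻¹ • A u, ‖A v‖⁻¹ • A v)
    (mk_mem_prod (by simp [norm_smul, hu']) (by simp [norm_smul, hv']))
    (mk_mem_prod hz ((chartAt P d).map_source h2))
    (by rw [map_smul, map_smul, real_inner_smul_left, real_inner_smul_right, huv, mul_zero,
      mul_zero])
  rw [k]
  simpa only [phi, kS_smul _ _ _ (inv_ne_zero hu'), kS_smul _ _ _ (inv_ne_zero hv')] using this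

end Pool.Agent.Lib.MP_de485e_gt.Hi
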