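import Pool.Agent.Lib.MP_de485e_gt.Hi.T3

/-! The improved pinching at a touching point (section 4 of the note). -/

namespace Pool.Agent.Lib.MP_de485e_gt.Hi.QA

/-- The reaction terms against the Simons term and the exponential factor. -/
theorem T4_react {n N lam σ κ A l2 w e2 u q Zs r : ℝ} (hn : 2 ≤ n) (hN : 0 ≤ N) (hlam : 0 < lam)
    (hκ0 : 0 < κ) (hκ : κ * (160000 * (N + 1)) = lam * n ^ 2) (hσ : σ * (10 * n) ≤ κ)
    (hA : A * (2 * κ) = (2000 * n ^ 2) ^ 2) (hl2 : 0 < l2) (hw : w = l2 + e2) (he2 : 0 ≤ e2)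
    (hu : 0 ≤ u) (hq : 0 ≤ q) (hr : r ^ 2 = w) (hZ : l2 ≤ e2 → n / 100 * e2 * u ≤ Zs)
    (hZq : Zs ^ 2 ≤ 4 * N * q * u) :
    2000 * n ^ 2 * u * w * r + σ * u * (5 * n * w ^ 2) - lam * q ≤ (A + 2 * κ * l2) * (u * w) := by
  have hw0 : 0 < w := by linarith
  have huw : 0 ≤ u * w := by positivity
  have h1 : 2000 * n ^ 2 * r ≤ κ / 2 * w + A := by
    refine le_of_mul_le_mul_right ?_ (show 0 < 2 * κ by positivity)
    rw [add_mul, hA, ← hr]
    nlinarith only [sq_nonneg (κ * r - 2000 * n ^ 2)]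
  have h2 := mul_le_mul_of_nonneg_right h1 huw
  have h3 := mul_le_mul_of_nonneg_right hσ (show 0 ≤ u * w ^ 2 by positivity)
  have h4 : κ * (u * w ^ 2) - lam * q ≤ 2 * κ * l2 * (u * w) := by
    rcases le_or_gt l2 e2 with h | h
    · have h5 : κ * (u * w ^ 2) ≤ lam * q := by
        rcases hu.eq_or_lt with h0 | h0
        · rw [← h0]
          have := mul_nonneg hlam.le hq
          linarith
        · have h6 : n / 200 * w * u ≤ Zs := by
            refine le_trans ?_ (hZ h)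
            have : n * u * w ≤ n * u * (2 * e2) :=
              mul_le_mul_of_nonneg_left (by linarith) (by positivity)
            linarith
          have h7 : (n / 200 * w * u) ^ 2 ≤ Zs ^ 2 :=
            pow_le_pow_left₀ (by positivity) h6 2
          have h8 : n ^ 2 * (u * w ^ 2) * u ≤ 160000 * (N + 1) * q * u := by
            have := mul_nonneg hq hu
            linarith
          have h9 : n ^ 2 * (u * w ^ 2) ≤ 160000 * (N + 1) * q := le_of_mul_le_mul_right h8 h0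
          refine le_of_mul_le_mul_right ?_ (show 0 < 160000 * (N + 1) by positivity)
          have h10 := mul_le_mul_of_nonneg_left h9 hlam.le
          calc κ * (u * w ^ 2) * (160000 * (N + 1))
              = κ * (160000 * (N + 1)) * (u * w ^ 2) := by ring
            _ = lam * (n ^ 2 * (u * w ^ 2)) := by rw [hκ]; ring
            _ ≤ lam * (160000 * (N + 1) * q) := h10
            _ = lam * q * (160000 * (N + 1)) := by ring
      have : 0 ≤ 2 * κ * l2 * (u * w) := by positivity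
      linarith
    · have h5 : κ * (u * w) * w ≤ κ * (u * w) * (2 * l2) :=
        mul_le_mul_of_nonneg_left (by linarith) (by positivity)
      have := mul_nonneg hlam.le hq
      linarith
  linarith

/-- The inequality at a touching point, in terms of real numbers. -/
theorem T4_real {n C M lam σ ρ Z w e2 u v q gH gvv gvw gww guw Lu Lw Lv LP ph Ru Re a2 X : ℝ}
    (hn : 2 ≤ n) (hC : 0 < C) (hM : 0 ≤ M) (hlam : 0 < lam)
    (hl : lam * (10 * C + 300 * n * M) ≤ 2 / 5) (hσ0 : 0 < σ) (hσ1 : σ ≤ 1 / 2) (hρ : 1 ≤ ρ)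
    (hZ : 0 < Z) (hw0 : 0 < w) (hew : e2 ≤ w) (hu : 0 ≤ u) (hv : 0 ≤ v) (hq : 0 ≤ q)
    (hgH : 0 ≤ gH) (hgww : 0 ≤ gww) (hRe0 : 0 ≤ Re) (huw : u ≤ 9 / 8 * Z * n * w)
    (hsm : (1 + 5 / 4 * Z) * gH ≤ 76 / 100 * n * v) (hkato : gvv ≤ 4 * v * q)
    (hcs : gvw ^ 2 ≤ gvv * gww) (hge : n ^ 2 * gww ≤ 4 * e2 * gH) (hvC : v ≤ C * w ^ 2)
    (ha2 : a2 ≤ 3 * n * w) (hLu : Lu = -(2 * v) + 2 / n * gH + Ru)
    (hLw : Lw = -(2 / n ^ 2 * gH) + Re) (hLv : Lv ≤ -(2 * q) + 100 * M * (a2 * v))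
    (hRw : w * Ru - u * Re ≤ X) (hRe : Re ≤ 5 * n * w ^ 2)
    (hX : X + σ * u * (5 * n * w ^ 2) - lam * q ≤ (ρ - 1) * (u * w))
    (hph : ph = u * w + lam * v) (hph0 : 0 < ph)
    (hLP : w ^ 2 * LP = (2 - σ) * (w * ph * Lw) - (2 - σ) * (2 - σ - 1) * (ph * gww) +
      ρ * (w ^ 2 * ph))
    (hgu : w ^ 2 * guw = (2 - σ) * ph * gww - u * w * gww - lam * w * gvw)
    (ht : 0 ≤ Lu * w + u * Lw - 2 * guw + lam * Lv - LP) : False := by
  have hn0 : 0 < n := by linarith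
  obtain ⟨g, hg⟩ : ∃ g, gH = n ^ 2 * g := ⟨gH / n ^ 2, by field_simp⟩
  have hg0 : 0 ≤ g := by
    rw [hg] at hgH
    exact nonneg_of_mul_nonneg_right hgH (by positivity) |> fun h => h
  have hLu' : Lu = -(2 * v) + 2 * (n * g) + Ru := by
    rw [hLu, hg]
    field_simp
  have hLw' : Lw = -(2 * g) + Re := by
    rw [hLw, hg]
    field_simp
  have hsm' : (1 + 5 / 4 * Z) * (n * g) ≤ 76 / 100 * v := by
    refine le_of_mul_le_mul_left ?_ hn0
    rw [hg] at hsm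
    linarith
  have hge' : gww ≤ 4 * w * g := by
    refine le_of_mul_le_mul_left ?_ (show 0 < n ^ 2 by positivity)
    have h1 : 4 * e2 * gH ≤ 4 * w * gH := mul_le_mul_of_nonneg_right (by linarith) hgH
    rw [hg] at h1 hge
    linarith
  have hlv : 0 ≤ lam * v := by positivity
  have huw0 : 0 ≤ u * w := by positivity
  have hwv : 0 ≤ w * v := by positivity
  have b0 : ((2 - σ) * (2 - σ - 3) * ph + 2 * (u * w)) * gww ≤ 0 := by
    refine mul_nonpos_of_nonpos_of_nonneg ?_ hgww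
    have h1 : (2 - σ) * (2 - σ - 3) ≤ -2 := by nlinarith only [hσ0, hσ1]
    have h2 := mul_le_mul_of_nonneg_right h1 hph0.le
    linarith
  have bA : 2 * (n * g) * w + 2 * ((1 - σ) * u * g) ≤ 152 / 100 * (w * v) := by
    have h1 : 0 ≤ σ * u * g := by positivity
    have h2 := mul_le_mul_of_nonneg_right huw hg0
    have h3 := mul_le_mul_of_nonneg_left hsm' hw0.le
    have h4 : 0 ≤ Z * n * w * g := by positivity
    linarith only [h1, h2, h3, h4]
  have bB : σ * u * Re ≤ σ * u * (5 * n * w ^ 2) :=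
    mul_le_mul_of_nonneg_left hRe (by positivity)
  have hgv : g ≤ 38 / 100 * v := by
    have h1 : 0 ≤ Z * (n * g) := by positivity
    have h2 : 0 ≤ (n - 2) * g := mul_nonneg (by linarith) hg0
    linarith only [hsm', h1, h2]
  have bC1 : 2 * gvw ≤ q * w + 16 * (v * g) := by
    have h1 : gvv * gww ≤ (4 * v * q) * (4 * w * g) :=
      (mul_le_mul_of_nonneg_right hkato hgww).trans
        (mul_le_mul_of_nonneg_left hge' (by positivity))
    refine (le_abs_self _).trans (abs_le_of_sq_le_sq' ?_ (by positivity) |> abs_le.2)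
    linarith only [sq_nonneg (q * w - 16 * (v * g)), h1, hcs]
  have bC2 : v * g ≤ 38 / 100 * C * (w ^ 2 * v) := by
    have h1 := mul_le_mul_of_nonneg_left hgv hv
    have h2 := mul_le_mul_of_nonneg_left hvC hv
    linarith only [h1, h2]
  have bC3 : -((2 - σ) * (v * Lw)) ≤ 4 * (v * g) := by
    have h1 : 0 ≤ (2 - σ) * (v * Re) := mul_nonneg (by linarith) (by positivity)
    have h2 : 0 ≤ σ * (v * g) := by positivity
    rw [hLw']
    linarith only [h1, h2]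
  have bC4 : w * Lv ≤ -(2 * (q * w)) + 300 * n * M * (w ^ 2 * v) := by
    have h1 := mul_le_mul_of_nonneg_left hLv hw0.le
    have h2 := mul_le_mul_of_nonneg_right ha2 (show 0 ≤ 100 * M * (w * v) by positivity)
    linarith only [h1, h2]
  have hpos : 0 ≤ C * (w ^ 2 * v) := by positivity
  have bC : -((2 - σ) * (v * Lw)) + w * Lv + 2 * gvw ≤
      -(q * w) + (10 * C + 300 * n * M) * (w ^ 2 * v) := by
    linarith only [bC1, bC2, bC3, bC4, hpos]
  have bC' := mul_le_mul_of_nonneg_left bC hlam.le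
  have hl9 := mul_le_mul_of_nonneg_right hl (show 0 ≤ w ^ 2 * v by positivity)
  have key : w ^ 2 * (Lu * w + u * Lw - 2 * guw + lam * Lv - LP) =
      ((2 - σ) * (2 - σ - 3) * ph + 2 * (u * w)) * gww +
      w * (w * (-(2 * (w * v)) + (2 * (n * g) * w + 2 * ((1 - σ) * u * g)) + (w * Ru - u * Re) +
          σ * u * Re - ρ * ph) +
        lam * (-((2 - σ) * (v * Lw)) + w * Lv + 2 * gvw)) := by
    have e1 : w ^ 2 * (Lu * w + u * Lw - 2 * guw + lam * Lv - LP) =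
        w ^ 3 * Lu + w ^ 2 * u * Lw - 2 * (w ^ 2 * guw) + lam * w ^ 2 * Lv - w ^ 2 * LP := by
      ring
    rw [e1, hgu, hLP, hLu', hph, hLw']
    ring
  have h0 := mul_nonneg (sq_nonneg w) ht
  rw [key] at h0
  have hρ' : (ρ - 1) * (u * w) ≤ (ρ - 1) * ph :=
    mul_le_mul_of_nonneg_left (by linarith) (by linarith)
  have h1 : w * (-(2 * (w * v)) + (2 * (n * g) * w + 2 * ((1 - σ) * u * g)) + (w * Ru - u * Re) +
      σ * u * Re - ρ * ph) ≤ w * (-(48 / 100 * (w * v)) + lam * q - ph) :=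
    mul_le_mul_of_nonneg_left (by linarith only [bA, bB, hRw, hX, hρ']) hw0.le
  have h2 : w * (-(2 * (w * v)) + (2 * (n * g) * w + 2 * ((1 - σ) * u * g)) + (w * Ru - u * Re) +
          σ * u * Re - ρ * ph) +
        lam * (-((2 - σ) * (v * Lw)) + w * Lv + 2 * gvw) ≤ -(w * ph) := by
    have h3 : 0 ≤ w ^ 2 * v := by positivity
    linarith only [h1, bC', hl9, h3]
  have h4 := mul_le_mul_of_nonneg_left h2 hw0.le
  have h5 := mul_pos hw0 (mul_pos hw0 hph0)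
  linarith only [h0, b0, h4, h5]

variable {ι : Type} [Fintype ι] {R : Type} [CommRing R] [Algebra ℝ R] (S : QA ι R)

theorem T4_D_om (l : ℝ) (a : ι) : S.D a (S.arr.om l) = S.D a S.arr.e2 := by
  simp [Arr.om]

theorem T4_L_om (l : ℝ) : S.L (S.arr.om l) = S.L S.arr.e2 := by
  rw [Arr.om, S.L_add, S.L_alg, zero_add]

/-- With `w = om l`, `s = 2 - σ`, `N = card ι`. By `L_pow` and the first order condition
`L (u w + lam v - Φ) ≤ (w Ru - u Re) + σ u Re - 2 w v + (2 gH / n) (w + u / n) +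
4 lam v gH / (n ^ 2 w) + 2 lam ⟪D v, D w⟫ / w + lam L v - ρ Φ`
(the terms with `|D w| ^ 2` have the factors `(s - 1) (s - 2)` and `s (s - 3)`). Then `gH_small`,
`kato`, `grad_e2_le`, `Lv_le`, `a2_le` leave `-lam q + 2000 n ^ 2 u w √w + 5 n σ u w ^ 2 - ρ Φ` if
`lam (10 C + 300 n N ^ 7) ≤ 2 / 5`. If `l ^ 2 ≤ e2`: `q ≥ n ^ 2 w ^ 2 u / (160000 N)` (`Zs_ge`,
`Zs_sq_le`); else `w ≤ 2 l ^ 2`. Choose `lam`, then `σ`, then `ρ`. -/
theorem touch2 (l : ℝ) {C : ℝ} (hC : 0 < C) : ∃ lam σ ρ : ℝ, 0 < lam ∧ 0 < σ ∧ σ ≤ 1 / 2 ∧ 0 < ρ ∧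
    ∀ (ev : R →ₐ[ℝ] ℝ) (p : Par S.n), p.l = l → (S.pt ev).K p →
      ev S.arr.v ≤ C * ev (S.arr.om l) ^ 2 → ∀ Φ : R,
      (∀ a, S.arr.om l * S.D a Φ = (2 - σ) • (Φ * S.D a (S.arr.om l))) →
      S.arr.om l * S.dt Φ = (2 - σ) • (Φ * S.dt (S.arr.om l)) + ρ • (S.arr.om l * Φ) →
      0 < ev Φ → ev (S.arr.u * S.arr.om l + lam • S.arr.v) = ev Φ →
      ¬S.Touch ev (S.arr.u * S.arr.om l + lam • S.arr.v - Φ) := by
  have hn : (2 : ℝ) ≤ S.n := by exact_mod_cast S.hn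
  have hn0 : (0 : ℝ) < S.n := by linarith
  have hN : (0 : ℝ) ≤ Fintype.card ι := Nat.cast_nonneg _
  obtain ⟨lam, hlam, hl⟩ : ∃ lam : ℝ, 0 < lam ∧
      lam * (10 * C + 300 * S.n * (Fintype.card ι : ℝ) ^ 7) ≤ 2 / 5 := by
    have h : 0 < 10 * C + 300 * S.n * (Fintype.card ι : ℝ) ^ 7 := by positivity
    exact ⟨2 / 5 / _, by positivity, (div_mul_cancel₀ _ h.ne').le⟩
  obtain ⟨κ, hκ0, hκ⟩ : ∃ κ : ℝ, 0 < κ ∧
      κ * (160000 * ((Fintype.card ι : ℝ) + 1)) = lam * (S.n : ℝ) ^ 2 :=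
    ⟨_ / _, by positivity, div_mul_cancel₀ _ (by positivity)⟩
  obtain ⟨σ, hσ0, hσ1, hσ⟩ : ∃ σ : ℝ, 0 < σ ∧ σ ≤ 1 / 2 ∧ σ * (10 * S.n) ≤ κ :=
    ⟨min (1 / 2) (κ / (10 * S.n)), by positivity, min_le_left _ _,
      (le_div_iff₀ (by positivity)).1 (min_le_right _ _)⟩
  obtain ⟨A, hA0, hA⟩ : ∃ A : ℝ, 0 < A ∧ A * (2 * κ) = (2000 * (S.n : ℝ) ^ 2) ^ 2 :=
    ⟨_ / _, by positivity, div_mul_cancel₀ _ (by positivity)⟩
  have hρ : 0 ≤ A + 2 * κ * l ^ 2 := by positivity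
  refine ⟨lam, σ, A + 2 * κ * l ^ 2 + 1, hlam, hσ0, hσ1, by linarith, ?_⟩
  rintro ev p rfl k hv Φ hD hT hΦ he ht
  have G := S.good_pt ev
  have hw : ev (S.arr.om p.l) = p.l ^ 2 + ev S.arr.e2 := by simp [Arr.om]
  have he2 : 0 ≤ ev S.arr.e2 := by simpa only [pt, Arr.map_e2] using G.e2_nonneg
  have hu : 0 ≤ ev S.arr.u := by simpa only [pt, Arr.map_u] using G.u_nonneg
  have hv0 : 0 ≤ ev S.arr.v := by simpa only [pt, Arr.map_v] using (S.pt ev).v_nonneg
  have hgH : 0 ≤ ev S.arr.gH := by simpa only [pt, Arr.map_gH] using (S.pt ev).gH_nonneg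
  have hRe0 : 0 ≤ ev S.arr.Re := by simpa only [pt, Arr.map_Re] using G.Re_nonneg
  have hl2 : 0 < p.l ^ 2 := pow_pos p.hl 2
  have hw0 : 0 < ev (S.arr.om p.l) := by linarith
  have huw : ev S.arr.u ≤ 9 / 8 * p.Z * S.n * ev (S.arr.om p.l) := by
    have := Arr.K.u_le G k
    simp only [pt, Arr.map_u, Arr.map_e2] at this
    rw [hw]
    exact this
  have hRe : ev S.arr.Re ≤ 5 * S.n * ev (S.arr.om p.l) ^ 2 := by
    have := Arr.K.Re_le G k
    simp only [pt, Arr.map_Re, Arr.map_e2] at this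
    rw [hw]
    exact this
  have hRw : ev (S.arr.om p.l) * ev S.arr.Ru - ev S.arr.u * ev S.arr.Re ≤
      2000 * (S.n : ℝ) ^ 2 * ev S.arr.u * ev (S.arr.om p.l) * √(ev (S.arr.om p.l)) := by
    have := Arr.K.Rw_le G k
    simp only [pt, Arr.map_Re, Arr.map_Ru, Arr.map_u, Arr.map_e2] at this
    rw [hw]
    exact this
  have hZs : p.l ^ 2 ≤ ev S.arr.e2 → S.n / 100 * ev S.arr.e2 * ev S.arr.u ≤ ev S.arr.Zs := by
    intro h
    have := Arr.K.Zs_ge G k (by simpa only [pt, Arr.map_e2] using h)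
    simp only [pt, Arr.map_Zs, Arr.map_u, Arr.map_e2] at this
    exact this
  have hX := T4_react hn hN hlam hκ0 hκ hσ hA hl2 hw he2 hu (S.q_nonneg ev)
    (Real.sq_sqrt hw0.le) hZs (S.Zs_sq_le ev)
  have hP := congrArg ev (S.L_pow hD hT)
  simp only [map_mul, map_pow, map_sub, map_add, map_smul, smul_eq_mul] at hP
  have hLu := congrArg ev S.L_u
  have hLw := congrArg ev ((S.T4_L_om p.l).trans S.L_e2)
  simp only [map_mul, map_add, map_smul, smul_eq_mul, map_neg, map_ofNat] at hLu hLw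
  have h2 := ht.2
  rw [S.L_sub, S.L_add, S.L_mul, S.L_smul] at h2
  simp only [map_mul, map_sub, map_add, map_smul, smul_eq_mul, map_ofNat] at h2 he
  have h1 : ∀ a, ev (S.arr.om p.l) ^ 2 * (ev (S.D a S.arr.u) * ev (S.D a (S.arr.om p.l))) =
      (2 - σ) * ev Φ * (ev (S.D a (S.arr.om p.l)) * ev (S.D a (S.arr.om p.l))) -
        ev S.arr.u * ev (S.arr.om p.l) *
          (ev (S.D a (S.arr.om p.l)) * ev (S.D a (S.arr.om p.l))) -
        lam * ev (S.arr.om p.l) * (ev (S.D a S.arr.v) * ev (S.D a (S.arr.om p.l))) := by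
    intro a
    have e1 := ht.1 a
    have e2 := congrArg ev (hD a)
    simp only [map_sub, map_add, Derivation.leibniz, Derivation.map_smul, map_smul, smul_eq_mul,
      map_mul] at e1 e2
    linear_combination ev (S.arr.om p.l) * ev (S.D a (S.arr.om p.l)) * e1 +
      ev (S.D a (S.arr.om p.l)) * e2
  have hgu : ev (S.arr.om p.l) ^ 2 * ev (S.grad S.arr.u (S.arr.om p.l)) =
      (2 - σ) * ev Φ * ev (S.grad (S.arr.om p.l) (S.arr.om p.l)) -
        ev S.arr.u * ev (S.arr.om p.l) * ev (S.grad (S.arr.om p.l) (S.arr.om p.l)) -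
        lam * ev (S.arr.om p.l) * ev (S.grad S.arr.v (S.arr.om p.l)) := by
    simp only [grad, map_sum, map_mul, Finset.mul_sum, ← Finset.sum_sub_distrib]
    exact Finset.sum_congr rfl fun a _ => h1 a
  have hge : (S.n : ℝ) ^ 2 * ev (S.grad (S.arr.om p.l) (S.arr.om p.l)) ≤
      4 * ev S.arr.e2 * ev S.arr.gH := by
    have := S.grad_e2_le ev
    simpa only [grad, S.T4_D_om] using this
  exact T4_real hn hC (by positivity) hlam hl hσ0 hσ1 (by linarith) p.hZ hw0 (by linarith) hu hv0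
    (S.q_nonneg ev) hgH (S.grad_nonneg ev _) hRe0 huw (S.gH_small ev k) (S.kato ev)
    (S.grad_sq_le ev S.arr.v (S.arr.om p.l)) hge hv (S.a2_le ev k) hLu hLw (S.Lv_le ev) hRw hRe
    (by rw [add_sub_cancel_right]; exact hX) he.symm hΦ hP hgu h2

end Pool.Agent.Lib.MP_de485e_gt.Hi.QA
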