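import Pool.Agent.Lib.MP_de485e_gt.Hi.M5a
import Pool.Agent.Lib.MP_de485e_gt.Hi.T4

/-! The improved pinching, the growth of `W` and the convex hull property. -/

open Set Filter Topology
open scoped RealInnerProductSpace InnerProduct Manifold ContDiff

namespace Pool.Agent.Lib.MP_de485e_gt.Hi

open Conv

variable {P Q : Type} [NormedAddCommGroup P] [InnerProductSpace ℝ P] [CompleteSpace P]
  [FiniteDimensional ℝ P] [NormedAddCommGroup Q] [InnerProductSpace ℝ Q] [CompleteSpace Q]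
  [FiniteDimensional ℝ Q] {M : Type} [TopologicalSpace M] [ChartedSpace P M]
  [IsManifold 𝓘(ℝ, P) ∞ M] {F : ℝ → M → Q} {n : ℕ} {ι : Type} [Fintype ι] [DecidableEq ι]
  [CompactSpace M]

/-- A function continuous on `J × M` is bounded at every time of `J`. -/
theorem M5b_bdd {N : Type} [TopologicalSpace N] [CompactSpace N] {G : ℝ × N → ℝ} {J : Set ℝ}
    (hc : ContinuousOn G (J ×ˢ univ)) {t : ℝ} (ht : t ∈ J) :
    ∃ B : ℝ, 0 ≤ B ∧ ∀ x, G (t, x) ≤ B := by
  have h1 : ContinuousOn (fun x : N => G (t, x)) univ :=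
    hc.comp (continuous_const.prodMk continuous_id).continuousOn fun x _ => ⟨ht, mem_univ _⟩
  obtain ⟨B, hB⟩ := isCompact_univ.bddAbove_image h1
  exact ⟨max B 0, le_max_right _ _, fun x => (hB ⟨x, mem_univ _, rfl⟩).trans (le_max_left _ _)⟩

/-- The derivation rules of the comparison function `K • (E * Ψ)`. -/
theorem M5b_der {R : Type} [CommRing R] [Algebra ℝ R] (d : Derivation ℝ R R) {W E Ψ : R}
    {K s δ : ℝ} (hE : d E = δ • E) (hΨ : W * d Ψ = s • (Ψ * d W)) :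
    W * d (K • (E * Ψ)) = s • (K • (E * Ψ) * d W) + δ • (W * K • (E * Ψ)) := by
  rw [Derivation.map_smul, Derivation.leibniz, hE]
  simp only [smul_eq_mul, Algebra.smul_def] at hΨ ⊢
  linear_combination algebraMap ℝ R K * E * hΨ

theorem M5b_pow {w W s : ℝ} (h1 : 1 ≤ w) (h2 : w ≤ 100 * W) (hs : 0 ≤ s) (hs2 : s ≤ 2) :
    w ^ s ≤ 10000 * W ^ s := by
  have hW : 0 ≤ W := by linarith
  have h3 : w ^ s ≤ (100 * W) ^ s := Real.rpow_le_rpow (by linarith) h2 hs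
  have h4 : (100 : ℝ) ^ s ≤ 100 ^ (2 : ℝ) :=
    Real.rpow_le_rpow_of_exponent_le (by norm_num) hs2
  rw [Real.rpow_two] at h4
  rw [Real.mul_rpow (by norm_num) hW] at h3
  have h5 := mul_le_mul_of_nonneg_right h4 (Real.rpow_nonneg hW s)
  linarith

/-- The final step of the improved pinching. -/
theorem M5b_fin {u v w W K lam σ : ℝ} (h1 : 1 ≤ w) (h2 : w ≤ 100 * W) (hu : 0 ≤ u) (hv : 0 ≤ v)
    (hK : 0 < K) (hl : 0 < lam) (hσ : σ ≤ 1) (hσ0 : 0 ≤ σ)
    (h : u * w + lam * v ≤ K * w ^ (2 - σ)) :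
    u ≤ 10000 * K * (1 + lam⁻¹) * W ^ (-σ) * W ∧
      v ≤ 10000 * K * (1 + lam⁻¹) * W ^ (-σ) * W ^ 2 := by
  have hw : 0 < w := by linarith
  have hW : 0 < W := by linarith
  have hi : 0 < lam⁻¹ := inv_pos.2 hl
  have e1 : w ^ (2 - σ) = w ^ (1 - σ) * w := by
    rw [show 2 - σ = (1 - σ) + 1 by ring, Real.rpow_add hw, Real.rpow_one]
  have e2 : W ^ (1 - σ) = W ^ (-σ) * W := by
    rw [sub_eq_neg_add, Real.rpow_add hW, Real.rpow_one]
  have e3 : W ^ (2 - σ) = W ^ (-σ) * W ^ 2 := by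
    rw [sub_eq_neg_add, Real.rpow_add hW, Real.rpow_two]
  have p1 := M5b_pow h1 h2 (s := 1 - σ) (by linarith) (by linarith)
  have p2 := M5b_pow h1 h2 (s := 2 - σ) (by linarith) (by linarith)
  rw [e2] at p1
  rw [e3] at p2
  have hp : 0 < W ^ (-σ) := Real.rpow_pos_of_pos hW _
  constructor
  · have h3 : u ≤ K * w ^ (1 - σ) := by
      refine le_of_mul_le_mul_right ?_ hw
      have := mul_nonneg hl.le hv
      rw [e1] at h
      linarith
    have h4 := mul_le_mul_of_nonneg_left p1 hK.le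
    have h5 : 0 ≤ 10000 * K * lam⁻¹ * W ^ (-σ) * W := by positivity
    linarith
  · have h3 : lam * v ≤ K * w ^ (2 - σ) := by
      have := mul_nonneg hu hw.le
      linarith
    have h4 := mul_le_mul_of_nonneg_left (h3.trans (mul_le_mul_of_nonneg_left p2 hK.le)) hi.le
    rw [← mul_assoc, inv_mul_cancel₀ hl.ne', one_mul] at h4
    have h5 : 0 ≤ 10000 * K * W ^ (-σ) * W ^ 2 := by positivity
    linarith

namespace Flow

variable {J : Set ℝ} (h : Flow P n F J) (b : OrthonormalBasis ι ℝ Q) {p : Par n} {t₁ : ℝ}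

omit [CompactSpace M] in
theorem M5b_pt {t : ℝ} (ht : t ∈ J) (x : M) :
    0 < (h.data b).W t x ∧ 0 ≤ (h.data b).u t x ∧ 0 ≤ (h.data b).v t x := by
  let z : (J ×ˢ (univ : Set M) : Set (ℝ × M)) := ⟨(t, x), ht, mem_univ x⟩
  have hg := (h.S b).good_pt (ev z)
  have h1 : (n : ℝ) ^ 2 ≤ ((h.S b).arr.map (ev z)).W := hg.W_ge
  have h2 : 0 ≤ ((h.S b).arr.map (ev z)).u := hg.u_nonneg
  have h3 : 0 ≤ ((h.S b).arr.map (ev z)).v := Arr.v_nonneg _
  rw [Arr.map_W, ev_eq] at h1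
  rw [Arr.map_u, ev_eq] at h2
  rw [Arr.map_v, ev_eq] at h3
  have hn : (2 : ℝ) ≤ n := by exact_mod_cast h.dim.hn
  exact ⟨lt_of_lt_of_le (by positivity) h1, h2, h3⟩

omit [CompactSpace M] in
theorem M5b_touch (g : Rg P (J ×ˢ (univ : Set M))) {s a : ℝ} (hs : s ∈ J) (y : M) (ha : a < s)
    {K : ℝ} (hm : ∀ r ∈ Icc a s, ∀ w, fn g (r, w) ≤ K) (he : fn g (s, y) = K) :
    (h.S b).Touch (ev ⟨(s, y), hs, mem_univ y⟩) g :=
  touch_max h.dom h.dim h.flw b g (G := fn g) (fun z => ev_eq z g) ⟨(s, y), hs, mem_univ y⟩ ha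
    fun r hr w => (hm r hr w).trans he.ge

/-- `maxP` for `(u om + lam v) / (exp (ρ t) om ^ (2 - σ))`, `touch2`, `exists_rpow`; then
`exp (ρ t) ≤ exp (ρ T)` and `om_W`. -/
theorem estA (k : h.Pin b p t₁) (h1 : t₁ ∈ J) {J' : Set ℝ} {T : ℝ} (hJ : J' ⊆ J ∩ Ico t₁ T) :
    EstA J' (h.data b) := by
  obtain ⟨C, hC, hv⟩ := h.est1 b k h1
  obtain ⟨lam, σ, ρ, hl, hσ, hσ2, hρ, hT⟩ := (h.S b).touch2 p.l hC
  obtain ⟨w, hw⟩ : ∃ w, w = (h.S b).arr.om p.l := ⟨_, rfl⟩
  have hom := fun t (ht : t ∈ J) x => h.om_W b (p := p) ht x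
  rw [← hw] at hv hT hom
  have hw1 : ∀ z : (J ×ˢ (univ : Set M) : Set (ℝ × M)), 1 ≤ ev z w := fun z => by
    rw [ev_eq]
    exact (hom z.1.1 z.2.1 z.1.2).1
  obtain ⟨E, hE, hED, hET⟩ := h.dom.exists_time (f := fun r => Real.exp (ρ * (r - t₁)))
    (f' := fun r => Real.exp (ρ * (r - t₁)) * ρ) (by fun_prop) fun r => by
      simpa using (((hasDerivAt_id r).sub_const t₁).const_mul ρ).exp
  obtain ⟨Ψ, hΨ, hΨD, hΨT⟩ := h.dom.exists_rpow w (fun z => one_pos.trans_le (hw1 z)) (2 - σ)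
  obtain ⟨B, hB0, hB⟩ := M5b_bdd (h.cont ((h.S b).arr.u * w + lam • (h.S b).arr.v)) h1
  have hK0 : 0 < B + 1 := by linarith
  have eΦ : ∀ z : (J ×ˢ (univ : Set M) : Set (ℝ × M)), ev z ((B + 1) • (E * Ψ)) =
      (B + 1) * (Real.exp (ρ * (z.1.1 - t₁)) * ev z w ^ (2 - σ)) := fun z => by
    rw [map_smul, map_mul, hE, hΨ, smul_eq_mul]
  have hdt : h.dom.dt E = ρ • E := rg_ext fun z => by
    rw [hET, map_smul, hE, smul_eq_mul, mul_comm]
  have main : ∀ t ∈ J, t₁ ≤ t → ∀ x,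
      fn ((h.S b).arr.u * w + lam • (h.S b).arr.v - (B + 1) • (E * Ψ)) (t, x) < 0 := by
    intro t ht htt x
    have hsub : Icc t₁ t ⊆ J := h.ord.out h1 ht
    refine maxP (a := t₁) (b := t) (K := 0) ((h.cont _).mono (prod_mono_left hsub)) ?_ ?_ t
      ⟨htt, le_rfl⟩ x
    · intro y
      have hy := hB y
      have e := ev_eq (P := P) (⟨(t₁, y), h1, mem_univ y⟩ : (J ×ˢ (univ : Set M) : Set (ℝ × M)))
      simp only at e
      rw [← e] at hy ⊢
      rw [map_sub, eΦ]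
      simp only [sub_self, mul_zero, Real.exp_zero, one_mul]
      have h2 := Real.one_le_rpow (hw1 ⟨(t₁, y), h1, mem_univ y⟩) (show 0 ≤ 2 - σ by linarith)
      have h3 := mul_le_mul_of_nonneg_left h2 hK0.le
      linarith
    · intro s hs y hle he
      have hsJ : s ∈ J := hsub ⟨hs.1.le, hs.2⟩
      let z : (J ×ˢ (univ : Set M) : Set (ℝ × M)) := ⟨(s, y), hsJ, mem_univ y⟩
      refine hT (ev z) (p.aft (s - t₁)) rfl ?_ ?_ _ (fun a => ?_) (M5b_der h.dom.dt hdt hΨT) ?_ ?_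
        (h.M5b_touch b _ hsJ y hs.1 hle he)
      · rw [← h.X_eq b z]
        exact k s hsJ hs.1.le y
      · rw [ev_eq, ev_eq]
        refine (hv s hsJ hs.1.le y).trans ?_
        have hZ : (p.aft (s - t₁)).Z ≤ 1 := by
          linarith [(p.aft (s - t₁)).hZm, (p.aft (s - t₁)).hm]
        exact mul_le_mul_of_nonneg_right (mul_le_of_le_one_right hC.le hZ) (sq_nonneg _)
      · have h0 : h.dom.D (b a) E = (0 : ℝ) • E := by rw [hED, zero_smul]
        have h2 := M5b_der (K := B + 1) (h.dom.D (b a)) h0 (hΨD (b a))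
        rw [zero_smul, add_zero] at h2
        exact h2
      · rw [eΦ]
        exact mul_pos hK0 (mul_pos (Real.exp_pos _)
          (Real.rpow_pos_of_pos (one_pos.trans_le (hw1 z)) _))
      · have e1 := (ev_eq z _).trans he
        rw [map_sub] at e1
        linarith
  have hK1 : 0 < (B + 1) * Real.exp (ρ * (T - t₁)) := mul_pos hK0 (Real.exp_pos _)
  refine ⟨10000 * ((B + 1) * Real.exp (ρ * (T - t₁))) * (1 + lam⁻¹), σ, by positivity, hσ,
    by linarith, fun t ht x => ?_⟩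
  obtain ⟨htJ, ht1, ht2⟩ := hJ ht
  let z : (J ×ˢ (univ : Set M) : Set (ℝ × M)) := ⟨(t, x), htJ, mem_univ x⟩
  obtain ⟨hW, hu0, hv0⟩ := h.M5b_pt b htJ x
  obtain ⟨o1, -, o3⟩ := hom t htJ x
  have hn : (2 : ℝ) ≤ n := by exact_mod_cast h.dim.hn
  refine M5b_fin o1 (by nlinarith) hu0 hv0 hK1 hl (by linarith) hσ.le ?_
  have h4 := (ev_eq z _).trans_lt (main t htJ ht1 x)
  rw [map_sub, eΦ, map_add, map_mul, map_smul, smul_eq_mul, ev_eq, ev_eq, ev_eq] at h4
  have h5 : Real.exp (ρ * (t - t₁)) ≤ Real.exp (ρ * (T - t₁)) :=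
    Real.exp_le_exp.2 (mul_le_mul_of_nonneg_left (by linarith) hρ.le)
  have h6 := mul_le_mul_of_nonneg_left (mul_le_mul_of_nonneg_right h5
    (Real.rpow_nonneg (zero_le_one.trans o1) (2 - σ))) hK0.le
  have h7 : (h.data b).u t x * fn w (t, x) + lam * (h.data b).v t x -
    (B + 1) * (Real.exp (ρ * (t - t₁)) * fn w (t, x) ^ (2 - σ)) < 0 := h4
  linarith

theorem est3 {J' : Set ℝ} (hJ : J' ⊆ J) (ho : J'.OrdConnected) : Est3 n J' (h.data b) := by
  intro t₀ ht₀ ε Λ W₀ β hε hu h0 hΛ hβ t ht htt x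
  have hW₀ : 0 < W₀ := (h.M5b_pt b (hJ ht₀) x).1.trans (h0 x)
  have hn : (0 : ℝ) ≤ (n : ℝ)⁻¹ := by positivity
  have hβ0 : 0 < β := by linarith
  have hsub : Icc t₀ t ⊆ J' := ho.out ht₀ ht
  obtain ⟨ψ, hψ, hD, hT⟩ := h.dom.exists_time (f := fun r => W₀⁻¹ - β * (r - t₀))
    (f' := fun _ => -β) (by fun_prop) (fun r => by
      simpa using (((hasDerivAt_id r).sub_const t₀).const_mul β).const_sub W₀⁻¹)
  have hev : ∀ s ∈ J, ∀ y, fn (ψ * (h.S b).arr.W) (s, y) =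
      (W₀⁻¹ - β * (s - t₀)) * (h.data b).W s y := fun s hs y => by
    have e := ev_eq (P := P) (⟨(s, y), hs, mem_univ y⟩ : (J ×ˢ (univ : Set M) : Set (ℝ × M)))
    simp only at e
    rw [← e, map_mul, hψ, e]
    rfl
  rw [← hev t (hJ ht) x]
  refine maxP (a := t₀) (b := t) (K := 1) ((h.cont _).mono (prod_mono_left (hsub.trans hJ))) ?_ ?_
    t ⟨htt, le_rfl⟩ x
  · intro y
    rw [hev t₀ (hJ ht₀) y]
    simp only [sub_self, mul_zero, sub_zero]
    rw [inv_mul_lt_iff₀ hW₀, mul_one]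
    exact h0 y
  · intro s hs y hm he
    have hsJ' : s ∈ J' := hsub ⟨hs.1.le, hs.2⟩
    have hsJ : s ∈ J := hJ hsJ'
    have he' := (hev s hsJ y).symm.trans he
    have hW := (h.M5b_pt b hsJ y).1
    have hge : W₀ ≤ (h.data b).W s y := by
      have h1 : 0 ≤ β * (s - t₀) * (h.data b).W s y :=
        mul_nonneg (mul_nonneg hβ0.le (by linarith [hs.1])) hW.le
      have h2 : 1 ≤ W₀⁻¹ * (h.data b).W s y := by nlinarith
      rwa [le_inv_mul_iff₀ hW₀, mul_one] at h2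
    have hfin : β ≤ 2 * (ε + (n : ℝ)⁻¹) :=
      (h.S b).touch3 (ev ⟨(s, y), hsJ, mem_univ y⟩) (ψ := ψ) (b := β) (ε := ε)
        (fun a => hD (b a)) (rg_ext fun z => by
          rw [AlgHom.commutes]
          exact hT z) ((ev_eq _ _).trans he) (by
          rw [ev_eq, ev_eq]
          exact hu s hsJ' hs.1.le y (hΛ.trans hge)) (h.M5b_touch b _ hsJ y hs.1 hm he)
    linarith

include h b in
theorem est4 {J' : Set ℝ} (hJ : J' ⊆ J) : Est4 n F J' := by
  intro t ht s hs hts c μ hμ x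
  have hsub : Icc t s ⊆ J := h.ord.out (hJ ht) (hJ hs)
  obtain ⟨E, hE, hD, hT⟩ := h.dom.exists_time (f := fun r => Real.exp (-(n * (r - t))))
    (f' := fun r => -(n * Real.exp (-(n * (r - t))))) (by fun_prop) (fun r => by
      have h1 : HasDerivAt (fun r : ℝ => -((n : ℝ) * (r - t))) (-(n : ℝ)) r := by
        simpa using (((hasDerivAt_id r).sub_const t).const_mul (n : ℝ)).fun_neg
      convert h1.exp using 1
      ring)
  obtain ⟨τ, hτ, hD', hT'⟩ := h.dom.exists_time (f := fun r => r - t)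
    (f' := fun _ => 1) (by fun_prop) (fun r => (hasDerivAt_id r).sub_const t)
  have main : ∀ ε : ℝ, 0 < ε →
      Real.exp (-(n * (s - t))) * ⟪c, F s x⟫ - ε * (s - t) < μ + ε := by
    intro ε hε
    have hev : ∀ r ∈ J, ∀ y, fn (E * ∑ a, ⟪c, b a⟫ • (h.S b).F a - ε • τ) (r, y) =
        Real.exp (-(n * (r - t))) * ⟪c, F r y⟫ - ε * (r - t) := fun r hr y => by
      have e := ev_eq (P := P) (⟨(r, y), hr, mem_univ y⟩ : (J ×ˢ (univ : Set M) : Set (ℝ × M)))
      simp only at e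
      have eF : ∀ a, ev (⟨(r, y), hr, mem_univ y⟩ : (J ×ˢ (univ : Set M) : Set (ℝ × M)))
        ((h.S b).F a) = ⟪b a, F r y⟫ := fun a => rfl
      rw [← e, map_sub, map_mul, map_smul, map_sum, hE, hτ, smul_eq_mul]
      simp only [map_smul, smul_eq_mul, eF]
      rw [b.sum_inner_mul_inner]
    rw [← hev s (hJ hs) x]
    refine maxP (a := t) (b := s) (K := μ + ε) ((h.cont _).mono (prod_mono_left hsub)) ?_ ?_ s
      ⟨hts, le_rfl⟩ x
    · intro y
      rw [hev t (hJ ht) y]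
      simp only [sub_self, mul_zero, neg_zero, Real.exp_zero, one_mul, sub_zero]
      linarith [hμ y]
    · intro r hr y hm he
      have hrJ : r ∈ J := hsub ⟨hr.1.le, hr.2⟩
      exact (h.S b).touch4 (ev ⟨(r, y), hrJ, mem_univ y⟩) (E := E) (τ := τ) (fun a => hD (b a))
        (rg_ext fun z => by
          rw [map_neg, map_mul, map_natCast, hE]
          exact hT z) (fun a => hD' (b a))
        (rg_ext fun z => by
          rw [map_one]
          exact hT' z) (fun a => ⟪c, b a⟫) hε (h.M5b_touch b _ hrJ y hr.1 hm he)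
  refine le_of_forall_pos_le_add fun δ hδ => ?_
  have hp : 0 < 1 + (s - t) := by linarith
  have h1 := main (δ / (1 + (s - t))) (div_pos hδ hp)
  have h2 : δ / (1 + (s - t)) * (1 + (s - t)) = δ := div_mul_cancel₀ δ hp.ne'
  nlinarith

end Flow

end Pool.Agent.Lib.MP_de485e_gt.Hi
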