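import Pool.Agent.Lib.MP_de485e_gt.Hi.M6a

/-! Spatial derivatives of the data; the facts at a fixed time. -/

open Set Filter Topology
open scoped RealInnerProductSpace InnerProduct Manifold ContDiff

namespace Pool.Agent.Lib.MP_de485e_gt.Hi

open Conv

variable {P Q : Type} [NormedAddCommGroup P] [InnerProductSpace ℝ P] [CompleteSpace P]
  [FiniteDimensional ℝ P] [NormedAddCommGroup Q] [InnerProductSpace ℝ Q] [CompleteSpace Q]
  [FiniteDimensional ℝ Q] {M : Type} [TopologicalSpace M] [ChartedSpace P M]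
  [IsManifold 𝓘(ℝ, P) ∞ M] {F : ℝ → M → Q} {n : ℕ} {ι : Type} [Fintype ι] [DecidableEq ι]

omit [CompleteSpace Q] [FiniteDimensional ℝ Q] [DecidableEq ι] in
private theorem M6b_norm_sum (b : OrthonormalBasis ι ℝ Q) (x : ι → ℝ) :
    ‖∑ a, x a • b a‖ ^ 2 = ∑ a, x a ^ 2 := by
  rw [← b.sum_sq_inner_right]
  exact Finset.sum_congr rfl fun a _ => by
    rw [b.orthonormal.inner_right_fintype]

private theorem M6b_slice {V : Type} [TopologicalSpace V] {J : Set ℝ} {g : ℝ × M → V} {t : ℝ}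
    (ht : t ∈ J) (hg : ContinuousOn g (J ×ˢ univ)) : Continuous fun x => g (t, x) :=
  hg.comp_continuous (by fun_prop) fun x => mk_mem_prod ht (mem_univ x)

namespace Flow

variable {J : Set ℝ} (h : Flow P n F J) (b : OrthonormalBasis ι ℝ Q)

private theorem M6b_pos (z : (J ×ˢ (univ : Set M) : Set (ℝ × M))) :
    0 < ev z (h.S b).arr.W := by
  have k := QA.Db_W_pos ((h.S b).good_pt (ev z))
  rwa [QA.pt, Arr.map_W] at k

private theorem M6b_Wi {Wi : Rg P (J ×ˢ (univ : Set M))} (hW : Wi * (h.S b).arr.W = 1) {t : ℝ}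
    (ht : t ∈ J) (x : M) : (fn (h.S b).arr.W (t, x))⁻¹ = fn Wi (t, x) := by
  have e1 := ev_eq ⟨(t, x), mk_mem_prod ht (mem_univ x)⟩ Wi
  have e2 := ev_eq ⟨(t, x), mk_mem_prod ht (mem_univ x)⟩ (h.S b).arr.W
  rw [← e1, ← e2]
  exact (eq_inv_of_mul_eq_one_left (by rw [← map_mul, hW, map_one])).symm

private theorem M6b_E {Wi : Rg P (J ×ˢ (univ : Set M))} (hW : Wi * (h.S b).arr.W = 1) {t : ℝ}
    (ht : t ∈ J) (x : M) :
    (h.data b).E t x = opOf b fun a c => fn ((h.S b).arr.Ep Wi a c) (t, x) := by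
  refine congrArg (opOf b) (funext fun a => funext fun c => ?_)
  have e := h.X_eq b ⟨(t, x), mk_mem_prod ht (mem_univ x)⟩
  have k := fun g => ev_eq (P := P) ⟨(t, x), mk_mem_prod ht (mem_univ x)⟩ g
  simp only at e k
  rw [e, h.M6b_Wi b hW ht, ← k, ← k, QA.pt]
  simp only [Arr.Ep, Arr.map_HH, map_add, map_mul]
  rfl

private theorem M6b_m {Wi : Rg P (J ×ˢ (univ : Set M))} (hW : Wi * (h.S b).arr.W = 1) {t : ℝ}
    (ht : t ∈ J) (x : M) :
    (h.data b).m t x = ∑ a, fn ((h.S b).arr.cen Wi a) (t, x) • b a := by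
  refine Finset.sum_congr rfl fun a _ => congrArg (· • b a) ?_
  have e := h.X_eq b ⟨(t, x), mk_mem_prod ht (mem_univ x)⟩
  have k := fun g => ev_eq (P := P) ⟨(t, x), mk_mem_prod ht (mem_univ x)⟩ g
  simp only at e k
  rw [e, h.M6b_Wi b hW ht, ← k, ← k, QA.pt]
  simp only [Arr.cen, Arr.map_HH, map_add, map_mul, map_natCast]
  rfl

/-- `exists_inv` for `W`, `hasStrictFDerivAt_fn`, `dE_le`, `dm_le`, `dWi_le`. -/
theorem dx {t : ℝ} (ht : t ∈ J) (x : M) (η : ℝ) (hη : 0 ≤ η)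
    (hu : (h.data b).u t x ≤ η ^ 2 * (h.data b).W t x)
    (hv : (h.data b).v t x ≤ η ^ 2 * (h.data b).W t x ^ 2) : DxData n P F (h.data b) t x η := by
  have hn : (2 : ℝ) ≤ n := by exact_mod_cast h.dim.hn
  obtain ⟨Wi, hW⟩ := Dom.exists_inv (h.S b).arr.W (h.M6b_pos b)
  have hz : (t, x) ∈ J ×ˢ (univ : Set M) := mk_mem_prod ht (mem_univ x)
  choose d hd hd' using fun g : Rg P (J ×ˢ (univ : Set M)) =>
    h.dom.hasStrictFDerivAt_fn b g ⟨(t, x), hz⟩
  have eW : ev ⟨(t, x), hz⟩ (h.S b).arr.W = (h.data b).W t x := ev_eq _ _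
  have eu : ev ⟨(t, x), hz⟩ (h.S b).arr.u = (h.data b).u t x := ev_eq _ _
  have ev' : ev ⟨(t, x), hz⟩ (h.S b).arr.v = (h.data b).v t x := ev_eq _ _
  have hw : 0 < (h.data b).W t x := eW ▸ h.M6b_pos b ⟨(t, x), hz⟩
  have en : (((h.S b).n : ℕ) : ℝ) = n := rfl
  rw [← eW, ← eu] at hu
  rw [← eW, ← ev'] at hv
  refine ⟨∑ a, ∑ c, (d ((h.S b).arr.Ep Wi a c)).smulRight ((innerSL ℝ (b c)).smulRight (b a)),
    ∑ a, (d ((h.S b).arr.cen Wi a)).smulRight (b a), d Wi, ?_, ?_, ?_, fun ξ => ?_⟩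
  · refine (HasStrictFDerivAt.fun_sum fun a _ => HasStrictFDerivAt.fun_sum fun c _ =>
      (hd _).smul_const _).congr_of_eventuallyEq (Eventually.of_forall fun y => ?_)
    simp only [h.M6b_E b hW ht, opOf]
  · simp only [h.M6b_m b hW ht]
    exact HasStrictFDerivAt.fun_sum fun a _ => (hd _).smul_const _
  · refine (hd _).congr_of_eventuallyEq (Eventually.of_forall fun y => ?_)
    exact (h.M6b_Wi b hW ht _).symm
  · have hs : ∑ a, ⟪b a, dF P (F t) x ξ⟫ ^ 2 = ‖dF P (F t) x ξ‖ ^ 2 := b.sum_sq_inner_right _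
    refine ⟨?_, ?_, ?_⟩
    · have e : (∑ a, ∑ c, (d ((h.S b).arr.Ep Wi a c)).smulRight
          ((innerSL ℝ (b c)).smulRight (b a))) ξ =
          opOf b fun a c => d ((h.S b).arr.Ep Wi a c) ξ := by
        simp only [opOf, sum_apply, ContinuousLinearMap.smulRight_apply]
      rw [e]
      refine (norm_opOf_le b _).trans (Real.sqrt_le_iff.2 ⟨by positivity, ?_⟩)
      have := (h.S b).dE_le (ev ⟨(t, x), hz⟩) hW hη hu hv fun a => ⟪b a, dF P (F t) x ξ⟫
      rw [hs, en, eW] at this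
      rw [mul_pow _ ‖_‖, mul_pow _ (√_), Real.sq_sqrt hw.le]
      simp only [hd']
      exact this
    · refine (le_abs_self _).trans (abs_le_of_sq_le_sq ?_ (by positivity))
      simp only [sum_apply, ContinuousLinearMap.smulRight_apply]
      rw [M6b_norm_sum]
      have := (h.S b).dm_le (ev ⟨(t, x), hz⟩) hW hη hu hv fun a => ⟪b a, dF P (F t) x ξ⟫
      rw [hs, en] at this
      rw [mul_pow _ ‖_‖]
      simp only [hd']
      exact this
    · refine abs_le_of_sq_le_sq ?_ (by positivity)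
      have := (h.S b).dWi_le (ev ⟨(t, x), hz⟩) hW hv fun a => ⟪b a, dF P (F t) x ξ⟫
      have eWi : ev ⟨(t, x), hz⟩ Wi = ((h.data b).W t x)⁻¹ :=
        (ev_eq _ _).trans (h.M6b_Wi b hW ht x).symm
      rw [hs, en, eWi] at this
      rw [hd']
      refine le_trans this ?_
      rw [mul_pow _ ‖_‖, div_pow, Real.sq_sqrt hw.le, div_eq_mul_inv]
      have hi : 0 ≤ ((h.data b).W t x)⁻¹ := inv_nonneg.2 hw.le
      have : 4 * (n : ℝ) * η ^ 2 ≤ (2 * n * η) ^ 2 := by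
        nlinarith [mul_nonneg (mul_nonneg (by linarith : (0 : ℝ) ≤ n)
          (by linarith : (0 : ℝ) ≤ n - 1)) (sq_nonneg η)]
      gcongr

theorem geoLoc {J' : Set ℝ} (hJ : J' ⊆ J)
    (hu : ∀ t ∈ J', ∀ x, (h.data b).u t x ≤ 113 * (h.data b).W t x) :
    GeoLoc n P F J' (h.data b) where
  hn := h.dim.hn
  hP := h.dim.hP
  sphere t ht x := h.dom.sphere (t, x) (mk_mem_prod (hJ ht) (mem_univ x))
  imm t ht x := h.dom.imm (t, x) (mk_mem_prod (hJ ht) (mem_univ x))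
  strict t ht x := h.dom.strict (z := (t, x)) (mk_mem_prod (hJ ht) (mem_univ x))
  contF t ht := M6b_slice (g := fun z : ℝ × M => F z.1 z.2) (hJ ht)
    (h.dom.smooth.continuousOn h.dom.isOpen)
  contW t ht := M6b_slice (hJ ht) (h.cont _)
  contE t ht := by
    obtain ⟨Wi, hW⟩ := Dom.exists_inv (h.S b).arr.W (h.M6b_pos b)
    rw [funext (h.M6b_E b hW (hJ ht))]
    exact continuous_finsetSum _ fun a _ => continuous_finsetSum _ fun c _ =>
      (M6b_slice (hJ ht) (h.cont _)).smul continuous_const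
  contm t ht := by
    obtain ⟨Wi, hW⟩ := Dom.exists_inv (h.S b).arr.W (h.M6b_pos b)
    rw [funext (h.M6b_m b hW (hJ ht))]
    exact continuous_finsetSum _ fun a _ => (M6b_slice (hJ ht) (h.cont _)).smul continuous_const
  u_le t ht x := by
    refine ⟨?_, hu t ht x⟩
    have k := ((h.S b).good_pt (ev ⟨(t, x), mk_mem_prod (hJ ht) (mem_univ x)⟩)).u_nonneg
    rwa [QA.pt, Arr.map_u, ev_eq] at k
  v_nonneg t ht x := by
    have k := ((h.S b).pt (ev ⟨(t, x), mk_mem_prod (hJ ht) (mem_univ x)⟩)).v_nonneg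
    rwa [QA.pt, Arr.map_v, ev_eq] at k
  pt t ht x := h.pt b (hJ ht) x
  dx t ht x η hη hu hv := h.dx b (hJ ht) x η hη hu hv

end Flow

end Pool.Agent.Lib.MP_de485e_gt.Hi
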