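import Pool.Agent.Lib.MP_de485e_gt.Hi.M3
import Pool.Agent.Lib.MP_de485e_gt.Hi.M4
import Pool.Agent.Lib.MP_de485e_gt.Hi.M5b
import Pool.Agent.Lib.MP_de485e_gt.Hi.M6b
import Pool.Agent.Lib.MP_de485e_gt.Hi.CaseA3
import Pool.Agent.Lib.MP_de485e_gt.Hi.CaseB

/-! From a smooth flow with small `tau` to the interface. -/

open Set Filter Topology
open scoped RealInnerProductSpace InnerProduct Manifold ContDiff

namespace Pool.Agent.Lib.MP_de485e_gt.Hi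

open Conv

variable {P Q : Type} [NormedAddCommGroup P] [InnerProductSpace ℝ P] [CompleteSpace P]
  [FiniteDimensional ℝ P] [NormedAddCommGroup Q] [InnerProductSpace ℝ Q] [CompleteSpace Q]
  [FiniteDimensional ℝ Q] {M : Type} [TopologicalSpace M] [ChartedSpace P M] [CompactSpace M]
  [IsManifold 𝓘(ℝ, P) ∞ M] {F : ℝ → M → Q} {n : ℕ}

theorem exists_par (hn : 2 ≤ n) (d : ℕ) :
    ∃ p : Par n, p.Fit d ∧ 4 * p.Y1 = 4 * √n / (10 ^ 14 + 3 * √n) := by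
  have h0 : (0 : ℝ) < n := by exact_mod_cast (by omega : 0 < n)
  have hs : 0 < √(n : ℝ) := Real.sqrt_pos.2 h0
  have hq : √(n : ℝ) ^ 2 = n := Real.sq_sqrt h0.le
  refine ⟨⟨√n / (10 ^ 14 + √n), 10 ^ 14 / (10 ^ 14 + √n), 10 * √n, by positivity, by positivity,
    le_of_eq ?_, le_of_eq ?_, by positivity, ?_, 2, Or.inl rfl⟩, Or.inl rfl, ?_⟩
  · field_simp
    ring
  · rw [div_pow, div_pow, hq]
    field_simp
  · rw [mul_pow, hq]
    norm_num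
  · simp only [Par.Y1]
    field_simp
    ring

theorem exists_par1 (hn : 2 ≤ n) {q : ℕ} (hq : 2 * q + 10 ^ 14 * √n ≤ (n : ℝ)) :
    ∃ p : Par n, p.Fit q ∧ 4 * p.Y1 = 4 / 3 := by
  have h0 : (0 : ℝ) < n := by exact_mod_cast (by omega : 0 < n)
  have hs : 0 < √(n : ℝ) := Real.sqrt_pos.2 h0
  have h2 : √(n : ℝ) ^ 2 = n := Real.sq_sqrt h0.le
  have h3 : (0 : ℝ) ≤ q := q.cast_nonneg
  have h4 : 10 ^ 14 ≤ √(n : ℝ) := by nlinarith
  have h5 : 10 ^ 14 / (2 * √(n : ℝ)) * n = 10 ^ 14 * √n / 2 := by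
    field_simp
    exact h2.symm
  refine ⟨⟨1 / 2, 10 ^ 14 / (2 * √n), 10 * √n, by positivity, by positivity, ?_, le_of_eq ?_,
    by positivity, ?_, 1, Or.inr (Or.inl ⟨rfl, le_rfl⟩)⟩, Or.inr ⟨rfl, ?_⟩, ?_⟩
  · have : 10 ^ 14 / (2 * √(n : ℝ)) ≤ 1 / 2 := by
      rw [div_le_iff₀ (by positivity)]
      linarith
    linarith
  · rw [div_pow, div_pow, mul_pow, h2]
    field_simp
  · rw [mul_pow, h2]
    norm_num
  · simp only
    nlinarith
  · simp only [Par.Y1]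
    norm_num

omit [CompactSpace M] in
theorem flow_of_mcf (hd : Dm P n) {I J : Set ℝ} (h : IsSphereMCF P F I) (hJ : IsOpen J)
    (hJo : J.OrdConnected) (hJI : J ⊆ I) : Flow P n F J :=
  ⟨hd, hJo, ⟨hJ.prod isOpen_univ, fun c => (h.sm c).mono fun _ hp => ⟨hJI hp.2.1, hp.1⟩,
    fun _ hz => h.sphere _ (hJI hz.1) _, fun _ hz => h.immersion _ (hJI hz.1) _⟩,
    fun _ hz e he => (h.flow _ (hJI hz.1) _ e he).hasDerivAt
      (mem_of_superset (hJ.mem_nhds hz.1) hJI)⟩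

theorem Flow.geoLoc' {J J' : Set ℝ} (h : Flow P n F J) {p : Par n} {t₁ : ℝ}
    (k : h.Pin (stdOrthonormalBasis ℝ Q) p t₁) (hJ : J' ⊆ J ∩ Ici t₁) :
    GeoLoc n P F J' (h.data (stdOrthonormalBasis ℝ Q)) := by
  refine h.geoLoc _ (fun t ht => (hJ ht).1) fun t ht x => ?_
  have h1 := h.u_pin _ k (hJ ht).1 (hJ ht).2 x
  have h2 := (p.aft (t - t₁)).Z_lt
  have h3 : 0 ≤ (h.data (stdOrthonormalBasis ℝ Q)).W t x := by
    have h4 := h.om_W (p := p) (stdOrthonormalBasis ℝ Q) (hJ ht).1 x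
    have h5 : (0 : ℝ) ≤ n := n.cast_nonneg
    nlinarith [h4.1, h4.2.2]
  nlinarith

theorem finite_of_pin (hd : Dm P n) {S c : ℝ} (hS : 0 < S) (h : IsSphereMCF P F (Ico 0 S))
    (p : Par n) (H : ∀ {J : Set ℝ} (f : Flow P n F J) {a : ℝ}, a ∈ J → TauLt P (F a) c →
      f.Pin (stdOrthonormalBasis ℝ Q) p a) (h0 : TauLt P (F 0) c) :
    ∃ a < S, ∃ G, GeoA n P F (Ioo a S) G := by
  obtain ⟨a, ha, ha'⟩ := ((tau_eventually hS h h0).and (Ioo_mem_nhdsGT hS)).exists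
  have f := flow_of_mcf hd h isOpen_Ioo ordConnected_Ioo Ioo_subset_Ico_self
  have k := H f ha' ha
  have s : Ioo a S ⊆ Ioo 0 S := Ioo_subset_Ioo_left ha'.1.le
  exact ⟨a, ha'.2, _, f.geoLoc' k fun t ht => ⟨s ht, ht.1.le⟩,
    f.estA _ k ha' fun t ht => ⟨s ht, ht.1.le, ht.2⟩, f.est3 _ s ordConnected_Ioo,
    f.est4 (stdOrthonormalBasis ℝ Q) s⟩

theorem infinite_of_pin (hd : Dm P n) {c : ℝ} (h : IsSphereMCF P F (Ici 0))
    (p : Par n) (H : ∀ {J : Set ℝ} (f : Flow P n F J) {a : ℝ}, a ∈ J → TauLt P (F a) c →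
      f.Pin (stdOrthonormalBasis ℝ Q) p a) (h0 : TauLt P (F 0) c) :
    ∃ a G, GeoB n P F (Ioi a) G := by
  have sub : Ico (0 : ℝ) 1 ⊆ Ici 0 := Ico_subset_Ici_self
  have h' : IsSphereMCF P F (Ico 0 1) := ⟨h.smooth.mono (prod_mono_left sub),
    fun s hs => h.sphere s (sub hs), fun s hs => h.immersion s (sub hs),
    fun s hs x b hb => (h.flow s (sub hs) x b hb).mono sub⟩
  obtain ⟨a, ha, ha'⟩ := ((tau_eventually one_pos h' h0).and self_mem_nhdsWithin).exists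
  have f := flow_of_mcf hd h isOpen_Ioi ordConnected_Ioi Ioi_subset_Ici_self
  have k := H f ha' ha
  have s : Ioi a ⊆ Ioi 0 := Ioi_subset_Ioi (le_of_lt ha')
  have s' : Ioi a ⊆ Ioi 0 ∩ Ici a := fun t ht => ⟨s ht, Ioi_subset_Ici_self ht⟩
  exact ⟨a, _, f.geoLoc' k s', f.estB _ k ha' s', f.est4 (stdOrthonormalBasis ℝ Q) s⟩

theorem finite_case (hd : Dm P n) {S : ℝ} (hS : 0 < S) (h : IsSphereMCF P F (Ico 0 S))
    (p : Par n) (hq : p.Fit (Module.finrank ℝ Q - n - 1)) (h0 : TauLt P (F 0) (4 * p.Y1)) :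
    ∃ a < S, ∃ G, GeoA n P F (Ioo a S) G :=
  finite_of_pin hd hS h p (fun f _ ha h1 => f.pin _ p (by simpa using hq) ha h1) h0

theorem infinite_case (hd : Dm P n) (h : IsSphereMCF P F (Ici 0))
    (p : Par n) (hq : p.Fit (Module.finrank ℝ Q - n - 1)) (h0 : TauLt P (F 0) (4 * p.Y1)) :
    ∃ a G, GeoB n P F (Ioi a) G :=
  infinite_of_pin hd h p (fun f _ ha h1 => f.pin _ p (by simpa using hq) ha h1) h0

end Pool.Agent.Lib.MP_de485e_gt.Hi
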