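import Pool.Agent.Lib.MP_de485e_gt.Defs

/-! Radial projection to the unit sphere of a subspace. -/

namespace Pool.Agent.Lib.MP_de485e_gt

variable {Q : Type} [NormedAddCommGroup Q] [InnerProductSpace ℝ Q] [FiniteDimensional ℝ Q]
  {M : Type}

/-- The direction of the orthogonal projection of `y - p` to `V`. -/
noncomputable def sproj (V : Submodule ℝ Q) (p y : Q) : Q :=
  ‖V.starProjection (y - p)‖⁻¹ • V.starProjection (y - p)

/-- `x ↦ sproj V p (G x)` is a bijection from `M` to the unit sphere of `V`. -/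
def SubBij (V : Submodule ℝ Q) (p : Q) (G : M → Q) : Prop :=
  Set.BijOn (fun x => sproj V p (G x)) Set.univ {w | w ∈ V ∧ ‖w‖ = 1}

end Pool.Agent.Lib.MP_de485e_gt
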