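import Pool.Agent.Lib.MP_de485e_gt.Hi.QDef

/-! Pure algebra of the arrays. -/

namespace Pool.Agent.Lib.MP_de485e_gt.Hi.Arr

variable {ι : Type} [Fintype ι] {R : Type} [CommRing R] [Algebra ℝ R] {X : Arr ι R}

section map

variable {R' : Type} [CommRing R'] [Algebra ℝ R'] (φ : R →ₐ[ℝ] R') (X)

theorem A1_map_n : (X.map φ).n = X.n := rfl

theorem map_HH (c : ι) : (X.map φ).HH c = φ (X.HH c) := by
  simp [HH, map, map_sum]

theorem map_W : (X.map φ).W = φ X.W := by
  simp only [W, map_HH, map_sum, map_mul]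

theorem map_a2 : (X.map φ).a2 = φ X.a2 := by
  simp [a2, map, map_sum]

theorem map_u : (X.map φ).u = φ X.u := by
  simp only [u, map_a2, map_W, map_sub, map_smul, A1_map_n]

theorem map_e2 : (X.map φ).e2 = φ X.e2 := by
  simp only [e2, map_W, map_sub, map_smul, map_one, A1_map_n]

theorem map_M (a d : ι) : (X.map φ).M a d = φ (X.M a d) := by
  simp [M, map, map_sum]

theorem map_G (c e : ι) : (X.map φ).G c e = φ (X.G c e) := by
  simp [G, map, map_sum]

theorem map_T0 (a b c : ι) : (X.map φ).T0 a b c = φ (X.T0 a b c) := by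
  simp only [T0, map_HH, map_sub, map_smul, map_mul, A1_map_n]
  rfl

theorem A1_map_AH (a b : ι) : (X.map φ).AH a b = φ (X.AH a b) := by
  simp only [AH, map_T0, map_HH, map_sum, map_mul]

theorem A1_map_G0 (a b : ι) : (X.map φ).G0 a b = φ (X.G0 a b) := by
  simp only [G0, map_T0, map_sum, map_mul]

theorem A1_map_G2 : (X.map φ).G2 = φ X.G2 := by
  simp only [G2, A1_map_G0, map_sum, map_mul]

theorem A1_map_M0 (a b : ι) : (X.map φ).M0 a b = φ (X.M0 a b) := by
  simp only [M0, map_T0, map_sum, map_mul]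

theorem A1_map_J0 : (X.map φ).J0 = φ X.J0 := by
  simp only [J0, map_T0, map_sum, map_mul]

theorem A1_map_CC : (X.map φ).CC = φ X.CC := by
  simp only [CC, A1_map_M0, A1_map_J0, map_sum, map_mul, map_sub, map_ofNat]

theorem map_zeta : (X.map φ).zeta = φ X.zeta := by
  simp only [zeta, A1_map_AH, map_smul, map_sum, map_mul, A1_map_n]

theorem map_Zs : (X.map φ).Zs = φ X.Zs := by
  simp only [Zs, A1_map_AH, A1_map_M0, A1_map_G2, A1_map_CC, map_e2, map_u, map_sum, map_mul,
    map_sub, map_add, map_one, map_natCast, A1_map_n]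

theorem map_Ru : (X.map φ).Ru = φ X.Ru := by
  simp only [Ru, A1_map_G2, A1_map_CC, map_zeta, map_u, map_mul, map_sub, map_add, map_pow,
    map_natCast, map_ofNat, A1_map_n]

theorem map_Re : (X.map φ).Re = φ X.Re := by
  simp only [Re, map_zeta, map_e2, map_mul, map_add, map_natCast, map_ofNat, A1_map_n]

theorem map_v : (X.map φ).v = φ X.v := by
  simp [v, map, map_sum]

theorem map_Bt (k c : ι) : (X.map φ).Bt k c = φ (X.Bt k c) := by
  simp [Bt, map, map_sum]

theorem map_gH : (X.map φ).gH = φ X.gH := by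
  simp only [gH, map_Bt, map_sum, map_mul]

variable {X}

theorem Good.map (h : X.Good) : (X.map φ).Good where
  hn := h.hn
  Psymm a b := congrArg φ (h.Psymm a b)
  PP a b := by simpa [Arr.map, map_sum] using congrArg φ (h.PP a b)
  trP := by simpa [Arr.map, map_sum] using congrArg φ h.trP
  FF := by simpa [Arr.map, map_sum] using congrArg φ h.FF
  Fnor a := by simpa [Arr.map, map_sum] using congrArg φ (h.Fnor a)
  Tsymm a b c := congrArg φ (h.Tsymm a b c)
  Ttan b c a := by simpa [Arr.map, map_sum] using congrArg φ (h.Ttan b c a)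
  Tnor a b c := by simpa [Arr.map, map_sum] using congrArg φ (h.Tnor a b c)
  TF a b := by simpa [Arr.map, map_sum] using congrArg φ (h.TF a b)
  B12 k a b c := congrArg φ (h.B12 k a b c)
  B23 k a b c := congrArg φ (h.B23 k a b c)
  Btan a b c k := by simpa [Arr.map, map_sum] using congrArg φ (h.Btan a b c k)
  Bnor k a b c := by simpa [Arr.map, map_sum] using congrArg φ (h.Bnor k a b c)
  BF k a b := by simpa [Arr.map, map_sum] using congrArg φ (h.BF k a b)

end map

/-- A tangential and a normal vector are orthogonal (only the symmetry of `P` is used). -/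
theorem tan_nrm (hP : ∀ a b, X.P a b = X.P b a) {f g : ι → R} (hf : X.Tan f) (hg : X.Nrm g) :
    ∑ a, f a * g a = 0 := by
  calc ∑ a, f a * g a = ∑ a, ∑ b, f b * (X.P b a * g a) := by
        refine Finset.sum_congr rfl fun a _ => ?_
        rw [← hf a, Finset.sum_mul]
        exact Finset.sum_congr rfl fun b _ => by rw [hP a b]; ring
    _ = ∑ b, f b * ∑ a, X.P b a * g a := by
        rw [Finset.sum_comm]
        exact Finset.sum_congr rfl fun b _ => (Finset.mul_sum _ _ _).symm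
    _ = 0 := Finset.sum_eq_zero fun b _ => by rw [hg b, mul_zero]

theorem A1_tan_sum {κ : Type} [Fintype κ] {f : κ → ι → R} (hf : ∀ i, X.Tan (f i)) :
    X.Tan fun a => ∑ i, f i a := by
  intro a
  simp only [Finset.mul_sum]
  rw [Finset.sum_comm]
  exact Finset.sum_congr rfl fun i _ => hf i a

theorem A1_nrm_sum {κ : Type} [Fintype κ] {f : κ → ι → R} (hf : ∀ i, X.Nrm (f i)) :
    X.Nrm fun a => ∑ i, f i a := by
  intro a
  simp only [Finset.mul_sum]
  rw [Finset.sum_comm]
  exact Finset.sum_eq_zero fun i _ => hf i a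

theorem A1_tan_mul {f : ι → R} (hf : X.Tan f) (r : R) : X.Tan fun a => f a * r := by
  intro a
  simp only [← mul_assoc]
  rw [← Finset.sum_mul, hf a]

theorem A1_nrm_mul {f : ι → R} (hf : X.Nrm f) (r : R) : X.Nrm fun a => r * f a := by
  intro a
  simp only [mul_left_comm _ r]
  rw [← Finset.mul_sum, hf a, mul_zero]

theorem A1_tan_sub {f g : ι → R} (hf : X.Tan f) (hg : X.Tan g) : X.Tan fun a => f a - g a := by
  intro a
  simp only [mul_sub]
  rw [Finset.sum_sub_distrib, hf a, hg a]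

theorem A1_nrm_sub {f g : ι → R} (hf : X.Nrm f) (hg : X.Nrm g) : X.Nrm fun a => f a - g a := by
  intro a
  simp only [mul_sub]
  rw [Finset.sum_sub_distrib, hf a, hg a, sub_zero]

theorem A1_T0 (a b c : ι) :
    X.T0 a b c = X.T a b c - algebraMap ℝ R (X.n : ℝ)⁻¹ * (X.P a b * X.HH c) := by
  rw [T0, Algebra.smul_def]

namespace Good

variable (h : X.Good)
include h

theorem tn {f g : ι → R} (hf : X.Tan f) (hg : X.Nrm g) : ∑ a, f a * g a = 0 :=
  tan_nrm h.Psymm hf hg

theorem Ptan (b : ι) : X.Tan fun a => X.P a b := fun a => h.PP a b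

theorem Ttan' (a c : ι) : X.Tan fun b => X.T a b c := by
  simp only [h.Tsymm a]
  exact h.Ttan a c

theorem Btan2 (k b c : ι) : X.Tan fun a => X.B k a b c := by
  simp only [h.B12 k]
  exact h.Btan k b c

theorem Btan3 (k a c : ι) : X.Tan fun b => X.B k a b c := by
  simp only [h.B23 k a]
  exact h.Btan2 k a c

theorem HH_nrm : X.Nrm X.HH := A1_nrm_sum fun a => h.Tnor a a

theorem HH_F : ∑ c, X.HH c * X.F c = -(X.n : R) := by
  simp only [HH, Finset.sum_mul]
  rw [Finset.sum_comm]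
  simp only [h.TF]
  rw [Finset.sum_neg_distrib, h.trP]

theorem Bt_nrm (k : ι) : X.Nrm (X.Bt k) := A1_nrm_sum fun a => h.Bnor k a a

theorem Bt_tan (c : ι) : X.Tan fun k => X.Bt k c :=
  A1_tan_sum (f := fun a k => X.B k a a c) fun a => h.Btan a a c

theorem Bt_F (k : ι) : ∑ c, X.Bt k c * X.F c = 0 := by
  simp only [Bt, Finset.sum_mul]
  rw [Finset.sum_comm]
  exact Finset.sum_eq_zero fun a _ => h.BF k a a

theorem Bt_eq (k c : ι) : ∑ a, X.B a a k c = X.Bt k c :=
  Finset.sum_congr rfl fun a _ => (h.B23 a a k c).trans (h.B12 a k a c)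

theorem P_T (c : ι) : ∑ a, ∑ b, X.P a b * X.T a b c = X.HH c :=
  Finset.sum_congr rfl fun a _ => h.Ttan' a c a

theorem P_B (k c : ι) : ∑ a, ∑ b, X.P a b * X.B k a b c = X.Bt k c :=
  Finset.sum_congr rfl fun a _ => h.Btan3 k a c a

omit h in
theorem M_symm (a d : ι) : X.M a d = X.M d a :=
  Finset.sum_congr rfl fun _ _ => Finset.sum_congr rfl fun _ _ => mul_comm _ _

omit h in
theorem G_symm (c e : ι) : X.G c e = X.G e c :=
  Finset.sum_congr rfl fun _ _ => Finset.sum_congr rfl fun _ _ => mul_comm _ _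

theorem M_tan (d : ι) : X.Tan fun a => X.M a d :=
  A1_tan_sum (f := fun b a => ∑ e, X.T a b e * X.T d b e) fun b =>
    A1_tan_sum (f := fun e a => X.T a b e * X.T d b e) fun e => A1_tan_mul (h.Ttan b e) _

theorem G_nrm (c : ι) : X.Nrm (X.G c) :=
  A1_nrm_sum (f := fun a e => ∑ b, X.T a b c * X.T a b e) fun a =>
    A1_nrm_sum (f := fun b e => X.T a b c * X.T a b e) fun b => A1_nrm_mul (h.Tnor a b) _

theorem A1_ni : algebraMap ℝ R (X.n : ℝ)⁻¹ * (X.n : R) = 1 := by
  have h0 : (X.n : ℝ) ≠ 0 := by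
    have := h.hn
    exact Nat.cast_ne_zero.2 (by omega)
  rw [← map_natCast (algebraMap ℝ R), ← map_mul, inv_mul_cancel₀ h0, map_one]

theorem T0_symm (a b c : ι) : X.T0 a b c = X.T0 b a c := by
  rw [T0, T0, h.Tsymm a b, h.Psymm a b]

theorem T0_tan (b c : ι) : X.Tan fun a => X.T0 a b c := by
  have e : (fun a => X.T0 a b c) =
      fun a => X.T a b c - X.P a b * (algebraMap ℝ R (X.n : ℝ)⁻¹ * X.HH c) := by
    funext a
    rw [A1_T0]; ring
  rw [e]
  exact A1_tan_sub (h.Ttan b c) (A1_tan_mul (h.Ptan b) _)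

theorem T0_nrm (a b : ι) : X.Nrm (X.T0 a b) := by
  have e : X.T0 a b =
      fun c => X.T a b c - (algebraMap ℝ R (X.n : ℝ)⁻¹ * X.P a b) * X.HH c := by
    funext c
    rw [A1_T0]; ring
  rw [e]
  exact A1_nrm_sub (h.Tnor a b) (A1_nrm_mul h.HH_nrm _)

theorem T0_F (a b : ι) : ∑ c, X.T0 a b c * X.F c = 0 := by
  have e : ∀ c, X.T0 a b c * X.F c =
      X.T a b c * X.F c - (algebraMap ℝ R (X.n : ℝ)⁻¹ * X.P a b) * (X.HH c * X.F c) := by
    intro c
    rw [A1_T0]; ring
  simp only [e]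
  rw [Finset.sum_sub_distrib, ← Finset.mul_sum, h.TF, h.HH_F]
  linear_combination X.P a b * h.A1_ni

theorem T0_tr (c : ι) : ∑ a, X.T0 a a c = 0 := by
  have e : ∀ a, X.T0 a a c =
      X.T a a c - X.P a a * (algebraMap ℝ R (X.n : ℝ)⁻¹ * X.HH c) := by
    intro a
    rw [A1_T0]; ring
  simp only [e]
  rw [Finset.sum_sub_distrib, ← Finset.sum_mul, h.trP]
  change X.HH c - _ = 0
  linear_combination (-X.HH c) * h.A1_ni

theorem P_T0 (c : ι) : ∑ a, ∑ b, X.P a b * X.T0 a b c = 0 := by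
  rw [← h.T0_tr c]
  refine Finset.sum_congr rfl fun a _ => ?_
  simp only [h.T0_symm a]
  exact h.T0_tan a c a

theorem u_eq : X.u = ∑ a, ∑ b, ∑ c, X.T0 a b c * X.T0 a b c := by
  have e1 : ∀ a b c, X.T0 a b c * X.T0 a b c = X.T a b c * X.T a b c -
      algebraMap ℝ R (X.n : ℝ)⁻¹ * (X.P a b * X.T a b c * X.HH c) -
      algebraMap ℝ R (X.n : ℝ)⁻¹ * (X.P a b * X.T0 a b c * X.HH c) := by
    intro a b c
    rw [A1_T0]; ring
  have e2 : ∀ f : ι → ι → ι → R, ∑ a, ∑ b, ∑ c, X.P a b * f a b c * X.HH c =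
      ∑ c, (∑ a, ∑ b, X.P a b * f a b c) * X.HH c := by
    intro f
    simp only [Finset.sum_mul]
    rw [Finset.sum_comm (s := (Finset.univ : Finset ι)) (t := (Finset.univ : Finset ι))
      (f := fun c a => ∑ b, X.P a b * f a b c * X.HH c)]
    exact Finset.sum_congr rfl fun a _ => Finset.sum_comm
  simp only [e1, Finset.sum_sub_distrib, ← Finset.mul_sum]
  rw [e2, e2]
  simp only [h.P_T, h.P_T0, zero_mul, Finset.sum_const_zero, mul_zero, sub_zero]
  rw [u, Algebra.smul_def]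
  rfl

theorem W_eq : X.W = (X.n : R) ^ 2 * (1 + X.e2) := by
  rw [e2, Algebra.smul_def, ← inv_pow, map_pow]
  linear_combination (-X.W * (algebraMap ℝ R (X.n : ℝ)⁻¹ * (X.n : R) + 1)) * h.A1_ni

theorem a2_eq : X.a2 = X.u + X.n * (1 + X.e2) := by
  rw [u, Algebra.smul_def]
  linear_combination (algebraMap ℝ R (X.n : ℝ)⁻¹) * h.W_eq + (X.n * (1 + X.e2)) * h.A1_ni

end Good

end Pool.Agent.Lib.MP_de485e_gt.Hi.Arr
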