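import Pool.Agent.Lib.MP_de485e_gt.Hi.A1

/-! Passage to the trace free part in the quartic terms. -/

namespace Pool.Agent.Lib.MP_de485e_gt.Hi.Arr.Good

section aux

open Matrix

variable {ι : Type} [Fintype ι] {R : Type} [CommRing R]

theorem A2_s3 (f : ι → ι → ι → R) : ∑ a, ∑ b, ∑ c, f a b c = ∑ c, ∑ a, ∑ b, f a b c :=
  (Finset.sum_congr rfl fun _ _ => Finset.sum_comm).trans Finset.sum_comm

theorem A2_s4 (f : ι → ι → ι → ι → R) :
    ∑ a, ∑ b, ∑ c, ∑ d, f a b c d = ∑ d, ∑ a, ∑ b, ∑ c, f a b c d :=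
  (Finset.sum_congr rfl fun a _ => A2_s3 (f a)).trans Finset.sum_comm

theorem A2_s5 (f : ι → ι → ι → ι → ι → R) :
    ∑ a, ∑ b, ∑ c, ∑ d, ∑ e, f a b c d e = ∑ e, ∑ a, ∑ b, ∑ c, ∑ d, f a b c d e :=
  (Finset.sum_congr rfl fun a _ => A2_s4 (f a)).trans Finset.sum_comm

theorem A2_s6 (f : ι → ι → ι → ι → ι → ι → R) :
    ∑ a, ∑ b, ∑ c, ∑ d, ∑ e, ∑ g, f a b c d e g =
      ∑ g, ∑ a, ∑ b, ∑ c, ∑ d, ∑ e, f a b c d e g :=
  (Finset.sum_congr rfl fun a _ => A2_s5 (f a)).trans Finset.sum_comm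

/-- The slice of an array at a value of its last index. -/
def A2_m (S : ι → ι → ι → R) (c : ι) : Matrix ι ι R := Matrix.of fun a b => S a b c

omit [Fintype ι] [CommRing R] in
theorem A2_m_apply (S : ι → ι → ι → R) (c a b : ι) : A2_m S c a b = S a b c := rfl

theorem A2_pair (E A : Matrix ι ι R) (hA : ∀ a b, A a b = A b a) :
    ∑ b, ∑ d, A b d * E b d = trace (E * A) := by
  simp only [trace, diag_apply, mul_apply]
  exact Finset.sum_congr rfl fun b _ => Finset.sum_congr rfl fun d _ => by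
    rw [hA d b, mul_comm]

variable {S : ι → ι → ι → R} (hS : ∀ a b c, S a b c = S b a c)
include hS

theorem A2_G (c e : ι) : ∑ a, ∑ b, S a b c * S a b e = trace (A2_m S e * A2_m S c) :=
  A2_pair (A2_m S e) (A2_m S c) fun a b => hS a b c

theorem A2_M (a d : ι) :
    ∑ b, ∑ e, S a b e * S d b e = (∑ e, A2_m S e * A2_m S e) a d := by
  rw [Finset.sum_comm, Matrix.sum_apply]
  refine Finset.sum_congr rfl fun e _ => ?_
  rw [mul_apply]
  exact Finset.sum_congr rfl fun b _ => by rw [hS d b e]; rfl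

theorem A2_MM : ∑ a, ∑ d, (∑ b, ∑ e, S a b e * S d b e) * (∑ b, ∑ e, S a b e * S d b e) =
    ∑ c, ∑ e, trace (A2_m S c * (A2_m S c * (A2_m S e * A2_m S e))) := by
  have e1 := A2_pair (∑ e, A2_m S e * A2_m S e) (∑ e, A2_m S e * A2_m S e) (fun a b => by
    rw [← A2_M hS, ← A2_M hS]
    exact Finset.sum_congr rfl fun _ _ => Finset.sum_congr rfl fun _ _ => mul_comm _ _)
  simp only [A2_M hS]
  rw [e1, Finset.sum_mul_sum, trace_sum]
  exact Finset.sum_congr rfl fun c _ => by simp only [trace_sum, Matrix.mul_assoc]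

theorem A2_J : ∑ a, ∑ b, ∑ d, ∑ f, (∑ c, S a b c * S d f c) * ∑ e, S a d e * S b f e =
    ∑ c, ∑ e, trace (A2_m S c * (A2_m S e * (A2_m S c * A2_m S e))) := by
  simp only [Finset.sum_mul_sum]
  rw [A2_s6, A2_s6]
  refine Finset.sum_congr rfl fun c _ => Finset.sum_congr rfl fun e _ => ?_
  rw [← Matrix.mul_assoc (A2_m S e)]
  simp only [trace, diag_apply, mul_apply, A2_m_apply, Finset.mul_sum, Finset.sum_mul]
  refine Finset.sum_congr rfl fun a _ => Finset.sum_congr rfl fun b _ =>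
    Finset.sum_congr rfl fun d _ => Finset.sum_congr rfl fun f _ => ?_
  rw [hS d f c, hS a d e]
  ring

omit hS

variable {P A B : Matrix ι ι R} (hP : P * P = P) (hPA : P * A = A) (hAP : A * P = A)
  (hPB : P * B = B) (hBP : B * P = B) (x y : R)
include hP hPA hAP hPB hBP

theorem A2_comm : trace ((A + x • P) * ((A + x • P) * ((B + y • P) * (B + y • P)))) -
    trace ((A + x • P) * ((B + y • P) * ((A + x • P) * (B + y • P)))) =
    trace (A * (A * (B * B))) - trace (A * (B * (A * B))) := by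
  have pa : ∀ Z : Matrix ι ι R, P * (A * Z) = A * Z := fun Z => by rw [← Matrix.mul_assoc, hPA]
  have pb : ∀ Z : Matrix ι ι R, P * (B * Z) = B * Z := fun Z => by rw [← Matrix.mul_assoc, hPB]
  have c1 : trace (A * (B * A)) = trace (A * (A * B)) := by
    rw [← Matrix.mul_assoc, trace_mul_comm]
  have c2 : trace (B * (A * B)) = trace (A * (B * B)) := by
    rw [trace_mul_comm, Matrix.mul_assoc]
  have c3 : trace (B * A) = trace (A * B) := trace_mul_comm _ _
  simp only [Matrix.mul_add, Matrix.add_mul, Matrix.mul_smul, Matrix.smul_mul, hP, hPA, hAP, hPB,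
    hBP, pa, pb, trace_add, trace_smul, smul_eq_mul, c1, c2, c3]
  ring

theorem A2_sim (hA : trace A = 0) (z g : R) :
    trace ((z • ((B + y • P) * (A + x • P)) - g • (B + y • P) +
      (2 : R) • ((B + y • P) * (A + x • P) * (B + y • P)) -
      (B + y • P) * (B + y • P) * (A + x • P) - (A + x • P) * ((B + y • P) * (B + y • P))) * A) =
    z * trace (A * (A * B)) + (z * x - g) * trace (B * A) + z * y * trace (A * A) -
      (2 * trace (A * (A * (B * B))) - 2 * trace (A * (B * (A * B)))) := by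
  have pb : ∀ Z : Matrix ι ι R, P * (B * Z) = B * Z := fun Z => by rw [← Matrix.mul_assoc, hPB]
  have c1 : trace (A * (B * A)) = trace (A * (A * B)) := by
    rw [← Matrix.mul_assoc, trace_mul_comm]
  have c2 : trace (B * (A * A)) = trace (A * (A * B)) := by
    rw [trace_mul_comm, Matrix.mul_assoc]
  have c3 : trace (B * (A * (B * A))) = trace (A * (B * (A * B))) := by
    rw [trace_mul_comm]
    simp only [Matrix.mul_assoc]
  have c4 : trace (B * (B * (A * A))) = trace (A * (A * (B * B))) := by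
    rw [← Matrix.mul_assoc, trace_mul_comm, Matrix.mul_assoc]
  have c5 : trace (A * (B * (B * A))) = trace (A * (A * (B * B))) := by
    rw [← Matrix.mul_assoc B, ← Matrix.mul_assoc A, trace_mul_comm]
  simp only [Matrix.mul_add, Matrix.add_mul, Matrix.sub_mul, Matrix.mul_smul, Matrix.smul_mul,
    Matrix.mul_assoc, hP, hPA, hAP, hPB, hBP, pb, trace_add, trace_sub, trace_smul,
    smul_eq_mul, c1, c2, c3, c4, c5, hA]
  ring

end aux

open Matrix

variable {ι : Type} [Fintype ι] {R : Type} [CommRing R] [Algebra ℝ R] {X : Arr ι R} (h : X.Good)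
include h

theorem A2_k : (X.n : R) * algebraMap ℝ R (X.n : ℝ)⁻¹ = 1 := by
  have hn : (X.n : ℝ) ≠ 0 := by
    have := h.hn
    exact_mod_cast (by omega : X.n ≠ 0)
  rw [← map_natCast (algebraMap ℝ R), ← map_mul, mul_inv_cancel₀ hn, map_one]

omit h in
theorem A2_T (c : ι) :
    A2_m X.T c = A2_m X.T0 c + (algebraMap ℝ R (X.n : ℝ)⁻¹ * X.HH c) • Matrix.of X.P := by
  ext a b
  simp only [A2_m_apply, Matrix.add_apply, Matrix.smul_apply, of_apply, Arr.T0, smul_eq_mul,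
    Algebra.smul_def]
  ring

omit [Algebra ℝ R] in
theorem A2_PP : Matrix.of X.P * Matrix.of X.P = Matrix.of X.P := by
  ext a b
  exact h.PP a b

theorem A2_PA (c : ι) : Matrix.of X.P * A2_m X.T0 c = A2_m X.T0 c := by
  ext a b
  exact h.T0_tan b c a

theorem A2_AP (c : ι) : A2_m X.T0 c * Matrix.of X.P = A2_m X.T0 c := by
  ext a b
  rw [mul_apply, A2_m_apply, h.T0_symm a b c]
  refine Eq.trans (Finset.sum_congr rfl fun d _ => ?_) (h.T0_tan a c b)
  rw [A2_m_apply, of_apply, h.T0_symm a d c, h.Psymm d b, mul_comm]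

theorem A2_trA (c : ι) : trace (A2_m X.T0 c) = 0 := h.T0_tr c

omit [Algebra ℝ R] in
theorem A2_trP : trace (Matrix.of X.P) = X.n := h.trP

theorem G_eq (c e : ι) : X.G c e = X.G0 c e + (X.n : ℝ)⁻¹ • (X.HH c * X.HH e) := by
  rw [Arr.G, Arr.G0, A2_G h.Tsymm, A2_G h.T0_symm, A2_T, A2_T, Algebra.smul_def]
  simp only [Matrix.mul_add, Matrix.add_mul, Matrix.mul_smul, Matrix.smul_mul, h.A2_PP, h.A2_PA,
    h.A2_AP, trace_add, trace_smul, smul_eq_mul, h.A2_trA, h.A2_trP]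
  linear_combination (algebraMap ℝ R (X.n : ℝ)⁻¹ * X.HH c * X.HH e) * h.A2_k

theorem M_eq (a d : ι) : X.M a d =
    X.M0 a d + (2 * (X.n : ℝ)⁻¹) • X.AH a d + X.P a d * (1 + X.e2) := by
  have hW : algebraMap ℝ R (X.n : ℝ)⁻¹ ^ 2 * ∑ c, X.HH c * X.HH c = 1 + X.e2 := by
    rw [← Arr.W, h.W_eq, ← mul_assoc, ← mul_pow, mul_comm _ (X.n : R), h.A2_k, one_pow, one_mul]
  rw [Arr.M, Arr.M0, A2_M h.Tsymm, A2_M h.T0_symm, Algebra.smul_def, map_mul, map_ofNat, Arr.AH,
    ← hW, Matrix.sum_apply, Matrix.sum_apply]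
  simp only [Finset.mul_sum, ← Finset.sum_add_distrib]
  refine Finset.sum_congr rfl fun e _ => ?_
  rw [A2_T]
  simp only [Matrix.mul_add, Matrix.add_mul, Matrix.mul_smul, Matrix.smul_mul, h.A2_PP, h.A2_PA,
    h.A2_AP, Matrix.add_apply, Matrix.smul_apply, smul_eq_mul, A2_m_apply, of_apply]
  ring

theorem A2_HGH : ∑ c, ∑ e, X.HH c * X.G0 c e * X.HH e = (X.n : R) ^ 3 * X.zeta := by
  have e1 : ∑ c, ∑ e, X.HH c * X.G0 c e * X.HH e = ∑ a, ∑ b, X.AH a b * X.AH a b := by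
    simp only [Arr.G0, Arr.AH, Finset.sum_mul_sum]
    simp only [Finset.mul_sum, Finset.sum_mul]
    rw [A2_s4, A2_s4]
    refine Finset.sum_congr rfl fun a _ => Finset.sum_congr rfl fun b _ =>
      Finset.sum_congr rfl fun c _ => Finset.sum_congr rfl fun e _ => ?_
    ring
  rw [e1, Arr.zeta, Algebra.smul_def, ← inv_pow, map_pow, ← mul_assoc, ← mul_pow, h.A2_k, one_pow,
    one_mul]

omit h [Algebra ℝ R] in
theorem A2_WW : ∑ c, ∑ e, X.HH c * X.HH c * (X.HH e * X.HH e) = X.W * X.W := by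
  rw [Arr.W, Finset.sum_mul_sum]

theorem HGH : ∑ c, ∑ e, X.HH c * X.G c e * X.HH e =
    (X.n : R) ^ 3 * (X.zeta + (1 + X.e2) ^ 2) := by
  have e1 : ∑ c, ∑ e, X.HH c * X.G c e * X.HH e = ∑ c, ∑ e, X.HH c * X.G0 c e * X.HH e +
      algebraMap ℝ R (X.n : ℝ)⁻¹ * ∑ c, ∑ e, X.HH c * X.HH c * (X.HH e * X.HH e) := by
    simp only [Finset.mul_sum, ← Finset.sum_add_distrib]
    refine Finset.sum_congr rfl fun c _ => Finset.sum_congr rfl fun e _ => ?_
    rw [h.G_eq, Algebra.smul_def]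
    ring
  rw [e1, h.A2_HGH, A2_WW, h.W_eq]
  linear_combination ((X.n : R) ^ 3 * (1 + X.e2) ^ 2) * h.A2_k

theorem GG : ∑ c, ∑ e, X.G c e * X.G c e =
    X.G2 + (X.n : R) ^ 2 * (2 * X.zeta + (1 + X.e2) ^ 2) := by
  have e1 : ∑ c, ∑ e, X.G c e * X.G c e = ∑ c, ∑ e, X.G0 c e * X.G0 c e +
      2 * algebraMap ℝ R (X.n : ℝ)⁻¹ * ∑ c, ∑ e, X.HH c * X.G0 c e * X.HH e +
      algebraMap ℝ R (X.n : ℝ)⁻¹ ^ 2 * ∑ c, ∑ e, X.HH c * X.HH c * (X.HH e * X.HH e) := by
    simp only [Finset.mul_sum, ← Finset.sum_add_distrib]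
    refine Finset.sum_congr rfl fun c _ => Finset.sum_congr rfl fun e _ => ?_
    rw [h.G_eq, Algebra.smul_def]
    ring
  rw [e1, h.A2_HGH, A2_WW, h.W_eq, Arr.G2]
  linear_combination ((X.n : R) ^ 2 * (2 * X.zeta +
    (1 + X.n * algebraMap ℝ R (X.n : ℝ)⁻¹) * (1 + X.e2) ^ 2)) * h.A2_k

theorem A2_CC : X.CC = ∑ c, ∑ e,
    (2 * trace (A2_m X.T0 c * (A2_m X.T0 c * (A2_m X.T0 e * A2_m X.T0 e))) -
      2 * trace (A2_m X.T0 c * (A2_m X.T0 e * (A2_m X.T0 c * A2_m X.T0 e)))) := by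
  simp only [Arr.CC, Arr.M0, Arr.J0]
  rw [A2_MM h.T0_symm, A2_J h.T0_symm]
  simp only [Finset.mul_sum, Finset.sum_sub_distrib]

/-- Commutators do not see multiples of the identity. -/
theorem MM : 2 * (∑ a, ∑ d, X.M a d * X.M a d) - 2 * X.J = X.CC := by
  simp only [Arr.M, Arr.J]
  rw [A2_MM h.Tsymm, A2_J h.Tsymm, h.A2_CC]
  simp only [Finset.mul_sum, ← Finset.sum_sub_distrib]
  refine Finset.sum_congr rfl fun c _ => Finset.sum_congr rfl fun e _ => ?_
  rw [← mul_sub, ← mul_sub, A2_T c, A2_T e,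
    A2_comm h.A2_PP (h.A2_PA c) (h.A2_AP c) (h.A2_PA e) (h.A2_AP e)]

theorem A2_entry (b d c : ι) :
    ∑ p, (∑ e, X.HH e * X.T b p e) * X.T p d c - ∑ e, X.G c e * X.T b d e +
      2 * (∑ p, ∑ q, (∑ e, X.T d q e * X.T b p e) * X.T p q c) -
      ∑ p, X.M b p * X.T p d c - ∑ p, X.M d p * X.T p b c =
    (∑ e, (X.HH e • (A2_m X.T e * A2_m X.T c) - X.G c e • A2_m X.T e +
      (2 : R) • (A2_m X.T e * A2_m X.T c * A2_m X.T e) - A2_m X.T e * A2_m X.T e * A2_m X.T c -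
      A2_m X.T c * (A2_m X.T e * A2_m X.T e))) b d := by
  have e1 : ∑ p, (∑ e, X.HH e * X.T b p e) * X.T p d c =
      ∑ e, X.HH e * (A2_m X.T e * A2_m X.T c) b d := by
    simp only [mul_apply, A2_m_apply, Finset.mul_sum, Finset.sum_mul, mul_assoc]
    exact Finset.sum_comm
  have e3 : ∑ p, ∑ q, (∑ e, X.T d q e * X.T b p e) * X.T p q c =
      ∑ e, (A2_m X.T e * A2_m X.T c * A2_m X.T e) b d := by
    simp only [mul_apply, A2_m_apply, Finset.sum_mul]
    rw [A2_s3]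
    refine Finset.sum_congr rfl fun e _ => Finset.sum_comm.trans ?_
    refine Finset.sum_congr rfl fun q _ => Finset.sum_congr rfl fun p _ => ?_
    rw [h.Tsymm d q e]
    ring
  have e4 : ∑ p, X.M b p * X.T p d c = ∑ e, (A2_m X.T e * A2_m X.T e * A2_m X.T c) b d := by
    rw [← Matrix.sum_apply, ← Finset.sum_mul, mul_apply]
    exact Finset.sum_congr rfl fun p _ => by rw [Arr.M, A2_M h.Tsymm, A2_m_apply]
  have e5 : ∑ p, X.M d p * X.T p b c = ∑ e, (A2_m X.T c * (A2_m X.T e * A2_m X.T e)) b d := by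
    rw [← Matrix.sum_apply, ← Finset.mul_sum, mul_apply]
    exact Finset.sum_congr rfl fun p _ => by
      rw [M_symm d p, Arr.M, A2_M h.Tsymm, A2_m_apply, h.Tsymm p b c, mul_comm]
  rw [e1, e3, e4, e5, Matrix.sum_apply]
  simp only [Matrix.sub_apply, Matrix.add_apply, Matrix.smul_apply, smul_eq_mul, A2_m_apply,
    Finset.sum_sub_distrib, Finset.sum_add_distrib, Finset.mul_sum]

/-- The right side of the Simons identity paired with the trace free part. -/
theorem Zs_eq : ∑ b, ∑ d, ∑ c, X.T0 b d c *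
    (∑ p, (∑ e, X.HH e * X.T b p e) * X.T p d c - ∑ e, X.G c e * X.T b d e +
      2 * (∑ p, ∑ q, (∑ e, X.T d q e * X.T b p e) * X.T p q c) -
      ∑ p, X.M b p * X.T p d c - ∑ p, X.M d p * X.T p b c) = X.Zs := by
  have hu : X.u = ∑ c, trace (A2_m X.T0 c * A2_m X.T0 c) := by
    rw [h.u_eq, A2_s3]
    exact Finset.sum_congr rfl fun c _ => A2_G h.T0_symm c c
  have hW : (X.n : R) * (1 + X.e2) = algebraMap ℝ R (X.n : ℝ)⁻¹ * ∑ e, X.HH e * X.HH e := by
    rw [← Arr.W, h.W_eq]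
    linear_combination (-(X.n : R) * (1 + X.e2)) * h.A2_k
  have hAM : ∑ a, ∑ d, X.AH a d * X.M0 a d =
      ∑ c, ∑ e, X.HH e * trace (A2_m X.T0 c * (A2_m X.T0 c * A2_m X.T0 e)) := by
    simp only [Arr.AH, Finset.sum_mul]
    rw [A2_s3, Finset.sum_comm (f := fun c e => X.HH e * _)]
    refine Finset.sum_congr rfl fun e _ => ?_
    rw [← Finset.mul_sum, ← trace_sum]
    simp only [← Matrix.mul_assoc]
    rw [← Finset.sum_mul, ← A2_pair _ (A2_m X.T0 e) fun a b => h.T0_symm a b e]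
    simp only [Finset.mul_sum]
    refine Finset.sum_congr rfl fun a _ => Finset.sum_congr rfl fun d _ => ?_
    rw [Arr.M0, A2_M h.T0_symm, A2_m_apply]
    ring
  rw [Arr.Zs, ← mul_assoc, hW, hu, hAM, h.A2_CC, Arr.G2, mul_assoc, Finset.sum_mul_sum,
    Finset.sum_comm (f := fun e c => X.HH e * X.HH e * _), A2_s3]
  simp only [h.A2_entry]
  simp only [Finset.mul_sum, ← Finset.sum_add_distrib, ← Finset.sum_sub_distrib]
  refine Finset.sum_congr rfl fun c _ => ?_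
  refine (A2_pair _ (A2_m X.T0 c) fun a b => h.T0_symm a b c).trans ?_
  rw [Finset.sum_mul, trace_sum]
  refine Finset.sum_congr rfl fun e _ => ?_
  rw [A2_T c, A2_T e,
    A2_sim h.A2_PP (h.A2_PA c) (h.A2_AP c) (h.A2_PA e) (h.A2_AP e) _ _ (h.A2_trA c),
    ← A2_G h.T0_symm c e, ← Arr.G0, h.G_eq, Algebra.smul_def]
  ring

end Pool.Agent.Lib.MP_de485e_gt.Hi.Arr.Good
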