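import Pool.Agent.Lib.MP_de485e_gt.Hi.A2

/-! Inequalities for real arrays. -/

namespace Pool.Agent.Lib.MP_de485e_gt.Hi.Arr

variable {ι : Type} [Fintype ι] {X : Arr ι ℝ}

theorem A3_cs (f g : ι → ℝ) : (∑ a, f a * g a) ^ 2 ≤ (∑ a, f a * f a) * ∑ a, g a * g a := by
  have := Finset.sum_mul_sq_le_sq_mul_sq Finset.univ f g
  simpa only [sq] using this

theorem A3_cs2 (f g : ι → ι → ℝ) : (∑ a, ∑ b, f a b * g a b) ^ 2 ≤
    (∑ a, ∑ b, f a b * f a b) * ∑ a, ∑ b, g a b * g a b := by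
  have := A3_cs (ι := ι × ι) (fun p => f p.1 p.2) (fun p => g p.1 p.2)
  simpa only [Fintype.sum_prod_type] using this

theorem A3_rot (f : ι → ι → ι → ℝ) : ∑ a, ∑ b, ∑ c, f a b c = ∑ c, ∑ a, ∑ b, f a b c := by
  rw [Finset.sum_congr rfl fun a _ => Finset.sum_comm (f := fun b c => f a b c)]
  exact Finset.sum_comm

theorem A3_sw12 (f : ι → ι → ι → ι → ℝ) :
    ∑ k, ∑ a, ∑ b, ∑ c, f k a b c = ∑ k, ∑ a, ∑ b, ∑ c, f a k b c := Finset.sum_comm

theorem A3_sw23 (f : ι → ι → ι → ι → ℝ) :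
    ∑ k, ∑ a, ∑ b, ∑ c, f k a b c = ∑ k, ∑ a, ∑ b, ∑ c, f k b a c :=
  Finset.sum_congr rfl fun _ _ => Finset.sum_comm

theorem A3_congr {f g : ι → ι → ι → ι → ℝ} (h : ∀ k a b c, f k a b c = g k a b c) :
    ∑ k, ∑ a, ∑ b, ∑ c, f k a b c = ∑ k, ∑ a, ∑ b, ∑ c, g k a b c := by
  simp only [h]

theorem A3_single (f : ι → ℝ) (h : ∀ a, 0 ≤ f a) (a : ι) : f a ≤ ∑ a, f a :=
  Finset.single_le_sum (fun a _ => h a) (Finset.mem_univ a)

theorem A3_nn {f : ι → ℝ} (h : ∀ a, 0 ≤ f a) : 0 ≤ ∑ a, f a := Finset.sum_nonneg fun a _ => h a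

theorem v_nonneg (X : Arr ι ℝ) : 0 ≤ X.v :=
  A3_nn fun _ => A3_nn fun _ => A3_nn fun _ => A3_nn fun _ => mul_self_nonneg _

theorem gH_nonneg (X : Arr ι ℝ) : 0 ≤ X.gH := A3_nn fun _ => A3_nn fun _ => mul_self_nonneg _

theorem a2_nonneg (X : Arr ι ℝ) : 0 ≤ X.a2 :=
  A3_nn fun _ => A3_nn fun _ => A3_nn fun _ => mul_self_nonneg _

theorem zeta_nonneg (X : Arr ι ℝ) : 0 ≤ X.zeta := by
  unfold zeta
  rw [smul_eq_mul]
  exact mul_nonneg (by positivity) (A3_nn fun _ => A3_nn fun _ => mul_self_nonneg _)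

theorem abs_T_le (X : Arr ι ℝ) (a b c : ι) : |X.T a b c| ≤ √X.a2 := by
  refine Real.abs_le_sqrt ?_
  rw [sq]
  exact ((A3_single (fun c => X.T a b c * X.T a b c) (fun _ => mul_self_nonneg _) c).trans
    (A3_single (fun b => ∑ c, X.T a b c * X.T a b c)
      (fun _ => A3_nn fun _ => mul_self_nonneg _) b)).trans
    (A3_single (fun a => ∑ b, ∑ c, X.T a b c * X.T a b c)
      (fun _ => A3_nn fun _ => A3_nn fun _ => mul_self_nonneg _) a)

theorem abs_B_le (X : Arr ι ℝ) (k a b c : ι) : |X.B k a b c| ≤ √X.v := by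
  refine Real.abs_le_sqrt ?_
  rw [sq]
  exact (((A3_single (fun c => X.B k a b c * X.B k a b c) (fun _ => mul_self_nonneg _) c).trans
    (A3_single (fun b => ∑ c, X.B k a b c * X.B k a b c)
      (fun _ => A3_nn fun _ => mul_self_nonneg _) b)).trans
    (A3_single (fun a => ∑ b, ∑ c, X.B k a b c * X.B k a b c)
      (fun _ => A3_nn fun _ => A3_nn fun _ => mul_self_nonneg _) a)).trans
    (A3_single (fun k => ∑ a, ∑ b, ∑ c, X.B k a b c * X.B k a b c)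
      (fun _ => A3_nn fun _ => A3_nn fun _ => A3_nn fun _ => mul_self_nonneg _) k)

theorem HGH_le (X : Arr ι ℝ) : ∑ c, ∑ e, X.HH c * X.G c e * X.HH e ≤ X.a2 * X.W := by
  have h1 : ∑ c, ∑ e, X.HH c * X.G c e * X.HH e =
      ∑ a, ∑ b, (∑ c, X.T a b c * X.HH c) ^ 2 := by
    have h2 : ∀ a b, (∑ c, X.T a b c * X.HH c) ^ 2 =
        ∑ c, ∑ e, X.HH c * (X.T a b c * X.T a b e) * X.HH e := by
      intro a b
      rw [sq, Finset.sum_mul_sum]
      exact Finset.sum_congr rfl fun c _ => Finset.sum_congr rfl fun e _ => by ring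
    simp only [h2, G, Finset.mul_sum, Finset.sum_mul]
    rw [A3_rot fun a b c => ∑ e, X.HH c * (X.T a b c * X.T a b e) * X.HH e]
    exact Finset.sum_congr rfl fun c _ =>
      (A3_rot fun a b e => X.HH c * (X.T a b c * X.T a b e) * X.HH e).symm
  rw [h1, a2, Finset.sum_mul]
  refine Finset.sum_le_sum fun a _ => ?_
  rw [Finset.sum_mul]
  exact Finset.sum_le_sum fun b _ => A3_cs _ _

namespace Good

variable (h : X.Good)
include h

theorem A3_n : (2 : ℝ) ≤ X.n := by exact_mod_cast h.hn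

theorem u_nonneg : 0 ≤ X.u := by
  rw [h.u_eq]
  exact A3_nn fun _ => A3_nn fun _ => A3_nn fun _ => mul_self_nonneg _

theorem A3_W : (X.n : ℝ) ^ 2 ≤ X.W := by
  have h1 := A3_cs X.HH X.F
  rw [h.HH_F, h.FF, mul_one, neg_sq] at h1
  exact h1

/-- `W ≥ ⟪HH, F⟫ ^ 2 = n ^ 2`. -/
theorem e2_nonneg : 0 ≤ X.e2 := by
  have h1 := h.A3_W
  have h2 : (0 : ℝ) < (X.n : ℝ) ^ 2 := by
    have := h.A3_n
    positivity
  rw [h.W_eq] at h1
  nlinarith

theorem W_ge : (X.n : ℝ) ^ 2 ≤ X.W := h.A3_W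

theorem Re_nonneg : 0 ≤ X.Re := by
  have h1 := h.e2_nonneg
  have h2 := X.zeta_nonneg
  unfold Re
  positivity

theorem A3_PP : ∑ a, ∑ b, X.P a b * X.P a b = X.n := by
  rw [← h.trP]
  refine Finset.sum_congr rfl fun a _ => ?_
  rw [← h.PP a a]
  exact Finset.sum_congr rfl fun b _ => by rw [h.Psymm b a]

theorem A3_e1 : ∑ k, ∑ a, ∑ b, ∑ c, X.B k a b c * (X.P a b * X.Bt k c) = X.gH := by
  refine Finset.sum_congr rfl fun k _ => ?_
  rw [A3_rot]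
  refine Finset.sum_congr rfl fun c _ => ?_
  nth_rewrite 2 [← h.P_B k c]
  simp only [Finset.sum_mul]
  exact Finset.sum_congr rfl fun a _ => Finset.sum_congr rfl fun b _ => by ring

theorem A3_e3 : ∑ k, ∑ a, ∑ b, ∑ c, X.B k a b c * (X.P k b * X.Bt a c) = X.gH := by
  rw [A3_sw12, ← h.A3_e1]
  exact A3_congr fun k a b c => by rw [h.B12 a k]

theorem A3_e2 : ∑ k, ∑ a, ∑ b, ∑ c, X.B k a b c * (X.P k a * X.Bt b c) = X.gH := by
  rw [A3_sw23, ← h.A3_e3]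
  exact A3_congr fun k a b c => by rw [h.B23 k b a]

theorem A3_s11 :
    ∑ k, ∑ a, ∑ b, ∑ c, X.P a b * X.Bt k c * (X.P a b * X.Bt k c) = X.n * X.gH := by
  rw [gH, Finset.mul_sum]
  refine Finset.sum_congr rfl fun k _ => ?_
  rw [A3_rot, Finset.mul_sum]
  refine Finset.sum_congr rfl fun c _ => ?_
  rw [← h.A3_PP]
  simp only [Finset.sum_mul]
  exact Finset.sum_congr rfl fun a _ => Finset.sum_congr rfl fun b _ => by ring

theorem A3_s33 :
    ∑ k, ∑ a, ∑ b, ∑ c, X.P k b * X.Bt a c * (X.P k b * X.Bt a c) = X.n * X.gH := by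
  rw [A3_sw12, ← h.A3_s11]

theorem A3_s22 :
    ∑ k, ∑ a, ∑ b, ∑ c, X.P k a * X.Bt b c * (X.P k a * X.Bt b c) = X.n * X.gH := by
  rw [A3_sw23, ← h.A3_s33]

theorem A3_s23 :
    ∑ k, ∑ a, ∑ b, ∑ c, X.P k a * X.Bt b c * (X.P k b * X.Bt a c) = X.gH := by
  refine Finset.sum_congr rfl fun k _ => ?_
  rw [A3_rot]
  refine Finset.sum_congr rfl fun c _ => ?_
  have h1 : ∑ b, X.P k b * X.Bt b c = X.Bt k c := h.Bt_tan c k
  rw [← h1, Finset.sum_mul_sum]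
  exact Finset.sum_congr rfl fun a _ => Finset.sum_congr rfl fun b _ => by ring

theorem A3_s12 :
    ∑ k, ∑ a, ∑ b, ∑ c, X.P a b * X.Bt k c * (X.P k a * X.Bt b c) = X.gH := by
  rw [A3_sw12, ← h.A3_s23]
  exact A3_congr fun k a b c => by rw [h.Psymm a k]; ring

theorem A3_s13 :
    ∑ k, ∑ a, ∑ b, ∑ c, X.P a b * X.Bt k c * (X.P k b * X.Bt a c) = X.gH := by
  rw [A3_sw23, ← h.A3_s12]
  exact A3_congr fun k a b c => by rw [h.Psymm b a]

/-- Subtract `(P a b Bt k c + P k a Bt b c + P k b Bt a c) / (n + 2)` from `B k a b c`. -/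
theorem codazzi : 3 * X.gH ≤ (X.n + 2) * X.v := by
  have h0 : 0 ≤ ∑ k, ∑ a, ∑ b, ∑ c, (((X.n : ℝ) + 2) * X.B k a b c -
      (X.P a b * X.Bt k c + X.P k a * X.Bt b c + X.P k b * X.Bt a c)) ^ 2 :=
    A3_nn fun _ => A3_nn fun _ => A3_nn fun _ => A3_nn fun _ => sq_nonneg _
  have h1 : ∀ k a b c, (((X.n : ℝ) + 2) * X.B k a b c -
      (X.P a b * X.Bt k c + X.P k a * X.Bt b c + X.P k b * X.Bt a c)) ^ 2 =
      ((X.n : ℝ) + 2) ^ 2 * (X.B k a b c * X.B k a b c) -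
        2 * ((X.n : ℝ) + 2) * (X.B k a b c * (X.P a b * X.Bt k c) +
          X.B k a b c * (X.P k a * X.Bt b c) + X.B k a b c * (X.P k b * X.Bt a c)) +
        (X.P a b * X.Bt k c * (X.P a b * X.Bt k c) + X.P k a * X.Bt b c * (X.P k a * X.Bt b c) +
          X.P k b * X.Bt a c * (X.P k b * X.Bt a c)) +
        2 * (X.P a b * X.Bt k c * (X.P k a * X.Bt b c) +
          X.P a b * X.Bt k c * (X.P k b * X.Bt a c) +
          X.P k a * X.Bt b c * (X.P k b * X.Bt a c)) := fun k a b c => by ring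
  simp only [h1, Finset.sum_add_distrib, Finset.sum_sub_distrib, ← Finset.mul_sum] at h0
  rw [h.A3_e1, h.A3_e2, h.A3_e3, h.A3_s11, h.A3_s22, h.A3_s33, h.A3_s12, h.A3_s13,
    h.A3_s23] at h0
  have h2 := h.A3_n
  have h3 : 0 ≤ ((X.n : ℝ) + 2) * ((X.n + 2) * X.v - 3 * X.gH) := by
    unfold v
    linarith
  have h4 := nonneg_of_mul_nonneg_right (by rwa [mul_comm] at h3) (by linarith : (0 : ℝ) < X.n + 2)
  linarith

theorem gH_le : X.gH ≤ X.n * X.v := by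
  have h1 := h.codazzi
  have h2 := h.A3_n
  have h3 := X.v_nonneg
  nlinarith

/-- `Bt` is orthogonal to `F` and `|HH + n F| ^ 2 = n ^ 2 e2`. -/
theorem HBt_le : ∑ k, (∑ c, X.HH c * X.Bt k c) ^ 2 ≤ (X.n : ℝ) ^ 2 * X.e2 * X.gH := by
  have h1 : ∑ c, (X.HH c + X.n * X.F c) * (X.HH c + X.n * X.F c) = (X.n : ℝ) ^ 2 * X.e2 := by
    have h2 : ∀ c, (X.HH c + X.n * X.F c) * (X.HH c + X.n * X.F c) =
        X.HH c * X.HH c + 2 * X.n * (X.HH c * X.F c) + (X.n : ℝ) ^ 2 * (X.F c * X.F c) :=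
      fun c => by ring
    have h3 : ∑ c, X.HH c * X.HH c = (X.n : ℝ) ^ 2 * (1 + X.e2) := h.W_eq
    simp only [h2, Finset.sum_add_distrib, ← Finset.mul_sum]
    rw [h3, h.HH_F, h.FF]
    ring
  rw [gH, Finset.mul_sum]
  refine Finset.sum_le_sum fun k _ => ?_
  have h4 : ∑ c, X.HH c * X.Bt k c = ∑ c, (X.HH c + X.n * X.F c) * X.Bt k c := by
    have h5 : ∀ c, (X.HH c + X.n * X.F c) * X.Bt k c =
        X.HH c * X.Bt k c + X.n * (X.Bt k c * X.F c) := fun c => by ring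
    simp only [h5, Finset.sum_add_distrib, ← Finset.mul_sum]
    rw [h.Bt_F, mul_zero, add_zero]
  rw [h4, ← h1]
  exact A3_cs _ _

theorem T0_le (p r : ι → ℝ) : ∑ c, (∑ a, ∑ b, p a * r b * X.T0 a b c) ^ 2 ≤
    X.u * (∑ a, p a ^ 2) * ∑ a, r a ^ 2 := by
  have h1 : ∑ a, ∑ b, p a * r b * (p a * r b) = (∑ a, p a ^ 2) * ∑ a, r a ^ 2 := by
    rw [Finset.sum_mul_sum]
    exact Finset.sum_congr rfl fun a _ => Finset.sum_congr rfl fun b _ => by ring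
  rw [h.u_eq, A3_rot, mul_assoc, Finset.sum_mul]
  refine Finset.sum_le_sum fun c _ => ?_
  rw [← h1, mul_comm]
  exact A3_cs2 (fun a b => p a * r b) fun a b => X.T0 a b c

end Good

end Pool.Agent.Lib.MP_de485e_gt.Hi.Arr
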