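import Pool.Agent.Lib.MP_de485e_gt.Hi.ADef

/-! From arrays to forms: existence and the quadratic quantities. -/

open scoped RealInnerProductSpace

namespace Pool.Agent.Lib.MP_de485e_gt.Hi.Arr

variable {ι : Type} [Fintype ι] {X : Arr ι ℝ}

private theorem Br1_inner (x y : EuclideanSpace ℝ ι) : ⟪x, y⟫ = dot x.ofLp y.ofLp := by
  rw [PiLp.inner_apply, dot]
  exact Finset.sum_congr rfl fun a _ => by simp [mul_comm]

private theorem Br1_comm (f g : ι → ℝ) : dot f g = dot g f :=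
  Finset.sum_congr rfl fun _ _ => mul_comm _ _

theorem inner_V (x y : X.Vt) : ⟪x, y⟫ = dot x.1.ofLp y.1.ofLp := Br1_inner x.1 y.1

theorem inner_N (x y : X.Nn) : ⟪x, y⟫ = dot x.1.ofLp y.1.ofLp := Br1_inner x.1 y.1

theorem UT_iff (x : X.Vt) : X.UT x.1.ofLp ↔ ‖x‖ = 1 := by
  rw [UT, ← inner_V, real_inner_self_eq_norm_sq, pow_eq_one_iff_of_nonneg (norm_nonneg _) two_ne_zero]
  exact ⟨fun h => h.2, fun h => ⟨x.2, h⟩⟩

theorem UN_iff (x : X.Nn) : X.UN x.1.ofLp ↔ ‖x‖ = 1 := by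
  rw [UN, ← inner_N, real_inner_self_eq_norm_sq, pow_eq_one_iff_of_nonneg (norm_nonneg _) two_ne_zero]
  exact ⟨fun h => h.2.2, fun h => ⟨x.2.1, x.2.2, h⟩⟩

theorem Tan.lift {e : ι → ℝ} (h : X.Tan e) : ∃ x : X.Vt, x.1.ofLp = e :=
  ⟨⟨WithLp.toLp 2 e, h⟩, rfl⟩

theorem UN.lift {ν : ι → ℝ} (h : X.UN ν) : ∃ x : X.Nn, x.1.ofLp = ν :=
  ⟨⟨WithLp.toLp 2 ν, h.1, h.2.1⟩, rfl⟩

/-- Pairing two vectors through the projector. -/
private theorem Br1_P (x : ι → ℝ) {y : ι → ℝ} (hy : X.Tan y) :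
    ∑ a, ∑ b, x a * y b * X.P a b = dot x y := by
  refine Finset.sum_congr rfl fun a _ => ?_
  rw [← hy a, Finset.mul_sum]
  exact Finset.sum_congr rfl fun b _ => by ring

/-- Contracting the last slot of a bilinear expression. -/
private theorem Br1_contr (x y w : ι → ℝ) (f : ι → ι → ι → ℝ) :
    ∑ c, (∑ a, ∑ b, x a * y b * f a b c) * w c = ∑ a, ∑ b, x a * y b * ∑ c, f a b c * w c := by
  simp only [Finset.sum_mul, Finset.mul_sum]
  rw [Finset.sum_comm]
  refine Finset.sum_congr rfl fun a _ => ?_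
  rw [Finset.sum_comm]
  exact Finset.sum_congr rfl fun b _ => Finset.sum_congr rfl fun c _ => by ring

private theorem Br1_mem (h : X.Good) (x y : X.Vt) :
    (WithLp.toLp 2 fun c => X.Tv x.1.ofLp y.1.ofLp c + dot x.1.ofLp y.1.ofLp * X.F c :
      EuclideanSpace ℝ ι) ∈ X.Nn := by
  constructor
  · intro d
    have e1 := Br1_contr x.1.ofLp y.1.ofLp (X.P d) X.T
    have e2 : ∀ a b, ∑ c, X.T a b c * X.P d c = 0 := fun a b => by
      rw [← h.Tnor a b d]
      exact Finset.sum_congr rfl fun c _ => mul_comm _ _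
    simp only [e2, mul_zero, Finset.sum_const_zero] at e1
    have e3 := h.Fnor d
    show ∑ c, X.P d c * (X.Tv x.1.ofLp y.1.ofLp c + dot x.1.ofLp y.1.ofLp * X.F c) = 0
    have e4 : ∑ c, X.P d c * (X.Tv x.1.ofLp y.1.ofLp c + dot x.1.ofLp y.1.ofLp * X.F c) =
        ∑ c, X.Tv x.1.ofLp y.1.ofLp c * X.P d c +
          dot x.1.ofLp y.1.ofLp * ∑ c, X.P d c * X.F c := by
      rw [Finset.mul_sum, ← Finset.sum_add_distrib]
      exact Finset.sum_congr rfl fun c _ => by ring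
    rw [e4, e3, mul_zero, add_zero]
    exact e1
  · have e1 := Br1_contr x.1.ofLp y.1.ofLp X.F X.T
    simp only [h.TF, mul_neg, Finset.sum_neg_distrib] at e1
    rw [Br1_P _ y.2] at e1
    show ∑ c, (X.Tv x.1.ofLp y.1.ofLp c + dot x.1.ofLp y.1.ofLp * X.F c) * X.F c = 0
    have e4 : ∑ c, (X.Tv x.1.ofLp y.1.ofLp c + dot x.1.ofLp y.1.ofLp * X.F c) * X.F c =
        ∑ c, X.Tv x.1.ofLp y.1.ofLp c * X.F c +
          dot x.1.ofLp y.1.ofLp * ∑ c, X.F c * X.F c := by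
      rw [Finset.mul_sum, ← Finset.sum_add_distrib]
      exact Finset.sum_congr rfl fun c _ => by ring
    rw [e4, h.FF, mul_one]
    have e5 : ∑ c, X.Tv x.1.ofLp y.1.ofLp c * X.F c = -dot x.1.ofLp y.1.ofLp := e1
    rw [e5, neg_add_cancel]

private theorem Br1_symm (h : X.Good) (x y : ι → ℝ) (c : ι) : X.Tv x y c = X.Tv y x c := by
  rw [Tv, Tv, Finset.sum_comm]
  exact Finset.sum_congr rfl fun a _ => Finset.sum_congr rfl fun b _ => by
    rw [h.Tsymm b a c]; ring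

private theorem Br1_compl (h : X.Good) {m : ℕ} (b : OrthonormalBasis (Fin m) ℝ X.Vt) (a c : ι) :
    ∑ i, (b i).1.ofLp a * (b i).1.ofLp c = X.P a c := by
  obtain ⟨x, hx⟩ := (h.Ptan c).lift
  have e1 := congrArg (fun v : X.Vt => v.1.ofLp a) (b.sum_repr' x)
  simp only [Submodule.coe_sum, Submodule.coe_smul, WithLp.ofLp_sum, WithLp.ofLp_smul,
    Finset.sum_apply, Pi.smul_apply, smul_eq_mul, inner_V, hx] at e1
  rw [← e1]
  refine Finset.sum_congr rfl fun i _ => ?_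
  have e2 : dot (b i).1.ofLp (fun a => X.P a c) = (b i).1.ofLp c := by
    rw [← (b i).2 c, dot]
    exact Finset.sum_congr rfl fun d _ => by rw [h.Psymm d c]; ring
  rw [e2, mul_comm]

private theorem Br1_unit {m : ℕ} (b : OrthonormalBasis (Fin m) ℝ X.Vt) (i : Fin m) :
    dot (b i).1.ofLp (b i).1.ofLp = 1 := ((UT_iff (b i)).2 (b.orthonormal.1 i)).2

/-- For any orthonormal basis of `Vt` the completeness relation holds; its trace gives the
dimension. -/
theorem Good.exists_br (h : X.Good) : ∃ S, X.Br S := by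
  have hm : Module.finrank ℝ X.Vt = X.n := by
    have e1 := h.trP
    simp only [← Br1_compl h (stdOrthonormalBasis ℝ X.Vt)] at e1
    rw [Finset.sum_comm] at e1
    have e2 : ∀ i, ∑ a, (stdOrthonormalBasis ℝ X.Vt i).1.ofLp a *
        (stdOrthonormalBasis ℝ X.Vt i).1.ofLp a = 1 := Br1_unit _
    simp only [e2, Finset.sum_const, Finset.card_univ, Fintype.card_fin, nsmul_eq_mul,
      mul_one] at e1
    exact_mod_cast e1
  let k : X.Vt → X.Vt → X.Nn := fun x y => ⟨_, Br1_mem h x y⟩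
  have hk : ∀ x y c, (k x y).1.ofLp c =
      X.Tv x.1.ofLp y.1.ofLp c + dot x.1.ofLp y.1.ofLp * X.F c := fun _ _ _ => rfl
  have ext : ∀ v w : X.Nn, (∀ c, v.1.ofLp c = w.1.ofLp c) → v = w := fun v w hvw =>
    Subtype.ext (PiLp.ext hvw)
  have ks : ∀ x y, k x y = k y x := fun x y => ext _ _ fun c => by
    rw [hk, hk, Br1_symm h, Br1_comm]
  have ka : ∀ x x' y, k (x + x') y = k x y + k x' y := fun x x' y => ext _ _ fun c => by
    simp only [Submodule.coe_add, PiLp.add_apply, hk, Tv, dot, add_mul, Finset.sum_add_distrib]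
    ring
  have km : ∀ (t : ℝ) x y, k (t • x) y = t • k x y := fun t x y => ext _ _ fun c => by
    simp only [Submodule.coe_smul, PiLp.smul_apply, hk, Tv, dot, smul_eq_mul, mul_add,
      Finset.mul_sum, Finset.sum_mul, mul_assoc]
  refine ⟨⟨h.hn, (stdOrthonormalBasis ℝ X.Vt).reindex (finCongr hm),
    LinearMap.mk₂ ℝ k ka km (fun x y y' => by rw [ks, ka, ks y, ks y'])
      (fun t x y => by rw [ks, km, ks y]), ks⟩, hk, Br1_compl h _⟩

namespace Br

variable {S : SF X.n X.Vt X.Nn} (r : X.Br S) (h : X.Good)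
include r h

/-- Sums over the basis are sums over the coordinates for tangential arrays. -/
theorem sum_b {f g : ι → ℝ} (hf : X.Tan f) :
    ∑ i, dot (S.b i).1.ofLp f * dot (S.b i).1.ofLp g = dot f g := by
  rw [Br1_comm f g, ← Br1_P g hf]
  simp only [← r.compl, dot, Finset.sum_mul, Finset.mul_sum]
  rw [Finset.sum_comm]
  refine Finset.sum_congr rfl fun a _ => ?_
  rw [Finset.sum_comm]
  exact Finset.sum_congr rfl fun b _ => Finset.sum_congr rfl fun i _ => by ring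

/-- Double sums over the basis. -/
private theorem sum_bb {f : ι → ι → ℝ} (h1 : ∀ b, X.Tan fun a => f a b) (h2 : ∀ a, X.Tan (f a)) :
    ∑ i, ∑ j, (∑ a, ∑ b, (S.b i).1.ofLp a * (S.b j).1.ofLp b * f a b) ^ 2 =
      ∑ a, ∑ b, f a b * f a b := by
  have e1 : ∀ x y : ι → ℝ, ∑ a, ∑ b, x a * y b * f a b = dot y fun b => dot x fun a => f a b := by
    intro x y
    simp only [dot, Finset.mul_sum]
    rw [Finset.sum_comm]
    exact Finset.sum_congr rfl fun b _ => Finset.sum_congr rfl fun a _ => by ring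
  have e2 : ∀ x : ι → ℝ, X.Tan fun b => dot x fun a => f a b := by
    intro x d
    simp only [dot, Finset.mul_sum]
    rw [Finset.sum_comm]
    refine Finset.sum_congr rfl fun a _ => ?_
    rw [← h2 a d, Finset.mul_sum]
    exact Finset.sum_congr rfl fun b _ => by ring
  simp only [e1, pow_two]
  rw [Finset.sum_congr rfl fun i _ => r.sum_b h (e2 (S.b i).1.ofLp)]
  show ∑ i, ∑ b, (dot (S.b i).1.ofLp fun a => f a b) * (dot (S.b i).1.ofLp fun a => f a b) = _
  rw [Finset.sum_comm, Finset.sum_congr rfl fun b _ => r.sum_b h (h1 b), Finset.sum_comm]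
  simp only [dot]

theorem inner_h (x y : X.Vt) (ξ : X.Nn) : ⟪S.h x y, ξ⟫ = X.Av ξ.1.ofLp x.1.ofLp y.1.ofLp := by
  have e1 : ∑ c, ξ.1.ofLp c * X.F c = 0 := ξ.2.2
  have e2 : ∑ c, (X.Tv x.1.ofLp y.1.ofLp c + dot x.1.ofLp y.1.ofLp * X.F c) * ξ.1.ofLp c =
      ∑ c, X.Tv x.1.ofLp y.1.ofLp c * ξ.1.ofLp c +
        dot x.1.ofLp y.1.ofLp * ∑ c, ξ.1.ofLp c * X.F c := by
    rw [Finset.mul_sum, ← Finset.sum_add_distrib]
    exact Finset.sum_congr rfl fun c _ => by ring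
  rw [inner_N, Av, dot, dot]
  simp only [r.h_eq]
  rw [e2, e1, mul_zero, add_zero]

theorem eta_eq (c : ι) : S.eta.1.ofLp c = (X.n : ℝ)⁻¹ * X.HH c + X.F c := by
  have hn : (X.n : ℝ) ≠ 0 := by
    have := h.hn
    positivity
  have e1 : ∑ i, X.Tv (S.b i).1.ofLp (S.b i).1.ofLp c = X.HH c := by
    rw [← h.P_T c]
    simp only [← r.compl, Tv, Finset.sum_mul]
    rw [Finset.sum_comm]
    refine Finset.sum_congr rfl fun a _ => ?_
    rw [Finset.sum_comm]
  simp only [SF.eta, Submodule.coe_sum, Submodule.coe_smul, WithLp.ofLp_sum, WithLp.ofLp_smul,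
    Finset.sum_apply, Pi.smul_apply, smul_eq_mul, r.h_eq, Br1_unit, Finset.sum_add_distrib, e1,
    one_mul, Finset.sum_const, Finset.card_univ, Fintype.card_fin, nsmul_eq_mul]
  field_simp

theorem e2_eq : S.e2 = X.e2 := by
  have hn : (X.n : ℝ) ≠ 0 := by
    have := h.hn
    positivity
  have e1 : ∑ c, ((X.n : ℝ)⁻¹ * X.HH c + X.F c) * ((X.n : ℝ)⁻¹ * X.HH c + X.F c) =
      ((X.n : ℝ) ^ 2)⁻¹ * ∑ c, X.HH c * X.HH c + 2 * (X.n : ℝ)⁻¹ * ∑ c, X.HH c * X.F c +
        ∑ c, X.F c * X.F c := by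
    rw [Finset.mul_sum, Finset.mul_sum, ← Finset.sum_add_distrib, ← Finset.sum_add_distrib]
    exact Finset.sum_congr rfl fun c _ => by ring
  rw [SF.e2, ← real_inner_self_eq_norm_sq, inner_N, dot]
  simp only [r.eta_eq h]
  rw [e1, h.HH_F, h.FF, e2, W, smul_eq_mul]
  field_simp
  ring

theorem h0_eq (x y : X.Vt) (c : ι) :
    (S.h0 x y).1.ofLp c = ∑ a, ∑ b, x.1.ofLp a * y.1.ofLp b * X.T0 a b c := by
  have e1 : ∑ a, ∑ b, x.1.ofLp a * y.1.ofLp b * X.T0 a b c = X.Tv x.1.ofLp y.1.ofLp c -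
      (∑ a, ∑ b, x.1.ofLp a * y.1.ofLp b * X.P a b) * ((X.n : ℝ)⁻¹ * X.HH c) := by
    simp only [Tv, T0, smul_eq_mul, Finset.sum_mul, ← Finset.sum_sub_distrib]
    exact Finset.sum_congr rfl fun a _ => Finset.sum_congr rfl fun b _ => by ring
  rw [e1, Br1_P _ y.2]
  simp only [SF.h0, Submodule.coe_sub, Submodule.coe_smul, PiLp.sub_apply, PiLp.smul_apply,
    smul_eq_mul, r.h_eq, r.eta_eq h, inner_V]
  ring

omit r in
private theorem T0_tan' (a c : ι) : X.Tan fun b => X.T0 a b c := by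
  simp only [h.T0_symm a]
  exact h.T0_tan a c

theorem u_eq : S.u = X.u := by
  rw [SF.u, h.u_eq]
  simp only [← real_inner_self_eq_norm_sq, inner_N, dot, r.h0_eq h, ← pow_two]
  rw [Finset.sum_congr rfl fun i _ => Finset.sum_comm, Finset.sum_comm,
    Finset.sum_congr rfl fun c _ => sum_bb r h (f := fun a b => X.T0 a b c)
      (fun b => h.T0_tan b c) (fun a => T0_tan' h a c), Finset.sum_comm]
  refine Finset.sum_congr rfl fun a _ => ?_
  rw [Finset.sum_comm]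
  simp only [pow_two]

omit r h in
private theorem tan_contr {f : ι → ι → ℝ} (hf : ∀ c, X.Tan fun a => f a c) (w : ι → ℝ) :
    X.Tan fun a => ∑ c, f a c * w c := by
  intro d
  simp only [Finset.mul_sum]
  rw [Finset.sum_comm]
  refine Finset.sum_congr rfl fun c _ => ?_
  have e1 : ∑ b, X.P d b * f b c = f d c := hf c d
  rw [← e1, Finset.sum_mul]
  exact Finset.sum_congr rfl fun b _ => by ring

theorem zeta_eq : S.zeta = X.zeta := by
  have e1 : ∀ x y : X.Vt, ⟪S.h0 x y, S.eta⟫ =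
      (X.n : ℝ)⁻¹ * ∑ a, ∑ b, x.1.ofLp a * y.1.ofLp b * X.AH a b := by
    intro x y
    rw [inner_N, dot]
    simp only [r.h0_eq h, r.eta_eq h]
    rw [Br1_contr]
    simp only [Finset.mul_sum (a := (X.n : ℝ)⁻¹)]
    refine Finset.sum_congr rfl fun a _ => Finset.sum_congr rfl fun b _ => ?_
    have e2 : ∑ c, X.T0 a b c * ((X.n : ℝ)⁻¹ * X.HH c + X.F c) =
        (X.n : ℝ)⁻¹ * X.AH a b + ∑ c, X.T0 a b c * X.F c := by
      rw [AH, Finset.mul_sum, ← Finset.sum_add_distrib]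
      exact Finset.sum_congr rfl fun c _ => by ring
    rw [e2, h.T0_F]
    ring
  rw [SF.zeta, SF.uD, zeta, smul_eq_mul]
  simp only [e1, mul_pow, ← Finset.mul_sum]
  rw [sum_bb r h (f := X.AH) (fun b => tan_contr (fun c => h.T0_tan b c) X.HH)
    (fun a => tan_contr (fun c => T0_tan' h a c) X.HH)]
  ring

theorem Re_eq : S.Re = X.Re := by
  rw [SF.Re, Re, r.e2_eq h, r.zeta_eq h]

theorem A2_eq (ν : X.Nn) : S.A2 ν = X.A2 ν.1.ofLp := by
  have e1 : ∀ x y : X.Vt, ⟪S.h x y, ν⟫ =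
      ∑ a, ∑ b, x.1.ofLp a * y.1.ofLp b * X.Am ν.1.ofLp a b := fun x y => by
    rw [r.inner_h h]
    exact Br1_contr _ _ _ _
  rw [SF.A2, A2]
  simp only [e1]
  rw [sum_bb r h (f := X.Am ν.1.ofLp) (fun b => tan_contr (fun c => h.Ttan b c) _)
    (fun a => tan_contr (fun c => h.Ttan' a c) _)]
  simp only [pow_two]

theorem K_iff (p : Par X.n) : S.K p ↔ X.K p := by
  constructor
  · intro k ν e e' hν he he'
    obtain ⟨ν, rfl⟩ := hν.lift
    obtain ⟨e, rfl⟩ := he.1.lift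
    obtain ⟨e', rfl⟩ := he'.1.lift
    have := k ν e e' ((UN_iff ν).1 hν) ((UT_iff e).1 he) ((UT_iff e').1 he')
    rwa [r.inner_h h, r.inner_h h, r.e2_eq h, r.u_eq h] at this
  · intro k ν e e' hν he he'
    rw [r.inner_h h, r.inner_h h, r.e2_eq h, r.u_eq h]
    exact k _ _ _ ((UN_iff ν).2 hν) ((UT_iff e).2 he) ((UT_iff e').2 he')

theorem tch {p : Par X.n} {ν : X.Nn} {e e' : X.Vt} {a b : ℝ}
    (t : X.Tch p ν.1.ofLp e.1.ofLp e'.1.ofLp a b) : S.Tch p ν e e' a b :=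
  ⟨(r.K_iff h p).2 t.K, (UN_iff ν).1 t.hν, (UT_iff e).1 t.he, (UT_iff e').1 t.he',
    (r.inner_h h _ _ _).trans t.ha, (r.inner_h h _ _ _).trans t.hb, t.le,
    by rw [r.e2_eq h, r.u_eq h]; exact t.eq⟩

end Br

end Pool.Agent.Lib.MP_de485e_gt.Hi.Arr
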