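import Pool.Agent.Lib.MP_de485e_gt.Hi.Br1

/-! From arrays to forms: the cubic and quartic quantities. -/

open scoped RealInnerProductSpace

namespace Pool.Agent.Lib.MP_de485e_gt.Hi.Arr.Br

section mat

open Matrix

variable {ι m : Type} [Fintype ι] [Fintype m]

omit [Fintype m] in
theorem Br2_app (B : Matrix m ι ℝ) (f : Matrix ι ι ℝ) (i j : m) :
    (B * f * Bᵀ) i j = ∑ a, ∑ b, B i a * B j b * f a b := by
  simp only [mul_apply, transpose_apply, Finset.sum_mul]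
  rw [Finset.sum_comm]
  exact Finset.sum_congr rfl fun a _ => Finset.sum_congr rfl fun b _ => by ring

theorem Br2_tr (M N : Matrix m m ℝ) : ∑ i, ∑ j, M i j * N i j = trace (M * Nᵀ) := by
  simp only [trace, diag_apply, mul_apply, transpose_apply]

theorem Br2_mul (B : Matrix m ι ℝ) {f : Matrix ι ι ℝ} (g : Matrix ι ι ℝ)
    (hf : f * (Bᵀ * B) = f) : B * f * Bᵀ * (B * g * Bᵀ) = B * (f * g) * Bᵀ := by
  conv_rhs => rw [← hf]
  simp only [Matrix.mul_assoc]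

theorem Br2_trace (B : Matrix m ι ℝ) {f : Matrix ι ι ℝ} (hf : Bᵀ * B * f = f) :
    trace (B * f * Bᵀ) = trace f := by
  rw [trace_mul_comm, ← Matrix.mul_assoc, hf]

omit [Fintype m] in
theorem Br2_tp (B : Matrix m ι ℝ) (f : Matrix ι ι ℝ) : (B * f * Bᵀ)ᵀ = B * fᵀ * Bᵀ := by
  simp only [transpose_mul, transpose_transpose, Matrix.mul_assoc]

theorem Br2_two (B : Matrix m ι ℝ) {f : Matrix ι ι ℝ} (g : Matrix ι ι ℝ)
    (h1 : Bᵀ * B * f = f) (h2 : f * (Bᵀ * B) = f) :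
    ∑ i, ∑ j, (B * f * Bᵀ) i j * (B * g * Bᵀ) i j = ∑ a, ∑ b, f a b * g a b := by
  rw [Br2_tr, Br2_tr, Br2_tp, Br2_mul B _ h2, Br2_trace B (by rw [← Matrix.mul_assoc, h1])]

theorem Br2_out (F : ι → ι → m → m → m → m → ℝ) :
    ∑ i, ∑ j, ∑ k, ∑ l, ∑ c, ∑ e, F c e i j k l = ∑ c, ∑ e, ∑ i, ∑ j, ∑ k, ∑ l, F c e i j k l := by
  have h1 : ∀ G : m → ι → ι → ℝ, ∑ i, ∑ c, ∑ e, G i c e = ∑ c, ∑ e, ∑ i, G i c e := fun G => by
    rw [Finset.sum_comm]
    exact Finset.sum_congr rfl fun c _ => Finset.sum_comm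
  simp only [h1]

theorem Br2_G (A : ι → Matrix m m ℝ) :
    ∑ i, ∑ j, ∑ k, ∑ l, (∑ c, A c i j * A c k l) ^ 2 =
      ∑ c, ∑ e, (∑ i, ∑ j, A c i j * A e i j) * ∑ i, ∑ j, A c i j * A e i j := by
  simp only [sq, Finset.sum_mul_sum]
  rw [Br2_out fun c e i j k l => A c i j * A c k l * (A e i j * A e k l)]
  refine Finset.sum_congr rfl fun c _ => Finset.sum_congr rfl fun e _ =>
    Finset.sum_congr rfl fun i _ => ?_
  rw [Finset.sum_comm]
  exact Finset.sum_congr rfl fun k _ => Finset.sum_congr rfl fun j _ =>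
    Finset.sum_congr rfl fun l _ => by ring

theorem Br2_J (A : ι → Matrix m m ℝ) :
    ∑ i, ∑ j, ∑ k, ∑ l, (∑ c, A c i j * A c k l) * ∑ e, A e i k * A e j l =
      ∑ c, ∑ e, trace ((A c)ᵀ * A e * (A c * (A e)ᵀ)) := by
  simp only [Finset.sum_mul_sum]
  rw [Br2_out fun c e i j k l => A c i j * A c k l * (A e i k * A e j l)]
  refine Finset.sum_congr rfl fun c _ => Finset.sum_congr rfl fun e _ => ?_
  simp only [trace, diag_apply, mul_apply, transpose_apply, Finset.sum_mul_sum]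
  rw [Finset.sum_comm]
  refine Finset.sum_congr rfl fun j _ => ?_
  rw [Finset.sum_comm]
  exact Finset.sum_congr rfl fun k _ => Finset.sum_congr rfl fun i _ =>
    Finset.sum_congr rfl fun l _ => by ring

theorem Br2_four (B : Matrix m ι ℝ) {f g : Matrix ι ι ℝ} (h1 : Bᵀ * B * f = f)
    (h2 : f * (Bᵀ * B) = f) (h3 : g * (Bᵀ * B) = g) :
    trace ((B * f * Bᵀ)ᵀ * (B * g * Bᵀ) * (B * f * Bᵀ * (B * g * Bᵀ)ᵀ)) =
      trace (fᵀ * g * (f * gᵀ)) := by
  have h4 : fᵀ * (Bᵀ * B) = fᵀ := by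
    conv_rhs => rw [← h1]
    simp only [transpose_mul, transpose_transpose]
  have h5 : Bᵀ * B * fᵀ = fᵀ := by
    conv_rhs => rw [← h2]
    simp only [transpose_mul, transpose_transpose]
  rw [Br2_tp, Br2_tp, Br2_mul B _ h4, Br2_mul B _ h2,
    Br2_mul B _ (by rw [Matrix.mul_assoc, h3]),
    Br2_trace B (by rw [← Matrix.mul_assoc (Bᵀ * B), ← Matrix.mul_assoc (Bᵀ * B), h5])]

end mat

variable {ι : Type} [Fintype ι] {X : Arr ι ℝ} {S : SF X.n X.Vt X.Nn} (r : X.Br S) (h : X.Good)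

/-- The coordinates of the basis. -/
noncomputable def Br2_B (S : SF X.n X.Vt X.Nn) : Matrix (Fin X.n) ι ℝ :=
  Matrix.of fun i a => (S.b i).1.ofLp a

/-- The components of an array in the basis. -/
noncomputable def Br2_c (S : SF X.n X.Vt X.Nn) (f : ι → ι → ℝ) : Matrix (Fin X.n) (Fin X.n) ℝ :=
  Br2_B S * Matrix.of f * (Br2_B S).transpose

theorem Br2_c_apply (S : SF X.n X.Vt X.Nn) (f : ι → ι → ℝ) (i j : Fin X.n) :
    Br2_c S f i j = ∑ a, ∑ b, (S.b i).1.ofLp a * (S.b j).1.ofLp b * f a b :=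
  Br2_app _ _ i j

include r in
theorem Br2_l {f : ι → ι → ℝ} (hf : ∀ b, X.Tan fun a => f a b) :
    (Br2_B S).transpose * Br2_B S * Matrix.of f = Matrix.of f := by
  ext a b
  simp only [Matrix.mul_apply, Matrix.transpose_apply, Br2_B, Matrix.of_apply, r.compl]
  exact hf b a

include r h

theorem Br2_r {f : ι → ι → ℝ} (hf : ∀ a, X.Tan (f a)) :
    Matrix.of f * ((Br2_B S).transpose * Br2_B S) = Matrix.of f := by
  ext a b
  simp only [Matrix.mul_apply, Matrix.transpose_apply, Br2_B, Matrix.of_apply, r.compl]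
  rw [← hf a b]
  exact Finset.sum_congr rfl fun c _ => by rw [h.Psymm c b, mul_comm]

theorem Br2_sum {f : ι → ι → ℝ} (g : ι → ι → ℝ) (h1 : ∀ b, X.Tan fun a => f a b)
    (h2 : ∀ a, X.Tan (f a)) :
    ∑ i, ∑ j, Br2_c S f i j * Br2_c S g i j = ∑ a, ∑ b, f a b * g a b :=
  Br2_two _ _ (Br2_l r h1) (Br2_r r h h2)

omit r in
theorem Br2_tan (a c : ι) : X.Tan fun b => X.T0 a b c := by
  simp only [h.T0_symm a]
  exact h.T0_tan a c

theorem Br2_h0 (i j : Fin X.n) (c : ι) :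
    (S.h0 (S.b i) (S.b j)).1.ofLp c = Br2_c S (fun a b => X.T0 a b c) i j := by
  rw [r.h0_eq h, Br2_c_apply]

theorem Br2_inner (i j k l : Fin X.n) : ⟪S.h0 (S.b i) (S.b j), S.h0 (S.b k) (S.b l)⟫ =
    ∑ c, Br2_c S (fun a b => X.T0 a b c) i j * Br2_c S (fun a b => X.T0 a b c) k l := by
  simp only [inner_N, dot, Br2_h0 r h]

theorem G2_eq : S.G2 = X.G2 := by
  simp only [SF.G2, Br2_inner r h]
  rw [Br2_G fun c => Br2_c S fun a b => X.T0 a b c]
  simp only [fun c e => Br2_sum r h (f := fun a b => X.T0 a b c) (fun a b => X.T0 a b e)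
    (fun b => h.T0_tan b c) (fun a => Br2_tan h a c)]
  rfl

theorem Br2_M0 (i k : Fin X.n) : S.M0 i k = Br2_c S X.M0 i k := by
  have h1 : Matrix.of X.M0 =
      ∑ c, (Matrix.of fun a b => X.T0 a b c) * (Matrix.of fun a b => X.T0 a b c).transpose := by
    ext a d
    simp only [Matrix.sum_apply, Matrix.mul_apply, Matrix.transpose_apply, Matrix.of_apply, M0]
    exact Finset.sum_comm
  simp only [SF.M0, Br2_inner r h]
  rw [Finset.sum_comm, Br2_c, h1, Matrix.mul_sum, Matrix.sum_mul, Matrix.sum_apply]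
  refine Finset.sum_congr rfl fun c _ => ?_
  rw [← Br2_mul _ _ (Br2_r r h fun a => Br2_tan h a c), ← Br2_tp]
  rfl

theorem M0_eq (i k : Fin X.n) :
    S.M0 i k = ∑ a, ∑ d, (S.b i).1.ofLp a * (S.b k).1.ofLp d * X.M0 a d := by
  rw [Br2_M0 r h, Br2_c_apply]

theorem J0_eq : S.J0 = X.J0 := by
  simp only [SF.J0, Br2_inner r h]
  rw [Br2_J fun c => Br2_c S fun a b => X.T0 a b c]
  refine Eq.trans ?_ (Br2_J fun c => Matrix.of fun a b => X.T0 a b c).symm
  exact Finset.sum_congr rfl fun c _ => Finset.sum_congr rfl fun e _ =>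
    Br2_four _ (Br2_l r fun b => h.T0_tan b c) (Br2_r r h fun a => Br2_tan h a c)
      (Br2_r r h fun a => Br2_tan h a e)

omit r h in
theorem Br2_tan_sum {κ : Type} [Fintype κ] {f : κ → ι → ℝ} (w : κ → ℝ) (hf : ∀ k, X.Tan (f k)) :
    X.Tan fun a => ∑ k, f k a * w k := fun a => by
  simp only [Finset.mul_sum, ← mul_assoc]
  rw [Finset.sum_comm]
  exact Finset.sum_congr rfl fun k _ => by rw [← Finset.sum_mul, hf k a]

omit r in
theorem Br2_M0_tan (d : ι) : X.Tan fun a => X.M0 a d := by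
  have := Br2_tan_sum (X := X) (f := fun (k : ι × ι) a => X.T0 a k.1 k.2)
    (fun k => X.T0 d k.1 k.2) fun k => h.T0_tan k.1 k.2
  simp only [Fintype.sum_prod_type] at this
  exact this

omit r in
theorem Br2_M0_tan' (a : ι) : X.Tan (X.M0 a) := by
  have h1 : X.M0 a = fun d => X.M0 d a := funext fun d =>
    Finset.sum_congr rfl fun b _ => Finset.sum_congr rfl fun e _ => mul_comm _ _
  rw [h1]
  exact Br2_M0_tan h a

theorem CC_eq : S.CC = X.CC := by
  simp only [SF.CC, CC, J0_eq r h, Br2_M0 r h, sq,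
    Br2_sum r h X.M0 (Br2_M0_tan h) (Br2_M0_tan' h)]

theorem Br2_eta (i k : Fin X.n) :
    X.n * ⟪S.h0 (S.b i) (S.b k), S.eta⟫ = Br2_c S X.AH i k := by
  have hn : (X.n : ℝ) ≠ 0 := Nat.cast_ne_zero.2 (by have := h.hn; omega)
  have h1 : ∀ a b, X.AH a b = X.n * ∑ c, X.T0 a b c * ((X.n : ℝ)⁻¹ * X.HH c + X.F c) :=
    fun a b => by
      simp only [mul_add, Finset.sum_add_distrib, h.T0_F, add_zero, AH, Finset.mul_sum]
      exact Finset.sum_congr rfl fun c _ => by field_simp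
  simp only [inner_N, dot, r.h0_eq h, r.eta_eq h, Br2_c_apply, h1, Finset.mul_sum, Finset.sum_mul]
  rw [Finset.sum_comm]
  refine Finset.sum_congr rfl fun a _ => ?_
  rw [Finset.sum_comm]
  exact Finset.sum_congr rfl fun b _ => Finset.sum_congr rfl fun c _ => by ring

theorem cub_eq : X.n * S.cub = ∑ a, ∑ d, X.AH a d * X.M0 a d := by
  simp only [SF.cub, Finset.mul_sum, ← mul_assoc, Br2_eta r h, Br2_M0 r h]
  simp only [mul_comm (Br2_c S X.AH _ _), mul_comm (X.AH _ _)]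
  exact Br2_sum r h X.AH (Br2_M0_tan h) (Br2_M0_tan' h)

theorem Zs_eq : S.Zs = X.Zs := by
  rw [SF.Zs, Zs, cub_eq r h, G2_eq r h, CC_eq r h, r.e2_eq h, r.u_eq h]

theorem Ru_eq : S.Ru = X.Ru := by
  rw [SF.Ru, Ru, G2_eq r h, CC_eq r h, r.zeta_eq h, r.u_eq h]

omit r in
theorem Br2_TvF {x : ι → ℝ} (y : ι → ℝ) (hx : X.Tan x) :
    ∑ c, X.Tv x y c * X.F c = -dot x y := by
  simp only [Tv, Finset.sum_mul]
  rw [Finset.sum_comm]
  have h1 : ∀ a, ∑ c, ∑ b, x a * y b * X.T a b c * X.F c = -∑ b, y b * (X.P b a * x a) :=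
    fun a => by
      rw [Finset.sum_comm, ← Finset.sum_neg_distrib]
      refine Finset.sum_congr rfl fun b _ => ?_
      simp only [mul_assoc, ← Finset.mul_sum, h.TF, h.Psymm b a]
      ring
  simp only [h1, Finset.sum_neg_distrib]
  rw [Finset.sum_comm]
  have h2 : ∀ a, ∑ b, X.P a b * x b = x a := hx
  simp only [← Finset.mul_sum, h2]
  simp only [dot, mul_comm]

theorem Br2_he (e : X.Vt) (j k : Fin X.n) : ⟪S.h e (S.b j), S.h e (S.b k)⟫ =
    Br2_c S (fun d f => X.Qe e.1.ofLp d f - e.1.ofLp d * e.1.ofLp f) j k := by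
  have h1 : ∑ c, X.Tv e.1.ofLp (S.b j).1.ofLp c * X.Tv e.1.ofLp (S.b k).1.ofLp c =
      ∑ d, ∑ f, (S.b j).1.ofLp d * (S.b k).1.ofLp f * X.Qe e.1.ofLp d f := by
    have h2 : ∀ (y : ι → ℝ) c, X.Tv e.1.ofLp y c = ∑ d, y d * ∑ a, e.1.ofLp a * X.T a d c :=
      fun y c => by
        simp only [Tv, Finset.mul_sum]
        rw [Finset.sum_comm]
        exact Finset.sum_congr rfl fun d _ => Finset.sum_congr rfl fun a _ => by ring
    have h7 : ∀ (x y : ι → ℝ) (Q : ι → ι → ℝ), ∑ c, (∑ d, x d * Q d c) * ∑ f, y f * Q f c =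
        ∑ d, ∑ f, x d * y f * ∑ c, Q d c * Q f c := fun x y Q => by
      simp only [Finset.sum_mul_sum]
      simp only [Finset.mul_sum]
      rw [Finset.sum_comm]
      refine Finset.sum_congr rfl fun d _ => ?_
      rw [Finset.sum_comm]
      exact Finset.sum_congr rfl fun f _ => Finset.sum_congr rfl fun c _ => by ring
    simp only [h2, Qe]
    exact h7 _ _ fun d c => ∑ a, e.1.ofLp a * X.T a d c
  have h3 : dot e.1.ofLp (S.b j).1.ofLp * dot e.1.ofLp (S.b k).1.ofLp =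
      ∑ d, ∑ f, (S.b j).1.ofLp d * (S.b k).1.ofLp f * (e.1.ofLp d * e.1.ofLp f) := by
    simp only [dot, Finset.sum_mul_sum]
    exact Finset.sum_congr rfl fun d _ => Finset.sum_congr rfl fun f _ => by ring
  have h4 := Br2_TvF h (S.b j).1.ofLp e.2
  have h5 := Br2_TvF h (S.b k).1.ofLp e.2
  have h6 : ∀ c, (S.h e (S.b j)).1.ofLp c * (S.h e (S.b k)).1.ofLp c =
      X.Tv e.1.ofLp (S.b j).1.ofLp c * X.Tv e.1.ofLp (S.b k).1.ofLp c +
      dot e.1.ofLp (S.b k).1.ofLp * (X.Tv e.1.ofLp (S.b j).1.ofLp c * X.F c) +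
      dot e.1.ofLp (S.b j).1.ofLp * (X.Tv e.1.ofLp (S.b k).1.ofLp c * X.F c) +
      dot e.1.ofLp (S.b j).1.ofLp * dot e.1.ofLp (S.b k).1.ofLp * (X.F c * X.F c) := fun c => by
    rw [r.h_eq, r.h_eq]
    ring
  rw [inner_N, dot, Br2_c_apply]
  simp only [h6, Finset.sum_add_distrib, ← Finset.mul_sum, h4, h5, h.FF, mul_sub,
    Finset.sum_sub_distrib]
  rw [h1, ← h3]
  ring

omit r in
theorem Br2_Qe_tan (e : X.Vt) (f : ι) :
    X.Tan fun d => X.Qe e.1.ofLp d f - e.1.ofLp d * e.1.ofLp f := fun d => by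
  have h1 : ∀ c, X.Tan fun d => ∑ a, e.1.ofLp a * X.T a d c := fun c => by
    simp only [mul_comm (e.1.ofLp _)]
    exact Br2_tan_sum (f := fun a d => X.T a d c) _ fun a => h.Ttan' a c
  have h2 : X.Tan fun d => X.Qe e.1.ofLp d f :=
    Br2_tan_sum (f := fun c d => ∑ a, e.1.ofLp a * X.T a d c) _ h1
  have h3 : ∑ b, X.P d b * e.1.ofLp b = e.1.ofLp d := e.2 d
  simp only [mul_sub, Finset.sum_sub_distrib, h2 d, ← mul_assoc, ← Finset.sum_mul, h3]

omit r in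
theorem Br2_Qe_tan' (e : X.Vt) (d : ι) :
    X.Tan fun f => X.Qe e.1.ofLp d f - e.1.ofLp d * e.1.ofLp f := by
  have h1 : ∀ f, X.Qe e.1.ofLp d f = X.Qe e.1.ofLp f d := fun f =>
    Finset.sum_congr rfl fun c _ => mul_comm _ _
  simp only [h1, mul_comm (e.1.ofLp d)]
  exact Br2_Qe_tan h e d

omit r h in
theorem Br2_Av (ξ x y : ι → ℝ) : X.Av ξ x y = ∑ a, ∑ b, x a * y b * X.Am ξ a b := by
  simp only [Av, dot, Tv, Am, Finset.sum_mul, Finset.mul_sum]
  rw [Finset.sum_comm]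
  refine Finset.sum_congr rfl fun a _ => ?_
  rw [Finset.sum_comm]
  exact Finset.sum_congr rfl fun b _ => Finset.sum_congr rfl fun c _ => by ring

/-- `T e d = h e d - e d • F`, so `Qe` is the Gram array of `h e` plus `e d * e f`. -/
theorem Ce_eq (ν : X.Nn) {e : X.Vt} (he : ‖e‖ = 1) {a : ℝ} (ha : ⟪S.h e e, ν⟫ = a) :
    S.Ce ν e a = X.Ce ν.1.ofLp e.1.ofLp a := by
  have h1 : ∑ d, e.1.ofLp d * e.1.ofLp d = 1 := ((UT_iff e).2 he).2
  have h2 : ∑ j, ‖S.h e (S.b j)‖ ^ 2 = ∑ d, X.Qe e.1.ofLp d d - 1 := by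
    simp only [← real_inner_self_eq_norm_sq, Br2_he r h]
    rw [← h1, ← Finset.sum_sub_distrib]
    exact Br2_trace _ (Br2_l r (Br2_Qe_tan h e))
  have h3 : ∀ j k, ⟪S.h (S.b j) (S.b k), ν⟫ = Br2_c S (X.Am ν.1.ofLp) j k := fun j k => by
    rw [r.inner_h h, Br2_Av, Br2_c_apply]
  have h4 := Br2_sum r h (X.Am ν.1.ofLp) (Br2_Qe_tan h e) (Br2_Qe_tan' h e)
  rw [r.inner_h h, Br2_Av] at ha
  simp only [sub_mul, Finset.sum_sub_distrib, ha] at h4
  simp only [SF.Ce, Ce, h2, h3, Br2_he r h, mul_comm (Br2_c S (X.Am ν.1.ofLp) _ _), h4,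
    mul_comm (X.Am ν.1.ofLp _ _)]
  ring

/-- `T e e = (h e e - a ν) + a ν - F`, `ν G ν = A2`, `F G ν = -n ⟪eta, ν⟫`. -/
theorem Gn_eq (ν : X.Nn) : ∃ γ : X.Nn, ∀ e : X.Vt, ‖e‖ = 1 → ∀ a : ℝ,
    X.Gn ν.1.ofLp (X.Tv e.1.ofLp e.1.ofLp) =
      ⟪S.h e e - a • ν, γ⟫ + a * S.A2 ν + X.n * ⟪S.eta, ν⟫ := by
  have hn : (X.n : ℝ) ≠ 0 := Nat.cast_ne_zero.2 (by have := h.hn; omega)
  set g : ι → ℝ := fun c => ∑ e, X.G c e * ν.1.ofLp e with hg
  have h1 : ∀ w : ι → ℝ, dot w g = ∑ a, ∑ b, X.Am w a b * X.Am ν.1.ofLp a b := fun w => by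
    simp only [dot, hg, G, Am, Finset.sum_mul_sum]
    simp only [Finset.sum_mul, Finset.mul_sum]
    have h7 : ∀ F : ι → ι → ι → ι → ℝ, ∑ c, ∑ e, ∑ a, ∑ b, F c e a b =
        ∑ a, ∑ b, ∑ c, ∑ e, F c e a b := fun F => by
      have := Finset.sum_comm (s := Finset.univ) (t := Finset.univ)
        (f := fun (x : ι × ι) (y : ι × ι) => F x.1 x.2 y.1 y.2)
      simpa only [Fintype.sum_prod_type] using this
    rw [h7]
    exact Finset.sum_congr rfl fun a _ => Finset.sum_congr rfl fun b _ =>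
      Finset.sum_congr rfl fun c _ => Finset.sum_congr rfl fun e _ => by ring
  have h2 : X.Nrm g := fun a => by
    simp only [hg, Finset.mul_sum, ← mul_assoc]
    rw [Finset.sum_comm]
    refine Finset.sum_eq_zero fun e _ => ?_
    simp only [← Finset.sum_mul, Good.G_symm _ e]
    rw [h.G_nrm e a, zero_mul]
  have h3 : dot X.F g = -(X.n * ⟪S.eta, ν⟫) := by
    have h4 : dot X.F ν.1.ofLp = 0 := by
      rw [← ν.2.2]
      exact Finset.sum_congr rfl fun c _ => mul_comm _ _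
    have h5 : ∀ a b, X.Am X.F a b = -X.P a b := h.TF
    have h6 : ⟪S.eta, ν⟫ = (X.n : ℝ)⁻¹ * dot X.HH ν.1.ofLp + dot X.F ν.1.ofLp := by
      simp only [inner_N, dot, r.eta_eq h, add_mul, Finset.sum_add_distrib, Finset.mul_sum,
        mul_assoc]
    rw [h1, h6, h4, add_zero, mul_inv_cancel_left₀ hn]
    simp only [h5]
    simp only [Am, dot, ← h.P_T, Finset.sum_mul, Finset.mul_sum, neg_mul, Finset.sum_neg_distrib,
      mul_assoc]
    congr 1
    rw [eq_comm, Finset.sum_comm]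
    exact Finset.sum_congr rfl fun a _ => Finset.sum_comm
  refine ⟨⟨WithLp.toLp 2 fun c => g c - dot X.F g * X.F c, fun a => ?_, ?_⟩, fun e he a => ?_⟩
  · simp only [mul_sub, Finset.sum_sub_distrib, h2 a, mul_left_comm _ (dot X.F g),
      ← Finset.mul_sum, h.Fnor a, mul_zero, sub_zero]
  · simp only [dot, sub_mul, Finset.sum_sub_distrib, mul_assoc, ← Finset.mul_sum, h.FF, mul_one,
      mul_comm (g _), sub_self]
  have h8 : dot e.1.ofLp e.1.ofLp = 1 := ((UT_iff e).2 he).2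
  have h9 : dot (S.h e e - a • ν).1.ofLp X.F = 0 := (S.h e e - a • ν).2.2
  have h10 : ∀ c, X.Tv e.1.ofLp e.1.ofLp c =
      (S.h e e - a • ν).1.ofLp c + a * ν.1.ofLp c - X.F c := fun c => by
    have := r.h_eq e e c
    simp only [Submodule.coe_sub, Submodule.coe_smul, PiLp.sub_apply, PiLp.smul_apply,
      smul_eq_mul, this, h8]
    ring
  have h11 : X.Gn ν.1.ofLp (X.Tv e.1.ofLp e.1.ofLp) =
      dot (S.h e e - a • ν).1.ofLp g + a * dot ν.1.ofLp g - dot X.F g := by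
    simp only [Gn, mul_assoc, ← Finset.mul_sum, h10, dot, sub_mul, add_mul, Finset.sum_sub_distrib,
      Finset.sum_add_distrib, hg]
  have h12 : dot (S.h e e - a • ν).1.ofLp (fun c => g c - dot X.F g * X.F c) =
      dot (S.h e e - a • ν).1.ofLp g := by
    generalize (S.h e e - a • ν).1.ofLp = w at h9
    generalize dot X.F g = t
    simp only [dot] at h9
    simp only [dot, mul_sub, Finset.sum_sub_distrib, mul_left_comm _ t, ← Finset.mul_sum, h9,
      mul_zero, sub_zero]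
  rw [inner_N, h11]
  dsimp only
  rw [h12, h3, h1 ν.1.ofLp, r.A2_eq h, A2]
  simp only [sq, sub_neg_eq_add]

end Pool.Agent.Lib.MP_de485e_gt.Hi.Arr.Br
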