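import Pool.Agent.Lib.MP_de485e_gt.Hi.Br1

/-! The dimension of the normal space. -/

open scoped RealInnerProductSpace

namespace Pool.Agent.Lib.MP_de485e_gt.Hi.Arr

variable {ι : Type} [Fintype ι] {X : Arr ι ℝ}

private theorem Br4_orth (h : X.Good) {y : EuclideanSpace ℝ ι} (hy : X.Nrm y.ofLp) :
    y ∈ X.Vtᗮ := by
  rw [Submodule.mem_orthogonal]
  intro x hx
  rw [PiLp.inner_apply, ← h.tn (f := x.ofLp) hx hy]
  exact Finset.sum_congr rfl fun a _ => by simp [mul_comm]

/-- `Vt` has the basis `S.b`, and `Vt`, `Nn` and the line of `F` are mutually orthogonal. -/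
theorem Good.finrank_Nn (h : X.Good) {S : SF X.n X.Vt X.Nn} (r : X.Br S) :
    Module.finrank ℝ X.Nn ≤ Fintype.card ι - X.n - 1 := by
  have h1 : Module.finrank ℝ X.Vt = X.n := by
    rw [Module.finrank_eq_card_basis S.b.toBasis, Fintype.card_fin]
  have h2 : X.Nn < X.Vtᗮ := by
    refine lt_of_le_of_ne (fun y hy => Br4_orth h hy.1) fun e => ?_
    have h3 : (WithLp.toLp 2 X.F : EuclideanSpace ℝ ι) ∈ X.Nn := e ▸ Br4_orth h h.Fnor
    have h4 : ∑ a, X.F a * X.F a = 0 := h3.2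
    rw [h.FF] at h4
    exact one_ne_zero h4
  have h5 := Submodule.finrank_lt_finrank_of_lt h2
  have h6 := X.Vt.finrank_add_finrank_orthogonal
  rw [h1, finrank_euclideanSpace] at h6
  omega

end Pool.Agent.Lib.MP_de485e_gt.Hi.Arr
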