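import Pool.Agent.Lib.MP_de485e_gt.Hi.P5

/-! The reaction of the pinching quotient and the Simons term. -/

open scoped RealInnerProductSpace

namespace Pool.Agent.Lib.MP_de485e_gt.Hi

variable {n : ℕ} {V N : Type} [NormedAddCommGroup V] [InnerProductSpace ℝ V]
  [FiniteDimensional ℝ V] [NormedAddCommGroup N] [InnerProductSpace ℝ N] [FiniteDimensional ℝ N]

namespace SF

variable {S : SF n V N} {p : Par n}

private theorem P5b_y (h : S.K p) :
    0 ≤ p.y S.e2 S.u ∧ p.y S.e2 S.u ≤ p.Z + (p.l + ‖S.eta‖) / 10 ^ 7 := by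
  have _ := h
  refine ⟨p.y_nonneg _ _, ?_⟩
  have h1 : p.y S.e2 S.u ≤ p.Y1 + p.mu0 * (p.l + ‖S.eta‖) / 4 :=
    p.y_le S.hn (norm_nonneg _) S.u_nonneg
  have h2 := p.Y1_bounds.2.1
  have h3 := p.mu0_l
  have h4 := p.l_ge S.hn
  have h5 := p.mu0_pos
  have h6 : p.Z * p.m ≤ 1 := mul_le_one₀ p.Z_lt.le p.hm.le p.m_lt.le
  have h7 : p.mu0 ≤ 1 / 10 ^ 7 := by nlinarith
  have h8 := mul_le_mul_of_nonneg_right h7 (by positivity : 0 ≤ p.l + ‖S.eta‖)
  have h9 : 0 ≤ p.mu0 * (p.l + ‖S.eta‖) := by positivity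
  linarith

private theorem P5b_zeta (S : SF n V N) {θ : N} (hη : S.eta = ‖S.eta‖ • θ) :
    (n : ℝ) * S.zeta = S.e2 * S.uD θ := by
  have hn : (n : ℝ) ≠ 0 := by have := S.hn; positivity
  have h1 : S.uD S.eta = ‖S.eta‖ ^ 2 * S.uD θ := by
    conv_lhs => rw [hη]
    exact S.uD_smul _ _
  unfold zeta e2
  rw [h1, ← mul_assoc, mul_inv_cancel₀ hn, one_mul]

private theorem P5b_uD_le (S : SF n V N) {θ : N} (hθ : ‖θ‖ = 1 ∨ θ = 0) : S.uD θ ≤ S.u := by
  have h1 := S.uD_le θ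
  have h2 := S.u_nonneg
  rcases hθ with h | h
  · rw [h] at h1; linarith
  · rw [h, norm_zero] at h1; rw [h]; linarith

private theorem P5b_real1 {n L e u v z y Z G C s : ℝ} (hn : 2 ≤ n) (hL : L = 100 * n)
    (he : 0 ≤ e) (hv : 0 ≤ v) (hvu : v ≤ u) (hz : n * z = e * v) (hy : 0 ≤ y) (hys : y ≤ 2 * s)
    (hs : 1 ≤ s) (hZ1 : Z ≤ 1) (hZn : 10 ^ 6 * Z ≤ n)
    (hu : u ≤ 9 / 8 * Z * n * (L + e)) (hG : G ≤ v ^ 2 + 3 * n * y * u)
    (hC : C ≤ (288 * Z * e + (4 * n + 268) * y) * (u - v)) :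
    (L + e) * (2 * G + 2 * (n ^ 2 * z) + 2 * C - 2 * (n * u)) - u * (2 * (n * (e * e + z + e)))
      ≤ 2000 * n ^ 2 * u * (L + e) * s := by
  have hu0 : 0 ≤ u := hv.trans hvu
  have hn0 : 0 ≤ n := by linarith
  have hL0 : 0 ≤ L := by linarith
  have hw : 0 ≤ L + e := by linarith
  have hd : 0 ≤ u - v := by linarith
  set w := L + e with hwd
  have hew : e ≤ w := by linarith
  have hT : 0 ≤ n ^ 2 * u * w := by positivity
  have a1 := mul_le_mul_of_nonneg_left hG hw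
  have hC' : C ≤ n / 2 * e * (u - v) + 138 * n * y * u := by
    have b1 : 288 * Z * e * (u - v) ≤ n / 2 * e * (u - v) := by
      have : 288 * Z ≤ n / 2 := by linarith
      gcongr
    have b2 : (4 * n + 268) * y * (u - v) ≤ 138 * n * y * u := by
      have : 4 * n + 268 ≤ 138 * n := by linarith
      have : u - v ≤ u := by linarith
      gcongr
    nlinarith
  have a2 := mul_le_mul_of_nonneg_left hC' hw
  have a3 : L * v ^ 2 ≤ 113 * (n ^ 2 * u * w) := by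
    have b1 : v ≤ 9 / 8 * n * w := by
      have : 9 / 8 * Z * n * w ≤ 9 / 8 * 1 * n * w := by gcongr
      linarith
    have b2 : v ^ 2 ≤ u * (9 / 8 * n * w) := by
      rw [sq]; exact mul_le_mul hvu b1 hv hu0
    have b3 := mul_le_mul_of_nonneg_left b2 hL0
    rw [hL] at b3 ⊢
    nlinarith
  have a4 : e * v ^ 2 ≤ u * (e * v) := by
    have := mul_le_mul_of_nonneg_left hvu (mul_nonneg he hv)
    nlinarith
  have a5 : n * L * (e * v) ≤ 100 * (n ^ 2 * u * w) := by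
    have b1 : e * v ≤ w * u := mul_le_mul hew hvu hv hw
    have b2 := mul_le_mul_of_nonneg_left b1 (mul_nonneg hn0 hL0)
    rw [hL] at b2 ⊢
    nlinarith
  have a6 : n * L * (e * (u - v)) ≤ 100 * (n ^ 2 * u * w) := by
    have b1 : e * (u - v) ≤ w * u := mul_le_mul hew (by linarith) hd hw
    have b2 := mul_le_mul_of_nonneg_left b1 (mul_nonneg hn0 hL0)
    rw [hL] at b2 ⊢
    nlinarith
  have a7 : n * y * u * w ≤ n ^ 2 * u * w * s := by
    have b1 : y ≤ n * s := by nlinarith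
    have b2 := mul_le_mul_of_nonneg_left b1 (by positivity : 0 ≤ n * u * w)
    nlinarith
  have a8 := mul_le_mul_of_nonneg_left hs hT
  have a9 : 0 ≤ n * (e * e) * (u - v) := by positivity
  have a10 : 0 ≤ n * u * w := by positivity
  have a11 : 0 ≤ n * u * e := by positivity
  have e1 : w * (n ^ 2 * z) = n * L * (e * v) + n * (e * e) * v := by
    rw [hwd]; linear_combination (n * (L + e)) * hz
  have e2 : u * (n * z) = u * (e * v) := by rw [hz]
  have e3 : w * v ^ 2 = L * v ^ 2 + e * v ^ 2 := by rw [hwd]; ring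
  have e4 : w * (n / 2 * e * (u - v)) = (n * L * (e * (u - v)) + n * (e * e) * (u - v)) / 2 := by
    rw [hwd]; ring
  nlinarith

private theorem P5b_core (S : SF n V N) {θ : N} (hθ : ‖θ‖ = 1) {r : ℝ} (hr : 0 ≤ r)
    (hη : S.eta = r • θ) (hlow : ∀ e : V, ‖e‖ = 1 → r / 7 ≤ ⟪S.h e e, θ⟫) :
    n * (r ^ 2 / 7 * S.u) + S.uD θ ^ 2 ≤ n * (r ^ 2 * S.u) + n * S.cub := by
  classical
  obtain ⟨f, lt, hf⟩ := S.exists_eig θ
  have hθθ : ⟪θ, θ⟫ = (1 : ℝ) := by rw [real_inner_self_eq_norm_sq, hθ]; norm_num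
  have hff : ∀ i j, ⟪f i, f j⟫ = if i = j then (1 : ℝ) else 0 :=
    orthonormal_iff_ite.mp f.orthonormal
  have h0 : ∀ i j, ⟪S.h0 (f i) (f j), θ⟫ = if i = j then lt i - r else 0 := by
    intro i j
    unfold h0
    rw [inner_sub_left, real_inner_smul_left, hf, hη, real_inner_smul_left, hθθ, hff]
    split_ifs <;> ring
  set M : Fin n → ℝ := fun i => ∑ j, ‖S.h0 (f i) (f j)‖ ^ 2 with hM
  have hu : S.u = ∑ i, M i := by
    rw [← S.wb_u f]
    simp only [u, wb_h0]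
    rfl
  have hv : S.uD θ = ∑ i, (lt i - r) ^ 2 := by
    rw [← S.wb_uD f]
    simp only [uD, wb_h0]
    refine Finset.sum_congr rfl fun i _ => ?_
    change ∑ j, ⟪S.h0 (f i) (f j), θ⟫ ^ 2 = _
    simp [h0]
  have hc : S.cub = r * ∑ i, (lt i - r) * M i := by
    rw [← S.wb_cub f, Finset.mul_sum]
    simp only [cub, M0, wb_h0, wb_eta]
    refine Finset.sum_congr rfl fun i _ => ?_
    change ∑ k, ⟪S.h0 (f i) (f k), S.eta⟫ * ∑ j, ⟪S.h0 (f i) (f j), S.h0 (f k) (f j)⟫ = _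
    rw [Finset.sum_eq_single i]
    · rw [hη, real_inner_smul_right, h0, if_pos rfl]
      simp only [real_inner_self_eq_norm_sq, hM]
      ring
    · intro k _ hk
      rw [hη, real_inner_smul_right, h0, if_neg (Ne.symm hk)]; ring
    · intro hi; exact absurd (Finset.mem_univ i) hi
  have hs : ∑ i, (lt i - r) = 0 := by
    have h1 := (S.wb f).sum_h0
    simp only [wb_h0] at h1
    have h2 : ⟪∑ i, S.h0 (f i) (f i), θ⟫ = (0 : ℝ) := by
      have h3 : ∑ i, S.h0 (f i) (f i) = 0 := h1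
      rw [h3, inner_zero_left]
    rw [sum_inner] at h2
    simpa [h0] using h2
  have ht : ∀ i, 0 ≤ lt i - r / 7 := by
    intro i
    have h1 := hlow (f i) (f.orthonormal.1 i)
    rw [hf, hff, if_pos rfl] at h1
    linarith
  have hMi : ∀ i, (lt i - r) ^ 2 ≤ M i := by
    intro i
    have h1 : ‖S.h0 (f i) (f i)‖ ^ 2 ≤ M i :=
      Finset.single_le_sum (f := fun j => ‖S.h0 (f i) (f j)‖ ^ 2) (fun j _ => sq_nonneg _)
        (Finset.mem_univ i)
    have h2 := abs_real_inner_le_norm (S.h0 (f i) (f i)) θ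
    rw [h0, if_pos rfl, hθ, mul_one] at h2
    have h3 := pow_le_pow_left₀ (abs_nonneg _) h2 2
    rw [sq_abs] at h3
    linarith
  have cs := Finset.sum_sq_le_sum_mul_sum_of_sq_le_mul (Finset.univ : Finset (Fin n))
    (r := fun i => (lt i - r / 7) * (lt i - r)) (f := fun i => lt i - r / 7)
    (g := fun i => (lt i - r / 7) * (lt i - r) ^ 2) (fun i _ => ht i)
    (fun i _ => mul_nonneg (ht i) (sq_nonneg _)) (fun i _ => le_of_eq (by ring))
  have s1 : ∑ i, (lt i - r / 7) * (lt i - r) = S.uD θ := by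
    rw [hv]
    have : ∀ i, (lt i - r / 7) * (lt i - r) = (lt i - r) ^ 2 + 6 / 7 * r * (lt i - r) :=
      fun i => by ring
    simp only [this]
    rw [Finset.sum_add_distrib, ← Finset.mul_sum, hs]; ring
  have s2 : ∑ i, (lt i - r / 7) = n * (6 / 7 * r) := by
    have : ∀ i, lt i - r / 7 = (lt i - r) + 6 / 7 * r := fun i => by ring
    simp only [this]
    rw [Finset.sum_add_distrib, hs]; simp
  have s3 : ∑ i, (lt i - r / 7) * (lt i - r) ^ 2 ≤ ∑ i, (lt i - r / 7) * M i :=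
    Finset.sum_le_sum fun i _ => mul_le_mul_of_nonneg_left (hMi i) (ht i)
  have s4 : ∑ i, (lt i - r / 7) * M i = ∑ i, (lt i - r) * M i + 6 / 7 * r * S.u := by
    rw [hu, Finset.mul_sum, ← Finset.sum_add_distrib]
    exact Finset.sum_congr rfl fun i _ => by ring
  have s5 : 0 ≤ ∑ i, (lt i - r / 7) * (lt i - r) ^ 2 :=
    Finset.sum_nonneg fun i _ => mul_nonneg (ht i) (sq_nonneg _)
  rw [s1, s2] at cs
  have hn : (0 : ℝ) ≤ n := Nat.cast_nonneg n
  have s6 := mul_le_mul_of_nonneg_left s3 (mul_nonneg hn hr)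
  have s7 := mul_nonneg (mul_nonneg hn hr) s5
  rw [s4] at s6
  rw [hc]
  nlinarith

/-- With `w = l ^ 2 + e2`, `uH = uD θ`, `n zeta = e2 uH`, `288 Z ≤ n / 2`, `1 + y ≤ 2 √w`. -/
theorem K.Rw_le (h : S.K p) : (p.l ^ 2 + S.e2) * S.Ru - S.u * S.Re ≤
    2000 * (n : ℝ) ^ 2 * S.u * (p.l ^ 2 + S.e2) * √(p.l ^ 2 + S.e2) := by
  obtain ⟨θ, hθ, hη⟩ := exists_dir S.eta
  obtain ⟨hy0, hy1⟩ := P5b_y h
  have hZ := p.hZ.le
  have hZ1 := p.Z_lt.le
  have hl := p.l_ge S.hn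
  have he : 0 ≤ S.e2 := sq_nonneg _
  have s1 : p.l ≤ √(p.l ^ 2 + S.e2) := Real.le_sqrt_of_sq_le (by linarith)
  have s2 : ‖S.eta‖ ≤ √(p.l ^ 2 + S.e2) :=
    Real.le_sqrt_of_sq_le (by unfold e2; nlinarith [sq_nonneg p.l])
  have hn : (2 : ℝ) ≤ n := by exact_mod_cast S.hn
  exact P5b_real1 hn p.hl2 he (S.uD_nonneg θ) (P5b_uD_le S hθ) (P5b_zeta S hη) hy0
    (by linarith) (by linarith) hZ1 (p.Zn S.hn) h.u_le
    (h.K0.G2_split hZ hZ1 hy0 hθ hη) (h.K0.CC_split hZ hZ1 hy0 hθ hη)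

/-- Eigenvalues `lt i ≥ r / 7` of `⟪h, θ⟫` (`F2low`), `lam i = lt i - r`:
`n e2 u + n cub = n r ∑ lt i * M0 i i`, `M0 i i = lam i ^ 2 + ∑ j, ‖k i j‖ ^ 2` and
`n r ∑ lt i * lam i ^ 2 - uH ^ 2 = (1 / 2) ∑ i j, lt i * lt j * (lam i - lam j) ^ 2`. -/
theorem K.Zs_ge (h : S.K p) (hl : p.l ^ 2 ≤ S.e2) : n / 100 * S.e2 * S.u ≤ S.Zs := by
  obtain ⟨θ, hθ, hη⟩ := exists_dir S.eta
  obtain ⟨hy0, hy1⟩ := P5b_y h
  have hZ := p.hZ.le
  have hZ1 := p.Z_lt.le
  have hl14 := p.l_ge S.hn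
  have hn : (2 : ℝ) ≤ n := by exact_mod_cast S.hn
  have hr := norm_nonneg S.eta
  have ee : S.e2 = ‖S.eta‖ ^ 2 := rfl
  have hlr : p.l ≤ ‖S.eta‖ := (abs_le_of_sq_le_sq' (ee ▸ hl) hr).2
  have hθ1 : ‖θ‖ = 1 := by
    rcases hθ with h1 | h1
    · exact h1
    · rw [h1, smul_zero] at hη
      rw [hη, norm_zero] at hlr; linarith
  have hZn := p.Zn S.hn
  have hl2 := p.hl2
  have hre : ‖S.eta‖ ≤ S.e2 := by rw [ee]; nlinarith
  have hye : p.y S.e2 S.u ≤ S.e2 / 10 ^ 6 := by linarith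
  have he : 0 < S.e2 := by linarith
  have core := P5b_core S hθ1 hr hη fun e he1 =>
    h.K0.F2low hZ hZ1 hy0 he1 hθ1 hr hη (by rw [← ee]; linarith)
  rw [← ee] at core
  have hG := h.K0.G2_split hZ hZ1 hy0 hθ hη
  have hC := h.K0.CC_split hZ hZ1 hy0 hθ hη
  have hu := S.u_nonneg
  have hv := S.uD_nonneg θ
  have hvu := P5b_uD_le S hθ
  have b1 : 288 * p.Z * S.e2 + (4 * n + 268) * p.y S.e2 S.u ≤ n / 100 * S.e2 := by
    have c1 : 288 * p.Z * S.e2 ≤ n / 1000 * S.e2 :=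
      mul_le_mul_of_nonneg_right (by linarith) he.le
    have c2 : (4 * n + 268) * p.y S.e2 S.u ≤ 138 * n * (S.e2 / 10 ^ 6) :=
      mul_le_mul (by linarith) hye hy0 (by linarith)
    have c3 : 0 ≤ n * S.e2 := by positivity
    linarith
  have b2 : (288 * p.Z * S.e2 + (4 * n + 268) * p.y S.e2 S.u) * (S.u - S.uD θ)
      ≤ n / 100 * S.e2 * S.u := mul_le_mul b1 (by linarith) (by linarith) (by positivity)
  have b3 := mul_le_mul_of_nonneg_left hye (by positivity : (0 : ℝ) ≤ 3 * n * S.u)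
  have b4 : 0 ≤ n * S.e2 * S.u := by positivity
  have b5 : 0 ≤ n * S.u := by positivity
  unfold Zs
  nlinarith

end SF

end Pool.Agent.Lib.MP_de485e_gt.Hi
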