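import Pool.Agent.Lib.MP_de485e_gt.Hi.Par0

/-! The reduction of the reaction inequality in low codimension. -/

namespace Pool.Agent.Lib.MP_de485e_gt.Hi.Par

variable {n : ℕ} (p : Par n)

/-- With `X = (1 + Z) d ^ 2 = Z (1 + s ^ 2) + E / 4 - mu1 s / 2` and `(1 + Z) y = Z + E / 4`:
`8 Z (d ^ 2 - s ^ 2 - 1) + 16 (1 - m) y X ≤ -(16 / 3) m Z (1 + s ^ 2) + 2 E + 4 E d ^ 2`; the terms
linear in `mu1 ≤ 3 Z m / 10 ^ 4` are paid with `|en| ≤ s + d`, `d ^ 2 ≤ s ^ 2 / 3 + y`,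
`y ≤ Z + E / 4`. -/
theorem final_red1 (hn : 2 ≤ n) (h : p.θ = 1) (hZ : p.Z ≤ 1 / 2) {E y s d en th c : ℝ} (hE : 0 ≤ E)
    (hy : y = p.Y1 + E / (4 * (1 + p.Z))) (hs : 0 ≤ s) (hd : 0 ≤ d)
    (ht : (1 + p.Z) * d ^ 2 = p.Z * s ^ 2 + (1 + p.Z) * y - p.mu1 * s / 2)
    (hen : |en - s| ≤ d) (hth : th ≤ 2 * en * s - (s ^ 2 - d ^ 2)) (hc0 : 0 ≤ c)
    (hc : c ≤ p.m / 10) :
    (th - 1) * (8 * p.Y + 2 * E - 2 * p.mu1 * s) + 2 * en * (2 * p.mu1 - 8 * p.Z * s) +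
        16 * (1 - p.m) * y * ((1 + p.Z) * d ^ 2) + c * (4 * p.Z * s ^ 2 + 4 * p.Z + E) / n ≤
      -(4 * p.m * p.Z * (1 + s ^ 2)) + E / 10 + 4 * E * d ^ 2 + 2 * th * (E - p.mu1 * s) := by
  have hn' : (2 : ℝ) ≤ n := by exact_mod_cast hn
  have hZ0 := p.hZ
  have hm := p.hm
  have hm1 := p.m_lt
  have h0 := p.mu0_pos
  have hμ : 0 ≤ p.mu1 := by unfold mu1; linarith
  have hY := p.Y_one h
  have hy1 : (1 + p.Z) * y = p.Z + E / 4 := by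
    have h1 : (1 + p.Z) * p.Y1 = p.Z := hY
    have h2 : (1 + p.Z) * (E / (4 * (1 + p.Z))) = E / 4 := by field_simp
    rw [hy, mul_add, h1, h2]
  have hμs := mul_nonneg hμ hs
  have hS : 0 ≤ 1 + s ^ 2 := by positivity
  have hd2 : 0 ≤ d ^ 2 := sq_nonneg d
  have a0 : (1 + p.Z) * d ^ 2 ≤ p.Z * (1 + s ^ 2) + E / 4 := by linarith
  have a1 : 3 * (p.Z * d ^ 2) ≤ p.Z * (1 + s ^ 2) + E / 4 := by
    have := mul_le_mul_of_nonneg_right hZ hd2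
    linarith
  have a2 : d ^ 2 ≤ 1 + s ^ 2 + E / 4 := by
    have h1 := mul_le_mul_of_nonneg_right hZ hS
    have h2 := mul_nonneg hZ0.le hd2
    linarith
  have a3 : p.Z * th ≤ p.Z * (2 * en * s - (s ^ 2 - d ^ 2)) :=
    mul_le_mul_of_nonneg_left hth hZ0.le
  have a4 : 16 * (1 - p.m) * y * ((1 + p.Z) * d ^ 2) =
      16 * (1 - p.m) * (p.Z * d ^ 2) + 4 * E * d ^ 2 - 4 * (p.m * (E * d ^ 2)) := by
    linear_combination 16 * (1 - p.m) * d ^ 2 * hy1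
  have a5 : 0 ≤ p.m * (E * d ^ 2) := mul_nonneg hm.le (mul_nonneg hE hd2)
  have a6 := mul_le_mul_of_nonneg_left a1 (show 0 ≤ 3 - 2 * p.m by linarith)
  have a7 : 0 ≤ p.m * E := mul_nonneg hm.le hE
  have a8 : p.mu1 * en ≤ p.mu1 * (s + d) :=
    mul_le_mul_of_nonneg_left (by linarith [(abs_le.1 hen).2]) hμ
  have a9 : p.mu1 * (6 * s + 4 * d) ≤ p.mu1 * (7 * (1 + s ^ 2) + E / 2) :=
    mul_le_mul_of_nonneg_left (by nlinarith [sq_nonneg (s - 1), sq_nonneg (d - 1)]) hμ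
  have hZm : p.Z * p.m ≤ p.Z := mul_le_of_le_one_right hZ0.le hm1.le
  have c1 : p.mu1 ≤ p.Z * p.m / 3500 := by
    have h1 : p.mu0 * 14 ≤ p.mu0 * p.l := mul_le_mul_of_nonneg_left (p.l_ge hn) h0.le
    rw [p.mu0_l] at h1
    unfold mu1
    linarith
  have c2 := mul_le_mul_of_nonneg_right c1 hS
  have c4 : p.mu1 * E ≤ 1 / 100 * E := mul_le_mul_of_nonneg_right (by linarith) hE
  have c5 : 0 ≤ p.Z * p.m * (1 + s ^ 2) := by positivity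
  have c6 : c * (4 * p.Z * s ^ 2 + 4 * p.Z + E) / n ≤
      p.m / 10 * (4 * p.Z * s ^ 2 + 4 * p.Z + E) / 2 :=
    div_le_div₀ (by positivity) (mul_le_mul_of_nonneg_right hc (by positivity)) (by norm_num) hn'
  have c8 : p.m * E ≤ E := mul_le_of_le_one_left hE hm1.le
  rw [hY, a4]
  linarith

end Pool.Agent.Lib.MP_de485e_gt.Hi.Par
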