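import Pool.Agent.Lib.MP_de485e_gt.Hi.Par0

/-! The reaction inequality in real numbers, low codimension. -/

namespace Pool.Agent.Lib.MP_de485e_gt.Hi.Par

variable {n : ℕ} (p : Par n)

/-- Regime A as in `final_A`: `E ≤ 2 mu`, `y ≤ 2 Z ≤ 1`, `d ^ 2 ≤ s ^ 2 / 3 + y`. -/
theorem final_A1 (hn : 2 ≤ n) (hZ : p.Z ≤ 1 / 2) {r E g y s d en th rho : ℝ} (hr : 0 ≤ r)
    (hA : r ^ 2 ≤ p.l ^ 2)
    (hg1 : (p.l ^ 2 + r ^ 2) / 9 ≤ g) (hg2 : g ≤ p.l ^ 2 + r ^ 2) (hE : E = p.mu0 * √g)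
    (hy : y = p.Y1 + E / (4 * (1 + p.Z))) (hs : 0 ≤ s) (hd : 0 ≤ d)
    (ht : (1 + p.Z) * d ^ 2 = p.Z * s ^ 2 + (1 + p.Z) * y - p.mu1 * s / 2)
    (hen : |en - s| ≤ d) (hen2 : |en| ≤ r) (hth1 : en ^ 2 ≤ th)
    (hth : th ≤ 2 * en * s - (s ^ 2 - d ^ 2))
    (hrho : 3 / 16 * r ^ 4 - 4 * r ^ 2 * y - 69 * y * (p.l ^ 2 + r ^ 2) - 27200 * p.Z * r ^ 2 ≤ rho) :
    -(4 * p.m * p.Z * (1 + s ^ 2)) + E / 10 + 4 * E * d ^ 2 + 2 * th * (E - p.mu1 * s) +
        (25000 * p.Z * y * r ^ 2 + 8000 * y ^ 2) / n - E / g * rho < 0 := by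
  clear hZ
  have hZ := p.hZ
  have hm := p.hm
  have hZ1 := p.Z_lt
  have hm1 := p.m_lt
  have hZl := p.Zl
  have hl := p.l_ge hn
  have hl2 := p.hl2
  obtain ⟨hY0, hY1, -⟩ := p.Y1_bounds
  have ha := p.mu0_pos
  have hal := p.mu0_l
  have hmu1 : p.mu1 = 4000 * p.mu0 := rfl
  rw [hmu1] at ht ⊢
  generalize p.mu0 = a at *
  generalize p.Y1 = Y1 at *
  generalize p.Z = Z at *
  generalize p.m = m at *
  generalize p.l = l at *
  generalize (n : ℝ) = N at *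
  have hl0 : 0 < l := by linarith
  have hr2 : 0 ≤ r ^ 2 := sq_nonneg r
  have hl3 : 0 < l ^ 2 := by positivity
  have hg0 : 0 < g := by linarith
  have hG0 : 0 < √g := Real.sqrt_pos.2 hg0
  have hG2 : √g ^ 2 = g := Real.sq_sqrt hg0.le
  generalize √g = G at *
  have hG3 : G ≤ 2 * l := abs_le_of_sq_le_sq' (by linarith) (by linarith) |>.2
  obtain ⟨P, hP⟩ : ∃ P, P = Z * m := ⟨_, rfl⟩
  have hP0 : 0 < P := hP ▸ mul_pos hZ hm
  have hPZ : P ≤ Z := hP ▸ mul_le_of_le_one_right hZ.le hm1.le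
  rw [← hP] at hal
  rw [show 4 * m * Z = 4 * P by rw [hP]; ring]
  have hE0 : 0 ≤ E := hE ▸ (mul_pos ha hG0).le
  have hE1 : E ≤ 2 * P / 10 ^ 6 := by
    have := mul_le_mul_of_nonneg_left hG3 ha.le
    linarith
  have hy0 : 0 ≤ y := by
    have : 0 ≤ E / (4 * (1 + Z)) := by positivity
    linarith
  have hy1 : y ≤ 2 * Z := by
    have : E / (4 * (1 + Z)) ≤ E := div_le_self hE0 (by linarith)
    linarith
  have hy2 : y ≤ 2 := by linarith
  have hs2 : 0 ≤ s ^ 2 := sq_nonneg s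
  have hd2 : d ^ 2 ≤ s ^ 2 / 2 + y := by
    refine le_of_mul_le_mul_left ?_ (show 0 < 1 + Z by linarith)
    have h1 := mul_nonneg ha.le hs
    have h2 := mul_le_mul_of_nonneg_right hZ1.le hs2
    have h3 := mul_nonneg hZ.le hs2
    linarith
  have hen3 : en ^ 2 ≤ 3 * s ^ 2 + 2 * y := by
    have h1 : (en - s) ^ 2 ≤ d ^ 2 := sq_le_sq' (abs_le.1 hen).1 (abs_le.1 hen).2
    linarith [sq_nonneg (en - 2 * s)]
  have hth0 : 0 ≤ th := (sq_nonneg en).trans hth1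
  have hth2 : th ≤ 4 * s ^ 2 + 3 * y := by linarith [sq_nonneg (en - s)]
  have hens : 2 * (|en| * s) ≤ 4 * s ^ 2 + 2 * y := by
    linarith [sq_nonneg (|en| - s), sq_abs en]
  have t1 : Z * E ≤ E := mul_le_of_le_one_left hE0 hZ1.le
  have t2 : y * E ≤ 2 * E := mul_le_mul_of_nonneg_right hy2 hE0
  have t3 : s ^ 2 * E ≤ s ^ 2 * (P / 100) := mul_le_mul_of_nonneg_left (by linarith) hs2
  have t8 := mul_le_mul_of_nonneg_right hd2 hE0
  have t4 := mul_le_mul_of_nonneg_right hth2 hE0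
  have t5 : 0 ≤ th * (a * s) := by positivity
  have t6 := mul_le_mul_of_nonneg_right hens hE0
  have t7 : a * (y * (1 + y)) ≤ a * l := by
    refine mul_le_mul_of_nonneg_left ?_ ha.le
    have := mul_le_mul hy2 (show 1 + y ≤ 3 by linarith) (by linarith) (by norm_num)
    linarith
  obtain ⟨q, hq⟩ : ∃ q, q = a / G := ⟨_, rfl⟩
  have hq0 : 0 ≤ q := hq ▸ (div_pos ha hG0).le
  have hqG : q * G = a := hq ▸ div_mul_cancel₀ a hG0.ne'
  have hEq : E / g = q := by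
    rw [hE, hq, ← hG2]
    field_simp
  have hqg : q * g = E := by rw [← hEq, div_mul_cancel₀ E hg0.ne']
  have u1 : q * (l ^ 2 + r ^ 2) ≤ 9 * E := by
    have := mul_le_mul_of_nonneg_left hg1 hq0
    linarith
  have u2 : q * r ^ 2 ≤ 9 * E := by linarith [mul_nonneg hq0 hl3.le]
  have u3 := mul_le_mul hy2 u1 (by positivity) (by norm_num)
  have u4 := mul_le_mul hy2 u2 (by positivity) (by norm_num)
  have u5 := mul_le_mul hZ1.le u2 (by positivity) (by norm_num)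
  obtain ⟨w, hw⟩ : ∃ w, w = r ^ 2 / l := ⟨_, rfl⟩
  have hw0 : 0 ≤ w := hw ▸ div_nonneg hr2 hl0.le
  have hwl : r ^ 2 = w * l := by rw [hw, div_mul_cancel₀ _ hl0.ne']
  have u6 : P / 10 ^ 6 / 2 * w ^ 2 ≤ q * r ^ 4 := by
    have h1 := mul_le_mul_of_nonneg_left hG3 (mul_nonneg hq0 hl0.le)
    have h2 : q * l * G = a * l := by rw [← hqG]; ring
    have h3 : P / 10 ^ 6 / 2 ≤ q * l ^ 2 := by linarith
    have h4 : q * r ^ 4 = q * l ^ 2 * w ^ 2 := by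
      rw [show r ^ 4 = (r ^ 2) ^ 2 by ring, hwl]
      ring
    rw [h4]
    exact mul_le_mul_of_nonneg_right h3 (sq_nonneg w)
  have u7 := mul_le_mul_of_nonneg_left hrho hq0
  have hN : 0 < N := by linarith
  have v1 : (25000 * Z * y * r ^ 2 + 8000 * y ^ 2) / N ≤ P / 10 ^ 8 * w + P / 100 := by
    rw [div_le_iff₀ hN]
    have h1 : Z * Z ≤ P * l / 10 ^ 15 := by
      have := mul_le_mul_of_nonneg_left hZl hZ.le
      rw [hP]
      linarith
    have h2 : Z * y ≤ 2 * (P * l / 10 ^ 15) := by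
      linarith [mul_le_mul_of_nonneg_left hy1 hZ.le]
    have h3 : y ^ 2 ≤ 4 * (P * l / 10 ^ 15) := by
      linarith [pow_le_pow_left₀ hy0 hy1 2]
    have h4 := mul_le_mul_of_nonneg_right h2 hr2
    have h5 : P * l ≤ P * l ^ 2 :=
      mul_le_mul_of_nonneg_left (le_self_pow₀ (by linarith) (by norm_num)) hP0.le
    have h6 : N = l ^ 2 / 100 := by linarith
    have h7 : 0 ≤ P * w * l ^ 2 := by positivity
    have h8 : 0 ≤ P * l := by positivity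
    rw [hwl] at h4 ⊢
    rw [h6]
    linarith
  have v2 : P * w ≤ P * (w ^ 2 + 1) :=
    mul_le_mul_of_nonneg_left (by linarith [sq_nonneg (w - 1)]) hP0.le
  have v3 : 0 ≤ P * w ^ 2 := by positivity
  have v4 : 0 ≤ P * s ^ 2 := by positivity
  rw [hEq]
  linarith

end Pool.Agent.Lib.MP_de485e_gt.Hi.Par
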