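import Pool.Agent.Lib.MP_de485e_gt.Hi.Par0

/-! The reaction inequality in real numbers, low codimension. -/

namespace Pool.Agent.Lib.MP_de485e_gt.Hi.Par

variable {n : ℕ} (p : Par n)

private theorem RealB1_br {E y s d en th r M : ℝ} (hE : 0 ≤ E) (hy : 0 ≤ y) (hs : 0 ≤ s)
    (hr : 0 ≤ r) (hM : 0 ≤ M) (hd2 : d ^ 2 ≤ s ^ 2 / 3 + y) (hen : |en - s| ≤ d)
    (hen2 : |en| ≤ r) (hth1 : en ^ 2 ≤ th) (hth : th ≤ 2 * en * s - (s ^ 2 - d ^ 2))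
    (hsm : M ≤ 9 * E → s ≤ r / 200) :
    4 * E * d ^ 2 + 2 * th * (E - M) ≤ E * (r ^ 2 / 50 + 10 * y) := by
  have ha : 0 ≤ |en| := abs_nonneg en
  have hsq : |en| ^ 2 = en ^ 2 := sq_abs en
  have hth0 : 0 ≤ th := (sq_nonneg en).trans hth1
  have h9 : 0 ≤ E * y := by positivity
  have h10 : 0 ≤ E * r ^ 2 := by positivity
  rcases le_total M (9 * E) with h | h
  · have h1 := hsm h
    have h2 : |en| * s ≤ r * (r / 200) := mul_le_mul hen2 h1 hs hr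
    have h3 : en * s ≤ |en| * s := mul_le_mul_of_nonneg_right (le_abs_self en) hs
    have h4 : 2 * d ^ 2 + th ≤ r ^ 2 / 100 + 3 * y := by linarith
    have h5 : E * (2 * d ^ 2 + th) ≤ E * (r ^ 2 / 100 + 3 * y) := mul_le_mul_of_nonneg_left h4 hE
    have h6 : 0 ≤ th * M := mul_nonneg hth0 hM
    linarith
  · have h1 : s ≤ |en| + d := by
      have := (abs_le.1 hen).1
      have := le_abs_self en
      linarith
    have h2 : s ^ 2 ≤ (|en| + d) ^ 2 := pow_le_pow_left₀ hs h1 2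
    have h3 : s ^ 2 ≤ 12 * en ^ 2 + 4 * y := by
      linarith [sq_nonneg (3 * |en| - d), sq_nonneg s]
    have h4 : 4 * d ^ 2 ≤ 16 * en ^ 2 + 10 * y := by linarith
    have h5 : th * (E - M) ≤ th * (-8 * E) := mul_le_mul_of_nonneg_left (by linarith) hth0
    have h6 : en ^ 2 * E ≤ th * E := mul_le_mul_of_nonneg_right hth1 hE
    have h7 : E * (4 * d ^ 2) ≤ E * (16 * en ^ 2 + 10 * y) := mul_le_mul_of_nonneg_left h4 hE
    linarith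

private theorem RealB1_E {μ l r g : ℝ} (hmu : 0 < μ) (hr : 0 ≤ r) (hB : l ^ 2 ≤ r ^ 2)
    (hg1 : (l ^ 2 + r ^ 2) / 9 ≤ g) (hg2 : g ≤ l ^ 2 + r ^ 2) :
    μ * r ≤ 3 * (μ * √g) ∧ μ * √g ≤ 2 * (μ * r) := by
  have hq1 : r / 3 ≤ √g := Real.le_sqrt_of_sq_le (by linarith [sq_nonneg l])
  have hq2 : √g ≤ 2 * r := Real.sqrt_le_iff.2 ⟨by linarith, by linarith [sq_nonneg r]⟩
  have h1 := mul_le_mul_of_nonneg_left hq1 hmu.le
  have h2 := mul_le_mul_of_nonneg_left hq2 hmu.le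
  constructor <;> linarith

private theorem RealB1_main {E l r g y Z rho : ℝ} (hE : 0 ≤ E) (hg0 : 0 < g) (hy0 : 0 ≤ y)
    (hB : l ^ 2 ≤ r ^ 2) (hg2 : g ≤ l ^ 2 + r ^ 2) (h0 : 142 * y + 27200 * Z ≤ r ^ 2 / 16)
    (hrho : 3 / 16 * r ^ 4 - 4 * r ^ 2 * y - 69 * y * (l ^ 2 + r ^ 2) - 27200 * Z * r ^ 2 ≤ rho) :
    E * r ^ 2 / 16 ≤ E / g * rho := by
  have h1 : y * l ^ 2 ≤ y * r ^ 2 := mul_le_mul_of_nonneg_left hB hy0
  have h2 : (142 * y + 27200 * Z) * r ^ 2 ≤ r ^ 2 / 16 * r ^ 2 :=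
    mul_le_mul_of_nonneg_right h0 (sq_nonneg r)
  have h3 : r ^ 2 / 16 * g ≤ r ^ 2 / 16 * (2 * r ^ 2) :=
    mul_le_mul_of_nonneg_left (by linarith) (by positivity)
  have h4 : r ^ 2 / 16 * g ≤ rho := by linarith
  calc E * r ^ 2 / 16 = E / g * (r ^ 2 / 16 * g) := by field_simp
    _ ≤ E / g * rho := mul_le_mul_of_nonneg_left h4 (by positivity)

private theorem RealB1_T {N Z m E y r : ℝ} (hn0 : 2 ≤ N) (hZ : 0 < Z) (hm1 : m ≤ 1) (hE : 0 ≤ E)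
    (hy0 : 0 ≤ y) (hr14 : 14 ≤ r) (h1 : Z ≤ N * m / 10 ^ 14) (hZm : Z * m ≤ 3 * 10 ^ 6 * E)
    (hy1 : y ≤ Z + E / 4) (hy2 : y ≤ 2 * r / 10 ^ 15) :
    (25000 * Z * y * r ^ 2 + 8000 * y ^ 2) / N ≤ E * r ^ 2 / 500 := by
  have hN : 0 < N := by linarith
  have hr : 0 ≤ r := by linarith
  rw [div_le_iff₀ hN]
  have hrr : 14 * r ≤ r * r := mul_le_mul_of_nonneg_right hr14 hr
  have h2 : Z * Z ≤ Z * (N * m / 10 ^ 14) := mul_le_mul_of_nonneg_left h1 hZ.le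
  have h3 : N * (Z * m) ≤ N * (3 * 10 ^ 6 * E) := mul_le_mul_of_nonneg_left hZm hN.le
  have h5 : Z ≤ N / 10 ^ 14 := by
    have : N * m ≤ N := mul_le_of_le_one_right hN.le hm1
    linarith
  have h6 : Z * E ≤ N / 10 ^ 14 * E := mul_le_mul_of_nonneg_right h5 hE
  have h7 : Z * y ≤ Z * (Z + E / 4) := mul_le_mul_of_nonneg_left hy1 hZ.le
  have hNE : 0 ≤ N * E := by positivity
  have h8 : Z * y ≤ 4 / 10 ^ 8 * (N * E) := by linarith
  have h9 : Z * y * r ^ 2 ≤ 4 / 10 ^ 8 * (N * E) * r ^ 2 :=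
    mul_le_mul_of_nonneg_right h8 (sq_nonneg r)
  have h10 : y * y ≤ y * (Z + E / 4) := mul_le_mul_of_nonneg_left hy1 hy0
  have h11 : E * r ^ 2 * 2 ≤ E * r ^ 2 * N := mul_le_mul_of_nonneg_left hn0 (by positivity)
  have h12 : N * E * 196 ≤ N * E * r ^ 2 := mul_le_mul_of_nonneg_left (by linarith) hNE
  have h13 : y * E ≤ 2 * r / 10 ^ 15 * E := mul_le_mul_of_nonneg_right hy2 hE
  have h14 : E * (14 * r) ≤ E * (r * r) := mul_le_mul_of_nonneg_left hrr hE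
  have h15 : 0 ≤ E * r := mul_nonneg hE hr
  linarith

/-- Regime B as in `final_B`: `E / g * rho ≥ E r ^ 2 / 16`; cases `mu1 s ≤ 9 E` (then
`s ≤ r / 300`) and `9 E ≤ mu1 s` with `d ^ 2 ≤ s ^ 2 / 3 + y`, `s ^ 2 ≤ 12 en ^ 2 + 4 y`. -/
theorem final_B1 (hn : 2 ≤ n) (hZ : p.Z ≤ 1 / 2) {r E g y s d en th rho : ℝ} (hr : 0 ≤ r)
    (hB : p.l ^ 2 ≤ r ^ 2)
    (hg1 : (p.l ^ 2 + r ^ 2) / 9 ≤ g) (hg2 : g ≤ p.l ^ 2 + r ^ 2) (hE : E = p.mu0 * √g)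
    (hy : y = p.Y1 + E / (4 * (1 + p.Z))) (hs : 0 ≤ s) (hd : 0 ≤ d)
    (ht : (1 + p.Z) * d ^ 2 = p.Z * s ^ 2 + (1 + p.Z) * y - p.mu1 * s / 2)
    (hen : |en - s| ≤ d) (hen2 : |en| ≤ r) (hth1 : en ^ 2 ≤ th)
    (hth : th ≤ 2 * en * s - (s ^ 2 - d ^ 2))
    (hrho : 3 / 16 * r ^ 4 - 4 * r ^ 2 * y - 69 * y * (p.l ^ 2 + r ^ 2) - 27200 * p.Z * r ^ 2 ≤ rho) :
    -(4 * p.m * p.Z * (1 + s ^ 2)) + E / 10 + 4 * E * d ^ 2 + 2 * th * (E - p.mu1 * s) +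
        (25000 * p.Z * y * r ^ 2 + 8000 * y ^ 2) / n - E / g * rho < 0 := by
  have hZ0 := p.hZ
  have hm := p.hm
  have hl := p.hl
  have hm1 := p.m_lt
  have hZl := p.Zl
  have hl14 := p.l_ge hn
  have hmu := p.mu0_pos
  have hmul := p.mu0_l
  have hl2 := p.hl2
  obtain ⟨hY1, hY2, -⟩ := p.Y1_bounds
  have hmu1 : p.mu1 = 4000 * p.mu0 := rfl
  rw [hmu1] at ht ⊢
  generalize p.mu0 = μ at *
  generalize p.Y1 = Y1 at *
  generalize p.l = l at *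
  generalize p.m = m at *
  generalize p.Z = Z at *
  have hn0 : (2 : ℝ) ≤ n := by exact_mod_cast hn
  have hrl : l ≤ r := (pow_le_pow_iff_left₀ hl.le hr two_ne_zero).1 hB
  have hr14 : 14 ≤ r := hl14.trans hrl
  have hg0 : 0 < g := lt_of_lt_of_le (by positivity) hg1
  obtain ⟨hE1, hE2⟩ := RealB1_E hmu hr hB hg1 hg2
  rw [← hE] at hE1 hE2
  have hE0 : 0 ≤ E := by rw [hE]; positivity
  have hlm : l * m ≤ l := mul_le_of_le_one_right hl.le hm1.le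
  have hZr : Z ≤ r / 10 ^ 15 := by linarith
  have hmus : μ ≤ 1 / 10 ^ 21 := by
    have h1 : Z * m ≤ Z := mul_le_of_le_one_right hZ0.le hm1.le
    have h2 : μ * l ≤ 1 / 10 ^ 21 * l := by linarith
    exact le_of_mul_le_mul_right h2 hl
  have hmur : μ * r ≤ 1 / 10 ^ 21 * r := mul_le_mul_of_nonneg_right hmus hr
  have hq : 0 ≤ E / (4 * (1 + Z)) ∧ E / (4 * (1 + Z)) ≤ E / 4 :=
    ⟨by positivity, div_le_div_of_nonneg_left hE0 (by norm_num) (by linarith)⟩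
  have hy0 : 0 ≤ y := by linarith [hq.1]
  have hy1 : y ≤ Z + E / 4 := by linarith [hq.2]
  have hy2 : y ≤ 2 * r / 10 ^ 15 := by linarith
  have hrr : 14 * r ≤ r * r := mul_le_mul_of_nonneg_right hr14 hr
  have hZm : Z * m ≤ 3 * 10 ^ 6 * E := by
    have h1 : μ * l ≤ μ * r := mul_le_mul_of_nonneg_left hrl hmu.le
    linarith
  have hd2 : d ^ 2 ≤ s ^ 2 / 3 + y := by
    have h1 : 0 ≤ μ * s := by positivity
    have h3 : Z * s ^ 2 ≤ 1 / 2 * s ^ 2 := mul_le_mul_of_nonneg_right hZ (sq_nonneg s)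
    have h2 : (1 + Z) * d ^ 2 ≤ (1 + Z) * (s ^ 2 / 3 + y) := by linarith
    exact le_of_mul_le_mul_left h2 (by linarith)
  have hBr := RealB1_br (M := 4000 * μ * s) hE0 hy0 hs hr (by positivity) hd2 hen hen2 hth1 hth
    fun h => by
      have h0 := mul_nonneg hmu.le hr
      have h1 : μ * s ≤ μ * (r / 200) := by linarith
      exact le_of_mul_le_mul_left h1 hmu
  have hmain := RealB1_main hE0 hg0 hy0 hB hg2 (by linarith) hrho
  have hT := RealB1_T hn0 hZ0 hm1.le hE0 hy0 hr14 (by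
    have h2 : 14 * l ≤ l * l := mul_le_mul_of_nonneg_right hl14 hl.le
    have h3 : 14 * l * m ≤ 100 * n * m := mul_le_mul_of_nonneg_right (by linarith) hm.le
    have h4 : 0 ≤ n * m := by positivity
    linarith) hZm hy1 hy2
  have hEr : E * (14 * r) ≤ E * (r * r) := mul_le_mul_of_nonneg_left hrr hE0
  have hE14 : E * 14 ≤ E * r := mul_le_mul_of_nonneg_left hr14 hE0
  have hyE : y * E ≤ 2 * r / 10 ^ 15 * E := mul_le_mul_of_nonneg_right hy2 hE0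
  have hneg : 0 < 4 * m * Z * (1 + s ^ 2) := by positivity
  linarith

end Pool.Agent.Lib.MP_de485e_gt.Hi.Par
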