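import Pool.Agent.Lib.MP_de485e_gt.Hi.Br2
import Pool.Agent.Lib.MP_de485e_gt.Hi.P8b
import Pool.Agent.Lib.MP_de485e_gt.Hi.Br4
import Pool.Agent.Lib.MP_de485e_gt.Hi.P5b

/-! The pointwise inequalities for arrays. -/

open scoped RealInnerProductSpace

namespace Pool.Agent.Lib.MP_de485e_gt.Hi.Arr

variable {ι : Type} [Fintype ι] {X : Arr ι ℝ}

theorem Br3_sq (x : X.Vt) : ‖x‖ ^ 2 = dot x.1.ofLp x.1.ofLp := by
  rw [← real_inner_self_eq_norm_sq, inner_V]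

variable (h : X.Good) {p : Par X.n}
include h

/-- Every touching configuration of arrays comes from one of forms. -/
theorem Br3_lift {ν e e' : ι → ℝ} {a b : ℝ} (t : X.Tch p ν e e' a b) :
    ∃ (S : SF X.n X.Vt X.Nn) (ν₀ : X.Nn) (x x' : X.Vt), X.Br S ∧ ν₀.1.ofLp = ν ∧ x.1.ofLp = e ∧
      x'.1.ofLp = e' ∧ S.Tch p ν₀ x x' a b := by
  obtain ⟨S, r⟩ := h.exists_br
  obtain ⟨ν₀, rfl⟩ := t.hν.lift
  obtain ⟨x, rfl⟩ := t.he.1.lift
  obtain ⟨x', rfl⟩ := t.he'.1.lift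
  exact ⟨S, ν₀, x, x', r, rfl, rfl, rfl, r.tch h t⟩

theorem Br3_col (d : ι) : X.Tan fun b => X.P b d := fun a => h.PP a d

/-- Testing an eigenvalue equation with a column of the projector. -/
theorem Br3_eig {ν e : ι → ℝ} {a : ℝ} (he : X.Tan e)
    (H : ∀ x, X.Tan x → X.Av ν e x = a * dot e x) (d : ι) :
    ∑ f, X.Am ν d f * e f = a * e d := by
  have h1 := H _ (Br3_col h d)
  have h2 : dot e (fun b => X.P b d) = e d := by
    rw [← he d, dot]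
    exact Finset.sum_congr rfl fun b _ => by rw [h.Psymm b d, mul_comm]
  have h3 : ∀ c, X.Tv e (fun b => X.P b d) c = ∑ f, X.T d f c * e f := fun c => by
    rw [Tv]
    refine Finset.sum_congr rfl fun f _ => ?_
    have := h.Ttan f c d
    simp only at this
    rw [← this, Finset.sum_mul]
    exact Finset.sum_congr rfl fun b _ => by rw [h.Psymm b d, h.Tsymm f b c]; ring
  rw [h2, Av, dot] at h1
  rw [← h1]
  simp only [h3, Am, Finset.sum_mul]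
  rw [Finset.sum_comm]
  exact Finset.sum_congr rfl fun c _ => Finset.sum_congr rfl fun f _ => by ring

theorem K.u_le (k : X.K p) : X.u ≤ 9 / 8 * p.Z * X.n * (p.l ^ 2 + X.e2) := by
  obtain ⟨S, r⟩ := h.exists_br
  have := ((r.K_iff h p).2 k).u_le
  rwa [r.u_eq h, r.e2_eq h] at this

theorem K.g_ge (k : X.K p) : (p.l ^ 2 + X.e2) / 9 ≤ p.g X.e2 X.u := by
  obtain ⟨S, r⟩ := h.exists_br
  have := ((r.K_iff h p).2 k).g_ge
  rwa [r.u_eq h, r.e2_eq h] at this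

theorem K.Ru_le (k : X.K p) : X.Ru ≤ 1000 * (X.n : ℝ) ^ 2 * p.Z * (p.l ^ 2 + X.e2) ^ 2 := by
  obtain ⟨S, r⟩ := h.exists_br
  have := ((r.K_iff h p).2 k).Ru_le
  rwa [r.Ru_eq h, r.e2_eq h] at this

theorem K.Re_le (k : X.K p) : X.Re ≤ 5 * X.n * (p.l ^ 2 + X.e2) ^ 2 := by
  obtain ⟨S, r⟩ := h.exists_br
  have := ((r.K_iff h p).2 k).Re_le.2
  rwa [r.Re_eq h, r.e2_eq h] at this

theorem K.Rw_le (k : X.K p) : (p.l ^ 2 + X.e2) * X.Ru - X.u * X.Re ≤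
    2000 * (X.n : ℝ) ^ 2 * X.u * (p.l ^ 2 + X.e2) * √(p.l ^ 2 + X.e2) := by
  obtain ⟨S, r⟩ := h.exists_br
  have := ((r.K_iff h p).2 k).Rw_le
  rwa [r.Ru_eq h, r.Re_eq h, r.u_eq h, r.e2_eq h] at this

theorem K.Zs_ge (k : X.K p) (hl : p.l ^ 2 ≤ X.e2) : X.n / 100 * X.e2 * X.u ≤ X.Zs := by
  obtain ⟨S, r⟩ := h.exists_br
  have := ((r.K_iff h p).2 k).Zs_ge (by rwa [r.e2_eq h])
  rwa [r.Zs_eq h, r.u_eq h, r.e2_eq h] at this

theorem Tau.start (k : X.Tau (4 * p.Y1)) {ν e e' : ι → ℝ} (hν : X.UN ν) (he : X.UT e)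
    (he' : X.UT e') : p.Phi (p.E X.e2 X.u) (X.Av ν e e) (X.Av ν e' e') < 0 := by
  obtain ⟨S, r⟩ := h.exists_br
  obtain ⟨ν₀, rfl⟩ := hν.lift
  obtain ⟨x, rfl⟩ := he.1.lift
  obtain ⟨x', rfl⟩ := he'.1.lift
  have := S.start p (fun y y' hy hy' hyy => by
    have h1 := (UT_iff y).2 hy
    have h2 := (UT_iff y').2 hy'
    have h3 := k _ _ h1 h2 (by rw [← inner_V, hyy])
    rw [← real_inner_self_eq_norm_sq, inner_N, dot]
    refine le_of_eq_of_le (Finset.sum_congr rfl fun c _ => ?_) h3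
    have h4 : (S.h y y - S.h y' y').1.ofLp c = (S.h y y).1.ofLp c - (S.h y' y').1.ofLp c := rfl
    rw [h4, r.h_eq, r.h_eq, h1.2, h2.2]
    ring) ν₀ x x' ((UN_iff ν₀).1 hν) ((UT_iff x).1 he) ((UT_iff x').1 he')
  rwa [r.e2_eq h, r.u_eq h, r.inner_h h, r.inner_h h] at this

variable {ν e e' : ι → ℝ} {a b : ℝ}

theorem Tch.signs (t : X.Tch p ν e e' a b) : 0 ≤ a + b ∧ b < a ∧ 0 < p.Pa a b ∧ p.Pb a b < 0 ∧
    (4 + 4 * p.Z) * (a - b) ^ 2 ≤ p.Pa a b * -p.Pb a b := by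
  obtain ⟨S, ν₀, x, x', -, -, -, -, s⟩ := Br3_lift h t
  exact ⟨s.s_nonneg, s.signs⟩

theorem Tch.between (t : X.Tch p ν e e' a b) {x : ι → ℝ} (hx : X.Tan x) :
    b * dot x x ≤ X.Av ν x x ∧ X.Av ν x x ≤ a * dot x x := by
  obtain ⟨S, ν₀, y, y', r, rfl, -, -, s⟩ := Br3_lift h t
  obtain ⟨z, rfl⟩ := hx.lift
  have := s.between z
  rwa [r.inner_h h, Br3_sq] at this

theorem Tch.eig (t : X.Tch p ν e e' a b) (d : ι) : ∑ f, X.Am ν d f * e f = a * e d := by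
  obtain ⟨S, ν₀, y, y', r, rfl, rfl, -, s⟩ := Br3_lift h t
  refine Br3_eig h t.he.1 (fun x hx => ?_) d
  obtain ⟨z, rfl⟩ := hx.lift
  rw [← r.inner_h h, ← inner_V, s.eig]

theorem Tch.eig' (t : X.Tch p ν e e' a b) (d : ι) : ∑ f, X.Am ν d f * e' f = b * e' d := by
  obtain ⟨S, ν₀, y, y', r, rfl, -, rfl, s⟩ := Br3_lift h t
  refine Br3_eig h t.he'.1 (fun x hx => ?_) d
  obtain ⟨z, rfl⟩ := hx.lift
  rw [← r.inner_h h, ← inner_V, s.eig']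

theorem Tch.perp (t : X.Tch p ν e e' a b) : dot e e' = 0 := by
  obtain ⟨S, ν₀, y, y', r, -, rfl, rfl, s⟩ := Br3_lift h t
  rw [← inner_V, s.perp]

/-- `SF.Tch.react_neg`, `SF.Tch.first`, `Gn_eq`, `Ce_eq`. -/
theorem Tch.react_neg (t : X.Tch p ν e e' a b) (hq : p.Fit (Fintype.card ι - X.n - 1)) {c : ℝ}
    (hc0 : 0 ≤ c) (hc : c ≤ p.m / 10) :
    p.Pa a b * X.react ν e a + p.Pb a b * X.react ν e' b -
      p.mu0 / (2 * √(p.g X.e2 X.u)) * (X.Re - kk X.n / X.n * X.Ru) +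
      c * (4 * p.Z * ((a + b) / 2) ^ 2 + 4 * p.Z + p.E X.e2 X.u) < 0 := by
  obtain ⟨S, ν₀, y, y', r, rfl, rfl, rfl, s⟩ := Br3_lift h t
  obtain ⟨γ, hγ⟩ := r.Gn_eq h ν₀
  have h1 := s.react_neg (hq.mono (h.finrank_Nn r)) hc0 hc
  have h2 : p.Pa a b * ⟪S.h y y - a • ν₀, γ⟫ + p.Pb a b * ⟪S.h y' y' - b • ν₀, γ⟫ = 0 := by
    rw [← real_inner_smul_left, ← real_inner_smul_left, ← inner_add_left, s.first, inner_zero_left]
  rw [r.e2_eq h, r.u_eq h, r.Re_eq h, r.Ru_eq h] at h1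
  rw [react, react, hγ y s.he a, hγ y' s.he' b, ← r.A2_eq h, ← r.Ce_eq h ν₀ s.he s.ha,
    ← r.Ce_eq h ν₀ s.he' s.hb]
  linear_combination h1 + 2 * h2

end Pool.Agent.Lib.MP_de485e_gt.Hi.Arr
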