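import Pool.Agent.Lib.MP_de485e_gt.Hi.CaseA1

/-! Finite time: the centre and the rate. -/

open Set Filter Topology Metric
open scoped RealInnerProductSpace

namespace Pool.Agent.Lib.MP_de485e_gt.Hi

variable {n : ℕ} {P Q : Type} [NormedAddCommGroup P] [InnerProductSpace ℝ P] [FiniteDimensional ℝ P]
  [NormedAddCommGroup Q] [InnerProductSpace ℝ Q] [FiniteDimensional ℝ Q]
  {M : Type} [TopologicalSpace M] [ChartedSpace P M] [T2Space M] [CompactSpace M]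
  [ConnectedSpace M] {F : ℝ → M → Q} {a T : ℝ} {G : GeoData Q M}

private theorem CaseA2_num {δ ρ a D : ℝ} (hδ : 0 < δ) (hδ' : δ ≤ 1 / 10) (hρ : 0 < ρ)
    (hρ' : ρ ≤ δ) (ha : 0 < a) (haρ : a ≤ (1 + δ) * ρ) (hD : 0 ≤ D)
    (h : (1 + ρ / 2) * (1 - (1 + (1 + 2 * δ) ^ 2) / 2 * a) ≤ 1 - a / 2 - D / 2) :
    D ≤ 8 * δ * a ∧ (1 - 6 * δ) * ρ ≤ a := by
  have h1 : a ≤ 11 / 10 * δ := by nlinarith
  have h2 : (1 + (1 + 2 * δ) ^ 2) / 2 ≤ 61 / 50 := by nlinarith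
  have h3 : (1 + (1 + 2 * δ) ^ 2) / 2 * a ≤ 2 * δ := by nlinarith
  have h4 : ρ * ((1 + (1 + 2 * δ) ^ 2) / 2 * a) ≤ ρ * (2 * δ) := mul_le_mul_of_nonneg_left h3 hρ.le
  have h5 : ρ * (1 - 2 * δ) + D ≤ (1 + 2 * δ) ^ 2 * a := by nlinarith
  have h6 : (1 - δ) * a ≤ ρ := by
    have : (1 - δ) * a ≤ (1 - δ) * ((1 + δ) * ρ) := mul_le_mul_of_nonneg_left haρ (by linarith)
    nlinarith [mul_pos (mul_pos hδ hδ) hρ]
  constructor
  · have : (1 - 2 * δ) * ((1 - δ) * a) ≤ (1 - 2 * δ) * ρ :=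
      mul_le_mul_of_nonneg_left h6 (by linarith)
    have h7 : δ * δ * a ≤ 1 / 10 * δ * a := by gcongr
    nlinarith [mul_pos hδ ha]
  · have h8 : (1 + 2 * δ) ^ 2 * ((1 - 6 * δ) * ρ) ≤ (1 + 2 * δ) ^ 2 * a := by
      nlinarith [mul_pos (mul_pos hδ hδ) hρ, mul_pos (mul_pos (mul_pos hδ hδ) hδ) hρ]
    exact le_of_mul_le_mul_left h8 (by positivity)

private theorem CaseA2_inner {Q : Type} [NormedAddCommGroup Q] [InnerProductSpace ℝ Q] (a b : Q) :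
    ⟪a, b⟫ = (‖a‖ ^ 2 + ‖b‖ ^ 2 - ‖a - b‖ ^ 2) / 2 := by
  rw [norm_sub_sq_real]
  ring

private theorem CaseA2_small {T : ℝ} (n : ℕ) {δ : ℝ} (hδ : 0 < δ) :
    ∀ᶠ t in 𝓝[<] T, 2 * (n : ℝ) * (T - t) ≤ δ := by
  have hc : Continuous fun t : ℝ => 2 * (n : ℝ) * (T - t) := by fun_prop
  have h1 : Tendsto (fun t : ℝ => 2 * (n : ℝ) * (T - t)) (𝓝[<] T) (𝓝 0) := by
    have := (hc.tendsto T).mono_left (nhdsWithin_le_nhds (s := Iio T))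
    simpa using this
  exact h1.eventually (ge_mem_nhds hδ)

private theorem CaseA2_s {n : ℕ} (hn : 2 ≤ n) {W : ℝ} (hW : (n : ℝ) ^ 2 ≤ W) :
    0 < W ∧ 0 < n / √W ∧ (n / √W) ^ 2 = (n : ℝ) ^ 2 / W := by
  have h1 : (0 : ℝ) < n := by exact_mod_cast (by omega : 0 < n)
  have h2 : 0 < W := lt_of_lt_of_le (by positivity) hW
  exact ⟨h2, by positivity, by rw [div_pow, Real.sq_sqrt h2.le]⟩

private theorem CaseA2_vec {Q : Type} [NormedAddCommGroup Q] [InnerProductSpace ℝ Q]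
    {f m p : Q} {r s δ : ℝ} (hf : ‖f‖ = 1) (hr : 0 < r) (hs : 0 < s) (hδ : 0 < δ)
    (hδ' : δ ≤ 1 / 2) (hrδ : r ≤ δ) (hfm : ‖f - m‖ = s) (hmp : ‖m - p‖ ≤ δ * s)
    (hq : |s / r - 1| ≤ δ) :
    |‖f - p‖ / r - 1| ≤ 3 * δ ∧ r ≤ 2 * s ∧
      ‖r • (f - (s ^ 2)⁻¹ • (f - m)) + r⁻¹ • (f - p)‖ ≤ 8 * δ := by
  obtain ⟨q, rfl⟩ : ∃ q, s = q * r := ⟨s / r, by field_simp⟩
  rw [mul_div_cancel_right₀ _ hr.ne', abs_le] at hq
  have hq0 : 0 < q := by linarith [hq.1]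
  refine ⟨?_, by nlinarith [hq.1], ?_⟩
  · have h1 : ‖f - p‖ ≤ ‖f - m‖ + ‖m - p‖ := norm_sub_le_norm_sub_add_norm_sub f m p
    have h2 : ‖f - m‖ ≤ ‖f - p‖ + ‖m - p‖ := by
      have := norm_sub_le_norm_sub_add_norm_sub f p m
      rwa [norm_sub_rev p m] at this
    have h3 : δ * q ≤ 2 * δ := by nlinarith [hq.2]
    rw [abs_le]
    constructor
    · rw [le_sub_iff_add_le, le_div_iff₀ hr]
      nlinarith [hq.1]
    · rw [sub_le_iff_le_add, div_le_iff₀ hr]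
      nlinarith [hq.2]
  · have e1 : r • (f - ((q * r) ^ 2)⁻¹ • (f - m)) + r⁻¹ • (f - p) =
        r • f + (r⁻¹ - r * ((q * r) ^ 2)⁻¹) • (f - m) + r⁻¹ • (m - p) := by module
    have h1 : ‖r • f‖ ≤ δ := by rw [norm_smul, hf, mul_one, Real.norm_of_nonneg hr.le]; exact hrδ
    have h2 : ‖(r⁻¹ - r * ((q * r) ^ 2)⁻¹) • (f - m)‖ ≤ 5 * δ := by
      have : (r⁻¹ - r * ((q * r) ^ 2)⁻¹) * (q * r) = (q ^ 2 - 1) / q := by field_simp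
      have e2 : ∀ z : ℝ, |z| * (q * r) = |z * (q * r)| := fun z => by rw [abs_mul, abs_of_pos hs]
      rw [norm_smul, hfm, Real.norm_eq_abs, e2, this, abs_div, abs_of_pos hq0, div_le_iff₀ hq0, abs_le]
      constructor <;> nlinarith [hq.1, hq.2]
    have h3 : ‖r⁻¹ • (m - p)‖ ≤ 2 * δ := by
      rw [norm_smul, Real.norm_of_nonneg (inv_nonneg.2 hr.le), inv_mul_le_iff₀ hr]
      have : δ * q ≤ 2 * δ := by nlinarith [hq.2]
      nlinarith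
    rw [e1]
    have h4 := norm_add₃_le (a := r • f) (b := (r⁻¹ - r * ((q * r) ^ 2)⁻¹) • (f - m))
      (c := r⁻¹ • (m - p))
    linarith

namespace GeoA

variable (h : GeoA n P F (Ioo a T) G) (hT : a < T)
  (hb : ∀ C : ℝ, ∃ᶠ t in 𝓝[<] T, ∃ x, C < G.W t x)
include h hT hb

/-- As in the case of hypersurfaces. -/
theorem centre {p : Q} (hp : ‖p‖ = 1) (hl : ∀ x, Tendsto (fun s => F s x) (𝓝[<] T) (𝓝 p)) {ε : ℝ}
    (hε : 0 < ε) : ∀ᶠ t in 𝓝[<] T, ∀ x, ‖G.m t x - p‖ ≤ ε * (n / √(G.W t x)) ∧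
      |n / √(G.W t x) / √(2 * n * (T - t)) - 1| ≤ ε := by
  obtain ⟨δ, hδ, hδ1, hδ2, hδ3⟩ : ∃ δ : ℝ, 0 < δ ∧ δ ≤ 1 / 10 ∧ δ ≤ ε / 6 ∧ δ ≤ ε ^ 2 / 32 :=
    ⟨min (1 / 10) (min (ε / 6) (ε ^ 2 / 32)), by positivity, min_le_left _ _,
      (min_le_right _ _).trans (min_le_left _ _), (min_le_right _ _).trans (min_le_right _ _)⟩
  have hn : (0 : ℝ) < n := by exact_mod_cast (by have := h.hn; omega : 0 < n)
  filter_upwards [h.rate_lower hT hb hδ, h.all_round hT hb hδ, CaseA2_small (T := T) n hδ,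
    Ioo_mem_nhdsLT hT] with t ⟨x₀, hmax, hrate⟩ hall hρ' ht
  have hS := fun x => CaseA2_s h.hn (h.toGeoLoc.W_ge ht x)
  have hρ : 0 < 2 * (n : ℝ) * (T - t) := by have := sub_pos.2 ht.2; positivity
  obtain ⟨hW₀, hs₀, hs₀2⟩ := hS x₀
  set s₀ : ℝ := n / √(G.W t x₀) with hs₀def
  have hup : ∀ y, ((n : ℝ) / √(G.W t y)) ^ 2 ≤ (1 + δ) * s₀ ^ 2 := by
    intro y
    obtain ⟨hWy, -, e⟩ := hS y
    have h1 := (abs_le.1 (hall x₀ y).2.2.2.2).2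
    have : (n : ℝ) ^ 2 / G.W t y = G.W t x₀ / G.W t y * ((n : ℝ) ^ 2 / G.W t x₀) := by field_simp
    rw [e, hs₀2, this]
    exact mul_le_mul_of_nonneg_right (by linarith) (by positivity)
  have hlow : ∀ y, s₀ ≤ n / √(G.W t y) := fun y =>
    div_le_div_of_nonneg_left hn.le (Real.sqrt_pos.2 (hS y).1) (Real.sqrt_le_sqrt (hmax y))
  have hm₀ : ‖G.m t x₀‖ ^ 2 = 1 - s₀ ^ 2 := by rw [hs₀2]; exact h.toGeoLoc.norm_m_sq ht x₀
  set μ : ℝ := 1 - (1 + (1 + 2 * δ) ^ 2) / 2 * s₀ ^ 2 with hμ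
  have h1 : ∀ y, ⟪-G.m t x₀, F t y⟫ ≤ -μ := by
    intro y
    have a1 : (n : ℝ) / √(G.W t y) ≤ (1 + δ) * s₀ := by
      refine le_of_sq_le_sq ?_ (by positivity)
      have := hup y
      nlinarith [mul_pos hδ (pow_pos hs₀ 2), mul_pos (mul_pos hδ hδ) (pow_pos hs₀ 2)]
    have a2 : ‖G.m t x₀ - F t y‖ ≤ (1 + 2 * δ) * s₀ := by
      have b1 := norm_sub_le_norm_sub_add_norm_sub (G.m t x₀) (G.m t y) (F t y)
      have b2 := (hall x₀ y).2.2.2.1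
      rw [norm_sub_rev] at b2
      rw [norm_sub_rev (G.m t y), h.toGeoLoc.norm_F_sub_m ht y] at b1
      linarith
    have a3 : ‖G.m t x₀ - F t y‖ ^ 2 ≤ ((1 + 2 * δ) * s₀) ^ 2 := by gcongr
    rw [inner_neg_left, CaseA2_inner, hm₀, h.sphere t ht y, hμ]
    nlinarith
  have h2 : Real.exp (-(n * (T - t))) * ⟪-G.m t x₀, p⟫ ≤ -μ := by
    have hc : Continuous fun s : ℝ => Real.exp (-(n * (s - t))) := by fun_prop
    have hlim := ((hc.tendsto T).mono_left (nhdsWithin_le_nhds (s := Iio T))).mul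
      ((tendsto_const_nhds (x := -G.m t x₀)).inner (𝕜 := ℝ) (hl x₀))
    refine le_of_tendsto hlim ?_
    filter_upwards [Ioo_mem_nhdsLT ht.2] with s hs
    exact h.est4 t ht s ⟨ht.1.trans hs.1, hs.2⟩ hs.1.le _ _ h1 x₀
  have hrate' : s₀ ^ 2 ≤ (1 + δ) * (2 * n * (T - t)) := by rwa [hs₀2]
  have hμ0 : 0 ≤ μ := by
    have b1 : s₀ ^ 2 ≤ 11 / 100 := by nlinarith
    have b2 : (1 + (1 + 2 * δ) ^ 2) / 2 ≤ 61 / 50 := by nlinarith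
    have b3 : (1 + (1 + 2 * δ) ^ 2) / 2 * s₀ ^ 2 ≤ 61 / 50 * (11 / 100) := by gcongr
    rw [hμ]
    linarith
  have h3 : (1 + 2 * (n : ℝ) * (T - t) / 2) * μ ≤ 1 - s₀ ^ 2 / 2 - ‖G.m t x₀ - p‖ ^ 2 / 2 := by
    have b1 : μ * Real.exp (n * (T - t)) ≤ ⟪G.m t x₀, p⟫ := by
      rw [inner_neg_left, mul_neg, neg_le_neg_iff, Real.exp_neg, ← div_eq_inv_mul,
        le_div_iff₀ (Real.exp_pos _)] at h2
      exact h2
    have b2 := mul_le_mul_of_nonneg_left (Real.add_one_le_exp (n * (T - t))) hμ0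
    rw [CaseA2_inner, hm₀, hp] at b1
    nlinarith
  obtain ⟨hD, hlo⟩ := CaseA2_num hδ hδ1 hρ hρ' (pow_pos hs₀ 2) hrate' (sq_nonneg _) h3
  have hd : ‖G.m t x₀ - p‖ ≤ ε / 2 * s₀ := by
    refine le_of_sq_le_sq ?_ (by positivity)
    have : 8 * δ * s₀ ^ 2 ≤ 8 * (ε ^ 2 / 32) * s₀ ^ 2 := by gcongr
    nlinarith
  intro x
  have hr : 0 < √(2 * (n : ℝ) * (T - t)) := Real.sqrt_pos.2 hρ
  have hr2 : √(2 * (n : ℝ) * (T - t)) ^ 2 = 2 * (n : ℝ) * (T - t) := Real.sq_sqrt hρ.le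
  set r : ℝ := √(2 * (n : ℝ) * (T - t)) with hrdef
  have hx := hlow x
  constructor
  · have b1 := norm_sub_le_norm_sub_add_norm_sub (G.m t x) (G.m t x₀) p
    have b2 := (hall x₀ x).2.2.2.1
    have b3 : δ * s₀ ≤ ε / 2 * s₀ := by gcongr; linarith
    have b4 : ε * s₀ ≤ ε * (n / √(G.W t x)) := by gcongr
    linarith
  · have b1 : (n : ℝ) / √(G.W t x) ≤ (1 + δ) * r := by
      refine le_of_sq_le_sq ?_ (by positivity)
      have := mul_le_mul_of_nonneg_left hrate' (by positivity : 0 ≤ 1 + δ)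
      have := hup x
      rw [mul_pow (1 + δ), hr2]
      nlinarith
    have b2 : (1 - 6 * δ) * r ≤ s₀ := by
      refine le_of_sq_le_sq ?_ hs₀.le
      rw [mul_pow, hr2]
      have : (1 - 6 * δ) ^ 2 ≤ 1 - 6 * δ := by nlinarith
      nlinarith
    rw [abs_le]
    constructor
    · rw [le_sub_iff_add_le, le_div_iff₀ hr]
      nlinarith
    · rw [sub_le_iff_le_add, div_le_iff₀ hr]
      nlinarith

/-- `H / n = F - (F - m) / s ^ 2` with `s = ‖F - m‖ = n / √W`. -/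
theorem shape {p : Q} (hp : ‖p‖ = 1) (hl : ∀ x, Tendsto (fun s => F s x) (𝓝[<] T) (𝓝 p)) {ε : ℝ}
    (hε : 0 < ε) : ∀ᶠ t in 𝓝[<] T, ∀ x, |‖F t x - p‖ / √(2 * n * (T - t)) - 1| ≤ ε ∧ ∀ ξ ζ,
      ‖√(2 * n * (T - t)) • sff P (F t) x ξ ζ +
          (⟪dF P (F t) x ξ, dF P (F t) x ζ⟫ / √(2 * n * (T - t))) • (F t x - p)‖ ≤
        ε * ‖dF P (F t) x ξ‖ * ‖dF P (F t) x ζ‖ := by
  have hn : (0 : ℝ) < n := by exact_mod_cast (by have := h.hn; omega : 0 < n)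
  obtain ⟨δ, hδ, hδ1, hδ2⟩ : ∃ δ : ℝ, 0 < δ ∧ δ ≤ 1 / 2 ∧ δ ≤ ε / (2 * n + 8) :=
    ⟨min (1 / 2) (ε / (2 * n + 8)), by positivity, min_le_left _ _, min_le_right _ _⟩
  rw [le_div_iff₀ (by positivity)] at hδ2
  filter_upwards [h.centre hT hb hp hl hδ, h.all_round hT hb (pow_pos hδ 2),
    CaseA2_small (T := T) n (pow_pos hδ 2), Ioo_mem_nhdsLT hT] with t hc hall hρ' ht x
  have hρ : 0 < 2 * (n : ℝ) * (T - t) := by have := sub_pos.2 ht.2; positivity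
  have hr : 0 < √(2 * (n : ℝ) * (T - t)) := Real.sqrt_pos.2 hρ
  have hrδ : √(2 * (n : ℝ) * (T - t)) ≤ δ := Real.sqrt_le_iff.2 ⟨hδ.le, hρ'⟩
  set r : ℝ := √(2 * (n : ℝ) * (T - t)) with hrdef
  obtain ⟨hW, hs, hs2⟩ := CaseA2_s h.hn (h.toGeoLoc.W_ge ht x)
  obtain ⟨v1, v2, v3⟩ := CaseA2_vec (h.sphere t ht x) hr hs hδ hδ1 hrδ
    (h.toGeoLoc.norm_F_sub_m ht x) (hc x).1 (hc x).2
  refine ⟨v1.trans (by nlinarith), fun ξ ζ => ?_⟩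
  obtain ⟨H, hpt⟩ := h.pt t ht x
  have hν : F t x - (((n : ℝ) / √(G.W t x)) ^ 2)⁻¹ • (F t x - G.m t x) = (n : ℝ)⁻¹ • H := by
    have c2 : ((n : ℝ) ^ 2 / G.W t x)⁻¹ * (n / G.W t x) = (n : ℝ)⁻¹ := by field_simp
    have c1 : (1 : ℝ) - ((n : ℝ) ^ 2 / G.W t x)⁻¹ * (n / G.W t x) * n = 0 := by
      rw [c2]
      field_simp
      ring
    rw [hs2, hpt.m_eq]
    have : F t x - ((n : ℝ) ^ 2 / G.W t x)⁻¹ •
        (F t x - (F t x + (n / G.W t x) • (H - (n : ℝ) • F t x))) =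
        (1 - ((n : ℝ) ^ 2 / G.W t x)⁻¹ * (n / G.W t x) * n) • F t x +
          (((n : ℝ) ^ 2 / G.W t x)⁻¹ * (n / G.W t x)) • H := by module
    rw [this, c1, c2, zero_smul, zero_add]
  rw [hν] at v3
  have hE := hpt.sff_le ξ ζ
  set g : ℝ := ⟪dF P (F t) x ξ, dF P (F t) x ζ⟫ with hg
  have hgle : |g| ≤ ‖dF P (F t) x ξ‖ * ‖dF P (F t) x ζ‖ := abs_real_inner_le_norm _ _
  have e1 : r • sff P (F t) x ξ ζ + (g / r) • (F t x - p) =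
      r • (sff P (F t) x ξ ζ - (g / n) • H) +
        g • (r • (n : ℝ)⁻¹ • H + r⁻¹ • (F t x - p)) := by
    rw [div_eq_mul_inv g r, div_eq_mul_inv g n]
    module
  have hsq : 0 < √(G.W t x) := Real.sqrt_pos.2 hW
  have hu : √(G.u t x) ≤ δ * √(G.W t x) := by
    refine Real.sqrt_le_iff.2 ⟨by positivity, ?_⟩
    rw [mul_pow, Real.sq_sqrt hW.le]
    exact (hall x x).2.1
  have hru : r * √(G.u t x) ≤ 2 * n * δ := by
    calc r * √(G.u t x) ≤ 2 * (n / √(G.W t x)) * (δ * √(G.W t x)) := by gcongr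
      _ = 2 * n * δ := by field_simp
  have hN : 0 ≤ ‖dF P (F t) x ξ‖ * ‖dF P (F t) x ζ‖ := by positivity
  have n1 : ‖r • (sff P (F t) x ξ ζ - (g / n) • H)‖ ≤
      2 * n * δ * (‖dF P (F t) x ξ‖ * ‖dF P (F t) x ζ‖) := by
    rw [norm_smul, Real.norm_of_nonneg hr.le]
    calc r * ‖sff P (F t) x ξ ζ - (g / n) • H‖
        ≤ r * (√(G.u t x) * ‖dF P (F t) x ξ‖ * ‖dF P (F t) x ζ‖) := by gcongr
      _ = r * √(G.u t x) * (‖dF P (F t) x ξ‖ * ‖dF P (F t) x ζ‖) := by ring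
      _ ≤ _ := by gcongr
  have n2 : ‖g • (r • (n : ℝ)⁻¹ • H + r⁻¹ • (F t x - p))‖ ≤
      (‖dF P (F t) x ξ‖ * ‖dF P (F t) x ζ‖) * (8 * δ) := by
    rw [norm_smul, Real.norm_eq_abs]
    exact mul_le_mul hgle v3 (norm_nonneg _) hN
  rw [e1]
  refine (norm_add_le _ _).trans ?_
  have := mul_le_mul_of_nonneg_right hδ2 hN
  nlinarith

end GeoA

end Pool.Agent.Lib.MP_de485e_gt.Hi
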