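import Pool.Agent.Lib.MP_de485e_gt.Hi.R3
import Pool.Agent.Lib.MP_de485e_gt.Hi.ADef

/-! Derivatives of the osculating data. -/

namespace Pool.Agent.Lib.MP_de485e_gt.Hi.QA

variable {ι : Type} [Fintype ι] {R : Type} [CommRing R] [Algebra ℝ R] (S : QA ι R)
  (ev : R →ₐ[ℝ] ℝ) {Wi : R} {η : ℝ}

section real

theorem Db_cs (ξ y : ι → ℝ) : (∑ k, ξ k * y k) ^ 2 ≤ (∑ k, y k ^ 2) * ∑ k, ξ k ^ 2 := by
  rw [mul_comm]
  exact Finset.sum_mul_sq_le_sq_mul_sq Finset.univ ξ y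

theorem Db_cs1 (ξ : ι → ℝ) (y : ι → ι → ℝ) :
    ∑ c, (∑ k, ξ k * y k c) ^ 2 ≤ (∑ k, ∑ c, y k c ^ 2) * ∑ k, ξ k ^ 2 := by
  rw [Finset.sum_comm, Finset.sum_mul]
  exact Finset.sum_le_sum fun c _ => Db_cs ξ fun k => y k c

theorem Db_cs2 (ξ : ι → ℝ) (y : ι → ι → ι → ℝ) :
    ∑ a, ∑ d, (∑ k, ξ k * y k a d) ^ 2 ≤ (∑ k, ∑ a, ∑ d, y k a d ^ 2) * ∑ k, ξ k ^ 2 := by
  rw [Finset.sum_comm (f := fun k a => ∑ d, y k a d ^ 2), Finset.sum_mul]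
  exact Finset.sum_le_sum fun a _ => Db_cs1 ξ fun k d => y k a d

theorem Db_W (X : Arr ι ℝ) : ∑ c, X.HH c ^ 2 = X.W := by
  simp only [Arr.W, sq]

theorem Db_gH (X : Arr ι ℝ) : ∑ k, ∑ c, X.Bt k c ^ 2 = X.gH := by
  simp only [Arr.gH, sq]

theorem Db_u {X : Arr ι ℝ} (h : X.Good) : ∑ k, ∑ a, ∑ d, X.T0 k a d ^ 2 = X.u := by
  simp only [h.u_eq, sq]

theorem Db_AH {X : Arr ι ℝ} (h : X.Good) : ∑ k, ∑ a, X.AH k a ^ 2 ≤ X.u * X.W := by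
  rw [← Db_u h, ← Db_W, Finset.sum_mul]
  refine Finset.sum_le_sum fun k _ => ?_
  rw [Finset.sum_mul]
  exact Finset.sum_le_sum fun a _ =>
    Finset.sum_mul_sq_le_sq_mul_sq Finset.univ (X.T0 k a) X.HH

theorem Db_BA {X : Arr ι ℝ} (h : X.Good) :
    ∑ k, ∑ a, (X.Bt k a - X.AH k a) ^ 2 ≤ 2 * X.gH + 2 * (X.u * X.W) := by
  have h1 : ∑ k, ∑ a, (X.Bt k a - X.AH k a) ^ 2 ≤
      ∑ k, ∑ a, (2 * X.Bt k a ^ 2 + 2 * X.AH k a ^ 2) :=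
    Finset.sum_le_sum fun k _ => Finset.sum_le_sum fun a _ => by
      nlinarith [sq_nonneg (X.Bt k a + X.AH k a)]
  simp only [Finset.sum_add_distrib, ← Finset.mul_sum] at h1
  rw [Db_gH] at h1
  linarith [Db_AH h]

theorem Db_HB (X : Arr ι ℝ) : ∑ k, (∑ c, X.HH c * X.Bt k c) ^ 2 ≤ X.gH * X.W := by
  rw [← Db_gH, ← Db_W, Finset.sum_mul]
  exact Finset.sum_le_sum fun k _ => Db_cs X.HH (X.Bt k)

theorem Db_W_pos {X : Arr ι ℝ} (h : X.Good) : 0 < X.W := by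
  have h1 := h.W_ge
  have h2 := h.A3_n
  nlinarith

/-- the squared derivative of `1 / W` -/
theorem Db_dw {X : Arr ι ℝ} (h : X.Good) {wi η : ℝ} (hw : wi * X.W = 1)
    (hv : X.v ≤ η ^ 2 * X.W ^ 2) :
    ∑ k, (-(2 * (wi * wi * ∑ c, X.HH c * X.Bt k c))) ^ 2 ≤ 4 * X.n * η ^ 2 * wi := by
  have h0 := Db_W_pos h
  have hn := h.A3_n
  have h1 : ∑ k, (-(2 * (wi * wi * ∑ c, X.HH c * X.Bt k c))) ^ 2 =
      4 * wi ^ 4 * ∑ k, (∑ c, X.HH c * X.Bt k c) ^ 2 := by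
    rw [Finset.mul_sum]
    exact Finset.sum_congr rfl fun k _ => by ring
  have h2 : X.gH ≤ X.n * (η ^ 2 * X.W ^ 2) :=
    h.gH_le.trans (mul_le_mul_of_nonneg_left hv (by linarith))
  have h3 := (Db_HB X).trans (mul_le_mul_of_nonneg_right h2 h0.le)
  rw [h1]
  refine (mul_le_mul_of_nonneg_left h3 (by positivity)).trans (le_of_eq ?_)
  have : 4 * wi ^ 4 * (X.n * (η ^ 2 * X.W ^ 2) * X.W) =
      4 * X.n * η ^ 2 * wi * (wi * X.W) ^ 3 := by ring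
  rw [this, hw, one_pow, mul_one]

theorem Db_ba {X : Arr ι ℝ} (h : X.Good) {wi η : ℝ} (hw : wi * X.W = 1)
    (hu : X.u ≤ η ^ 2 * X.W) (hv : X.v ≤ η ^ 2 * X.W ^ 2) :
    ∑ k, ∑ a, (wi * (X.Bt k a - X.AH k a)) ^ 2 ≤ 2 * (X.n + 1) * η ^ 2 := by
  have h0 := Db_W_pos h
  have hn := h.A3_n
  have h1 : ∑ k, ∑ a, (wi * (X.Bt k a - X.AH k a)) ^ 2 =
      wi ^ 2 * ∑ k, ∑ a, (X.Bt k a - X.AH k a) ^ 2 := by
    simp only [Finset.mul_sum, mul_pow]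
  have h2 : X.gH ≤ X.n * (η ^ 2 * X.W ^ 2) :=
    h.gH_le.trans (mul_le_mul_of_nonneg_left hv (by linarith))
  have h3 : X.u * X.W ≤ η ^ 2 * X.W * X.W := mul_le_mul_of_nonneg_right hu h0.le
  have h4 : ∑ k, ∑ a, (X.Bt k a - X.AH k a) ^ 2 ≤ 2 * (X.n + 1) * η ^ 2 * X.W ^ 2 := by
    have := Db_BA h
    nlinarith
  rw [h1]
  refine (mul_le_mul_of_nonneg_left h4 (by positivity)).trans (le_of_eq ?_)
  have : wi ^ 2 * (2 * (X.n + 1) * η ^ 2 * X.W ^ 2) = 2 * (X.n + 1) * η ^ 2 * (wi * X.W) ^ 2 := by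
    ring
  rw [this, hw, one_pow, mul_one]

theorem Db_E (t : ι → ι → ι → ℝ) (b : ι → ι → ℝ) (z H : ι → ℝ) :
    ∑ k, ∑ a, ∑ d, (t k a d + t k d a + b k a * H d + H a * b k d + z k * (H a * H d)) ^ 2 ≤
      10 * (∑ k, ∑ a, ∑ d, t k a d ^ 2) + 10 * ((∑ k, ∑ a, b k a ^ 2) * ∑ c, H c ^ 2) +
        5 * ((∑ k, z k ^ 2) * ((∑ c, H c ^ 2) * ∑ c, H c ^ 2)) := by
  have e1 : ∑ k, ∑ a, ∑ d, t k d a ^ 2 = ∑ k, ∑ a, ∑ d, t k a d ^ 2 :=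
    Finset.sum_congr rfl fun k _ => Finset.sum_comm
  have e2 : ∑ k, ∑ a, ∑ d, (b k a * H d) ^ 2 = (∑ k, ∑ a, b k a ^ 2) * ∑ c, H c ^ 2 := by
    simp only [mul_pow, ← Finset.mul_sum, ← Finset.sum_mul]
  have e3 : ∑ k, ∑ a, ∑ d, (H a * b k d) ^ 2 = (∑ k, ∑ a, b k a ^ 2) * ∑ c, H c ^ 2 := by
    rw [← e2]
    refine Finset.sum_congr rfl fun k _ => Finset.sum_comm.trans ?_
    simp only [mul_comm]
  have e4 : ∑ k, ∑ a, ∑ d, (z k * (H a * H d)) ^ 2 =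
      (∑ k, z k ^ 2) * ((∑ c, H c ^ 2) * ∑ c, H c ^ 2) := by
    simp only [mul_pow, ← Finset.mul_sum, ← Finset.sum_mul]
  have h5 : ∀ p q r s w : ℝ, (p + q + r + s + w) ^ 2 ≤
      5 * p ^ 2 + 5 * q ^ 2 + 5 * r ^ 2 + 5 * s ^ 2 + 5 * w ^ 2 := by
    intro p q r s w
    nlinarith [sq_nonneg (p - q), sq_nonneg (p - r), sq_nonneg (p - s), sq_nonneg (p - w),
      sq_nonneg (q - r), sq_nonneg (q - s), sq_nonneg (q - w), sq_nonneg (r - s),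
      sq_nonneg (r - w), sq_nonneg (s - w)]
  refine (Finset.sum_le_sum fun k _ => Finset.sum_le_sum fun a _ => Finset.sum_le_sum fun d _ =>
    h5 _ _ _ _ _).trans (le_of_eq ?_)
  simp only [Finset.sum_add_distrib, ← Finset.mul_sum]
  rw [e1, e2, e3, e4]
  ring

theorem Db_m (r : ℝ) (b : ι → ι → ℝ) (z H : ι → ℝ) :
    ∑ k, ∑ c, (r * b k c + r * (z k * H c)) ^ 2 ≤
      2 * r ^ 2 * (∑ k, ∑ a, b k a ^ 2) + 2 * r ^ 2 * ((∑ k, z k ^ 2) * ∑ c, H c ^ 2) := by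
  have h2 : ∀ p q : ℝ, (r * p + r * q) ^ 2 ≤ 2 * r ^ 2 * p ^ 2 + 2 * r ^ 2 * q ^ 2 := by
    intro p q
    nlinarith [sq_nonneg (r * p - r * q)]
  refine (Finset.sum_le_sum fun k _ => Finset.sum_le_sum fun c _ => h2 _ _).trans (le_of_eq ?_)
  simp only [Finset.sum_add_distrib, mul_pow, ← Finset.mul_sum, ← Finset.sum_mul]

end real

theorem Db_D_HH (k c : ι) : S.D k (S.arr.HH c) = S.arr.Bt k c - S.arr.AH k c -
    algebraMap ℝ R (S.n : ℝ)⁻¹ * (S.P k c * S.arr.W) := by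
  rw [S.D_HH, sub_sub, Arr.AH, Arr.W, Finset.mul_sum, Finset.mul_sum, ← Finset.sum_add_distrib]
  congr 1
  refine Finset.sum_congr rfl fun e _ => ?_
  rw [Arr.T0, Algebra.smul_def]
  change _ = (S.T k c e - algebraMap ℝ R (S.n : ℝ)⁻¹ * (S.P k c * S.arr.HH e)) * _ + _
  ring

theorem Db_T (k a d : ι) : S.T k a d =
    S.arr.T0 k a d + algebraMap ℝ R (S.n : ℝ)⁻¹ * (S.P k a * S.arr.HH d) := by
  rw [Arr.T0, Algebra.smul_def]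
  exact (sub_add_cancel _ _).symm

theorem D_Wi (hW : Wi * S.arr.W = 1) (k : ι) :
    S.D k Wi = -(2 * (Wi * Wi * ∑ c, S.arr.HH c * S.arr.Bt k c)) := by
  have h := congrArg (S.D k) hW
  rw [Derivation.leibniz, Derivation.map_one_eq_zero, S.D_W, smul_eq_mul, smul_eq_mul] at h
  linear_combination Wi * h - S.D k Wi * hW

theorem D_Ep (hW : Wi * S.arr.W = 1) (k a d : ι) : S.D k (S.arr.Ep Wi a d) =
    S.arr.T0 k a d + S.arr.T0 k d a + Wi * ((S.arr.Bt k a - S.arr.AH k a) * S.arr.HH d) +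
      Wi * (S.arr.HH a * (S.arr.Bt k d - S.arr.AH k d)) +
      S.D k Wi * (S.arr.HH a * S.arr.HH d) := by
  have h : S.D k (S.arr.P a d) = S.T k a d + S.T k d a := S.D_P k a d
  rw [Arr.Ep, map_add, h, Derivation.leibniz, Derivation.leibniz, S.Db_D_HH, S.Db_D_HH, S.Db_T,
    S.Db_T k d a]
  simp only [smul_eq_mul]
  linear_combination (-(algebraMap ℝ R (S.n : ℝ)⁻¹ * (S.P k a * S.arr.HH d)) -
    algebraMap ℝ R (S.n : ℝ)⁻¹ * (S.P k d * S.arr.HH a)) * hW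

theorem D_cen (hW : Wi * S.arr.W = 1) (k c : ι) : S.D k (S.arr.cen Wi c) =
    S.n * (Wi * (S.arr.Bt k c - S.arr.AH k c)) + S.n * (S.D k Wi * S.arr.HH c) := by
  have h : S.D k (S.arr.F c) = S.P k c := rfl
  have hn : algebraMap ℝ R (S.n : ℝ)⁻¹ * (S.n : R) = 1 := S.good.A1_ni
  have h0 : S.D k (S.arr.n : R) = 0 := Derivation.map_natCast _ _
  rw [Arr.cen, map_add, h, Derivation.leibniz, Derivation.leibniz, S.Db_D_HH, h0]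
  simp only [smul_eq_mul]
  change _ + ((S.n : R) * _ + _) = _
  linear_combination (-(S.P k c)) * hn -
    (algebraMap ℝ R (S.n : ℝ)⁻¹ * (S.n : R) * S.P k c) * hW

theorem Db_ev_W (hW : Wi * S.arr.W = 1) : ev Wi * (S.pt ev).W = 1 := by
  rw [pt, Arr.map_W, ← map_mul, hW, map_one]

theorem Db_ev_Wi (hW : Wi * S.arr.W = 1) (k : ι) : ev (S.D k Wi) =
    -(2 * (ev Wi * ev Wi * ∑ c, (S.pt ev).HH c * (S.pt ev).Bt k c)) := by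
  simp only [S.D_Wi hW, pt, Arr.map_HH, Arr.map_Bt, map_neg, map_mul, map_sum, map_ofNat]

theorem Db_sum_Wi (hW : Wi * S.arr.W = 1) (hv : ev S.arr.v ≤ η ^ 2 * ev S.arr.W ^ 2) :
    ∑ k, ev (S.D k Wi) ^ 2 ≤ 4 * S.n * η ^ 2 * ev Wi := by
  simp only [S.Db_ev_Wi ev hW]
  exact Db_dw (S.good_pt ev) (S.Db_ev_W ev hW) (by rwa [pt, Arr.map_v, Arr.map_W])

theorem dE_le (hW : Wi * S.arr.W = 1) (hη : 0 ≤ η) (hu : ev S.arr.u ≤ η ^ 2 * ev S.arr.W)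
    (hv : ev S.arr.v ≤ η ^ 2 * ev S.arr.W ^ 2) (ξ : ι → ℝ) :
    ∑ a, ∑ d, (∑ k, ξ k * ev (S.D k (S.arr.Ep Wi a d))) ^ 2 ≤
      (8 * (S.n : ℝ) * η) ^ 2 * ev S.arr.W * ∑ k, ξ k ^ 2 := by
  have h := S.good_pt ev
  have hw := S.Db_ev_W ev hW
  have h1 := S.Db_sum_Wi ev hW hv
  have eW : ev S.arr.W = (S.pt ev).W := by rw [pt, Arr.map_W]
  have eu : ev S.arr.u = (S.pt ev).u := by rw [pt, Arr.map_u]
  have ev' : ev S.arr.v = (S.pt ev).v := by rw [pt, Arr.map_v]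
  rw [eW, eu] at hu
  rw [eW, ev'] at hv
  have h2 := Db_ba h hw hu hv
  have e : ∀ k a d, ev (S.D k (S.arr.Ep Wi a d)) = (S.pt ev).T0 k a d + (S.pt ev).T0 k d a +
      ev Wi * ((S.pt ev).Bt k a - (S.pt ev).AH k a) * (S.pt ev).HH d +
      (S.pt ev).HH a * (ev Wi * ((S.pt ev).Bt k d - (S.pt ev).AH k d)) +
      ev (S.D k Wi) * ((S.pt ev).HH a * (S.pt ev).HH d) := by
    intro k a d
    simp only [S.D_Ep hW, pt, Arr.map_HH, Arr.map_Bt, Arr.map_T0, Arr.A1_map_AH, map_add, map_mul,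
      map_sub]
    ring
  refine (Db_cs2 ξ fun k a d => ev (S.D k (S.arr.Ep Wi a d))).trans
    (mul_le_mul_of_nonneg_right ?_ (Finset.sum_nonneg fun _ _ => sq_nonneg _))
  simp only [e]
  refine (Db_E (S.pt ev).T0 (fun k a => ev Wi * ((S.pt ev).Bt k a - (S.pt ev).AH k a))
    (fun k => ev (S.D k Wi)) (S.pt ev).HH).trans ?_
  rw [Db_u h, Db_W, eW]
  have h0 := Db_W_pos h
  have hn : (2 : ℝ) ≤ S.n := h.A3_n
  have en : ((S.pt ev).n : ℝ) = S.n := rfl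
  rw [en] at h2
  have h3 := mul_le_mul_of_nonneg_right h2 h0.le
  have h4 := mul_le_mul_of_nonneg_right h1 (mul_pos h0 h0).le
  have h5 : 4 * S.n * η ^ 2 * ev Wi * ((S.pt ev).W * (S.pt ev).W) =
      4 * S.n * (η ^ 2 * (S.pt ev).W) := by
    linear_combination (4 * S.n * η ^ 2 * (S.pt ev).W) * hw
  have h6 : 0 ≤ η ^ 2 * (S.pt ev).W := mul_nonneg (pow_nonneg hη 2) h0.le
  have h7 : (40 * (S.n : ℝ) + 30) * (η ^ 2 * (S.pt ev).W) ≤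
      64 * (S.n : ℝ) ^ 2 * (η ^ 2 * (S.pt ev).W) :=
    mul_le_mul_of_nonneg_right (by nlinarith) h6
  rw [h5] at h4
  nlinarith

theorem dm_le (hW : Wi * S.arr.W = 1) (hη : 0 ≤ η) (hu : ev S.arr.u ≤ η ^ 2 * ev S.arr.W)
    (hv : ev S.arr.v ≤ η ^ 2 * ev S.arr.W ^ 2) (ξ : ι → ℝ) :
    ∑ c, (∑ k, ξ k * ev (S.D k (S.arr.cen Wi c))) ^ 2 ≤
      (4 * (S.n : ℝ) ^ 2 * η) ^ 2 * ∑ k, ξ k ^ 2 := by
  have h := S.good_pt ev
  have hw := S.Db_ev_W ev hW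
  have h1 := S.Db_sum_Wi ev hW hv
  have eW : ev S.arr.W = (S.pt ev).W := by rw [pt, Arr.map_W]
  have eu : ev S.arr.u = (S.pt ev).u := by rw [pt, Arr.map_u]
  have ev' : ev S.arr.v = (S.pt ev).v := by rw [pt, Arr.map_v]
  rw [eW, eu] at hu
  rw [eW, ev'] at hv
  have h2 := Db_ba h hw hu hv
  have e : ∀ k c, ev (S.D k (S.arr.cen Wi c)) =
      S.n * (ev Wi * ((S.pt ev).Bt k c - (S.pt ev).AH k c)) +
      S.n * (ev (S.D k Wi) * (S.pt ev).HH c) := by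
    intro k c
    simp only [S.D_cen hW, pt, Arr.map_HH, Arr.map_Bt, Arr.A1_map_AH, map_add, map_mul,
      map_sub, map_natCast]
  refine (Db_cs1 ξ fun k c => ev (S.D k (S.arr.cen Wi c))).trans
    (mul_le_mul_of_nonneg_right ?_ (Finset.sum_nonneg fun _ _ => sq_nonneg _))
  simp only [e]
  refine (Db_m S.n (fun k a => ev Wi * ((S.pt ev).Bt k a - (S.pt ev).AH k a))
    (fun k => ev (S.D k Wi)) (S.pt ev).HH).trans ?_
  rw [Db_W]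
  have h0 := Db_W_pos h
  have hn : (2 : ℝ) ≤ S.n := h.A3_n
  have en : ((S.pt ev).n : ℝ) = S.n := rfl
  rw [en] at h2
  have h4 := mul_le_mul_of_nonneg_right h1 h0.le
  have h5 : 4 * S.n * η ^ 2 * ev Wi * (S.pt ev).W = 4 * S.n * η ^ 2 := by
    linear_combination (4 * S.n * η ^ 2) * hw
  rw [h5] at h4
  have h6 : 0 ≤ η ^ 2 := pow_nonneg hη 2
  have h7 : 2 * ((S.n : ℝ) + 1) * η ^ 2 + 4 * S.n * η ^ 2 ≤ 8 * (S.n : ℝ) ^ 2 * η ^ 2 := by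
    have : (6 * (S.n : ℝ) + 2) * η ^ 2 ≤ 8 * (S.n : ℝ) ^ 2 * η ^ 2 :=
      mul_le_mul_of_nonneg_right (by nlinarith) h6
    linarith
  have h8 := mul_le_mul_of_nonneg_left ((add_le_add h2 h4).trans h7)
    (by positivity : 0 ≤ 2 * (S.n : ℝ) ^ 2)
  nlinarith

theorem dWi_le (hW : Wi * S.arr.W = 1) (hv : ev S.arr.v ≤ η ^ 2 * ev S.arr.W ^ 2) (ξ : ι → ℝ) :
    (∑ k, ξ k * ev (S.D k Wi)) ^ 2 ≤ 4 * S.n * η ^ 2 * ev Wi * ∑ k, ξ k ^ 2 :=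
  (Db_cs ξ fun k => ev (S.D k Wi)).trans (mul_le_mul_of_nonneg_right (S.Db_sum_Wi ev hW hv)
    (Finset.sum_nonneg fun _ _ => sq_nonneg _))

theorem dtP_le : ∑ a, ∑ d, ev (S.dt (S.P a d)) ^ 2 ≤ 4 * (S.n * ev S.arr.v) := by
  have h := S.good_pt ev
  have e : ∀ a d, ev (S.dt (S.P a d)) = (S.pt ev).Bt a d + (S.pt ev).Bt d a := by
    intro a d
    simp only [S.dt_P, pt, Arr.map_Bt, map_add]
  have h1 : ∑ a, ∑ d, ((S.pt ev).Bt a d + (S.pt ev).Bt d a) ^ 2 ≤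
      ∑ a, ∑ d, (2 * (S.pt ev).Bt a d ^ 2 + 2 * (S.pt ev).Bt d a ^ 2) :=
    Finset.sum_le_sum fun a _ => Finset.sum_le_sum fun d _ => by
      nlinarith [sq_nonneg ((S.pt ev).Bt a d - (S.pt ev).Bt d a)]
  have h2 : ∑ a, ∑ d, (S.pt ev).Bt d a ^ 2 = (S.pt ev).gH := Finset.sum_comm.trans (Db_gH _)
  simp only [Finset.sum_add_distrib, ← Finset.mul_sum] at h1
  rw [h2, Db_gH] at h1
  have h3 : (S.pt ev).gH ≤ S.n * (S.pt ev).v := h.gH_le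
  have ev' : ev S.arr.v = (S.pt ev).v := by rw [pt, Arr.map_v]
  simp only [e, ev']
  linarith

end Pool.Agent.Lib.MP_de485e_gt.Hi.QA
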