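import Pool.Agent.Lib.MP_de485e_gt.Hi.Br3

/-! The gradient terms at a touching configuration. -/

namespace Pool.Agent.Lib.MP_de485e_gt.Hi

variable {ι : Type} [Fintype ι]

private theorem Grad_split {e e' : ι → ℝ} (he : dot e e = 1) (he' : dot e' e' = 1)
    (hp : dot e e' = 0) (f g : ι → ℝ) :
    ∑ k, (f k - dot f e * e k - dot f e' * e' k) * (g k - dot g e * e k - dot g e' * e' k) =
      dot f g - dot f e * dot g e - dot f e' * dot g e' := by
  have h : ∀ A B C D : ℝ, ∑ k, (f k - A * e k - B * e' k) * (g k - C * e k - D * e' k) =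
      dot f g - C * dot f e - D * dot f e' - A * dot g e - B * dot g e' + A * C * dot e e +
        (A * D + B * C) * dot e e' + B * D * dot e' e' := by
    intro A B C D
    simp only [dot, Finset.mul_sum, ← Finset.sum_sub_distrib, ← Finset.sum_add_distrib]
    exact Finset.sum_congr rfl fun k _ => by ring
  rw [h, he, he', hp]
  ring

private theorem Grad_bessel {e e' : ι → ℝ} (he : dot e e = 1) (he' : dot e' e' = 1)
    (hp : dot e e' = 0) (f : ι → ℝ) : dot f e ^ 2 + dot f e' ^ 2 ≤ ∑ k, f k ^ 2 := by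
  have h := Grad_split he he' hp f f
  have h0 : 0 ≤ ∑ k, (f k - dot f e * e k - dot f e' * e' k) *
      (f k - dot f e * e k - dot f e' * e' k) := Finset.sum_nonneg fun k _ => mul_self_nonneg _
  have h1 : dot f f = ∑ k, f k ^ 2 := Finset.sum_congr rfl fun k _ => by ring
  rw [h, h1] at h0
  nlinarith

private theorem Grad_comm (f g : ι → ℝ) : dot f g = dot g f :=
  Finset.sum_congr rfl fun _ _ => mul_comm _ _

/-- The lower bound for the first double sum. -/
private theorem Grad_low (β : ι → ι → ι → ℝ) (h1 : ∀ k a b, β k a b = β a k b)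
    (h2 : ∀ k a b, β k a b = β k b a) {e e' : ι → ℝ} (he : dot e e = 1) (he' : dot e' e' = 1)
    (hp : dot e e' = 0) {x y : ι → ℝ}
    (hx : ∀ k, x k = ∑ d, (∑ a, β k d a * e a) * e d)
    (hy : ∀ k, y k = ∑ d, (∑ a, β k d a * e' a) * e' d) :
    dot x x - dot x e ^ 2 + dot y e ^ 2 ≤ ∑ k, ∑ d, (∑ a, β k d a * e a - x k * e d) ^ 2 := by
  rw [Finset.sum_comm]
  have hlin : ∀ (w : ι → ℝ) (d : ι), dot (fun k => ∑ a, β k d a * e a - x k * e d) w =
      ∑ k, (∑ a, β d k a * e a) * w k - dot x w * e d := by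
    intro w d
    simp only [dot, Finset.sum_mul, sub_mul, Finset.sum_sub_distrib]
    congr 1
    · exact Finset.sum_congr rfl fun k _ => Finset.sum_congr rfl fun a _ => by rw [h1]
    · exact Finset.sum_congr rfl fun k _ => by ring
  have hA : ∑ d, (x d - dot x e * e d) ^ 2 = dot x x - dot x e ^ 2 := by
    have : ∀ A : ℝ, ∑ d, (x d - A * e d) ^ 2 = dot x x - 2 * A * dot x e + A ^ 2 * dot e e := by
      intro A
      simp only [dot, Finset.mul_sum, ← Finset.sum_sub_distrib, ← Finset.sum_add_distrib]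
      exact Finset.sum_congr rfl fun k _ => by ring
    rw [this, he]
    ring
  have hB : dot y e ^ 2 ≤ ∑ d, (∑ k, (∑ a, β d k a * e a) * e' k - dot x e' * e d) ^ 2 := by
    have hb := Grad_bessel he he' hp fun d => ∑ k, (∑ a, β d k a * e a) * e' k - dot x e' * e d
    have hv : dot (fun d => ∑ k, (∑ a, β d k a * e a) * e' k - dot x e' * e d) e' = dot y e := by
      have e1 : ∀ A : ℝ, dot (fun d => ∑ k, (∑ a, β d k a * e a) * e' k - A * e d) e' =
          ∑ d, (∑ k, (∑ a, β d k a * e a) * e' k) * e' d - A * dot e e' := by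
        intro A
        simp only [dot, sub_mul, Finset.sum_sub_distrib, Finset.mul_sum, mul_assoc]
      rw [e1, hp, mul_zero, sub_zero]
      simp only [dot, hy, Finset.sum_mul]
      calc ∑ d, ∑ k, ∑ a, β d k a * e a * e' k * e' d
          = ∑ d, ∑ a, ∑ k, β d k a * e a * e' k * e' d :=
            Finset.sum_congr rfl fun d _ => Finset.sum_comm
        _ = ∑ a, ∑ d, ∑ k, β d k a * e a * e' k * e' d := Finset.sum_comm
        _ = _ := Finset.sum_congr rfl fun a _ => Finset.sum_congr rfl fun d _ =>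
            Finset.sum_congr rfl fun k _ => by rw [h2 d k a, h1 d a k]; ring
    rw [hv] at hb
    nlinarith [sq_nonneg (dot (fun d => ∑ k, (∑ a, β d k a * e a) * e' k - dot x e' * e d) e)]
  calc dot x x - dot x e ^ 2 + dot y e ^ 2
      ≤ ∑ d, (x d - dot x e * e d) ^ 2 +
        ∑ d, (∑ k, (∑ a, β d k a * e a) * e' k - dot x e' * e d) ^ 2 := by rw [hA]; linarith
    _ ≤ _ := by
      rw [← Finset.sum_add_distrib]
      refine Finset.sum_le_sum fun d _ => ?_
      have hb := Grad_bessel he he' hp fun k => ∑ a, β k d a * e a - x k * e d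
      rw [hlin, hlin, ← hx d] at hb
      exact hb

/-- With `x k = β k e e`, `y k = β k e' e'`: by Bessel in the index `k` the first double sum is at
least `|x| ^ 2 - ⟪x, e⟫ ^ 2 + ⟪y, e⟫ ^ 2`; then split `x`, `y` along `e`, `e'` and the rest. -/
theorem grad_form (β : ι → ι → ι → ℝ) (h1 : ∀ k a b, β k a b = β a k b)
    (h2 : ∀ k a b, β k a b = β k b a) {e e' : ι → ℝ} (he : dot e e = 1) (he' : dot e' e' = 1)
    (hp : dot e e' = 0) {Z α γ : ℝ} (hZ : 0 ≤ Z) (hZ1 : Z ≤ 1) (hα : 0 ≤ α) (hγ : 0 ≤ γ)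
    (hs : α + γ = 4 + 4 * Z) (hm : 4 + 4 * Z ≤ α * γ) {x y : ι → ℝ}
    (hx : ∀ k, x k = ∑ d, (∑ a, β k d a * e a) * e d)
    (hy : ∀ k, y k = ∑ d, (∑ a, β k d a * e' a) * e' d) :
    -(2 * α * ∑ k, ∑ d, (∑ a, β k d a * e a - x k * e d) ^ 2) -
      2 * γ * ∑ k, ∑ d, (∑ a, β k d a * e' a - y k * e' d) ^ 2 -
      ∑ k, (2 * (x k - y k) ^ 2 - 8 * Z * (x k * y k)) ≤ 0 := by
  have hp' : dot e' e = 0 := by rw [Grad_comm]; exact hp
  have s1 := Grad_low β h1 h2 he he' hp hx hy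
  have s2 := Grad_low β h1 h2 he' he hp' hy hx
  have hxx := Grad_split he he' hp x x
  have hyy := Grad_split he he' hp y y
  have hxy := Grad_split he he' hp x y
  have hS : ∑ k, (2 * (x k - y k) ^ 2 - 8 * Z * (x k * y k)) =
      2 * dot x x + 2 * dot y y - (4 + 8 * Z) * dot x y := by
    simp only [dot, Finset.mul_sum, ← Finset.sum_sub_distrib, ← Finset.sum_add_distrib]
    exact Finset.sum_congr rfl fun k _ => by ring
  have hα0 : 0 < α := by
    rcases hα.lt_or_eq with h | h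
    · exact h
    · rw [← h] at hm; linarith
  have hq : ∀ p q : ℝ, 0 ≤ (2 * α + 2) * (p * p) + (2 * γ + 2) * (q * q) - (4 + 8 * Z) * (p * q) := by
    intro p q
    have h3 : 0 ≤ α * γ - 4 * Z ^ 2 := by nlinarith
    have h4 : 0 ≤ α * (α * p ^ 2 + γ * q ^ 2 - 4 * Z * (p * q)) := by
      nlinarith [sq_nonneg (α * p - 2 * Z * q), mul_nonneg h3 (sq_nonneg q)]
    have h5 := (mul_nonneg_iff_of_pos_left hα0).1 h4
    nlinarith [sq_nonneg (p - q)]
  have hP : 0 ≤ (2 * α + 2) * (dot x x - dot x e * dot x e - dot x e' * dot x e') +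
      (2 * γ + 2) * (dot y y - dot y e * dot y e - dot y e' * dot y e') -
      (4 + 8 * Z) * (dot x y - dot x e * dot y e - dot x e' * dot y e') := by
    rw [← hxx, ← hyy, ← hxy]
    simp only [Finset.mul_sum, ← Finset.sum_sub_distrib, ← Finset.sum_add_distrib]
    exact Finset.sum_nonneg fun k _ => hq _ _
  have hd : ∀ s t : ℝ, 0 ≤ (10 + 8 * Z) * t ^ 2 + 2 * s ^ 2 - (4 + 8 * Z) * (s * t) := by
    intro s t
    have h3 : 0 ≤ 1 - Z ^ 2 := by nlinarith
    nlinarith [sq_nonneg (s - (1 + 2 * Z) * t), mul_nonneg h3 (sq_nonneg t)]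
  have d1 := hd (dot x e) (dot y e)
  have d2 := hd (dot y e') (dot x e')
  have m1 := mul_le_mul_of_nonneg_left s1 hα
  have m2 := mul_le_mul_of_nonneg_left s2 hγ
  rw [hS]
  have hγe : γ = 4 + 4 * Z - α := by linarith
  subst hγe
  linarith

namespace Arr

variable {X : Arr ι ℝ} (h : X.Good) {ν e : ι → ℝ}
include h

omit h in
private theorem Grad_tan_sum {κ : Type} [Fintype κ] {f : κ → ι → ℝ} (hf : ∀ j, X.Tan (f j))
    (c : κ → ℝ) : X.Tan fun a => ∑ j, f j a * c j := by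
  intro a
  simp only [Finset.mul_sum]
  rw [Finset.sum_comm]
  refine Finset.sum_congr rfl fun j _ => ?_
  rw [← hf j a, Finset.sum_mul]
  exact Finset.sum_congr rfl fun b _ => by ring

omit h in
private theorem Grad_tan_comb {f g : ι → ℝ} (hf : X.Tan f) (hg : X.Tan g) (τ c : ℝ) :
    X.Tan fun a => τ * (f a - g a * c) := by
  intro a
  have : ∑ b, X.P a b * (τ * (f b - g b * c)) =
      τ * (∑ b, X.P a b * f b - (∑ b, X.P a b * g b) * c) := by
    simp only [Finset.mul_sum, Finset.sum_mul, ← Finset.sum_sub_distrib]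
    exact Finset.sum_congr rfl fun b _ => by ring
  rw [this, hf a, hg a]

omit h in
private theorem Grad_be (k d : ι) : X.be ν e k d = ∑ a, (∑ c, X.B k d a c * ν c) * e a := by
  simp only [be, Finset.sum_mul]
  exact Finset.sum_congr rfl fun a _ => Finset.sum_congr rfl fun c _ => by ring

private theorem Grad_be_tan (d : ι) : X.Tan fun k => X.be ν e k d := by
  simp only [Grad_be]
  exact Grad_tan_sum (fun a => Grad_tan_sum (fun c => h.Btan d a c) ν) e

private theorem Grad_be_tan2 (k : ι) : X.Tan fun d => X.be ν e k d := by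
  simp only [Grad_be]
  exact Grad_tan_sum (fun a => Grad_tan_sum (fun c => h.Btan2 k a c) ν) e

theorem Gam_tan (he : X.UT e) (τ : ℝ) (k : ι) : X.Tan fun d => X.Gam ν e τ d k := by
  have := Grad_tan_comb (Grad_be_tan2 h (ν := ν) (e := e) k) he.1 τ (X.bx ν e k)
  simpa only [Gam, mul_comm (X.bx ν e k)] using this

theorem Gam_tan' (τ : ℝ) (d : ι) : X.Tan (X.Gam ν e τ d) :=
  Grad_tan_comb (Grad_be_tan h d) (Grad_tan_sum (fun j => Grad_be_tan h j) e) τ (e d)

theorem Gam_perp (he : X.UT e) (τ : ℝ) (k : ι) : ∑ d, e d * X.Gam ν e τ d k = 0 := by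
  have h0 := h.hn
  have : ∑ d, e d * X.Gam ν e τ d k =
      τ * (∑ d, X.be ν e k d * e d - X.bx ν e k * dot e e) := by
    simp only [Gam, dot, Finset.mul_sum, ← Finset.sum_sub_distrib]
    exact Finset.sum_congr rfl fun d _ => by ring
  rw [this, he.2, bx]
  ring

omit h in
private theorem Grad_Av (x : ι → ℝ) : X.Av ν x x = ∑ d, ∑ f, X.Am ν d f * x d * x f := by
  simp only [Av, dot, Tv, Am, Finset.sum_mul]
  calc ∑ c, ∑ a, ∑ b, x a * x b * X.T a b c * ν c
      = ∑ a, ∑ c, ∑ b, x a * x b * X.T a b c * ν c := Finset.sum_comm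
    _ = ∑ a, ∑ b, ∑ c, x a * x b * X.T a b c * ν c :=
        Finset.sum_congr rfl fun a _ => Finset.sum_comm
    _ = _ := Finset.sum_congr rfl fun a _ => Finset.sum_congr rfl fun b _ =>
        Finset.sum_congr rfl fun c _ => by ring

private theorem Grad_GT (he : X.UT e) (τ a : ℝ) : X.GT ν e a (X.Gam ν e τ) =
    -(4 * τ * ∑ k, ∑ d, (X.be ν e k d - X.bx ν e k * e d) ^ 2) +
      2 * ∑ k, (a * dot (fun d => X.Gam ν e τ d k) (fun d => X.Gam ν e τ d k) -
        X.Av ν (fun d => X.Gam ν e τ d k) fun d => X.Gam ν e τ d k) := by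
  have h1 : ∀ k, ∑ d, X.be ν e k d * X.Gam ν e τ d k =
      τ * ∑ d, (X.be ν e k d - X.bx ν e k * e d) ^ 2 := by
    intro k
    have h2 := Gam_perp h (ν := ν) he τ k
    have h3 : ∑ d, X.be ν e k d * X.Gam ν e τ d k =
        τ * ∑ d, (X.be ν e k d - X.bx ν e k * e d) ^ 2 +
          X.bx ν e k * ∑ d, e d * X.Gam ν e τ d k := by
      simp only [Gam, Finset.mul_sum, ← Finset.sum_add_distrib]
      exact Finset.sum_congr rfl fun d _ => by ring
    rw [h3, h2, mul_zero, add_zero]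
  simp only [GT, h1, Grad_Av, dot, Finset.sum_sub_distrib, ← Finset.mul_sum, sq]
  ring

omit h in
private theorem Grad_dot (τ : ℝ) :
    ∑ k, dot (fun d => X.Gam ν e τ d k) (fun d => X.Gam ν e τ d k) =
      τ ^ 2 * ∑ k, ∑ d, (X.be ν e k d - X.bx ν e k * e d) ^ 2 := by
  simp only [dot, Gam, Finset.mul_sum]
  exact Finset.sum_congr rfl fun k _ => Finset.sum_congr rfl fun d _ => by ring

theorem Tch.grad_nonpos {p : Par X.n} {e' : ι → ℝ} {a b : ℝ} (t : X.Tch p ν e e' a b) :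
    p.Pa a b * X.GT ν e a (X.Gam ν e (a - b)⁻¹) + p.Pb a b * X.GT ν e' b (X.Gam ν e' (-(a - b)⁻¹)) -
      ∑ k, (2 * (X.bx ν e k - X.bx ν e' k) ^ 2 - 8 * p.Z * (X.bx ν e k * X.bx ν e' k)) ≤ 0 := by
  obtain ⟨-, hab, hPa, hPb, hm⟩ := t.signs h
  have hD : 0 < a - b := sub_pos.2 hab
  have hZ1 : p.Z ≤ 1 := by linarith [p.hZm, p.hm]
  have hs : p.Pa a b / (a - b) + -p.Pb a b / (a - b) = 4 + 4 * p.Z := by
    rw [← add_div, div_eq_iff hD.ne']
    simp only [Par.Pa, Par.Pb]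
    ring
  have hm' : 4 + 4 * p.Z ≤ p.Pa a b / (a - b) * (-p.Pb a b / (a - b)) := by
    rw [div_mul_div_comm, le_div_iff₀ (mul_pos hD hD), ← sq]
    exact hm
  have key := grad_form (fun k d a => ∑ c, X.B k d a c * ν c)
    (fun k a b => Finset.sum_congr rfl fun c _ => by rw [h.B12])
    (fun k a b => Finset.sum_congr rfl fun c _ => by rw [h.B23]) t.he.2 t.he'.2 (t.perp h)
    p.hZ.le hZ1 (div_pos hPa hD).le (div_pos (neg_pos.2 hPb) hD).le hs hm'
    (x := X.bx ν e) (y := X.bx ν e') (fun k => by simp only [bx, Grad_be])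
    (fun k => by simp only [bx, Grad_be])
  simp only [← Grad_be] at key
  set S1 := ∑ k, ∑ d, (X.be ν e k d - X.bx ν e k * e d) ^ 2 with hS1
  set S2 := ∑ k, ∑ d, (X.be ν e' k d - X.bx ν e' k * e' d) ^ 2 with hS2
  have g1 : X.GT ν e a (X.Gam ν e (a - b)⁻¹) ≤ -(2 * (a - b)⁻¹ * S1) := by
    rw [Grad_GT h t.he, ← hS1]
    have : ∑ k, (a * dot (fun d => X.Gam ν e (a - b)⁻¹ d k) (fun d => X.Gam ν e (a - b)⁻¹ d k) -
        X.Av ν (fun d => X.Gam ν e (a - b)⁻¹ d k) fun d => X.Gam ν e (a - b)⁻¹ d k) ≤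
        (a - b) * ((a - b)⁻¹ ^ 2 * S1) := by
      rw [hS1, ← Grad_dot, Finset.mul_sum]
      refine Finset.sum_le_sum fun k _ => ?_
      have := (t.between h (Gam_tan h (ν := ν) t.he (a - b)⁻¹ k)).1
      linarith
    have e1 : (a - b) * ((a - b)⁻¹ ^ 2 * S1) = (a - b)⁻¹ * S1 := by field_simp
    linarith
  have g2 : 2 * (a - b)⁻¹ * S2 ≤ X.GT ν e' b (X.Gam ν e' (-(a - b)⁻¹)) := by
    rw [Grad_GT h t.he', ← hS2]
    have : -((a - b) * ((-(a - b)⁻¹) ^ 2 * S2)) ≤
        ∑ k, (b * dot (fun d => X.Gam ν e' (-(a - b)⁻¹) d k)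
          (fun d => X.Gam ν e' (-(a - b)⁻¹) d k) -
        X.Av ν (fun d => X.Gam ν e' (-(a - b)⁻¹) d k) fun d => X.Gam ν e' (-(a - b)⁻¹) d k) := by
      rw [hS2, ← Grad_dot, Finset.mul_sum, ← Finset.sum_neg_distrib]
      refine Finset.sum_le_sum fun k _ => ?_
      have := (t.between h (Gam_tan h (ν := ν) t.he' (-(a - b)⁻¹) k)).2
      linarith
    have e1 : (a - b) * ((-(a - b)⁻¹) ^ 2 * S2) = (a - b)⁻¹ * S2 := by field_simp
    linarith
  have m1 := mul_le_mul_of_nonneg_left g1 hPa.le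
  have m2 := mul_le_mul_of_nonpos_left g2 hPb.le
  have e1 : p.Pa a b * -(2 * (a - b)⁻¹ * S1) = -(2 * (p.Pa a b / (a - b)) * S1) := by
    rw [div_eq_mul_inv]; ring
  have e2 : p.Pb a b * (2 * (a - b)⁻¹ * S2) = -(2 * (-p.Pb a b / (a - b)) * S2) := by
    rw [div_eq_mul_inv]; ring
  linarith

end Arr

end Pool.Agent.Lib.MP_de485e_gt.Hi
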