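import Pool.Agent.Lib.MP_de485e_gt.Hi.R1

/-! The Codazzi identity and first derivatives of the invariants. -/

namespace Pool.Agent.Lib.MP_de485e_gt.Hi.QA

variable {ι : Type} [Fintype ι] {R : Type} [CommRing R] [Algebra ℝ R] (S : QA ι R)

section helpers

variable {X : Arr ι R}

theorem R2_tan_l {f : ι → ι → R} (hf : ∀ e, X.Tan (f e)) (g : ι → R) :
    X.Tan fun a => ∑ e, f e a * g e := by
  intro a
  simp only [Finset.mul_sum]
  rw [Finset.sum_comm]
  refine Finset.sum_congr rfl fun e _ => ?_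
  rw [← hf e a, Finset.sum_mul]
  exact Finset.sum_congr rfl fun b _ => by ring

theorem R2_tan_r {f : ι → ι → R} (hf : ∀ e, X.Tan (f e)) (g : ι → R) :
    X.Tan fun a => ∑ e, g e * f e a := by
  have := R2_tan_l hf g
  simpa only [mul_comm] using this

theorem R2_nrm_l {f : ι → ι → R} (hf : ∀ e, X.Nrm (f e)) (g : ι → R) :
    X.Nrm fun a => ∑ e, f e a * g e := by
  intro a
  simp only [Finset.mul_sum]
  rw [Finset.sum_comm]
  refine Finset.sum_eq_zero fun e _ => ?_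
  have h1 : ∑ b, X.P a b * (f e b * g e) = (∑ b, X.P a b * f e b) * g e := by
    rw [Finset.sum_mul]
    exact Finset.sum_congr rfl fun b _ => by ring
  rw [h1, hf e a, zero_mul]

omit [Algebra ℝ R] in
theorem R2_z1 {F : ι → ι → ι → R} (h : ∀ b c, ∑ a, F a b c = 0) :
    ∑ a, ∑ b, ∑ c, F a b c = 0 := by
  rw [Finset.sum_comm]
  refine Finset.sum_eq_zero fun b _ => ?_
  rw [Finset.sum_comm]
  exact Finset.sum_eq_zero fun c _ => h b c

omit [Algebra ℝ R] in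
theorem R2_z2 {F : ι → ι → ι → R} (h : ∀ a c, ∑ b, F a b c = 0) :
    ∑ a, ∑ b, ∑ c, F a b c = 0 := by
  refine Finset.sum_eq_zero fun a _ => ?_
  rw [Finset.sum_comm]
  exact Finset.sum_eq_zero fun c _ => h a c

omit [Algebra ℝ R] in
theorem R2_z3 {F : ι → ι → ι → R} (h : ∀ a b, ∑ c, F a b c = 0) :
    ∑ a, ∑ b, ∑ c, F a b c = 0 :=
  Finset.sum_eq_zero fun a _ => Finset.sum_eq_zero fun b _ => h a b

omit [Algebra ℝ R] in
theorem R2_swap {α β : Type} [Fintype α] [Fintype β] (F : α → β → ι → ι → R) :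
    ∑ x, ∑ y, ∑ e, ∑ f, F x y e f = ∑ e, ∑ f, ∑ x, ∑ y, F x y e f := by
  have h1 : ∑ x, ∑ y, ∑ e, ∑ f, F x y e f = ∑ x, ∑ e, ∑ f, ∑ y, F x y e f := by
    refine Finset.sum_congr rfl fun x _ => ?_
    rw [Finset.sum_comm]
    exact Finset.sum_congr rfl fun e _ => Finset.sum_comm
  rw [h1, Finset.sum_comm]
  exact Finset.sum_congr rfl fun e _ => Finset.sum_comm

omit [Algebra ℝ R] in
theorem R2_sq0 {α β : Type} [Fintype α] [Fintype β] (A : α → ι → R) (C : β → ι → R) :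
    ∑ x, ∑ y, (∑ e, A x e * C y e) * (∑ e, A x e * C y e) =
      ∑ e, ∑ f, (∑ x, A x e * A x f) * ∑ y, C y e * C y f := by
  have h1 : ∑ x, ∑ y, (∑ e, A x e * C y e) * (∑ e, A x e * C y e) =
      ∑ x, ∑ y, ∑ e, ∑ f, (A x e * A x f) * (C y e * C y f) := by
    refine Finset.sum_congr rfl fun x _ => Finset.sum_congr rfl fun y _ => ?_
    rw [Finset.sum_mul_sum]
    exact Finset.sum_congr rfl fun e _ => Finset.sum_congr rfl fun f _ => by ring
  rw [h1, R2_swap]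
  refine Finset.sum_congr rfl fun e _ => Finset.sum_congr rfl fun f _ => ?_
  rw [Finset.sum_mul_sum]

omit [Algebra ℝ R] in
theorem R2_sq (A C : ι → ι → ι → R) :
    ∑ k, ∑ a, ∑ b, ∑ c, (∑ e, A k a e * C b c e) * (∑ e, A k a e * C b c e) =
      ∑ e, ∑ f, (∑ k, ∑ a, A k a e * A k a f) * ∑ b, ∑ c, C b c e * C b c f := by
  have := R2_sq0 (ι := ι) (fun x : ι × ι => A x.1 x.2) (fun y : ι × ι => C y.1 y.2)
  simpa only [Fintype.sum_prod_type] using this

end helpers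

theorem R2_tn {f g : ι → R} (hf : S.arr.Tan f) (hg : S.arr.Nrm g) : ∑ a, f a * g a = 0 :=
  Arr.tan_nrm S.P_symm hf hg

theorem R2_nt {f g : ι → R} (hf : S.arr.Nrm f) (hg : S.arr.Tan g) : ∑ a, f a * g a = 0 := by
  have := S.R2_tn hg hf
  simpa only [mul_comm] using this

theorem R2_B_tan3 (k a c : ι) : S.arr.Tan fun b => S.B k a b c := by
  have := S.B_tan2 k a c
  simpa only [S.B23 k _ a c] using this

/-- `comm'` for `P b c`; take the part tangential in `k`, `a`, `b` and normal in `c`. -/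
theorem B12 (k a b c : ι) : S.B k a b c = S.B a k b c := by
  have key : ∀ b c, S.B k a b c - S.B a k b c = -(S.B k a c b - S.B a k c b) := by
    intro b c
    have h1 := S.comm' k a (S.P b c)
    simp only [S.D_P, map_add, S.D_T] at h1
    have h2 : ∑ d, (S.T k d a - S.T a d k) * (S.T d b c + S.T d c b) =
        ∑ d, S.T k d a * S.T d b c + ∑ d, S.T k d a * S.T d c b - ∑ d, S.T a d k * S.T d b c -
          ∑ d, S.T a d k * S.T d c b := by
      rw [← Finset.sum_add_distrib, ← Finset.sum_sub_distrib, ← Finset.sum_sub_distrib]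
      exact Finset.sum_congr rfl fun d _ => by ring
    have h3 : ∑ e, S.T a e c * S.T k e b = ∑ e, S.T k e b * S.T a e c :=
      Finset.sum_congr rfl fun e _ => mul_comm _ _
    have h4 : ∑ e, S.T a e b * S.T k e c = ∑ e, S.T k e c * S.T a e b :=
      Finset.sum_congr rfl fun e _ => mul_comm _ _
    have h5 : ∑ e, S.T a b e * S.T k c e = ∑ e, S.T k c e * S.T a b e :=
      Finset.sum_congr rfl fun e _ => mul_comm _ _
    have h6 : ∑ e, S.T a c e * S.T k b e = ∑ e, S.T k b e * S.T a c e :=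
      Finset.sum_congr rfl fun e _ => mul_comm _ _
    rw [h2, h3, h4, h5, h6] at h1
    linear_combination h1
  have t1 := S.R2_B_tan3 k a c b
  have t2 := S.R2_B_tan3 a k c b
  have n1 := S.B_nrm k a c b
  have n2 := S.B_nrm a k c b
  have h7 : ∑ e, S.arr.P b e * S.B k a e c - ∑ e, S.arr.P b e * S.B a k e c =
      -(∑ e, S.arr.P b e * S.B k a c e - ∑ e, S.arr.P b e * S.B a k c e) := by
    rw [← Finset.sum_sub_distrib, ← Finset.sum_sub_distrib, ← Finset.sum_neg_distrib]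
    exact Finset.sum_congr rfl fun e _ => by linear_combination S.arr.P b e * key e c
  simp only at t1 t2
  rw [t1, t2, n1, n2] at h7
  linear_combination h7

theorem good : S.arr.Good :=
  ⟨S.hn, S.P_symm, S.PP, S.trP, S.FF, S.F_nrm, S.T_symm, S.T_tan, S.T_nrm, S.T_F, S.B12, S.B23,
    S.B_tan, S.B_nrm, S.B_F⟩

theorem good_pt (ev : R →ₐ[ℝ] ℝ) : (S.pt ev).Good := S.good.map ev

theorem D_HH (k c : ι) :
    S.D k (S.arr.HH c) = S.arr.Bt k c - ∑ e, S.T k c e * S.arr.HH e := by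
  have h0 : S.arr.HH c = ∑ a, S.T a a c := rfl
  have h1 : ∑ a, ∑ e, S.T k e a * S.T e a c = 0 := by
    rw [Finset.sum_comm]
    exact Finset.sum_eq_zero fun e _ => S.R2_nt (S.T_nrm k e) (S.T_tan' e c)
  have h2 : ∑ a, ∑ e, S.T k e a * S.T a e c = 0 := by
    rw [Finset.sum_comm]
    exact Finset.sum_eq_zero fun e _ => S.R2_nt (S.T_nrm k e) (S.T_tan e c)
  have h3 : ∑ a, ∑ e, S.T k c e * S.T a a e = ∑ e, S.T k c e * S.arr.HH e := by
    rw [Finset.sum_comm]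
    exact Finset.sum_congr rfl fun e _ => (Finset.mul_sum _ _ _).symm
  rw [h0, map_sum]
  simp only [S.D_T, Finset.sum_add_distrib, Finset.sum_sub_distrib]
  rw [h1, h2, h3, add_zero, add_zero]
  rfl

theorem R2_D_sq (k : ι) (g : R) : S.D k (g * g) = 2 * (g * S.D k g) := by
  rw [Derivation.leibniz, smul_eq_mul]; ring

theorem R2_U_tan (k : ι) : S.arr.Tan fun c => ∑ e, S.T k c e * S.arr.HH e :=
  R2_tan_l (f := fun e c => S.T k c e) (fun e => S.T_tan' k e) _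

theorem D_W (k : ι) : S.D k S.arr.W = 2 * ∑ c, S.arr.HH c * S.arr.Bt k c := by
  have h1 := S.R2_nt S.good.HH_nrm (S.R2_U_tan k)
  unfold Arr.W
  rw [map_sum]
  simp only [S.R2_D_sq, S.D_HH]
  rw [← Finset.mul_sum]
  simp only [mul_sub, Finset.sum_sub_distrib]
  rw [h1, mul_zero, sub_zero]

theorem D_e2 (k : ι) :
    S.D k S.arr.e2 = (2 / (S.n : ℝ) ^ 2) • ∑ c, S.arr.HH c * S.arr.Bt k c := by
  unfold Arr.e2
  rw [map_sub, Derivation.map_one_eq_zero, sub_zero, Derivation.map_smul, S.D_W, two_mul,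
    ← two_smul ℝ, smul_smul]
  congr 1
  change ((S.n : ℝ) ^ 2)⁻¹ * 2 = _
  ring

theorem R2_U1_nrm (k b c : ι) : S.arr.Nrm fun a => ∑ e, S.T k e a * S.T e b c :=
  R2_nrm_l (f := fun e a => S.T k e a) (fun e => S.T_nrm k e) _

theorem R2_U2_nrm (k a c : ι) : S.arr.Nrm fun b => ∑ e, S.T k e b * S.T a e c :=
  R2_nrm_l (f := fun e b => S.T k e b) (fun e => S.T_nrm k e) _

theorem R2_U2_tan (k b c : ι) : S.arr.Tan fun a => ∑ e, S.T k e b * S.T a e c :=
  R2_tan_r (f := fun e a => S.T a e c) (fun e => S.T_tan e c) _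

theorem R2_U3_tan1 (k b c : ι) : S.arr.Tan fun a => ∑ e, S.T k c e * S.T a b e :=
  R2_tan_r (f := fun e a => S.T a b e) (fun e => S.T_tan b e) _

theorem R2_U3_tan2 (k a c : ι) : S.arr.Tan fun b => ∑ e, S.T k c e * S.T a b e :=
  R2_tan_r (f := fun e b => S.T a b e) (fun e => S.T_tan' a e) _

theorem R2_U3_tan3 (k a b : ι) : S.arr.Tan fun c => ∑ e, S.T k c e * S.T a b e :=
  R2_tan_l (f := fun e c => S.T k c e) (fun e => S.T_tan' k e) _

theorem D_a2 (k : ι) : S.D k S.arr.a2 = 2 * ∑ a, ∑ b, ∑ c, S.T a b c * S.B k a b c := by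
  have h0 : S.arr.a2 = ∑ a, ∑ b, ∑ c, S.T a b c * S.T a b c := rfl
  have h1 := R2_z1 fun b c => S.R2_tn (S.T_tan b c) (S.R2_U1_nrm k b c)
  have h2 := R2_z2 fun a c => S.R2_tn (S.T_tan' a c) (S.R2_U2_nrm k a c)
  have h3 := R2_z3 fun a b => S.R2_nt (S.T_nrm a b) (S.R2_U3_tan3 k a b)
  rw [h0]
  simp only [map_sum, S.R2_D_sq, S.D_T, ← Finset.mul_sum]
  simp only [mul_add, mul_sub, Finset.sum_add_distrib, Finset.sum_sub_distrib]
  rw [h1, h2, h3]
  ring

theorem D_u (k : ι) : S.D k S.arr.u = 2 * ∑ a, ∑ b, ∑ c, S.arr.T0 a b c * S.B k a b c := by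
  have h1 : ∑ a, ∑ b, ∑ c, S.arr.P a b * S.arr.HH c * S.B k a b c =
      ∑ c, S.arr.HH c * S.arr.Bt k c := by
    have h2 : ∑ a, ∑ b, ∑ c, S.arr.P a b * S.arr.HH c * S.B k a b c =
        ∑ a, ∑ c, ∑ b, S.arr.P a b * S.arr.HH c * S.B k a b c :=
      Finset.sum_congr rfl fun a _ => Finset.sum_comm
    rw [h2, Finset.sum_comm]
    refine Finset.sum_congr rfl fun c _ => ?_
    rw [← S.good.P_B k c, Finset.mul_sum]
    refine Finset.sum_congr rfl fun a _ => ?_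
    rw [Finset.mul_sum]
    refine Finset.sum_congr rfl fun b _ => ?_
    change _ = S.arr.HH c * (S.arr.P a b * S.B k a b c)
    ring
  unfold Arr.u Arr.T0
  rw [map_sub, Derivation.map_smul, S.D_W, S.D_a2, ← h1]
  simp only [sub_mul, smul_mul_assoc, Finset.sum_sub_distrib, ← Finset.smul_sum, mul_sub,
    mul_smul_comm]
  rfl

theorem D_v (m : ι) :
    S.D m S.arr.v = 2 * ∑ k, ∑ a, ∑ b, ∑ c, S.B k a b c * S.D m (S.B k a b c) := by
  have h0 : S.arr.v = ∑ k, ∑ a, ∑ b, ∑ c, S.B k a b c * S.B k a b c := rfl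
  rw [h0]
  simp only [map_sum, S.R2_D_sq, ← Finset.mul_sum]

theorem R2_M (e f : ι) : ∑ k, ∑ a, S.T k e a * S.T k f a = S.arr.M e f := by
  refine Finset.sum_congr rfl fun k _ => Finset.sum_congr rfl fun a _ => ?_
  rw [S.T_symm k e, S.T_symm k f]
  rfl

/-- The four blocks of `D T` are orthogonal. -/
theorem DT_sq : ∑ k, ∑ a, ∑ b, ∑ c, S.D k (S.T a b c) * S.D k (S.T a b c) =
    S.arr.v + 2 * (∑ a, ∑ d, S.arr.M a d * S.arr.M a d) +
      ∑ c, ∑ e, S.arr.G c e * S.arr.G c e := by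
  have s1 : ∑ k, ∑ a, ∑ b, ∑ c, (∑ e, S.T k e a * S.T e b c) * (∑ e, S.T k e a * S.T e b c) =
      ∑ a, ∑ d, S.arr.M a d * S.arr.M a d := by
    rw [R2_sq (fun k a e => S.T k e a) (fun b c e => S.T e b c)]
    refine Finset.sum_congr rfl fun e _ => Finset.sum_congr rfl fun f _ => ?_
    rw [S.R2_M]
    rfl
  have s2 : ∑ k, ∑ a, ∑ b, ∑ c, (∑ e, S.T k e b * S.T a e c) * (∑ e, S.T k e b * S.T a e c) =
      ∑ a, ∑ d, S.arr.M a d * S.arr.M a d := by
    have h2 : ∑ k, ∑ a, ∑ b, ∑ c, (∑ e, S.T k e b * S.T a e c) * (∑ e, S.T k e b * S.T a e c) =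
        ∑ k, ∑ b, ∑ a, ∑ c, (∑ e, S.T k e b * S.T a e c) * (∑ e, S.T k e b * S.T a e c) :=
      Finset.sum_congr rfl fun k _ => Finset.sum_comm
    rw [h2, R2_sq (fun k b e => S.T k e b) (fun a c e => S.T a e c)]
    refine Finset.sum_congr rfl fun e _ => Finset.sum_congr rfl fun f _ => ?_
    rw [S.R2_M]
  have s3 : ∑ k, ∑ a, ∑ b, ∑ c, (∑ e, S.T k c e * S.T a b e) * (∑ e, S.T k c e * S.T a b e) =
      ∑ c, ∑ e, S.arr.G c e * S.arr.G c e := by
    have h2 : ∑ k, ∑ a, ∑ b, ∑ c, (∑ e, S.T k c e * S.T a b e) * (∑ e, S.T k c e * S.T a b e) =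
        ∑ k, ∑ c, ∑ a, ∑ b, (∑ e, S.T k c e * S.T a b e) * (∑ e, S.T k c e * S.T a b e) := by
      refine Finset.sum_congr rfl fun k _ => ?_
      rw [Finset.sum_comm (γ := ι) (s := Finset.univ) (t := Finset.univ)
        (f := fun c a => ∑ b, (∑ e, S.T k c e * S.T a b e) * (∑ e, S.T k c e * S.T a b e))]
      exact Finset.sum_congr rfl fun a _ => Finset.sum_comm
    rw [h2, R2_sq (fun k c e => S.T k c e) (fun a b e => S.T a b e)]
    rfl
  have hk : ∀ k, ∑ a, ∑ b, ∑ c, S.D k (S.T a b c) * S.D k (S.T a b c) =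
      ∑ a, ∑ b, ∑ c, S.B k a b c * S.B k a b c +
      ∑ a, ∑ b, ∑ c, (∑ e, S.T k e a * S.T e b c) * (∑ e, S.T k e a * S.T e b c) +
      ∑ a, ∑ b, ∑ c, (∑ e, S.T k e b * S.T a e c) * (∑ e, S.T k e b * S.T a e c) +
      ∑ a, ∑ b, ∑ c, (∑ e, S.T k c e * S.T a b e) * (∑ e, S.T k c e * S.T a b e) := by
    intro k
    have c1 := R2_z1 fun b c => S.R2_tn (S.B_tan2 k b c) (S.R2_U1_nrm k b c)
    have c2 := R2_z2 fun a c => S.R2_tn (S.R2_B_tan3 k a c) (S.R2_U2_nrm k a c)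
    have c3 := R2_z3 fun a b => S.R2_tn (S.R2_U3_tan3 k a b) (S.B_nrm k a b)
    have c4 := R2_z1 fun b c => S.R2_tn (S.R2_U2_tan k b c) (S.R2_U1_nrm k b c)
    have c5 := R2_z1 fun b c => S.R2_tn (S.R2_U3_tan1 k b c) (S.R2_U1_nrm k b c)
    have c6 := R2_z2 fun a c => S.R2_tn (S.R2_U3_tan2 k a c) (S.R2_U2_nrm k a c)
    have e0 : ∀ B U1 U2 U3 : R, (B + U1 + U2 - U3) * (B + U1 + U2 - U3) =
        B * B + U1 * U1 + U2 * U2 + U3 * U3 + 2 * (B * U1) + 2 * (B * U2) - 2 * (U3 * B) +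
          2 * (U2 * U1) - 2 * (U3 * U1) - 2 * (U3 * U2) := fun _ _ _ _ => by ring
    simp only [S.D_T, e0, Finset.sum_add_distrib, Finset.sum_sub_distrib, ← Finset.mul_sum]
    rw [c1, c2, c3, c4, c5, c6]
    ring
  simp only [hk, Finset.sum_add_distrib]
  rw [s1, s2, s3]
  have h0 : S.arr.v = ∑ k, ∑ a, ∑ b, ∑ c, S.B k a b c * S.B k a b c := rfl
  rw [h0]
  ring

theorem DHH_sq : ∑ k, ∑ c, S.D k (S.arr.HH c) * S.D k (S.arr.HH c) =
    S.arr.gH + ∑ c, ∑ e, S.arr.HH c * S.arr.G c e * S.arr.HH e := by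
  have s1 : ∑ k, ∑ c, (∑ e, S.T k c e * S.arr.HH e) * (∑ e, S.T k c e * S.arr.HH e) =
      ∑ c, ∑ e, S.arr.HH c * S.arr.G c e * S.arr.HH e := by
    have := R2_sq0 (ι := ι) (fun x : ι × ι => S.T x.1 x.2) (fun _ : Unit => S.arr.HH)
    simp only [Fintype.sum_prod_type, Fintype.sum_unique] at this
    rw [this]
    refine Finset.sum_congr rfl fun e _ => Finset.sum_congr rfl fun f _ => ?_
    change S.arr.G e f * _ = _
    ring
  have hk : ∀ k, ∑ c, S.D k (S.arr.HH c) * S.D k (S.arr.HH c) =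
      ∑ c, S.arr.Bt k c * S.arr.Bt k c +
        ∑ c, (∑ e, S.T k c e * S.arr.HH e) * (∑ e, S.T k c e * S.arr.HH e) := by
    intro k
    have c1 := S.R2_tn (S.R2_U_tan k) (S.good.Bt_nrm k)
    have e0 : ∀ B U : R, (B - U) * (B - U) = B * B + U * U - 2 * (U * B) := fun _ _ => by ring
    simp only [S.D_HH, e0, Finset.sum_add_distrib, Finset.sum_sub_distrib, ← Finset.mul_sum]
    rw [c1]
    ring
  simp only [hk, Finset.sum_add_distrib]
  rw [s1]
  rfl

end Pool.Agent.Lib.MP_de485e_gt.Hi.QA
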