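import Pool.Agent.Lib.MP_de485e_gt.Hi.M1a
import Pool.Agent.Lib.MP_de485e_gt.Hi.R2
import Pool.Agent.Lib.MP_de485e_gt.Hi.ADef

/-! The model of the abstract calculus. -/

open Set Filter Topology
open scoped RealInnerProductSpace InnerProduct Manifold ContDiff

namespace Pool.Agent.Lib.MP_de485e_gt.Hi

open Conv

variable {P Q : Type} [NormedAddCommGroup P] [InnerProductSpace ℝ P] [CompleteSpace P]
  [FiniteDimensional ℝ P] [NormedAddCommGroup Q] [InnerProductSpace ℝ Q] [CompleteSpace Q]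
  [FiniteDimensional ℝ Q] {M : Type} [TopologicalSpace M] [ChartedSpace P M]
  [IsManifold 𝓘(ℝ, P) ∞ M] {F : ℝ → M → Q} {n : ℕ} {ι : Type} [Fintype ι] [DecidableEq ι]
  {O : Set (ℝ × M)}

variable (P) in
/-- The dimension of the submanifold. -/
structure Dm (n : ℕ) : Prop where
  hn : 2 ≤ n
  hP : Module.finrank ℝ P = n

variable (h : Dom P F O) (hd : Dm P n) (hf : Flw P F O) (b : OrthonormalBasis ι ℝ Q)

/-- The calculus on `O`. -/
noncomputable def qa : QA ι (Rg P O) where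
  n := n
  hn := hd.hn
  D a := h.D (b a)
  dt := h.dt
  F a := h.Fc (b a)
  FF := sa_FF h b
  Psymm := m_Psymm h b
  trP := m_trP h b hd.hP
  PD := m_PD h b
  comm a c g := h.comm_of_const b (h.X (b a)) (h.X (b c)) (fun _ _ => rfl) (fun _ _ => rfl) g
  dtF := m_dtF h b hd.hP hf
  commt a g := h.comm_of_const b h.T (h.X (b a)) (fun _ _ => rfl) (fun _ _ => rfl) g

theorem qa_n : (qa h hd hf b).n = n := rfl

theorem pt_F (z : O) (a : ι) : ((qa h hd hf b).pt (ev z)).F a = ⟪b a, F z.1.1 z.1.2⟫ := rfl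

theorem pt_P (z : O) (a c : ι) : ((qa h hd hf b).pt (ev z)).P a c =
    ⟪b c, dF P (F z.1.1) z.1.2 (pinv (dF P (F z.1.1) z.1.2) (b a))⟫ := h.ev_D_Fc (b a) (b c) z

omit [DecidableEq ι] in
private theorem M1_symm {L : P →L[ℝ] Q} (hL : Function.Injective L) (u w : Q) :
    ⟪w, L (pinv L u)⟫ = ⟪u, L (pinv L w)⟫ := by
  rw [← inner_pinv hL w (pinv L u), ← inner_pinv hL u (pinv L w), real_inner_comm]

omit [DecidableEq ι] [CompleteSpace Q] [FiniteDimensional ℝ Q] in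
private theorem M1_sum (u v : Q) : ∑ a, ⟪b a, u⟫ * ⟪b a, v⟫ = ⟪u, v⟫ := by
  rw [← b.sum_inner_mul_inner u v]
  exact Finset.sum_congr rfl fun a _ => by rw [real_inner_comm u]

private theorem M1_Px (z : O) (x : ι → ℝ) (a : ι) :
    ∑ c, ((qa h hd hf b).pt (ev z)).P a c * x c =
      ⟪b a, dF P (F z.1.1) z.1.2 (pinv (dF P (F z.1.1) z.1.2) (∑ c, x c • b c))⟫ := by
  rw [← M1_symm (h.imm _ z.2), sum_inner]
  refine Finset.sum_congr rfl fun c _ => ?_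
  rw [pt_P, real_inner_smul_left, mul_comm]

theorem pt_tan (z : O) (ξ : P) :
    ((qa h hd hf b).pt (ev z)).Tan fun a => ⟪b a, dF P (F z.1.1) z.1.2 ξ⟫ := fun a => by
  rw [M1_Px, b.sum_repr', pinv_apply (h.imm _ z.2)]

theorem pt_lift (z : O) {x : ι → ℝ} (hx : ((qa h hd hf b).pt (ev z)).Tan x) :
    ∃ ξ, ∀ a, ⟪b a, dF P (F z.1.1) z.1.2 ξ⟫ = x a :=
  ⟨_, fun a => (M1_Px h hd hf b z x a).symm.trans (hx a)⟩

theorem pt_nrm (z : O) {x : ι → ℝ} (hx : ((qa h hd hf b).pt (ev z)).Nrm x) (ξ : P) :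
    ⟪dF P (F z.1.1) z.1.2 ξ, ∑ a, x a • b a⟫ = 0 := by
  rw [real_inner_comm, ← inner_pinv (h.imm _ z.2), ← M1_sum b]
  refine Finset.sum_eq_zero fun a _ => ?_
  rw [← M1_Px h hd hf b z x a, hx a, zero_mul]

/-- `sff_raw`, `D_P`. -/
theorem pt_sff (z : O) (ξ ζ : P) (c : ι) : ⟪b c, sff P (F z.1.1) z.1.2 ξ ζ⟫ =
    ((qa h hd hf b).pt (ev z)).Tv (fun a => ⟪b a, dF P (F z.1.1) z.1.2 ξ⟫)
        (fun a => ⟪b a, dF P (F z.1.1) z.1.2 ζ⟫) c +
      ⟪dF P (F z.1.1) z.1.2 ξ, dF P (F z.1.1) z.1.2 ζ⟫ * ⟪b c, F z.1.1 z.1.2⟫ := by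
  rw [sff_raw h b z ξ ζ c]
  congr 1
  refine Finset.sum_congr rfl fun a _ => ?_
  have hG := (qa h hd hf b).good_pt (ev z)
  have h0 := hG.tn (pt_tan h hd hf b z ζ) (hG.Tnor a c)
  have h1 : ∀ d, ev z (h.D (b a) (h.D (b d) (h.Fc (b c)))) =
      ((qa h hd hf b).pt (ev z)).T a d c + ((qa h hd hf b).pt (ev z)).T a c d := fun d =>
    (congrArg (ev z) ((qa h hd hf b).D_P a d c)).trans (map_add _ _ _)
  simp only [h1, mul_add, Finset.sum_add_distrib, mul_assoc, ← Finset.mul_sum]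
  rw [h0, mul_zero, add_zero]

theorem pt_tau (z : O) {c : ℝ} (ht : TauLt P (F z.1.1) c) : ((qa h hd hf b).pt (ev z)).Tau c := by
  intro e e' he he' hee
  obtain ⟨ξ, hξ⟩ := pt_lift h hd hf b z he.1
  obtain ⟨ζ, hζ⟩ := pt_lift h hd hf b z he'.1
  have hi : ∀ {x y : P} {s t : ι → ℝ}, (∀ a, ⟪b a, dF P (F z.1.1) z.1.2 x⟫ = s a) →
      (∀ a, ⟪b a, dF P (F z.1.1) z.1.2 y⟫ = t a) →
      ⟪dF P (F z.1.1) z.1.2 x, dF P (F z.1.1) z.1.2 y⟫ = dot s t := fun hx hy => by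
    rw [← M1_sum b]
    exact Finset.sum_congr rfl fun a _ => by rw [hx, hy]
  have e1 := (hi hξ hξ).trans he.2
  have e2 := (hi hζ hζ).trans he'.2
  have ho : Orthonormal ℝ ![dF P (F z.1.1) z.1.2 ξ, dF P (F z.1.1) z.1.2 ζ] := by
    rw [orthonormal_iff_ite]
    have e3 := (hi hξ hζ).trans hee
    have e4 := (real_inner_comm _ _).trans e3
    intro i j
    fin_cases i <;> fin_cases j
    exacts [e1, e3, e4, e2]
  have h1 := ht z.1.2 ξ ζ ho
  rw [← real_inner_self_eq_norm_sq, ← M1_sum b] at h1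
  refine le_of_eq_of_le (Finset.sum_congr rfl fun d _ => ?_) h1.le
  rw [inner_sub_right, pt_sff h hd hf b, pt_sff h hd hf b, e1, e2, funext hξ, funext hζ]
  ring

/-- `res_D`, `res_Fc`. -/
theorem arr_res {O' : Set (ℝ × M)} (hO' : IsOpen O') (hO : O' ⊆ O) :
    (qa (h.mono hO' hO) hd (fun z hz => hf z (hO hz)) b).arr =
      (qa h hd hf b).arr.map (res hO) := by
  have hD : ∀ a g, res hO ((qa h hd hf b).D a g) =
      (qa (h.mono hO' hO) hd (fun z hz => hf z (hO hz)) b).D a (res hO g) :=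
    fun a g => h.res_D hO' hO (b a) g
  have hF : ∀ a, res hO ((qa h hd hf b).F a) =
      (qa (h.mono hO' hO) hd (fun z hz => hf z (hO hz)) b).F a := fun a => h.res_Fc hO' hO (b a)
  have hP : ∀ a c, res hO ((qa h hd hf b).P a c) =
      (qa (h.mono hO' hO) hd (fun z hz => hf z (hO hz)) b).P a c := fun a c => by
    rw [QA.P, QA.P, hD, hF]
  have hT : ∀ a c d, res hO ((qa h hd hf b).T a c d) =
      (qa (h.mono hO' hO) hd (fun z hz => hf z (hO hz)) b).T a c d := fun a c d => by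
    rw [QA.T, QA.T, map_sub, map_sum]
    simp only [map_mul, hD, hP]
  have hB : ∀ k a c d, res hO ((qa h hd hf b).B k a c d) =
      (qa (h.mono hO' hO) hd (fun z hz => hf z (hO hz)) b).B k a c d := fun k a c d => by
    rw [QA.B, QA.B, map_add, map_sub, map_sub, map_sum, map_sum, map_sum]
    simp only [map_mul, hD, hT]
  simp only [QA.arr, Arr.map, hF, hP, hT, hB]
  rfl

theorem pt_res {O' : Set (ℝ × M)} (hO' : IsOpen O') (hO : O' ⊆ O) (z : O') :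
    (qa (h.mono hO' hO) hd (fun z hz => hf z (hO hz)) b).pt (ev z) =
      (qa h hd hf b).pt (ev ⟨z.1, hO z.2⟩) := by
  have e : ∀ g : Rg P O, ev z (res hO g) = ev ⟨z.1, hO z.2⟩ g := fun g => by
    rw [ev_res, ev_eq]
  rw [QA.pt, QA.pt, arr_res h hd hf b hO' hO]
  simp only [Arr.map, e]

/-- `space_max`, `time_max`. -/
theorem touch_local (g : Rg P O) (z : O) (h1 : ∀ᶠ y in 𝓝 z.1.2, fn g (z.1.1, y) ≤ fn g z)
    (h2 : ∀ᶠ s in 𝓝[<] z.1.1, fn g (s, z.1.2) ≤ fn g z) : (qa h hd hf b).Touch (ev z) g := by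
  refine ⟨fun a => (h.space_max g z h1 (b a)).1, ?_⟩
  have e1 : ev z ((qa h hd hf b).L g) =
      ev z (h.dt g) - ∑ a, ev z (h.D (b a) (h.D (b a) g)) := by
    rw [QA.L, QA.Lap, map_sub, map_sum]; rfl
  rw [e1]
  have h3 := h.time_max g z h2
  have h4 : ∑ a, ev z (h.D (b a) (h.D (b a) g)) ≤ 0 :=
    Finset.sum_nonpos fun a _ => (h.space_max g z h1 (b a)).2
  linarith

theorem touch_max (g : Rg P O) {G : ℝ × M → ℝ} (e : ∀ z : O, ev z g = G z) (z : O) {a : ℝ}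
    (ha : a < z.1.1) (hm : ∀ s ∈ Icc a z.1.1, ∀ y, G (s, y) ≤ G z) :
    (qa h hd hf b).Touch (ev z) g := by
  have e' : ∀ y ∈ O, fn g y = G y := fun y hy => by rw [← ev_eq ⟨y, hy⟩, e]
  have hN : O ∈ 𝓝 z.1 := h.isOpen.mem_nhds z.2
  refine touch_local h hd hf b g z ?_ ?_
  · have ht : Tendsto (fun y : M => (z.1.1, y)) (𝓝 z.1.2) (𝓝 z.1) :=
      (Continuous.prodMk_right z.1.1).tendsto z.1.2
    filter_upwards [ht.eventually hN] with y hy
    rw [e' _ hy, e' _ z.2]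
    exact hm _ ⟨ha.le, le_rfl⟩ y
  · have ht : Tendsto (fun s : ℝ => (s, z.1.2)) (𝓝 z.1.1) (𝓝 z.1) :=
      (Continuous.prodMk_left z.1.2).tendsto z.1.1
    filter_upwards [nhdsWithin_le_nhds (ht.eventually hN), Ioo_mem_nhdsLT ha] with s h1 h2
    rw [e' _ h1, e' _ z.2]
    exact hm _ ⟨h2.1.le, h2.2.le⟩ _

end Pool.Agent.Lib.MP_de485e_gt.Hi
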