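import Pool.Agent.Lib.MP_de485e_gt.Hi.ADef

/-! The pinching condition is closed, the strict one is open. -/

open Set Filter Topology

namespace Pool.Agent.Lib.MP_de485e_gt.Hi

variable {ι : Type} [Fintype ι] {n : ℕ}

/-- The strict condition. -/
def Arr.Ks (X : Arr ι ℝ) (p : Par n) : Prop := ∀ ν e e', X.UN ν → X.UT e → X.UT e' →
  p.Phi (p.E X.e2 X.u) (X.Av ν e e) (X.Av ν e' e') < 0

theorem Arr.Ks.K {X : Arr ι ℝ} {p : Par n} (h : X.Ks p) : X.K p :=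
  fun ν e e' h1 h2 h3 => (h ν e e' h1 h2 h3).le

/-- `Phi` is symmetric. -/
theorem Arr.K.exists_tch {X : Arr ι ℝ} {p : Par n} (h : X.K p) (h' : ¬X.Ks p) :
    ∃ ν e e' a b, X.Tch p ν e e' a b := by
  simp only [Arr.Ks, not_forall, not_lt] at h'
  obtain ⟨ν, e, e', h1, h2, h3, h4⟩ := h'
  have h5 := le_antisymm (h ν e e' h1 h2 h3) h4
  rcases le_total (X.Av ν e' e') (X.Av ν e e) with hle | hle
  · exact ⟨ν, e, e', _, _, h, h1, h2, h3, rfl, rfl, hle, h5⟩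
  · refine ⟨ν, e', e, _, _, h, h1, h3, h2, rfl, rfl, hle, ?_⟩
    rw [← h5]
    simp only [Par.Phi]
    ring

/-- Convergence of arrays and parameters. -/
structure Cvg {α : Type} (l : Filter α) (X : α → Arr ι ℝ) (p : α → Par n) (X0 : Arr ι ℝ)
    (p0 : Par n) : Prop where
  hn : ∀ i, (X i).n = X0.n
  hP : ∀ a b, Tendsto (fun i => (X i).P a b) l (𝓝 (X0.P a b))
  hF : ∀ a, Tendsto (fun i => (X i).F a) l (𝓝 (X0.F a))
  hT : ∀ a b c, Tendsto (fun i => (X i).T a b c) l (𝓝 (X0.T a b c))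
  hZ : Tendsto (fun i => (p i).Z) l (𝓝 p0.Z)
  hm : ∀ i, (p i).m = p0.m
  hl : ∀ i, (p i).l = p0.l
  hY : Tendsto (fun i => (p i).Y) l (𝓝 p0.Y)

variable {α : Type} {l : Filter α} {X : α → Arr ι ℝ} {p : α → Par n} {X0 : Arr ι ℝ} {p0 : Par n}

omit [Fintype ι] in
theorem M3a_mono {l' : Filter α} (c : Cvg l X p X0 p0) (h : l' ≤ l) : Cvg l' X p X0 p0 :=
  ⟨c.hn, fun a b => (c.hP a b).mono_left h, fun a => (c.hF a).mono_left h,
    fun a b d => (c.hT a b d).mono_left h, c.hZ.mono_left h, c.hm, c.hl, c.hY.mono_left h⟩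

theorem M3a_dot {x y : α → ι → ℝ} {x0 y0 : ι → ℝ}
    (hx : ∀ a, Tendsto (fun i => x i a) l (𝓝 (x0 a)))
    (hy : ∀ a, Tendsto (fun i => y i a) l (𝓝 (y0 a))) :
    Tendsto (fun i => dot (x i) (y i)) l (𝓝 (dot x0 y0)) :=
  tendsto_finsetSum _ fun a _ => (hx a).mul (hy a)

theorem M3a_W (c : Cvg l X p X0 p0) : Tendsto (fun i => (X i).W) l (𝓝 X0.W) := by
  have h : ∀ d, Tendsto (fun i => (X i).HH d) l (𝓝 (X0.HH d)) := fun d =>
    tendsto_finsetSum _ fun a _ => c.hT a a d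
  exact tendsto_finsetSum _ fun d _ => (h d).mul (h d)

theorem M3a_e2 (c : Cvg l X p X0 p0) : Tendsto (fun i => (X i).e2) l (𝓝 X0.e2) := by
  simp only [Arr.e2, c.hn, smul_eq_mul]
  exact ((M3a_W c).const_mul _).sub_const _

theorem M3a_u (c : Cvg l X p X0 p0) : Tendsto (fun i => (X i).u) l (𝓝 X0.u) := by
  simp only [Arr.u, c.hn, smul_eq_mul]
  refine Tendsto.sub ?_ ((M3a_W c).const_mul _)
  exact tendsto_finsetSum _ fun a _ => tendsto_finsetSum _ fun b _ =>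
    tendsto_finsetSum _ fun d _ => (c.hT a b d).mul (c.hT a b d)

theorem M3a_Av (c : Cvg l X p X0 p0) {ν e : α → ι → ℝ} {ν0 e0 : ι → ℝ}
    (hν : ∀ a, Tendsto (fun i => ν i a) l (𝓝 (ν0 a)))
    (he : ∀ a, Tendsto (fun i => e i a) l (𝓝 (e0 a))) :
    Tendsto (fun i => (X i).Av (ν i) (e i) (e i)) l (𝓝 (X0.Av ν0 e0 e0)) :=
  M3a_dot (fun d => tendsto_finsetSum _ fun a _ => tendsto_finsetSum _ fun b _ =>
    ((he a).mul (he b)).mul (c.hT a b d)) hν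

theorem M3a_Phi (c : Cvg l X p X0 p0) {ν e e' : α → ι → ℝ} {ν0 e0 e0' : ι → ℝ}
    (hν : ∀ a, Tendsto (fun i => ν i a) l (𝓝 (ν0 a)))
    (he : ∀ a, Tendsto (fun i => e i a) l (𝓝 (e0 a)))
    (he' : ∀ a, Tendsto (fun i => e' i a) l (𝓝 (e0' a))) :
    Tendsto (fun i => (p i).Phi ((p i).E (X i).e2 (X i).u) ((X i).Av (ν i) (e i) (e i))
      ((X i).Av (ν i) (e' i) (e' i))) l
      (𝓝 (p0.Phi (p0.E X0.e2 X0.u) (X0.Av ν0 e0 e0) (X0.Av ν0 e0' e0'))) := by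
  have hA := M3a_Av c hν he
  have hB := M3a_Av c hν he'
  have hZ := c.hZ
  have h0 : Tendsto (fun i => (p i).mu0) l (𝓝 p0.mu0) := by
    simp only [Par.mu0, Par.eps0, c.hm, c.hl]
    exact hZ.const_mul _
  have h1 : Tendsto (fun i => (p i).mu1) l (𝓝 p0.mu1) := h0.const_mul _
  have hY := c.hY
  have hg : Tendsto (fun i => (p i).g (X i).e2 (X i).u) l (𝓝 (p0.g X0.e2 X0.u)) := by
    simp only [Par.g, c.hl]
    exact ((M3a_e2 c).const_add _).sub ((M3a_u c).const_mul _)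
  have hE : Tendsto (fun i => (p i).E (X i).e2 (X i).u) l (𝓝 (p0.E X0.e2 X0.u)) :=
    h0.mul hg.sqrt
  exact ((((hA.sub hB).pow 2).sub ((hZ.const_mul 4).mul (hA.mul hB))).sub
    (hY.const_mul 4)).add (h1.mul (hA.add hB)) |>.sub hE

/-- Normalisation. -/
noncomputable def M3a_nz (x : ι → ℝ) (a : ι) : ℝ := (√(dot x x))⁻¹ * x a

theorem M3a_nz_unit {x : ι → ℝ} (h : 0 < dot x x) : dot (M3a_nz x) (M3a_nz x) = 1 := by
  have h1 : dot (M3a_nz x) (M3a_nz x) = ((√(dot x x))⁻¹ * (√(dot x x))⁻¹) * dot x x := by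
    conv_rhs => rw [dot.eq_1 x x, Finset.mul_sum]
    rw [← dot.eq_1 x x, dot]
    exact Finset.sum_congr rfl fun a _ => by simp only [M3a_nz]; ring
  rw [h1, ← mul_inv, Real.mul_self_sqrt h.le, inv_mul_cancel₀ h.ne']

theorem M3a_nz_lin (w x : ι → ℝ) :
    ∑ b, w b * M3a_nz x b = (√(dot x x))⁻¹ * ∑ b, w b * x b := by
  rw [Finset.mul_sum]
  exact Finset.sum_congr rfl fun a _ => by simp only [M3a_nz]; ring

theorem M3a_nz_tendsto {x : α → ι → ℝ} {x0 : ι → ℝ}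
    (hx : ∀ a, Tendsto (fun i => x i a) l (𝓝 (x0 a))) (h1 : dot x0 x0 = 1) :
    (∀ a, Tendsto (fun i => M3a_nz (x i) a) l (𝓝 (x0 a))) ∧ ∀ᶠ i in l, 0 < dot (x i) (x i) := by
  have hd := M3a_dot hx hx
  rw [h1] at hd
  refine ⟨fun a => ?_, hd.eventually (lt_mem_nhds one_pos)⟩
  have h2 := (hd.sqrt.inv₀ (by simp)).mul (hx a)
  simpa [M3a_nz] using h2

theorem M3a_UT (c : Cvg l X p X0 p0) (hg : ∀ᶠ i in l, (X i).Good) {e0 : ι → ℝ} (h : X0.UT e0) :
    ∃ e : α → ι → ℝ, (∀ a, Tendsto (fun i => e i a) l (𝓝 (e0 a))) ∧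
      ∀ᶠ i in l, (X i).UT (e i) := by
  have hx : ∀ a, Tendsto (fun i => ∑ b, (X i).P a b * e0 b) l (𝓝 (e0 a)) := fun a => by
    have := tendsto_finsetSum Finset.univ fun b _ => (c.hP a b).mul_const (e0 b)
    rwa [h.1 a] at this
  obtain ⟨h1, h2⟩ := M3a_nz_tendsto (x := fun i a => ∑ b, (X i).P a b * e0 b) hx h.2
  refine ⟨fun i => M3a_nz fun a => ∑ b, (X i).P a b * e0 b, h1, ?_⟩
  filter_upwards [hg, h2] with i g hi
  refine ⟨fun a => ?_, M3a_nz_unit hi⟩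
  rw [M3a_nz_lin, M3a_nz]
  congr 1
  simp only [Finset.mul_sum]
  rw [Finset.sum_comm]
  refine Finset.sum_congr rfl fun d _ => ?_
  rw [← g.PP a d, Finset.sum_mul]
  exact Finset.sum_congr rfl fun b _ => by ring

theorem M3a_UN (c : Cvg l X p X0 p0) (hg : ∀ᶠ i in l, (X i).Good) {ν0 : ι → ℝ} (h : X0.UN ν0) :
    ∃ ν : α → ι → ℝ, (∀ a, Tendsto (fun i => ν i a) l (𝓝 (ν0 a))) ∧
      ∀ᶠ i in l, (X i).UN (ν i) := by
  set x : α → ι → ℝ := fun i a =>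
    ν0 a - ∑ b, (X i).P a b * ν0 b - (X i).F a * dot ν0 (X i).F with hxd
  have hx : ∀ a, Tendsto (fun i => x i a) l (𝓝 (ν0 a)) := fun a => by
    have h1 := tendsto_finsetSum Finset.univ fun b _ => (c.hP a b).mul_const (ν0 b)
    have h2 := (c.hF a).mul (M3a_dot (x := fun _ => ν0) (fun _ => tendsto_const_nhds) c.hF)
    rw [h.1 a] at h1
    rw [h.2.1] at h2
    simpa [hxd] using (h1.const_sub (ν0 a)).sub h2
  obtain ⟨h1, h2⟩ := M3a_nz_tendsto hx h.2.2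
  refine ⟨fun i => M3a_nz (x i), h1, ?_⟩
  filter_upwards [hg, h2] with i g hi
  refine ⟨fun a => ?_, ?_, M3a_nz_unit hi⟩
  · rw [M3a_nz_lin]
    have e1 : ∑ b, (X i).P a b * ∑ d, (X i).P b d * ν0 d = ∑ d, (X i).P a d * ν0 d := by
      simp only [Finset.mul_sum]
      rw [Finset.sum_comm]
      refine Finset.sum_congr rfl fun d _ => ?_
      rw [← g.PP a d, Finset.sum_mul]
      exact Finset.sum_congr rfl fun b _ => by ring
    have e2 : ∑ b, (X i).P a b * ((X i).F b * dot ν0 (X i).F) = 0 := by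
      simp only [← mul_assoc, ← Finset.sum_mul, g.Fnor a, zero_mul]
    simp only [hxd, mul_sub, Finset.sum_sub_distrib, e1, e2, sub_self, mul_zero]
  · have e0 : dot (M3a_nz (x i)) (X i).F = ∑ b, (X i).F b * M3a_nz (x i) b :=
      Finset.sum_congr rfl fun b _ => mul_comm _ _
    rw [e0, M3a_nz_lin]
    have e1 : ∑ b, (X i).F b * ∑ d, (X i).P b d * ν0 d = 0 := by
      simp only [Finset.mul_sum]
      rw [Finset.sum_comm]
      refine Finset.sum_eq_zero fun d _ => ?_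
      have e3 : ∑ b, (X i).F b * ((X i).P b d * ν0 d) = (∑ b, (X i).P d b * (X i).F b) * ν0 d := by
        rw [Finset.sum_mul]
        exact Finset.sum_congr rfl fun b _ => by rw [g.Psymm b d]; ring
      rw [e3, g.Fnor d, zero_mul]
    have e2 : ∑ b, (X i).F b * ((X i).F b * dot ν0 (X i).F) = ∑ b, (X i).F b * ν0 b := by
      simp only [← mul_assoc, ← Finset.sum_mul, g.FF, one_mul]
      exact Finset.sum_congr rfl fun b _ => mul_comm _ _
    simp only [hxd, mul_sub, Finset.sum_sub_distrib, e1, e2, sub_zero, sub_self, mul_zero]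

theorem M3a_lim (U : Ultrafilter α) {x : α → ι → ℝ} (hx : ∀ᶠ i in U, dot (x i) (x i) = 1) :
    ∃ x0 : ι → ℝ, ∀ a, Tendsto (fun i => x i a) U (𝓝 (x0 a)) := by
  have h : ∀ a, ∃ y, Tendsto (fun i => x i a) U (𝓝 y) := fun a => by
    have hm : ∀ᶠ i in U, x i a ∈ Icc (-1 : ℝ) 1 := by
      filter_upwards [hx] with i hi
      have h1 : x i a * x i a ≤ dot (x i) (x i) :=
        Finset.single_le_sum (f := fun b => x i b * x i b) (fun b _ => mul_self_nonneg _)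
          (Finset.mem_univ a)
      rw [hi] at h1
      constructor <;> nlinarith
    obtain ⟨y, -, hy⟩ := isCompact_Icc.ultrafilter_le_nhds (U.map fun i => x i a)
      (by rw [Ultrafilter.coe_map, le_principal_iff]; exact hm)
    exact ⟨y, hy⟩
  choose x0 hx0 using h
  exact ⟨x0, hx0⟩

/-- Project the vectors to the tangent and normal spaces of `X i` and normalise. -/
theorem Cvg.K_limit [l.NeBot] (c : Cvg l X p X0 p0) (hg : ∀ᶠ i in l, (X i).Good)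
    (hK : ∀ᶠ i in l, (X i).K (p i)) : X0.K p0 := by
  intro ν0 e0 e0' h1 h2 h3
  obtain ⟨ν, t1, u1⟩ := M3a_UN c hg h1
  obtain ⟨e, t2, u2⟩ := M3a_UT c hg h2
  obtain ⟨e', t3, u3⟩ := M3a_UT c hg h3
  refine le_of_tendsto (M3a_Phi c t1 t2 t3) ?_
  filter_upwards [hK, u1, u2, u3] with i hi a1 a2 a3
  exact hi _ _ _ a1 a2 a3

theorem M3a_UT_lim [l.NeBot] (c : Cvg l X p X0 p0) {e : α → ι → ℝ} {e0 : ι → ℝ}
    (t : ∀ a, Tendsto (fun i => e i a) l (𝓝 (e0 a))) (h : ∀ᶠ i in l, (X i).UT (e i)) :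
    X0.UT e0 := by
  refine ⟨fun a => ?_, ?_⟩
  · refine tendsto_nhds_unique_of_eventuallyEq
      (tendsto_finsetSum Finset.univ fun b _ => (c.hP a b).mul (t b)) (t a) ?_
    filter_upwards [h] with i hi
    exact hi.1 a
  · refine tendsto_nhds_unique_of_eventuallyEq (M3a_dot t t) tendsto_const_nhds ?_
    filter_upwards [h] with i hi
    exact hi.2

theorem M3a_UN_lim [l.NeBot] (c : Cvg l X p X0 p0) {e : α → ι → ℝ} {e0 : ι → ℝ}
    (t : ∀ a, Tendsto (fun i => e i a) l (𝓝 (e0 a))) (h : ∀ᶠ i in l, (X i).UN (e i)) :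
    X0.UN e0 := by
  refine ⟨fun a => ?_, ?_, ?_⟩
  · refine tendsto_nhds_unique_of_eventuallyEq
      (tendsto_finsetSum Finset.univ fun b _ => (c.hP a b).mul (t b)) tendsto_const_nhds ?_
    filter_upwards [h] with i hi
    exact hi.1 a
  · refine tendsto_nhds_unique_of_eventuallyEq (M3a_dot t c.hF) tendsto_const_nhds ?_
    filter_upwards [h] with i hi
    exact hi.2.1
  · refine tendsto_nhds_unique_of_eventuallyEq (M3a_dot t t) tendsto_const_nhds ?_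
    filter_upwards [h] with i hi
    exact hi.2.2

/-- Tube lemma (`IsCompact.eventually_forall_of_forall_eventually`) over the product of three
unit spheres, with the space of the tuples `(P, F, T, Z)` as parameter space: near a triple of
vectors either a constraint fails or the strict inequality holds. -/
theorem Cvg.Ks_eventually (c : Cvg l X p X0 p0) (hK : X0.Ks p0) : ∀ᶠ i in l, (X i).Ks (p i) := by
  by_contra hc
  rw [Filter.not_eventually] at hc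
  obtain ⟨U, hU, hUl⟩ : ∃ U : Ultrafilter α, (∀ᶠ i in U, ¬(X i).Ks (p i)) ∧ (U : Filter α) ≤ l := by
    have hne : (l ⊓ 𝓟 {i | ¬(X i).Ks (p i)}).NeBot := frequently_iff_neBot.1 hc
    obtain ⟨U, hU⟩ := Ultrafilter.exists_le (l ⊓ 𝓟 {i | ¬(X i).Ks (p i)})
    exact ⟨U, le_principal_iff.1 (hU.trans inf_le_right), hU.trans inf_le_left⟩
  have hch : ∀ i, ∃ ν e e' : ι → ℝ, ¬(X i).Ks (p i) → (X i).UN ν ∧ (X i).UT e ∧ (X i).UT e' ∧
      0 ≤ (p i).Phi ((p i).E (X i).e2 (X i).u) ((X i).Av ν e e) ((X i).Av ν e' e') := fun i => by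
    by_cases h : (X i).Ks (p i)
    · exact ⟨0, 0, 0, fun h' => absurd h h'⟩
    · simp only [Arr.Ks, not_forall, not_lt] at h
      obtain ⟨ν, e, e', h1, h2, h3, h4⟩ := h
      exact ⟨ν, e, e', fun _ => ⟨h1, h2, h3, h4⟩⟩
  choose ν e e' hs using hch
  have c' := M3a_mono c hUl
  have u1 : ∀ᶠ i in U, (X i).UN (ν i) := hU.mono fun i hi => (hs i hi).1
  have u2 : ∀ᶠ i in U, (X i).UT (e i) := hU.mono fun i hi => (hs i hi).2.1
  have u3 : ∀ᶠ i in U, (X i).UT (e' i) := hU.mono fun i hi => (hs i hi).2.2.1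
  obtain ⟨ν0, t1⟩ := M3a_lim U (u1.mono fun i hi => hi.2.2)
  obtain ⟨e0, t2⟩ := M3a_lim U (u2.mono fun i hi => hi.2)
  obtain ⟨e0', t3⟩ := M3a_lim U (u3.mono fun i hi => hi.2)
  have h := hK ν0 e0 e0' (M3a_UN_lim c' t1 u1) (M3a_UT_lim c' t2 u2) (M3a_UT_lim c' t3 u3)
  exact absurd (ge_of_tendsto (M3a_Phi c' t1 t2 t3) (hU.mono fun i hi => (hs i hi).2.2.2))
    (not_le.2 h)

/-- Continuous induction. -/
theorem first_time {a b : ℝ} {Gd : ℝ → Prop} (h0 : Gd a)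
    (hopen : ∀ t ∈ Ico a b, Gd t → ∀ᶠ s in 𝓝[>] t, Gd s)
    (hcl : ∀ t ∈ Ioc a b, (∀ s ∈ Ico a t, Gd s) → Gd t) : ∀ t ∈ Icc a b, Gd t := by
  intro t ht
  by_contra hbad
  have hne : {s | s ∈ Icc a b ∧ ¬Gd s}.Nonempty := ⟨t, ht, hbad⟩
  have hbd : BddBelow {s | s ∈ Icc a b ∧ ¬Gd s} := ⟨a, fun s hs => hs.1.1⟩
  set T := sInf {s | s ∈ Icc a b ∧ ¬Gd s} with hT
  have haT : a ≤ T := le_csInf hne fun s hs => hs.1.1
  have hTb : T ≤ b := (csInf_le hbd ⟨ht, hbad⟩).trans ht.2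
  have hlow : ∀ s ∈ Ico a T, Gd s := fun s hs => by
    by_contra h
    exact absurd (csInf_le hbd ⟨⟨hs.1, hs.2.le.trans hTb⟩, h⟩) (not_le.2 hs.2)
  have hG : Gd T := by
    rcases haT.eq_or_lt with h | h
    · exact h ▸ h0
    · exact hcl T ⟨h, hTb⟩ hlow
  have hgt : ∀ s ∈ {s | s ∈ Icc a b ∧ ¬Gd s}, T < s := fun s hs =>
    lt_of_le_of_ne (csInf_le hbd hs) fun h => hs.2 (h ▸ hG)
  have hTb' : T < b := (hgt t ⟨ht, hbad⟩).trans_le ht.2
  obtain ⟨u, hu, hsub⟩ := mem_nhdsGT_iff_exists_Ioo_subset.1 (hopen T ⟨haT, hTb'⟩ hG)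
  have : u ≤ T := le_csInf hne fun s hs => by
    by_contra h
    exact hs.2 (hsub ⟨hgt s hs, not_le.1 h⟩)
  exact absurd hu (not_lt.2 this)

end Pool.Agent.Lib.MP_de485e_gt.Hi
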