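import Pool.Agent.Lib.MP_de485e_gt.Hi.R4
import Pool.Agent.Lib.MP_de485e_gt.Hi.T1a

/-! The heat operator on the test function. -/

namespace Pool.Agent.Lib.MP_de485e_gt.Hi

section tri

variable {ι : Type} [Fintype ι] {Y Y' : ι → ι → ι → ℝ} {x x' y z : ι → ℝ}

/-- Contraction of an array with three vectors. -/
def T1b_tri (Y : ι → ι → ι → ℝ) (x y z : ι → ℝ) : ℝ := ∑ a, ∑ b, ∑ c, x a * y b * z c * Y a b c

theorem T1b_e1 : T1b_tri Y x y z = ∑ a, x a * ∑ b, ∑ c, y b * z c * Y a b c := by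
  simp only [T1b_tri, Finset.mul_sum, mul_assoc]

theorem T1b_e3 : T1b_tri Y x y z = ∑ c, z c * ∑ a, ∑ b, x a * y b * Y a b c := by
  simp only [T1b_tri, Finset.mul_sum]
  rw [Finset.sum_comm (s := Finset.univ) (t := Finset.univ)
    (f := fun c a => ∑ b, z c * (x a * y b * Y a b c))]
  refine Finset.sum_congr rfl fun a _ => ?_
  rw [Finset.sum_comm]
  exact Finset.sum_congr rfl fun _ _ => Finset.sum_congr rfl fun _ _ => by ring

theorem T1b_swap (h : ∀ a b c, Y a b c = Y b a c) : T1b_tri Y x y z = T1b_tri Y y x z := by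
  unfold T1b_tri
  rw [Finset.sum_comm]
  refine Finset.sum_congr rfl fun a _ => Finset.sum_congr rfl fun b _ =>
    Finset.sum_congr rfl fun c _ => ?_
  rw [h b a c]
  ring

theorem T1b_z1 (h : ∀ b c, ∑ a, x a * Y a b c = 0) : T1b_tri Y x y z = 0 := by
  unfold T1b_tri
  rw [Finset.sum_comm]
  refine Finset.sum_eq_zero fun b _ => ?_
  rw [Finset.sum_comm]
  refine Finset.sum_eq_zero fun c _ => ?_
  rw [← mul_zero (y b * z c), ← h b c, Finset.mul_sum]
  exact Finset.sum_congr rfl fun _ _ => by ring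

theorem T1b_z2 (h : ∀ a c, ∑ b, y b * Y a b c = 0) : T1b_tri Y x y z = 0 := by
  refine Finset.sum_eq_zero fun a _ => ?_
  rw [Finset.sum_comm]
  refine Finset.sum_eq_zero fun c _ => ?_
  rw [← mul_zero (x a * z c), ← h a c, Finset.mul_sum]
  exact Finset.sum_congr rfl fun _ _ => by ring

theorem T1b_z3 (h : ∀ a b, ∑ c, z c * Y a b c = 0) : T1b_tri Y x y z = 0 := by
  refine Finset.sum_eq_zero fun a _ => Finset.sum_eq_zero fun b _ => ?_
  rw [← mul_zero (x a * y b), ← h a b, Finset.mul_sum]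
  exact Finset.sum_congr rfl fun _ _ => by ring

theorem T1b_add1 : T1b_tri Y (fun a => x a + x' a) y z = T1b_tri Y x y z + T1b_tri Y x' y z := by
  simp only [T1b_tri, add_mul, Finset.sum_add_distrib]

theorem T1b_addY : T1b_tri (fun a b c => Y a b c + Y' a b c) x y z =
    T1b_tri Y x y z + T1b_tri Y' x y z := by
  simp only [T1b_tri, mul_add, Finset.sum_add_distrib]

theorem T1b_subY : T1b_tri (fun a b c => Y a b c - Y' a b c) x y z =
    T1b_tri Y x y z - T1b_tri Y' x y z := by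
  simp only [T1b_tri, mul_sub, Finset.sum_sub_distrib]

theorem T1b_negY : T1b_tri (fun a b c => -Y a b c) x y z = -T1b_tri Y x y z := by
  simp only [T1b_tri, mul_neg, Finset.sum_neg_distrib]

theorem T1b_mulY (r : ℝ) : T1b_tri (fun a b c => r * Y a b c) x y z = r * T1b_tri Y x y z := by
  simp only [T1b_tri, Finset.mul_sum, mul_left_comm _ r]

theorem T1b_c1 (x : ι → ℝ) (p : ι → ι → ℝ) (Z : ι → ℝ) :
    ∑ a, x a * ∑ e, p e a * Z e = ∑ e, (∑ a, x a * p e a) * Z e := by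
  simp only [Finset.mul_sum, Finset.sum_mul]
  rw [Finset.sum_comm]
  exact Finset.sum_congr rfl fun _ _ => Finset.sum_congr rfl fun _ _ => by ring

theorem T1b_k1 {p : ι → ι → ℝ} (h : ∀ e, ∑ a, x a * p e a = 0) (Z : ι → ℝ) :
    ∑ a, x a * ∑ e, p e a * Z e = 0 := by
  simp only [T1b_c1, h, zero_mul, Finset.sum_const_zero]

theorem T1b_k2 {p : ι → ι → ι → ℝ} (h : ∀ k e, ∑ a, x a * p k e a = 0) (Z : ι → ι → ℝ) :
    ∑ a, x a * ∑ k, ∑ e, p k e a * Z k e = 0 := by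
  simp only [Finset.mul_sum (s := Finset.univ) (f := fun k => ∑ e, p k e _ * Z k e)]
  rw [Finset.sum_comm]
  exact Finset.sum_eq_zero fun k _ => T1b_k1 (h k) (Z k)

theorem T1b_k3 {p : ι → ι → ι → ℝ} (h : ∀ k e, ∑ a, x a * p k e a = 0) (Z Z' : ι → ι → ι → ℝ) :
    ∑ a, x a * ∑ k, ∑ e, ∑ f, p k e a * Z k e f * Z' k e f = 0 := by
  simpa only [Finset.mul_sum, mul_assoc] using T1b_k2 h fun k e => ∑ f, Z k e f * Z' k e f

theorem T1b_pull1 (p : ι → ι → ℝ) : T1b_tri (fun a b c => ∑ e, p e a * Y e b c) x y z =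
    T1b_tri Y (fun e => ∑ a, x a * p e a) y z := by
  rw [T1b_e1, T1b_e1, ← T1b_c1]
  refine Finset.sum_congr rfl fun a _ => congrArg _ ?_
  simp only [Finset.mul_sum]
  rw [Finset.sum_comm (f := fun e b => ∑ c, p e a * (y b * z c * Y e b c))]
  refine Finset.sum_congr rfl fun b _ => ?_
  rw [Finset.sum_comm]
  exact Finset.sum_congr rfl fun _ _ => Finset.sum_congr rfl fun _ _ => by ring

theorem T1b_pull3 (p : ι → ι → ℝ) : T1b_tri (fun a b c => ∑ e, p c e * Y a b e) x y z =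
    T1b_tri Y x y fun e => ∑ c, z c * p c e := by
  refine Finset.sum_congr rfl fun a _ => Finset.sum_congr rfl fun b _ => ?_
  simp only [mul_assoc, ← Finset.mul_sum, T1b_c1 z (fun e c => p c e)]

end tri

namespace Arr

variable {ι : Type} [Fintype ι] {X : Arr ι ℝ} (h : X.Good) {ν e : ι → ℝ} {Γ : ι → ι → ℝ} {a : ℝ}

/-- The first derivative of the second fundamental form. -/
def T1b_dT (X : Arr ι ℝ) (k a b c : ι) : ℝ :=
  X.B k a b c + ∑ e, X.T k e a * X.T e b c + ∑ e, X.T k e b * X.T a e c -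
    ∑ e, X.T k c e * X.T a b e

include h

theorem T1b_nt {f g : ι → ℝ} (hf : X.Nrm f) (hg : X.Tan g) : ∑ a, f a * g a = 0 := by
  simpa only [mul_comm] using h.tn hg hf

theorem T1b_Am (ν : ι → ℝ) (k : ι) : X.Tan fun c => -X.Am ν k c := by
  have := A1_tan_mul (A1_tan_sum (f := fun d c => X.T k c d * ν d)
    fun d => A1_tan_mul (h.Ttan' k d) _) (-1)
  simpa only [mul_neg, mul_one, Am] using this

theorem T1b_w (e : ι → ℝ) (k : ι) : X.Nrm fun a => ∑ b, X.T k b a * e b := by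
  have := A1_nrm_sum (f := fun b a => e b * X.T k b a) fun b => A1_nrm_mul (h.Tnor k b) _
  simpa only [mul_comm] using this

omit h in
theorem T1b_A (hA : ∀ d, ∑ f, X.Am ν d f * e f = a * e d) (x : ι → ℝ) :
    T1b_tri X.T x e ν = a * ∑ d, x d * e d := by
  rw [T1b_e1, Finset.mul_sum]
  refine Finset.sum_congr rfl fun d _ => ?_
  rw [mul_left_comm, ← hA d]
  congr 1
  simp only [Am, Finset.sum_mul]
  exact Finset.sum_congr rfl fun _ _ => Finset.sum_congr rfl fun _ _ => by ring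

omit h in
theorem T1b_M (e : ι → ℝ) : ∑ d, (∑ b, e b * X.M b d) * e d = ∑ d, X.Qe e d d := by
  simp only [M, Qe, Finset.sum_mul, Finset.mul_sum]
  rw [QA.R2_swap]
  refine Finset.sum_congr rfl fun _ _ => Finset.sum_congr rfl fun _ _ =>
    Finset.sum_congr rfl fun _ _ => Finset.sum_congr rfl fun _ _ => by ring

omit h in
theorem T1b_G (ν e : ι → ℝ) :
    T1b_tri X.T e e (fun c => ∑ f, X.G c f * ν f) = X.Gn ν (X.Tv e e) := by
  rw [T1b_e3]
  refine Finset.sum_congr rfl fun c _ => ?_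
  rw [Finset.sum_mul]
  exact Finset.sum_congr rfl fun _ _ => by unfold Tv; ring

omit h in
theorem T1b_Gs (c f : ι) : X.G c f = X.G f c :=
  Finset.sum_congr rfl fun _ _ => Finset.sum_congr rfl fun _ _ => mul_comm _ _

theorem T1b_dT_symm (k a b c : ι) : X.T1b_dT k a b c = X.T1b_dT k b a c := by
  simp only [T1b_dT, h.B23 k a b, h.Tsymm _ b c, h.Tsymm a _ c, h.Tsymm a b]
  ring

theorem T1b_dT1 (hν : X.Nrm ν) (he : X.Tan e) (hA : ∀ d, ∑ f, X.Am ν d f * e f = a * e d)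
    (k : ι) (x : ι → ℝ) : T1b_tri (X.T1b_dT k) x e ν =
      T1b_tri (X.B k) x e ν + a * ∑ d, (∑ b, x b * X.T k d b) * e d := by
  unfold T1b_dT
  rw [T1b_subY, T1b_addY, T1b_addY, T1b_pull1 fun e a => X.T k e a, T1b_A hA,
    T1b_z2 fun a c => T1b_k1 (fun f => h.tn he (h.Tnor k f)) _,
    T1b_z3 fun a b => T1b_k1 (p := fun f c => X.T k c f)
      (fun f => T1b_nt h hν (h.Ttan' k f)) _, add_zero, sub_zero]

omit h in
theorem T1b_be (k : ι) (x : ι → ℝ) : T1b_tri (X.B k) x e ν = ∑ d, X.be ν e k d * x d := by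
  rw [T1b_e1]
  refine Finset.sum_congr rfl fun d _ => ?_
  rw [mul_comm]
  congr 1
  exact Finset.sum_congr rfl fun _ _ => Finset.sum_congr rfl fun _ _ => by ring

theorem T1b_g1 (hν : X.Nrm ν) (he : X.Tan e) (h1 : ∀ k, X.Tan fun d => Γ d k)
    (hA : ∀ d, ∑ f, X.Am ν d f * e f = a * e d) (k : ι) :
    T1b_tri (X.T1b_dT k) (fun a => ∑ b, X.T k b a * e b + Γ a k) e ν =
      ∑ d, X.be ν e k d * Γ d k + a * X.Qe e k k := by
  rw [T1b_add1, T1b_dT1 h hν he hA, T1b_dT1 h hν he hA, T1b_be k fun a => Γ a k,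
    T1b_z1 fun b c => T1b_nt h (T1b_w h e k) (h.Btan2 k b c)]
  have z : ∀ d, ∑ b, Γ b k * X.T k d b = 0 := fun d => h.tn (h1 k) (h.Tnor k d)
  have q : ∑ d, (∑ b, (∑ f, X.T k f b * e f) * X.T k d b) * e d = X.Qe e k k := by
    rw [← T1b_c1 _ fun d b => X.T k d b]
    simp only [Qe, h.Tsymm k, mul_comm (e _)]
  simp only [z, q, zero_mul, Finset.sum_const_zero]
  ring

theorem T1b_g2 (he : X.Tan e) (ν : ι → ℝ) :
    ∑ k, T1b_tri (X.T1b_dT k) e e (fun c => -X.Am ν k c) = X.Gn ν (X.Tv e e) := by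
  have s : ∀ k, T1b_tri (X.T1b_dT k) e e (fun c => -X.Am ν k c) =
      ∑ f, (∑ c, X.Am ν k c * X.T k c f) * X.Tv e e f := by
    intro k
    unfold T1b_dT
    rw [T1b_subY, T1b_addY, T1b_addY, T1b_pull3 fun c e => X.T k c e,
      T1b_z3 fun a b => h.tn (T1b_Am h ν k) (h.Bnor k a b),
      T1b_z1 fun b c => T1b_k1 (fun f => h.tn he (h.Tnor k f)) _,
      T1b_z2 fun a c => T1b_k1 (fun f => h.tn he (h.Tnor k f)) _, T1b_e3]
    simp only [neg_mul, Finset.sum_neg_distrib, Tv]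
    ring
  simp only [s]
  rw [Finset.sum_comm]
  refine Finset.sum_congr rfl fun f _ => ?_
  simp only [mul_assoc (X.Tv e e f), ← Finset.sum_mul, ← Finset.mul_sum]
  rw [mul_comm]
  congr 1
  simp only [Am, G, Finset.sum_mul]
  rw [Finset.sum_comm (f := fun g a => ∑ b, X.T a b f * X.T a b g * ν g)]
  refine Finset.sum_congr rfl fun k _ => ?_
  rw [Finset.sum_comm]
  exact Finset.sum_congr rfl fun _ _ => Finset.sum_congr rfl fun _ _ => by ring

theorem T1b_g3 (k : ι) :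
    T1b_tri X.T (fun a => ∑ b, X.T k b a * e b + Γ a k) (fun a => ∑ b, X.T k b a * e b + Γ a k) ν =
      ∑ d, ∑ f, X.Am ν d f * Γ d k * Γ f k := by
  rw [T1b_add1, T1b_z1 fun b c => T1b_nt h (T1b_w h e k) (h.Ttan b c), zero_add, T1b_swap h.Tsymm,
    T1b_add1, T1b_z1 fun b c => T1b_nt h (T1b_w h e k) (h.Ttan b c), zero_add]
  refine Finset.sum_congr rfl fun d _ => Finset.sum_congr rfl fun f _ => ?_
  simp only [Am, Finset.sum_mul]
  exact Finset.sum_congr rfl fun _ _ => by ring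

theorem T1b_l1 (hA : ∀ d, ∑ f, X.Am ν d f * e f = a * e d) (he : X.Tan e) :
    T1b_tri X.T (fun a => 2 * ∑ b, X.M a b * e b - 2 * ∑ k, ∑ b, X.T k b a * Γ b k) e ν =
      2 * (a * ∑ d, X.Qe e d d) := by
  have z := T1b_k2 (x := e) (fun k f => h.tn he (h.Tnor k f)) fun k b => Γ b k
  have q : ∀ d, (2 * ∑ b, X.M d b * e b - 2 * ∑ k, ∑ b, X.T k b d * Γ b k) * e d =
      2 * ((∑ b, e b * X.M b d) * e d) - 2 * (e d * ∑ k, ∑ b, X.T k b d * Γ b k) := fun d => by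
    have : ∑ b, X.M d b * e b = ∑ b, e b * X.M b d :=
      Finset.sum_congr rfl fun b _ => by rw [Good.M_symm d b, mul_comm]
    rw [this]
    ring
  rw [T1b_A hA, ← T1b_M]
  simp only [q, Finset.sum_sub_distrib, ← Finset.mul_sum, z]
  ring

theorem T1b_l0 (hA : ∀ d, ∑ f, X.Am ν d f * e f = a * e d) (he : X.UT e) :
    T1b_tri (fun a b c => -(X.n * X.T a b c) + 2 * ∑ e, X.G c e * X.T a b e +
      2 * ∑ d, X.M a d * X.T d b c + 2 * ∑ d, X.M b d * X.T a d c -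
      2 * ∑ d, ∑ f, (∑ e, X.T a d e * X.T b f e) * X.T d f c) e e ν =
      -(X.n * a) + 2 * X.Gn ν (X.Tv e e) + 4 * (a * ∑ d, X.Qe e d d) -
        2 * ∑ d, ∑ f, X.Am ν d f * X.Qe e d f := by
  have a0 : T1b_tri X.T e e ν = a := by
    have := he.2
    rw [T1b_A hA, show ∑ d, e d * e d = 1 from this, mul_one]
  have a1 : T1b_tri (fun a b c => ∑ e, X.G c e * X.T a b e) e e ν = X.Gn ν (X.Tv e e) := by
    rw [T1b_pull3, ← T1b_G]
    congr 1
    funext f
    exact Finset.sum_congr rfl fun c _ => by rw [T1b_Gs f c, mul_comm]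
  have a2 : T1b_tri (fun a b c => ∑ d, X.M a d * X.T d b c) e e ν = a * ∑ d, X.Qe e d d := by
    rw [T1b_pull1 fun d a => X.M a d, T1b_A hA, T1b_M]
  have a3 : T1b_tri (fun a b c => ∑ d, X.M b d * X.T a d c) e e ν = a * ∑ d, X.Qe e d d := by
    rw [← a2]
    unfold T1b_tri
    rw [Finset.sum_comm]
    refine Finset.sum_congr rfl fun a _ => Finset.sum_congr rfl fun b _ =>
      Finset.sum_congr rfl fun c _ => ?_
    simp only [h.Tsymm b]
    ring
  have a4 : T1b_tri (fun a b c => ∑ d, ∑ f, (∑ e, X.T a d e * X.T b f e) * X.T d f c) e e ν =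
      ∑ d, ∑ f, X.Am ν d f * X.Qe e d f := by
    have b1 : ∀ a b, ∑ c, e a * e b * ν c * ∑ d, ∑ f, (∑ e, X.T a d e * X.T b f e) * X.T d f c =
        ∑ d, ∑ f, X.Am ν d f * ∑ g, e a * X.T a d g * (e b * X.T b f g) := by
      intro a b
      simp only [Am, Finset.mul_sum (s := Finset.univ)
        (f := fun d => ∑ f, (∑ e, X.T a d e * X.T b f e) * X.T d f _)]
      rw [Finset.sum_comm]
      refine Finset.sum_congr rfl fun d _ => ?_
      simp only [Finset.mul_sum (s := Finset.univ)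
        (f := fun f => (∑ e, X.T a d e * X.T b f e) * X.T d f _)]
      rw [Finset.sum_comm]
      refine Finset.sum_congr rfl fun f _ => ?_
      have : ∑ g, e a * X.T a d g * (e b * X.T b f g) = e a * e b * ∑ g, X.T a d g * X.T b f g := by
        rw [Finset.mul_sum]
        exact Finset.sum_congr rfl fun _ _ => by ring
      rw [this, Finset.sum_mul]
      exact Finset.sum_congr rfl fun _ _ => by ring
    unfold T1b_tri
    simp only [b1]
    rw [QA.R2_swap]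
    refine Finset.sum_congr rfl fun d _ => Finset.sum_congr rfl fun f _ => ?_
    simp only [← Finset.mul_sum (a := X.Am ν d f), Qe, Finset.sum_mul_sum]
    congr 1
    rw [Finset.sum_comm (f := fun c a => ∑ b, e a * X.T a d c * (e b * X.T b f c))]
    exact Finset.sum_congr rfl fun a _ => Finset.sum_comm
  rw [T1b_subY, T1b_addY, T1b_addY, T1b_addY, T1b_negY, T1b_mulY, T1b_mulY, T1b_mulY, T1b_mulY,
    T1b_mulY, a0, a1, a2, a3, a4]
  ring

theorem T1b_l2 (hν : X.Nrm ν) (he : X.Tan e) :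
    T1b_tri (fun a b c => -(2 * ∑ k, ∑ e, X.T k e a * X.B k e b c) -
      2 * ∑ k, ∑ e, X.T k e b * X.B k a e c + 2 * ∑ k, ∑ e, X.T k c e * X.B k a b e -
      2 * ∑ k, ∑ e, ∑ f, X.T k e a * X.T k f b * X.T e f c +
      2 * ∑ k, ∑ e, ∑ f, X.T k e a * X.T k c f * X.T e b f +
      2 * ∑ k, ∑ e, ∑ f, X.T k e b * X.T k c f * X.T a e f) e e ν = 0 := by
  have z : ∀ k f, ∑ a, e a * X.T k f a = 0 := fun k f => h.tn he (h.Tnor k f)
  rw [T1b_addY, T1b_addY, T1b_subY, T1b_addY, T1b_subY, T1b_negY, T1b_mulY, T1b_mulY, T1b_mulY,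
    T1b_mulY, T1b_mulY, T1b_mulY, T1b_z1 fun b c => T1b_k2 z _, T1b_z2 fun a c => T1b_k2 z _,
    T1b_z3 fun a b => T1b_k2 (p := fun k f c => X.T k c f)
      (fun k f => T1b_nt h hν (h.Ttan' k f)) _,
    T1b_z1 fun b c => T1b_k3 z _ _, T1b_z1 fun b c => T1b_k3 z _ _,
    T1b_z2 fun a c => T1b_k3 z _ _]
  ring

end Arr

end Pool.Agent.Lib.MP_de485e_gt.Hi

namespace Pool.Agent.Lib.MP_de485e_gt.Hi.QA

variable {ι : Type} [Fintype ι] {R : Type} [CommRing R] [Algebra ℝ R] (S : QA ι R)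
  (ev : R →ₐ[ℝ] ℝ) {ν e : ι → ℝ} {Γ : ι → ι → ℝ} {a : ℝ} (hν : (S.pt ev).UN ν)
  (he : (S.pt ev).UT e) (h1 : ∀ k, (S.pt ev).Tan fun d => Γ d k) (h2 : ∀ d, (S.pt ev).Tan (Γ d))
  (h3 : ∀ k, ∑ d, e d * Γ d k = 0) (hA : ∀ d, ∑ f, (S.pt ev).Am ν d f * e f = a * e d)

theorem T1b_D4 (k : ι) (p q r t : R) : S.D k (p * q * r * t) =
    S.D k p * q * r * t + p * S.D k q * r * t + p * q * S.D k r * t + p * q * r * S.D k t := by
  simp only [Derivation.leibniz, smul_eq_mul]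
  ring

theorem T1b_L4 (p q r t : R) : S.L (p * q * r * t) =
    S.L p * q * r * t + p * S.L q * r * t + p * q * S.L r * t + p * q * r * S.L t -
      2 * ∑ k, (S.D k p * S.D k q * r * t + S.D k p * q * S.D k r * t + S.D k p * q * r * S.D k t +
        p * S.D k q * S.D k r * t + p * S.D k q * r * S.D k t + p * q * S.D k r * S.D k t) := by
  have e : ∑ k, (S.D k p * S.D k q * r * t + S.D k p * q * S.D k r * t +
      S.D k p * q * r * S.D k t + p * S.D k q * S.D k r * t + p * S.D k q * r * S.D k t +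
        p * q * S.D k r * S.D k t) =
      S.grad p q * r * t + S.grad (p * q) r * t + S.grad (p * q * r) t := by
    simp only [grad, Finset.sum_mul, ← Finset.sum_add_distrib, Derivation.leibniz, smul_eq_mul]
    exact Finset.sum_congr rfl fun _ _ => by ring
  rw [e, S.L_mul, S.L_mul, S.L_mul]
  ring

theorem T1b_evT (a b c : ι) : ev (S.T a b c) = (S.pt ev).T a b c := rfl

theorem T1b_evB (k a b c : ι) : ev (S.B k a b c) = (S.pt ev).B k a b c := rfl

theorem T1b_evD (k a b c : ι) : ev (S.D k (S.T a b c)) = (S.pt ev).T1b_dT k a b c := by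
  simp only [S.D_T, map_add, map_sub, map_sum, map_mul, T1b_evT, T1b_evB, Arr.T1b_dT]

theorem T1b_phi (U N : ι → R) :
    S.arr.phi U N = ∑ a, ∑ b, ∑ c, U a * U b * N c * S.T a b c := rfl

include hν he h1 h2 h3 hA

theorem ev_phi : ev (S.arr.phi (S.arr.U (S.pt ev).F e Γ) (S.arr.Nu ν)) = a := by
  have := Arr.T1b_A hA e
  rw [show ∑ d, e d * e d = 1 from he.2, mul_one] at this
  simp only [T1b_phi, map_sum, map_mul, S.ev_U ev he h1 h2, S.ev_Nu ev hν, T1b_evT]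
  exact this

theorem ev_Dphi (k : ι) :
    ev (S.D k (S.arr.phi (S.arr.U (S.pt ev).F e Γ) (S.arr.Nu ν))) = (S.pt ev).bx ν e k := by
  have h := S.good_pt ev
  have z : ∀ d, ∑ b, e b * (S.pt ev).T k d b = 0 := fun d => h.tn he.1 (h.Tnor k d)
  have a1 : T1b_tri (S.pt ev).T (fun a => ∑ b, (S.pt ev).T k b a * e b + Γ a k) e ν = 0 := by
    rw [T1b_add1, T1b_z1 fun b c => Arr.T1b_nt h (Arr.T1b_w h e k) (h.Ttan b c), Arr.T1b_A hA]
    simp only [mul_comm (Γ _ k), h3 k, mul_zero, add_zero]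
  have a2 := (T1b_swap h.Tsymm).symm.trans a1
  have a3 : T1b_tri (S.pt ev).T e e (fun c => -(S.pt ev).Am ν k c) = 0 :=
    T1b_z3 fun a b => h.tn (Arr.T1b_Am h ν k) (h.Tnor a b)
  have a4 := Arr.T1b_dT1 h hν.1 he.1 hA k e
  rw [Arr.T1b_be] at a4
  simp only [z, zero_mul, Finset.sum_const_zero, mul_zero, add_zero] at a4
  simp only [T1b_phi, map_sum, T1b_D4, map_add, map_mul, S.ev_U ev he h1 h2, S.ev_Nu ev hν,
    S.ev_DU ev he h1 h2, S.ev_DNu ev hν, T1b_evT, T1b_evD, Finset.sum_add_distrib]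
  unfold T1b_tri at a1 a2 a3 a4
  rw [a1, a2, a3, a4, Arr.bx]
  ring

/-- With `Q = Qe e`, `A = Am ν`: `L T (e, e, ν) = -n a + 2 Gn + 4 a tr Q - 2 tr (Q A)`,
`2 T (L U, e, ν) = 4 a tr Q`, `T (e, e, L Nu) = 2 Gn`, and the gradient terms
`D k T (D k U, e, ν) = be Γ + a tr Q`, `D k T (e, e, D k Nu) = Gn`, `T (D k U, D k U, ν) = A Γ Γ`,
`T (D k U, e, D k Nu) = 0`. -/
theorem ev_Lphi : ev (S.L (S.arr.phi (S.arr.U (S.pt ev).F e Γ) (S.arr.Nu ν))) =
    -(S.n * a) + 2 * (S.pt ev).Gn ν ((S.pt ev).Tv e e) + 4 * (a * ∑ d, (S.pt ev).Qe e d d) -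
      2 * ∑ d, ∑ f, (S.pt ev).Am ν d f * (S.pt ev).Qe e d f -
      4 * ∑ k, ∑ d, (S.pt ev).be ν e k d * Γ d k -
      2 * ∑ k, ∑ d, ∑ f, (S.pt ev).Am ν d f * Γ d k * Γ f k := by
  have h := S.good_pt ev
  have hM : ∀ a d, ev (S.arr.M a d) = (S.pt ev).M a d := fun a d => (S.arr.map_M ev a d).symm
  have hG : ∀ a d, ev (S.arr.G a d) = (S.pt ev).G a d := fun a d => (S.arr.map_G ev a d).symm
  have a1 := Arr.T1b_l1 (Γ := Γ) h hA he.1
  have a2 := (T1b_swap h.Tsymm).symm.trans a1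
  have a3 : T1b_tri (S.pt ev).T e e (fun c => 2 * ∑ f, (S.pt ev).G c f * ν f) =
      2 * (S.pt ev).Gn ν ((S.pt ev).Tv e e) := by
    rw [← Arr.T1b_G, T1b_e3, T1b_e3, Finset.mul_sum]
    exact Finset.sum_congr rfl fun _ _ => mul_assoc _ _ _
  have a4 : T1b_tri (fun a b c => ev (S.L (S.T a b c))) e e ν =
      -(S.n * a) + 2 * (S.pt ev).Gn ν ((S.pt ev).Tv e e) + 4 * (a * ∑ d, (S.pt ev).Qe e d d) -
        2 * ∑ d, ∑ f, (S.pt ev).Am ν d f * (S.pt ev).Qe e d f + 0 := by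
    simp only [S.L_T, map_add]
    rw [T1b_addY]
    simp only [LT0, LT1, map_add, map_sub, map_neg, map_mul, map_sum, map_natCast, map_ofNat,
      T1b_evT, T1b_evB, hM, hG]
    exact congrArg₂ (· + ·) (Arr.T1b_l0 h hA he) (Arr.T1b_l2 h hν.1 he.1)
  have g : ∀ k, ∑ x, ∑ y, ∑ z, ev (S.D k (S.arr.U (S.pt ev).F e Γ x) *
        S.D k (S.arr.U (S.pt ev).F e Γ y) * S.arr.Nu ν z * S.T x y z +
      S.D k (S.arr.U (S.pt ev).F e Γ x) * S.arr.U (S.pt ev).F e Γ y * S.D k (S.arr.Nu ν z) *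
        S.T x y z +
      S.D k (S.arr.U (S.pt ev).F e Γ x) * S.arr.U (S.pt ev).F e Γ y * S.arr.Nu ν z *
        S.D k (S.T x y z) +
      S.arr.U (S.pt ev).F e Γ x * S.D k (S.arr.U (S.pt ev).F e Γ y) * S.D k (S.arr.Nu ν z) *
        S.T x y z +
      S.arr.U (S.pt ev).F e Γ x * S.D k (S.arr.U (S.pt ev).F e Γ y) * S.arr.Nu ν z *
        S.D k (S.T x y z) +
      S.arr.U (S.pt ev).F e Γ x * S.arr.U (S.pt ev).F e Γ y * S.D k (S.arr.Nu ν z) *
        S.D k (S.T x y z)) =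
      ∑ d, ∑ f, (S.pt ev).Am ν d f * Γ d k * Γ f k +
        2 * (∑ d, (S.pt ev).be ν e k d * Γ d k + a * (S.pt ev).Qe e k k) +
        T1b_tri ((S.pt ev).T1b_dT k) e e fun c => -(S.pt ev).Am ν k c := by
    intro k
    have b1 := Arr.T1b_g3 (ν := ν) (e := e) (Γ := Γ) h k
    have b2 : T1b_tri (S.pt ev).T (fun a => ∑ b, (S.pt ev).T k b a * e b + Γ a k) e
        (fun c => -(S.pt ev).Am ν k c) = 0 :=
      T1b_z3 fun a b => h.tn (Arr.T1b_Am h ν k) (h.Tnor a b)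
    have b3 := Arr.T1b_g1 h hν.1 he.1 h1 hA k
    have b4 := (T1b_swap h.Tsymm).symm.trans b2
    have b5 := (T1b_swap (Arr.T1b_dT_symm h k)).symm.trans b3
    simp only [map_add, map_mul, S.ev_U ev he h1 h2, S.ev_Nu ev hν, S.ev_DU ev he h1 h2,
      S.ev_DNu ev hν, T1b_evT, T1b_evD, Finset.sum_add_distrib]
    unfold T1b_tri at b1 b2 b3 b4 b5 ⊢
    rw [b1, b2, b3, b4, b5]
    ring
  have sw : ∀ F : ι → ι → ι → ι → ℝ, ∑ x, ∑ y, ∑ z, 2 * ∑ k, F k x y z =
      2 * ∑ k, ∑ x, ∑ y, ∑ z, F k x y z := by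
    intro F
    simp only [← Finset.mul_sum]
    congr 1
    rw [Finset.sum_comm (f := fun k x => ∑ y, ∑ z, F k x y z)]
    refine Finset.sum_congr rfl fun x _ => ?_
    rw [Finset.sum_comm (f := fun k y => ∑ z, F k x y z)]
    exact Finset.sum_congr rfl fun y _ => Finset.sum_comm
  rw [T1b_phi]
  simp only [S.L_sum, T1b_L4, map_sum, map_sub, Finset.sum_sub_distrib]
  simp only [map_mul ev 2, map_ofNat, map_sum]
  rw [sw]
  simp only [g]
  simp only [map_add, map_mul, S.ev_U ev he h1 h2, S.ev_Nu ev hν, S.ev_LU ev he h1 h2,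
    S.ev_LNu ev hν, T1b_evT, Finset.sum_add_distrib, Arr.T1b_g2 h he.1, ← Finset.mul_sum]
  unfold T1b_tri at a1 a2 a3 a4
  rw [a1, a2, a3, a4]
  ring

end Pool.Agent.Lib.MP_de485e_gt.Hi.QA
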