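import Pool.Agent.Lib.MP_de485e_gt.Hi.R8
import Pool.Agent.Lib.MP_de485e_gt.Hi.T1b
import Pool.Agent.Lib.MP_de485e_gt.Hi.Grad

/-! The pinching condition cannot be touched. -/

namespace Pool.Agent.Lib.MP_de485e_gt.Hi.QA

variable {ι : Type} [Fintype ι] {R : Type} [CommRing R] [Algebra ℝ R] (S : QA ι R)
  (ev : R →ₐ[ℝ] ℝ)

private theorem T2_grad (g h : R) :
    ev (S.grad g h) = ∑ k, ev (S.D k g) * ev (S.D k h) := by
  simp only [grad, map_sum, map_mul]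

private theorem T2_mul {g h : R} (h1 : ev h = 1) (h2 : ∀ k, ev (S.D k h) = 0) :
    ev (g * h) = ev g ∧ (∀ k, ev (S.D k (g * h)) = ev (S.D k g)) ∧
      ev (S.L (g * h)) = ev (S.L g) + ev g * ev (S.L h) := by
  refine ⟨by rw [map_mul, h1, mul_one], fun k => ?_, ?_⟩
  · rw [Derivation.leibniz, smul_eq_mul, smul_eq_mul, map_add, map_mul, map_mul, h1, h2]
    ring
  · rw [S.L_mul]
    simp only [map_sub, map_add, map_mul, map_ofNat, T2_grad, h1, h2, mul_zero,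
      Finset.sum_const_zero]
    ring

/-- The normalised test function at the base point. -/
theorem test_jet {ν e : ι → ℝ} {Γ : ι → ι → ℝ} {a : ℝ} (hν : (S.pt ev).UN ν)
    (he : (S.pt ev).UT e) (h1 : ∀ k, (S.pt ev).Tan fun d => Γ d k)
    (h2 : ∀ d, (S.pt ev).Tan (Γ d)) (h3 : ∀ k, ∑ d, e d * Γ d k = 0)
    (hA : ∀ d, ∑ f, (S.pt ev).Am ν d f * e f = a * e d) {iU iN A : R}
    (hU : iU * dot (S.arr.U (S.pt ev).F e Γ) (S.arr.U (S.pt ev).F e Γ) = 1)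
    (hN : iN * iN * dot (S.arr.Nu ν) (S.arr.Nu ν) = 1) (h0 : 0 < ev iN)
    (hAe : A = S.arr.phi (S.arr.U (S.pt ev).F e Γ) (S.arr.Nu ν) * iU * iN) :
    ev A = a ∧ (∀ k, ev (S.D k A) = (S.pt ev).bx ν e k) ∧
      ev (S.L A) = (S.pt ev).react ν e a + (S.pt ev).GT ν e a Γ := by
  obtain ⟨u1, u2, u3⟩ := S.inv_U ev he h1 h2 h3 hU
  obtain ⟨n1, n2, n3⟩ := S.inv_Nu ev hν hN h0
  have p1 := S.ev_phi ev hν he h1 h2 h3 hA
  have p2 := S.ev_Dphi ev hν he h1 h2 h3 hA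
  have p3 := S.ev_Lphi ev hν he h1 h2 h3 hA
  obtain ⟨a1, a2, a3⟩ :=
    S.T2_mul ev (g := S.arr.phi (S.arr.U (S.pt ev).F e Γ) (S.arr.Nu ν)) u1 u2
  obtain ⟨b1, b2, b3⟩ :=
    S.T2_mul ev (g := S.arr.phi (S.arr.U (S.pt ev).F e Γ) (S.arr.Nu ν) * iU) n1 n2
  rw [hAe]
  refine ⟨by rw [b1, a1, p1], fun k => by rw [b2, a2, p2], ?_⟩
  have hn : ((S.pt ev).n : ℝ) = S.n := rfl
  rw [b3, a3, a1, p1, p3, u3, n3, Arr.react, Arr.GT, Arr.Ce, hn]
  ring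

theorem test_nu {ν : ι → ℝ} {iN : R} (hN : iN * iN * dot (S.arr.Nu ν) (S.arr.Nu ν) = 1) :
    (S.pt ev).UN fun c => ev (S.arr.Nu ν c * iN) := by
  refine ⟨fun a => ?_, ?_, ?_⟩
  · have h := congrArg (fun x => ev (x * iN)) (S.Nu_nrm ν a)
    simp only [zero_mul, map_zero, Finset.sum_mul, map_sum, mul_assoc] at h
    rw [← h]
    exact Finset.sum_congr rfl fun b _ => (map_mul ev _ _).symm
  · have h := congrArg (fun x => ev (x * iN)) (S.Nu_F ν)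
    simp only [zero_mul, map_zero, dot, Finset.sum_mul, map_sum] at h
    rw [← h]
    refine Finset.sum_congr rfl fun b _ => ?_
    rw [mul_right_comm, map_mul ev (_ * iN)]
    rfl
  · have h := congrArg ev hN
    simp only [map_one, dot, Finset.mul_sum, map_sum, map_mul] at h
    rw [← h]
    refine Finset.sum_congr rfl fun b _ => ?_
    simp only [map_mul]
    ring

/-- At any point the test function is a value of the second fundamental form. -/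
theorem test_val {U : ι → R} (hU : S.arr.Tan U) {iU : R} (h : iU * dot U U = 1) (N : ι → R)
    (iN : R) : ∃ e, (S.pt ev).UT e ∧
      ev (S.arr.phi U N * iU * iN) = (S.pt ev).Av (fun c => ev (N c * iN)) e e := by
  have h1 := congrArg ev h
  simp only [map_one, dot, map_sum, map_mul] at h1
  have h2 : 0 ≤ ∑ a, ev (U a) * ev (U a) := Finset.sum_nonneg fun _ _ => mul_self_nonneg _
  have h3 : 0 ≤ ev iU := by
    by_contra hc
    have := mul_nonpos_of_nonpos_of_nonneg (not_le.1 hc).le h2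
    linarith
  have h4 := Real.mul_self_sqrt h3
  refine ⟨fun a => √(ev iU) * ev (U a), ⟨fun a => ?_, ?_⟩, ?_⟩
  · show ∑ b, (S.pt ev).P a b * (√(ev iU) * ev (U b)) = √(ev iU) * ev (U a)
    rw [← hU a, map_sum, Finset.mul_sum]
    refine Finset.sum_congr rfl fun b _ => ?_
    rw [map_mul, mul_left_comm]
    rfl
  · rw [← h1, Finset.mul_sum]
    refine Finset.sum_congr rfl fun a _ => ?_
    linear_combination (ev (U a) * ev (U a)) * h4
  · simp only [Arr.phi, Arr.Av, Arr.Tv, dot, map_sum, map_mul, Finset.sum_mul]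
    symm
    rw [Finset.sum_comm]
    refine Finset.sum_congr rfl fun a _ => ?_
    rw [Finset.sum_comm]
    refine Finset.sum_congr rfl fun b _ => Finset.sum_congr rfl fun c _ => ?_
    have e : (S.pt ev).T a b c = ev (S.arr.T a b c) := rfl
    rw [e]
    linear_combination (ev (U a) * ev (U b) * ev (S.arr.T a b c) * ev (N c) * ev iN) * h4

private theorem T2_g (p : Par S.n) :
    ev (S.arr.e2 - (kk S.n / S.n) • S.arr.u) = p.g (S.pt ev).e2 (S.pt ev).u - p.l ^ 2 := by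
  rw [map_sub, map_smul, smul_eq_mul, ← Arr.map_e2, ← Arr.map_u, Par.g]
  show (S.pt ev).e2 - kk S.n / S.n * (S.pt ev).u = _
  ring

private theorem T2_gpos {p : Par S.n} (k : (S.pt ev).K p) :
    0 < p.g (S.pt ev).e2 (S.pt ev).u := by
  have h1 : (p.l ^ 2 + (S.pt ev).e2) / 9 ≤ p.g (S.pt ev).e2 (S.pt ev).u :=
    Arr.K.g_ge (S.good_pt ev) k
  have h2 := (S.good_pt ev).e2_nonneg
  have h3 := pow_pos p.hl 2
  linarith

private theorem T2_sqrt {r x : ℝ} (hr : 0 < r) (hx : 0 ≤ x) : √x ≤ r / 2 + x / (2 * r) := by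
  have k5 := Real.mul_self_sqrt hx
  rw [← sub_le_iff_le_add', le_div_iff₀ (by positivity)]
  nlinarith [sq_nonneg (√x - r)]

/-- The barrier. -/
private noncomputable def T2_Psi (A B ζ υ G : R) (ε s r : ℝ) : R :=
  (A - B) * (A - B) - (4 : ℝ) • (ζ * (A * B)) - (4 : ℝ) • υ + (4000 * ε) • (ζ * (A + B)) -
    ε • (ζ * (algebraMap ℝ R s + (2 * r)⁻¹ • G))

private theorem T2_ev (A B ζ υ G : R) (ε s r : ℝ) : ev (T2_Psi A B ζ υ G ε s r) =
    (ev A - ev B) ^ 2 - 4 * ev ζ * (ev A * ev B) - 4 * ev υ + 4000 * (ε * ev ζ) * (ev A + ev B) -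
      ε * ev ζ * (s + (2 * r)⁻¹ * ev G) := by
  simp only [T2_Psi, map_sub, map_add, map_mul, map_smul, smul_eq_mul, AlgHom.commutes,
    Algebra.algebraMap_self, RingHom.id_apply]
  ring

private theorem T2_evL {A B ζ υ G : R} (ε s r : ℝ) (hζ : ∀ k, S.D k ζ = 0)
    (hυ : ∀ k, S.D k υ = 0) : ev (S.L (T2_Psi A B ζ υ G ε s r)) =
    (2 * (ev A - ev B) - 4 * ev ζ * ev B + 4000 * (ε * ev ζ)) * ev (S.L A) +
      (-2 * (ev A - ev B) - 4 * ev ζ * ev A + 4000 * (ε * ev ζ)) * ev (S.L B) -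
      ∑ k, (2 * (ev (S.D k A) - ev (S.D k B)) ^ 2 - 8 * ev ζ * (ev (S.D k A) * ev (S.D k B))) -
      4 * ev (S.dt υ) - ε * ev ζ * (2 * r)⁻¹ * ev (S.L G) +
      ev (S.dt ζ) * (-(4 * (ev A * ev B)) + 4000 * ε * (ev A + ev B) -
        ε * (s + (2 * r)⁻¹ * ev G)) := by
  have e : ∑ k, (2 * (ev (S.D k A) - ev (S.D k B)) ^ 2 -
      8 * ev ζ * (ev (S.D k A) * ev (S.D k B))) =
      2 * ev (S.grad (A - B) (A - B)) - 8 * ev ζ * ev (S.grad A B) := by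
    simp only [T2_grad, map_sub, Finset.sum_sub_distrib, Finset.mul_sum, sq]
  rw [e]
  simp only [T2_Psi, S.L_sub, S.L_add, S.L_smul, S.L_time_mul hζ, S.L_time hυ, S.L_alg]
  simp only [S.L_mul, S.L_sub, map_sub, map_add, map_mul, map_smul, smul_eq_mul, AlgHom.commutes,
    Algebra.algebraMap_self, RingHom.id_apply, map_ofNat, map_zero]
  ring

/-- With the test functions `A`, `B`, `r = √g` at the point and the ring element
`g = om l - (kk n / n) • u` take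
`Ψ = (A - B) ^ 2 - 4 ζ A B - 4 υ + 4000 eps0 ζ (A + B) - eps0 ζ (r / 2 + g / (2 r))`;
`√g ≤ r / 2 + g / (2 r)`; `L Ψ` is at most the sum of `react_neg` and `grad_nonpos` (`Lg_ge`). -/
theorem no_touch (p : Par S.n) {ν e e' : ι → ℝ} {a b : ℝ} (t : (S.pt ev).Tch p ν e e' a b)
    {iU iU' iN ζ υ : R}
    (hU : iU * dot (S.arr.U (S.pt ev).F e ((S.pt ev).Gam ν e (a - b)⁻¹))
      (S.arr.U (S.pt ev).F e ((S.pt ev).Gam ν e (a - b)⁻¹)) = 1)
    (hU' : iU' * dot (S.arr.U (S.pt ev).F e' ((S.pt ev).Gam ν e' (-(a - b)⁻¹)))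
      (S.arr.U (S.pt ev).F e' ((S.pt ev).Gam ν e' (-(a - b)⁻¹))) = 1)
    (hN : iN * iN * dot (S.arr.Nu ν) (S.arr.Nu ν) = 1) (h0 : 0 < ev iN)
    (hζ : ∀ k, S.D k ζ = 0) (hζ0 : ev ζ = p.Z) (hζt : ev (S.dt ζ) = -(p.m / 10 * p.Z))
    (hυ : ∀ k, S.D k υ = 0) (hυ0 : ev υ = p.Y) 
    (hre : (S.pt ev).Rx p ν e e' a b < 4 * ev (S.dt υ)) :
    ∃ Ψ : R, ev Ψ = 0 ∧ ev (S.L Ψ) < 0 ∧ ∀ (ev' : R →ₐ[ℝ] ℝ) (p' : Par S.n), p'.l = p.l →
      p'.m = p.m → (S.pt ev').K p' → ev' ζ = p'.Z → ev' υ = p'.Y → ev' Ψ ≤ 0 := by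
  have hg := S.good_pt ev
  obtain ⟨a1, a2, a3⟩ := S.test_jet ev t.hν t.he (Arr.Gam_tan hg t.he _) (Arr.Gam_tan' hg _)
    (Arr.Gam_perp hg t.he _) (t.eig hg) hU hN h0 rfl
  obtain ⟨b1, b2, b3⟩ := S.test_jet ev t.hν t.he' (Arr.Gam_tan hg t.he' _) (Arr.Gam_tan' hg _)
    (Arr.Gam_perp hg t.he' _) (t.eig' hg) hU' hN h0 rfl
  have v1 := fun ev' : R →ₐ[ℝ] ℝ => S.test_val ev' (S.U_tan _ _ _) hU (S.arr.Nu ν) iN
  have v2 := fun ev' : R →ₐ[ℝ] ℝ => S.test_val ev' (S.U_tan _ _ _) hU' (S.arr.Nu ν) iN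
  generalize S.arr.phi (S.arr.U (S.pt ev).F e ((S.pt ev).Gam ν e (a - b)⁻¹)) (S.arr.Nu ν) * iU *
    iN = A at a1 a2 a3 v1
  generalize S.arr.phi (S.arr.U (S.pt ev).F e' ((S.pt ev).Gam ν e' (-(a - b)⁻¹))) (S.arr.Nu ν) *
    iU' * iN = B at b1 b2 b3 v2
  have g0 := S.T2_gpos ev t.K
  have g1 := S.T2_g ev p
  have hc0 : 0 ≤ p.m / 10 := by linarith [p.hm]
  unfold Arr.Rx at hre
  generalize p.m / 10 = c at hre hζt hc0
  have hgr : p.Pa a b * (S.pt ev).GT ν e a ((S.pt ev).Gam ν e (a - b)⁻¹) +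
      p.Pb a b * (S.pt ev).GT ν e' b ((S.pt ev).Gam ν e' (-(a - b)⁻¹)) -
      ∑ k, (2 * ((S.pt ev).bx ν e k - (S.pt ev).bx ν e' k) ^ 2 -
        8 * p.Z * ((S.pt ev).bx ν e k * (S.pt ev).bx ν e' k)) ≤ 0 := t.grad_nonpos hg
  have heq : p.Phi (p.E (S.pt ev).e2 (S.pt ev).u) a b = 0 := t.eq
  have hab := (t.signs hg).1
  have hn : (2 : ℝ) ≤ S.n := by exact_mod_cast S.hn
  have hL := S.Lg_ge ev (k := kk S.n) (by
    have : (S.n : ℝ) - 1 ≠ 0 := by linarith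
    unfold kk
    field_simp)
  have e1 : (S.pt ev).Re = ev S.arr.Re := Arr.map_Re _ _
  have e2 : (S.pt ev).Ru = ev S.arr.Ru := Arr.map_Ru _ _
  rw [e1, e2] at hre
  simp only [Par.E] at hre heq
  have hr := Real.sqrt_pos.2 g0
  have hr2 := Real.mul_self_sqrt g0.le
  generalize √(p.g (S.pt ev).e2 (S.pt ev).u) = r at hre heq hr hr2
  have hs : ∀ x : ℝ, r / 2 + (2 * r)⁻¹ * p.l ^ 2 + (2 * r)⁻¹ * (x - p.l ^ 2) =
      r / 2 + x / (2 * r) := fun x => by ring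
  have hs0 : r / 2 + p.g (S.pt ev).e2 (S.pt ev).u / (2 * r) = r := by
    rw [← hr2]
    field_simp
    ring
  have hZ := p.hZ
  have hμ := p.mu0_pos
  refine ⟨T2_Psi A B ζ υ (S.arr.e2 - (kk S.n / S.n) • S.arr.u) p.eps0
    (r / 2 + (2 * r)⁻¹ * p.l ^ 2) r, ?_, ?_, fun ev' p' hl hm k' z' y' => ?_⟩
  · rw [T2_ev, a1, b1, hζ0, hυ0, g1, hs, hs0]
    exact heq
  · rw [S.T2_evL ev _ _ _ hζ hυ, a1, b1, hζ0, hζt, g1, hs, hs0, a3, b3]
    simp only [a2, b2]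
    have k1 : p.mu0 / (2 * r) * (ev S.arr.Re - kk S.n / S.n * ev S.arr.Ru) ≤
        p.mu0 / (2 * r) * ev (S.L (S.arr.e2 - (kk S.n / S.n) • S.arr.u)) :=
      mul_le_mul_of_nonneg_left hL (by positivity)
    have k2 : 0 ≤ c * p.Z * (a - b) ^ 2 := by positivity
    have k3 : 0 ≤ c * p.mu0 * (a + b) := by positivity
    simp only [Par.Pa, Par.Pb, Par.mu1, Par.mu0, div_eq_mul_inv] at hre hgr k1 k3 ⊢
    linarith
  · obtain ⟨x, hx, hx'⟩ := v1 ev'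
    obtain ⟨y, hy, hy'⟩ := v2 ev'
    have k1 : p'.Phi (p'.E (S.pt ev').e2 (S.pt ev').u) (ev' A) (ev' B) ≤ 0 := by
      rw [hx', hy']
      exact k' _ x y (S.test_nu ev' hN) hx hy
    have k2 := S.T2_gpos ev' k'
    have k3 := S.T2_g ev' p'
    have k4 : p'.eps0 = p.eps0 := by rw [Par.eps0, Par.eps0, hl, hm]
    have k7 := mul_le_mul_of_nonneg_left (T2_sqrt hr k2.le) p'.mu0_pos.le
    rw [hl] at k3
    rw [T2_ev, z', y', k3, hs, ← k4]
    simp only [Par.Phi, Par.E, Par.mu1, Par.mu0] at k1 k7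
    linarith

end Pool.Agent.Lib.MP_de485e_gt.Hi.QA
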