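import Pool.Agent.Lib.MP_de485e_gt.Hi.M2
import Pool.Agent.Lib.MP_de485e_gt.Hi.M3a
import Pool.Agent.Lib.MP_de485e_gt.Hi.T2

/-! The pinching condition is preserved. -/

open Set Filter Topology
open scoped RealInnerProductSpace InnerProduct Manifold ContDiff

namespace Pool.Agent.Lib.MP_de485e_gt.Hi

open Conv

variable {P Q : Type} [NormedAddCommGroup P] [InnerProductSpace ℝ P] [CompleteSpace P]
  [FiniteDimensional ℝ P] [NormedAddCommGroup Q] [InnerProductSpace ℝ Q] [CompleteSpace Q]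
  [FiniteDimensional ℝ Q] {M : Type} [TopologicalSpace M] [ChartedSpace P M]
  [IsManifold 𝓘(ℝ, P) ∞ M] {F : ℝ → M → Q} {n : ℕ} {ι : Type} [Fintype ι] [DecidableEq ι]

section aux

variable {R R' : Type} [CommRing R] [Algebra ℝ R] [CommRing R'] [Algebra ℝ R'] (φ : R →ₐ[ℝ] R')

omit [DecidableEq ι] in
private theorem M3_dot (f : ι → R) : φ (dot f f) = dot (fun a => φ (f a)) fun a => φ (f a) := by
  simp only [dot, map_sum, map_mul]

omit [DecidableEq ι] in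
theorem M3_U (X : Arr ι R) (F0 e : ι → ℝ) (Γ : ι → ι → ℝ) :
    (X.map φ).U F0 e Γ = fun a => φ (X.U F0 e Γ a) := by
  funext a
  simp only [Arr.U, Arr.map, map_sum, map_mul, map_add, map_smul, map_sub, AlgHom.commutes]

omit [DecidableEq ι] in
private theorem M3_Nu (X : Arr ι R) (ν : ι → ℝ) : (X.map φ).Nu ν = fun a => φ (X.Nu ν a) := by
  funext a
  simp only [Arr.Nu, Arr.map, map_sum, map_mul, map_smul, map_sub, AlgHom.commutes]

end aux

omit [Fintype ι] [DecidableEq ι] in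
theorem M3_comp {α β : Type} {l : Filter α} {l' : Filter β} {X : α → Arr ι ℝ}
    {p : α → Par n} {X0 : Arr ι ℝ} {p0 : Par n} (c : Cvg l X p X0 p0) {f : β → α}
    (hf : Tendsto f l' l) : Cvg l' (fun i => X (f i)) (fun i => p (f i)) X0 p0 :=
  ⟨fun _ => c.hn _, fun a d => (c.hP a d).comp hf, fun a => (c.hF a).comp hf,
    fun a d e => (c.hT a d e).comp hf, c.hZ.comp hf, fun _ => c.hm _, fun _ => c.hl _,
    c.hY.comp hf⟩

theorem M3_dZ (Z c t₁ s : ℝ) : HasDerivAt (fun s => Z * Real.exp (-(c * (s - t₁))))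
    (-(c * (Z * Real.exp (-(c * (s - t₁)))))) s := by
  have h1 := ((((hasDerivAt_id s).sub_const t₁).const_mul c).neg.exp).const_mul Z
  refine h1.congr_deriv ?_
  simp only [id, Pi.neg_apply]
  ring

theorem M3_dY {f : ℝ → ℝ} {f' s θ : ℝ} (hθ : 0 < θ) (hf : HasDerivAt f f' s)
    (h0 : 0 < f s) : HasDerivAt (fun s => (1 + f s) * (f s / (1 + θ * f s)))
      (f' * ((1 + 2 * f s + θ * f s ^ 2) / (1 + θ * f s) ^ 2)) s := by
  have h1 : 1 + θ * f s ≠ 0 := by positivity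
  have h2 := (hf.const_add 1).mul (hf.div ((hf.const_mul θ).const_add 1) h1)
  refine h2.congr_deriv ?_
  simp only [Pi.div_apply]
  field_simp
  ring

omit [IsManifold 𝓘(ℝ, P) ∞ M] in
theorem M3_open {O : Set (ℝ × M)} (hO : IsOpen O) (g : Rg P O) :
    IsOpen {z | z ∈ O ∧ 0 < fn g z} :=
  ((fn_smo g).continuousOn hO).isOpen_inter_preimage hO isOpen_Ioi

omit [DecidableEq ι] in
private theorem M3_Rx {X : Arr ι ℝ} (h : X.Good) {p : Par X.n} {ν e e' : ι → ℝ} {a b : ℝ}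
    (t : X.Tch p ν e e' a b) (hq : p.Fit (Fintype.card ι - X.n - 1)) :
    X.Rx p ν e e' a b + 4 * (p.m / 10 * p.Z) < 0 := by
  refine lt_of_eq_of_lt ?_ (t.react_neg h hq (c := p.m / 10) (by linarith [p.hm]) le_rfl)
  unfold Arr.Rx
  ring

/-- A family of parameters on `[t₁, t₂]`; `Υ` is the function `Y` of time. -/
structure Fam (p : Par n) (pp : ℝ → Par n) (Υ Υ' : ℝ → ℝ) (t₁ t₂ : ℝ) : Prop where
  hm : ∀ s, (pp s).m = p.m
  hl : ∀ s, (pp s).l = p.l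
  hZ : ∀ s ∈ Icc t₁ t₂, (pp s).Z = p.Z * Real.exp (-(p.m / 10 * (s - t₁)))
  hY : ∀ s ∈ Icc t₁ t₂, (pp s).Y = Υ s
  sm : ContDiff ℝ ∞ Υ
  der : ∀ s, HasDerivAt Υ (Υ' s) s
  cZ : Continuous fun s => (pp s).Z
  cY : Continuous fun s => (pp s).Y

/-- The contradiction on a set where the three squared norms are positive. -/
private theorem M3_core {O : Set (ℝ × M)} (h : Dom P F O) (hd : Dm P n) (hf : Flw P F O)
    (b : OrthonormalBasis ι ℝ Q) {p : Par n} {pp : ℝ → Par n} {Υ Υ' : ℝ → ℝ} {t₁ t₂ : ℝ}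
    (f : Fam p pp Υ Υ' t₁ t₂) (z : O) (h1 : ∀ w : O, t₁ < w.1.1) (h2 : z.1.1 ≤ t₂)
    (hK : ∀ w : O, w.1.1 ≤ z.1.1 → ((qa h hd hf b).pt (ev w)).K (pp w.1.1))
    {ν e e' : ι → ℝ} {a a' : ℝ}
    (t : ((qa h hd hf b).pt (ev z)).Tch (pp z.1.1) ν e e' a a')
    (hre : ((qa h hd hf b).pt (ev z)).Rx (pp z.1.1) ν e e' a a' < 4 * Υ' z.1.1)
    {U U' N : ι → Rg P O}
    (hU : U = (qa h hd hf b).arr.U ((qa h hd hf b).pt (ev z)).F e
      (((qa h hd hf b).pt (ev z)).Gam ν e (a - a')⁻¹))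
    (hU' : U' = (qa h hd hf b).arr.U ((qa h hd hf b).pt (ev z)).F e'
      (((qa h hd hf b).pt (ev z)).Gam ν e' (-(a - a')⁻¹)))
    (hN : N = (qa h hd hf b).arr.Nu ν) (p1 : ∀ w, 0 < ev w (dot U U))
    (p2 : ∀ w, 0 < ev w (dot U' U')) (p3 : ∀ w, 0 < ev w (dot N N)) : False := by
  obtain ⟨iU, e1⟩ := Dom.exists_inv _ p1
  obtain ⟨iU', e2⟩ := Dom.exists_inv _ p2
  obtain ⟨iN, e3, -, -⟩ := h.exists_rpow _ p3 (-1 / 2)
  have e4 : iN * iN * dot N N = 1 := rg_ext fun w => by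
    rw [map_mul, map_mul, e3, map_one, ← Real.rpow_add (p3 w)]
    norm_num [Real.rpow_neg_one, inv_mul_cancel₀ (p3 w).ne']
  have e5 : 0 < ev z iN := by
    rw [e3]
    exact Real.rpow_pos_of_pos (p3 z) _
  have hsm : ContDiff ℝ ∞ fun s : ℝ => p.Z * Real.exp (-(p.m / 10 * (s - t₁))) := by fun_prop
  obtain ⟨ζ, z1, z2, z3⟩ := h.exists_time hsm (M3_dZ p.Z (p.m / 10) t₁)
  obtain ⟨υ, y1, y2, y3⟩ := h.exists_time f.sm f.der
  have hI : ∀ w : O, w.1.1 ≤ z.1.1 → w.1.1 ∈ Icc t₁ t₂ := fun w hw => ⟨(h1 w).le, hw.trans h2⟩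
  have hZ : ∀ w : O, w.1.1 ≤ z.1.1 → ev w ζ = (pp w.1.1).Z := fun w hw =>
    (z1 w).trans (f.hZ _ (hI w hw)).symm
  have hY : ∀ w : O, w.1.1 ≤ z.1.1 → ev w υ = (pp w.1.1).Y := fun w hw =>
    (y1 w).trans (f.hY _ (hI w hw)).symm
  subst hU hU' hN
  obtain ⟨Ψ, q0, q1, q2⟩ := (qa h hd hf b).no_touch (ev z) (pp z.1.1) t
    e1 e2 e4 e5 (ζ := ζ) (υ := υ) (fun k => z2 _) (hZ z le_rfl)
    ((z3 z).trans (by rw [f.hZ _ (hI z le_rfl), f.hm])) (fun k => y2 _) (hY z le_rfl) (by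
      have h4 : ev z ((qa h hd hf b).dt υ) = _ := y3 z
      rw [h4]
      exact hre)
  have hle : ∀ w : ℝ × M, w.1 ≤ z.1.1 → fn Ψ w ≤ fn Ψ z := fun w hw => by
    rw [← ev_eq z, q0]
    by_cases hm : w ∈ O
    · rw [← ev_eq ⟨w, hm⟩]
      exact q2 _ (pp w.1) ((f.hl _).trans (f.hl _).symm) ((f.hm _).trans (f.hm _).symm)
        (hK ⟨w, hm⟩ hw) (hZ ⟨w, hm⟩ hw) (hY ⟨w, hm⟩ hw)
    · exact (dif_neg hm : ext Ψ.1 w = 0).le
  have hT := touch_local h hd hf b Ψ z (Eventually.of_forall fun y => hle _ le_rfl)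
    (eventually_nhdsWithin_of_forall fun s hs => hle _ (le_of_lt hs))
  exact absurd hT.2 (not_le.2 q1)

namespace Flow

variable {J : Set ℝ} (h : Flow P n F J) (b : OrthonormalBasis ι ℝ Q)

/-- Let `O'` be the open set of points with time `> t₁` where the three squared norms of the test
fields of `no_touch` (global ring elements, equal to `1` at the point by `ev_U`, `ev_Nu`) are
positive. On `O'` use `qa (h.dom.mono _ _)`, `arr_res`, `pt_res`, `exists_inv`, `exists_rpow` with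
exponent `-1 / 2`, `exists_time` for `Z` and for `Y = (1 + Z) Z / (1 + θ Z)`, then `no_touch`
with `c = m / 10` and `touch_local`. -/
theorem not_tch {p : Par n} {pp : ℝ → Par n} {Υ Υ' : ℝ → ℝ} {t₁ t₂ t : ℝ}
    (f : Fam p pp Υ Υ' t₁ t₂) (ht : t ∈ J) (h1 : t₁ < t) (h1' : t ≤ t₂)
    (hK : ∀ s ∈ J, t₁ ≤ s → s ≤ t → ∀ y, (h.X b (s, y)).K (pp s)) (x : M)
    {ν e e' : ι → ℝ} {a a' : ℝ} (hre : (h.X b (t, x)).Rx (pp t) ν e e' a a' < 4 * Υ' t) :
    ¬(h.X b (t, x)).Tch (pp t) ν e e' a a' := by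
  intro T
  let z : (J ×ˢ (univ : Set M) : Set (ℝ × M)) := ⟨(t, x), ht, mem_univ x⟩
  have hz : h.X b (t, x) = (h.S b).pt (ev z) := h.X_eq b z
  rw [hz] at T hre
  have hg := (h.S b).good_pt (ev z)
  have hU : ∀ {e : ι → ℝ} (_ : ((h.S b).pt (ev z)).UT e) (τ : ℝ),
      0 < fn (dot ((h.S b).arr.U ((h.S b).pt (ev z)).F e (((h.S b).pt (ev z)).Gam ν e τ))
        ((h.S b).arr.U ((h.S b).pt (ev z)).F e (((h.S b).pt (ev z)).Gam ν e τ))) z := by
    intro e he τ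
    rw [← ev_eq, M3_dot]
    simp only [(h.S b).ev_U (ev z) he (Arr.Gam_tan hg he τ) (Arr.Gam_tan' hg τ)]
    exact he.2 ▸ one_pos
  have hN : 0 < fn (dot ((h.S b).arr.Nu ν) ((h.S b).arr.Nu ν)) z := by
    rw [← ev_eq, M3_dot]
    simp only [(h.S b).ev_Nu (ev z) T.hν]
    exact T.hν.2.2 ▸ one_pos
  have h2 := hU T.he (a - a')⁻¹
  have h3 := hU T.he' (-(a - a')⁻¹)
  generalize e1 : (h.S b).arr.U ((h.S b).pt (ev z)).F e (((h.S b).pt (ev z)).Gam ν e (a - a')⁻¹) =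
    U at h2
  generalize e2 : (h.S b).arr.U ((h.S b).pt (ev z)).F e'
    (((h.S b).pt (ev z)).Gam ν e' (-(a - a')⁻¹)) = U' at h3
  generalize e3 : (h.S b).arr.Nu ν = N at hN
  let O' : Set (ℝ × M) := {w | t₁ < w.1} ∩ ({w | w ∈ J ×ˢ univ ∧ 0 < fn (dot U U) w} ∩
    ({w | w ∈ J ×ˢ univ ∧ 0 < fn (dot U' U') w} ∩ {w | w ∈ J ×ˢ univ ∧ 0 < fn (dot N N) w}))
  have hO' : IsOpen O' := (isOpen_lt continuous_const continuous_fst).inter
    ((M3_open h.dom.isOpen _).inter ((M3_open h.dom.isOpen _).inter (M3_open h.dom.isOpen _)))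
  have hO : O' ⊆ J ×ˢ univ := fun w hw => hw.2.1.1
  let z' : O' := ⟨(t, x), h1, ⟨z.2, h2⟩, ⟨z.2, h3⟩, z.2, hN⟩
  have hp : ∀ w : O', (qa (h.dom.mono hO' hO) h.dim (fun z hz => h.flw z (hO hz)) b).pt (ev w) =
      (h.S b).pt (ev ⟨w.1, hO w.2⟩) := pt_res h.dom h.dim h.flw b hO' hO
  have ha : (qa (h.dom.mono hO' hO) h.dim (fun z hz => h.flw z (hO hz)) b).arr =
      (h.S b).arr.map (res hO) := arr_res h.dom h.dim h.flw b hO' hO
  refine M3_core (h.dom.mono hO' hO) h.dim (fun z hz => h.flw z (hO hz)) b f z'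
    (fun w => w.2.1) h1' (fun w hw => ?_) (ν := ν) (e := e) (e' := e') (a := a) (a' := a') ?_ ?_
    (U := fun c => res hO (U c)) (U' := fun c => res hO (U' c)) (N := fun c => res hO (N c))
    ?_ ?_ ?_ (fun w => ?_) (fun w => ?_) (fun w => ?_)
  · rw [hp, ← h.X_eq]
    exact hK w.1.1 (hO w.2).1 (le_of_lt w.2.1) hw w.1.2
  · rw [hp]
    exact T
  · rw [hp]
    exact hre
  · rw [hp, ha, M3_U, ← e1]
  · rw [hp, ha, M3_U, ← e2]
  · rw [ha, M3_Nu, ← e3]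
  · rw [← M3_dot, ev_res]
    exact w.2.2.1.2
  · rw [← M3_dot, ev_res]
    exact w.2.2.2.1.2
  · rw [← M3_dot, ev_res]
    exact w.2.2.2.2.2

theorem cvg {p : Par n} {pp : ℝ → Par n} {Υ Υ' : ℝ → ℝ} {t₁ t₂ : ℝ} (f : Fam p pp Υ Υ' t₁ t₂)
    {z : ℝ × M} (hz : z.1 ∈ J) :
    Cvg (𝓝 z) (h.X b) (fun w => pp w.1) (h.X b z) (pp z.1) := by
  have hc : ∀ g : Rg P (J ×ˢ (univ : Set M)), Tendsto (fn g) (𝓝 z) (𝓝 (fn g z)) := fun g =>
    (h.cont g).continuousAt (h.dom.isOpen.mem_nhds ⟨hz, mem_univ _⟩)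
  exact ⟨fun _ => rfl, fun _ _ => hc _, fun _ => hc _, fun _ _ _ => hc _,
    (f.cZ.comp continuous_fst).tendsto z, fun _ => (f.hm _).trans (f.hm _).symm,
    fun _ => (f.hl _).trans (f.hl _).symm, (f.cY.comp continuous_fst).tendsto z⟩

/-- `first_time` for `∀ x, Ks`; `Ks_eventually` with compactness of `M`, `K_limit`
along `s → t` from the left, `exists_tch`, `not_tch`. -/
theorem pin_fam [CompactSpace M] {p : Par n} {pp : ℝ → Par n} {Υ Υ' : ℝ → ℝ} {t₁ t₂ t : ℝ}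
    (f : Fam p pp Υ Υ' t₁ t₂) (h1 : t₁ ∈ J) (ht : t ∈ J) (h2' : t ≤ t₂)
    (h0 : ∀ y, (h.X b (t₁, y)).Ks (pp t₁))
    (hre : ∀ s ∈ Ioc t₁ t, ∀ y ν e e' a a', (h.X b (s, y)).Tch (pp s) ν e e' a a' →
      (h.X b (s, y)).Rx (pp s) ν e e' a a' < 4 * Υ' s) :
    ∀ s ∈ Icc t₁ t, ∀ y, (h.X b (s, y)).Ks (pp s) := by
  have hJ : ∀ s, t₁ ≤ s → s ≤ t → s ∈ J := fun s a1 a2 => h.ord.out h1 ht ⟨a1, a2⟩
  refine first_time (a := t₁) (b := t) (Gd := fun s => ∀ y, (h.X b (s, y)).Ks (pp s))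
    h0 (fun s hs H => ?_) (fun s hs H => ?_)
  · have h3 := isCompact_univ.eventually_forall_of_forall_eventually (x₀ := s)
      (P := fun r y => (h.X b (r, y)).Ks (pp r))
      fun y _ => (h.cvg b f (z := (s, y)) (hJ s hs.1 hs.2.le)).Ks_eventually (H y)
    exact nhdsWithin_le_nhds (h3.mono fun r hr y => hr y (mem_univ y))
  · have hs' := hJ s hs.1.le hs.2
    have h3 : ∀ y, (h.X b (s, y)).K (pp s) := fun y => by
      have h4 : Tendsto (fun r : ℝ => (r, y)) (𝓝[<] s) (𝓝 (s, y)) :=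
        ((Continuous.prodMk_left y).tendsto s).mono_left nhdsWithin_le_nhds
      refine (M3_comp (h.cvg b f (z := (s, y)) hs') h4).K_limit ?_ ?_
      · filter_upwards [Ioo_mem_nhdsLT hs.1] with r hr
        exact h.good b (hJ r hr.1.le (hr.2.le.trans hs.2)) y
      · filter_upwards [Ioo_mem_nhdsLT hs.1] with r hr
        exact (H r ⟨hr.1.le, hr.2⟩ y).K
    intro y
    by_contra h4
    obtain ⟨ν, e, e', a, a', T⟩ := (h3 y).exists_tch h4
    refine h.not_tch b f hs' hs.1 (hs.2.trans h2') (fun r _ a1 a2 y' => ?_) y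
      (hre s hs y ν e e' a a' T) T
    rcases a2.eq_or_lt with rfl | a3
    · exact h3 y'
    · exact (H r ⟨a1, a3⟩ y').K

theorem start_Ks (p : Par n) {t₁ : ℝ} (h1 : t₁ ∈ J) (h0 : TauLt P (F t₁) (4 * p.Y1)) (y : M) :
    (h.X b (t₁, y)).Ks p := by
  have h3 : (h.X b (t₁, y)).Tau (4 * p.Y1) :=
    h.X_eq b ⟨(t₁, y), h1, mem_univ y⟩ ▸
      pt_tau h.dom h.dim h.flw b ⟨(t₁, y), h1, mem_univ y⟩ h0
  exact fun ν e e' a1 a2 a3 => Arr.Tau.start (h.good b h1 y) (p := p) h3 a1 a2 a3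

/-- The standard family `aft`. -/
theorem pin_Ks [CompactSpace M] (p : Par n) (hq : p.Fit (Fintype.card ι - n - 1)) {t₁ : ℝ}
    (h1 : t₁ ∈ J) (h0 : ∀ y, (h.X b (t₁, y)).Ks p) : h.Pin b p t₁ := by
  intro t ht h2 x
  have hθ := p.θ_bounds
  have hθ0 : 0 < p.θ := by linarith [hθ.1]
  have hpos : ∀ s, 0 < p.Z * Real.exp (-(p.m / 10 * (s - t₁))) := fun s =>
    mul_pos p.hZ (Real.exp_pos _)
  have hsm : ContDiff ℝ ∞ fun s : ℝ => p.Z * Real.exp (-(p.m / 10 * (s - t₁))) := by fun_prop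
  have hZ : Continuous fun s : ℝ => p.Z * Real.exp (-(p.m / 10 * max (s - t₁) 0)) := by fun_prop
  have f : Fam p (fun s => p.aft (s - t₁)) _ _ t₁ t :=
    ⟨fun _ => rfl, fun _ => rfl, fun s hs => p.aft_Z (sub_nonneg.2 hs.1), fun s hs => by
      rw [Par.Y, Par.Y1, p.aft_Z (sub_nonneg.2 hs.1)]
      rfl,
    (contDiff_const.add hsm).mul (hsm.div (contDiff_const.add (contDiff_const.mul hsm))
      fun s => by have := hpos s; positivity),
    fun s => M3_dY hθ0 (M3_dZ p.Z (p.m / 10) t₁ s) (hpos s), hZ,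
    (continuous_const.add hZ).mul (hZ.div (continuous_const.add (continuous_const.mul hZ))
      fun s => by have := (p.aft (s - t₁)).hZ; exact (add_pos one_pos (mul_pos hθ0 this)).ne')⟩
  refine (h.pin_fam b f h1 ht le_rfl (fun y => ?_) (fun s hs y ν e e' a a' T => ?_) t
    ⟨h2, le_rfl⟩ x).K
  · rw [sub_self, Par.aft_zero]
    exact h0 y
  · have hc : 0 ≤ p.m / 10 := by linarith [p.hm]
    have h3 := M3_Rx (h.good b (h.ord.out h1 ht ⟨hs.1.le, hs.2⟩) y) T hq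
    have h4 := hpos s
    rw [← p.aft_Z (sub_nonneg.2 hs.1.le)] at h4 ⊢
    have h5 : (1 + 2 * (p.aft (s - t₁)).Z + p.θ * (p.aft (s - t₁)).Z ^ 2) /
        (1 + p.θ * (p.aft (s - t₁)).Z) ^ 2 ≤ 1 := by
      rw [div_le_one (by positivity)]
      nlinarith [mul_nonneg (sub_nonneg.2 hθ.1) h4.le,
        mul_nonneg (mul_nonneg hθ0.le (sub_nonneg.2 hθ.1)) (sq_nonneg (p.aft (s - t₁)).Z)]
    have h6 := mul_le_mul_of_nonneg_left h5 (mul_nonneg hc h4.le)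
    have h7 : (h.X b (s, y)).Rx (p.aft (s - t₁)) ν e e' a a' +
        4 * (p.m / 10 * (p.aft (s - t₁)).Z) < 0 := h3
    linarith

theorem pin [CompactSpace M] (p : Par n) (hq : p.Fit (Fintype.card ι - n - 1)) {t₁ : ℝ}
    (h1 : t₁ ∈ J) (h0 : TauLt P (F t₁) (4 * p.Y1)) : h.Pin b p t₁ :=
  h.pin_Ks b p hq h1 (h.start_Ks b p h1 h0)

end Flow

end Pool.Agent.Lib.MP_de485e_gt.Hi
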