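import Pool.Agent.Lib.MP_de485e_gt.Hi.R8
import Pool.Agent.Lib.MP_de485e_gt.Hi.Br3

/-! The gradient estimate at a touching point (section 3 of the note). -/

namespace Pool.Agent.Lib.MP_de485e_gt.Hi.QA

variable {ι : Type} [Fintype ι] {R : Type} [CommRing R] [Algebra ℝ R] (S : QA ι R)
  (ev : R →ₐ[ℝ] ℝ) {p : Par S.n} (k : (S.pt ev).K p)
include k

omit k in
private theorem T3_om (l : ℝ) : ev (S.arr.om l) = l ^ 2 + ev S.arr.e2 := by
  simp only [Arr.om, map_add, AlgHom.commutes, Algebra.algebraMap_self, RingHom.id_apply]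

omit k in
private theorem T3_e2 : 0 ≤ ev S.arr.e2 := Arr.map_e2 S.arr ev ▸ (S.good_pt ev).e2_nonneg

omit k in
private theorem T3_u0 : 0 ≤ ev S.arr.u := Arr.map_u S.arr ev ▸ (S.good_pt ev).u_nonneg

omit k in
private theorem T3_v0 : 0 ≤ ev S.arr.v := Arr.map_v S.arr ev ▸ (S.pt ev).v_nonneg

omit k in
private theorem T3_n : (2 : ℝ) ≤ S.n := by exact_mod_cast S.hn

omit k in
private theorem T3_w (p : Par S.n) : 196 ≤ ev (S.arr.om p.l) := by
  have h1 := p.l_ge S.hn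
  have h2 := S.T3_e2 ev
  rw [S.T3_om]
  nlinarith

private theorem T3_u : ev S.arr.u ≤ 9 / 8 * p.Z * S.n * ev (S.arr.om p.l) := by
  have h : (S.arr.map ev).u ≤ 9 / 8 * p.Z * S.n * (p.l ^ 2 + (S.arr.map ev).e2) :=
    Arr.K.u_le (S.good_pt ev) k
  rwa [Arr.map_u, Arr.map_e2, ← S.T3_om] at h

omit k in
private theorem T3_g1 (l : ℝ) (ζ : R) : ev (S.arr.g1 l ζ) =
    5 / 4 * (ev ζ * ev (S.arr.om l)) - (S.n : ℝ)⁻¹ * ev S.arr.u := by
  simp only [Arr.g1, map_sub, map_smul, map_mul, smul_eq_mul]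
  rfl

theorem a2_le : ev S.arr.a2 ≤ 3 * S.n * ev (S.arr.om p.l) := by
  have h1 : ev S.arr.a2 = ev S.arr.u + S.n * (1 + ev S.arr.e2) := by
    rw [S.good.a2_eq]
    simp only [map_add, map_mul, map_natCast, map_one]
    rfl
  have h2 := S.T3_u ev k
  have h3 := S.T3_om ev p.l
  have h4 := S.T3_w ev p
  have h5 := p.l_ge S.hn
  have hn := S.T3_n
  have h6 : 0 ≤ (S.n : ℝ) * ev (S.arr.om p.l) := by positivity
  have h7 := mul_le_mul_of_nonneg_right p.Z_lt.le h6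
  have h8 : (S.n : ℝ) * (1 + ev S.arr.e2) ≤ S.n * ev (S.arr.om p.l) :=
    mul_le_mul_of_nonneg_left (by nlinarith) (by linarith)
  nlinarith

theorem g1_bounds {ζ : R} (hζ0 : ev ζ = p.Z) :
    0 < ev (S.arr.om p.l) ∧ p.Z * ev (S.arr.om p.l) / 8 ≤ ev (S.arr.g1 p.l ζ) ∧
      ev (S.arr.g1 p.l ζ) ≤ 5 / 4 * p.Z * ev (S.arr.om p.l) := by
  have h2 := S.T3_u ev k
  have h4 := S.T3_w ev p
  have hn := S.T3_n
  have hu := S.T3_u0 ev
  have h5 : (S.n : ℝ)⁻¹ * ev S.arr.u ≤ 9 / 8 * p.Z * ev (S.arr.om p.l) := by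
    rw [inv_mul_le_iff₀ (by linarith)]
    linarith
  have h6 : 0 ≤ (S.n : ℝ)⁻¹ * ev S.arr.u := by positivity
  rw [S.T3_g1, hζ0]
  refine ⟨by linarith, by linarith, by linarith⟩

/-- `codazzi` and `Zn`: `(1 + 9 Z / 8) (n + 2) / (3 n) ≤ (1 + 5 Z / 4) (n + 2) / (3 n) ≤ 0.76`. -/
theorem gH_small : (1 + 5 / 4 * p.Z) * ev S.arr.gH ≤ 76 / 100 * S.n * ev S.arr.v := by
  have h : 3 * (S.arr.map ev).gH ≤ ((S.n : ℝ) + 2) * (S.arr.map ev).v := (S.good_pt ev).codazzi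
  rw [Arr.map_gH, Arr.map_v] at h
  have hv := S.T3_v0 ev
  have hn := S.T3_n
  have hZ := p.hZ
  have hZ1 := p.Z_lt
  have hZn := p.Zn S.hn
  have h1 : (1 + 5 / 4 * p.Z) * ((S.n : ℝ) + 2) ≤ 228 / 100 * S.n := by
    rcases le_or_gt 150 (S.n : ℝ) with h2 | h2
    · nlinarith
    · have h3 : p.Z ≤ 1 / 1000 := by linarith
      nlinarith
  have h2 := mul_le_mul_of_nonneg_left h (show 0 ≤ 1 + 5 / 4 * p.Z by linarith)
  have h3 := mul_le_mul_of_nonneg_right h1 hv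
  nlinarith

/-- `L_e2`, `L_u`, `gH_small`, `Re_nonneg`, `Ru_le`. -/
theorem L_g1 {ζ : R} {c : ℝ} (hc0 : 0 ≤ c) (hc : c ≤ 1) (hζ : ∀ a, S.D a ζ = 0)
    (hζ0 : ev ζ = p.Z) (hζt : ev (S.dt ζ) = -(c * p.Z)) :
    ev S.arr.v / (3 * S.n) - 1001 * S.n * p.Z * ev (S.arr.om p.l) ^ 2 ≤
      ev (S.L (S.arr.g1 p.l ζ)) := by
  have hn := S.T3_n
  have hw := S.T3_w ev p
  have hv := S.T3_v0 ev
  have hg := S.gH_small ev k
  have hZ := p.hZ
  have hRe : 0 ≤ ev S.arr.Re := Arr.map_Re S.arr ev ▸ (S.good_pt ev).Re_nonneg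
  have hRu : ev S.arr.Ru ≤ 1000 * (S.n : ℝ) ^ 2 * p.Z * ev (S.arr.om p.l) ^ 2 := by
    have h : (S.arr.map ev).Ru ≤
        1000 * (S.n : ℝ) ^ 2 * p.Z * (p.l ^ 2 + (S.arr.map ev).e2) ^ 2 :=
      Arr.K.Ru_le (S.good_pt ev) k
    rwa [Arr.map_Ru, Arr.map_e2, ← S.T3_om] at h
  have hom : S.L (S.arr.om p.l) = S.L S.arr.e2 := by
    rw [Arr.om, S.L_add, S.L_alg, zero_add]
  have h1 : S.L (S.arr.g1 p.l ζ) = (5 / 4 : ℝ) • (S.dt ζ * S.arr.om p.l + ζ * S.L S.arr.e2) -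
      (S.n : ℝ)⁻¹ • S.L S.arr.u := by
    rw [Arr.g1, S.L_sub, S.L_smul, S.L_smul, S.L_time_mul hζ, hom]
    rfl
  rw [h1, S.L_e2, S.L_u]
  simp only [map_sub, map_add, map_neg, map_mul, map_smul, map_ofNat, smul_eq_mul, hζ0, hζt]
  generalize ev (S.arr.om p.l) = w at *
  generalize ev S.arr.v = v at *
  generalize ev S.arr.gH = G at *
  generalize ev S.arr.Re = Re at *
  generalize ev S.arr.Ru = Ru at *
  generalize (S.n : ℝ) = n at *
  have hn0 : 0 < n := by linarith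
  have e1 : 5 / 4 * (-(c * p.Z) * w + p.Z * (-(2 / n ^ 2 * G) + Re)) -
      n⁻¹ * (-(2 * v) + 2 / n * G + Ru) - (v / (3 * n) - 1001 * n * p.Z * w ^ 2) =
      (2 * (76 / 100 * n * v - (1 + 5 / 4 * p.Z) * G) + 11 / 75 * (n * v)) / n ^ 2 +
        (1000 * n ^ 2 * p.Z * w ^ 2 - Ru) / n + 5 / 4 * (p.Z * Re) +
        p.Z * w * (n * w - 5 / 4 * c) := by
    field_simp
    ring
  have e2 : 0 ≤ (2 * (76 / 100 * n * v - (1 + 5 / 4 * p.Z) * G) + 11 / 75 * (n * v)) / n ^ 2 :=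
    div_nonneg (by nlinarith [mul_nonneg hn0.le hv]) (by positivity)
  have e3 : 0 ≤ (1000 * n ^ 2 * p.Z * w ^ 2 - Ru) / n := div_nonneg (by linarith) hn0.le
  have e4 : 0 ≤ p.Z * Re := by positivity
  have e5 : 0 ≤ p.Z * w * (n * w - 5 / 4 * c) :=
    mul_nonneg (by positivity) (by nlinarith)
  linarith

/-- At a touching point `K0 |D g1| ^ 2 ≤ Z q` (`kato`) and `K0 g1 ≤ 8 v / om`. -/
theorem touch1 {ζ ζi : R} {c K0 : ℝ} (hc0 : 0 ≤ c) (hc : c ≤ 1) (hζ : ∀ a, S.D a ζ = 0)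
    (hζ0 : ev ζ = p.Z) (hζt : ev (S.dt ζ) = -(c * p.Z)) (hi : ζi * ζ = 1)
    (hK : 12 * (S.n : ℝ) ^ 2 * (300 * (Fintype.card ι : ℝ) ^ 7 + 16016) < K0)
    (he : ev S.arr.v = K0 * ev (ζi * S.arr.g1 p.l ζ ^ 2))
    (ht : S.Touch ev (S.arr.v - K0 • (ζi * S.arr.g1 p.l ζ ^ 2))) : False := by
  have hn := S.T3_n
  obtain ⟨hw, hg1, -⟩ := S.g1_bounds ev k hζ0
  have hLg := S.L_g1 ev k hc0 hc hζ hζ0 hζt
  have hLv := S.Lv_le ev
  have ha2 := S.a2_le ev k
  have hkato := S.kato ev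
  have hZ := p.hZ
  obtain ⟨hD, hL⟩ := ht
  have hDi : ∀ a, S.D a ζi = 0 := by
    intro a
    have h1 := congrArg (S.D a) hi
    rw [Derivation.leibniz, hζ, smul_zero, zero_add, Derivation.map_one_eq_zero, smul_eq_mul] at h1
    calc S.D a ζi = (ζi * ζ) * S.D a ζi := by rw [hi, one_mul]
      _ = ζi * (ζ * S.D a ζi) := by ring
      _ = 0 := by rw [h1, mul_zero]
  have hzi : ev ζi * p.Z = 1 := by rw [← hζ0, ← map_mul, hi, map_one]
  have hzi0 : 0 < ev ζi := by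
    by_contra h
    have := mul_nonpos_of_nonpos_of_nonneg (not_lt.mp h) hZ.le
    linarith
  have hti : ev (S.dt ζi) = c * ev ζi := by
    have h1 := congrArg (fun x => ev (S.dt x)) hi
    simp only [Derivation.leibniz, Derivation.map_one_eq_zero, smul_eq_mul, map_add, map_mul,
      map_zero, hζ0, hζt] at h1
    apply mul_left_cancel₀ hZ.ne'
    linarith
  generalize S.arr.g1 p.l ζ = g at *
  generalize ev (S.arr.om p.l) = w at *
  have hN : 0 ≤ (Fintype.card ι : ℝ) ^ 7 := by positivity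
  generalize (Fintype.card ι : ℝ) ^ 7 = N at *
  have hK0 : 0 < K0 := lt_of_le_of_lt (by positivity) hK
  have hg0 : 0 < ev g := lt_of_lt_of_le (by positivity) hg1
  rw [map_mul, map_pow] at he
  have hDv : ∀ a, ev (S.D a S.arr.v) = 2 * (K0 * ev ζi) * ev g * ev (S.D a g) := by
    intro a
    have := hD a
    rw [map_sub, Derivation.map_smul, Derivation.leibniz, hDi, smul_zero, add_zero, sq,
      Derivation.leibniz] at this
    simp only [map_sub, map_add, map_mul, map_smul, smul_eq_mul] at this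
    linarith
  have hgv : ev (S.grad S.arr.v S.arr.v) = (2 * (K0 * ev ζi) * ev g) ^ 2 * ev (S.grad g g) := by
    simp only [grad, map_sum, map_mul, hDv, Finset.mul_sum]
    exact Finset.sum_congr rfl fun a _ => by ring
  rw [S.L_sub, S.L_smul, S.L_time_mul hDi, sq, S.L_mul] at hL
  simp only [map_sub, map_add, map_mul, map_smul, map_ofNat, smul_eq_mul, hti] at hL
  have hκ : 0 < K0 * ev ζi := mul_pos hK0 hzi0
  have hκZ : K0 * ev ζi * p.Z = K0 := by rw [mul_assoc, hzi, mul_one]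
  have he' : ev S.arr.v = K0 * ev ζi * ev g ^ 2 := by rw [he]; ring
  have hL' : K0 * ev ζi * (c * ev g ^ 2 + 2 * ev g * ev (S.L g) - 2 * ev (S.grad g g)) ≤
      ev (S.L S.arr.v) := by linarith
  clear hL he hD hDv
  generalize K0 * ev ζi = κ at *
  generalize ev g = γ at *
  generalize ev (S.L g) = Lg at *
  generalize ev (S.grad g g) = G at *
  generalize ev S.arr.v = v at *
  generalize (S.n : ℝ) = n at *
  have hn0 : 0 < n := by linarith
  have hv0 : 0 < v := by rw [he']; positivity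
  have hq : κ * G ≤ ev S.q := by
    have hp : 0 < 4 * κ * γ ^ 2 := by positivity
    apply le_of_mul_le_mul_left _ hp
    rw [hgv, he'] at hkato
    linarith
  have h1 : ev S.arr.a2 * v ≤ 3 * n * w * v := mul_le_mul_of_nonneg_right ha2 hv0.le
  have h2 : N * (ev S.arr.a2 * v) ≤ N * (3 * n * w * v) := mul_le_mul_of_nonneg_left h1 hN
  have h3 : 0 ≤ κ * (c * γ ^ 2) := by positivity
  have h4 : 2 * κ * γ * Lg ≤ 300 * N * (n * w * v) := by linarith
  have h5 : 2 * κ * γ * (v / (3 * n) - 1001 * n * p.Z * w ^ 2) ≤ 2 * κ * γ * Lg :=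
    mul_le_mul_of_nonneg_left hLg (by positivity)
  have h6 : K0 * w ≤ 8 * (κ * γ) := by
    have := mul_le_mul_of_nonneg_left hg1 hκ.le
    rw [← hκZ]
    linarith
  have h7 : K0 * w * γ ≤ 8 * v := by
    have := mul_le_mul_of_nonneg_right h6 hg0.le
    rw [he']
    linarith
  have h8 : n * w * (K0 * w * γ) ≤ n * w * (8 * v) :=
    mul_le_mul_of_nonneg_left h7 (by positivity)
  have h9 : K0 * w * (v / (3 * n)) ≤ 8 * (κ * γ) * (v / (3 * n)) :=
    mul_le_mul_of_nonneg_right h6 (by positivity)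
  have h10 : 2 * κ * γ * (1001 * n * p.Z * w ^ 2) = 2002 * (n * w * (K0 * w * γ)) := by
    rw [← hκZ]
    ring
  have h11 : K0 * w * (v / (3 * n)) ≤ 4 * ((300 * N + 16016) * (n * w * v)) := by linarith
  have h12 : K0 * (w * v) ≤ 12 * n ^ 2 * (300 * N + 16016) * (w * v) := by
    have h13 := mul_le_mul_of_nonneg_left h11 (show 0 ≤ 3 * n by positivity)
    have h14 : 3 * n * (K0 * w * (v / (3 * n))) = K0 * (w * v) := by field_simp
    rw [h14] at h13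
    linarith
  have h15 := le_of_mul_le_mul_right h12 (mul_pos hw hv0)
  linarith

end Pool.Agent.Lib.MP_de485e_gt.Hi.QA
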