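import Pool.Agent.Lib.MP_de485e_gt.Hi.M2
import Pool.Agent.Lib.MP_de485e_gt.Hi.T3
import Pool.Agent.Lib.MP_de485e_gt.Conv.MaxP

/-! The gradient estimate and the exponential decay. -/

open Set Filter Topology
open scoped RealInnerProductSpace InnerProduct Manifold ContDiff

namespace Pool.Agent.Lib.MP_de485e_gt.Hi

open Conv

variable {P Q : Type} [NormedAddCommGroup P] [InnerProductSpace ℝ P] [CompleteSpace P]
  [FiniteDimensional ℝ P] [NormedAddCommGroup Q] [InnerProductSpace ℝ Q] [CompleteSpace Q]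
  [FiniteDimensional ℝ Q] {M : Type} [TopologicalSpace M] [ChartedSpace P M]
  [IsManifold 𝓘(ℝ, P) ∞ M] {F : ℝ → M → Q} {n : ℕ} {ι : Type} [Fintype ι] [DecidableEq ι]
  [CompactSpace M]

namespace Flow

variable {J : Set ℝ} (h : Flow P n F J) (b : OrthonormalBasis ι ℝ Q) {p : Par n} {t₁ : ℝ}

/-- A point of the domain. -/
private abbrev M5a_z {t : ℝ} (ht : t ∈ J) (x : M) : (J ×ˢ (univ : Set M) : Set (ℝ × M)) :=
  ⟨(t, x), ht, mem_univ x⟩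

private theorem M5a_pt (l : ℝ) (z : (J ×ˢ (univ : Set M) : Set (ℝ × M))) :
    ev z ((h.S b).arr.om l) = l ^ 2 + ev z (h.S b).arr.e2 ∧
      ev z (h.S b).arr.W = (n : ℝ) ^ 2 * (1 + ev z (h.S b).arr.e2) ∧
      0 ≤ ev z (h.S b).arr.e2 := by
  have hg := (h.S b).good_pt (ev z)
  refine ⟨?_, ?_, ?_⟩
  · simp only [Arr.om, map_add, AlgHom.commutes, Algebra.algebraMap_self, RingHom.id_apply]
  · have h1 : ((h.S b).arr.map (ev z)).W =
        (n : ℝ) ^ 2 * (1 + ((h.S b).arr.map (ev z)).e2) := hg.W_eq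
    rwa [Arr.map_W, Arr.map_e2] at h1
  · exact Arr.map_e2 (h.S b).arr (ev z) ▸ hg.e2_nonneg

private theorem M5a_K (k : h.Pin b p t₁) {t : ℝ} (ht : t ∈ J) (h1 : t₁ ≤ t) (x : M) :
    ((h.S b).pt (ev (M5a_z ht x))).K (p.aft (t - t₁)) :=
  h.X_eq b (M5a_z ht x) ▸ k t ht h1 x

/-- `W = n ^ 2 (1 + e2)`, `1 ≤ l ^ 2 = 100 n`. -/
theorem om_W {t : ℝ} (ht : t ∈ J) (x : M) :
    1 ≤ fn ((h.S b).arr.om p.l) (t, x) ∧
      (h.data b).W t x ≤ (n : ℝ) ^ 2 * fn ((h.S b).arr.om p.l) (t, x) ∧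
      n * fn ((h.S b).arr.om p.l) (t, x) ≤ 100 * (h.data b).W t x := by
  obtain ⟨h1, h2, h3⟩ := M5a_pt h b p.l (M5a_z ht x)
  rw [ev_eq] at h1 h2
  have h4 : (h.data b).W t x = _ := h2
  have h5 : fn ((h.S b).arr.om p.l) (t, x) = _ := h1
  have hn : (2 : ℝ) ≤ n := by exact_mod_cast h.dim.hn
  rw [h4, h5, p.hl2]
  generalize ev (M5a_z ht x)
    (h.S b).arr.e2 = e at h3 ⊢
  refine ⟨by linarith, mul_le_mul_of_nonneg_left (by linarith) (sq_nonneg _), ?_⟩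
  have h6 : 0 ≤ (n : ℝ) * e * (100 * n - 1) := mul_nonneg (by positivity) (by linarith)
  nlinarith

theorem u_pin (k : h.Pin b p t₁) {t : ℝ} (ht : t ∈ J) (h1 : t₁ ≤ t) (x : M) :
    (h.data b).u t x ≤ 113 * (p.aft (t - t₁)).Z * (h.data b).W t x := by
  have h2 : ((h.S b).arr.map (ev (M5a_z ht x))).u ≤
      9 / 8 * (p.aft (t - t₁)).Z * n *
        (p.l ^ 2 + ((h.S b).arr.map (ev (M5a_z ht x))).e2) :=
    Arr.K.u_le ((h.S b).good_pt _) (M5a_K h b k ht h1 x)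
  rw [Arr.map_u, Arr.map_e2, ← (M5a_pt h b p.l _).1, ev_eq, ev_eq] at h2
  have h3 : (h.data b).u t x ≤
    9 / 8 * (p.aft (t - t₁)).Z * n * fn ((h.S b).arr.om p.l) (t, x) := h2
  obtain ⟨h4, -, h5⟩ := h.om_W b (p := p) ht x
  have hZ := (p.aft (t - t₁)).hZ
  have h6 := mul_le_mul_of_nonneg_left h5 hZ.le
  have h7 : 0 ≤ (p.aft (t - t₁)).Z * (n * fn ((h.S b).arr.om p.l) (t, x)) := by positivity
  nlinarith

/-- `maxP` for `v ζ / g1 ^ 2` with `ζ t = Z exp (-(m / 10) (t - t₁))` (`exists_time`,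
`exists_inv`), `touch_max`, `touch1`, `g1_bounds`. -/
theorem est1 (k : h.Pin b p t₁) (h1 : t₁ ∈ J) : ∃ C : ℝ, 0 < C ∧ ∀ t ∈ J, t₁ ≤ t → ∀ x,
    (h.data b).v t x ≤ C * (p.aft (t - t₁)).Z * fn ((h.S b).arr.om p.l) (t, x) ^ 2 := by
  have hZ := p.hZ
  obtain ⟨ζ, hζ, hζD, hζT⟩ := h.dom.exists_time
    (f := fun r => p.Z * Real.exp (-(p.m / 10 * (r - t₁))))
    (f' := fun r => p.Z * (Real.exp (-(p.m / 10 * (r - t₁))) * -(p.m / 10 * 1))) (by fun_prop)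
    fun r => ((((hasDerivAt_id r).sub_const t₁).const_mul (p.m / 10)).neg.exp).const_mul p.Z
  obtain ⟨ζi, hi⟩ := Dom.exists_inv ζ fun z => by
    rw [hζ]
    positivity
  have hζ0 : ∀ {t : ℝ} (ht : t ∈ J) (_ : t₁ ≤ t) (x : M),
      ev (M5a_z ht x) ζ = (p.aft (t - t₁)).Z := fun ht h2 x => by
    rw [hζ, p.aft_Z (sub_nonneg.2 h2)]
  have hζi : ∀ {t : ℝ} (ht : t ∈ J) (_ : t₁ ≤ t) (x : M),
      ev (M5a_z ht x) ζi = ((p.aft (t - t₁)).Z)⁻¹ := fun ht h2 x =>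
    eq_inv_of_mul_eq_one_left (by rw [← hζ0 ht h2 x, ← map_mul, hi, map_one])
  obtain ⟨B, hB0, hB⟩ : ∃ B : ℝ, 0 ≤ B ∧ ∀ x, fn (h.S b).arr.v (t₁, x) ≤ B := by
    have h2 : ContinuousOn (fun x : M => fn (h.S b).arr.v (t₁, x)) univ :=
      (h.cont _).comp (continuous_const.prodMk continuous_id).continuousOn
        fun x _ => ⟨h1, mem_univ _⟩
    obtain ⟨B, hB⟩ := isCompact_univ.bddAbove_image h2
    exact ⟨max B 0, le_max_right _ _, fun x => (hB ⟨x, mem_univ _, rfl⟩).trans (le_max_left _ _)⟩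
  obtain ⟨A, hA⟩ : ∃ A : ℝ, A = 12 * (n : ℝ) ^ 2 * (300 * (Fintype.card ι : ℝ) ^ 7 + 16016) :=
    ⟨_, rfl⟩
  have hA0 : 0 ≤ A := by rw [hA]; positivity
  obtain ⟨K, hK⟩ : ∃ K : ℝ, K = A + 64 * B / p.Z + 1 := ⟨_, rfl⟩
  have hBZ : 0 ≤ 64 * B / p.Z := by positivity
  have hK0 : 0 < K := by linarith
  obtain ⟨g, hg⟩ : ∃ g, g = (h.S b).arr.v - K • (ζi * (h.S b).arr.g1 p.l ζ ^ 2) := ⟨_, rfl⟩
  have eg : ∀ z : (J ×ˢ (univ : Set M) : Set (ℝ × M)), fn g z =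
      ev z (h.S b).arr.v - K * (ev z ζi * ev z ((h.S b).arr.g1 p.l ζ) ^ 2) := fun z => by
    rw [← ev_eq, hg, map_sub, map_smul, map_mul, map_pow, smul_eq_mul]
  have hb : ∀ {t : ℝ} (ht : t ∈ J) (_ : t₁ ≤ t) (x : M),
      (p.aft (t - t₁)).Z * fn ((h.S b).arr.om p.l) (t, x) / 8 ≤
        ev (M5a_z ht x) ((h.S b).arr.g1 p.l ζ) ∧
      ev (M5a_z ht x) ((h.S b).arr.g1 p.l ζ) ≤
        5 / 4 * (p.aft (t - t₁)).Z * fn ((h.S b).arr.om p.l) (t, x) := fun ht h2 x => by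
    have h3 := ((h.S b).g1_bounds _ (M5a_K h b k ht h2 x) (hζ0 ht h2 x)).2
    rw [ev_eq _ ((h.S b).arr.om _)] at h3
    exact h3
  refine ⟨25 / 16 * K, by positivity, fun t ht h2 x => ?_⟩
  have hsub : Icc t₁ t ⊆ J := h.ord.out h1 ht
  have key := maxP (G := fn g) (a := t₁) (b := t) (K := 0)
    ((h.cont g).mono (prod_mono_left hsub)) ?_ ?_ t ⟨h2, le_rfl⟩ x
  · have e1 : fn g (t, x) = _ := eg (M5a_z ht x)
    rw [e1, hζi ht h2 x, ev_eq _ (h.S b).arr.v] at key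
    obtain ⟨h3, h4⟩ := hb ht h2 x
    have h5 := (h.om_W b (p := p) ht x).1
    have hZt := (p.aft (t - t₁)).hZ
    have e2 : (h.data b).v t x = fn (h.S b).arr.v (t, x) := rfl
    rw [e2]
    generalize ev (M5a_z ht x)
      ((h.S b).arr.g1 p.l ζ) = γ at key h3 h4
    generalize fn ((h.S b).arr.om p.l) (t, x) = w at h3 h4 h5 ⊢
    generalize (p.aft (t - t₁)).Z = Z at key h3 h4 hZt ⊢
    have h6 : γ ^ 2 ≤ (5 / 4 * Z * w) ^ 2 :=
      pow_le_pow_left₀ (le_trans (by positivity) h3) h4 2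
    have h7 : K * (Z⁻¹ * γ ^ 2) ≤ K * (Z⁻¹ * (5 / 4 * Z * w) ^ 2) :=
      mul_le_mul_of_nonneg_left (mul_le_mul_of_nonneg_left h6 (by positivity)) hK0.le
    have h8 : K * (Z⁻¹ * (5 / 4 * Z * w) ^ 2) = 25 / 16 * K * Z * w ^ 2 := by
      field_simp
      ring
    have key' : fn (h.S b).arr.v (t, x) - K * (Z⁻¹ * γ ^ 2) < 0 := key
    linarith
  · intro y
    have e1 : fn g (t₁, y) = _ := eg (M5a_z h1 y)
    rw [e1, hζi h1 le_rfl y, ev_eq _ (h.S b).arr.v]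
    have h3 := (hb h1 le_rfl y).1
    have h5 := (h.om_W b (p := p) h1 y).1
    have h6 := hB y
    rw [sub_self, p.aft_zero] at h3 ⊢
    generalize ev (M5a_z h1 y)
      ((h.S b).arr.g1 p.l ζ) = γ at h3 ⊢
    have h7 : p.Z / 8 ≤ γ := by
      have := mul_le_mul_of_nonneg_left h5 hZ.le
      linarith
    have h8 : (p.Z / 8) ^ 2 ≤ γ ^ 2 := pow_le_pow_left₀ (by positivity) h7 2
    have h9 : K * (p.Z⁻¹ * (p.Z / 8) ^ 2) ≤ K * (p.Z⁻¹ * γ ^ 2) :=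
      mul_le_mul_of_nonneg_left (mul_le_mul_of_nonneg_left h8 (by positivity)) hK0.le
    have h10 : K * (p.Z⁻¹ * (p.Z / 8) ^ 2) = B + (A + 1) * p.Z / 64 := by
      rw [hK]
      field_simp
      ring
    have h11 : 0 < (A + 1) * p.Z / 64 := by positivity
    show fn (h.S b).arr.v (t₁, y) - K * (p.Z⁻¹ * γ ^ 2) < 0
    linarith
  · intro s hs y hle he
    have hsJ : s ∈ J := hsub ⟨hs.1.le, hs.2⟩
    have hT : (h.S b).Touch (ev (M5a_z hsJ y)) g :=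
      touch_max h.dom h.dim h.flw b g (G := fn g) (fun z => ev_eq z g) (M5a_z hsJ y)
        hs.1 fun r hr w => (hle r hr w).trans he.ge
    rw [hg] at hT
    refine (h.S b).touch1 _ (M5a_K h b k hsJ hs.1.le y) (c := p.m / 10) (K0 := K)
      (by linarith [p.hm]) (by linarith [p.m_lt]) (fun a => hζD (b a)) (hζ0 hsJ hs.1.le y) ?_ hi
      ?_ ?_ hT
    · have e1 : ev (M5a_z hsJ y) ((h.S b).dt ζ) =
          p.Z * (Real.exp (-(p.m / 10 * (s - t₁))) * -(p.m / 10 * 1)) := hζT _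
      rw [e1, p.aft_Z (sub_nonneg.2 hs.1.le)]
      ring
    · have e1 : A < K := by linarith
      rw [hA] at e1
      exact e1
    · have e1 : fn g (s, y) = _ := eg (M5a_z hsJ y)
      rw [he] at e1
      rw [map_mul, map_pow]
      exact sub_eq_zero.1 e1.symm

theorem estB (k : h.Pin b p t₁) (h1 : t₁ ∈ J) {J' : Set ℝ} (hJ : J' ⊆ J ∩ Ici t₁) :
    EstB J' (h.data b) := by
  obtain ⟨C, hC, hv⟩ := h.est1 b k h1
  have hZ := p.hZ
  have hm := p.hm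
  have hn : (2 : ℝ) ≤ n := by exact_mod_cast h.dim.hn
  refine ⟨(113 + 10 ^ 4 * C) * (p.Z * Real.exp (p.m / 10 * t₁)), p.m / 10, by positivity,
    by positivity, fun t ht x => ?_⟩
  obtain ⟨htJ, h2⟩ := hJ ht
  have h3 := h.u_pin b k htJ h2 x
  have h4 := hv t htJ h2 x
  obtain ⟨h5, -, h6⟩ := h.om_W b (p := p) htJ x
  have e1 : (113 + 10 ^ 4 * C) * (p.Z * Real.exp (p.m / 10 * t₁)) * Real.exp (-(p.m / 10 * t)) =
      (113 + 10 ^ 4 * C) * (p.aft (t - t₁)).Z := by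
    rw [p.aft_Z (sub_nonneg.2 h2), mul_assoc, mul_assoc, ← Real.exp_add]
    congr 3
    ring
  rw [e1]
  have hZt := (p.aft (t - t₁)).hZ
  generalize (p.aft (t - t₁)).Z = Z at h3 h4 hZt ⊢
  generalize fn ((h.S b).arr.om p.l) (t, x) = w at h4 h5 h6
  generalize (h.data b).W t x = W at h3 h6 ⊢
  have h7 : w ≤ 100 * W := by nlinarith
  have hW : 0 ≤ W := by linarith
  have h8 : w ^ 2 ≤ (100 * W) ^ 2 := pow_le_pow_left₀ (by linarith) h7 2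
  have h9 := mul_le_mul_of_nonneg_left h8 (mul_pos hC hZt).le
  have h10 : 0 ≤ C * Z * W := by positivity
  have h11 : 0 ≤ Z * W ^ 2 := by positivity
  constructor
  · nlinarith
  · nlinarith

end Flow

end Pool.Agent.Lib.MP_de485e_gt.Hi
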