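import Pool.Agent.Lib.MP_de485e_gt.Hi.M2
import Pool.Agent.Lib.MP_de485e_gt.Hi.Db

/-! The data at a point. -/

open Set Filter Topology
open scoped RealInnerProductSpace InnerProduct Manifold ContDiff

namespace Pool.Agent.Lib.MP_de485e_gt.Hi

open Conv

variable {P Q : Type} [NormedAddCommGroup P] [InnerProductSpace ℝ P] [CompleteSpace P]
  [FiniteDimensional ℝ P] [NormedAddCommGroup Q] [InnerProductSpace ℝ Q] [CompleteSpace Q]
  [FiniteDimensional ℝ Q] {M : Type} [TopologicalSpace M] [ChartedSpace P M]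
  [IsManifold 𝓘(ℝ, P) ∞ M] {F : ℝ → M → Q} {n : ℕ} {ι : Type} [Fintype ι] [DecidableEq ι]

section lin

omit [CompleteSpace Q] [FiniteDimensional ℝ Q] [DecidableEq ι]

private theorem M6a_coord (b : OrthonormalBasis ι ℝ Q) (y : ι → ℝ) (c : ι) :
    ⟪b c, ∑ a, y a • b a⟫ = y c := by
  simpa using b.orthonormal.inner_right_fintype y c

private theorem M6a_inner (b : OrthonormalBasis ι ℝ Q) (p w : Q) :
    ∑ a, ⟪b a, p⟫ * ⟪b a, w⟫ = ⟪p, w⟫ := by
  rw [← b.sum_inner_mul_inner p w]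
  exact Finset.sum_congr rfl fun c _ => by rw [real_inner_comm p (b c)]

private theorem M6a_deriv (b : OrthonormalBasis ι ℝ Q) {x : ι → ι → ℝ → ℝ} {x' : ι → ι → ℝ}
    {t : ℝ} (hx : ∀ a c, HasDerivAt (x a c) (x' a c) t) :
    HasDerivAt (fun s => opOf b fun a c => x a c s) (opOf b x') t := by
  unfold opOf
  exact HasDerivAt.fun_sum fun a _ => HasDerivAt.fun_sum fun c _ =>
    (hx a c).smul_const ((innerSL ℝ (b c)).smulRight (b a))

private theorem M6a_add (b : OrthonormalBasis ι ℝ Q) (x y : ι → ι → ℝ) :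
    opOf b (fun a c => x a c + y a c) = opOf b x + opOf b y := by
  simp only [opOf, add_smul, Finset.sum_add_distrib]

/-- The trace free part in coordinates. -/
private theorem M6a_T0 {X : Arr ι ℝ} {r : ι → ℝ} (hr : X.Tan r) (p : ι → ℝ) (c : ι) :
    ∑ a, ∑ d, p a * r d * X.T0 a d c = X.Tv p r c - (∑ a, p a * r a) / X.n * X.HH c := by
  have h1 : ∀ a, ∑ d, p a * r d * X.T0 a d c =
      ∑ d, p a * r d * X.T a d c - p a * r a * ((X.n : ℝ)⁻¹ * X.HH c) := fun a => by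
    rw [← hr a, Finset.mul_sum, Finset.sum_mul, ← Finset.sum_sub_distrib]
    refine Finset.sum_congr rfl fun d _ => ?_
    rw [Arr.T0, smul_eq_mul]
    ring
  simp only [h1, Finset.sum_sub_distrib, ← Finset.sum_mul, Arr.Tv]
  ring

end lin

omit [DecidableEq ι] in
private theorem M6a_symm (b : OrthonormalBasis ι ℝ Q) {x : ι → ι → ℝ} (hx : ∀ a c, x a c = x c a)
    (w w' : Q) : ⟪opOf b x w, w'⟫ = ⟪w, opOf b x w'⟫ := by
  classical
  rw [← M6a_inner b (opOf b x w), ← M6a_inner b w, opOf_apply, opOf_apply]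
  simp only [M6a_coord, Finset.sum_mul, Finset.mul_sum]
  rw [Finset.sum_comm]
  exact Finset.sum_congr rfl fun a _ => Finset.sum_congr rfl fun c _ => by rw [hx a c]; ring

namespace Flow

variable {J : Set ℝ} (h : Flow P n F J) (b : OrthonormalBasis ι ℝ Q)

/-- `H = ∑ c, (HH c + n F c) • b c`; `m_flow`, `Lap_F`, `pt_nrm`, `pt_sff`, `T0_le`, `dtP_le`,
`hasDerivAt_fn`, `opOf_apply`, `norm_opOf_le`. -/
theorem pt {t : ℝ} (ht : t ∈ J) (x : M) : ∃ H, PtData n P F (h.data b) t x H := by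
  let z : (J ×ˢ (univ : Set M) : Set (ℝ × M)) := ⟨(t, x), ht, mem_univ x⟩
  have hX : h.X b (t, x) = (h.S b).pt (ev z) := h.X_eq b z
  have hg : ((h.S b).pt (ev z)).Good := (h.S b).good_pt _
  have hF : ∀ a, ((h.S b).pt (ev z)).F a = ⟪b a, F t x⟫ := fun a => rfl
  have hn : ((h.S b).pt (ev z)).n = n := rfl
  have hW : (h.data b).W t x = ((h.S b).pt (ev z)).W :=
    (ev_eq z _).symm.trans (Arr.map_W _ _).symm
  have hu : (h.data b).u t x = ((h.S b).pt (ev z)).u :=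
    (ev_eq z _).symm.trans (Arr.map_u _ _).symm
  have hv : (h.data b).v t x = ev z (h.S b).arr.v := (ev_eq z _).symm
  have hT : (h.data b).Tn t x = opOf b ((h.S b).pt (ev z)).P :=
    congrArg (fun Y : Arr ι ℝ => opOf b Y.P) hX
  have hE : (h.data b).E t x =
      opOf b fun a c => ((h.S b).pt (ev z)).Ep ((h.data b).W t x)⁻¹ a c :=
    congrArg (fun Y : Arr ι ℝ => opOf b fun a c => Y.Ep ((h.data b).W t x)⁻¹ a c) hX
  have hm : (h.data b).m t x = ∑ a, ((h.S b).pt (ev z)).cen ((h.data b).W t x)⁻¹ a • b a :=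
    congrArg (fun Y : Arr ι ℝ => ∑ a, Y.cen ((h.data b).W t x)⁻¹ a • b a) hX
  have htan : ∀ ξ, ((h.S b).pt (ev z)).Tan fun a => ⟪b a, dF P (F t) x ξ⟫ :=
    pt_tan h.dom h.dim h.flw b z
  have hlift : ∀ y, ((h.S b).pt (ev z)).Tan y → ∃ ξ, ∀ a, ⟪b a, dF P (F t) x ξ⟫ = y a :=
    fun y hy => pt_lift h.dom h.dim h.flw b z hy
  have hnrm : ∀ ξ, ⟪dF P (F t) x ξ, ∑ a, ((h.S b).pt (ev z)).HH a • b a⟫ = 0 :=
    pt_nrm h.dom h.dim h.flw b z hg.HH_nrm
  have hsff : ∀ ξ ζ c, ⟪b c, sff P (F t) x ξ ζ⟫ =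
      ((h.S b).pt (ev z)).Tv (fun a => ⟪b a, dF P (F t) x ξ⟫) (fun a => ⟪b a, dF P (F t) x ζ⟫) c +
        ⟪dF P (F t) x ξ, dF P (F t) x ζ⟫ * ⟪b c, F t x⟫ := pt_sff h.dom h.dim h.flw b z
  have hLF : ∀ ξ, ⟪dF P (F t) x ξ, F t x⟫ = 0 := h.dom.dF_perp z.2
  have h1 : ‖F t x‖ = 1 := h.dom.sphere _ z.2
  have hflow : HasDerivAt (fun s => F s x)
      (∑ c, ((h.S b).pt (ev z)).HH c • b c + (n : ℝ) • F t x) t := by
    have e : ∀ c, ev z (∑ a, h.dom.D (b a) (h.dom.D (b a) (h.dom.Fc (b c))) +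
        (n : Rg P (J ×ˢ (univ : Set M))) * h.dom.Fc (b c)) =
        ((h.S b).pt (ev z)).HH c + n * ⟪b c, F t x⟫ := fun c => by
      rw [map_add, map_mul, map_natCast]
      exact congrArg₂ _ ((congrArg (ev z) ((h.S b).Lap_F c)).trans (Arr.map_HH _ _ c).symm) rfl
    have k := m_flow h.dom b h.dim.hP h.flw z
    simp only [e, add_smul, Finset.sum_add_distrib, mul_smul, ← Finset.smul_sum,
      b.sum_repr'] at k
    exact k
  have hdt : HasDerivAt (fun s => (h.data b).Tn s x)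
      (opOf b fun a c => ev z ((h.S b).dt ((h.S b).P a c))) t :=
    M6a_deriv b fun a c => h.dom.hasDerivAt_fn ((h.S b).P a c) z
  have hdP := (h.S b).dtP_le (ev z)
  rw [← hv] at hdP
  generalize (h.S b).pt (ev z) = X at *
  have hc : ∀ c, ⟪b c, ∑ a, X.HH a • b a⟫ = X.HH c := M6a_coord b _
  generalize ∑ a, X.HH a • b a = V at *
  have hFV : ⟪F t x, V⟫ = -(n : ℝ) := by
    rw [← M6a_inner b, ← hn, ← hg.HH_F]
    exact Finset.sum_congr rfl fun a _ => by rw [hc, hF, mul_comm]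
  have hVV : X.W = ‖V‖ ^ 2 := by
    rw [← real_inner_self_eq_norm_sq, ← M6a_inner b]
    simp only [hc, Arr.W]
  have hFF : ⟪F t x, F t x⟫ = 1 := by rw [real_inner_self_eq_norm_sq, h1, one_pow]
  have hn0 : (n : ℝ) ≠ 0 := by
    have := h.dim.hn
    exact Nat.cast_ne_zero.2 (by omega)
  refine ⟨V + (n : ℝ) • F t x, ?_, fun ξ => ?_, hLF, ?_, ?_, fun ξ => ?_, fun w => ?_,
    fun w w' => ?_, fun w => ?_, hflow, fun ξ ζ => ?_, _, hdt, ?_⟩
  · rw [inner_add_right, real_inner_smul_right, hFV, hFF]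
    ring
  · rw [inner_add_right, real_inner_smul_right, hnrm, hLF]
    ring
  · rw [hW, hVV, norm_add_sq_real, real_inner_smul_right, real_inner_comm, hFV, norm_smul, h1,
      Real.norm_natCast]
    ring
  · rw [hm, add_sub_cancel_right, ← b.sum_repr' (F t x), ← b.sum_repr' V, Finset.smul_sum,
      ← Finset.sum_add_distrib]
    refine Finset.sum_congr rfl fun a _ => ?_
    rw [Arr.cen, hF, hc, hn, smul_smul, ← add_smul, div_eq_mul_inv, mul_assoc]
  · rw [hT, opOf_apply]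
    simp only [htan ξ _, b.sum_repr']
  · obtain ⟨ξ, hξ⟩ := hlift (fun a => ∑ c, X.P a c * ⟪b c, w⟫)
      (Arr.A1_tan_sum (f := fun c a => X.P a c * ⟪b c, w⟫) fun c => Arr.A1_tan_mul (hg.Ptan c) _)
    refine ⟨ξ, ?_⟩
    rw [hT, opOf_apply]
    simp only [← hξ, b.sum_repr']
  · rw [hT]
    exact M6a_symm b hg.Psymm w w'
  · rw [hE, hT, add_sub_cancel_right, ← opOf_rankOne b, ← add_apply, ← M6a_add]
    simp only [hc, Arr.Ep]
  · have h2 := hg.T0_le (fun a => ⟪b a, dF P (F t) x ξ⟫) (fun a => ⟪b a, dF P (F t) x ζ⟫)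
    rw [b.sum_sq_inner_right, b.sum_sq_inner_right] at h2
    refine (pow_le_pow_iff_left₀ (norm_nonneg _) (by positivity) two_ne_zero).1 ?_
    rw [mul_pow, mul_pow, hu, Real.sq_sqrt hg.u_nonneg, ← b.sum_sq_inner_right]
    refine le_of_eq_of_le (Finset.sum_congr rfl fun c _ => ?_) h2
    rw [M6a_T0 (htan ζ), M6a_inner, inner_sub_right, real_inner_smul_right, inner_add_right,
      real_inner_smul_right, hsff, hc, hn]
    congr 1
    field_simp
    ring
  · refine (norm_opOf_le b _).trans ((Real.sqrt_le_sqrt hdP).trans (le_of_eq ?_))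
    rw [Real.sqrt_mul (by norm_num), show (4 : ℝ) = 2 ^ 2 by norm_num, Real.sqrt_sq (by norm_num)]
    rfl

end Flow

end Pool.Agent.Lib.MP_de485e_gt.Hi
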