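import Pool.Agent.Lib.MP_de485e_gt.Hi.SDef

/-! Change of basis, eigenbases and projections of the target. -/

open scoped RealInnerProductSpace

namespace Pool.Agent.Lib.MP_de485e_gt.Hi

set_option linter.unusedSectionVars false

variable {n : ℕ} {V N : Type} [NormedAddCommGroup V] [InnerProductSpace ℝ V]
  [FiniteDimensional ℝ V] [NormedAddCommGroup N] [InnerProductSpace ℝ N] [FiniteDimensional ℝ N]

theorem sum_bilin {W : Type} [AddCommGroup W] [Module ℝ W] (β : V →ₗ[ℝ] V →ₗ[ℝ] W)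
    (b b' : OrthonormalBasis (Fin n) ℝ V) : ∑ i, β (b i) (b i) = ∑ i, β (b' i) (b' i) := by
  have h1 : ∀ i, β (b i) (b i) = ∑ j, ⟪b' j, b i⟫ • β (b' j) (b i) := by
    intro i
    conv_lhs => rw [← b'.sum_repr' (b i)]
    rw [b'.sum_repr' (b i)]
    conv_lhs => enter [1, 2]; rw [← b'.sum_repr' (b i)]
    simp [map_sum, LinearMap.sum_apply]
  have h2 : ∀ j, β (b' j) (b' j) = ∑ i, ⟪b' j, b i⟫ • β (b' j) (b i) := by
    intro j
    conv_lhs => enter [2]; rw [← b.sum_repr' (b' j)]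
    simp [map_sum, real_inner_comm]
  rw [Finset.sum_congr rfl fun i _ => h1 i, Finset.sum_comm]
  exact Finset.sum_congr rfl fun j _ => (h2 j).symm

theorem P1_row {W : Type} [NormedAddCommGroup W] [InnerProductSpace ℝ W] (f : V →ₗ[ℝ] W)
    (b b' : OrthonormalBasis (Fin n) ℝ V) : ∑ i, ‖f (b i)‖ ^ 2 = ∑ i, ‖f (b' i)‖ ^ 2 := by
  have := sum_bilin ((innerₗ W).compl₁₂ f f) b b'
  simpa [LinearMap.compl₁₂_apply, real_inner_self_eq_norm_sq] using this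

theorem P1_sq {W : Type} [NormedAddCommGroup W] [InnerProductSpace ℝ W]
    (k : V →ₗ[ℝ] V →ₗ[ℝ] W) (b b' : OrthonormalBasis (Fin n) ℝ V) :
    ∑ i, ∑ j, ‖k (b i) (b j)‖ ^ 2 = ∑ i, ∑ j, ‖k (b' i) (b' j)‖ ^ 2 := by
  rw [Finset.sum_congr rfl fun i _ => P1_row (k (b i)) b b', Finset.sum_comm,
    Finset.sum_comm (f := fun i j => ‖k (b' i) (b' j)‖ ^ 2)]
  exact Finset.sum_congr rfl fun j _ => P1_row (k.flip (b' j)) b b'

theorem P1_sq' (k : V →ₗ[ℝ] V →ₗ[ℝ] N) (ξ : N) (b b' : OrthonormalBasis (Fin n) ℝ V) :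
    ∑ i, ∑ j, ⟪k (b i) (b j), ξ⟫ ^ 2 = ∑ i, ∑ j, ⟪k (b' i) (b' j), ξ⟫ ^ 2 := by
  have := P1_sq (k.compr₂ ((innerₗ N).flip ξ)) b b'
  simpa [LinearMap.compr₂_apply, sq_abs, real_inner_comm] using this

/-- An orthonormal basis that diagonalises a symmetric form. -/
theorem exists_diag (b : OrthonormalBasis (Fin n) ℝ V) (β : V →ₗ[ℝ] V →ₗ[ℝ] ℝ)
    (hβ : ∀ x y, β x y = β y x) : ∃ (f : OrthonormalBasis (Fin n) ℝ V) (lam : Fin n → ℝ),
      ∀ i x, β (f i) x = lam i * ⟪f i, x⟫ := by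
  let T : V →ₗ[ℝ] V := ∑ j, (β.flip (b j)).smulRight (b j)
  have hT : ∀ x y, ⟪T x, y⟫ = β x y := by
    intro x y
    conv_rhs => rw [← b.sum_repr' y]
    simp [T, LinearMap.sum_apply, sum_inner, real_inner_smul_left, map_sum, mul_comm]
  have hs : T.IsSymmetric := fun x y => by
    rw [hT, real_inner_comm, hT, hβ]
  have hn : Module.finrank ℝ V = n := by
    simpa using Module.finrank_eq_card_basis b.toBasis
  refine ⟨hs.eigenvectorBasis hn, hs.eigenvalues hn, fun i x => ?_⟩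
  rw [← hT, hs.apply_eigenvectorBasis hn i, real_inner_smul_left]
  simp

namespace SF

variable (S : SF n V N) (b' : OrthonormalBasis (Fin n) ℝ V)

theorem exists_eig (ξ : N) : ∃ (f : OrthonormalBasis (Fin n) ℝ V) (lam : Fin n → ℝ),
    ∀ i x, ⟪S.h (f i) x, ξ⟫ = lam i * ⟪f i, x⟫ := by
  obtain ⟨f, lam, h⟩ := exists_diag S.b (S.h.compr₂ ((innerₗ N).flip ξ)) fun x y => by
    simp [LinearMap.compr₂_apply, S.symm x y]
  exact ⟨f, lam, fun i x => by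
    rw [← h i x]
    simp [LinearMap.compr₂_apply, real_inner_comm]⟩

theorem h0_symm (x y : V) : S.h0 x y = S.h0 y x := by
  rw [h0, h0, S.symm x y, real_inner_comm]

/-- `h0` as a bilinear map. -/
theorem exists_h0 : ∃ k : V →ₗ[ℝ] V →ₗ[ℝ] N, ∀ x y, k x y = S.h0 x y := 
  ⟨S.h - (innerₗ V).compr₂ (LinearMap.toSpanSingleton ℝ N S.eta), fun x y => by
    simp [h0, LinearMap.compr₂_apply]⟩

theorem P1_n (S : SF n V N) : (n : ℝ) ≠ 0 := by
  have := S.hn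
  exact Nat.cast_ne_zero.2 (by omega)

theorem sum_h : ∑ i, S.h (S.b i) (S.b i) = (n : ℝ) • S.eta := by
  rw [eta, smul_smul, mul_inv_cancel₀ S.P1_n, one_smul]

theorem sum_h0 : ∑ i, S.h0 (S.b i) (S.b i) = 0 := by
  simp only [h0, Finset.sum_sub_distrib, sum_h, real_inner_self_eq_norm_sq,
    S.b.orthonormal.1, one_pow, Finset.sum_const, Finset.card_univ, Fintype.card_fin, one_smul]
  rw [Nat.cast_smul_eq_nsmul, sub_self]

theorem wb_eta : (S.wb b').eta = S.eta := by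
  unfold eta
  exact congrArg _ (sum_bilin S.h b' S.b)

theorem wb_h0 (x y : V) : (S.wb b').h0 x y = S.h0 x y := by
  rw [h0, h0, wb_eta]
  rfl

theorem wb_e2 : (S.wb b').e2 = S.e2 := by rw [e2, e2, wb_eta]

theorem wb_row (e : V) : ∑ j, ‖S.h0 e (b' j)‖ ^ 2 = ∑ j, ‖S.h0 e (S.b j)‖ ^ 2 := by
  obtain ⟨k, hk⟩ := S.exists_h0
  simp only [← hk]
  exact P1_row (k e) b' S.b

theorem wb_u : (S.wb b').u = S.u := by
  obtain ⟨k, hk⟩ := S.exists_h0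
  simp only [u, wb_h0, ← hk]
  exact P1_sq k b' S.b

theorem wb_uD (ξ : N) : (S.wb b').uD ξ = S.uD ξ := by
  obtain ⟨k, hk⟩ := S.exists_h0
  simp only [uD, wb_h0, ← hk]
  exact P1_sq' k ξ b' S.b

theorem wb_A2 (ν : N) : (S.wb b').A2 ν = S.A2 ν := P1_sq' S.h ν b' S.b

theorem wb_K0 {Z y : ℝ} : (S.wb b').K0 Z y ↔ S.K0 Z y := Iff.rfl

theorem A2_eq (ν : N) : S.A2 ν = S.uD ν + n * ⟪S.eta, ν⟫ ^ 2 := by
  have h1 : ∀ i j, ⟪S.h (S.b i) (S.b j), ν⟫ ^ 2 = ⟪S.h0 (S.b i) (S.b j), ν⟫ ^ 2 +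
      if i = j then 2 * ⟪S.eta, ν⟫ * ⟪S.h0 (S.b i) (S.b i), ν⟫ + ⟪S.eta, ν⟫ ^ 2 else 0 := by
    intro i j
    have ho := orthonormal_iff_ite.1 S.b.orthonormal
    by_cases hij : i = j
    · subst hij
      simp only [h0, ho, if_true, one_smul, inner_sub_left]
      ring
    · simp [h0, ho, hij]
  have h2 : ∑ i, ⟪S.h0 (S.b i) (S.b i), ν⟫ = 0 := by
    rw [← sum_inner, sum_h0, inner_zero_left]
  simp only [A2, uD, h1, Finset.sum_add_distrib, Finset.sum_ite_eq, Finset.mem_univ, if_true,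
    ← Finset.mul_sum, h2, Finset.sum_const, Finset.card_univ, Fintype.card_fin, nsmul_eq_mul]
  ring

theorem u_nonneg : 0 ≤ S.u := by
  unfold u
  positivity

theorem uD_nonneg (ξ : N) : 0 ≤ S.uD ξ := by
  unfold uD
  positivity

theorem uD_le (ξ : N) : S.uD ξ ≤ S.u * ‖ξ‖ ^ 2 := by
  rw [uD, u, Finset.sum_mul]
  refine Finset.sum_le_sum fun i _ => ?_
  rw [Finset.sum_mul]
  refine Finset.sum_le_sum fun j _ => ?_
  rw [← mul_pow, ← sq_abs]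
  exact pow_le_pow_left₀ (abs_nonneg _) (abs_real_inner_le_norm _ _) 2

theorem uD_smul (r : ℝ) (ξ : N) : S.uD (r • ξ) = r ^ 2 * S.uD ξ := by
  simp only [uD, real_inner_smul_right, mul_pow, Finset.mul_sum]

theorem zeta_nonneg : 0 ≤ S.zeta := 
  mul_nonneg (by positivity) (S.uD_nonneg _)

theorem zeta_le_u : n * S.zeta ≤ S.e2 * S.u := by
  rw [zeta, ← mul_assoc, mul_inv_cancel₀ S.P1_n, one_mul, e2, mul_comm]
  exact S.uD_le _

theorem post_eta (π : N →ₗ[ℝ] N) : (S.post π).eta = π S.eta := by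
  simp [eta, post, LinearMap.compr₂_apply, map_sum]

theorem post_h0 (π : N →ₗ[ℝ] N) (x y : V) : (S.post π).h0 x y = π (S.h0 x y) := by
  rw [h0, h0, post_eta, map_sub, map_smul]
  rfl

theorem K0.mono {S : SF n V N} {Z y y' : ℝ} (h : S.K0 Z y) (hZ : 0 ≤ Z) (hy : y ≤ y') :
    S.K0 Z y' := fun e e' he he' ξ => (h e e' he he' ξ).trans (by gcongr)

theorem K0.post {S : SF n V N} {Z y : ℝ} (h : S.K0 Z y) (hZ : 0 ≤ Z) (hy : 0 ≤ y)
    {π : N →ₗ[ℝ] N} (hπ : ∀ ξ ζ, ⟪π ξ, ζ⟫ = ⟪ξ, π ζ⟫) (hπ' : ∀ ξ, ‖π ξ‖ ≤ ‖ξ‖) :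
    (S.post π).K0 Z y := by
  intro e e' he he' ξ
  have h1 : ∀ x, ⟪(S.post π).h x x, ξ⟫ = ⟪S.h x x, π ξ⟫ := fun x => hπ _ _
  rw [h1, h1]
  refine (h e e' he he' (π ξ)).trans ?_
  have := hπ' ξ
  gcongr

end SF

/-- The projection that removes the direction of a vector of norm `1` (or of `0`). -/
noncomputable def off (θ : N) : N →ₗ[ℝ] N := LinearMap.id - (innerₛₗ ℝ θ).smulRight θ

theorem off_apply (θ ξ : N) : off θ ξ = ξ - ⟪θ, ξ⟫ • θ := rfl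

theorem off_symm (θ ξ ζ : N) : ⟪off θ ξ, ζ⟫ = ⟪ξ, off θ ζ⟫ := by
  rw [off_apply, off_apply, inner_sub_left, inner_sub_right, real_inner_smul_left,
    real_inner_smul_right, real_inner_comm θ ξ, mul_comm]

theorem off_norm_sq {θ : N} (h : ‖θ‖ = 1 ∨ θ = 0) (ξ : N) :
    ‖off θ ξ‖ ^ 2 = ‖ξ‖ ^ 2 - ⟪θ, ξ⟫ ^ 2 := by
  rcases h with h | rfl
  · rw [off_apply, norm_sub_sq_real, real_inner_smul_right, norm_smul, h, mul_one,
      Real.norm_eq_abs, sq_abs, real_inner_comm θ ξ]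
    ring
  · simp [off_apply]

theorem off_norm_le {θ : N} (h : ‖θ‖ = 1 ∨ θ = 0) (ξ : N) : ‖off θ ξ‖ ≤ ‖ξ‖ := by
  refine abs_le_of_sq_le_sq' ?_ (norm_nonneg _) |>.2
  rw [off_norm_sq h]
  exact sub_le_self _ (sq_nonneg _)

theorem exists_dir (ξ : N) : ∃ θ : N, (‖θ‖ = 1 ∨ θ = 0) ∧ ξ = ‖ξ‖ • θ := by
  by_cases h : ξ = 0
  · exact ⟨0, Or.inr rfl, by simp [h]⟩
  · have h' : ‖ξ‖ ≠ 0 := norm_ne_zero_iff.2 h
    refine ⟨‖ξ‖⁻¹ • ξ, Or.inl ?_, ?_⟩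
    · rw [norm_smul, norm_inv, norm_norm, inv_mul_cancel₀ h']
    · rw [smul_smul, mul_inv_cancel₀ h', one_smul]

theorem SF.post_off_u (S : SF n V N) {θ : N} (h : ‖θ‖ = 1 ∨ θ = 0) :
    (S.post (off θ)).u = S.u - S.uD θ := by
  have hb : (S.post (off θ)).b = S.b := rfl
  simp only [SF.u, SF.uD, SF.post_h0, hb, off_norm_sq h, Finset.sum_sub_distrib,
    real_inner_comm θ]

end Pool.Agent.Lib.MP_de485e_gt.Hi
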