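import Pool.Agent.Lib.MP_de485e_gt.Hi.P1

/-! First consequences of the quadratic pinching (F1 to F3 of the note). -/

open scoped RealInnerProductSpace

namespace Pool.Agent.Lib.MP_de485e_gt.Hi

variable {n : ℕ} {V N : Type} [NormedAddCommGroup V] [InnerProductSpace ℝ V]
  [FiniteDimensional ℝ V] [NormedAddCommGroup N] [InnerProductSpace ℝ N] [FiniteDimensional ℝ N]

/-- A rotation angle that realises the Euclidean length of `(t, s)`. -/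
theorem P2_rot (s t : ℝ) : ∃ c σ : ℝ, c ^ 2 + σ ^ 2 = 1 ∧
    ((c ^ 2 - σ ^ 2) * t + 2 * σ * c * s) ^ 2 = s ^ 2 + t ^ 2 := by
  set z : ℂ := ⟨t, s⟩ with hz
  refine ⟨Real.cos (z.arg / 2), Real.sin (z.arg / 2), Real.cos_sq_add_sin_sq _, ?_⟩
  have h2 : z.arg = 2 * (z.arg / 2) := by ring
  have hc : Real.cos (z.arg / 2) ^ 2 - Real.sin (z.arg / 2) ^ 2 = Real.cos z.arg := by
    conv_rhs => rw [h2, Real.cos_two_mul']
  have hs : 2 * Real.sin (z.arg / 2) * Real.cos (z.arg / 2) = Real.sin z.arg := by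
    conv_rhs => rw [h2, Real.sin_two_mul]
  have ht : ‖z‖ * Real.cos z.arg = t := Complex.norm_mul_cos_arg z
  have hs' : ‖z‖ * Real.sin z.arg = s := Complex.norm_mul_sin_arg z
  have h1 := Real.cos_sq_add_sin_sq z.arg
  rw [hc, hs]
  generalize Real.cos z.arg = C at *
  generalize Real.sin z.arg = D at *
  generalize ‖z‖ = R at *
  rw [← ht, ← hs']
  have e1 : C * (R * C) + D * (R * D) = R * (C ^ 2 + D ^ 2) := by ring
  have e2 : (R * D) ^ 2 + (R * C) ^ 2 = R ^ 2 * (C ^ 2 + D ^ 2) := by ring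
  rw [e1, e2, h1]; ring

theorem P2_div {q B : ℝ} (hq : 0 ≤ q) (hB : 0 ≤ B) (h : q ^ 2 ≤ B * q) : q ≤ B := by
  rcases hq.eq_or_lt with h0 | h0
  · rw [← h0]; exact hB
  · have : q * q ≤ B * q := by nlinarith
    exact le_of_mul_le_mul_right this h0

theorem P2_sum (S : SF n V N) (f : OrthonormalBasis (Fin n) ℝ V) (ξ : N) :
    ∑ i, ⟪S.h (f i) (f i), ξ⟫ = n * ⟪S.eta, ξ⟫ := by
  have h1 := (S.wb f).sum_h
  rw [S.wb_eta f] at h1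
  have h2 : ∑ i, S.h (f i) (f i) = (n : ℝ) • S.eta := h1
  rw [← sum_inner, h2, real_inner_smul_left]

theorem P2_cs (v ξ : N) : ⟪v, ξ⟫ ^ 2 ≤ ‖v‖ ^ 2 * ‖ξ‖ ^ 2 := by
  have h1 := abs_real_inner_le_norm v ξ
  have h2 : |⟪v, ξ⟫| ^ 2 ≤ (‖v‖ * ‖ξ‖) ^ 2 := pow_le_pow_left₀ (abs_nonneg _) h1 2
  rw [sq_abs, mul_pow] at h2
  exact h2

namespace SF.K0

variable {S : SF n V N} {Z y : ℝ} (h : S.K0 Z y) (hZ : 0 ≤ Z) (hZ1 : Z ≤ 1) (hy : 0 ≤ y)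
include h hZ hZ1 hy

/-- Largest and smallest eigenvalue `a`, `b`; `∑ (lam - a) (lam - b) ≤ 0`. -/
theorem F1 (ξ : N) : S.uD ξ ≤ n * (Z * ⟪S.eta, ξ⟫ ^ 2 + y * ‖ξ‖ ^ 2) := by
  classical
  obtain ⟨f, lam, hf⟩ := S.exists_eig ξ
  have hn : 0 < n := by have := S.hn; omega
  have : Nonempty (Fin n) := ⟨⟨0, hn⟩⟩
  have hff : ∀ i j, ⟪f i, f j⟫ = if i = j then (1 : ℝ) else 0 :=
    fun i j => orthonormal_iff_ite.mp f.orthonormal i j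
  have hd : ∀ i, ⟪S.h (f i) (f i), ξ⟫ = lam i := by
    intro i; rw [hf, hff]; simp
  have hsum : ∑ i, lam i = n * ⟪S.eta, ξ⟫ := by
    rw [← P2_sum S f ξ]; exact Finset.sum_congr rfl fun i _ => (hd i).symm
  have hu : S.uD ξ = ∑ i, (lam i - ⟪S.eta, ξ⟫) ^ 2 := by
    rw [← S.wb_uD f ξ]
    unfold SF.uD
    refine Finset.sum_congr rfl fun i _ => ?_
    have : ∀ j, ⟪(S.wb f).h0 ((S.wb f).b i) ((S.wb f).b j), ξ⟫ ^ 2 =
        if i = j then (lam i - ⟪S.eta, ξ⟫) ^ 2 else 0 := by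
      intro j
      rw [S.wb_h0 f]
      change ⟪S.h0 (f i) (f j), ξ⟫ ^ 2 = _
      unfold SF.h0
      rw [inner_sub_left, real_inner_smul_left, hf, hff]
      split_ifs <;> ring
    simp only [this, Finset.sum_ite_eq, Finset.mem_univ, if_true]
  obtain ⟨i1, -, hi1⟩ := Finset.exists_max_image Finset.univ lam Finset.univ_nonempty
  obtain ⟨i0, -, hi0⟩ := Finset.exists_min_image Finset.univ lam Finset.univ_nonempty
  have hK := h (f i1) (f i0) (f.orthonormal.1 i1) (f.orthonormal.1 i0) ξ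
  rw [hd, hd] at hK
  set a := lam i1
  set b := lam i0
  set η := ⟪S.eta, ξ⟫
  set q := ‖ξ‖ ^ 2
  have h1 : ∑ i, (lam i - η) ^ 2 ≤ ∑ i : Fin n, ((a + b - 2 * η) * lam i + (η ^ 2 - a * b)) := by
    refine Finset.sum_le_sum fun i _ => ?_
    have := mul_nonneg (sub_nonneg.mpr (hi1 i (Finset.mem_univ i)))
      (sub_nonneg.mpr (hi0 i (Finset.mem_univ i)))
    nlinarith
  rw [Finset.sum_add_distrib, ← Finset.mul_sum, hsum, Finset.sum_const, Finset.card_univ,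
    Fintype.card_fin, nsmul_eq_mul] at h1
  have h2 : (a + b) * η - a * b - η ^ 2 ≤ Z * η ^ 2 + y * q := by
    have hp : 0 < 4 * (1 + Z) := by linarith
    refine le_of_mul_le_mul_left ?_ hp
    nlinarith [sq_nonneg (a + b - 2 * (1 + Z) * η)]
  have hn0 : (0 : ℝ) ≤ n := Nat.cast_nonneg n
  rw [hu]
  nlinarith [mul_le_mul_of_nonneg_left h2 hn0]

/-- Average of the pinching over the basis vectors and Cauchy-Schwarz. -/
theorem avg {e : V} (he : ‖e‖ = 1) (ξ : N) : (⟪S.h e e, ξ⟫ - ⟪S.eta, ξ⟫) ^ 2 ≤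
    4 * Z * (⟪S.h e e, ξ⟫ * ⟪S.eta, ξ⟫) + 8 * y * ‖ξ‖ ^ 2 := by
  have hn : (0 : ℝ) < n := by
    have := S.hn
    exact_mod_cast (by omega : 0 < n)
  have hsum := P2_sum S S.b ξ
  have hK := fun j => h e (S.b j) he (S.b.orthonormal.1 j) ξ
  set a := ⟪S.h e e, ξ⟫
  set η := ⟪S.eta, ξ⟫
  have hq : 0 ≤ ‖ξ‖ ^ 2 := sq_nonneg _
  set q := ‖ξ‖ ^ 2
  have h1 : ∑ _j : Fin n, ((a - η) ^ 2 + 2 * (a - η) * η - 8 * y * q) ≤
      ∑ j, (4 * Z * a + 2 * (a - η)) * ⟪S.h (S.b j) (S.b j), ξ⟫ := by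
    refine Finset.sum_le_sum fun j _ => ?_
    have := hK j
    have h3 := mul_nonneg (sub_nonneg.mpr hZ1) (mul_nonneg hy hq)
    nlinarith [sq_nonneg (⟪S.h (S.b j) (S.b j), ξ⟫ - η)]
  rw [← Finset.mul_sum, hsum, Finset.sum_const, Finset.card_univ, Fintype.card_fin,
    nsmul_eq_mul] at h1
  refine le_of_mul_le_mul_left ?_ hn
  nlinarith

theorem F2 {e : V} (he : ‖e‖ = 1) (ξ : N) :
    ⟪S.h e e, ξ⟫ ^ 2 ≤ 36 * ⟪S.eta, ξ⟫ ^ 2 + 16 * y * ‖ξ‖ ^ 2 := by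
  have h1 := h.avg hZ hZ1 hy he ξ
  have hq := mul_nonneg hy (sq_nonneg ‖ξ‖)
  set a := ⟪S.h e e, ξ⟫
  set η := ⟪S.eta, ξ⟫
  rcases le_total 0 (a * η) with h0 | h0
  · have := mul_nonneg (sub_nonneg.mpr hZ1) h0
    nlinarith [sq_nonneg (a - 6 * η), sq_nonneg η]
  · have := mul_nonneg hZ (neg_nonneg.mpr h0)
    nlinarith [sq_nonneg η]

theorem F2z {e : V} (he : ‖e‖ = 1) {ξ : N} (hξ : ⟪S.eta, ξ⟫ = 0) :
    ⟪S.h e e, ξ⟫ ^ 2 ≤ 8 * y * ‖ξ‖ ^ 2 := by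
  have h1 := h.avg hZ hZ1 hy he ξ
  rw [hξ] at h1
  simpa using h1

theorem F2n {e : V} (he : ‖e‖ = 1) : ‖S.h e e‖ ^ 2 ≤ 36 * S.e2 + 16 * y := by
  have h1 := h.F2 hZ hZ1 hy he (S.h e e)
  rw [real_inner_self_eq_norm_sq] at h1
  have h2 := P2_cs S.eta (S.h e e)
  have h3 : 0 ≤ S.e2 := sq_nonneg _
  refine P2_div (sq_nonneg _) (by positivity) ?_
  unfold SF.e2
  nlinarith

theorem F2nz {e : V} (he : ‖e‖ = 1) (h0 : S.eta = 0) : ‖S.h e e‖ ^ 2 ≤ 8 * y := by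
  have h1 := h.F2z hZ hZ1 hy he (ξ := S.h e e) (by rw [h0, inner_zero_left])
  rw [real_inner_self_eq_norm_sq] at h1
  exact P2_div (sq_nonneg _) (by positivity) h1

theorem F2h {e : V} (he : ‖e‖ = 1) : ‖S.h0 e e‖ ^ 2 ≤ 32 * Z * S.e2 + 16 * y := by
  have h1 := h.avg hZ hZ1 hy he (S.h0 e e)
  have hee : ⟪e, e⟫ = (1 : ℝ) := by rw [real_inner_self_eq_norm_sq, he]; norm_num
  have h4 : S.h e e = S.h0 e e + S.eta := by
    unfold SF.h0; rw [hee, one_smul]; abel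
  have h5 : ⟪S.h e e, S.h0 e e⟫ = ‖S.h0 e e‖ ^ 2 + ⟪S.eta, S.h0 e e⟫ := by
    conv_lhs => rw [h4]
    rw [← real_inner_self_eq_norm_sq, ← inner_add_left]
  rw [h5] at h1
  have h2 := P2_cs S.eta (S.h0 e e)
  have h3 : 0 ≤ S.e2 := sq_nonneg _
  refine P2_div (sq_nonneg _) (by positivity) ?_
  have h6 : ‖S.eta‖ ^ 2 = S.e2 := rfl
  rw [h6] at h2
  have hq : 0 ≤ ‖S.h0 e e‖ ^ 2 := sq_nonneg _
  generalize ‖S.h0 e e‖ ^ 2 = q at *
  generalize ⟪S.eta, S.h0 e e⟫ = η at *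
  have h7 := mul_le_mul_of_nonneg_left h2 hZ
  have h8 := mul_nonneg (mul_nonneg hZ (sub_nonneg.mpr hZ1)) (sq_nonneg η)
  have h9 := mul_nonneg hZ (mul_nonneg h3 hq)
  nlinarith [sq_nonneg (q - 4 * Z * η)]

theorem F2low {e : V} (he : ‖e‖ = 1) {θ : N} (hθ : ‖θ‖ = 1) {r : ℝ} (hr : 0 ≤ r)
    (hη : S.eta = r • θ) (hry : 56 * y < r ^ 2) : r / 7 ≤ ⟪S.h e e, θ⟫ := by
  have h1 := h.avg hZ hZ1 hy he θ
  have h2 : ⟪S.eta, θ⟫ = r := by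
    rw [hη, real_inner_smul_left, real_inner_self_eq_norm_sq, hθ]; ring
  rw [h2, hθ] at h1
  set a := ⟪S.h e e, θ⟫
  by_contra hc
  have hc' : a < r / 7 := not_le.mp hc
  rcases le_total 0 a with h0 | h0
  · have h3 := mul_nonneg (sub_nonneg.mpr hZ1) (mul_nonneg h0 hr)
    have h4 := mul_nonneg hr (sub_nonneg.mpr hc'.le)
    nlinarith [sq_nonneg a]
  · have h3 := mul_nonneg (neg_nonneg.mpr h0) hr
    have h4 := mul_nonneg hZ h3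
    nlinarith [sq_nonneg a]

theorem P2_F3u {e x : V} (he : ‖e‖ = 1) (hx : ‖x‖ = 1) (hex : ⟪e, x⟫ = 0) (ξ : N) :
    ⟪S.h e x, ξ⟫ ^ 2 ≤ y * ‖ξ‖ ^ 2 + Z * ⟪S.h e e, ξ⟫ ^ 2 := by
  set p := ⟪S.h e e, ξ⟫ with hp
  set p' := ⟪S.h x x, ξ⟫ with hp'
  set s := ⟪S.h e x, ξ⟫ with hs
  obtain ⟨c, σ, hc, hd⟩ := P2_rot s ((p - p') / 2)
  have hunit : ∀ α β : ℝ, α ^ 2 + β ^ 2 = 1 → ‖α • e + β • x‖ = 1 := by
    intro α β hαβ
    have : ‖α • e + β • x‖ ^ 2 = 1 := by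
      rw [norm_add_sq_real, norm_smul, norm_smul, he, hx, real_inner_smul_left,
        real_inner_smul_right, hex, Real.norm_eq_abs, Real.norm_eq_abs, mul_one, mul_one, sq_abs,
        sq_abs]
      linarith
    exact (sq_eq_sq₀ (norm_nonneg _) zero_le_one).mp (by rw [this]; norm_num)
  have hval : ∀ α β : ℝ, ⟪S.h (α • e + β • x) (α • e + β • x), ξ⟫ =
      α ^ 2 * p + 2 * α * β * s + β ^ 2 * p' := by
    intro α β
    simp only [map_add, map_smul, LinearMap.add_apply, LinearMap.smul_apply, inner_add_left,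
      real_inner_smul_left]
    rw [S.symm x e, ← hp, ← hp', ← hs]
    ring
  have hK := h (c • e + σ • x) ((-σ) • e + c • x) (hunit _ _ hc) (hunit _ _ (by linarith)) ξ
  rw [hval, hval] at hK
  set d := (c ^ 2 - σ ^ 2) * ((p - p') / 2) + 2 * σ * c * s with hdd
  have ha : c ^ 2 * p + 2 * c * σ * s + σ ^ 2 * p' = (p + p') / 2 + d := by
    rw [hdd]; linear_combination ((p + p') / 2) * hc
  have hb : (-σ) ^ 2 * p + 2 * (-σ) * c * s + c ^ 2 * p' = (p + p') / 2 - d := by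
    rw [hdd]; linear_combination ((p + p') / 2) * hc
  rw [ha, hb] at hK
  have hp0 : 0 < 1 + Z := by linarith
  refine le_of_mul_le_mul_left ?_ hp0
  have h7 : Z * d ^ 2 = Z * (s ^ 2 + ((p - p') / 2) ^ 2) := by rw [hd]
  nlinarith [sq_nonneg (Z * p + (p - p') / 2)]

/-- Rotate the pair `e`, `x` in its plane. -/
theorem F3 {e x : V} (he : ‖e‖ = 1) (hex : ⟪e, x⟫ = 0) (ξ : N) :
    ⟪S.h e x, ξ⟫ ^ 2 ≤ (y * ‖ξ‖ ^ 2 + Z * ⟪S.h e e, ξ⟫ ^ 2) * ‖x‖ ^ 2 := by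
  rcases eq_or_ne x 0 with rfl | hx
  · simp
  have hx0 : ‖x‖ ≠ 0 := norm_ne_zero_iff.mpr hx
  have h1 := h.P2_F3u hZ hZ1 hy he (x := ‖x‖⁻¹ • x) (norm_smul_inv_norm hx)
    (by rw [real_inner_smul_right, hex, mul_zero]) ξ
  rw [map_smul, real_inner_smul_left] at h1
  have h2 := mul_le_mul_of_nonneg_right h1 (sq_nonneg ‖x‖)
  have h3 : (‖x‖⁻¹ * ⟪S.h e x, ξ⟫) ^ 2 * ‖x‖ ^ 2 = ⟪S.h e x, ξ⟫ ^ 2 := by
    field_simp
  rwa [h3] at h2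

end SF.K0

end Pool.Agent.Lib.MP_de485e_gt.Hi
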