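import Pool.Agent.Lib.MP_de485e_gt.Hi.P2

/-! Weighted row sums (F4 of the note) and the bound for `u`. -/

open scoped RealInnerProductSpace

namespace Pool.Agent.Lib.MP_de485e_gt.Hi

variable {n : ℕ} {V N : Type} [NormedAddCommGroup V] [InnerProductSpace ℝ V]
  [FiniteDimensional ℝ V] [NormedAddCommGroup N] [InnerProductSpace ℝ N] [FiniteDimensional ℝ N]

private theorem P3_bessel {ι : Type} [Fintype ι] (a : ι → N) (lam : ι → ℝ)
    (hd : ∀ i, ⟪a i, a i⟫ = lam i) (ho : ∀ i k, i ≠ k → ⟪a i, a k⟫ = 0) (z : N) :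
    ∑ i, ⟪z, a i⟫ ^ 2 / lam i ≤ ‖z‖ ^ 2 := by
  classical
  set c : ι → ℝ := fun i => ⟪z, a i⟫ / lam i with hc
  set q : N := ∑ i, c i • a i with hq
  have h1 : ⟪z, q⟫ = ∑ i, ⟪z, a i⟫ ^ 2 / lam i := by
    rw [hq, inner_sum]
    refine Finset.sum_congr rfl fun i _ => ?_
    rw [real_inner_smul_right, hc]
    ring
  have h2 : ∀ i, ⟪a i, q⟫ = c i * lam i := by
    intro i
    rw [hq, inner_sum, Finset.sum_eq_single i]
    · rw [real_inner_smul_right, hd]
    · intro k _ hk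
      rw [real_inner_smul_right, ho i k (Ne.symm hk), mul_zero]
    · intro hi
      exact absurd (Finset.mem_univ i) hi
  have h3 : ⟪q, q⟫ = ∑ i, ⟪z, a i⟫ ^ 2 / lam i := by
    conv_lhs => rw [show ⟪q, q⟫ = ⟪∑ i, c i • a i, q⟫ from rfl]
    rw [sum_inner]
    refine Finset.sum_congr rfl fun i _ => ?_
    rw [real_inner_smul_left, h2, hc]
    by_cases hl : lam i = 0
    · simp [hl]
    · field_simp
  have h4 : ‖z - q‖ ^ 2 = ‖z‖ ^ 2 - 2 * ⟪z, q⟫ + ‖q‖ ^ 2 := norm_sub_sq_real z q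
  rw [← real_inner_self_eq_norm_sq q, h1, h3] at h4
  nlinarith [sq_nonneg ‖z - q‖]

private theorem P3_parseval (f : OrthonormalBasis (Fin n) ℝ V) (x : V) :
    ∑ j, ⟪x, f j⟫ ^ 2 = ‖x‖ ^ 2 := by
  rw [← real_inner_self_eq_norm_sq, ← f.sum_inner_mul_inner x x]
  refine Finset.sum_congr rfl fun j _ => ?_
  rw [real_inner_comm x (f j), sq]

namespace SF.K0

variable {S : SF n V N} {Z y : ℝ} (h : S.K0 Z y) (hZ : 0 ≤ Z) (hZ1 : Z ≤ 1) (hy : 0 ≤ y)
include h hZ hZ1 hy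

/-- `F3` for `x = ∑ j ∈ s, ⟪h e (f j), ξ⟫ • f j`. -/
theorem F3row {e : V} (he : ‖e‖ = 1) (f : OrthonormalBasis (Fin n) ℝ V) (s : Finset (Fin n))
    (hs : ∀ j ∈ s, ⟪e, f j⟫ = 0) (ξ : N) :
    ∑ j ∈ s, ⟪S.h e (f j), ξ⟫ ^ 2 ≤ y * ‖ξ‖ ^ 2 + Z * ⟪S.h e e, ξ⟫ ^ 2 := by
  classical
  set c : Fin n → ℝ := fun j => ⟪S.h e (f j), ξ⟫ with hc
  set x : V := ∑ j ∈ s, c j • f j with hx
  have hex : ⟪e, x⟫ = 0 := by
    rw [hx, inner_sum]
    refine Finset.sum_eq_zero fun j hj => ?_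
    rw [real_inner_smul_right, hs j hj, mul_zero]
  have h1 : ⟪S.h e x, ξ⟫ = ∑ j ∈ s, c j ^ 2 := by
    rw [hx, map_sum, sum_inner]
    refine Finset.sum_congr rfl fun j _ => ?_
    rw [map_smul, real_inner_smul_left, sq]
  have h2 : ‖x‖ ^ 2 = ∑ j ∈ s, c j ^ 2 := by
    rw [← real_inner_self_eq_norm_sq, hx, f.orthonormal.inner_sum]
    refine Finset.sum_congr rfl fun j _ => ?_
    simp [sq]
  have h3 := h.F3 hZ hZ1 hy he hex ξ
  rw [h1, h2] at h3
  have hB : 0 ≤ y * ‖ξ‖ ^ 2 + Z * ⟪S.h e e, ξ⟫ ^ 2 := by positivity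
  by_contra hcon
  push Not at hcon
  have hT : 0 < ∑ j ∈ s, c j ^ 2 := lt_of_le_of_lt hB hcon
  nlinarith

/-- Diagonalise the form `⟪L x, L x'⟫`, `L x = h e (x - ⟪e, x⟫ e)` (`exists_diag`): basis `v i`
with `L (v i)` orthogonal; `F3` in the direction of `L (v i)`; Bessel for `h e e`. -/
theorem F4 {e : V} (he : ‖e‖ = 1) (f : OrthonormalBasis (Fin n) ℝ V) (w : Fin n → ℝ) {D : ℝ}
    (hw0 : ∀ j, 0 ≤ w j) (hwD : ∀ j, w j ≤ D) (hw : ∀ j, w j ≠ 0 → ⟪e, f j⟫ = 0) :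
    ∑ j, w j * ‖S.h e (f j)‖ ^ 2 ≤ y * ∑ j, w j + Z * D * ‖S.h e e‖ ^ 2 := by
  classical
  set L : V →ₗ[ℝ] N := (S.h e) ∘ₗ off e with hL
  have hLa : ∀ x, L x = S.h e (off e x) := fun x => rfl
  obtain ⟨v, lam, hv⟩ := exists_diag S.b ((innerₗ N).compl₁₂ L L) (by
    intro x x'
    simp only [LinearMap.compl₁₂_apply, innerₗ_apply_apply]
    exact real_inner_comm _ _)
  have hv' : ∀ i x, ⟪L (v i), L x⟫ = lam i * ⟪v i, x⟫ := by
    intro i x
    simpa only [LinearMap.compl₁₂_apply, innerₗ_apply_apply] using hv i x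
  have hd : ∀ i, ⟪L (v i), L (v i)⟫ = lam i := by
    intro i
    rw [hv', real_inner_self_eq_norm_sq, v.orthonormal.1 i]
    ring
  have ho : ∀ i k, i ≠ k → ⟪L (v i), L (v k)⟫ = 0 := by
    intro i k hik
    rw [hv', v.orthonormal.2 hik, mul_zero]
  have hl0 : ∀ i, 0 ≤ lam i := fun i => by rw [← hd]; exact real_inner_self_nonneg
  set t : Fin n → ℝ := fun i => ⟪S.h e e, L (v i)⟫ ^ 2 / lam i with ht
  have ht0 : ∀ i, 0 ≤ t i := fun i => div_nonneg (sq_nonneg _) (hl0 i)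
  have hts : ∑ i, t i ≤ ‖S.h e e‖ ^ 2 := P3_bessel (fun i => L (v i)) lam hd ho (S.h e e)
  have hlt : ∀ i, lam i ≤ y + Z * t i := by
    intro i
    rcases (hl0 i).eq_or_lt with h0 | hpos
    · rw [← h0]
      have := ht0 i
      positivity
    · have hex : ⟪e, off e (v i)⟫ = 0 := by
        rw [off_apply, inner_sub_right, real_inner_smul_right, real_inner_self_eq_norm_sq, he]
        ring
      have h3 := h.F3 hZ hZ1 hy he hex (L (v i))
      rw [← hLa, hd, ← real_inner_self_eq_norm_sq (L (v i)), hd] at h3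
      have h4 : ‖off e (v i)‖ ^ 2 ≤ 1 := by
        have h5 := off_norm_le (Or.inl he) (v i)
        rw [v.orthonormal.1 i] at h5
        exact pow_le_one₀ (norm_nonneg _) h5
      have hB : 0 ≤ y * lam i + Z * ⟪S.h e e, L (v i)⟫ ^ 2 := by positivity
      have h6 : lam i ^ 2 ≤ y * lam i + Z * ⟪S.h e e, L (v i)⟫ ^ 2 :=
        h3.trans (mul_le_of_le_one_right hB h4)
      have h7 : ⟪S.h e e, L (v i)⟫ ^ 2 = t i * lam i := by
        rw [ht]
        field_simp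
      rw [h7] at h6
      have h8 : lam i * lam i ≤ (y + Z * t i) * lam i := by nlinarith
      exact le_of_mul_le_mul_right h8 hpos
  have hx : ∀ x : V, ‖L x‖ ^ 2 = ∑ i, lam i * ⟪v i, x⟫ ^ 2 := by
    intro x
    rw [← real_inner_self_eq_norm_sq]
    conv_lhs => rw [show ⟪L x, L x⟫ = ⟪L (∑ i, ⟪v i, x⟫ • v i), L x⟫ by rw [v.sum_repr' x]]
    rw [map_sum, sum_inner]
    refine Finset.sum_congr rfl fun i _ => ?_
    rw [map_smul, real_inner_smul_left, hv']
    ring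
  have hw1 : ∀ j, w j * ‖S.h e (f j)‖ ^ 2 = ∑ i, lam i * (w j * ⟪v i, f j⟫ ^ 2) := by
    intro j
    by_cases hj : w j = 0
    · simp [hj]
    · have : S.h e (f j) = L (f j) := by
        rw [hLa, off_apply, hw j hj, zero_smul, sub_zero]
      rw [this, hx, Finset.mul_sum]
      refine Finset.sum_congr rfl fun i _ => ?_
      ring
  set W : Fin n → ℝ := fun i => ∑ j, w j * ⟪v i, f j⟫ ^ 2 with hW
  have hW0 : ∀ i, 0 ≤ W i := fun i =>
    Finset.sum_nonneg fun j _ => mul_nonneg (hw0 j) (sq_nonneg _)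
  have hWD : ∀ i, W i ≤ D := by
    intro i
    calc W i ≤ ∑ j, D * ⟪v i, f j⟫ ^ 2 :=
          Finset.sum_le_sum fun j _ => mul_le_mul_of_nonneg_right (hwD j) (sq_nonneg _)
      _ = D := by rw [← Finset.mul_sum, P3_parseval, v.orthonormal.1 i]; ring
  have hWs : ∑ i, W i = ∑ j, w j := by
    rw [hW, Finset.sum_comm]
    refine Finset.sum_congr rfl fun j _ => ?_
    rw [← Finset.mul_sum]
    have : ∑ i, ⟪v i, f j⟫ ^ 2 = 1 := by
      have h9 := P3_parseval v (f j)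
      rw [f.orthonormal.1 j] at h9
      simpa [real_inner_comm] using h9
    rw [this, mul_one]
  have hD : 0 ≤ D := by
    have h2 := S.hn
    exact (hw0 ⟨0, by omega⟩).trans (hwD _)
  calc ∑ j, w j * ‖S.h e (f j)‖ ^ 2 = ∑ i, lam i * W i := by
        simp only [hw1]
        rw [Finset.sum_comm]
        refine Finset.sum_congr rfl fun i _ => ?_
        rw [hW, Finset.mul_sum]
    _ ≤ ∑ i, (y * W i + Z * D * t i) := by
        refine Finset.sum_le_sum fun i _ => ?_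
        have h1 := mul_le_mul_of_nonneg_right (hlt i) (hW0 i)
        have h2 := mul_le_mul_of_nonneg_left (hWD i) (mul_nonneg hZ (ht0 i))
        nlinarith
    _ = y * ∑ j, w j + Z * D * ∑ i, t i := by
        rw [Finset.sum_add_distrib, ← Finset.mul_sum, ← Finset.mul_sum, hWs]
    _ ≤ y * ∑ j, w j + Z * D * ‖S.h e e‖ ^ 2 := by
        have := mul_le_mul_of_nonneg_left hts (mul_nonneg hZ hD)
        linarith

/-- Use a basis that contains `e` (or diagonalise `⟪e, x⟫ ⟪e, x'⟫`) and `wb_row`. -/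
theorem row {e : V} (he : ‖e‖ = 1) : ∑ j, ‖S.h0 e (S.b j)‖ ^ 2 ≤
    (n - 1) * y + Z * ‖S.h e e‖ ^ 2 + ‖S.h0 e e‖ ^ 2 := by
  classical
  have hn := S.hn
  set i0 : Fin n := ⟨0, by omega⟩ with hi0
  have hcard : Module.finrank ℝ V = Fintype.card (Fin n) :=
    Module.finrank_eq_card_basis S.b.toBasis
  have horth : Orthonormal ℝ (({i0} : Set (Fin n)).domRestrict fun _ => e) := by
    refine ⟨fun _ => he, ?_⟩
    intro i j hij
    exact absurd (Subsingleton.elim i j) hij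
  obtain ⟨f, hf⟩ := Orthonormal.exists_orthonormalBasis_extension_of_card_eq hcard horth
  have hf0 : f i0 = e := hf i0 rfl
  have hperp : ∀ j, j ≠ i0 → ⟪e, f j⟫ = 0 := by
    intro j hj
    rw [← hf0]
    exact f.orthonormal.2 (Ne.symm hj)
  have h4 := h.F4 hZ hZ1 hy he f (fun j => if j = i0 then 0 else 1) (D := 1)
    (fun j => by split_ifs <;> norm_num) (fun j => by split_ifs <;> norm_num)
    (fun j hj => hperp j (by intro hj'; simp [hj'] at hj))
  have hs : ∑ j : Fin n, (if j = i0 then (0 : ℝ) else 1) = n - 1 := by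
    have : ∀ j : Fin n, (if j = i0 then (0 : ℝ) else 1) = 1 - (if j = i0 then 1 else 0) := by
      intro j
      split_ifs <;> norm_num
    simp only [this]
    rw [Finset.sum_sub_distrib]
    simp
  rw [hs] at h4
  rw [← S.wb_row f e]
  have h5 : ∀ j, ‖S.h0 e (f j)‖ ^ 2 = (if j = i0 then (0 : ℝ) else 1) * ‖S.h e (f j)‖ ^ 2 +
      (if j = i0 then ‖S.h0 e e‖ ^ 2 else 0) := by
    intro j
    by_cases hj : j = i0
    · simp [hj, hf0]
    · simp [hj, SF.h0, hperp j hj]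
  simp only [h5]
  rw [Finset.sum_add_distrib, Finset.sum_ite_eq' Finset.univ i0]
  simp only [Finset.mem_univ, if_true]
  nlinarith

theorem row_le {e : V} (he : ‖e‖ = 1) :
    ∑ j, ‖S.h0 e (S.b j)‖ ^ 2 ≤ (n + 31) * y + 68 * Z * S.e2 := by
  have h1 := h.row hZ hZ1 hy he
  have h2 := h.F2n hZ hZ1 hy he
  have h3 := h.F2h hZ hZ1 hy he
  have h4 := mul_le_mul_of_nonneg_left h2 hZ
  have h5 := mul_le_mul_of_nonneg_right hZ1 hy
  nlinarith

/-- Split along the direction of `eta` (`exists_dir`, `post_off_u`). -/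
theorem u_le0 : S.u ≤ n * (Z * S.e2 + (n + 16) * y) := by
  obtain ⟨θ, hθ, hη⟩ := exists_dir S.eta
  have h' : (S.post (off θ)).K0 Z y := h.post hZ hy (off_symm θ) (off_norm_le hθ)
  have he0 : (S.post (off θ)).eta = 0 := by
    rw [S.post_eta, off_apply]
    rcases hθ with h1 | h0
    · have : ⟪θ, S.eta⟫ = ‖S.eta‖ := by
        conv_lhs => rw [hη]
        rw [real_inner_smul_right, real_inner_self_eq_norm_sq, h1]
        ring
      rw [this, ← hη, sub_self]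
    · rw [h0, smul_zero] at hη
      rw [h0, hη]
      simp
  have hu' : (S.post (off θ)).u ≤ ∑ _i : Fin n, ((n + 15) * y) := by
    refine Finset.sum_le_sum fun i _ => ?_
    have hb : ‖(S.post (off θ)).b i‖ = 1 := (S.post (off θ)).b.orthonormal.1 i
    have h1 := h'.row hZ hZ1 hy hb
    have h2 := h'.F2nz hZ hZ1 hy hb he0
    have h3 : (S.post (off θ)).h0 ((S.post (off θ)).b i) ((S.post (off θ)).b i) =
        (S.post (off θ)).h ((S.post (off θ)).b i) ((S.post (off θ)).b i) := by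
      rw [SF.h0, he0, smul_zero, sub_zero]
    rw [h3] at h1
    have h4 := mul_le_mul_of_nonneg_left h2 hZ
    have h5 := mul_le_mul_of_nonneg_right hZ1 hy
    nlinarith
  rw [S.post_off_u hθ, Finset.sum_const, Finset.card_univ, Fintype.card_fin, nsmul_eq_mul] at hu'
  have h1 := h.F1 hZ hZ1 hy θ
  have hθ1 : ‖θ‖ ^ 2 ≤ 1 := by
    rcases hθ with h1 | h0
    · rw [h1]; norm_num
    · rw [h0]; simp
  have h2 : ⟪S.eta, θ⟫ ^ 2 ≤ S.e2 := by
    have h3 : ⟪S.eta, θ⟫ ^ 2 ≤ ‖S.eta‖ ^ 2 * ‖θ‖ ^ 2 := by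
      have h4 := real_inner_mul_inner_self_le S.eta θ
      rw [real_inner_self_eq_norm_sq, real_inner_self_eq_norm_sq] at h4
      nlinarith
    exact h3.trans (mul_le_of_le_one_right (sq_nonneg _) hθ1)
  have h5 : Z * ⟪S.eta, θ⟫ ^ 2 + y * ‖θ‖ ^ 2 ≤ Z * S.e2 + y :=
    add_le_add (mul_le_mul_of_nonneg_left h2 hZ) (mul_le_of_le_one_right hy hθ1)
  have h6 := mul_le_mul_of_nonneg_left h5 (Nat.cast_nonneg (α := ℝ) n)
  nlinarith

theorem G2_le : S.G2 ≤ n * y * S.u + (n : ℝ) ^ 2 * Z * S.zeta := by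
  have hn : (n : ℝ) ≠ 0 := by
    have := S.hn
    positivity
  have h1 : S.G2 = ∑ i, ∑ j, S.uD (S.h0 (S.b i) (S.b j)) := by
    refine Finset.sum_congr rfl fun i _ => Finset.sum_congr rfl fun j _ => ?_
    refine Finset.sum_congr rfl fun k _ => Finset.sum_congr rfl fun l _ => ?_
    rw [real_inner_comm]
  have h2 : (n : ℝ) * y * S.u + (n : ℝ) ^ 2 * Z * S.zeta = ∑ i, ∑ j, (n : ℝ) *
      (Z * ⟪S.eta, S.h0 (S.b i) (S.b j)⟫ ^ 2 + y * ‖S.h0 (S.b i) (S.b j)‖ ^ 2) := by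
    have h3 : (n : ℝ) ^ 2 * Z * S.zeta = n * Z * S.uD S.eta := by
      rw [SF.zeta]
      field_simp
    rw [h3, SF.u, SF.uD, Finset.mul_sum, Finset.mul_sum, ← Finset.sum_add_distrib]
    refine Finset.sum_congr rfl fun i _ => ?_
    rw [Finset.mul_sum, Finset.mul_sum, ← Finset.sum_add_distrib]
    refine Finset.sum_congr rfl fun j _ => ?_
    rw [real_inner_comm S.eta]
    ring
  rw [h1, h2]
  exact Finset.sum_le_sum fun i _ => Finset.sum_le_sum fun j _ => h.F1 hZ hZ1 hy _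

theorem zeta_le : S.zeta ≤ S.e2 * (Z * S.e2 + y) := by
  have hn : (0 : ℝ) < n := by
    have := S.hn
    positivity
  have h1 := h.F1 hZ hZ1 hy S.eta
  rw [real_inner_self_eq_norm_sq] at h1
  rw [SF.zeta, inv_mul_le_iff₀ hn, SF.e2]
  nlinarith

end SF.K0

end Pool.Agent.Lib.MP_de485e_gt.Hi
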