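import Pool.Agent.Lib.MP_de485e_gt.Hi.P4

/-! Structure of a touching configuration. -/

open scoped RealInnerProductSpace

namespace Pool.Agent.Lib.MP_de485e_gt.Hi

variable {n : ℕ} {V N : Type} [NormedAddCommGroup V] [InnerProductSpace ℝ V]
  [FiniteDimensional ℝ V] [NormedAddCommGroup N] [InnerProductSpace ℝ N] [FiniteDimensional ℝ N]

private theorem P6_lin {L C : ℝ} (h : ∀ r : ℝ, 0 ≤ C * (r * r) + L * r) : L = 0 := by
  have h1 : discrim C L 0 ≤ 0 := discrim_le_zero fun r => by simpa using h r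
  unfold discrim at h1
  have h2 : L ^ 2 ≤ 0 := by linarith
  exact pow_eq_zero_iff (two_ne_zero) |>.1 (le_antisymm h2 (sq_nonneg L))

private theorem P6_mu1 (p : Par n) (hn : 2 ≤ n) : 0 < p.mu1 ∧ p.mu1 < p.Z := by
  have h0 := p.mu0_pos
  have h1 := p.mu0_l
  have h2 := p.l_ge hn
  have h3 := p.m_lt
  have hZ := p.hZ
  have h4 : p.mu0 * 14 ≤ p.mu0 * p.l := mul_le_mul_of_nonneg_left h2 h0.le
  have h5 : p.Z * p.m ≤ p.Z * 1 := mul_le_mul_of_nonneg_left h3.le hZ.le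
  unfold Par.mu1
  constructor <;> linarith

omit [FiniteDimensional ℝ V] [FiniteDimensional ℝ N] in
private theorem P6_expand (S : SF n V N) (ν : N) (e x : V) (r : ℝ) :
    ⟪S.h (e + r • x) (e + r • x), ν⟫ =
      ⟪S.h e e, ν⟫ + 2 * r * ⟪S.h e x, ν⟫ + r * r * ⟪S.h x x, ν⟫ := by
  simp only [map_add, map_smul, LinearMap.add_apply, LinearMap.smul_apply, inner_add_left,
    real_inner_smul_left, S.symm x e]
  ring

omit [FiniteDimensional ℝ V] in
private theorem P6_norm (e x : V) (r : ℝ) :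
    ‖e + r • x‖ ^ 2 = ‖e‖ ^ 2 + 2 * r * ⟪e, x⟫ + r * r * ‖x‖ ^ 2 := by
  rw [norm_add_sq_real, real_inner_smul_right, norm_smul, mul_pow, Real.norm_eq_abs, sq_abs]
  ring

namespace SF.Tch

variable {S : SF n V N} {p : Par n} {ν : N} {e e' : V} {a b : ℝ} (t : S.Tch p ν e e' a b)
include t

/-- Replace `ν` by `-ν`. -/
theorem s_nonneg : 0 ≤ a + b := by
  have h1 := t.K (-ν) e e' (by rw [norm_neg, t.hν]) t.he t.he'
  rw [inner_neg_right, inner_neg_right, t.ha, t.hb] at h1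
  have h2 := t.eq
  have h3 := (P6_mu1 p S.hn).1
  unfold Par.Phi at h1 h2
  have h4 : 0 ≤ p.mu1 * (a + b) := by nlinarith
  by_contra hc
  have : p.mu1 * (a + b) < 0 := mul_neg_of_pos_of_neg h3 (not_le.1 hc)
  linarith

/-- `Pa (-Pb) = (4 + 4 Z) D ^ 2 + 16 Z Y + 4 Z E - mu1 ^ 2`, `Pa - Pb = (4 + 4 Z) D`. -/
theorem signs : b < a ∧ 0 < p.Pa a b ∧ p.Pb a b < 0 ∧
    (4 + 4 * p.Z) * (a - b) ^ 2 ≤ p.Pa a b * -p.Pb a b := by
  obtain ⟨h1, h2⟩ := P6_mu1 p S.hn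
  have hZ := p.hZ
  have hY := p.Y_bounds.1
  have hE := p.E_nonneg S.e2 S.u
  have heq := t.eq
  have hle := t.le
  have hprod : p.Pa a b * -p.Pb a b = (4 + 4 * p.Z) * (a - b) ^ 2 +
      (16 * p.Z * p.Y + 4 * p.Z * p.E S.e2 S.u - p.mu1 ^ 2) := by
    unfold Par.Phi at heq
    unfold Par.Pa Par.Pb
    linear_combination (4 * p.Z) * heq
  have hsum : p.Pa a b + -p.Pb a b = (4 + 4 * p.Z) * (a - b) := by
    unfold Par.Pa Par.Pb
    ring
  have hc : 0 < 16 * p.Z * p.Y + 4 * p.Z * p.E S.e2 S.u - p.mu1 ^ 2 := by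
    have h3 : p.mu1 ^ 2 < p.Z ^ 2 := by nlinarith
    have h4 : 0 ≤ p.Z * p.E S.e2 S.u := mul_nonneg hZ.le hE
    have h5 : p.Z * (2 * p.Z / 3) ≤ p.Z * p.Y := mul_le_mul_of_nonneg_left hY hZ.le
    nlinarith [sq_nonneg p.Z]
  have hD : 0 ≤ (4 + 4 * p.Z) * (a - b) ^ 2 := by positivity
  have hD1 : 0 ≤ (4 + 4 * p.Z) * (a - b) := mul_nonneg (by linarith) (by linarith)
  have hpos : 0 < p.Pa a b * -p.Pb a b := by linarith
  rcases pos_and_pos_or_neg_and_neg_of_mul_pos hpos with ⟨h3, h4⟩ | ⟨h3, h4⟩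
  · refine ⟨?_, h3, by linarith, by linarith⟩
    have h5 : 0 < (4 + 4 * p.Z) * (a - b) := by linarith
    have h6 : 0 < a - b := (mul_pos_iff_of_pos_left (by linarith)).1 h5
    linarith
  · exfalso
    linarith

omit [FiniteDimensional ℝ V] [FiniteDimensional ℝ N] in
private theorem P6_unit (hs : 0 < p.Pa a b ∧ p.Pb a b < 0) (x : V) (hx : ‖x‖ = 1) :
    b ≤ ⟪S.h x x, ν⟫ ∧ ⟪S.h x x, ν⟫ ≤ a := by
  have h1 := t.K ν e x t.hν t.he hx
  have h2 := t.K ν x e' t.hν hx t.he'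
  rw [t.ha] at h1
  rw [t.hb] at h2
  have heq := t.eq
  set c := ⟪S.h x x, ν⟫
  have e1 : p.Phi (p.E S.e2 S.u) a c =
      p.Phi (p.E S.e2 S.u) a b + (b - c) * -p.Pb a b + (c - b) ^ 2 := by
    unfold Par.Phi Par.Pb
    ring
  have e2 : p.Phi (p.E S.e2 S.u) c b =
      p.Phi (p.E S.e2 S.u) a b + (c - a) * p.Pa a b + (c - a) ^ 2 := by
    unfold Par.Phi Par.Pa
    ring
  constructor
  · by_contra hc
    have : 0 < (b - c) * -p.Pb a b := mul_pos (by linarith [not_le.1 hc]) (by linarith [hs.2])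
    nlinarith [sq_nonneg (c - b)]
  · by_contra hc
    have : 0 < (c - a) * p.Pa a b := mul_pos (by linarith [not_le.1 hc]) hs.1
    nlinarith [sq_nonneg (c - a)]

/-- Convexity of `Phi` in each variable. -/
theorem between (x : V) : b * ‖x‖ ^ 2 ≤ ⟪S.h x x, ν⟫ ∧ ⟪S.h x x, ν⟫ ≤ a * ‖x‖ ^ 2 := by
  rcases eq_or_ne x 0 with rfl | hx
  · simp
  have hn : ‖x‖ ≠ 0 := norm_ne_zero_iff.2 hx
  have hu : ‖‖x‖⁻¹ • x‖ = 1 := by
    rw [norm_smul, norm_inv, norm_norm, inv_mul_cancel₀ hn]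
  obtain ⟨h1, h2⟩ := t.P6_unit ⟨t.signs.2.1, t.signs.2.2.1⟩ _ hu
  have he : ⟪S.h x x, ν⟫ = ⟪S.h (‖x‖⁻¹ • x) (‖x‖⁻¹ • x), ν⟫ * ‖x‖ ^ 2 := by
    simp only [map_smul, LinearMap.smul_apply, real_inner_smul_left]
    field_simp
  rw [he]
  exact ⟨mul_le_mul_of_nonneg_right h1 (sq_nonneg _), mul_le_mul_of_nonneg_right h2 (sq_nonneg _)⟩

theorem eig (x : V) : ⟪S.h e x, ν⟫ = a * ⟪e, x⟫ := by
  have h : 2 * (a * ⟪e, x⟫ - ⟪S.h e x, ν⟫) = 0 := by
    refine P6_lin (C := a * ‖x‖ ^ 2 - ⟪S.h x x, ν⟫) fun r => ?_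
    have h1 := (t.between (e + r • x)).2
    rw [P6_expand, P6_norm, t.ha, t.he] at h1
    linarith
  linarith

theorem eig' (x : V) : ⟪S.h e' x, ν⟫ = b * ⟪e', x⟫ := by
  have h : 2 * (⟪S.h e' x, ν⟫ - b * ⟪e', x⟫) = 0 := by
    refine P6_lin (C := ⟪S.h x x, ν⟫ - b * ‖x‖ ^ 2) fun r => ?_
    have h1 := (t.between (e' + r • x)).1
    rw [P6_expand, P6_norm, t.hb, t.he'] at h1
    linarith
  linarith

theorem perp : ⟪e, e'⟫ = 0 := by
  have h1 := t.eig e'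
  have h2 := t.eig' e
  rw [S.symm e' e, h1, real_inner_comm e e'] at h2
  have h3 : (a - b) * ⟪e, e'⟫ = 0 := by linarith
  exact (mul_eq_zero.1 h3).resolve_left (by linarith [t.signs.1])

omit [FiniteDimensional ℝ V] [FiniteDimensional ℝ N] in
private theorem P6_rot (θ : N) (hθ : ‖θ‖ = 1) (hνθ : ⟪ν, θ⟫ = 0) :
    p.Pa a b * ⟪S.h e e, θ⟫ + p.Pb a b * ⟪S.h e' e', θ⟫ = 0 := by
  set α := ⟪S.h e e, θ⟫ with hα
  set β := ⟪S.h e' e', θ⟫ with hβ
  set E := p.E S.e2 S.u with hE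
  have hle : ∀ r : ℝ, p.Phi E (Real.cos r * a + Real.sin r * α)
      (Real.cos r * b + Real.sin r * β) ≤ 0 := by
    intro r
    have hu : ‖Real.cos r • ν + Real.sin r • θ‖ = 1 := by
      have h2 : ‖Real.cos r • ν + Real.sin r • θ‖ ^ 2 = 1 := by
        rw [norm_add_sq_real, real_inner_smul_left, real_inner_smul_right, hνθ, norm_smul,
          norm_smul, t.hν, hθ, mul_one, mul_one, Real.norm_eq_abs, Real.norm_eq_abs, sq_abs,
          sq_abs]
        linarith [Real.cos_sq_add_sin_sq r]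
      exact (pow_eq_one_iff_of_nonneg (norm_nonneg _) two_ne_zero).1 h2
    have h1 := t.K _ e e' hu t.he t.he'
    rwa [inner_add_right, inner_add_right, real_inner_smul_right, real_inner_smul_right,
      real_inner_smul_right, real_inner_smul_right, t.ha, t.hb] at h1
  have hA : HasDerivAt (fun r : ℝ => Real.cos r * a + Real.sin r * α) α 0 := by
    simpa using ((Real.hasDerivAt_cos 0).mul_const a).fun_add ((Real.hasDerivAt_sin 0).mul_const α)
  have hB : HasDerivAt (fun r : ℝ => Real.cos r * b + Real.sin r * β) β 0 := by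
    simpa using ((Real.hasDerivAt_cos 0).mul_const b).fun_add ((Real.hasDerivAt_sin 0).mul_const β)
  have hd : HasDerivAt (fun r : ℝ => p.Phi E (Real.cos r * a + Real.sin r * α)
      (Real.cos r * b + Real.sin r * β)) (p.Pa a b * α + p.Pb a b * β) 0 := by
    unfold Par.Phi
    have := ((((((hA.fun_sub hB).fun_pow 2).fun_sub ((hA.fun_mul hB).const_mul (4 * p.Z))).sub_const
      (4 * p.Y)).fun_add ((hA.fun_add hB).const_mul p.mu1)).sub_const E)
    refine this.congr_deriv ?_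
    unfold Par.Pa Par.Pb
    simp
    ring
  refine IsLocalMax.hasDerivAt_eq_zero (Filter.Eventually.of_forall fun r => ?_) hd
  have h0 := t.eq
  simp only [Real.cos_zero, Real.sin_zero, one_mul, zero_mul, add_zero]
  rw [h0]
  exact hle r

/-- Rotate `ν` towards the vector on the left side, which is orthogonal to `ν`. -/
theorem first : p.Pa a b • (S.h e e - a • ν) + p.Pb a b • (S.h e' e' - b • ν) = 0 := by
  set w := p.Pa a b • (S.h e e - a • ν) + p.Pb a b • (S.h e' e' - b • ν) with hw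
  by_contra hne
  have hn : ‖w‖ ≠ 0 := norm_ne_zero_iff.2 hne
  have hu : ‖‖w‖⁻¹ • w‖ = 1 := by
    rw [norm_smul, norm_inv, norm_norm, inv_mul_cancel₀ hn]
  have hνν : ⟪ν, ν⟫ = 1 := by rw [real_inner_self_eq_norm_sq, t.hν, one_pow]
  have hwν : ⟪w, ν⟫ = 0 := by
    rw [hw]
    simp only [inner_add_left, inner_sub_left, real_inner_smul_left, t.ha, t.hb, hνν]
    ring
  have hνθ : ⟪ν, ‖w‖⁻¹ • w⟫ = 0 := by
    rw [real_inner_smul_right, real_inner_comm, hwν, mul_zero]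
  have h1 := t.P6_rot _ hu hνθ
  have h2 : ⟪w, ‖w‖⁻¹ • w⟫ = 0 := by
    generalize ‖w‖⁻¹ • w = θ at h1 hνθ
    rw [hw]
    simp only [inner_add_left, inner_sub_left, real_inner_smul_left, hνθ]
    linarith
  rw [real_inner_smul_right, real_inner_self_eq_norm_sq] at h2
  exact mul_ne_zero (inv_ne_zero hn) (pow_ne_zero 2 hn) h2

theorem en_le : |⟪S.eta, ν⟫ - (a + b) / 2| ≤ (a - b) / 2 := by
  have hn : (0 : ℝ) < n := by
    have := S.hn
    exact_mod_cast (by omega : 0 < n)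
  have h1 : (n : ℝ) * ⟪S.eta, ν⟫ = ∑ i, ⟪S.h (S.b i) (S.b i), ν⟫ := by
    rw [← real_inner_smul_left, ← S.sum_h, sum_inner]
  have h2 : ∀ i, b ≤ ⟪S.h (S.b i) (S.b i), ν⟫ ∧ ⟪S.h (S.b i) (S.b i), ν⟫ ≤ a := fun i => by
    simpa [S.b.orthonormal.1 i] using t.between (S.b i)
  have h3 : (n : ℝ) * b ≤ n * ⟪S.eta, ν⟫ := by
    rw [h1]
    simpa using Finset.sum_le_sum (s := Finset.univ) fun i _ => (h2 i).1
  have h4 : (n : ℝ) * ⟪S.eta, ν⟫ ≤ n * a := by
    rw [h1]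
    simpa using Finset.sum_le_sum (s := Finset.univ) fun i _ => (h2 i).2
  have h5 := le_of_mul_le_mul_left h3 hn
  have h6 := le_of_mul_le_mul_left h4 hn
  rw [abs_le]
  constructor <;> linarith

theorem A2_bounds : n * ⟪S.eta, ν⟫ ^ 2 ≤ S.A2 ν ∧
    S.A2 ν ≤ n * (⟪S.eta, ν⟫ * (a + b) - a * b) := by
  refine ⟨by rw [S.A2_eq]; linarith [S.uD_nonneg ν], ?_⟩
  obtain ⟨f, lam, hf⟩ := S.exists_eig ν
  have hon := orthonormal_iff_ite.1 f.orthonormal
  have hd : ∀ i, ⟪S.h (f i) (f i), ν⟫ = lam i := fun i => by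
    rw [hf, hon, if_pos rfl, mul_one]
  have h1 : S.A2 ν = ∑ i, lam i ^ 2 := by
    rw [← S.wb_A2 f ν]
    show ∑ i, ∑ j, ⟪S.h (f i) (f j), ν⟫ ^ 2 = _
    refine Finset.sum_congr rfl fun i _ => ?_
    simp [hf, hon]
  have h2 : (n : ℝ) * ⟪S.eta, ν⟫ = ∑ i, lam i := by
    rw [← real_inner_smul_left, ← S.wb_eta f, ← (S.wb f).sum_h, sum_inner]
    exact Finset.sum_congr rfl fun i _ => hd i
  have h3 : ∀ i, lam i ^ 2 ≤ lam i * (a + b) - a * b := fun i => by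
    have h := t.between (f i)
    rw [hd, f.orthonormal.1 i] at h
    nlinarith [mul_nonneg (sub_nonneg.2 h.1) (sub_nonneg.2 h.2)]
  have h4 := Finset.sum_le_sum (s := Finset.univ) fun i _ => h3 i
  rw [Finset.sum_sub_distrib, ← Finset.sum_mul, ← h2, ← h1] at h4
  simp only [Finset.sum_const, Finset.card_univ, Fintype.card_fin, nsmul_eq_mul] at h4
  linarith

theorem d_eq : (1 + p.Z) * ((a - b) / 2) ^ 2 =
    p.Z * ((a + b) / 2) ^ 2 + (1 + p.Z) * p.y S.e2 S.u - p.mu1 * ((a + b) / 2) / 2 := by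
  have heq := t.eq
  have hZ := p.hZ
  have h1 : (1 + p.Z) * p.y S.e2 S.u = p.Y + p.E S.e2 S.u / 4 := by
    unfold Par.y Par.Y
    field_simp
  unfold Par.Phi at heq
  rw [h1]
  linear_combination (1 / 4) * heq

end SF.Tch

end Pool.Agent.Lib.MP_de485e_gt.Hi
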