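import Pool.Agent.Lib.MP_de485e_gt.Hi.P6

/-! The commutator term at a touching configuration. -/

open scoped RealInnerProductSpace

namespace Pool.Agent.Lib.MP_de485e_gt.Hi

variable {n : ℕ} {V N : Type} [NormedAddCommGroup V] [InnerProductSpace ℝ V]
  [FiniteDimensional ℝ V] [NormedAddCommGroup N] [InnerProductSpace ℝ N] [FiniteDimensional ℝ N]

namespace SF

variable {S : SF n V N} {p : Par n} {ν : N} {e e' : V} {a b : ℝ}

omit [FiniteDimensional ℝ N] in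
private theorem P7_dir (η : N) (hν : ‖ν‖ = 1) : ∃ (θ : N) (r : ℝ), (‖θ‖ = 1 ∨ θ = 0) ∧
    off ν η = r • θ ∧ ⟪θ, ν⟫ = 0 ∧ r * ‖θ‖ ^ 2 = r ∧ r ^ 2 + ⟪η, ν⟫ ^ 2 = ‖η‖ ^ 2 := by
  have h0 : ⟪off ν η, ν⟫ = 0 := by
    show ⟪η - ⟪ν, η⟫ • ν, ν⟫ = 0
    rw [inner_sub_left, inner_smul_left, real_inner_self_eq_norm_sq, hν, real_inner_comm]
    simp
  have h1 : ‖off ν η‖ ^ 2 + ⟪η, ν⟫ ^ 2 = ‖η‖ ^ 2 := by
    show ‖η - ⟪ν, η⟫ • ν‖ ^ 2 + _ = _
    rw [norm_sub_sq_real, inner_smul_right, norm_smul, hν, real_inner_comm η ν,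
      Real.norm_eq_abs, mul_one, sq_abs]
    ring
  by_cases h : off ν η = 0
  · exact ⟨0, 0, .inr rfl, by simp [h], by simp, by simp, by simpa [h] using h1⟩
  · have hn : ‖off ν η‖ ≠ 0 := norm_ne_zero_iff.2 h
    have h2 : ‖‖off ν η‖⁻¹ • off ν η‖ = 1 := norm_smul_inv_norm h
    refine ⟨‖off ν η‖⁻¹ • off ν η, ‖off ν η‖, .inl h2, ?_, ?_, by rw [h2]; ring, h1⟩
    · rw [smul_smul, mul_inv_cancel₀ hn, one_smul]
    · rw [inner_smul_left, h0, mul_zero]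

/-- One row. Let `θ` be the direction of `eta - ⟪eta, ν⟫ ν`; split `h e (f j)` by `off θ ∘ off ν`
(`F4`, `F2nz`) and the component along `θ` (`F3row`, for `θ` and for
`γ = ‖eta - ⟪eta, ν⟫ ν‖ • ν - ⟪eta, ν⟫ • θ`, which is orthogonal to `eta` and has norm `‖eta‖`). -/
theorem K0.row_split {Z y : ℝ} (h : S.K0 Z y) (hZ : 0 ≤ Z) (hZ1 : Z ≤ 1) (hy : 0 ≤ y)
    (hν : ‖ν‖ = 1) (he : ‖e‖ = 1) (f : OrthonormalBasis (Fin n) ℝ V) (w : Fin n → ℝ) {D : ℝ}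
    (hw0 : ∀ j, 0 ≤ w j) (hwD : ∀ j, w j ≤ D)
    (hw : ∀ j, w j ≠ 0 → ⟪e, f j⟫ = 0 ∧ ⟪S.h e (f j), ν⟫ = 0) :
    ∃ σ : ℝ, 0 ≤ σ ∧ σ ≤ 17 * y + 36 * Z * S.e2 ∧ ⟪S.eta, ν⟫ ^ 2 * σ ≤ 9 * y * S.e2 ∧
      ∑ j, w j * ‖S.h e (f j)‖ ^ 2 ≤ y * ∑ j, w j + Z * D * (8 * y) + D * σ := by
  classical
  obtain ⟨θ, r, hθ, hr, hθν, hrθ, hre⟩ := P7_dir S.eta hν
  have hD : 0 ≤ D := (hw0 ⟨0, by have := S.hn; omega⟩).trans (hwD _)
  have hθ1 : ‖θ‖ ^ 2 ≤ 1 := by rcases hθ with h1 | h1 <;> simp [h1]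
  have he2 : S.e2 = r ^ 2 + ⟪S.eta, ν⟫ ^ 2 := hre.symm
  have hη : S.eta = ⟪S.eta, ν⟫ • ν + r • θ := by
    rw [← hr, off_apply, real_inner_comm]
    abel
  have hηθ : ⟪S.eta, θ⟫ = r := by
    rw [hη, inner_add_left, inner_smul_left, inner_smul_left, real_inner_comm θ ν, hθν,
      real_inner_self_eq_norm_sq]
    simpa using hrθ
  have k1 := h.post hZ hy (off_symm ν) (off_norm_le (.inl hν))
  have k2 := k1.post hZ hy (off_symm θ) (off_norm_le hθ)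
  have z2 : ((S.post (off ν)).post (off θ)).eta = 0 := by
    rw [post_eta, post_eta, hr, off_apply, inner_smul_right, real_inner_self_eq_norm_sq, hrθ,
      sub_self]
  have a4 := k2.F4 hZ hZ1 hy he f w hw0 hwD fun j hj => (hw j hj).1
  have a2 := k2.F2nz hZ hZ1 hy he z2
  have hs : ∀ j ∈ Finset.univ.filter fun j => w j ≠ 0, ⟪e, f j⟫ = 0 := fun j hj =>
    (hw j (Finset.mem_filter.1 hj).2).1
  refine ⟨∑ j ∈ Finset.univ.filter fun j => w j ≠ 0, ⟪S.h e (f j), θ⟫ ^ 2,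
    Finset.sum_nonneg fun j _ => sq_nonneg _, ?_, ?_, ?_⟩
  · have b1 := h.F3row hZ hZ1 hy he f _ hs θ
    have b2 := h.F2 hZ hZ1 hy he θ
    rw [hηθ] at b2
    have b3 : ⟪S.h e e, θ⟫ ^ 2 ≤ 36 * S.e2 + 16 * y := by
      nlinarith [sq_nonneg ⟪S.eta, ν⟫, mul_le_mul_of_nonneg_left hθ1 hy]
    nlinarith [mul_le_mul_of_nonneg_left b3 hZ, mul_le_mul_of_nonneg_left hθ1 hy,
      mul_le_mul_of_nonneg_right hZ1 hy]
  · have g0 : ⟪S.eta, r • ν - ⟪S.eta, ν⟫ • θ⟫ = 0 := by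
      rw [inner_sub_right, inner_smul_right, inner_smul_right, hηθ]
      ring
    have g1 : ‖r • ν - ⟪S.eta, ν⟫ • θ‖ ^ 2 ≤ S.e2 := by
      rw [norm_sub_sq_real, inner_smul_left, inner_smul_right, real_inner_comm θ ν, hθν,
        norm_smul, norm_smul, hν, mul_pow, mul_pow, Real.norm_eq_abs, Real.norm_eq_abs, sq_abs,
        sq_abs, he2]
      simp only [mul_zero]
      nlinarith [mul_le_mul_of_nonneg_left hθ1 (sq_nonneg ⟪S.eta, ν⟫)]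
    have b1 := h.F3row hZ hZ1 hy he f _ hs (r • ν - ⟪S.eta, ν⟫ • θ)
    have b2 := h.F2z hZ hZ1 hy he g0
    have b3 : ⟪S.eta, ν⟫ ^ 2 * ∑ j ∈ Finset.univ.filter fun j => w j ≠ 0, ⟪S.h e (f j), θ⟫ ^ 2 =
        ∑ j ∈ Finset.univ.filter fun j => w j ≠ 0, ⟪S.h e (f j), r • ν - ⟪S.eta, ν⟫ • θ⟫ ^ 2 := by
      rw [Finset.mul_sum]
      refine Finset.sum_congr rfl fun j hj => ?_
      rw [inner_sub_right, inner_smul_right, inner_smul_right, (hw j (Finset.mem_filter.1 hj).2).2]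
      ring
    rw [b3]
    have b4 := mul_le_mul_of_nonneg_left g1 hy
    have b5 : 0 ≤ y * ‖r • ν - ⟪S.eta, ν⟫ • θ‖ ^ 2 := by positivity
    nlinarith [mul_le_mul_of_nonneg_left b2 hZ, mul_le_mul_of_nonneg_right hZ1 b5]
  · have c1 : ∑ j, w j * ‖S.h e (f j)‖ ^ 2 =
        ∑ j, w j * ‖((S.post (off ν)).post (off θ)).h e (f j)‖ ^ 2 +
          ∑ j, w j * ⟪S.h e (f j), θ⟫ ^ 2 := by
      rw [← Finset.sum_add_distrib]
      refine Finset.sum_congr rfl fun j _ => ?_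
      by_cases hj : w j = 0
      · simp [hj]
      have c2 : off ν (S.h e (f j)) = S.h e (f j) := by
        rw [off_apply, real_inner_comm, (hw j hj).2, zero_smul, sub_zero]
      have c3 : ((S.post (off ν)).post (off θ)).h e (f j) = off θ (off ν (S.h e (f j))) := rfl
      rw [c3, c2, off_norm_sq hθ, real_inner_comm]
      ring
    have c4 : ∑ j, w j * ⟪S.h e (f j), θ⟫ ^ 2 ≤
        D * ∑ j ∈ Finset.univ.filter fun j => w j ≠ 0, ⟪S.h e (f j), θ⟫ ^ 2 := by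
      rw [Finset.sum_filter, Finset.mul_sum]
      refine Finset.sum_le_sum fun j _ => ?_
      split_ifs with hj
      · exact mul_le_mul_of_nonneg_right (hwD j) (sq_nonneg _)
      · simp [not_not.1 hj]
    have c5 := mul_le_mul_of_nonneg_left a2 (mul_nonneg hZ hD)
    linarith

private theorem P7_Ce {f : OrthonormalBasis (Fin n) ℝ V} {lam : Fin n → ℝ}
    (hf : ∀ i x, ⟪S.h (f i) x, ν⟫ = lam i * ⟪f i, x⟫) (e : V) (a : ℝ) :
    S.Ce ν e a = ∑ j, (a - lam j) * ‖S.h e (f j)‖ ^ 2 := by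
  rw [← S.wb_Ce f]
  show a * ∑ j, ‖S.h e (f j)‖ ^ 2 -
    ∑ j, ∑ k, ⟪S.h (f j) (f k), ν⟫ * ⟪S.h e (f j), S.h e (f k)⟫ = _
  rw [Finset.mul_sum, ← Finset.sum_sub_distrib]
  refine Finset.sum_congr rfl fun j _ => ?_
  rw [Finset.sum_eq_single j (fun k _ hk => by
    rw [hf, f.orthonormal.2 hk.symm, mul_zero, zero_mul]) (by simp), hf,
    real_inner_self_eq_norm_sq, real_inner_self_eq_norm_sq, f.orthonormal.1]
  ring

private theorem P7_tr {f : OrthonormalBasis (Fin n) ℝ V} {lam : Fin n → ℝ}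
    (hf : ∀ i x, ⟪S.h (f i) x, ν⟫ = lam i * ⟪f i, x⟫) : ∑ j, lam j = n * ⟪S.eta, ν⟫ := by
  have h1 : ∑ i, S.h (f i) (f i) = (n : ℝ) • S.eta := by
    rw [← S.wb_eta f]
    exact (S.wb f).sum_h
  have h2 := congrArg (fun z => ⟪z, ν⟫) h1
  simp only [sum_inner, real_inner_smul_left] at h2
  rw [← h2]
  refine Finset.sum_congr rfl fun j _ => ?_
  rw [hf, real_inner_self_eq_norm_sq, f.orthonormal.1]
  ring

private theorem P7_rem {Z y e2 en D σ : ℝ} (hZ : 0 ≤ Z) (hZ1 : Z ≤ 1) (hy : 0 ≤ y)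
    (hen : en ^ 2 ≤ e2) (hD : (1 + Z) * D ^ 2 ≤ 48 * Z * en ^ 2 + 24 * y) (h0 : 0 ≤ σ)
    (h1 : σ ≤ 17 * y + 36 * Z * e2) (h2 : en ^ 2 * σ ≤ 9 * y * e2) :
    (Z * D * (8 * y) + D * σ) * ((1 + Z) * D) ≤ 1680 * (Z * y * e2) + 600 * y ^ 2 := by
  have a0 : 0 ≤ 8 * Z * y + σ := by positivity
  have a1 := mul_le_mul_of_nonneg_right hD a0
  have a2 := mul_le_mul_of_nonneg_left h2 hZ
  have a3 := mul_le_mul_of_nonneg_left h1 hy
  have a4 : Z * (Z * y * en ^ 2) ≤ Z * y * e2 := by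
    have b1 : Z * y * en ^ 2 ≤ Z * y * e2 := mul_le_mul_of_nonneg_left hen (mul_nonneg hZ hy)
    have b2 : 0 ≤ Z * y * en ^ 2 := by positivity
    nlinarith [mul_le_mul_of_nonneg_right hZ1 b2]
  have a5 : Z * y ^ 2 ≤ y ^ 2 := by nlinarith [mul_le_mul_of_nonneg_right hZ1 (sq_nonneg y)]
  nlinarith

/-- In an eigenbasis of `⟪h, ν⟫`: `Ce ν e a = ∑ (a - lam j) ‖h e (f j)‖ ^ 2`. Then
`d ^ 2 ≤ Z s ^ 2 + y`, `s ^ 2 ≤ 12 en ^ 2 + 4 y`, `Pa - Pb ≤ 8 D`. -/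
theorem Tch.comm_le (t : S.Tch p ν e e' a b) :
    2 * (p.Pa a b * S.Ce ν e a + p.Pb a b * S.Ce ν e' b) ≤
      2 * n * p.y S.e2 S.u * (8 * p.Y + 2 * p.E S.e2 S.u - p.mu1 * (a + b) -
        ⟪S.eta, ν⟫ * (2 * p.mu1 - 4 * p.Z * (a + b))) +
      25000 * p.Z * p.y S.e2 S.u * S.e2 + 8000 * p.y S.e2 S.u ^ 2 := by
  have hZ := p.hZ.le
  have hZ1 := p.Z_lt.le
  have hy := p.y_nonneg S.e2 S.u
  have hK := t.K.K0
  obtain ⟨f, lam, hf⟩ := S.exists_eig ν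
  obtain ⟨hab, hPa, hPb, -⟩ := t.signs
  have hl : ∀ j, b ≤ lam j ∧ lam j ≤ a := fun j => by
    have h1 := t.between (f j)
    rw [hf, real_inner_self_eq_norm_sq, f.orthonormal.1] at h1
    simpa using h1
  have key : ∀ (x : V) (c : ℝ), (∀ z, ⟪S.h x z, ν⟫ = c * ⟪x, z⟫) → ∀ j, c - lam j ≠ 0 →
      ⟪x, f j⟫ = 0 ∧ ⟪S.h x (f j), ν⟫ = 0 := fun x c hx j hj => by
    have h1 := hx (f j)
    have h2 := hf j x
    rw [S.symm, h1, real_inner_comm (f j) x] at h2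
    have h3 : ⟪x, f j⟫ = 0 := by
      rw [real_inner_comm]
      exact (mul_eq_zero.1 (by linear_combination h2)).resolve_left hj
    exact ⟨h3, by rw [h1, h3, mul_zero]⟩
  obtain ⟨σ, s0, s1, s2, s3⟩ := hK.row_split hZ hZ1 hy t.hν t.he f (fun j => a - lam j)
    (D := a - b) (fun j => by linarith [(hl j).2]) (fun j => by linarith [(hl j).1])
    (key e a t.eig)
  obtain ⟨τ, t0, t1, t2, t3⟩ := hK.row_split hZ hZ1 hy t.hν t.he' f (fun j => lam j - b)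
    (D := a - b) (fun j => by linarith [(hl j).1]) (fun j => by linarith [(hl j).2])
    (fun j hj => key e' b t.eig' j fun h => hj (by linarith))
  have c1 : -S.Ce ν e' b = ∑ j, (lam j - b) * ‖S.h e' (f j)‖ ^ 2 := by
    rw [P7_Ce hf, ← Finset.sum_neg_distrib]
    exact Finset.sum_congr rfl fun j _ => by ring
  rw [← P7_Ce hf] at s3
  rw [← c1] at t3
  simp only [Finset.sum_sub_distrib, P7_tr hf, Finset.sum_const, Finset.card_univ,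
    Fintype.card_fin, nsmul_eq_mul] at s3 t3
  have hen : ⟪S.eta, ν⟫ ^ 2 ≤ S.e2 := by
    have h1 := abs_real_inner_le_norm S.eta ν
    rw [t.hν, mul_one] at h1
    rw [← sq_abs]
    exact pow_le_pow_left₀ (abs_nonneg _) h1 2
  have hmu : 0 ≤ p.mu1 * ((a + b) / 2) / 2 := by
    have h1 := t.s_nonneg
    have h2 := p.mu0_pos
    unfold Par.mu1
    positivity
  have hd := t.d_eq
  have he := t.en_le
  have hphi := t.eq
  set y := p.y S.e2 S.u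
  set en := ⟪S.eta, ν⟫
  have he2 : (en - (a + b) / 2) ^ 2 ≤ ((a - b) / 2) ^ 2 := by
    rw [← sq_abs]
    exact pow_le_pow_left₀ (abs_nonneg _) he 2
  have d1 : ((a - b) / 2) ^ 2 ≤ ((a + b) / 2) ^ 2 / 2 + y := by
    refine le_of_mul_le_mul_left ?_ (show 0 < 1 + p.Z by linarith)
    nlinarith [mul_le_mul_of_nonneg_right hZ1 (sq_nonneg ((a + b) / 2))]
  have d2 : ((a + b) / 2) ^ 2 ≤ 12 * en ^ 2 + 4 * y := by
    nlinarith [sq_nonneg ((a + b) / 2 - 4 * en)]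
  have d3 : (1 + p.Z) * (a - b) ^ 2 ≤ 48 * p.Z * en ^ 2 + 24 * y := by
    nlinarith [mul_le_mul_of_nonneg_left d2 hZ, mul_le_mul_of_nonneg_right hZ1 hy]
  have pos : 0 < (1 + p.Z) * (a - b) := mul_pos (by linarith) (by linarith)
  have r1 := (le_div_iff₀ pos).2 (P7_rem hZ hZ1 hy hen d3 s0 s1 s2)
  have r2 := (le_div_iff₀ pos).2 (P7_rem hZ hZ1 hy hen d3 t0 t1 t2)
  have r3 : (p.Pa a b - p.Pb a b) *
      ((1680 * (p.Z * y * S.e2) + 600 * y ^ 2) / ((1 + p.Z) * (a - b))) =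
      4 * (1680 * (p.Z * y * S.e2) + 600 * y ^ 2) := by
    have : p.Pa a b - p.Pb a b = 4 * ((1 + p.Z) * (a - b)) := by
      unfold Par.Pa Par.Pb
      ring
    rw [this, mul_assoc, mul_div_cancel₀ _ pos.ne']
  have r4 : 8 * p.Y + 2 * p.E S.e2 S.u - p.mu1 * (a + b) - en * (2 * p.mu1 - 4 * p.Z * (a + b)) =
      p.Pa a b * (a - en) + -p.Pb a b * (en - b) := by
    unfold Par.Phi at hphi
    unfold Par.Pa Par.Pb
    linear_combination -2 * hphi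
  have u1 := mul_le_mul_of_nonneg_left (s3.trans (by linarith :
    _ ≤ y * (n * a - n * en) + (1680 * (p.Z * y * S.e2) + 600 * y ^ 2) / ((1 + p.Z) * (a - b))))
    hPa.le
  have u2 := mul_le_mul_of_nonneg_left (t3.trans (by linarith :
    _ ≤ y * (n * en - n * b) + (1680 * (p.Z * y * S.e2) + 600 * y ^ 2) / ((1 + p.Z) * (a - b))))
    (neg_pos.2 hPb).le
  have u3 : 0 ≤ p.Z * y * S.e2 := mul_nonneg (mul_nonneg hZ hy) ((sq_nonneg _).trans hen)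
  rw [r4]
  nlinarith [sq_nonneg y]

end SF

end Pool.Agent.Lib.MP_de485e_gt.Hi
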