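import Mathlib

/-! Orthogonal projections: distance and limits. -/

open Filter Topology
open scoped RealInnerProductSpace

namespace Pool.Agent.Lib.MP_de485e_gt.Hi

variable {Q : Type} [NormedAddCommGroup Q] [InnerProductSpace ℝ Q] [FiniteDimensional ℝ Q]

/-- `π - π' = (1 - π') π - π' (1 - π)` and the adjoint of the last term is `(1 - π) π'`. -/
theorem proj_close (V V' : Submodule ℝ Q) {δ : ℝ} (hδ : 0 ≤ δ)
    (h : ∀ w ∈ V, ‖w - V'.starProjection w‖ ≤ δ * ‖w‖)
    (h' : ∀ w ∈ V', ‖w - V.starProjection w‖ ≤ δ * ‖w‖) :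
    ‖V.starProjection - V'.starProjection‖ ≤ 2 * δ := by
  refine ContinuousLinearMap.opNorm_le_bound _ (by positivity) fun w => ?_
  have h1 : ‖V.starProjection w - V'.starProjection (V.starProjection w)‖ ≤ δ * ‖w‖ :=
    (h _ (V.starProjection_apply_mem w)).trans
      (mul_le_mul_of_nonneg_left (V.norm_starProjection_apply_le w) hδ)
  have h2 : ‖V'.starProjection (w - V.starProjection w)‖ ≤ δ * ‖w‖ := by
    obtain ⟨u, hu⟩ : ∃ u, u = V'.starProjection (w - V.starProjection w) := ⟨_, rfl⟩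
    have hm : u ∈ V' := hu ▸ V'.starProjection_apply_mem _
    rw [← hu]
    have e1 : ‖u‖ ^ 2 = ⟪u - V.starProjection u, w⟫ := by
      rw [← real_inner_self_eq_norm_sq]
      calc ⟪u, u⟫ = ⟪V'.starProjection u, w - V.starProjection w⟫ := by
            rw [V'.inner_starProjection_left_eq_right, ← hu]
        _ = ⟪u, w - V.starProjection w⟫ := by rw [Submodule.starProjection_eq_self_iff.2 hm]
        _ = _ := by
            rw [inner_sub_right, inner_sub_left, V.inner_starProjection_left_eq_right]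
    have e2 : ‖u‖ ^ 2 ≤ δ * ‖u‖ * ‖w‖ := by
      rw [e1]
      exact (real_inner_le_norm _ _).trans (mul_le_mul_of_nonneg_right (h' u hm) (norm_nonneg w))
    rcases (norm_nonneg u).eq_or_lt with h0 | h0
    · rw [← h0]; positivity
    · refine le_of_mul_le_mul_right ?_ h0
      nlinarith
  have e : (V.starProjection - V'.starProjection) w
      = (V.starProjection w - V'.starProjection (V.starProjection w))
        - V'.starProjection (w - V.starProjection w) := by
    rw [sub_apply, map_sub]; abel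
  rw [e]
  refine (norm_sub_le _ _).trans ?_
  linarith

/-- A symmetric idempotent is the orthogonal projection on its range. -/
theorem exists_proj (L : Q →L[ℝ] Q) (hs : ∀ w w', ⟪L w, w'⟫ = ⟪w, L w'⟫) (hi : ∀ w, L (L w) = L w) :
    L = (LinearMap.range L.toLinearMap).starProjection := by
  ext w
  refine (Submodule.eq_starProjection_of_mem_of_inner_eq_zero
    (K := LinearMap.range L.toLinearMap) ⟨w, rfl⟩ ?_).symm
  rintro _ ⟨z, rfl⟩
  change ⟪w - L w, L z⟫ = 0
  rw [← hs, map_sub, hi, sub_self, inner_zero_left]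

theorem Proj_le (V V' : Submodule ℝ Q) (h : ‖V.starProjection - V'.starProjection‖ < 1) :
    Module.finrank ℝ V ≤ Module.finrank ℝ V' := by
  let f : V →ₗ[ℝ] V' :=
    (V'.starProjection.toLinearMap.comp V.subtype).codRestrict V'
      fun v => V'.starProjection_apply_mem _
  refine LinearMap.finrank_le_finrank_of_injective (f := f) ?_
  rw [injective_iff_map_eq_zero]
  intro v hv
  have h0 : V'.starProjection (v : Q) = 0 := congrArg Subtype.val hv
  have h1 := (V.starProjection - V'.starProjection).le_opNorm (v : Q)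
  rw [sub_apply, h0, sub_zero, Submodule.starProjection_eq_self_iff.2 v.2] at h1
  have h2 : ‖(v : Q)‖ = 0 := by
    by_contra hne
    have h3 : 0 < ‖(v : Q)‖ := (norm_nonneg _).lt_of_ne' hne
    nlinarith
  exact Subtype.ext (norm_eq_zero.1 h2)

theorem finrank_eq_of_close (V V' : Submodule ℝ Q)
    (h : ‖V.starProjection - V'.starProjection‖ < 1) :
    Module.finrank ℝ V = Module.finrank ℝ V' := by
  refine le_antisymm (Proj_le V V' h) (Proj_le V' V ?_)
  rwa [norm_sub_rev]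

theorem proj_limit {α : Type} {l : Filter α} [l.NeBot] {E : α → Q →L[ℝ] Q} {L : Q →L[ℝ] Q} {k : ℕ}
    (hE : ∀ᶠ i in l, ∃ V : Submodule ℝ Q, Module.finrank ℝ V = k ∧ E i = V.starProjection)
    (hL : Tendsto E l (𝓝 L)) :
    ∃ V : Submodule ℝ Q, Module.finrank ℝ V = k ∧ L = V.starProjection := by
  have hap : ∀ w, Tendsto (fun i => E i w) l (𝓝 (L w)) := fun w =>
    ((ContinuousLinearMap.apply ℝ Q w).continuous.tendsto L).comp hL
  have hs : ∀ w w', ⟪L w, w'⟫ = ⟪w, L w'⟫ := by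
    intro w w'
    have t1 : Tendsto (fun i => ⟪E i w, w'⟫) l (𝓝 ⟪L w, w'⟫) := (hap w).inner tendsto_const_nhds
    have t2 : Tendsto (fun i => ⟪w, E i w'⟫) l (𝓝 ⟪w, L w'⟫) := tendsto_const_nhds.inner (hap w')
    refine tendsto_nhds_unique_of_eventuallyEq t1 t2 ?_
    filter_upwards [hE] with i ⟨V, _, hV⟩
    rw [hV, Submodule.inner_starProjection_left_eq_right]
  have hi : ∀ w, L (L w) = L w := by
    intro w
    have t1 : Tendsto (fun i => E i (E i w)) l (𝓝 (L (L w))) :=
      (isBoundedBilinearMap_apply.continuous.tendsto (L, L w)).comp (hL.prodMk_nhds (hap w))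
    refine tendsto_nhds_unique_of_eventuallyEq t1 (hap w) ?_
    filter_upwards [hE] with i ⟨V, _, hV⟩
    rw [hV, Submodule.starProjection_eq_self_iff.2 (V.starProjection_apply_mem w)]
  have hP := exists_proj L hs hi
  refine ⟨_, ?_, hP⟩
  obtain ⟨i, ⟨V, hk, hV⟩, h1⟩ := (hE.and (Metric.tendsto_nhds.1 hL 1 one_pos)).exists
  rw [dist_eq_norm, hV, hP] at h1
  rw [← hk]
  exact (finrank_eq_of_close _ _ h1).symm

/-- The component of `t` orthogonal to `g` is large. -/
theorem radial_point (g y t T : Q) {r s : ℝ} (hs : 0 < s) (hy : ‖y‖ = s)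
    (hgy : ‖g - y‖ ≤ s / 8) (htT : ‖t - T‖ ≤ ‖T‖ / 8) (hyT : ⟪y, T⟫ = 0)
    (hr : ⟪g, t - r • g⟫ = 0) : ‖T‖ ≤ 2 * ‖t - r • g‖ := by
  have hT := norm_nonneg T
  have hg : 7 / 8 * s ≤ ‖g‖ := by
    have := norm_sub_norm_le y g
    rw [norm_sub_rev] at this
    linarith
  have hg0 : 0 < ‖g‖ := by linarith
  have ht : ‖t‖ ≤ 9 / 8 * ‖T‖ := by
    have := norm_sub_norm_le t T
    linarith
  have h1 : r * ‖g‖ ^ 2 = ⟪g - y, t⟫ + ⟪y, t - T⟫ := by
    rw [inner_sub_right, real_inner_smul_right, real_inner_self_eq_norm_sq] at hr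
    rw [inner_sub_left, inner_sub_right, hyT]
    linarith
  have h2 : |⟪g - y, t⟫| ≤ s / 8 * (9 / 8 * ‖T‖) :=
    (abs_real_inner_le_norm _ _).trans (mul_le_mul hgy ht (norm_nonneg _) (by positivity))
  have h3 : |⟪y, t - T⟫| ≤ s * (‖T‖ / 8) :=
    (abs_real_inner_le_norm _ _).trans (mul_le_mul hy.le htT (norm_nonneg _) hs.le)
  have h4 : |r| * ‖g‖ * ‖g‖ ≤ 17 / 64 * (s * ‖T‖) := by
    have : |r * ‖g‖ ^ 2| ≤ 17 / 64 * (s * ‖T‖) := by
      rw [h1]
      exact (abs_add_le _ _).trans (by linarith)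
    rw [abs_mul, abs_of_nonneg (sq_nonneg ‖g‖)] at this
    linarith
  have h5 : |r| * ‖g‖ ≤ 17 / 56 * ‖T‖ := by
    refine le_of_mul_le_mul_right (h4.trans ?_) hg0
    nlinarith [mul_le_mul_of_nonneg_right hg hT]
  have h6 : ‖T‖ ≤ ‖t - r • g‖ + ‖r • g‖ + ‖t - T‖ := by
    have e : T = (t - r • g) + r • g - (t - T) := by abel
    calc ‖T‖ = ‖(t - r • g) + r • g - (t - T)‖ := congrArg _ e
      _ ≤ ‖(t - r • g) + r • g‖ + ‖t - T‖ := norm_sub_le _ _
      _ ≤ _ := by gcongr; exact norm_add_le _ _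
  rw [norm_smul, Real.norm_eq_abs] at h6
  linarith

/-- A function whose derivative has an integrable bound near a finite time. -/
theorem cauchy_pow {X : Type} [NormedAddCommGroup X] [NormedSpace ℝ X] (f : ℝ → X)
    {A σ a T : ℝ} (hA : 0 ≤ A) (hσ : 0 < σ)
    (hf : ∀ t ∈ Set.Ioo a T, ∃ f', HasDerivAt f f' t ∧ ‖f'‖ ≤ A * (T - t) ^ (σ - 1)) {s t : ℝ}
    (hs : a < s) (hst : s ≤ t) (ht : t < T) : ‖f t - f s‖ ≤ A / σ * (T - s) ^ σ := by
  choose! f' hf' using hf
  have hm : ∀ x ∈ Set.Icc s t, x ∈ Set.Ioo a T := fun x hx => ⟨hs.trans_le hx.1, hx.2.trans_lt ht⟩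
  have hB : ∀ x ∈ Set.Icc s t, HasDerivAt
      (fun τ : ℝ => A / σ * ((T - s) ^ σ - (T - τ) ^ σ)) (A * (T - x) ^ (σ - 1)) x := by
    intro x hx
    have h0 : T - x ≠ 0 := (sub_pos.2 (hm x hx).2).ne'
    have h1 : HasDerivAt (fun τ : ℝ => T - τ) (-1) x := (hasDerivAt_id x).const_sub T
    have h2 := ((h1.rpow_const (p := σ) (Or.inl h0)).const_sub ((T - s) ^ σ)).const_mul (A / σ)
    refine h2.congr_deriv ?_
    field_simp
  have h3 := image_norm_le_of_norm_deriv_right_le_deriv_boundary'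
    (f := fun τ => f τ - f s) (f' := f') (a := s) (b := t)
    (B := fun τ : ℝ => A / σ * ((T - s) ^ σ - (T - τ) ^ σ))
    (B' := fun x : ℝ => A * (T - x) ^ (σ - 1))
    (fun x hx => ((hf' x (hm x hx)).1.sub_const (f s)).continuousAt.continuousWithinAt)
    (fun x hx => ((hf' x (hm x (Set.Ico_subset_Icc_self hx))).1.sub_const (f s)).hasDerivWithinAt)
    (by simp) (fun x hx => (hB x hx).continuousAt.continuousWithinAt)
    (fun x hx => (hB x (Set.Ico_subset_Icc_self hx)).hasDerivWithinAt)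
    (fun x hx => (hf' x (hm x (Set.Ico_subset_Icc_self hx))).2) ⟨hst, le_rfl⟩
  refine h3.trans (mul_le_mul_of_nonneg_left ?_ (by positivity))
  have h4 : 0 ≤ (T - t) ^ σ := Real.rpow_nonneg (sub_pos.2 ht).le σ
  linarith

/-- A function whose derivative decays exponentially. -/
theorem limit_exp {X : Type} [NormedAddCommGroup X] [NormedSpace ℝ X] [CompleteSpace X]
    (f : ℝ → X) {A c t₀ : ℝ} (hA : 0 ≤ A) (hc : 0 < c)
    (hf : ∀ t, t₀ ≤ t → ∃ f', HasDerivAt f f' t ∧ ‖f'‖ ≤ A * Real.exp (-(c * t))) :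
    ∃ l, ∀ s, t₀ ≤ s → ‖l - f s‖ ≤ A / c * Real.exp (-(c * s)) := by
  choose! f' hf' using hf
  have key : ∀ s, t₀ ≤ s → ∀ t, s ≤ t → ‖f t - f s‖ ≤ A / c * Real.exp (-(c * s)) := by
    intro s hs t hst
    have hB : ∀ x : ℝ, HasDerivAt
        (fun τ : ℝ => A / c * (Real.exp (-(c * s)) - Real.exp (-(c * τ))))
        (A * Real.exp (-(c * x))) x := by
      intro x
      have h1 : HasDerivAt (fun τ : ℝ => -(c * τ)) (-(c * 1)) x :=
        ((hasDerivAt_id x).const_mul c).neg
      have h2 := (h1.exp.const_sub (Real.exp (-(c * s)))).const_mul (A / c)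
      refine h2.congr_deriv ?_
      field_simp
    have h3 := image_norm_le_of_norm_deriv_right_le_deriv_boundary
      (f := fun τ => f τ - f s) (f' := f') (a := s) (b := t)
      (fun x hx => ((hf' x (hs.trans hx.1)).1.sub_const (f s)).continuousAt.continuousWithinAt)
      (fun x hx => ((hf' x (hs.trans hx.1)).1.sub_const (f s)).hasDerivWithinAt)
      (by simp) hB (fun x hx => (hf' x (hs.trans hx.1)).2) ⟨hst, le_rfl⟩
    refine h3.trans (mul_le_mul_of_nonneg_left ?_ (by positivity))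
    linarith [Real.exp_pos (-(c * t))]
  have hsm : Tendsto (fun t : ℝ => A / c * Real.exp (-(c * t))) atTop (𝓝 0) := by
    have h1 : Tendsto (fun t : ℝ => Real.exp (-(c * t))) atTop (𝓝 0) :=
      Real.tendsto_exp_neg_atTop_nhds_zero.comp (tendsto_id.const_mul_atTop hc)
    simpa using h1.const_mul (A / c)
  have hcs : CauchySeq f := by
    refine Metric.cauchySeq_iff'.2 fun ε hε => ?_
    obtain ⟨s, h1, h2⟩ := ((hsm.eventually (gt_mem_nhds hε)).and (eventually_ge_atTop t₀)).exists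
    exact ⟨s, fun t ht => by rw [dist_eq_norm]; exact (key s h2 t ht).trans_lt h1⟩
  obtain ⟨l, hl⟩ := cauchySeq_tendsto_of_complete hcs
  refine ⟨l, fun s hs => ?_⟩
  exact le_of_tendsto (hl.sub_const (f s)).norm
    ((eventually_ge_atTop s).mono fun t ht => key s hs t ht)

end Pool.Agent.Lib.MP_de485e_gt.Hi
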