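import Mathlib

/-! Extrinsic calculus of a moving submanifold of the unit sphere, any codimension. -/

namespace Pool.Agent.Lib.MP_de485e_gt.Hi

variable (ι : Type) [Fintype ι] (R : Type) [CommRing R] [Algebra ℝ R]

/-- Tangential projector, position, Euclidean second fundamental form and its covariant
derivative, as arrays in an orthonormal basis of the ambient space. -/
structure Arr where
  n : ℕ
  P : ι → ι → R
  F : ι → R
  T : ι → ι → ι → R
  B : ι → ι → ι → ι → R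

variable {ι R}

namespace Arr

variable (X : Arr ι R)

def Tan (f : ι → R) : Prop := ∀ a, ∑ b, X.P a b * f b = f a

def Nrm (f : ι → R) : Prop := ∀ a, ∑ b, X.P a b * f b = 0

def HH (c : ι) : R := ∑ a, X.T a a c

def W : R := ∑ c, X.HH c * X.HH c

def a2 : R := ∑ a, ∑ b, ∑ c, X.T a b c * X.T a b c

noncomputable def u : R := X.a2 - (X.n : ℝ)⁻¹ • X.W

noncomputable def e2 : R := ((X.n : ℝ) ^ 2)⁻¹ • X.W - 1

def M (a d : ι) : R := ∑ b, ∑ e, X.T a b e * X.T d b e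

def G (c e : ι) : R := ∑ a, ∑ b, X.T a b c * X.T a b e

def J : R := ∑ a, ∑ b, ∑ d, ∑ f, (∑ c, X.T a b c * X.T d f c) * ∑ e, X.T a d e * X.T b f e

noncomputable def T0 (a b c : ι) : R := X.T a b c - (X.n : ℝ)⁻¹ • (X.P a b * X.HH c)

noncomputable def AH (a b : ι) : R := ∑ c, X.T0 a b c * X.HH c

noncomputable def zeta : R := ((X.n : ℝ) ^ 3)⁻¹ • ∑ a, ∑ b, X.AH a b * X.AH a b

noncomputable def G0 (c e : ι) : R := ∑ a, ∑ b, X.T0 a b c * X.T0 a b e

noncomputable def G2 : R := ∑ c, ∑ e, X.G0 c e * X.G0 c e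

noncomputable def M0 (a d : ι) : R := ∑ b, ∑ e, X.T0 a b e * X.T0 d b e

noncomputable def J0 : R :=
  ∑ a, ∑ b, ∑ d, ∑ f, (∑ c, X.T0 a b c * X.T0 d f c) * ∑ e, X.T0 a d e * X.T0 b f e

noncomputable def CC : R := 2 * (∑ a, ∑ d, X.M0 a d * X.M0 a d) - 2 * X.J0

/-- The Simons term. -/
noncomputable def Zs : R :=
  X.n * ((1 + X.e2) * X.u) + (∑ a, ∑ d, X.AH a d * X.M0 a d) - X.G2 - X.CC

/-- Reaction term of `u`. -/
noncomputable def Ru : R := 2 * X.G2 + 2 * ((X.n : R) ^ 2 * X.zeta) + 2 * X.CC - 2 * (X.n * X.u)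

/-- Reaction term of `e2`. -/
noncomputable def Re : R := 2 * (X.n * (X.e2 * X.e2 + X.zeta + X.e2))

def v : R := ∑ k, ∑ a, ∑ b, ∑ c, X.B k a b c * X.B k a b c

def Bt (k c : ι) : R := ∑ a, X.B k a a c

def gH : R := ∑ k, ∑ c, X.Bt k c * X.Bt k c

/-- The algebraic identities. -/
structure Good : Prop where
  hn : 2 ≤ X.n
  Psymm : ∀ a b, X.P a b = X.P b a
  PP : ∀ a b, ∑ c, X.P a c * X.P c b = X.P a b
  trP : ∑ a, X.P a a = X.n
  FF : ∑ a, X.F a * X.F a = 1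
  Fnor : X.Nrm X.F
  Tsymm : ∀ a b c, X.T a b c = X.T b a c
  Ttan : ∀ b c, X.Tan fun a => X.T a b c
  Tnor : ∀ a b, X.Nrm (X.T a b)
  TF : ∀ a b, ∑ c, X.T a b c * X.F c = -X.P a b
  B12 : ∀ k a b c, X.B k a b c = X.B a k b c
  B23 : ∀ k a b c, X.B k a b c = X.B k b a c
  Btan : ∀ a b c, X.Tan fun k => X.B k a b c
  Bnor : ∀ k a b, X.Nrm (X.B k a b)
  BF : ∀ k a b, ∑ c, X.B k a b c * X.F c = 0

/-- Image under an algebra map. -/
def map {R' : Type} [CommRing R'] [Algebra ℝ R'] (φ : R →ₐ[ℝ] R') : Arr ι R' :=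
  ⟨X.n, fun a b => φ (X.P a b), fun a => φ (X.F a), fun a b c => φ (X.T a b c),
    fun k a b c => φ (X.B k a b c)⟩

end Arr

variable (ι R) in
/-- The mean curvature flow in the unit sphere as a ring with derivations. -/
structure QA where
  n : ℕ
  hn : 2 ≤ n
  D : ι → Derivation ℝ R R
  dt : Derivation ℝ R R
  F : ι → R
  FF : ∑ a, F a * F a = 1
  Psymm : ∀ a b, D a (F b) = D b (F a)
  trP : ∑ a, D a (F a) = n
  PD : ∀ a g, ∑ b, D a (F b) * D b g = D a g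
  comm : ∀ a b g, D a (D b g) - D b (D a g) = ∑ d, (D a (D b (F d)) - D b (D a (F d))) * D d g
  dtF : ∀ c, dt (F c) = ∑ a, D a (D a (F c)) + n * F c
  commt : ∀ a g, dt (D a g) - D a (dt g) = ∑ d, (dt (D a (F d)) - D a (dt (F d))) * D d g

namespace QA

variable (S : QA ι R)

def P (a b : ι) : R := S.D a (S.F b)

def T (a b c : ι) : R := S.D a (S.P b c) - ∑ d, S.P c d * S.D a (S.P b d)

def B (k a b c : ι) : R :=
  S.D k (S.T a b c) - ∑ e, S.T k e a * S.T e b c - ∑ e, S.T k e b * S.T a e c +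
    ∑ e, S.T k c e * S.T a b e

def arr : Arr ι R := ⟨S.n, S.P, S.F, S.T, S.B⟩

def q : R := ∑ m, ∑ k, ∑ a, ∑ b, ∑ c, S.D m (S.B k a b c) * S.D m (S.B k a b c)

def Lap (g : R) : R := ∑ a, S.D a (S.D a g)

def grad (g h : R) : R := ∑ a, S.D a g * S.D a h

/-- The heat operator. -/
def L (g : R) : R := S.dt g - S.Lap g

/-- First and second order conditions at a first touching point. -/
def Touch (ev : R →ₐ[ℝ] ℝ) (g : R) : Prop := (∀ a, ev (S.D a g) = 0) ∧ 0 ≤ ev (S.L g)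

/-- The values at a point. -/
def pt (ev : R →ₐ[ℝ] ℝ) : Arr ι ℝ := S.arr.map ev

end QA

end Pool.Agent.Lib.MP_de485e_gt.Hi
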