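import Pool.Agent.Lib.MP_de485e_gt.Hi.A1

/-! The projector, the second fundamental form and the commutators. -/

namespace Pool.Agent.Lib.MP_de485e_gt.Hi.QA

variable {ι : Type} [Fintype ι] {R : Type} [CommRing R] [Algebra ℝ R] (S : QA ι R)

theorem P_symm (a b : ι) : S.P a b = S.P b a := S.Psymm a b

theorem PP (a b : ι) : ∑ c, S.P a c * S.P c b = S.P a b := S.PD a (S.F b)

theorem D_tan (g : R) : S.arr.Tan fun a => S.D a g := fun a => S.PD a g

private theorem tanI {f : ι → R} (h : ∀ a, ∑ b, S.P a b * f b = f a) : S.arr.Tan f := h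

private theorem nrmI {f : ι → R} (h : ∀ a, ∑ b, S.P a b * f b = 0) : S.arr.Nrm f := h

variable {S} in
private theorem tanE {f : ι → R} (h : S.arr.Tan f) (a : ι) : ∑ b, S.P a b * f b = f a := h a

variable {S} in
private theorem nrmE {f : ι → R} (h : S.arr.Nrm f) (a : ι) : ∑ b, S.P a b * f b = 0 := h a

variable {S} in
private theorem tn {f g : ι → R} (hf : S.arr.Tan f) (hg : S.arr.Nrm g) : ∑ a, f a * g a = 0 :=
  Arr.tan_nrm S.P_symm hf hg

variable {S} in
private theorem nt {f g : ι → R} (hf : S.arr.Nrm f) (hg : S.arr.Tan g) : ∑ a, f a * g a = 0 :=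
  (Finset.sum_congr rfl fun _ _ => mul_comm _ _).trans (tn hg hf)

variable {S} in
private theorem tan_add {f g : ι → R} (hf : S.arr.Tan f) (hg : S.arr.Tan g) :
    S.arr.Tan fun a => f a + g a := S.tanI fun a => by
  simp only [mul_add, Finset.sum_add_distrib, tanE hf, tanE hg]

variable {S} in
private theorem tan_sub {f g : ι → R} (hf : S.arr.Tan f) (hg : S.arr.Tan g) :
    S.arr.Tan fun a => f a - g a := S.tanI fun a => by
  simp only [mul_sub, Finset.sum_sub_distrib, tanE hf, tanE hg]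

variable {S} in
private theorem nrm_sub {f g : ι → R} (hf : S.arr.Nrm f) (hg : S.arr.Nrm g) :
    S.arr.Nrm fun a => f a - g a := S.nrmI fun a => by
  simp only [mul_sub, Finset.sum_sub_distrib, nrmE hf, nrmE hg, sub_self]

variable {S} in
private theorem tan_suml {f : ι → ι → R} (hf : ∀ e, S.arr.Tan fun a => f a e) (g : ι → R) :
    S.arr.Tan fun a => ∑ e, g e * f a e := S.tanI fun a => by
  simp only [Finset.mul_sum]
  rw [Finset.sum_comm]
  refine Finset.sum_congr rfl fun e _ => ?_
  rw [← tanE (hf e) a, Finset.mul_sum]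
  exact Finset.sum_congr rfl fun b _ => mul_left_comm _ _ _

variable {S} in
private theorem tan_sumr {f : ι → ι → R} (hf : ∀ e, S.arr.Tan fun a => f a e) (g : ι → R) :
    S.arr.Tan fun a => ∑ e, f a e * g e := by
  simpa only [mul_comm] using tan_suml hf g

variable {S} in
private theorem nrm_suml {f : ι → ι → R} (hf : ∀ e, S.arr.Nrm fun a => f a e) (g : ι → R) :
    S.arr.Nrm fun a => ∑ e, g e * f a e := S.nrmI fun a => by
  simp only [Finset.mul_sum]
  rw [Finset.sum_comm]
  refine Finset.sum_eq_zero fun e _ => ?_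
  rw [← mul_zero (g e), ← nrmE (hf e) a, Finset.mul_sum]
  exact Finset.sum_congr rfl fun b _ => mul_left_comm _ _ _

private theorem tan_P (f : ι → R) : S.arr.Tan fun a => ∑ e, S.P a e * f e :=
  tan_sumr (f := fun a e => S.P a e) (fun e => S.tanI fun a => S.PP a e) f

private theorem nrm_P (f : ι → R) : S.arr.Nrm fun a => f a - ∑ e, S.P a e * f e :=
  S.nrmI fun a => by
    simp only [mul_sub, Finset.sum_sub_distrib, tanE (S.tan_P f), sub_self]

private theorem D_sum (k : ι) (f g : ι → R) :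
    S.D k (∑ e, f e * g e) = ∑ e, f e * S.D k (g e) + ∑ e, S.D k (f e) * g e := by
  rw [map_sum, ← Finset.sum_add_distrib]
  refine Finset.sum_congr rfl fun e _ => ?_
  rw [Derivation.leibniz, smul_eq_mul, smul_eq_mul, mul_comm (g e)]

/-- Differentiate `FF`; `2` is invertible. -/
theorem F_nrm : S.arr.Nrm S.F := S.nrmI fun a => by
  have h := S.D_sum a S.F S.F
  rw [S.FF, Derivation.map_one_eq_zero] at h
  have h1 : ∑ e, S.F e * S.D a (S.F e) = ∑ b, S.P a b * S.F b :=
    Finset.sum_congr rfl fun _ _ => mul_comm _ _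
  have h2 : (2 : ℝ) • ∑ b, S.P a b * S.F b = 0 := by
    rw [two_smul]
    rw [h1] at h
    exact h.symm
  rw [← one_smul ℝ (∑ b, S.P a b * S.F b), ← inv_mul_cancel₀ (two_ne_zero (α := ℝ)), mul_smul, h2,
    smul_zero]

theorem nrm_D {f : ι → R} (hf : S.arr.Nrm f) (g : R) : ∑ a, f a * S.D a g = 0 :=
  nt hf (S.D_tan g)

theorem T_nrm (a b : ι) : S.arr.Nrm (S.T a b) := S.nrm_P fun c => S.D a (S.P b c)

theorem T_tan (b c : ι) : S.arr.Tan fun a => S.T a b c :=
  tan_sub (S.D_tan _) (tan_suml (f := fun a d => S.D a (S.P b d)) (fun _ => S.D_tan _) _)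

/-- `comm` applied to `F c`. -/
theorem T_symm (a b c : ι) : S.T a b c = S.T b a c := by
  have h : S.D a (S.P b c) - S.D b (S.P a c) =
      ∑ d, (S.D a (S.P b d) - S.D b (S.P a d)) * S.P d c := S.comm a b (S.F c)
  have h1 : ∑ d, (S.D a (S.P b d) - S.D b (S.P a d)) * S.P d c =
      ∑ d, S.P c d * S.D a (S.P b d) - ∑ d, S.P c d * S.D b (S.P a d) := by
    rw [← Finset.sum_sub_distrib]
    refine Finset.sum_congr rfl fun d _ => ?_
    rw [S.P_symm d c]
    ring
  unfold T
  linear_combination h + h1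

theorem T_tan' (a c : ι) : S.arr.Tan fun b => S.T a b c := by
  simpa only [S.T_symm a] using S.T_tan a c

theorem D_P (a b c : ι) : S.D a (S.P b c) = S.T a b c + S.T a c b := by
  have h := S.D_sum a (fun d => S.P b d) fun d => S.P d c
  rw [S.PP] at h
  have h1 : ∑ d, S.P b d * S.D a (S.P d c) = ∑ d, S.P b d * S.D a (S.P c d) :=
    Finset.sum_congr rfl fun d _ => by rw [S.P_symm d c]
  have h2 : ∑ d, S.D a (S.P b d) * S.P d c = ∑ d, S.P c d * S.D a (S.P b d) :=
    Finset.sum_congr rfl fun d _ => by rw [S.P_symm d c, mul_comm]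
  unfold T
  rw [S.P_symm c b]
  linear_combination -h - h1 - h2

private theorem DP_sum (k a : ι) (f : ι → R) :
    ∑ e, S.D k (S.P a e) * f e = ∑ e, S.T k a e * f e + ∑ e, S.T k e a * f e := by
  simp only [S.D_P, add_mul, Finset.sum_add_distrib]

theorem T_F (a b : ι) : ∑ c, S.T a b c * S.F c = -S.P a b := by
  have h := S.D_sum a (fun c => S.P b c) S.F
  rw [nrmE S.F_nrm, map_zero, S.DP_sum, tn (S.T_tan' a b) S.F_nrm] at h
  have h1 : ∑ e, S.P b e * S.D a (S.F e) = S.P a b := by
    rw [← S.PP a b]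
    exact Finset.sum_congr rfl fun e _ => by rw [S.P_symm b e, mul_comm]; rfl
  linear_combination -h - h1

theorem comm' (a b : ι) (g : R) :
    S.D a (S.D b g) - S.D b (S.D a g) = ∑ d, (S.T a d b - S.T b d a) * S.D d g := by
  rw [S.comm]
  refine Finset.sum_congr rfl fun d _ => ?_
  have h1 : S.D a (S.D b (S.F d)) = _ := S.D_P a b d
  have h2 : S.D b (S.D a (S.F d)) = _ := S.D_P b a d
  rw [h1, h2, S.T_symm a b d]
  ring

theorem Lap_F (c : ι) : S.Lap (S.F c) = S.arr.HH c := by
  have h : ∑ a, S.T a c a = 0 := by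
    have h1 : ∑ a, S.T a c a = ∑ a, ∑ e, S.P a e * S.T e c a :=
      Finset.sum_congr rfl fun a _ => (tanE (S.T_tan c a) a).symm
    rw [h1, Finset.sum_comm]
    refine Finset.sum_eq_zero fun e _ => ?_
    rw [← nrmE (S.T_nrm e c) e]
    exact Finset.sum_congr rfl fun a _ => by rw [S.P_symm a e]
  have h2 : S.Lap (S.F c) = ∑ a, (S.T a a c + S.T a c a) :=
    Finset.sum_congr rfl fun a _ => S.D_P a a c
  rw [h2, Finset.sum_add_distrib, h, add_zero]
  rfl

/-- Derivative of a tangential vector field: its normal part. -/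
theorem D_of_tan {f : ι → R} (hf : S.arr.Tan f) (k a : ι) :
    S.D k (f a) = ∑ e, S.P a e * S.D k (f e) + ∑ e, S.T k e a * f e := by
  have h := S.D_sum k (fun e => S.P a e) f
  rwa [tanE hf, S.DP_sum, nt (S.T_nrm k a) hf, zero_add] at h

/-- Derivative of a normal vector field: its tangential part. -/
theorem D_of_nrm {f : ι → R} (hf : S.arr.Nrm f) (k a : ι) :
    ∑ e, S.P a e * S.D k (f e) = -∑ e, S.T k a e * f e := by
  have h := S.D_sum k (fun e => S.P a e) f
  rw [nrmE hf, map_zero, S.DP_sum, tn (S.T_tan' k a) hf] at h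
  linear_combination -h

theorem D_T (k a b c : ι) : S.D k (S.T a b c) = S.B k a b c + ∑ e, S.T k e a * S.T e b c +
    ∑ e, S.T k e b * S.T a e c - ∑ e, S.T k c e * S.T a b e := by
  unfold B
  ring

theorem B_tan (a b c : ι) : S.arr.Tan fun k => S.B k a b c :=
  tan_add (tan_sub (tan_sub (S.D_tan _)
    (tan_sumr (f := fun k e => S.T k e a) (fun e => S.T_tan e a) _))
    (tan_sumr (f := fun k e => S.T k e b) (fun e => S.T_tan e b) _))
    (tan_sumr (f := fun k e => S.T k c e) (fun e => S.T_tan c e) _)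

theorem B_tan2 (k b c : ι) : S.arr.Tan fun a => S.B k a b c := by
  have h := tan_add (tan_sub (S.tan_P fun e => S.D k (S.T e b c))
    (tan_suml (f := fun a e => S.T a e c) (fun e => S.T_tan e c) fun e => S.T k e b))
    (tan_suml (f := fun a e => S.T a b e) (fun e => S.T_tan b e) fun e => S.T k c e)
  convert h using 2 with a
  unfold B
  rw [S.D_of_tan (S.T_tan b c) k a]
  ring

theorem B_nrm (k a b : ι) : S.arr.Nrm (S.B k a b) := by
  have h := nrm_sub (nrm_sub (S.nrm_P fun c => S.D k (S.T a b c))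
    (nrm_suml (f := fun c e => S.T e b c) (fun e => S.T_nrm e b) fun e => S.T k e a))
    (nrm_suml (f := fun c e => S.T a e c) (fun e => S.T_nrm a e) fun e => S.T k e b)
  convert h using 2 with c
  unfold B
  rw [S.D_of_nrm (S.T_nrm a b) k c]
  ring

theorem B23 (k a b c : ι) : S.B k a b c = S.B k b a c := by
  unfold B
  simp only [S.T_symm a b, S.T_symm _ b c, S.T_symm a _ c]
  ring

omit [Algebra ℝ R] in
private theorem sum_sum (f : ι → R) (g : ι → ι → R) (h : ι → R) :
    ∑ c, (∑ e, f e * g e c) * h c = ∑ e, f e * ∑ c, g e c * h c := by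
  simp only [Finset.sum_mul, Finset.mul_sum, mul_assoc]
  exact Finset.sum_comm

theorem B_F (k a b : ι) : ∑ c, S.B k a b c * S.F c = 0 := by
  have h := S.D_sum k (S.T a b) S.F
  have h0 : ∑ e, S.T a b e * S.D k (S.F e) = 0 :=
    (Finset.sum_congr rfl fun _ _ => mul_comm _ _).trans (nrmE (S.T_nrm a b) k)
  rw [S.T_F, map_neg, S.D_P, h0] at h
  have h1 : ∑ c, (∑ e, S.T k e a * S.T e b c) * S.F c = -S.T k b a := by
    rw [sum_sum _ fun e c => S.T e b c, ← tanE (S.T_tan' k a) b, ← Finset.sum_neg_distrib]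
    refine Finset.sum_congr rfl fun e _ => ?_
    rw [S.T_F, S.P_symm e b]
    ring
  have h2 : ∑ c, (∑ e, S.T k e b * S.T a e c) * S.F c = -S.T k a b := by
    rw [sum_sum _ fun e c => S.T a e c, ← tanE (S.T_tan' k b) a, ← Finset.sum_neg_distrib]
    refine Finset.sum_congr rfl fun e _ => ?_
    rw [S.T_F]
    ring
  have h3 : ∑ c, (∑ e, S.T k c e * S.T a b e) * S.F c = 0 :=
    tn (tan_sumr (f := fun c e => S.T k c e) (fun e => S.T_tan' k e) _) S.F_nrm
  unfold B
  simp only [add_mul, sub_mul, Finset.sum_add_distrib, Finset.sum_sub_distrib]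
  linear_combination -h - h1 - h2 + h3

end Pool.Agent.Lib.MP_de485e_gt.Hi.QA
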