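import Pool.Agent.Lib.MP_de485e_gt.Hi.R2

/-! The heat operator: rules, commutator with the derivations, the projector. -/

namespace Pool.Agent.Lib.MP_de485e_gt.Hi.QA

variable {ι : Type} [Fintype ι] {R : Type} [CommRing R] [Algebra ℝ R] (S : QA ι R)

theorem L_add (g h : R) : S.L (g + h) = S.L g + S.L h := by
  simp only [L, Lap, map_add, Finset.sum_add_distrib]
  ring

theorem L_sub (g h : R) : S.L (g - h) = S.L g - S.L h := by
  simp only [L, Lap, map_sub, Finset.sum_sub_distrib]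
  ring

theorem L_neg (g : R) : S.L (-g) = -S.L g := by
  simp only [L, Lap, map_neg, Finset.sum_neg_distrib]
  ring

theorem L_smul (r : ℝ) (g : R) : S.L (r • g) = r • S.L g := by
  simp only [L, Lap, Derivation.map_smul, smul_sub, Finset.smul_sum]

theorem L_sum {κ : Type} (s : Finset κ) (g : κ → R) :
    S.L (∑ i ∈ s, g i) = ∑ i ∈ s, S.L (g i) := by
  simp only [L, Lap, map_sum, Finset.sum_sub_distrib]
  rw [Finset.sum_comm]

theorem L_alg (r : ℝ) : S.L (algebraMap ℝ R r) = 0 := by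
  simp [L, Lap]

theorem L_one : S.L 1 = 0 := by
  simp [L, Lap]

theorem L_mul (g h : R) : S.L (g * h) = S.L g * h + g * S.L h - 2 * S.grad g h := by
  have e : S.Lap (g * h) = S.Lap g * h + g * S.Lap h + 2 * S.grad g h := by
    simp only [Lap, grad, Finset.mul_sum, Finset.sum_mul, ← Finset.sum_add_distrib]
    refine Finset.sum_congr rfl fun a _ => ?_
    simp only [Derivation.leibniz, map_add, smul_eq_mul]
    ring
  simp only [L, e, Derivation.leibniz, smul_eq_mul]
  ring

theorem L_time {g : R} (hg : ∀ a, S.D a g = 0) : S.L g = S.dt g := by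
  simp [L, Lap, hg]

theorem L_time_mul {g : R} (hg : ∀ a, S.D a g = 0) (h : R) :
    S.L (g * h) = S.dt g * h + g * S.L h := by
  rw [L_mul, S.L_time hg]
  simp [grad, hg]

theorem L_F (c : ι) : S.L (S.F c) = S.n * S.F c := by
  simp only [L, Lap, S.dtF]
  ring

private theorem R3_D_nat (a : ι) (g : R) : S.D a (S.n * g) = S.n * S.D a g := by
  simp [Derivation.leibniz]

private theorem R3_D_dtF (a c : ι) : S.D a (S.dt (S.F c)) =
    S.arr.Bt a c - ∑ e, S.T a c e * S.arr.HH e + S.n * S.P a c := by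
  have e : S.dt (S.F c) = S.arr.HH c + S.n * S.F c := by rw [S.dtF, ← S.Lap_F]; rfl
  rw [e, map_add, S.D_HH, R3_D_nat]
  rfl

/-- contraction of a tangential field with the projector on the right -/
private theorem R3_tan {f : ι → R} (hf : S.arr.Tan f) (c : ι) : ∑ d, f d * S.P d c = f c := by
  rw [← hf c]
  exact Finset.sum_congr rfl fun d _ => by rw [mul_comm, S.P_symm]; rfl

private theorem R3_nrm {f : ι → R} (hf : S.arr.Nrm f) (c : ι) : ∑ d, f d * S.P d c = 0 := by
  rw [← hf c]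
  exact Finset.sum_congr rfl fun d _ => by rw [mul_comm, S.P_symm]; rfl

/-- the trace over a tangential and a normal index vanishes -/
private theorem R3_tr {f : ι → ι → R} (h1 : ∀ c, S.arr.Tan fun b => f b c)
    (h2 : ∀ b, S.arr.Nrm (f b)) : ∑ b, f b b = 0 := by
  have e : ∀ b, f b b = ∑ x, S.P b x * f x b := fun b => (h1 b b).symm
  rw [Finset.sum_congr rfl fun b _ => e b, Finset.sum_comm]
  refine Finset.sum_eq_zero fun x _ => ?_
  rw [← h2 x x]
  exact Finset.sum_congr rfl fun b _ => by rw [S.P_symm]; rfl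

private theorem R3_TH_tan (a : ι) : S.arr.Tan fun d => ∑ e, S.T a d e * S.arr.HH e := by
  intro c
  simp only [Finset.mul_sum]
  rw [Finset.sum_comm]
  refine Finset.sum_congr rfl fun e _ => ?_
  have h : ∑ b, S.arr.P c b * S.T a b e = S.T a c e := S.T_tan' a e c
  rw [← h, Finset.sum_mul]
  exact Finset.sum_congr rfl fun d _ => (mul_assoc _ _ _).symm

/-- `dt P` is symmetric and has no diagonal blocks; `commt` for `F c`. -/
theorem dt_P (a d : ι) : S.dt (S.P a d) = S.arr.Bt a d + S.arr.Bt d a := by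
  have h1 : ∀ a c, S.dt (S.P a c) - ∑ d, S.dt (S.P a d) * S.P d c = S.arr.Bt a c := by
    intro a c
    have e : S.dt (S.P a c) - S.D a (S.dt (S.F c)) =
        ∑ d, (S.dt (S.P a d) - S.D a (S.dt (S.F d))) * S.P d c := S.commt a (S.F c)
    have e1 := R3_nrm S (S.good.Bt_nrm a) c
    have e2 := R3_tan S (R3_TH_tan S a) c
    have e3 := S.PP a c
    simp only [R3_D_dtF, sub_mul, add_mul, mul_assoc, Finset.sum_sub_distrib,
      Finset.sum_add_distrib, ← Finset.mul_sum] at e
    rw [e1, e2, e3] at e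
    linear_combination e
  have h2 := congrArg S.dt (S.PP a d)
  simp only [map_sum, Derivation.leibniz, smul_eq_mul, Finset.sum_add_distrib] at h2
  have h3 : ∑ c, S.P a c * S.dt (S.P c d) = ∑ c, S.dt (S.P d c) * S.P c a :=
    Finset.sum_congr rfl fun c _ => by rw [mul_comm, S.P_symm c d, S.P_symm a c]
  have h4 : ∑ c, S.P c d * S.dt (S.P a c) = ∑ c, S.dt (S.P a c) * S.P c d :=
    Finset.sum_congr rfl fun c _ => mul_comm _ _
  have h5 := h1 a d
  have h6 := h1 d a
  rw [S.P_symm d a] at h6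
  rw [h3, h4] at h2
  linear_combination h5 + h6 + h2

theorem dt_D (a : ι) (g : R) : S.dt (S.D a g) - S.D a (S.dt g) =
    ∑ d, (S.arr.Bt d a + ∑ e, S.T a d e * S.arr.HH e) * S.D d g - S.n * S.D a g := by
  have e : S.dt (S.D a g) - S.D a (S.dt g) =
      ∑ d, (S.dt (S.P a d) - S.D a (S.dt (S.F d))) * S.D d g := S.commt a g
  have e1 : ∑ d, S.P a d * S.D d g = S.D a g := S.PD a g
  rw [e, ← e1, Finset.mul_sum, ← Finset.sum_sub_distrib]
  refine Finset.sum_congr rfl fun d _ => ?_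
  rw [S.dt_P, R3_D_dtF]
  ring

private theorem R3_div1 (d a : ι) :
    ∑ b, S.D b (S.T b d a) = S.arr.Bt d a + S.arr.G d a - S.arr.M a d := by
  have e1 : ∑ b, S.B b b d a = S.arr.Bt d a := S.good.Bt_eq d a
  have e2 : ∑ b, ∑ e, S.T b e b * S.T e d a = 0 := by
    rw [Finset.sum_comm]
    refine Finset.sum_eq_zero fun e _ => ?_
    rw [← Finset.sum_mul, R3_tr S (f := fun b c => S.T b e c) (S.T_tan e) fun b => S.T_nrm b e,
      zero_mul]
  have e3 : ∑ b, ∑ e, S.T b e d * S.T b e a = S.arr.G d a := rfl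
  have e4 : ∑ b, ∑ e, S.T b a e * S.T b d e = S.arr.M a d :=
    Finset.sum_congr rfl fun b _ => Finset.sum_congr rfl fun e _ => by
      rw [S.T_symm b a, S.T_symm b d]; rfl
  simp only [S.D_T, Finset.sum_add_distrib, Finset.sum_sub_distrib]
  rw [e1, e2, e3, e4, add_zero]

private theorem R3_div2 (a d : ι) :
    ∑ b, S.D b (S.T a d b) = -∑ e, S.T a d e * S.arr.HH e := by
  have e1 : ∑ b, S.B b a d b = 0 :=
    R3_tr S (f := fun b c => S.B b a d c) (S.B_tan a d) fun b => S.B_nrm b a d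
  have e2 : ∑ b, ∑ e, S.T b e a * S.T e d b = 0 := by
    rw [Finset.sum_comm]
    exact Finset.sum_eq_zero fun e _ => S.good.tn (S.T_tan e a) (S.T_nrm e d)
  have e3 : ∑ b, ∑ e, S.T b e d * S.T a e b = 0 := by
    rw [Finset.sum_comm]
    exact Finset.sum_eq_zero fun e _ => S.good.tn (S.T_tan e d) (S.T_nrm a e)
  have e4 : ∑ b, ∑ e, S.T b b e * S.T a d e = ∑ e, S.T a d e * S.arr.HH e := by
    rw [Finset.sum_comm]
    exact Finset.sum_congr rfl fun e _ => by rw [← Finset.sum_mul, mul_comm]; rfl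
  simp only [S.D_T, Finset.sum_add_distrib, Finset.sum_sub_distrib]
  rw [e1, e2, e3, e4]
  ring

private theorem R3_TDD (a : ι) (g : R) :
    ∑ b, ∑ d, S.T a d b * S.D d (S.D b g) = ∑ e, S.arr.M a e * S.D e g := by
  have e : ∀ d, ∑ b, S.T a d b * S.D d (S.D b g) =
      ∑ e, (∑ b, S.T a d b * S.T e d b) * S.D e g := by
    intro d
    have e1 : ∑ b, S.T a d b * ∑ e, S.P b e * S.D d (S.D e g) = 0 := by
      simp only [Finset.mul_sum, ← mul_assoc]
      rw [Finset.sum_comm]
      refine Finset.sum_eq_zero fun e _ => ?_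
      rw [← Finset.sum_mul, R3_nrm S (S.T_nrm a d) e, zero_mul]
    rw [Finset.sum_congr rfl fun b _ => by rw [S.D_of_tan (S.D_tan g) d b, mul_add],
      Finset.sum_add_distrib, e1, zero_add]
    simp only [Finset.mul_sum, Finset.sum_mul]
    rw [Finset.sum_comm]
    exact Finset.sum_congr rfl fun e _ => Finset.sum_congr rfl fun b _ => by
      rw [S.T_symm d e, mul_assoc]
  rw [Finset.sum_comm, Finset.sum_congr rfl fun d _ => e d, Finset.sum_comm]
  exact Finset.sum_congr rfl fun e _ => by rw [← Finset.sum_mul]; rfl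

theorem Lap_D (a : ι) (g : R) : S.Lap (S.D a g) - S.D a (S.Lap g) =
    ∑ d, (S.arr.Bt d a + ∑ e, S.T a d e * S.arr.HH e - 2 * S.arr.M a d) * S.D d g +
      2 * ∑ b, ∑ d, S.T b d a * S.D b (S.D d g) := by
  have h : ∀ b, S.D b (S.D b (S.D a g)) - S.D a (S.D b (S.D b g)) =
      ∑ d, (S.T b d a * S.D d (S.D b g) - S.T a d b * S.D d (S.D b g) +
        (S.T b d a * S.D b (S.D d g) - S.T a d b * S.D b (S.D d g)) +
        (S.D b (S.T b d a) - S.D b (S.T a d b)) * S.D d g) := by
    intro b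
    have e1 := congrArg (S.D b) (S.comm' b a g)
    have e2 := S.comm' b a (S.D b g)
    simp only [map_sub, map_sum, Derivation.leibniz, smul_eq_mul, Finset.sum_add_distrib,
      Finset.sum_sub_distrib, sub_mul] at e1 e2 ⊢
    have c1 : ∑ d, S.D d g * S.D b (S.T b d a) = ∑ d, S.D b (S.T b d a) * S.D d g :=
      Finset.sum_congr rfl fun d _ => mul_comm _ _
    have c2 : ∑ d, S.D d g * S.D b (S.T a d b) = ∑ d, S.D b (S.T a d b) * S.D d g :=
      Finset.sum_congr rfl fun d _ => mul_comm _ _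
    linear_combination e1 + e2 + c1 - c2
  have e1 : ∑ b, ∑ d, S.T b d a * S.D d (S.D b g) = ∑ b, ∑ d, S.T b d a * S.D b (S.D d g) := by
    rw [Finset.sum_comm]
    exact Finset.sum_congr rfl fun b _ => Finset.sum_congr rfl fun d _ => by rw [S.T_symm d b]
  have e2 := R3_TDD S a g
  have e3 : ∑ b, ∑ d, S.T a d b * S.D b (S.D d g) = 0 := by
    rw [Finset.sum_comm]
    exact Finset.sum_eq_zero fun d _ => S.nrm_D (S.T_nrm a d) _
  have e4 : ∑ b, ∑ d, (S.D b (S.T b d a) - S.D b (S.T a d b)) * S.D d g =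
      ∑ d, (S.arr.Bt d a + S.arr.G d a - S.arr.M a d + ∑ e, S.T a d e * S.arr.HH e) * S.D d g := by
    rw [Finset.sum_comm]
    refine Finset.sum_congr rfl fun d _ => ?_
    rw [← Finset.sum_mul, Finset.sum_sub_distrib, R3_div1, R3_div2, sub_neg_eq_add]
  have e5 : ∑ d, S.arr.G d a * S.D d g = 0 := by
    rw [← S.nrm_D (S.good.G_nrm a) g]
    exact Finset.sum_congr rfl fun d _ => by rw [Arr.Good.G_symm]
  unfold Lap
  rw [map_sum, ← Finset.sum_sub_distrib, Finset.sum_congr rfl fun b _ => h b]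
  simp only [Finset.sum_add_distrib]
  rw [e4]
  simp only [Finset.sum_add_distrib, Finset.sum_sub_distrib, add_mul, sub_mul, mul_assoc,
    ← Finset.mul_sum]
  rw [e1, e2, e3, e5]
  ring

theorem L_D (a : ι) (g : R) : S.L (S.D a g) = S.D a (S.L g) - S.n * S.D a g +
    2 * ∑ d, S.arr.M a d * S.D d g - 2 * ∑ b, ∑ d, S.T b d a * S.D b (S.D d g) := by
  have e1 := S.dt_D a g
  have e2 := S.Lap_D a g
  simp only [Finset.sum_sub_distrib, sub_mul, mul_assoc, ← Finset.mul_sum] at e2
  simp only [L, map_sub]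
  linear_combination e1 - e2

theorem L_P (a c : ι) : S.L (S.P a c) = 2 * S.arr.M a c - 2 * S.arr.G a c := by
  have e : S.L (S.P a c) = S.D a (S.L (S.F c)) - S.n * S.P a c +
      2 * ∑ d, S.arr.M a d * S.P d c - 2 * ∑ b, ∑ d, S.T b d a * S.D b (S.P d c) :=
    S.L_D a (S.F c)
  have e1 : S.D a (S.L (S.F c)) = S.n * S.P a c := by rw [S.L_F, R3_D_nat]; rfl
  have e2 : ∑ d, S.arr.M a d * S.P d c = S.arr.M a c := by
    simp only [Arr.Good.M_symm a]
    exact R3_tan S (S.good.M_tan a) c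
  have e3 : ∑ b, ∑ d, S.T b d a * S.T b c d = 0 :=
    Finset.sum_eq_zero fun b _ => S.good.tn (S.T_tan' b a) (S.T_nrm b c)
  have e4 : ∑ b, ∑ d, S.T b d a * S.T b d c = S.arr.G a c := rfl
  simp only [S.D_P, mul_add, Finset.sum_add_distrib] at e
  rw [e1, e2, e3, e4] at e
  linear_combination e

/-- The rule for a power `Φ = w ^ s` times an exponential in time. -/
theorem L_pow {w Φ : R} {s δ : ℝ} (hD : ∀ a, w * S.D a Φ = s • (Φ * S.D a w))
    (hT : w * S.dt Φ = s • (Φ * S.dt w) + δ • (w * Φ)) :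
    w ^ 2 * S.L Φ = s • (w * Φ * S.L w) - (s * (s - 1)) • (Φ * S.grad w w) + δ • (w ^ 2 * Φ) := by
  have h1 : ∀ a, w ^ 2 * S.D a (S.D a Φ) =
      algebraMap ℝ R s * (algebraMap ℝ R s - 1) * (Φ * (S.D a w * S.D a w)) +
        algebraMap ℝ R s * (w * Φ * S.D a (S.D a w)) := by
    intro a
    have e1 := hD a
    have e2 := congrArg (S.D a) e1
    simp only [Derivation.leibniz, Derivation.map_smul, smul_eq_mul] at e2
    rw [Algebra.smul_def] at e1 e2
    linear_combination w * e2 + (algebraMap ℝ R s - 1) * S.D a w * e1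
  have h2 : w ^ 2 * S.Lap Φ =
      algebraMap ℝ R s * (algebraMap ℝ R s - 1) * (Φ * S.grad w w) +
        algebraMap ℝ R s * (w * Φ * S.Lap w) := by
    simp only [Lap, grad, Finset.mul_sum, ← Finset.sum_add_distrib]
    exact Finset.sum_congr rfl fun a _ => h1 a
  simp only [Algebra.smul_def, map_mul, map_sub, map_one] at hT ⊢
  unfold L
  linear_combination w * hT - h2

end Pool.Agent.Lib.MP_de485e_gt.Hi.QA
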