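import Pool.Agent.Lib.MP_de485e_gt.Hi.R3

/-! Evolution of the second fundamental form. -/

namespace Pool.Agent.Lib.MP_de485e_gt.Hi.QA

variable {ι : Type} [Fintype ι] {R : Type} [CommRing R] [Algebra ℝ R] (S : QA ι R)

/-- The part of `L T` that is tangential in `a`, `b` and normal in `c`. -/
def LT0 (a b c : ι) : R :=
  -(S.n * S.T a b c) + 2 * ∑ e, S.arr.G c e * S.T a b e + 2 * ∑ d, S.arr.M a d * S.T d b c +
    2 * ∑ d, S.arr.M b d * S.T a d c -
    2 * ∑ d, ∑ f, (∑ e, S.T a d e * S.T b f e) * S.T d f c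

/-- The other blocks. -/
def LT1 (a b c : ι) : R :=
  -(2 * ∑ k, ∑ e, S.T k e a * S.B k e b c) - 2 * ∑ k, ∑ e, S.T k e b * S.B k a e c +
    2 * ∑ k, ∑ e, S.T k c e * S.B k a b e -
    2 * ∑ k, ∑ e, ∑ f, S.T k e a * S.T k f b * S.T e f c +
    2 * ∑ k, ∑ e, ∑ f, S.T k e a * S.T k c f * S.T e b f +
    2 * ∑ k, ∑ e, ∑ f, S.T k e b * S.T k c f * S.T a e f

omit [Algebra ℝ R] in
private theorem c0 (f : ι → R) (X : ι → ι → R) :
    ∑ d, f d * ∑ k, X k d = ∑ k, ∑ d, f d * X k d := by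
  simp only [Finset.mul_sum]
  exact Finset.sum_comm

omit [Algebra ℝ R] in
private theorem c1 (f : ι → R) (X : ι → ι → R) (Y : ι → R) :
    ∑ d, f d * ∑ e, X e d * Y e = ∑ e, (∑ d, f d * X e d) * Y e := by
  simp only [Finset.mul_sum, Finset.sum_mul]
  rw [Finset.sum_comm]
  exact Finset.sum_congr rfl fun _ _ => Finset.sum_congr rfl fun _ _ => by ring

omit [Algebra ℝ R] in
private theorem c2 (f : ι → R) (X : ι → ι → R) (Y : ι → R) :
    ∑ d, f d * ∑ e, Y e * X e d = ∑ e, Y e * ∑ d, f d * X e d := by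
  simp only [Finset.mul_sum]
  rw [Finset.sum_comm]
  exact Finset.sum_congr rfl fun _ _ => Finset.sum_congr rfl fun _ _ => by ring

private theorem tn {f g : ι → R} (hf : S.arr.Tan f) (hg : S.arr.Nrm g) : ∑ a, f a * g a = 0 :=
  S.good.tn hf hg

private theorem nt {f g : ι → R} (hg : S.arr.Nrm g) (hf : S.arr.Tan f) : ∑ a, g a * f a = 0 := by
  rw [← S.good.tn hf hg]
  exact Finset.sum_congr rfl fun _ _ => mul_comm _ _

private theorem E2 (f : ι → R) (k a c : ι) : ∑ d, f d * S.D k (S.T a d c) =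
    ∑ d, f d * S.B k a d c + ∑ e, S.T k e a * ∑ d, f d * S.T e d c +
      ∑ e, (∑ d, f d * S.T k e d) * S.T a e c - ∑ e, S.T k c e * ∑ d, f d * S.T a d e := by
  rw [← c2 f (fun e d => S.T e d c), ← c1 f (fun e d => S.T k e d),
    ← c2 f (fun e d => S.T a d e)]
  simp only [S.D_T, mul_add, mul_sub, Finset.sum_add_distrib, Finset.sum_sub_distrib]

private theorem E3 (f : ι → R) (k a c : ι) : ∑ d, f d * S.D k (S.T a c d) =
    ∑ d, f d * S.B k a c d + ∑ e, S.T k e a * ∑ d, f d * S.T e c d +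
      ∑ e, S.T k e c * ∑ d, f d * S.T a e d - ∑ e, (∑ d, f d * S.T k d e) * S.T a c e := by
  rw [← c2 f (fun e d => S.T e c d), ← c2 f (fun e d => S.T a e d),
    ← c1 f (fun e d => S.T k d e)]
  simp only [S.D_T, mul_add, mul_sub, Finset.sum_add_distrib, Finset.sum_sub_distrib]

private theorem PT1 (b d c : ι) : ∑ a, S.P b a * S.T a d c = S.T b d c := S.T_tan d c b

private theorem PT2 (b a c : ι) : ∑ d, S.P b d * S.T a d c = S.T a b c := S.T_tan' a c b

private theorem PT3 (b a c : ι) : ∑ d, S.P b d * S.T a c d = 0 := S.T_nrm a c b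

private theorem PB2 (b k a c : ι) : ∑ d, S.P b d * S.B k d a c = S.B k b a c := S.B_tan2 k a c b

private theorem PB3 (b k a c : ι) : ∑ d, S.P b d * S.B k a d c = S.B k a b c :=
  S.good.Btan3 k a c b

private theorem PB4 (b k a c : ι) : ∑ d, S.P b d * S.B k a c d = 0 := S.B_nrm k a c b

private theorem PM (b g : ι) : ∑ d, S.P b d * S.arr.M d g = S.arr.M b g := S.good.M_tan g b

private theorem M_eq (a d : ι) : S.arr.M a d = ∑ b, ∑ e, S.T a b e * S.T d b e := rfl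

private theorem G_eq (c e : ι) : S.arr.G c e = ∑ a, ∑ b, S.T a b c * S.T a b e := rfl

private theorem M_tan' (b : ι) : S.arr.Tan fun d => S.arr.M b d := by
  have h := S.good.M_tan b
  simpa only [Arr.Good.M_symm (X := S.arr) b] using h

private theorem G_nrm' (c : ι) : S.arr.Nrm fun d => S.arr.G d c := by
  have h : S.arr.Nrm fun d => S.arr.G c d := S.good.G_nrm c
  simpa only [Arr.Good.G_symm (X := S.arr) c] using h

private theorem DTT (a d c : ι) : ∑ f, ∑ e, S.T c f e * S.D a (S.T d f e) =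
    ∑ f, ∑ e, S.T c f e * S.B a d f e + ∑ g, S.T a g d * S.arr.M c g := by
  have h1 : ∀ f g, ∑ e, S.T c f e * S.T a e g = 0 := fun f g =>
    nt S (S.T_nrm c f) (S.T_tan' a g)
  have h2 : ∑ f, ∑ g, S.T a g f * ∑ e, S.T c f e * S.T d g e = 0 := by
    rw [Finset.sum_comm]
    refine Finset.sum_eq_zero fun g _ => ?_
    rw [c1 (fun f => S.T a g f) (fun e f => S.T c f e)]
    refine Finset.sum_eq_zero fun e _ => ?_
    rw [nt S (S.T_nrm a g) (S.T_tan' c e), zero_mul]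
  have h3 : ∑ f, ∑ g, S.T a g d * ∑ e, S.T c f e * S.T g f e = ∑ g, S.T a g d * S.arr.M c g := by
    rw [Finset.sum_comm]
    exact Finset.sum_congr rfl fun g _ => by rw [M_eq, Finset.mul_sum]
  simp only [E3, h1, zero_mul, Finset.sum_const_zero, sub_zero, Finset.sum_add_distrib, h2, h3,
    add_zero]

private theorem D_M (a d c : ι) : S.D a (S.arr.M d c) =
    (∑ f, ∑ e, S.T c f e * S.B a d f e + ∑ g, S.T a g d * S.arr.M c g) +
      (∑ f, ∑ e, S.T d f e * S.B a c f e + ∑ g, S.T a g c * S.arr.M d g) := by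
  rw [← DTT, ← DTT, M_eq]
  simp only [map_sum, Derivation.leibniz, smul_eq_mul, Finset.sum_add_distrib]
  exact add_comm _ _

private theorem P_D_M (a b c : ι) : ∑ d, S.P b d * S.D a (S.arr.M d c) =
    ∑ k, ∑ e, S.T k c e * S.B k a b e + ∑ k, ∑ d, S.T k b d * S.B k a c d +
      ∑ g, S.arr.M b g * S.T a g c := by
  have h1 : ∑ d, S.P b d * ∑ f, ∑ e, S.T c f e * S.B a d f e =
      ∑ k, ∑ e, S.T k c e * S.B k a b e := by
    rw [c0 (S.P b) (fun f d => ∑ e, S.T c f e * S.B a d f e)]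
    refine Finset.sum_congr rfl fun k _ => ?_
    rw [c2 (S.P b) (fun e d => S.B a d k e)]
    exact Finset.sum_congr rfl fun e _ => by rw [PB2, S.T_symm c k, S.B23 a b k, S.B12 a k]
  have h2 : ∑ d, S.P b d * ∑ g, S.T a g d * S.arr.M c g = 0 := by
    rw [c1 (S.P b) (fun g d => S.T a g d)]
    simp only [PT3, zero_mul, Finset.sum_const_zero]
  have h3 : ∑ d, S.P b d * ∑ f, ∑ e, S.T d f e * S.B a c f e =
      ∑ k, ∑ d, S.T k b d * S.B k a c d := by
    rw [c0 (S.P b) (fun f d => ∑ e, S.T d f e * S.B a c f e)]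
    refine Finset.sum_congr rfl fun k _ => ?_
    rw [c1 (S.P b) (fun e d => S.T d k e)]
    exact Finset.sum_congr rfl fun e _ => by rw [PT1, S.T_symm b k, S.B23 a c k, S.B12 a k]
  have h4 : ∑ d, S.P b d * ∑ g, S.T a g c * S.arr.M d g = ∑ g, S.arr.M b g * S.T a g c := by
    rw [c2 (S.P b) (fun g d => S.arr.M d g)]
    exact Finset.sum_congr rfl fun g _ => by rw [PM, mul_comm]
  simp only [D_M, mul_add, Finset.sum_add_distrib, h1, h2, h3, h4]
  ring

private theorem P_D_G (a b c : ι) : ∑ d, S.P b d * S.D a (S.arr.G d c) =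
    -∑ e, S.arr.G c e * S.T a b e := by
  rw [S.D_of_nrm (G_nrm' S c) a b]
  congr 1
  exact Finset.sum_congr rfl fun e _ => by rw [Arr.Good.G_symm (X := S.arr) c e, mul_comm]

private theorem P_Y (b a c : ι) : ∑ d, S.P b d * S.D a (S.P d c) = S.T a b c := by
  simp only [S.D_P, mul_add, Finset.sum_add_distrib, PT2, PT3, add_zero]

private theorem P_DY (b k e c : ι) : ∑ d, S.P b d * S.D k (S.D e (S.P d c)) =
    S.B k e b c + ∑ g, S.T k g e * S.T g b c - ∑ g, S.T k c g * S.T e b g -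
      ∑ g, S.T k b g * S.T e c g := by
  simp only [S.D_P, map_add, mul_add, Finset.sum_add_distrib, E2, E3, PT2, PT3, PB3, PB4,
    zero_mul, mul_zero, Finset.sum_const_zero]
  ring

private theorem term1 (a b c : ι) : ∑ d, S.L (S.P b d) * S.D a (S.P d c) =
    2 * ∑ d, S.arr.M b d * S.T a d c - 2 * ∑ d, S.arr.G b d * S.T a c d := by
  have h1 := tn S (M_tan' S b) (S.T_nrm a c)
  have h2 := nt S (S.good.G_nrm b) (S.T_tan' a c)
  have h3 : ∀ d, S.L (S.P b d) * S.D a (S.P d c) =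
      2 * (S.arr.M b d * S.T a d c) + 2 * (S.arr.M b d * S.T a c d) -
        2 * (S.arr.G b d * S.T a d c) - 2 * (S.arr.G b d * S.T a c d) := fun d => by
    rw [S.L_P, S.D_P]; ring
  simp only [h3, Finset.sum_add_distrib, Finset.sum_sub_distrib, ← Finset.mul_sum, h1, h2]
  ring

private theorem term2 (a b c : ι) : ∑ d, S.P b d * S.L (S.D a (S.P d c)) =
    2 * (∑ k, ∑ e, S.T k c e * S.B k a b e + ∑ k, ∑ d, S.T k b d * S.B k a c d +
      ∑ g, S.arr.M b g * S.T a g c) + 2 * ∑ e, S.arr.G c e * S.T a b e - S.n * S.T a b c +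
      2 * ∑ e, S.arr.M a e * S.T e b c -
      2 * (∑ k, ∑ e, S.T k e a * S.B k e b c -
        ∑ k, ∑ e, ∑ f, S.T k e a * S.T k c f * S.T e b f -
        ∑ k, ∑ e, S.T k e a * ∑ g, S.T k b g * S.T e c g) := by
  have h0 : ∀ d, S.D a (2 * S.arr.M d c - 2 * S.arr.G d c) =
      2 * S.D a (S.arr.M d c) - 2 * S.D a (S.arr.G d c) := fun d => by
    simp only [two_mul, map_sub, map_add]
  have h1 : ∀ d, S.P b d * S.L (S.D a (S.P d c)) =
      2 * (S.P b d * S.D a (S.arr.M d c)) - 2 * (S.P b d * S.D a (S.arr.G d c)) -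
        S.n * (S.P b d * S.D a (S.P d c)) +
        2 * (S.P b d * ∑ e, S.arr.M a e * S.D e (S.P d c)) -
        2 * (S.P b d * ∑ k, ∑ e, S.T k e a * S.D k (S.D e (S.P d c))) := fun d => by
    rw [S.L_D, S.L_P, h0]; ring
  have h2 : ∑ d, S.P b d * ∑ e, S.arr.M a e * S.D e (S.P d c) =
      ∑ e, S.arr.M a e * S.T e b c := by
    rw [c2 (S.P b) (fun e d => S.D e (S.P d c))]
    simp only [P_Y]
  have h3 : ∀ k, ∑ e, S.T k e a * ∑ g, S.T k g e * S.T g b c = 0 := fun k => by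
    rw [c1 (fun e => S.T k e a) (fun g e => S.T k g e)]
    refine Finset.sum_eq_zero fun g _ => ?_
    rw [tn S (S.T_tan' k a) (S.T_nrm k g), zero_mul]
  have h4 : ∑ d, S.P b d * ∑ k, ∑ e, S.T k e a * S.D k (S.D e (S.P d c)) =
      ∑ k, ∑ e, S.T k e a * S.B k e b c -
        ∑ k, ∑ e, ∑ f, S.T k e a * S.T k c f * S.T e b f -
        ∑ k, ∑ e, S.T k e a * ∑ g, S.T k b g * S.T e c g := by
    rw [c0 (S.P b) (fun k d => ∑ e, S.T k e a * S.D k (S.D e (S.P d c))),
      ← Finset.sum_sub_distrib, ← Finset.sum_sub_distrib]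
    refine Finset.sum_congr rfl fun k _ => ?_
    rw [c2 (S.P b) (fun e d => S.D k (S.D e (S.P d c)))]
    simp only [P_DY, mul_add, mul_sub, Finset.sum_add_distrib, Finset.sum_sub_distrib, h3,
      add_zero, mul_assoc, ← Finset.mul_sum]
  simp only [h1, Finset.sum_add_distrib, Finset.sum_sub_distrib, ← Finset.mul_sum, P_D_M, P_D_G,
    P_Y, h2, h4]
  ring

private theorem term3 (a b c : ι) : ∑ d, S.grad (S.P b d) (S.D a (S.P d c)) =
    (∑ g, S.arr.M b g * S.T a g c + ∑ k, ∑ d, S.T k b d * S.B k a c d +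
      ∑ k, ∑ e, S.T k e a * ∑ g, S.T k b g * S.T e c g +
      ∑ d, ∑ f, (∑ e, S.T a d e * S.T b f e) * S.T d f c) +
    (∑ k, ∑ e, S.T k e b * S.B k a e c + ∑ k, ∑ e, ∑ f, S.T k e a * S.T k f b * S.T e f c -
      ∑ k, ∑ e, ∑ f, S.T k e b * S.T k c f * S.T a e f - ∑ d, S.arr.G b d * S.T a c d) := by
  have z1 : ∀ k, ∑ d, S.T k b d * S.B k a d c = 0 := fun k =>
    nt S (S.T_nrm k b) (S.good.Btan3 k a c)
  have z2 : ∀ k x y, ∑ d, S.T k b d * S.T x d y = 0 := fun k x y =>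
    nt S (S.T_nrm k b) (S.T_tan' x y)
  have z3 : ∀ k, ∑ d, S.T k d b * S.B k a c d = 0 := fun k =>
    tn S (S.T_tan' k b) (S.B_nrm k a c)
  have z4 : ∀ k x y, ∑ d, S.T k d b * S.T x y d = 0 := fun k x y =>
    tn S (S.T_tan' k b) (S.T_nrm x y)
  have h0 : ∀ k d, S.D k (S.P b d) * S.D k (S.D a (S.P d c)) =
      S.T k b d * S.D k (S.T a d c) + S.T k b d * S.D k (S.T a c d) +
        S.T k d b * S.D k (S.T a d c) + S.T k d b * S.D k (S.T a c d) := fun k d => by
    rw [S.D_P, S.D_P, map_add]; ring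
  have h1 : ∑ k, ∑ e, (∑ d, S.T k b d * S.T k e d) * S.T a e c =
      ∑ g, S.arr.M b g * S.T a g c := by
    rw [Finset.sum_comm]
    refine Finset.sum_congr rfl fun g _ => ?_
    rw [M_eq, Finset.sum_mul]
    exact Finset.sum_congr rfl fun k _ => by simp only [S.T_symm k]
  have h2 : ∑ k, ∑ e, S.T k e c * ∑ d, S.T k b d * S.T a e d =
      ∑ d, ∑ f, (∑ e, S.T a d e * S.T b f e) * S.T d f c := by
    rw [Finset.sum_comm]
    refine Finset.sum_congr rfl fun d _ => Finset.sum_congr rfl fun f _ => ?_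
    rw [mul_comm, S.T_symm f d]
    congr 1
    exact Finset.sum_congr rfl fun e _ => by rw [S.T_symm f b, mul_comm]
  have h3 : ∑ k, ∑ e, S.T k e a * ∑ d, S.T k d b * S.T e d c =
      ∑ k, ∑ e, ∑ f, S.T k e a * S.T k f b * S.T e f c := by
    simp only [mul_assoc, ← Finset.mul_sum]
  have h4 : ∑ k, ∑ e, S.T k c e * ∑ d, S.T k d b * S.T a d e =
      ∑ k, ∑ e, ∑ f, S.T k e b * S.T k c f * S.T a e f := by
    refine Finset.sum_congr rfl fun k _ => ?_
    rw [← c2 (fun d => S.T k d b) (fun e d => S.T a d e)]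
    simp only [mul_assoc, ← Finset.mul_sum]
  have h5 : ∑ k, ∑ e, (∑ d, S.T k d b * S.T k d e) * S.T a c e =
      ∑ d, S.arr.G b d * S.T a c d := by
    rw [Finset.sum_comm]
    exact Finset.sum_congr rfl fun g _ => by rw [G_eq, Finset.sum_mul]
  unfold grad
  rw [Finset.sum_comm]
  simp only [h0, Finset.sum_add_distrib, E2, E3, z1, z2, z3, z4, zero_mul, mul_zero,
    Finset.sum_const_zero, Finset.sum_sub_distrib, h1, h2, h3, h4, h5]
  ring

/-- `T a b c = ∑ d, P b d * D a (P d c)`; use `L_mul`, `L_D`, `L_P`, `D_P`, `D_T`, `B12`. -/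
theorem L_T (a b c : ι) : S.L (S.T a b c) = S.LT0 a b c + S.LT1 a b c := by
  rw [← P_Y S b a c, S.L_sum]
  simp only [S.L_mul, Finset.sum_add_distrib, Finset.sum_sub_distrib, ← Finset.mul_sum, term1,
    term2, term3, LT0, LT1]
  ring

end Pool.Agent.Lib.MP_de485e_gt.Hi.QA
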