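import Pool.Agent.Lib.MP_de485e_gt.Hi.R4
import Pool.Agent.Lib.MP_de485e_gt.Hi.A2

/-! Evolution of the invariants. -/

namespace Pool.Agent.Lib.MP_de485e_gt.Hi.QA

variable {ι : Type} [Fintype ι] {R : Type} [CommRing R] [Algebra ℝ R] (S : QA ι R)

theorem R5_nrm2 (X : ι → ι → R) : S.arr.Nrm fun a => ∑ k, ∑ e, S.T k e a * X k e := by
  intro a
  have h : ∀ k e, ∑ b, S.arr.P a b * S.T k e b = 0 := fun k e => S.T_nrm k e a
  simp only [Finset.mul_sum]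
  rw [Finset.sum_comm]
  refine Finset.sum_eq_zero fun k _ => ?_
  rw [Finset.sum_comm]
  refine Finset.sum_eq_zero fun e _ => ?_
  simp only [← mul_assoc]
  rw [← Finset.sum_mul, h, zero_mul]

theorem R5_tan2 (X : ι → ι → R) : S.arr.Tan fun c => ∑ k, ∑ e, S.T k c e * X k e := by
  intro a
  have h : ∀ k e, ∑ b, S.arr.P a b * S.T k b e = S.T k a e := fun k e => S.T_tan' k e a
  simp only [Finset.mul_sum]
  rw [Finset.sum_comm]
  refine Finset.sum_congr rfl fun k _ => ?_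
  rw [Finset.sum_comm]
  refine Finset.sum_congr rfl fun e _ => ?_
  simp only [← mul_assoc]
  rw [← Finset.sum_mul, h]

theorem R5_LT1 (a b c : ι) : S.LT1 a b c =
    ∑ k, ∑ e, S.T k e a * (2 * (-S.B k e b c - ∑ f, S.T k f b * S.T e f c +
      ∑ f, S.T k c f * S.T e b f)) +
    ∑ k, ∑ e, S.T k e b * (2 * (-S.B k a e c + ∑ f, S.T k c f * S.T a e f)) +
    ∑ k, ∑ e, S.T k c e * (2 * S.B k a b e) := by
  have e1 : ∀ k e, S.T k e a * (2 * (-S.B k e b c - ∑ f, S.T k f b * S.T e f c +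
      ∑ f, S.T k c f * S.T e b f)) = -(2 * (S.T k e a * S.B k e b c)) -
        2 * ∑ f, S.T k e a * S.T k f b * S.T e f c +
        2 * ∑ f, S.T k e a * S.T k c f * S.T e b f := by
    intro k e
    simp only [mul_assoc, ← Finset.mul_sum]
    ring
  have e2 : ∀ k e, S.T k e b * (2 * (-S.B k a e c + ∑ f, S.T k c f * S.T a e f)) =
      -(2 * (S.T k e b * S.B k a e c)) + 2 * ∑ f, S.T k e b * S.T k c f * S.T a e f := by
    intro k e
    simp only [mul_assoc, ← Finset.mul_sum]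
    ring
  have e3 : ∀ k e, S.T k c e * (2 * S.B k a b e) = 2 * (S.T k c e * S.B k a b e) := by
    intro k e
    ring
  simp only [e1, e2, e3, Finset.sum_add_distrib, Finset.sum_sub_distrib, Finset.sum_neg_distrib,
    ← Finset.mul_sum]
  unfold LT1
  ring

/-- `LT1` is invisible for a tensor with the blocks of `T`. -/
theorem sum_LT1 {τ : ι → ι → ι → R} (h1 : ∀ b c, S.arr.Tan fun a => τ a b c)
    (h2 : ∀ a c, S.arr.Tan fun b => τ a b c) (h3 : ∀ a b, S.arr.Nrm (τ a b)) :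
    ∑ a, ∑ b, ∑ c, τ a b c * S.LT1 a b c = 0 := by
  simp only [R5_LT1, mul_add (τ _ _ _), Finset.sum_add_distrib]
  refine (congrArg₂ (· + ·) (congrArg₂ (· + ·) ?_ ?_) ?_).trans
    (show (0 : R) + 0 + 0 = 0 by simp)
  · rw [Finset.sum_comm]
    refine Finset.sum_eq_zero fun b _ => ?_
    rw [Finset.sum_comm]
    exact Finset.sum_eq_zero fun c _ => S.good.tn (h1 b c) (S.R5_nrm2 _)
  · refine Finset.sum_eq_zero fun a _ => ?_
    rw [Finset.sum_comm]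
    exact Finset.sum_eq_zero fun c _ => S.good.tn (h2 a c) (S.R5_nrm2 _)
  · refine Finset.sum_eq_zero fun a _ => Finset.sum_eq_zero fun b _ => ?_
    simp only [mul_comm (τ a b _)]
    exact S.good.tn (S.R5_tan2 _) (h3 a b)

theorem R5_M (d f : ι) : ∑ a, ∑ e, S.T a d e * S.T a f e = S.arr.M d f := by
  simp only [S.T_symm _ d, S.T_symm _ f]
  rfl

theorem R5_zero (Y : ι → ι → ι → R) (hY : ∀ k e, S.arr.Tan (Y k e)) :
    ∑ a, ∑ k, ∑ e, S.T k e a * Y k e a = 0 := by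
  rw [Finset.sum_comm]
  refine Finset.sum_eq_zero fun k _ => ?_
  rw [Finset.sum_comm]
  refine Finset.sum_eq_zero fun e _ => ?_
  simp only [mul_comm (S.T k e _)]
  exact S.good.tn (hY k e) (S.T_nrm k e)

theorem R5_tan_sum (X : ι → R) (Y : ι → ι → R) (hY : ∀ f, S.arr.Tan fun a => Y a f) :
    S.arr.Tan fun a => ∑ f, X f * Y a f := by
  intro a
  simp only [Finset.mul_sum]
  rw [Finset.sum_comm]
  refine Finset.sum_congr rfl fun f _ => ?_
  simp only [mul_left_comm _ (X f)]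
  rw [← Finset.mul_sum]
  exact congrArg _ (hY f a)

theorem R5_tr1 (c : ι) : ∑ a, S.LT1 a a c =
    2 * ∑ k, ∑ e, S.T k c e * S.arr.Bt k e - 2 * ∑ e, ∑ f, S.arr.M e f * S.T e f c := by
  have z1 : ∑ a, ∑ k, ∑ e, S.T k e a * S.B k e a c = 0 :=
    S.R5_zero (fun k e a => S.B k e a c) fun k e => S.good.Btan3 k e c
  have z2 : ∑ a, ∑ k, ∑ e, S.T k e a * S.B k a e c = 0 :=
    S.R5_zero (fun k e a => S.B k a e c) fun k e => S.B_tan2 k e c
  have z3 : ∑ a, ∑ k, ∑ e, S.T k c e * S.B k a a e = ∑ k, ∑ e, S.T k c e * S.arr.Bt k e := by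
    rw [Finset.sum_comm]
    refine Finset.sum_congr rfl fun k _ => ?_
    rw [Finset.sum_comm]
    refine Finset.sum_congr rfl fun e _ => ?_
    rw [← Finset.mul_sum]
    rfl
  have z4 : ∑ a, ∑ k, ∑ e, ∑ f, S.T k e a * S.T k f a * S.T e f c =
      ∑ e, ∑ f, S.arr.M e f * S.T e f c := by
    simp only [← S.R5_M, Finset.sum_mul]
    calc ∑ a, ∑ k, ∑ e, ∑ f, S.T k e a * S.T k f a * S.T e f c
        = ∑ k, ∑ a, ∑ e, ∑ f, S.T k e a * S.T k f a * S.T e f c := Finset.sum_comm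
      _ = ∑ k, ∑ e, ∑ a, ∑ f, S.T k e a * S.T k f a * S.T e f c :=
        Finset.sum_congr rfl fun _ _ => Finset.sum_comm
      _ = ∑ k, ∑ e, ∑ f, ∑ a, S.T k e a * S.T k f a * S.T e f c :=
        Finset.sum_congr rfl fun _ _ => Finset.sum_congr rfl fun _ _ => Finset.sum_comm
      _ = ∑ e, ∑ k, ∑ f, ∑ a, S.T k e a * S.T k f a * S.T e f c := Finset.sum_comm
      _ = _ := Finset.sum_congr rfl fun _ _ => Finset.sum_comm
  have z5 : ∑ a, ∑ k, ∑ e, ∑ f, S.T k e a * S.T k c f * S.T e a f = 0 := by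
    simp only [mul_assoc, ← Finset.mul_sum]
    exact S.R5_zero (fun k e a => ∑ f, S.T k c f * S.T e a f) fun k e =>
      S.R5_tan_sum _ (fun a f => S.T e a f) fun f => S.T_tan' e f
  have z6 : ∑ a, ∑ k, ∑ e, ∑ f, S.T k e a * S.T k c f * S.T a e f = 0 := by
    simp only [mul_assoc, ← Finset.mul_sum]
    exact S.R5_zero (fun k e a => ∑ f, S.T k c f * S.T a e f) fun k e =>
      S.R5_tan_sum _ (fun a f => S.T a e f) fun f => S.T_tan e f
  simp only [LT1, Finset.sum_add_distrib, Finset.sum_sub_distrib, Finset.sum_neg_distrib,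
    ← Finset.mul_sum _ _ (2 : R)]
  rw [z1, z2, z3, z4, z5, z6]
  ring

theorem R5_tr0 (c : ι) : ∑ a, S.LT0 a a c = -(S.n * S.arr.HH c) +
    2 * ∑ e, S.arr.G c e * S.arr.HH e + 2 * ∑ e, ∑ f, S.arr.M e f * S.T e f c := by
  have z1 : ∑ a, S.T a a c = S.arr.HH c := rfl
  have z2 : ∑ a, ∑ e, S.arr.G c e * S.T a a e = ∑ e, S.arr.G c e * S.arr.HH e := by
    rw [Finset.sum_comm]
    refine Finset.sum_congr rfl fun e _ => ?_
    rw [← Finset.mul_sum]
    rfl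
  have z3 : ∑ a, ∑ d, S.arr.M a d * S.T d a c = ∑ e, ∑ f, S.arr.M e f * S.T e f c :=
    Finset.sum_congr rfl fun a _ => Finset.sum_congr rfl fun d _ => by rw [S.T_symm d a]
  have z4 : ∑ a, ∑ d, ∑ f, (∑ e, S.T a d e * S.T a f e) * S.T d f c =
      ∑ e, ∑ f, S.arr.M e f * S.T e f c := by
    rw [Finset.sum_comm]
    refine Finset.sum_congr rfl fun d _ => ?_
    rw [Finset.sum_comm]
    refine Finset.sum_congr rfl fun f _ => ?_
    rw [← Finset.sum_mul, S.R5_M]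
  simp only [LT0, Finset.sum_add_distrib, Finset.sum_sub_distrib, Finset.sum_neg_distrib,
    ← Finset.mul_sum _ _ (2 : R), ← Finset.mul_sum _ _ (S.n : R)]
  rw [z1, z2, z3, z4]
  ring

theorem L_HH (c : ι) : S.L (S.arr.HH c) = -(S.n * S.arr.HH c) +
    2 * ∑ e, S.arr.G c e * S.arr.HH e + 2 * ∑ k, ∑ e, S.T k c e * S.arr.Bt k e := by
  have h : S.L (S.arr.HH c) = ∑ a, S.L (S.T a a c) := S.L_sum _ _
  rw [h]
  simp only [L_T, Finset.sum_add_distrib]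
  rw [R5_tr0, R5_tr1]
  ring

theorem R5_L_sq (g : R) : S.L (g * g) = 2 * (g * S.L g) - 2 * ∑ k, S.D k g * S.D k g := by
  rw [L_mul]
  unfold grad
  ring

theorem L_W' : S.L S.arr.W = -(2 * S.arr.gH) +
    2 * ∑ c, ∑ e, S.arr.HH c * S.arr.G c e * S.arr.HH e - 2 * (S.n * S.arr.W) := by
  have h : S.L S.arr.W = ∑ c, S.L (S.arr.HH c * S.arr.HH c) := S.L_sum _ _
  have z1 : ∑ c, S.arr.HH c * ∑ k, ∑ e, S.T k c e * S.arr.Bt k e = 0 := by
    simp only [mul_comm (S.arr.HH _)]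
    exact S.good.tn (S.R5_tan2 _) S.good.HH_nrm
  have z2 : ∑ c, S.arr.HH c * S.L (S.arr.HH c) = -(S.n * S.arr.W) +
      2 * ∑ c, ∑ e, S.arr.HH c * S.arr.G c e * S.arr.HH e := by
    have e1 : ∀ c, S.arr.HH c * S.L (S.arr.HH c) = -(S.n * (S.arr.HH c * S.arr.HH c)) +
        2 * ∑ e, S.arr.HH c * S.arr.G c e * S.arr.HH e +
        2 * (S.arr.HH c * ∑ k, ∑ e, S.T k c e * S.arr.Bt k e) := by
      intro c
      rw [L_HH]
      simp only [mul_assoc, ← Finset.mul_sum]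
      ring
    simp only [e1, Finset.sum_add_distrib, Finset.sum_neg_distrib,
      ← Finset.mul_sum _ _ (2 : R), ← Finset.mul_sum _ _ (S.n : R)]
    rw [z1, mul_zero, add_zero]
    rfl
  rw [h]
  simp only [R5_L_sq, Finset.sum_sub_distrib, ← Finset.mul_sum _ _ (2 : R)]
  rw [z2, Finset.sum_comm (f := fun c k => S.D k (S.arr.HH c) * S.D k (S.arr.HH c)), DHH_sq]
  ring

theorem L_W : S.L S.arr.W = -(2 * S.arr.gH) + (S.n : R) ^ 2 * S.arr.Re := by
  have h1 : ∑ c, ∑ e, S.arr.HH c * S.arr.G c e * S.arr.HH e =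
      (S.n : R) ^ 3 * (S.arr.zeta + (1 + S.arr.e2) ^ 2) := S.good.HGH
  have h2 : S.arr.W = (S.n : R) ^ 2 * (1 + S.arr.e2) := S.good.W_eq
  have h3 : S.arr.Re =
      2 * (S.n * (S.arr.e2 * S.arr.e2 + S.arr.zeta + S.arr.e2)) := rfl
  rw [L_W', h1, h3]
  linear_combination (-2 * (S.n : R)) * h2

theorem R5_n_ne : (S.n : ℝ) ≠ 0 := by
  have := S.hn
  exact_mod_cast (by omega : S.n ≠ 0)

theorem R5_smul (r : ℝ) (x : R) : r • ((S.n : R) * x) = (r * S.n) • x := by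
  rw [mul_smul, Nat.cast_smul_eq_nsmul, nsmul_eq_mul]

theorem L_e2 : S.L S.arr.e2 = -((2 / (S.n : ℝ) ^ 2) • S.arr.gH) + S.arr.Re := by
  have h : S.arr.e2 = ((S.n : ℝ) ^ 2)⁻¹ • S.arr.W - 1 := rfl
  have hn := S.R5_n_ne
  rw [h, L_sub, L_smul, L_one, sub_zero, L_W, smul_add, sq (S.n : R), mul_assoc, R5_smul, R5_smul,
    show ((S.n : ℝ) ^ 2)⁻¹ * S.n * S.n = 1 by field_simp, one_smul, smul_neg, two_mul,
    ← two_smul ℝ, smul_smul, div_eq_mul_inv, mul_comm]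

theorem R5_T_LT0 : ∑ a, ∑ b, ∑ c, S.T a b c * S.LT0 a b c = -(S.n * S.arr.a2) +
    2 * ∑ c, ∑ e, S.arr.G c e * S.arr.G c e + 4 * ∑ a, ∑ d, S.arr.M a d * S.arr.M a d -
      2 * S.arr.J := by
  have e1 : ∀ a b c, S.T a b c * S.LT0 a b c = -(S.n * (S.T a b c * S.T a b c)) +
      2 * ∑ e, S.arr.G c e * (S.T a b c * S.T a b e) +
      2 * ∑ d, S.arr.M a d * (S.T a b c * S.T d b c) +
      2 * ∑ d, S.arr.M b d * (S.T a b c * S.T a d c) -
      2 * ∑ d, ∑ f, S.T a b c * S.T d f c * ∑ e, S.T a d e * S.T b f e := by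
    intro a b c
    have : ∑ d, ∑ f, S.T a b c * S.T d f c * ∑ e, S.T a d e * S.T b f e =
        S.T a b c * ∑ d, ∑ f, (∑ e, S.T a d e * S.T b f e) * S.T d f c := by
      rw [Finset.mul_sum]
      refine Finset.sum_congr rfl fun d _ => ?_
      rw [Finset.mul_sum]
      exact Finset.sum_congr rfl fun f _ => by ring
    rw [this]
    simp only [mul_left_comm _ (S.T a b c), ← Finset.mul_sum _ _ (S.T a b c)]
    unfold LT0
    ring
  have z1 : ∑ a, ∑ b, ∑ c, S.T a b c * S.T a b c = S.arr.a2 := rfl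
  have z2 : ∑ a, ∑ b, ∑ c, ∑ e, S.arr.G c e * (S.T a b c * S.T a b e) =
      ∑ c, ∑ e, S.arr.G c e * S.arr.G c e := by
    calc ∑ a, ∑ b, ∑ c, ∑ e, S.arr.G c e * (S.T a b c * S.T a b e)
        = ∑ a, ∑ c, ∑ b, ∑ e, S.arr.G c e * (S.T a b c * S.T a b e) :=
          Finset.sum_congr rfl fun _ _ => Finset.sum_comm
      _ = ∑ a, ∑ c, ∑ e, ∑ b, S.arr.G c e * (S.T a b c * S.T a b e) :=
          Finset.sum_congr rfl fun _ _ => Finset.sum_congr rfl fun _ _ => Finset.sum_comm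
      _ = ∑ c, ∑ a, ∑ e, ∑ b, S.arr.G c e * (S.T a b c * S.T a b e) := Finset.sum_comm
      _ = ∑ c, ∑ e, ∑ a, ∑ b, S.arr.G c e * (S.T a b c * S.T a b e) :=
          Finset.sum_congr rfl fun _ _ => Finset.sum_comm
      _ = _ := by
          simp only [← Finset.mul_sum]
          rfl
  have z3 : ∑ a, ∑ b, ∑ c, ∑ d, S.arr.M a d * (S.T a b c * S.T d b c) =
      ∑ a, ∑ d, S.arr.M a d * S.arr.M a d := by
    refine Finset.sum_congr rfl fun a _ => ?_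
    calc ∑ b, ∑ c, ∑ d, S.arr.M a d * (S.T a b c * S.T d b c)
        = ∑ b, ∑ d, ∑ c, S.arr.M a d * (S.T a b c * S.T d b c) :=
          Finset.sum_congr rfl fun _ _ => Finset.sum_comm
      _ = ∑ d, ∑ b, ∑ c, S.arr.M a d * (S.T a b c * S.T d b c) := Finset.sum_comm
      _ = _ := by
          simp only [← Finset.mul_sum]
          rfl
  have z4 : ∑ a, ∑ b, ∑ c, ∑ d, S.arr.M b d * (S.T a b c * S.T a d c) =
      ∑ a, ∑ d, S.arr.M a d * S.arr.M a d := by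
    rw [Finset.sum_comm, ← z3]
    simp only [S.T_symm]
  have z5 : ∑ a, ∑ b, ∑ c, ∑ d, ∑ f, S.T a b c * S.T d f c * ∑ e, S.T a d e * S.T b f e =
      S.arr.J := by
    refine Finset.sum_congr rfl fun a _ => Finset.sum_congr rfl fun b _ => ?_
    rw [Finset.sum_comm]
    refine Finset.sum_congr rfl fun d _ => ?_
    rw [Finset.sum_comm]
    refine Finset.sum_congr rfl fun f _ => ?_
    rw [← Finset.sum_mul]
    rfl
  simp only [e1, Finset.sum_add_distrib, Finset.sum_sub_distrib, Finset.sum_neg_distrib,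
    ← Finset.mul_sum _ _ (2 : R), ← Finset.mul_sum _ _ (S.n : R)]
  rw [z1, z2, z3, z4, z5]
  ring

theorem L_a2 : S.L S.arr.a2 = -(2 * S.arr.v) - 2 * (S.n * S.arr.a2) +
    2 * ∑ c, ∑ e, S.arr.G c e * S.arr.G c e + 4 * ∑ a, ∑ d, S.arr.M a d * S.arr.M a d -
      4 * S.arr.J := by
  have h : S.L S.arr.a2 = ∑ a, ∑ b, ∑ c, S.L (S.T a b c * S.T a b c) := by
    simp only [← S.L_sum]
    rfl
  have z1 : ∑ a, ∑ b, ∑ c, ∑ k, S.D k (S.T a b c) * S.D k (S.T a b c) =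
      ∑ k, ∑ a, ∑ b, ∑ c, S.D k (S.T a b c) * S.D k (S.T a b c) := by
    calc ∑ a, ∑ b, ∑ c, ∑ k, S.D k (S.T a b c) * S.D k (S.T a b c)
        = ∑ a, ∑ b, ∑ k, ∑ c, S.D k (S.T a b c) * S.D k (S.T a b c) :=
          Finset.sum_congr rfl fun _ _ => Finset.sum_congr rfl fun _ _ => Finset.sum_comm
      _ = ∑ a, ∑ k, ∑ b, ∑ c, S.D k (S.T a b c) * S.D k (S.T a b c) :=
          Finset.sum_congr rfl fun _ _ => Finset.sum_comm
      _ = _ := Finset.sum_comm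
  rw [h]
  simp only [R5_L_sq, L_T, mul_add (S.T _ _ _), Finset.sum_sub_distrib, Finset.sum_add_distrib,
    ← Finset.mul_sum _ _ (2 : R)]
  rw [z1, DT_sq, R5_T_LT0, S.sum_LT1 S.T_tan S.T_tan' S.T_nrm]
  ring

theorem L_u : S.L S.arr.u = -(2 * S.arr.v) + (2 / (S.n : ℝ)) • S.arr.gH + S.arr.Ru := by
  have h : S.arr.u = S.arr.a2 - (S.n : ℝ)⁻¹ • S.arr.W := rfl
  have hn := S.R5_n_ne
  have h1 : (S.n : ℝ)⁻¹ • S.L S.arr.W = -((2 / (S.n : ℝ)) • S.arr.gH) + S.n * S.arr.Re := by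
    rw [L_W, smul_add, sq (S.n : R), mul_assoc, R5_smul, inv_mul_cancel₀ hn, one_smul, smul_neg,
      two_mul, ← two_smul ℝ, smul_smul, div_eq_mul_inv, mul_comm]
  have h2 : S.arr.a2 = S.arr.u + S.n * (1 + S.arr.e2) := S.good.a2_eq
  have h3 : ∑ c, ∑ e, S.arr.G c e * S.arr.G c e =
      S.arr.G2 + (S.n : R) ^ 2 * (2 * S.arr.zeta + (1 + S.arr.e2) ^ 2) := S.good.GG
  have h4 := S.good.MM
  have h5 : S.arr.Re = 2 * (S.n * (S.arr.e2 * S.arr.e2 + S.arr.zeta + S.arr.e2)) := rfl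
  have h6 : S.arr.Ru = 2 * S.arr.G2 + 2 * ((S.n : R) ^ 2 * S.arr.zeta) + 2 * S.arr.CC -
      2 * (S.n * S.arr.u) := rfl
  have h7 : S.L S.arr.u = S.L S.arr.a2 - (S.n : ℝ)⁻¹ • S.L S.arr.W := by
    rw [h, L_sub, L_smul]
  rw [h7, h1, L_a2, h3, h5, h6]
  linear_combination (-2 * (S.n : R)) * h2 + 2 * h4

end Pool.Agent.Lib.MP_de485e_gt.Hi.QA
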