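import Pool.Agent.Lib.MP_de485e_gt.Hi.R4
import Pool.Agent.Lib.MP_de485e_gt.Hi.A3

/-! Evolution of `B`, first part. -/

namespace Pool.Agent.Lib.MP_de485e_gt.Hi.QA

variable {ι : Type} [Fintype ι] {R : Type} [CommRing R] [Algebra ℝ R] (S : QA ι R)
  (ev : R →ₐ[ℝ] ℝ)

/-- The blocks of `D T` other than `B`. -/
def R6a_E (k a b c : ι) : R := S.D k (S.T a b c) - S.B k a b c

theorem R6a_tan {f g : ι → R} (hg : S.arr.Tan g) (r : R) (h : ∀ a, f a = g a * r) :
    S.arr.Tan f := by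
  intro a
  simp only [h, ← mul_assoc, ← Finset.sum_mul]
  rw [hg a]

theorem R6a_nrm {f g : ι → R} (hg : S.arr.Nrm g) (r : R) (h : ∀ a, f a = g a * r) :
    S.arr.Nrm f := by
  intro a
  simp only [h, ← mul_assoc, ← Finset.sum_mul]
  rw [hg a, zero_mul]

theorem R6a_null (k : ι) {τ : ι → ι → ι → R} (h1 : ∀ b c, S.arr.Tan fun a => τ a b c)
    (h2 : ∀ a c, S.arr.Tan fun b => τ a b c) (h3 : ∀ a b, S.arr.Nrm fun c => τ a b c) :
    ∑ a, ∑ b, ∑ c, τ a b c * S.R6a_E k a b c = 0 := by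
  have e : ∀ a b c, τ a b c * S.R6a_E k a b c = ∑ e, τ a b c * (S.T k e a * S.T e b c) +
      ∑ e, τ a b c * (S.T k e b * S.T a e c) - ∑ e, S.T k c e * S.T a b e * τ a b c := by
    intro a b c
    rw [R6a_E, S.D_T, ← Finset.mul_sum, ← Finset.mul_sum, ← Finset.sum_mul]
    ring
  have z1 : ∑ a, ∑ b, ∑ c, ∑ e, τ a b c * (S.T k e a * S.T e b c) = 0 := by
    rw [Finset.sum_comm]
    refine Finset.sum_eq_zero fun b _ => ?_
    rw [Finset.sum_comm]
    refine Finset.sum_eq_zero fun c _ => ?_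
    rw [Finset.sum_comm]
    refine Finset.sum_eq_zero fun e _ => ?_
    exact S.good.tn (h1 b c) (S.R6a_nrm (S.T_nrm k e) _ fun _ => rfl)
  have z2 : ∑ a, ∑ b, ∑ c, ∑ e, τ a b c * (S.T k e b * S.T a e c) = 0 := by
    refine Finset.sum_eq_zero fun a _ => ?_
    rw [Finset.sum_comm]
    refine Finset.sum_eq_zero fun c _ => ?_
    rw [Finset.sum_comm]
    refine Finset.sum_eq_zero fun e _ => ?_
    exact S.good.tn (h2 a c) (S.R6a_nrm (S.T_nrm k e) _ fun _ => rfl)
  have z3 : ∑ a, ∑ b, ∑ c, ∑ e, S.T k c e * S.T a b e * τ a b c = 0 := by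
    refine Finset.sum_eq_zero fun a _ => Finset.sum_eq_zero fun b _ => ?_
    rw [Finset.sum_comm]
    refine Finset.sum_eq_zero fun e _ => ?_
    exact S.good.tn (S.R6a_tan (S.T_tan' k e) _ fun _ => rfl) (h3 a b)
  simp only [e, Finset.sum_sub_distrib, Finset.sum_add_distrib, z1, z2, z3, add_zero, sub_zero]

theorem R6a_zero (k : ι) (f : ι × ι × ι × ι × ι × ι → R)
    (σ : ι × ι × ι × ι × ι × ι → ι × ι × ι × ι × ι × ι) (hσ : Function.Injective σ)
    (Ψ : ι → ι → ι → ι → ι → ι → R)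
    (hf : ∀ x y z a b c, f (σ (x, y, z, a, b, c)) = Ψ x y z a b c * S.R6a_E k a b c)
    (h1 : ∀ x y z b c, S.arr.Tan fun a => Ψ x y z a b c)
    (h2 : ∀ x y z a c, S.arr.Tan fun b => Ψ x y z a b c)
    (h3 : ∀ x y z a b, S.arr.Nrm fun c => Ψ x y z a b c) : ∑ p, f p = 0 := by
  rw [← hσ.bijective_of_finite.sum_comp f]
  simp only [Fintype.sum_prod_type, hf]
  exact Finset.sum_eq_zero fun x _ => Finset.sum_eq_zero fun y _ => Finset.sum_eq_zero fun z _ =>
    S.R6a_null k (h1 x y z) (h2 x y z) (h3 x y z)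

theorem R6a_prod {w x y z a v : ℝ} (ha : 0 ≤ a) (hv : 0 ≤ v) (hw : |w| ≤ √v) (hx : |x| ≤ √v)
    (hy : |y| ≤ √a) (hz : |z| ≤ √a) : |w * (x * y * z)| ≤ a * v := by
  rw [abs_mul, abs_mul, abs_mul]
  calc |w| * (|x| * |y| * |z|) ≤ √v * (√v * √a * √a) := by gcongr
    _ = (√a * √a) * (√v * √v) := by ring
    _ = a * v := by rw [Real.mul_self_sqrt ha, Real.mul_self_sqrt hv]

/-- One group of three terms. -/
theorem R6a_grp (a0 b0 c0 a1 b1 c1 a2 b2 c2 a3 b3 c3 : ι × ι × ι × ι × ι × ι → ι)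
    (h1 : ∀ k, ∑ p, S.B k (a0 p) (b0 p) (c0 p) * (S.R6a_E k (a1 p) (b1 p) (c1 p) *
      S.T (a2 p) (b2 p) (c2 p) * S.T (a3 p) (b3 p) (c3 p)) = 0)
    (h2 : ∀ k, ∑ p, S.B k (a0 p) (b0 p) (c0 p) * (S.R6a_E k (a2 p) (b2 p) (c2 p) *
      S.T (a1 p) (b1 p) (c1 p) * S.T (a3 p) (b3 p) (c3 p)) = 0)
    (h3 : ∀ k, ∑ p, S.B k (a0 p) (b0 p) (c0 p) * (S.R6a_E k (a3 p) (b3 p) (c3 p) *
      S.T (a1 p) (b1 p) (c1 p) * S.T (a2 p) (b2 p) (c2 p)) = 0) :
    |ev (∑ k, ∑ p, S.B k (a0 p) (b0 p) (c0 p) * S.D k (S.T (a1 p) (b1 p) (c1 p) *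
      S.T (a2 p) (b2 p) (c2 p) * S.T (a3 p) (b3 p) (c3 p)))| ≤
      3 * (Fintype.card ι : ℝ) ^ 7 * (ev S.arr.a2 * ev S.arr.v) := by
  have e : ∀ k, ∑ p, S.B k (a0 p) (b0 p) (c0 p) * S.D k (S.T (a1 p) (b1 p) (c1 p) *
      S.T (a2 p) (b2 p) (c2 p) * S.T (a3 p) (b3 p) (c3 p)) =
      ∑ p, (S.B k (a0 p) (b0 p) (c0 p) * (S.B k (a1 p) (b1 p) (c1 p) *
        S.T (a2 p) (b2 p) (c2 p) * S.T (a3 p) (b3 p) (c3 p)) +
      S.B k (a0 p) (b0 p) (c0 p) * (S.B k (a2 p) (b2 p) (c2 p) *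
        S.T (a1 p) (b1 p) (c1 p) * S.T (a3 p) (b3 p) (c3 p)) +
      S.B k (a0 p) (b0 p) (c0 p) * (S.B k (a3 p) (b3 p) (c3 p) *
        S.T (a1 p) (b1 p) (c1 p) * S.T (a2 p) (b2 p) (c2 p))) := by
    intro k
    rw [← add_zero (∑ p, (_ + _ + _)), ← add_zero (_ + (0 : R)), ← add_zero (_ + _ + (0 : R))]
    nth_rewrite 1 [← h1 k]
    nth_rewrite 1 [← h2 k]
    rw [← h3 k, ← Finset.sum_add_distrib, ← Finset.sum_add_distrib, ← Finset.sum_add_distrib]
    refine Finset.sum_congr rfl fun p _ => ?_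
    simp only [Derivation.leibniz, smul_eq_mul, R6a_E]
    ring
  have hA : ev S.arr.a2 = (S.pt ev).a2 := (Arr.map_a2 S.arr ev).symm
  have hV : ev S.arr.v = (S.pt ev).v := (Arr.map_v S.arr ev).symm
  have hT : ∀ a b c, |ev (S.T a b c)| ≤ √(S.pt ev).a2 := (S.pt ev).abs_T_le
  have hB : ∀ k a b c, |ev (S.B k a b c)| ≤ √(S.pt ev).v := (S.pt ev).abs_B_le
  have ha := (S.pt ev).a2_nonneg
  have hv := (S.pt ev).v_nonneg
  simp only [e, map_sum, map_add, map_mul]
  rw [hA, hV]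
  refine (Finset.abs_sum_le_sum_abs _ _).trans ?_
  refine (Finset.sum_le_card_nsmul _ _
    ((Fintype.card ι : ℝ) ^ 6 * (3 * ((S.pt ev).a2 * (S.pt ev).v))) fun k _ => ?_).trans
    (le_of_eq ?_)
  · refine (Finset.abs_sum_le_sum_abs _ _).trans ?_
    refine (Finset.sum_le_card_nsmul _ _ (3 * ((S.pt ev).a2 * (S.pt ev).v)) fun p _ => ?_).trans
      (le_of_eq ?_)
    · refine (abs_add_three _ _ _).trans ?_
      have t1 := R6a_prod ha hv (hB k (a0 p) (b0 p) (c0 p)) (hB k (a1 p) (b1 p) (c1 p))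
        (hT (a2 p) (b2 p) (c2 p)) (hT (a3 p) (b3 p) (c3 p))
      have t2 := R6a_prod ha hv (hB k (a0 p) (b0 p) (c0 p)) (hB k (a2 p) (b2 p) (c2 p))
        (hT (a1 p) (b1 p) (c1 p)) (hT (a3 p) (b3 p) (c3 p))
      have t3 := R6a_prod ha hv (hB k (a0 p) (b0 p) (c0 p)) (hB k (a3 p) (b3 p) (c3 p))
        (hT (a1 p) (b1 p) (c1 p)) (hT (a2 p) (b2 p) (c2 p))
      linarith
    · simp only [Finset.card_univ, Fintype.card_prod, nsmul_eq_mul, Nat.cast_mul]
      ring
  · simp only [Finset.card_univ, nsmul_eq_mul]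
    ring

theorem R6a_B3 (k a c : ι) : S.arr.Tan fun b => S.B k a b c := S.good.Btan3 k a c

theorem R6a_g1 : |ev (∑ k, ∑ a, ∑ b, ∑ c, S.B k a b c *
    S.D k (∑ e, S.arr.G c e * S.T a b e))| ≤
    3 * (Fintype.card ι : ℝ) ^ 7 * (ev S.arr.a2 * ev S.arr.v) := by
  have h := S.R6a_grp ev
      (fun p => p.1) (fun p => p.2.1) (fun p => p.2.2.1)
      (fun p => p.2.2.2.2.1) (fun p => p.2.2.2.2.2) (fun p => p.2.2.1)
      (fun p => p.2.2.2.2.1) (fun p => p.2.2.2.2.2) (fun p => p.2.2.2.1)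
      (fun p => p.1) (fun p => p.2.1) (fun p => p.2.2.2.1)
      (fun k => S.R6a_zero k _ (fun p => (p.1, p.2.1, p.2.2.2.2.2, p.2.2.1, p.2.2.2.1, p.2.2.2.2.1))
        (by rintro ⟨_, _, _, _, _, _⟩ ⟨_, _, _, _, _, _⟩ h; simp only [Prod.mk.injEq] at h ⊢; tauto)
        (fun a b e x y c => S.B k a b c * S.T x y e * S.T a b e)
        (fun a b e x y c => by ring)
        (fun a b e y c => S.R6a_tan (S.T_tan y e) (S.B k a b c * S.T a b e)
          fun x => by ring)
        (fun a b e x c => S.R6a_tan (S.T_tan' x e) (S.B k a b c * S.T a b e)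
          fun y => by ring)
        (fun a b e x y => S.R6a_nrm (S.B_nrm k a b) (S.T x y e * S.T a b e)
          fun c => by ring))
      (fun k => S.R6a_zero k _ (fun p => (p.1, p.2.1, p.2.2.1, p.2.2.2.2.2, p.2.2.2.1, p.2.2.2.2.1))
        (by rintro ⟨_, _, _, _, _, _⟩ ⟨_, _, _, _, _, _⟩ h; simp only [Prod.mk.injEq] at h ⊢; tauto)
        (fun a b c x y e => S.B k a b c * S.T x y c * S.T a b e)
        (fun a b c x y e => by ring)
        (fun a b c y e => S.R6a_tan (S.T_tan y c) (S.B k a b c * S.T a b e)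
          fun x => by ring)
        (fun a b c x e => S.R6a_tan (S.T_tan' x c) (S.B k a b c * S.T a b e)
          fun y => by ring)
        (fun a b c x y => S.R6a_nrm (S.T_nrm a b) (S.B k a b c * S.T x y c)
          fun e => by ring))
      (fun k => S.R6a_zero k _ (fun p => (p.2.2.2.1, p.2.2.2.2.1, p.1, p.2.2.2.2.2, p.2.1, p.2.2.1))
        (by rintro ⟨_, _, _, _, _, _⟩ ⟨_, _, _, _, _, _⟩ h; simp only [Prod.mk.injEq] at h ⊢; tauto)
        (fun c x y a b e => S.B k a b c * S.T x y c * S.T x y e)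
        (fun c x y a b e => by ring)
        (fun c x y b e => S.R6a_tan (S.B_tan2 k b c) (S.T x y c * S.T x y e)
          fun a => by ring)
        (fun c x y a e => S.R6a_tan (S.R6a_B3 k a c) (S.T x y c * S.T x y e)
          fun b => by ring)
        (fun c x y a b => S.R6a_nrm (S.T_nrm x y) (S.B k a b c * S.T x y c)
          fun e => by ring))
  simp only [Fintype.sum_prod_type] at h
  refine le_of_eq_of_le ?_ h
  congr 2
  simp only [Arr.G, arr, map_sum, Finset.sum_mul, Finset.mul_sum]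

theorem R6a_g2 : |ev (∑ k, ∑ a, ∑ b, ∑ c, S.B k a b c *
    S.D k (∑ d, S.arr.M a d * S.T d b c))| ≤
    3 * (Fintype.card ι : ℝ) ^ 7 * (ev S.arr.a2 * ev S.arr.v) := by
  have h := S.R6a_grp ev
      (fun p => p.1) (fun p => p.2.1) (fun p => p.2.2.1)
      (fun p => p.1) (fun p => p.2.2.2.2.1) (fun p => p.2.2.2.2.2)
      (fun p => p.2.2.2.1) (fun p => p.2.2.2.2.1) (fun p => p.2.2.2.2.2)
      (fun p => p.2.2.2.1) (fun p => p.2.1) (fun p => p.2.2.1)
      (fun k => S.R6a_zero k _ (fun p => (p.2.2.2.1, p.1, p.2.1, p.2.2.1, p.2.2.2.2.1, p.2.2.2.2.2))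
        (by rintro ⟨_, _, _, _, _, _⟩ ⟨_, _, _, _, _, _⟩ h; simp only [Prod.mk.injEq] at h ⊢; tauto)
        (fun b c d a x e => S.B k a b c * S.T d x e * S.T d b c)
        (fun b c d a x e => by ring)
        (fun b c d x e => S.R6a_tan (S.B_tan2 k b c) (S.T d x e * S.T d b c)
          fun a => by ring)
        (fun b c d a e => S.R6a_tan (S.T_tan' d e) (S.B k a b c * S.T d b c)
          fun x => by ring)
        (fun b c d a x => S.R6a_nrm (S.T_nrm d x) (S.B k a b c * S.T d b c)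
          fun e => by ring))
      (fun k => S.R6a_zero k _ (fun p => (p.1, p.2.1, p.2.2.1, p.2.2.2.1, p.2.2.2.2.1, p.2.2.2.2.2))
        (by rintro ⟨_, _, _, _, _, _⟩ ⟨_, _, _, _, _, _⟩ h; simp only [Prod.mk.injEq] at h ⊢; tauto)
        (fun a b c d x e => S.B k a b c * S.T a x e * S.T d b c)
        (fun a b c d x e => by ring)
        (fun a b c x e => S.R6a_tan (S.T_tan b c) (S.B k a b c * S.T a x e)
          fun d => by ring)
        (fun a b c d e => S.R6a_tan (S.T_tan' a e) (S.B k a b c * S.T d b c)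
          fun x => by ring)
        (fun a b c d x => S.R6a_nrm (S.T_nrm a x) (S.B k a b c * S.T d b c)
          fun e => by ring))
      (fun k => S.R6a_zero k _ (fun p => (p.1, p.2.2.2.2.1, p.2.2.2.2.2, p.2.2.2.1, p.2.1, p.2.2.1))
        (by rintro ⟨_, _, _, _, _, _⟩ ⟨_, _, _, _, _, _⟩ h; simp only [Prod.mk.injEq] at h ⊢; tauto)
        (fun a x e d b c => S.B k a b c * S.T a x e * S.T d x e)
        (fun a x e d b c => by ring)
        (fun a x e b c => S.R6a_tan (S.T_tan x e) (S.B k a b c * S.T a x e)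
          fun d => by ring)
        (fun a x e d c => S.R6a_tan (S.R6a_B3 k a c) (S.T a x e * S.T d x e)
          fun b => by ring)
        (fun a x e d b => S.R6a_nrm (S.B_nrm k a b) (S.T a x e * S.T d x e)
          fun c => by ring))
  simp only [Fintype.sum_prod_type] at h
  refine le_of_eq_of_le ?_ h
  congr 2
  simp only [Arr.M, arr, map_sum, Finset.sum_mul, Finset.mul_sum]

theorem R6a_g3 : |ev (∑ k, ∑ a, ∑ b, ∑ c, S.B k a b c *
    S.D k (∑ d, S.arr.M b d * S.T a d c))| ≤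
    3 * (Fintype.card ι : ℝ) ^ 7 * (ev S.arr.a2 * ev S.arr.v) := by
  have h := S.R6a_grp ev
      (fun p => p.1) (fun p => p.2.1) (fun p => p.2.2.1)
      (fun p => p.2.1) (fun p => p.2.2.2.2.1) (fun p => p.2.2.2.2.2)
      (fun p => p.2.2.2.1) (fun p => p.2.2.2.2.1) (fun p => p.2.2.2.2.2)
      (fun p => p.1) (fun p => p.2.2.2.1) (fun p => p.2.2.1)
      (fun k => S.R6a_zero k _ (fun p => (p.1, p.2.2.2.1, p.2.1, p.2.2.1, p.2.2.2.2.1, p.2.2.2.2.2))
        (by rintro ⟨_, _, _, _, _, _⟩ ⟨_, _, _, _, _, _⟩ h; simp only [Prod.mk.injEq] at h ⊢; tauto)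
        (fun a c d b x e => S.B k a b c * S.T d x e * S.T a d c)
        (fun a c d b x e => by ring)
        (fun a c d x e => S.R6a_tan (S.R6a_B3 k a c) (S.T d x e * S.T a d c)
          fun b => by ring)
        (fun a c d b e => S.R6a_tan (S.T_tan' d e) (S.B k a b c * S.T a d c)
          fun x => by ring)
        (fun a c d b x => S.R6a_nrm (S.T_nrm d x) (S.B k a b c * S.T a d c)
          fun e => by ring))
      (fun k => S.R6a_zero k _ (fun p => (p.1, p.2.1, p.2.2.1, p.2.2.2.1, p.2.2.2.2.1, p.2.2.2.2.2))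
        (by rintro ⟨_, _, _, _, _, _⟩ ⟨_, _, _, _, _, _⟩ h; simp only [Prod.mk.injEq] at h ⊢; tauto)
        (fun a b c d x e => S.B k a b c * S.T b x e * S.T a d c)
        (fun a b c d x e => by ring)
        (fun a b c x e => S.R6a_tan (S.T_tan' a c) (S.B k a b c * S.T b x e)
          fun d => by ring)
        (fun a b c d e => S.R6a_tan (S.T_tan' b e) (S.B k a b c * S.T a d c)
          fun x => by ring)
        (fun a b c d x => S.R6a_nrm (S.T_nrm b x) (S.B k a b c * S.T a d c)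
          fun e => by ring))
      (fun k => S.R6a_zero k _ (fun p => (p.2.2.2.1, p.1, p.2.2.2.2.2, p.2.2.2.2.1, p.2.1, p.2.2.1))
        (by rintro ⟨_, _, _, _, _, _⟩ ⟨_, _, _, _, _, _⟩ h; simp only [Prod.mk.injEq] at h ⊢; tauto)
        (fun b x e a d c => S.B k a b c * S.T b x e * S.T d x e)
        (fun b x e a d c => by ring)
        (fun b x e d c => S.R6a_tan (S.B_tan2 k b c) (S.T b x e * S.T d x e)
          fun a => by ring)
        (fun b x e a c => S.R6a_tan (S.T_tan x e) (S.B k a b c * S.T b x e)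
          fun d => by ring)
        (fun b x e a d => S.R6a_nrm (S.B_nrm k a b) (S.T b x e * S.T d x e)
          fun c => by ring))
  simp only [Fintype.sum_prod_type] at h
  refine le_of_eq_of_le ?_ h
  congr 2
  simp only [Arr.M, arr, map_sum, Finset.sum_mul, Finset.mul_sum]

theorem R6a_g4 : |ev (∑ k, ∑ a, ∑ b, ∑ c, S.B k a b c *
    S.D k (∑ d, ∑ f, (∑ e, S.T a d e * S.T b f e) * S.T d f c))| ≤
    3 * (Fintype.card ι : ℝ) ^ 7 * (ev S.arr.a2 * ev S.arr.v) := by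
  have h := S.R6a_grp ev
      (fun p => p.1) (fun p => p.2.1) (fun p => p.2.2.1)
      (fun p => p.1) (fun p => p.2.2.2.1) (fun p => p.2.2.2.2.2)
      (fun p => p.2.1) (fun p => p.2.2.2.2.1) (fun p => p.2.2.2.2.2)
      (fun p => p.2.2.2.1) (fun p => p.2.2.2.2.1) (fun p => p.2.2.1)
      (fun k => S.R6a_zero k _ (fun p => (p.2.2.2.1, p.1, p.2.1, p.2.2.2.2.1, p.2.2.1, p.2.2.2.2.2))
        (by rintro ⟨_, _, _, _, _, _⟩ ⟨_, _, _, _, _, _⟩ h; simp only [Prod.mk.injEq] at h ⊢; tauto)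
        (fun b c f a d e => S.B k a b c * S.T b f e * S.T d f c)
        (fun b c f a d e => by ring)
        (fun b c f d e => S.R6a_tan (S.B_tan2 k b c) (S.T b f e * S.T d f c)
          fun a => by ring)
        (fun b c f a e => S.R6a_tan (S.T_tan f c) (S.B k a b c * S.T b f e)
          fun d => by ring)
        (fun b c f a d => S.R6a_nrm (S.T_nrm b f) (S.B k a b c * S.T d f c)
          fun e => by ring))
      (fun k => S.R6a_zero k _ (fun p => (p.1, p.2.2.2.1, p.2.1, p.2.2.1, p.2.2.2.2.1, p.2.2.2.2.2))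
        (by rintro ⟨_, _, _, _, _, _⟩ ⟨_, _, _, _, _, _⟩ h; simp only [Prod.mk.injEq] at h ⊢; tauto)
        (fun a c d b f e => S.B k a b c * S.T a d e * S.T d f c)
        (fun a c d b f e => by ring)
        (fun a c d f e => S.R6a_tan (S.R6a_B3 k a c) (S.T a d e * S.T d f c)
          fun b => by ring)
        (fun a c d b e => S.R6a_tan (S.T_tan' d c) (S.B k a b c * S.T a d e)
          fun f => by ring)
        (fun a c d b f => S.R6a_nrm (S.T_nrm a d) (S.B k a b c * S.T d f c)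
          fun e => by ring))
      (fun k => S.R6a_zero k _ (fun p => (p.1, p.2.1, p.2.2.2.2.2, p.2.2.2.1, p.2.2.2.2.1, p.2.2.1))
        (by rintro ⟨_, _, _, _, _, _⟩ ⟨_, _, _, _, _, _⟩ h; simp only [Prod.mk.injEq] at h ⊢; tauto)
        (fun a b e d f c => S.B k a b c * S.T a d e * S.T b f e)
        (fun a b e d f c => by ring)
        (fun a b e f c => S.R6a_tan (S.T_tan' a e) (S.B k a b c * S.T b f e)
          fun d => by ring)
        (fun a b e d c => S.R6a_tan (S.T_tan' b e) (S.B k a b c * S.T a d e)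
          fun f => by ring)
        (fun a b e d f => S.R6a_nrm (S.B_nrm k a b) (S.T a d e * S.T b f e)
          fun c => by ring))
  simp only [Fintype.sum_prod_type] at h
  refine le_of_eq_of_le ?_ h
  congr 2
  simp only [map_sum, Finset.sum_mul, Finset.mul_sum]

/-- Every term is a sum over at most seven indices of products `T T B B` (`abs_T_le`, `abs_B_le`
for `S.pt ev`): in `D k T = B + T T` only `B` survives, because the indices are contracted with
tensors of the same block type. Four groups of three terms. -/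
theorem B_DLT0 : ev (∑ k, ∑ a, ∑ b, ∑ c, S.B k a b c * S.D k (S.LT0 a b c)) ≤
    -(S.n * ev S.arr.v) + 24 * (Fintype.card ι : ℝ) ^ 7 * (ev S.arr.a2 * ev S.arr.v) := by
  have g1 := abs_le.1 (S.R6a_g1 ev)
  have g2 := abs_le.1 (S.R6a_g2 ev)
  have g3 := abs_le.1 (S.R6a_g3 ev)
  have g4 := abs_le.1 (S.R6a_g4 ev)
  have two : ∀ k (x : R), S.D k (2 * x) = 2 * S.D k x := fun k x => by
    rw [two_mul, map_add, two_mul]
  have nat : ∀ k (x : R), S.D k (S.n * x) = S.n * S.D k x := fun k x => by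
    rw [← nsmul_eq_mul, map_nsmul, nsmul_eq_mul]
  have v0 : ∑ k, ∑ a, ∑ b, ∑ c, S.B k a b c * S.D k (S.T a b c) = S.arr.v := by
    refine Finset.sum_congr rfl fun k _ => ?_
    have := S.R6a_null k (S.B_tan2 k) (S.R6a_B3 k) (S.B_nrm k)
    simp only [R6a_E, mul_sub, Finset.sum_sub_distrib] at this
    exact sub_eq_zero.1 this
  have e : ∑ k, ∑ a, ∑ b, ∑ c, S.B k a b c * S.D k (S.LT0 a b c) =
      -(S.n * ∑ k, ∑ a, ∑ b, ∑ c, S.B k a b c * S.D k (S.T a b c)) +
      2 * (∑ k, ∑ a, ∑ b, ∑ c, S.B k a b c * S.D k (∑ e, S.arr.G c e * S.T a b e)) +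
      2 * (∑ k, ∑ a, ∑ b, ∑ c, S.B k a b c * S.D k (∑ d, S.arr.M a d * S.T d b c)) +
      2 * (∑ k, ∑ a, ∑ b, ∑ c, S.B k a b c * S.D k (∑ d, S.arr.M b d * S.T a d c)) -
      2 * (∑ k, ∑ a, ∑ b, ∑ c, S.B k a b c *
        S.D k (∑ d, ∑ f, (∑ e, S.T a d e * S.T b f e) * S.T d f c)) := by
    have e1 : ∀ k a b c, S.B k a b c * S.D k (S.LT0 a b c) =
        -(S.n * (S.B k a b c * S.D k (S.T a b c))) +
        2 * (S.B k a b c * S.D k (∑ e, S.arr.G c e * S.T a b e)) +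
        2 * (S.B k a b c * S.D k (∑ d, S.arr.M a d * S.T d b c)) +
        2 * (S.B k a b c * S.D k (∑ d, S.arr.M b d * S.T a d c)) -
        2 * (S.B k a b c * S.D k (∑ d, ∑ f, (∑ e, S.T a d e * S.T b f e) * S.T d f c)) := by
      intro k a b c
      rw [LT0, map_sub, map_add, map_add, map_add, map_neg, nat, two, two, two, two]
      ring
    simp only [e1, Finset.sum_sub_distrib, Finset.sum_add_distrib, Finset.sum_neg_distrib]
    simp only [← Finset.mul_sum]
  rw [e, v0]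
  simp only [map_sub, map_add, map_neg, map_mul, map_natCast, map_ofNat]
  linarith [g1.2, g2.2, g3.2, g4.1]

end Pool.Agent.Lib.MP_de485e_gt.Hi.QA
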