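import Pool.Agent.Lib.MP_de485e_gt.Hi.R4
import Pool.Agent.Lib.MP_de485e_gt.Hi.A3

/-! Evolution of `B`, second part. -/

namespace Pool.Agent.Lib.MP_de485e_gt.Hi.QA

variable {ι : Type} [Fintype ι] {R : Type} [CommRing R] [Algebra ℝ R] (S : QA ι R)
  (ev : R →ₐ[ℝ] ℝ)

section blocks

variable {X : Arr ι R}

omit [Algebra ℝ R]

theorem R6b_nsum {f : ι → ι → R} (h : ∀ i, X.Nrm (f i)) : X.Nrm fun a => ∑ i, f i a := fun a => by
  simp only [Finset.mul_sum]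
  rw [Finset.sum_comm]
  exact Finset.sum_eq_zero fun i _ => h i a

theorem R6b_tsum {f : ι → ι → R} (h : ∀ i, X.Tan (f i)) : X.Tan fun a => ∑ i, f i a := fun a => by
  simp only [Finset.mul_sum]
  rw [Finset.sum_comm]
  exact Finset.sum_congr rfl fun i _ => h i a

theorem R6b_nmul {f : ι → R} (h : X.Nrm f) (c : R) : X.Nrm fun a => f a * c := fun a => by
  simp only [← mul_assoc, ← Finset.sum_mul]
  rw [h a, zero_mul]

theorem R6b_tmul {f : ι → R} (h : X.Tan f) (c : R) : X.Tan fun a => f a * c := fun a => by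
  simp only [← mul_assoc, ← Finset.sum_mul]
  rw [h a]

theorem R6b_nmul' {f : ι → R} (h : X.Nrm f) (c : R) : X.Nrm fun a => c * f a := by
  simpa only [mul_comm c] using R6b_nmul h c

theorem R6b_tmul' {f : ι → R} (h : X.Tan f) (c : R) : X.Tan fun a => c * f a := by
  simpa only [mul_comm c] using R6b_tmul h c

end blocks

theorem R6b_tanD {τ f : ι → R} (hτ : S.arr.Tan τ) (hf : S.arr.Nrm f) (k : ι) :
    ∑ a, τ a * S.D k (f a) = -∑ a, τ a * ∑ e, S.T k a e * f e := by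
  have e : ∀ a, τ a = ∑ b, τ b * S.P b a := fun a => by
    rw [← hτ a]
    exact Finset.sum_congr rfl fun b _ => by rw [mul_comm, S.P_symm b a]; rfl
  calc ∑ a, τ a * S.D k (f a) = ∑ a, ∑ b, τ b * (S.P b a * S.D k (f a)) :=
        Finset.sum_congr rfl fun a _ => by
          rw [e a, Finset.sum_mul]
          exact Finset.sum_congr rfl fun b _ => mul_assoc _ _ _
    _ = _ := by
        rw [Finset.sum_comm, ← Finset.sum_neg_distrib]
        exact Finset.sum_congr rfl fun b _ => by rw [← Finset.mul_sum, S.D_of_nrm hf, mul_neg]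

theorem R6b_nrmD {ν f : ι → R} (hν : S.arr.Nrm ν) (hf : S.arr.Tan f) (k : ι) :
    ∑ c, ν c * S.D k (f c) = ∑ c, ν c * ∑ e, S.T k e c * f e := by
  have h0 : ∑ c, (∑ e, S.P c e * S.D k (f e)) * ν c = 0 :=
    S.good.tn (R6b_tsum fun e => R6b_tmul (S.good.Ptan e) _) hν
  calc _ = ∑ c, ((∑ e, S.P c e * S.D k (f e)) * ν c + ν c * ∑ e, S.T k e c * f e) :=
        Finset.sum_congr rfl fun c _ => by rw [S.D_of_tan hf k c]; ring
    _ = _ := by rw [Finset.sum_add_distrib, h0, zero_add]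

omit [Algebra ℝ R] in
theorem R6b_rot (f : ι → ι → ι → R) : ∑ a, ∑ b, ∑ c, f a b c = ∑ b, ∑ c, ∑ a, f a b c := by
  rw [Finset.sum_comm]
  exact Finset.sum_congr rfl fun b _ => Finset.sum_comm

theorem R6b_A {Z : ι → ι → ι → R} (h : ∀ b c, S.arr.Nrm fun a => Z a b c) (k : ι) :
    ∑ a, ∑ b, ∑ c, S.B k a b c * S.D k (Z a b c) =
      -∑ a, ∑ b, ∑ c, S.B k a b c * ∑ f, S.T k a f * Z f b c := by
  rw [R6b_rot, R6b_rot fun a b c => S.B k a b c * ∑ f, S.T k a f * Z f b c,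
    ← Finset.sum_neg_distrib]
  refine Finset.sum_congr rfl fun b _ => ?_
  rw [← Finset.sum_neg_distrib]
  exact Finset.sum_congr rfl fun c _ => S.R6b_tanD (S.B_tan2 k b c) (h b c) k

theorem R6b_B {Z : ι → ι → ι → R} (h : ∀ a c, S.arr.Nrm fun b => Z a b c) (k : ι) :
    ∑ a, ∑ b, ∑ c, S.B k a b c * S.D k (Z a b c) =
      -∑ a, ∑ b, ∑ c, S.B k a b c * ∑ f, S.T k b f * Z a f c := by
  rw [← Finset.sum_neg_distrib]
  refine Finset.sum_congr rfl fun a _ => ?_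
  rw [Finset.sum_comm, Finset.sum_comm (f := fun b c => S.B k a b c * ∑ f, S.T k b f * Z a f c),
    ← Finset.sum_neg_distrib]
  exact Finset.sum_congr rfl fun c _ => S.R6b_tanD (S.good.Btan3 k a c) (h a c) k

theorem R6b_C {Z : ι → ι → ι → R} (h : ∀ a b, S.arr.Tan (Z a b)) (k : ι) :
    ∑ a, ∑ b, ∑ c, S.B k a b c * S.D k (Z a b c) =
      ∑ a, ∑ b, ∑ c, S.B k a b c * ∑ f, S.T k f c * Z a b f :=
  Finset.sum_congr rfl fun a _ => Finset.sum_congr rfl fun b _ =>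
    S.R6b_nrmD (S.B_nrm k a b) (h a b) k

theorem R6b_za {Z : ι → ι → ι → R} (h : ∀ b c, S.arr.Nrm fun a => Z a b c) (k : ι) :
    ∑ a, ∑ b, ∑ c, S.B k a b c * Z a b c = 0 := by
  rw [R6b_rot]
  exact Finset.sum_eq_zero fun b _ => Finset.sum_eq_zero fun c _ =>
    S.good.tn (S.B_tan2 k b c) (h b c)

theorem R6b_zb {Z : ι → ι → ι → R} (h : ∀ a c, S.arr.Nrm fun b => Z a b c) (k : ι) :
    ∑ a, ∑ b, ∑ c, S.B k a b c * Z a b c = 0 := by
  refine Finset.sum_eq_zero fun a _ => ?_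
  rw [Finset.sum_comm]
  exact Finset.sum_eq_zero fun c _ => S.good.tn (S.good.Btan3 k a c) (h a c)

theorem R6b_zc {Z : ι → ι → ι → R} (h : ∀ a b, S.arr.Tan (Z a b)) (k : ι) :
    ∑ a, ∑ b, ∑ c, S.B k a b c * Z a b c = 0 :=
  Finset.sum_eq_zero fun a _ => Finset.sum_eq_zero fun b _ => by
    simpa only [mul_comm (Z a b _)] using S.good.tn (h a b) (S.B_nrm k a b)

theorem R6b_D2 (k : ι) (g : R) : S.D k (2 * g) = 2 * S.D k g := by
  rw [two_mul, map_add, two_mul]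

theorem R6b_DLT1 (k : ι) : ∑ a, ∑ b, ∑ c, S.B k a b c * S.D k (S.LT1 a b c) =
    2 * (∑ a, ∑ b, ∑ c, S.B k a b c * ∑ f, S.T k a f * ∑ m, ∑ e, S.T m e f * S.B m e b c) +
    2 * (∑ a, ∑ b, ∑ c, S.B k a b c * ∑ f, S.T k b f * ∑ m, ∑ e, S.T m e f * S.B m a e c) +
    2 * (∑ a, ∑ b, ∑ c, S.B k a b c * ∑ f, S.T k f c * ∑ m, ∑ e, S.T m f e * S.B m a b e) := by
  have x1 := S.R6b_A (Z := fun a b c => ∑ m, ∑ e, S.T m e a * S.B m e b c)
    (fun b c => R6b_nsum fun m => R6b_nsum fun e => R6b_nmul (S.T_nrm m e) _) k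
  have x2 := S.R6b_B (Z := fun a b c => ∑ m, ∑ e, S.T m e b * S.B m a e c)
    (fun a c => R6b_nsum fun m => R6b_nsum fun e => R6b_nmul (S.T_nrm m e) _) k
  have x3 := S.R6b_C (Z := fun a b c => ∑ m, ∑ e, S.T m c e * S.B m a b e)
    (fun a b => R6b_tsum fun m => R6b_tsum fun e => R6b_tmul (S.T_tan' m e) _) k
  have y1 := S.R6b_A (Z := fun a b c => ∑ m, ∑ e, ∑ f, S.T m e a * S.T m f b * S.T e f c)
    (fun b c => R6b_nsum fun m => R6b_nsum fun e => R6b_nsum fun f =>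
      R6b_nmul (R6b_nmul (S.T_nrm m e) _) _) k
  have y2 := S.R6b_A (Z := fun a b c => ∑ m, ∑ e, ∑ f, S.T m e a * S.T m c f * S.T e b f)
    (fun b c => R6b_nsum fun m => R6b_nsum fun e => R6b_nsum fun f =>
      R6b_nmul (R6b_nmul (S.T_nrm m e) _) _) k
  have y3 := S.R6b_B (Z := fun a b c => ∑ m, ∑ e, ∑ f, S.T m e b * S.T m c f * S.T a e f)
    (fun a c => R6b_nsum fun m => R6b_nsum fun e => R6b_nsum fun f =>
      R6b_nmul (R6b_nmul (S.T_nrm m e) _) _) k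
  rw [S.R6b_zb (fun a c => R6b_nsum fun g => R6b_nmul' (R6b_nsum fun m => R6b_nsum fun e =>
    R6b_nsum fun f => R6b_nmul (R6b_nmul' (S.T_nrm m f) _) _) _) k] at y1
  rw [S.R6b_zc (fun a b => R6b_tsum fun g => R6b_tmul' (R6b_tsum fun m => R6b_tsum fun e =>
    R6b_tsum fun f => R6b_tmul (R6b_tmul' (S.T_tan' m f) _) _) _) k] at y2 y3
  have e : ∀ a b c, S.B k a b c * S.D k (S.LT1 a b c) =
      -2 * (S.B k a b c * S.D k (∑ m, ∑ e, S.T m e a * S.B m e b c)) -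
      2 * (S.B k a b c * S.D k (∑ m, ∑ e, S.T m e b * S.B m a e c)) +
      2 * (S.B k a b c * S.D k (∑ m, ∑ e, S.T m c e * S.B m a b e)) -
      2 * (S.B k a b c * S.D k (∑ m, ∑ e, ∑ f, S.T m e a * S.T m f b * S.T e f c)) +
      2 * (S.B k a b c * S.D k (∑ m, ∑ e, ∑ f, S.T m e a * S.T m c f * S.T e b f)) +
      2 * (S.B k a b c * S.D k (∑ m, ∑ e, ∑ f, S.T m e b * S.T m c f * S.T a e f)) :=
    fun a b c => by
      rw [LT1]
      simp only [map_add, map_sub, map_neg, R6b_D2]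
      ring
  simp only [e, Finset.sum_add_distrib, Finset.sum_sub_distrib,
    ← Finset.mul_sum Finset.univ _ (2 : R), ← Finset.mul_sum Finset.univ _ (-2 : R)]
  linear_combination -2 * x1 - 2 * x2 + 2 * x3 - 2 * y1 + 2 * y2 + 2 * y3

theorem R6b_BDT (k d : ι) : ∑ a, ∑ b, ∑ c, S.B k a b c * S.D d (S.T a b c) =
    ∑ a, ∑ b, ∑ c, S.B k a b c * S.B d a b c := by
  have z1 := S.R6b_za (Z := fun a b c => ∑ e, S.T d e a * S.T e b c)
    (fun b c => R6b_nsum fun e => R6b_nmul (S.T_nrm d e) _) k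
  have z2 := S.R6b_zb (Z := fun a b c => ∑ e, S.T d e b * S.T a e c)
    (fun a c => R6b_nsum fun e => R6b_nmul (S.T_nrm d e) _) k
  have z3 := S.R6b_zc (Z := fun a b c => ∑ e, S.T d c e * S.T a b e)
    (fun a b => R6b_tsum fun e => R6b_tmul (S.T_tan' d e) _) k
  simp only [S.D_T, mul_add, mul_sub, Finset.sum_add_distrib, Finset.sum_sub_distrib]
  rw [z1, z2, z3, add_zero, add_zero, sub_zero]

theorem R6b_LDT : ∑ k, ∑ a, ∑ b, ∑ c, S.B k a b c * S.L (S.D k (S.T a b c)) =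
    ∑ k, ∑ a, ∑ b, ∑ c, S.B k a b c * S.D k (S.L (S.T a b c)) - S.n * S.arr.v +
      2 * ∑ k, ∑ d, (∑ b, ∑ e, S.T k b e * S.T d b e) *
        ∑ a, ∑ b, ∑ c, S.B k a b c * S.B d a b c := by
  have z : ∑ k, ∑ a, ∑ b, ∑ c, S.B k a b c * ∑ p, ∑ d, S.T p d k * S.D p (S.D d (S.T a b c)) =
      0 := by
    rw [Finset.sum_comm]
    refine Finset.sum_eq_zero fun a _ => ?_
    rw [R6b_rot]
    exact Finset.sum_eq_zero fun b _ => Finset.sum_eq_zero fun c _ => S.good.tn (S.B_tan a b c)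
      (R6b_nsum fun p => R6b_nsum fun d => R6b_nmul (S.T_nrm p d) _)
  have v : ∑ k, ∑ a, ∑ b, ∑ c, S.B k a b c * S.D k (S.T a b c) = S.arr.v :=
    Finset.sum_congr rfl fun k _ => S.R6b_BDT k k
  have w : ∀ k, ∑ a, ∑ b, ∑ c, S.B k a b c * ∑ d, S.arr.M k d * S.D d (S.T a b c) =
      ∑ d, (∑ b, ∑ e, S.T k b e * S.T d b e) * ∑ a, ∑ b, ∑ c, S.B k a b c * S.B d a b c :=
    fun k => by
      calc _ = ∑ a, ∑ b, ∑ d, ∑ c, S.arr.M k d * (S.B k a b c * S.D d (S.T a b c)) := by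
            refine Finset.sum_congr rfl fun a _ => Finset.sum_congr rfl fun b _ => ?_
            rw [Finset.sum_comm]
            refine Finset.sum_congr rfl fun c _ => ?_
            rw [Finset.mul_sum]
            exact Finset.sum_congr rfl fun d _ => mul_left_comm _ _ _
        _ = _ := by
            rw [← R6b_rot fun d a b => ∑ c, S.arr.M k d * (S.B k a b c * S.D d (S.T a b c))]
            refine Finset.sum_congr rfl fun d _ => ?_
            simp only [← Finset.mul_sum]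
            rw [S.R6b_BDT]
            rfl
  have e : ∀ k a b c, S.B k a b c * S.L (S.D k (S.T a b c)) =
      S.B k a b c * S.D k (S.L (S.T a b c)) - S.n * (S.B k a b c * S.D k (S.T a b c)) +
      2 * (S.B k a b c * ∑ d, S.arr.M k d * S.D d (S.T a b c)) -
      2 * (S.B k a b c * ∑ p, ∑ d, S.T p d k * S.D p (S.D d (S.T a b c))) := fun k a b c => by
    rw [S.L_D]
    ring
  simp only [e, Finset.sum_add_distrib, Finset.sum_sub_distrib,
    ← Finset.mul_sum Finset.univ _ (2 : R), ← Finset.mul_sum Finset.univ _ (S.n : R), w]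
  rw [z, v, mul_zero, sub_zero]

theorem R6b_sum {f : ι → R} {c : ℝ} (h : ∀ i, |ev (f i)| ≤ c) :
    |ev (∑ i, f i)| ≤ Fintype.card ι * c := by
  rw [map_sum]
  refine (Finset.abs_sum_le_sum_abs _ _).trans ?_
  simpa using Finset.sum_le_card_nsmul Finset.univ _ c fun i _ => h i

theorem R6b_mul {x y : R} {c d : ℝ} (hx : |ev x| ≤ c) (hy : |ev y| ≤ d) :
    |ev (x * y)| ≤ c * d := by
  rw [map_mul, abs_mul]
  exact mul_le_mul hx hy (abs_nonneg _) ((abs_nonneg _).trans hx)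

theorem R6b_T (a b c : ι) : |ev (S.T a b c)| ≤ √(ev S.arr.a2) := by
  rw [← Arr.map_a2]
  exact (S.pt ev).abs_T_le a b c

theorem R6b_Bb (k a b c : ι) : |ev (S.B k a b c)| ≤ √(ev S.arr.v) := by
  rw [← Arr.map_v]
  exact (S.pt ev).abs_B_le k a b c

theorem R6b_sq : √(ev S.arr.a2) * √(ev S.arr.a2) * (√(ev S.arr.v) * √(ev S.arr.v)) =
    ev S.arr.a2 * ev S.arr.v := by
  rw [Real.mul_self_sqrt, Real.mul_self_sqrt]
  · rw [← Arr.map_v]
    exact Arr.v_nonneg _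
  · rw [← Arr.map_a2]
    exact Arr.a2_nonneg _

theorem R6b_seven {t : ι → ι → ι → ι → ι → R} {s : ι → ι → ι → ι → ι → ι → R}
    {r : ι → ι → ι → ι → ι → ι → R} (ht : ∀ k a b c f, |ev (t k a b c f)| ≤ √(ev S.arr.a2))
    (hs : ∀ a b c f m e, |ev (s a b c f m e)| ≤ √(ev S.arr.a2))
    (hr : ∀ a b c f m e, |ev (r a b c f m e)| ≤ √(ev S.arr.v)) :
    ev (∑ k, ∑ a, ∑ b, ∑ c, S.B k a b c * ∑ f, t k a b c f *
      ∑ m, ∑ e, s a b c f m e * r a b c f m e) ≤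
      (Fintype.card ι : ℝ) ^ 7 * (ev S.arr.a2 * ev S.arr.v) := by
  refine (le_abs_self _).trans ((R6b_sum ev fun k => R6b_sum ev fun a => R6b_sum ev fun b =>
    R6b_sum ev fun c => R6b_mul ev (S.R6b_Bb ev k a b c) (R6b_sum ev fun f =>
      R6b_mul ev (ht k a b c f) (R6b_sum ev fun m => R6b_sum ev fun e =>
        R6b_mul ev (hs a b c f m e) (hr a b c f m e)))).trans (le_of_eq ?_))
  rw [← S.R6b_sq ev]
  ring

/-- The three cubic terms of `LT1` have two wrong blocks and drop out; in the other three the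
derivative must fall on `T`: `∑ a, τ a * D k (T m e a) = -∑ a f, τ a * T k a f * T m e f` for
tangential `τ`, and `D k (T m c e)` paired with a normal vector in `c` is `∑ f, T k f c * T m f e`. -/
theorem B_DLT1 : ev (∑ k, ∑ a, ∑ b, ∑ c, S.B k a b c * S.D k (S.LT1 a b c)) ≤
    6 * (Fintype.card ι : ℝ) ^ 7 * (ev S.arr.a2 * ev S.arr.v) := by
  have h1 := S.R6b_seven ev (t := fun k a _ _ f => S.T k a f) (s := fun _ _ _ f m e => S.T m e f)
    (r := fun _ b c _ m e => S.B m e b c) (fun _ _ _ _ _ => S.R6b_T ev _ _ _)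
    (fun _ _ _ _ _ _ => S.R6b_T ev _ _ _) (fun _ _ _ _ _ _ => S.R6b_Bb ev _ _ _ _)
  have h2 := S.R6b_seven ev (t := fun k _ b _ f => S.T k b f) (s := fun _ _ _ f m e => S.T m e f)
    (r := fun a _ c _ m e => S.B m a e c) (fun _ _ _ _ _ => S.R6b_T ev _ _ _)
    (fun _ _ _ _ _ _ => S.R6b_T ev _ _ _) (fun _ _ _ _ _ _ => S.R6b_Bb ev _ _ _ _)
  have h3 := S.R6b_seven ev (t := fun k _ _ c f => S.T k f c) (s := fun _ _ _ f m e => S.T m f e)
    (r := fun a b _ _ m e => S.B m a b e) (fun _ _ _ _ _ => S.R6b_T ev _ _ _)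
    (fun _ _ _ _ _ _ => S.R6b_T ev _ _ _) (fun _ _ _ _ _ _ => S.R6b_Bb ev _ _ _ _)
  simp only [R6b_DLT1, Finset.sum_add_distrib, ← Finset.mul_sum Finset.univ _ (2 : R)]
  rw [map_add, map_add, map_mul, map_mul, map_mul, map_ofNat]
  linarith

/-- `L_D` for `T a b c`. -/
theorem B_LDT : ev (∑ k, ∑ a, ∑ b, ∑ c, S.B k a b c * S.L (S.D k (S.T a b c))) ≤
    ev (∑ k, ∑ a, ∑ b, ∑ c, S.B k a b c * S.D k (S.L (S.T a b c))) - S.n * ev S.arr.v +
      2 * (Fintype.card ι : ℝ) ^ 7 * (ev S.arr.a2 * ev S.arr.v) := by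
  have h := (le_abs_self _).trans (R6b_sum ev fun k => R6b_sum ev fun d => R6b_mul ev
    (R6b_sum ev fun b => R6b_sum ev fun e => R6b_mul ev (S.R6b_T ev k b e) (S.R6b_T ev d b e))
    (R6b_sum ev fun a => R6b_sum ev fun b => R6b_sum ev fun c =>
      R6b_mul ev (S.R6b_Bb ev k a b c) (S.R6b_Bb ev d a b c)))
  rw [R6b_LDT, map_add, map_sub, map_mul, map_mul, map_ofNat, map_natCast, ← S.R6b_sq ev]
  linarith

end Pool.Agent.Lib.MP_de485e_gt.Hi.QA
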