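import Pool.Agent.Lib.MP_de485e_gt.Hi.R4
import Pool.Agent.Lib.MP_de485e_gt.Hi.A3

/-! Evolution of `B`, third part. -/

namespace Pool.Agent.Lib.MP_de485e_gt.Hi.QA

variable {ι : Type} [Fintype ι] {R : Type} [CommRing R] [Algebra ℝ R] (S : QA ι R)
  (ev : R →ₐ[ℝ] ℝ)

section Aux

variable {S}

private theorem R6c_n_add {f g : ι → R} (hf : S.arr.Nrm f) (hg : S.arr.Nrm g) :
    S.arr.Nrm fun a => f a + g a := fun a => by
  simp only [mul_add, Finset.sum_add_distrib, hf a, hg a, add_zero]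

private theorem R6c_n_sub {f g : ι → R} (hf : S.arr.Nrm f) (hg : S.arr.Nrm g) :
    S.arr.Nrm fun a => f a - g a := fun a => by
  simp only [mul_sub, Finset.sum_sub_distrib, hf a, hg a, sub_zero]

private theorem R6c_n_neg {f : ι → R} (hf : S.arr.Nrm f) : S.arr.Nrm fun a => -f a := fun a => by
  simp only [mul_neg, Finset.sum_neg_distrib, hf a, neg_zero]

private theorem R6c_n_l (c : R) {f : ι → R} (hf : S.arr.Nrm f) :
    S.arr.Nrm fun a => c * f a := fun a => by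
  simp only [mul_left_comm _ c, ← Finset.mul_sum, hf a, mul_zero]

private theorem R6c_n_r (c : R) {f : ι → R} (hf : S.arr.Nrm f) :
    S.arr.Nrm fun a => f a * c := by
  simpa only [mul_comm _ c] using R6c_n_l c hf

private theorem R6c_n_sum {f : ι → ι → R} (hf : ∀ i, S.arr.Nrm fun a => f a i) :
    S.arr.Nrm fun a => ∑ i, f a i := fun a => by
  simp only [Finset.mul_sum]
  rw [Finset.sum_comm]
  exact Finset.sum_eq_zero fun i _ => hf i a

private theorem R6c_t_add {f g : ι → R} (hf : S.arr.Tan f) (hg : S.arr.Tan g) :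
    S.arr.Tan fun a => f a + g a := fun a => by
  simp only [mul_add, Finset.sum_add_distrib, hf a, hg a]

private theorem R6c_t_sub {f g : ι → R} (hf : S.arr.Tan f) (hg : S.arr.Tan g) :
    S.arr.Tan fun a => f a - g a := fun a => by
  simp only [mul_sub, Finset.sum_sub_distrib, hf a, hg a]

private theorem R6c_t_neg {f : ι → R} (hf : S.arr.Tan f) : S.arr.Tan fun a => -f a := fun a => by
  simp only [mul_neg, Finset.sum_neg_distrib, hf a]

private theorem R6c_t_l (c : R) {f : ι → R} (hf : S.arr.Tan f) :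
    S.arr.Tan fun a => c * f a := fun a => by
  simp only [mul_left_comm _ c, ← Finset.mul_sum, hf a]

private theorem R6c_t_r (c : R) {f : ι → R} (hf : S.arr.Tan f) :
    S.arr.Tan fun a => f a * c := by
  simpa only [mul_comm _ c] using R6c_t_l c hf

private theorem R6c_t_sum {f : ι → ι → R} (hf : ∀ i, S.arr.Tan fun a => f a i) :
    S.arr.Tan fun a => ∑ i, f a i := fun a => by
  simp only [Finset.mul_sum]
  rw [Finset.sum_comm]
  exact Finset.sum_congr rfl fun i _ => hf i a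

private theorem R6c_G (e : ι) : S.arr.Nrm fun c => S.arr.G c e := by
  simpa only [Arr.Good.G_symm _ e] using S.good.G_nrm e

private theorem R6c_nt {f g : ι → R} (hf : S.arr.Nrm f) (hg : S.arr.Tan g) :
    ∑ a, f a * g a = 0 := by
  simpa only [mul_comm] using S.good.tn hg hf

private theorem R6c_vk {F : ι → ι → ι → ι → R} (h : ∀ a b c, S.arr.Nrm fun k => F k a b c) :
    ∑ k, ∑ a, ∑ b, ∑ c, S.B k a b c * F k a b c = 0 := by
  rw [Finset.sum_comm]
  refine Finset.sum_eq_zero fun a _ => ?_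
  rw [Finset.sum_comm]
  refine Finset.sum_eq_zero fun b _ => ?_
  rw [Finset.sum_comm]
  exact Finset.sum_eq_zero fun c _ => S.good.tn (S.B_tan a b c) (h a b c)

private theorem R6c_va {F : ι → ι → ι → ι → R} (h : ∀ k b c, S.arr.Nrm fun a => F k a b c) :
    ∑ k, ∑ a, ∑ b, ∑ c, S.B k a b c * F k a b c = 0 := by
  refine Finset.sum_eq_zero fun k _ => ?_
  rw [Finset.sum_comm]
  refine Finset.sum_eq_zero fun b _ => ?_
  rw [Finset.sum_comm]
  exact Finset.sum_eq_zero fun c _ => S.good.tn (S.B_tan2 k b c) (h k b c)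

private theorem R6c_vb {F : ι → ι → ι → ι → R} (h : ∀ k a c, S.arr.Nrm fun b => F k a b c) :
    ∑ k, ∑ a, ∑ b, ∑ c, S.B k a b c * F k a b c = 0 := by
  refine Finset.sum_eq_zero fun k _ => Finset.sum_eq_zero fun a _ => ?_
  rw [Finset.sum_comm]
  exact Finset.sum_eq_zero fun c _ => S.good.tn (S.good.Btan3 k a c) (h k a c)

private theorem R6c_vc {F : ι → ι → ι → ι → R} (h : ∀ k a b, S.arr.Tan fun c => F k a b c) :
    ∑ k, ∑ a, ∑ b, ∑ c, S.B k a b c * F k a b c = 0 :=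
  Finset.sum_eq_zero fun k _ => Finset.sum_eq_zero fun a _ => Finset.sum_eq_zero fun b _ =>
    R6c_nt (S.B_nrm k a b) (h k a b)

private theorem R6c_split {F Fk Fa Fb Fc G : ι → ι → ι → ι → R}
    (e : ∀ k a b c, F k a b c = Fk k a b c + Fa k a b c + Fb k a b c + Fc k a b c + G k a b c)
    (hk : ∀ a b c, S.arr.Nrm fun k => Fk k a b c) (ha : ∀ k b c, S.arr.Nrm fun a => Fa k a b c)
    (hb : ∀ k a c, S.arr.Nrm fun b => Fb k a b c) (hc : ∀ k a b, S.arr.Tan fun c => Fc k a b c) :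
    ∑ k, ∑ a, ∑ b, ∑ c, S.B k a b c * F k a b c = ∑ k, ∑ a, ∑ b, ∑ c, S.B k a b c * G k a b c := by
  simp only [e, mul_add, Finset.sum_add_distrib, R6c_vk hk, R6c_va ha, R6c_vb hb, R6c_vc hc,
    zero_add]

variable {ev}

private theorem R6c_b_sum {f : ι → R} {K : ℝ} (h : ∀ i, |ev (f i)| ≤ K) :
    |ev (∑ i, f i)| ≤ Fintype.card ι * K := by
  rw [map_sum]
  refine (Finset.abs_sum_le_sum_abs _ _).trans ((Finset.sum_le_sum fun i _ => h i).trans ?_)
  simp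

private theorem R6c_b_mul {x y : R} {K L : ℝ} (hx : |ev x| ≤ K) (hy : |ev y| ≤ L) :
    |ev (x * y)| ≤ K * L := by
  rw [map_mul, abs_mul]
  exact mul_le_mul hx hy (abs_nonneg _) ((abs_nonneg _).trans hx)

private theorem R6c_b_add {x y : R} {K L : ℝ} (hx : |ev x| ≤ K) (hy : |ev y| ≤ L) :
    |ev (x + y)| ≤ K + L := by
  rw [map_add]
  exact (abs_add_le _ _).trans (add_le_add hx hy)

private theorem R6c_b_neg {x : R} {K : ℝ} (hx : |ev x| ≤ K) : |ev (-x)| ≤ K := by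
  rwa [map_neg, abs_neg]

private theorem R6c_b_two : |ev 2| ≤ 2 := by
  rw [map_ofNat]
  norm_num

private theorem R6c_b_T (a b c : ι) : |ev (S.T a b c)| ≤ √(ev S.arr.a2) := by
  rw [← Arr.map_a2]
  exact Arr.abs_T_le (S.arr.map ev) a b c

private theorem R6c_b_B (k a b c : ι) : |ev (S.B k a b c)| ≤ √(ev S.arr.v) := by
  rw [← Arr.map_v]
  exact Arr.abs_B_le (S.arr.map ev) k a b c

private theorem R6c_final {G : ι → ι → ι → ι → R}
    (h : ∀ k a b c, |ev (G k a b c)| ≤ Fintype.card ι * (2 * (Fintype.card ι *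
      (Fintype.card ι * (√(ev S.arr.a2) * √(ev S.arr.v)))) * √(ev S.arr.a2)) +
      Fintype.card ι * (2 * (Fintype.card ι * (Fintype.card ι *
        (√(ev S.arr.a2) * √(ev S.arr.a2)) * √(ev S.arr.v))))) :
    |ev (∑ k, ∑ a, ∑ b, ∑ c, S.B k a b c * G k a b c)| ≤
      4 * (Fintype.card ι : ℝ) ^ 7 * (ev S.arr.a2 * ev S.arr.v) := by
  refine (R6c_b_sum fun k => R6c_b_sum fun a => R6c_b_sum fun b => R6c_b_sum fun c =>
    R6c_b_mul (R6c_b_B k a b c) (h k a b c)).trans (le_of_eq ?_)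
  have h1 : 0 ≤ ev S.arr.a2 := by
    rw [← Arr.map_a2]
    exact Arr.a2_nonneg _
  have h2 : 0 ≤ ev S.arr.v := by
    rw [← Arr.map_v]
    exact Arr.v_nonneg _
  conv_rhs => rw [← Real.mul_self_sqrt h1, ← Real.mul_self_sqrt h2]
  ring

end Aux

/-- `L_mul`; of `L (T k e a)` only `2 ∑ m f, T m a f * B m k e f` survives, of the gradient term
only `2 ∑ m f, T m a f * T k e f * B m e b c`. -/
theorem B_LTT1 : |ev (∑ k, ∑ a, ∑ b, ∑ c, S.B k a b c * S.L (∑ e, S.T k e a * S.T e b c))| ≤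
    4 * (Fintype.card ι : ℝ) ^ 7 * (ev S.arr.a2 * ev S.arr.v) := by
  rw [R6c_split (S := S) (F := fun k a b c => S.L (∑ e, S.T k e a * S.T e b c))
    (Fk := fun k a b c => ∑ e, (2 * ∑ m, ∑ g, ∑ f, S.T m g k * S.T m a f * S.T g e f) * S.T e b c)
    (Fa := fun k a b c => ∑ e, ((S.LT0 k e a - 2 * ∑ m, ∑ f, S.T m f k * S.B m f e a -
      2 * ∑ m, ∑ f, S.T m f e * S.B m k f a -
      2 * ∑ m, ∑ g, ∑ f, S.T m g k * S.T m f e * S.T g f a) * S.T e b c +
      S.T k e a * S.L (S.T e b c) - 2 * ∑ m, (S.B m k e a + ∑ f, S.T m f k * S.T f e a +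
        ∑ f, S.T m f e * S.T k f a) * S.D m (S.T e b c)))
    (Fb := fun k a b c => ∑ e, 2 * ∑ m, (∑ f, S.T m a f * S.T k e f) * ∑ g, S.T m g b * S.T e g c)
    (Fc := fun k a b c => ∑ e, -(2 * ∑ m, (∑ f, S.T m a f * S.T k e f) *
      ∑ g, S.T m c g * S.T e b g))
    (G := fun k a b c => ∑ e, (2 * ∑ m, ∑ f, S.T m a f * S.B m k e f) * S.T e b c +
      ∑ e, 2 * ∑ m, (∑ f, S.T m a f * S.T k e f) * S.B m e b c)]
  · exact R6c_final fun k a b c => R6c_b_add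
      (R6c_b_sum fun e => R6c_b_mul (R6c_b_mul R6c_b_two (R6c_b_sum fun m => R6c_b_sum fun f =>
        R6c_b_mul (R6c_b_T _ _ _) (R6c_b_B _ _ _ _))) (R6c_b_T _ _ _))
      (R6c_b_sum fun e => R6c_b_mul R6c_b_two (R6c_b_sum fun m => R6c_b_mul
        (R6c_b_sum fun f => R6c_b_mul (R6c_b_T _ _ _) (R6c_b_T _ _ _)) (R6c_b_B _ _ _ _)))
  · intro k a b c
    have z1 : ∑ e, (2 * ∑ m, ∑ g, ∑ f, S.T m g e * S.T m a f * S.T k g f) * S.T e b c = 0 :=
      R6c_nt (R6c_n_l _ (R6c_n_sum fun m => R6c_n_sum fun g => R6c_n_sum fun f =>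
        R6c_n_r _ (R6c_n_r _ (S.T_nrm m g)))) (S.T_tan b c)
    have z2 : ∑ e, 2 * ∑ m, (∑ f, S.T m a f * S.T k e f) * ∑ g, S.T m g e * S.T g b c = 0 := by
      rw [← Finset.mul_sum, Finset.sum_comm, Finset.sum_eq_zero fun m _ => S.good.tn
        (R6c_t_sum fun f => R6c_t_l _ (S.T_tan' k f))
        (R6c_n_sum fun g => R6c_n_r _ (S.T_nrm m g)), mul_zero]
    rw [← add_zero (_ + _ + _ + _ + _), ← add_zero (0 : R)]
    nth_rewrite 1 [← z1]
    rw [← z2, S.L_sum]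
    simp only [← Finset.sum_add_distrib]
    refine Finset.sum_congr rfl fun e _ => ?_
    have g1 : S.grad (S.T k e a) (S.T e b c) = ∑ m, (S.B m k e a + ∑ f, S.T m f k * S.T f e a +
        ∑ f, S.T m f e * S.T k f a) * S.D m (S.T e b c) -
        ∑ m, (∑ f, S.T m a f * S.T k e f) * S.B m e b c -
        ∑ m, (∑ f, S.T m a f * S.T k e f) * ∑ g, S.T m g e * S.T g b c -
        ∑ m, (∑ f, S.T m a f * S.T k e f) * ∑ g, S.T m g b * S.T e g c +
        ∑ m, (∑ f, S.T m a f * S.T k e f) * ∑ g, S.T m c g * S.T e b g := by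
      simp only [grad, ← Finset.sum_add_distrib, ← Finset.sum_sub_distrib]
      refine Finset.sum_congr rfl fun m _ => ?_
      rw [S.D_T m k e a, S.D_T m e b c]
      ring
    rw [S.L_mul, S.L_T k e a, LT1, g1]
    ring
  · exact fun a b c => R6c_n_sum fun e => R6c_n_r _ (R6c_n_l _ (R6c_n_sum fun m =>
      R6c_n_sum fun g => R6c_n_sum fun f => R6c_n_r _ (R6c_n_r _ (S.T_nrm m g))))
  · intro k b c
    refine R6c_n_sum fun e => R6c_n_sub (R6c_n_add (R6c_n_r _ (R6c_n_sub (R6c_n_sub (R6c_n_sub ?_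
      (R6c_n_l _ (R6c_n_sum fun m => R6c_n_sum fun f => R6c_n_l _ (S.B_nrm _ _ _))))
      (R6c_n_l _ (R6c_n_sum fun m => R6c_n_sum fun f => R6c_n_l _ (S.B_nrm _ _ _))))
      (R6c_n_l _ (R6c_n_sum fun m => R6c_n_sum fun g => R6c_n_sum fun f =>
        R6c_n_l _ (S.T_nrm _ _))))) (R6c_n_r _ (S.T_nrm _ _)))
      (R6c_n_l _ (R6c_n_sum fun m => R6c_n_r _ (R6c_n_add (R6c_n_add (S.B_nrm _ _ _)
        (R6c_n_sum fun f => R6c_n_l _ (S.T_nrm _ _))) (R6c_n_sum fun f => R6c_n_l _ (S.T_nrm _ _)))))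
    exact R6c_n_sub (R6c_n_add (R6c_n_add (R6c_n_add (R6c_n_neg (R6c_n_l _ (S.T_nrm _ _)))
      (R6c_n_l _ (R6c_n_sum fun g => R6c_n_r _ (R6c_G g))))
      (R6c_n_l _ (R6c_n_sum fun d => R6c_n_l _ (S.T_nrm _ _))))
      (R6c_n_l _ (R6c_n_sum fun d => R6c_n_l _ (S.T_nrm _ _))))
      (R6c_n_l _ (R6c_n_sum fun d => R6c_n_sum fun f => R6c_n_l _ (S.T_nrm _ _)))
  · exact fun k a c => R6c_n_sum fun e => R6c_n_l _ (R6c_n_sum fun m => R6c_n_l _
      (R6c_n_sum fun g => R6c_n_r _ (S.T_nrm m g)))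
  · exact fun k a b => R6c_t_sum fun e => R6c_t_neg (R6c_t_l _ (R6c_t_sum fun m => R6c_t_l _
      (R6c_t_sum fun g => R6c_t_r _ (S.T_tan' m g))))

/-- By symmetry in `a`, `b` from `B_LTT1`. -/
theorem B_LTT2 : |ev (∑ k, ∑ a, ∑ b, ∑ c, S.B k a b c * S.L (∑ e, S.T k e b * S.T a e c))| ≤
    4 * (Fintype.card ι : ℝ) ^ 7 * (ev S.arr.a2 * ev S.arr.v) := by
  have e : ∑ k, ∑ a, ∑ b, ∑ c, S.B k a b c * S.L (∑ e, S.T k e b * S.T a e c) =
      ∑ k, ∑ a, ∑ b, ∑ c, S.B k a b c * S.L (∑ e, S.T k e a * S.T e b c) := by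
    refine Finset.sum_congr rfl fun k _ => ?_
    rw [Finset.sum_comm]
    refine Finset.sum_congr rfl fun a _ => Finset.sum_congr rfl fun b _ =>
      Finset.sum_congr rfl fun c _ => ?_
    rw [S.B23 k b a c]
    simp only [S.T_symm b _ c]
  rw [e]
  exact S.B_LTT1 ev

/-- Of `L (T k c e)` only `-2 ∑ m f, T m f c * B m k f e` survives, of the gradient term only
`-2 ∑ m f, T m f c * T k f e * B m a b e`. -/
theorem B_LTT3 : |ev (∑ k, ∑ a, ∑ b, ∑ c, S.B k a b c * S.L (∑ e, S.T k c e * S.T a b e))| ≤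
    4 * (Fintype.card ι : ℝ) ^ 7 * (ev S.arr.a2 * ev S.arr.v) := by
  rw [R6c_split (S := S) (F := fun k a b c => S.L (∑ e, S.T k c e * S.T a b e))
    (Fk := fun k a b c => ∑ e, -(2 * ∑ m, ∑ g, ∑ f, S.T m g k * S.T m f c * S.T g f e) *
      S.T a b e)
    (Fa := fun k a b c => ∑ e, -(2 * ∑ m, (∑ f, S.T m f c * S.T k f e) *
      ∑ g, S.T m g a * S.T g b e))
    (Fb := fun k a b c => ∑ e, -(2 * ∑ m, (∑ f, S.T m f c * S.T k f e) *
      ∑ g, S.T m g b * S.T a g e))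
    (Fc := fun k a b c => ∑ e, ((S.LT0 k c e - 2 * ∑ m, ∑ f, S.T m f k * S.B m f c e +
      2 * ∑ m, ∑ f, S.T m e f * S.B m k c f +
      2 * ∑ m, ∑ g, ∑ f, S.T m g k * S.T m e f * S.T g c f) * S.T a b e +
      S.T k c e * S.L (S.T a b e) - 2 * ∑ m, (S.B m k c e + ∑ f, S.T m f k * S.T f c e -
        ∑ f, S.T m e f * S.T k c f) * S.D m (S.T a b e)))
    (G := fun k a b c => ∑ e, -(2 * ∑ m, ∑ f, S.T m f c * S.B m k f e) * S.T a b e +
      ∑ e, -(2 * ∑ m, (∑ f, S.T m f c * S.T k f e) * S.B m a b e))]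
  · exact R6c_final fun k a b c => R6c_b_add
      (R6c_b_sum fun e => R6c_b_mul (R6c_b_neg (R6c_b_mul R6c_b_two (R6c_b_sum fun m =>
        R6c_b_sum fun f => R6c_b_mul (R6c_b_T _ _ _) (R6c_b_B _ _ _ _)))) (R6c_b_T _ _ _))
      (R6c_b_sum fun e => R6c_b_neg (R6c_b_mul R6c_b_two (R6c_b_sum fun m => R6c_b_mul
        (R6c_b_sum fun f => R6c_b_mul (R6c_b_T _ _ _) (R6c_b_T _ _ _)) (R6c_b_B _ _ _ _))))
  · intro k a b c
    have z1 : ∑ e, (2 * ∑ m, ∑ g, ∑ f, S.T m g c * S.T m e f * S.T k g f) * S.T a b e = 0 :=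
      S.good.tn (R6c_t_l _ (R6c_t_sum fun m => R6c_t_sum fun g => R6c_t_sum fun f =>
        R6c_t_r _ (R6c_t_l _ (S.T_tan' m f)))) (S.T_nrm a b)
    have z2 : ∑ e, 2 * ∑ m, (∑ f, S.T m f c * S.T k f e) * ∑ g, S.T m e g * S.T a b g = 0 := by
      rw [← Finset.mul_sum, Finset.sum_comm, Finset.sum_eq_zero fun m _ => R6c_nt
        (R6c_n_sum fun f => R6c_n_l _ (S.T_nrm k f))
        (R6c_t_sum fun g => R6c_t_r _ (S.T_tan' m g)), mul_zero]
    rw [← add_zero (_ + _ + _ + _ + _), ← add_zero (0 : R)]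
    nth_rewrite 1 [← z1]
    rw [← z2, S.L_sum]
    simp only [← Finset.sum_add_distrib]
    refine Finset.sum_congr rfl fun e _ => ?_
    have g1 : S.grad (S.T k c e) (S.T a b e) = ∑ m, (S.B m k c e + ∑ f, S.T m f k * S.T f c e -
        ∑ f, S.T m e f * S.T k c f) * S.D m (S.T a b e) +
        ∑ m, (∑ f, S.T m f c * S.T k f e) * S.B m a b e +
        ∑ m, (∑ f, S.T m f c * S.T k f e) * ∑ g, S.T m g a * S.T g b e +
        ∑ m, (∑ f, S.T m f c * S.T k f e) * ∑ g, S.T m g b * S.T a g e -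
        ∑ m, (∑ f, S.T m f c * S.T k f e) * ∑ g, S.T m e g * S.T a b g := by
      simp only [grad, ← Finset.sum_add_distrib, ← Finset.sum_sub_distrib]
      refine Finset.sum_congr rfl fun m _ => ?_
      rw [S.D_T m k c e, S.D_T m a b e]
      ring
    rw [S.L_mul, S.L_T k c e, LT1, g1]
    ring
  · exact fun a b c => R6c_n_sum fun e => R6c_n_r _ (R6c_n_neg (R6c_n_l _ (R6c_n_sum fun m =>
      R6c_n_sum fun g => R6c_n_sum fun f => R6c_n_r _ (R6c_n_r _ (S.T_nrm m g)))))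
  · exact fun k b c => R6c_n_sum fun e => R6c_n_neg (R6c_n_l _ (R6c_n_sum fun m => R6c_n_l _
      (R6c_n_sum fun g => R6c_n_r _ (S.T_nrm m g))))
  · exact fun k a c => R6c_n_sum fun e => R6c_n_neg (R6c_n_l _ (R6c_n_sum fun m => R6c_n_l _
      (R6c_n_sum fun g => R6c_n_r _ (S.T_nrm m g))))
  · intro k a b
    refine R6c_t_sum fun e => R6c_t_sub (R6c_t_add (R6c_t_r _ (R6c_t_add (R6c_t_add (R6c_t_sub ?_
      (R6c_t_l _ (R6c_t_sum fun m => R6c_t_sum fun f => R6c_t_l _ (S.good.Btan3 _ _ _))))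
      (R6c_t_l _ (R6c_t_sum fun m => R6c_t_sum fun f => R6c_t_l _ (S.good.Btan3 _ _ _))))
      (R6c_t_l _ (R6c_t_sum fun m => R6c_t_sum fun g => R6c_t_sum fun f =>
        R6c_t_l _ (S.T_tan' _ _))))) (R6c_t_r _ (S.T_tan' _ _)))
      (R6c_t_l _ (R6c_t_sum fun m => R6c_t_r _ (R6c_t_sub (R6c_t_add (S.good.Btan3 _ _ _)
        (R6c_t_sum fun f => R6c_t_l _ (S.T_tan' _ _)))
        (R6c_t_sum fun f => R6c_t_l _ (S.T_tan' _ _)))))
    exact R6c_t_sub (R6c_t_add (R6c_t_add (R6c_t_add (R6c_t_neg (R6c_t_l _ (S.T_tan' _ _)))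
      (R6c_t_l _ (R6c_t_sum fun g => R6c_t_l _ (S.T_tan' _ _))))
      (R6c_t_l _ (R6c_t_sum fun d => R6c_t_l _ (S.T_tan' _ _))))
      (R6c_t_l _ (R6c_t_sum fun d => R6c_t_r _ (S.good.M_tan d))))
      (R6c_t_l _ (R6c_t_sum fun d => R6c_t_sum fun f => R6c_t_r _
        (R6c_t_sum fun g => R6c_t_l _ (S.T_tan _ _))))

end Pool.Agent.Lib.MP_de485e_gt.Hi.QA
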