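import Pool.Agent.Lib.MP_de485e_gt.Hi.R2
import Pool.Agent.Lib.MP_de485e_gt.Hi.A2

/-! The Simons identity. -/

namespace Pool.Agent.Lib.MP_de485e_gt.Hi.QA

variable {ι : Type} [Fintype ι] {R : Type} [CommRing R] [Algebra ℝ R] (S : QA ι R)

section closure

variable {S}

theorem R7_nrm_sum {f : ι → ι → R} (h : ∀ i, S.arr.Nrm (f i)) :
    S.arr.Nrm fun a => ∑ i, f i a := by
  intro a
  simp only [Finset.mul_sum]
  rw [Finset.sum_comm]
  exact Finset.sum_eq_zero fun i _ => h i a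

theorem R7_tan_sum {f : ι → ι → R} (h : ∀ i, S.arr.Tan (f i)) :
    S.arr.Tan fun a => ∑ i, f i a := by
  intro a
  simp only [Finset.mul_sum]
  rw [Finset.sum_comm]
  exact Finset.sum_congr rfl fun i _ => h i a

theorem R7_nrm_mul {f : ι → R} (h : S.arr.Nrm f) (c : R) : S.arr.Nrm fun a => f a * c := by
  intro a
  simp only [← mul_assoc]
  rw [← Finset.sum_mul, h a, zero_mul]

theorem R7_tan_mul {f : ι → R} (h : S.arr.Tan f) (c : R) : S.arr.Tan fun a => f a * c := by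
  intro a
  simp only [← mul_assoc]
  rw [← Finset.sum_mul, h a]

theorem R7_nrm_add {f g : ι → R} (h : S.arr.Nrm f) (h' : S.arr.Nrm g) :
    S.arr.Nrm fun a => f a + g a := by
  intro a
  simp only [mul_add]
  rw [Finset.sum_add_distrib, h a, h' a, add_zero]

theorem R7_tan_add {f g : ι → R} (h : S.arr.Tan f) (h' : S.arr.Tan g) :
    S.arr.Tan fun a => f a + g a := by
  intro a
  simp only [mul_add]
  rw [Finset.sum_add_distrib, h a, h' a]

theorem R7_nrm_sub {f g : ι → R} (h : S.arr.Nrm f) (h' : S.arr.Nrm g) :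
    S.arr.Nrm fun a => f a - g a := by
  intro a
  simp only [mul_sub]
  rw [Finset.sum_sub_distrib, h a, h' a, sub_zero]

theorem R7_tan_sub {f g : ι → R} (h : S.arr.Tan f) (h' : S.arr.Tan g) :
    S.arr.Tan fun a => f a - g a := by
  intro a
  simp only [mul_sub]
  rw [Finset.sum_sub_distrib, h a, h' a]

theorem R7_nrm_congr {f g : ι → R} (h : S.arr.Nrm f) (e : ∀ a, g a = f a) : S.arr.Nrm g := by
  rwa [funext e]

theorem R7_tan_congr {f g : ι → R} (h : S.arr.Tan f) (e : ∀ a, g a = f a) : S.arr.Tan g := by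
  rwa [funext e]

end closure

omit [Algebra ℝ R] in
theorem R7_sum3 (f : ι → ι → ι → R) : ∑ a, ∑ b, ∑ c, f a b c = ∑ c, ∑ a, ∑ b, f a b c := by
  rw [Finset.sum_congr rfl fun a _ => Finset.sum_comm, Finset.sum_comm]

omit [Algebra ℝ R] in
theorem R7_sum3' (f : ι → ι → ι → R) : ∑ a, ∑ b, ∑ c, f a b c = ∑ b, ∑ c, ∑ a, f a b c :=
  (R7_sum3 fun b c a => f a b c).symm

/-- The derivative of a tangential field minus its normal part. -/
theorem R7_tan_D {f : ι → R} (hf : S.arr.Tan f) (k : ι) :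
    S.arr.Tan fun a => S.D k (f a) - ∑ e, S.T k e a * f e := by
  refine R7_tan_congr (R7_tan_sum fun e => R7_tan_mul (S.good.Ptan e) (S.D k (f e))) fun a => ?_
  rw [S.D_of_tan hf k a, add_sub_cancel_right]
  rfl

/-- The derivative of a normal field minus its tangential part. -/
theorem R7_nrm_D {f : ι → R} (hf : S.arr.Nrm f) (k : ι) :
    S.arr.Nrm fun a => S.D k (f a) + ∑ e, S.T k a e * f e := by
  intro a
  have h1 := S.D_of_nrm hf k a
  have h2 := R7_tan_sum (S := S) (f := fun e a => S.T k a e * f e)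
    (fun e => R7_tan_mul (S.T_tan' k e) (f e)) a
  simp only [mul_add]
  rw [Finset.sum_add_distrib, h2]
  exact add_eq_zero_iff_eq_neg.2 h1

/-- Divergence of a normal field. -/
theorem R7_div {f : ι → R} (hf : S.arr.Nrm f) :
    ∑ a, S.D a (f a) = -∑ e, S.arr.HH e * f e := by
  have h1 : ∑ a, S.D a (f a) = ∑ a, ∑ e, S.P a e * S.D a (f e) := by
    rw [Finset.sum_comm]
    refine Finset.sum_congr rfl fun e _ => ?_
    refine (S.D_tan (f e) e).symm.trans ?_
    exact Finset.sum_congr rfl fun a _ => by rw [S.P_symm a e]; rfl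
  rw [h1, Finset.sum_congr rfl fun a _ => S.D_of_nrm hf a a, Finset.sum_neg_distrib,
    Finset.sum_comm]
  congr 1
  refine Finset.sum_congr rfl fun e _ => ?_
  rw [Arr.HH, Finset.sum_mul]
  rfl

theorem R7_trace (e : ι) : ∑ a, S.T a e a = 0 := by
  have h1 : ∑ a, S.T a e a = ∑ a, ∑ f, S.P a f * S.T f e a :=
    Finset.sum_congr rfl fun a _ => (S.T_tan e a a).symm
  rw [h1, Finset.sum_comm]
  refine Finset.sum_eq_zero fun f _ => ?_
  rw [← S.T_nrm f e f]
  exact Finset.sum_congr rfl fun a _ => by rw [S.P_symm a f]; rfl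

theorem R7_E1 (d c : ι) : S.arr.Nrm fun b =>
    ∑ a, (S.D a (S.D b (S.T a d c)) - S.D b (S.D a (S.T a d c))) +
      ∑ p, S.arr.M b p * S.T p d c := by
  refine R7_nrm_congr (R7_nrm_sum fun a => R7_nrm_sum fun f =>
    R7_nrm_mul (S.T_nrm a f) (S.D f (S.T a d c))) fun b => ?_
  have h1 : ∀ f, ∑ a, S.T b f a * S.D f (S.T a d c) =
      ∑ a, ∑ e, S.T b f a * S.T e f a * S.T e d c := by
    intro f
    have h := S.good.tn (S.R7_tan_D (S.T_tan d c) f) (S.T_nrm b f)
    rw [← sub_eq_zero, ← Finset.sum_sub_distrib, ← h]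
    refine Finset.sum_congr rfl fun a _ => ?_
    rw [sub_mul, Finset.sum_mul, mul_comm]
    congr 1
    exact Finset.sum_congr rfl fun e _ => by rw [S.T_symm e f a]; ring
  have h2 : ∑ p, S.arr.M b p * S.T p d c = ∑ a, ∑ f, S.T b f a * S.D f (S.T a d c) := by
    rw [Finset.sum_comm, Finset.sum_congr rfl fun f _ => h1 f, R7_sum3]
    refine Finset.sum_congr rfl fun p _ => ?_
    simp only [Arr.M, Finset.sum_mul]
    rfl
  rw [h2, ← Finset.sum_add_distrib]
  refine Finset.sum_congr rfl fun a _ => ?_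
  rw [S.comm', ← Finset.sum_add_distrib]
  exact Finset.sum_congr rfl fun f _ => by ring

theorem R7_E2 (b d c : ι) :
    ∑ a, (S.D a (∑ e, S.T b e a * S.T e d c) - S.D b (∑ e, S.T a e a * S.T e d c)) =
      -∑ p, (∑ e, S.arr.HH e * S.T b p e) * S.T p d c := by
  have h1 : ∑ a, ∑ e, S.T a e a * S.T e d c = 0 := by
    rw [Finset.sum_comm]
    refine Finset.sum_eq_zero fun e _ => ?_
    rw [← Finset.sum_mul, S.R7_trace, zero_mul]
  rw [Finset.sum_sub_distrib, ← map_sum (S.D b), h1, map_zero, sub_zero,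
    S.R7_div (R7_nrm_sum fun e => R7_nrm_mul (S.T_nrm b e) (S.T e d c))]
  congr 1
  simp only [Finset.mul_sum, Finset.sum_mul]
  rw [Finset.sum_comm]
  exact Finset.sum_congr rfl fun p _ => Finset.sum_congr rfl fun e _ => by ring

theorem R7_D_mul (k : ι) (f g : ι → R) :
    S.D k (∑ e, f e * g e) = ∑ e, (f e * S.D k (g e) + S.D k (f e) * g e) := by
  rw [map_sum]
  refine Finset.sum_congr rfl fun e _ => ?_
  rw [Derivation.leibniz, smul_eq_mul, smul_eq_mul, mul_comm (g e)]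

theorem R7_E3 (b c : ι) : S.arr.Nrm fun d =>
    ∑ a, (S.D a (∑ e, S.T b e d * S.T a e c) - S.D b (∑ e, S.T a e d * S.T a e c)) +
      ∑ p, ∑ q, (∑ e, S.T d q e * S.T b p e) * S.T p q c - ∑ e, S.arr.G c e * S.T b d e := by
  refine R7_nrm_congr (R7_nrm_sum fun a => R7_nrm_sum fun e => R7_nrm_sub
    (R7_nrm_add (R7_nrm_mul (S.T_nrm b e) (S.D a (S.T a e c)))
      (R7_nrm_mul (S.R7_nrm_D (S.T_nrm b e) a) (S.T a e c)))
    (R7_nrm_add (R7_nrm_mul (S.T_nrm a e) (S.D b (S.T a e c)))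
      (R7_nrm_mul (S.R7_nrm_D (S.T_nrm a e) b) (S.T a e c)))) fun d => ?_
  have h1 : ∑ p, ∑ q, (∑ e, S.T d q e * S.T b p e) * S.T p q c =
      ∑ a, ∑ e, (∑ f, S.T a d f * S.T b e f) * S.T a e c := by
    rw [Finset.sum_comm]
    refine Finset.sum_congr rfl fun a _ => Finset.sum_congr rfl fun e _ => ?_
    rw [S.T_symm e a c]
    congr 1
    exact Finset.sum_congr rfl fun f _ => by rw [S.T_symm d a f]
  have h2 : ∑ e, S.arr.G c e * S.T b d e =
      ∑ a, ∑ e, (∑ f, S.T b d f * S.T a e f) * S.T a e c := by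
    simp only [Arr.G, Finset.sum_mul]
    rw [R7_sum3']
    refine Finset.sum_congr rfl fun a _ => Finset.sum_congr rfl fun e _ =>
      Finset.sum_congr rfl fun f _ => ?_
    change S.T a e c * S.T a e f * S.T b d f = _
    ring
  rw [h1, h2, ← Finset.sum_add_distrib, ← Finset.sum_sub_distrib]
  refine Finset.sum_congr rfl fun a _ => ?_
  rw [S.R7_D_mul, S.R7_D_mul, ← Finset.sum_sub_distrib, ← Finset.sum_add_distrib,
    ← Finset.sum_sub_distrib]
  exact Finset.sum_congr rfl fun e _ => by ring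

theorem R7_E4 (b d : ι) : S.arr.Tan fun c =>
    ∑ a, (S.D a (∑ e, S.T b c e * S.T a d e) - S.D b (∑ e, S.T a c e * S.T a d e)) -
      ∑ p, ∑ q, (∑ e, S.T d q e * S.T b p e) * S.T p q c + ∑ p, S.arr.M d p * S.T p b c := by
  refine R7_tan_congr (R7_tan_sum fun a => R7_tan_sum fun e => R7_tan_sub
    (R7_tan_add (R7_tan_mul (S.T_tan' b e) (S.D a (S.T a d e)))
      (R7_tan_mul (S.R7_tan_D (S.T_tan' b e) a) (S.T a d e)))
    (R7_tan_add (R7_tan_mul (S.T_tan' a e) (S.D b (S.T a d e)))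
      (R7_tan_mul (S.R7_tan_D (S.T_tan' a e) b) (S.T a d e)))) fun c => ?_
  have h1 : ∑ p, ∑ q, (∑ e, S.T d q e * S.T b p e) * S.T p q c =
      ∑ a, ∑ e, (∑ f, S.T a f c * S.T b f e) * S.T a d e := by
    simp only [Finset.sum_mul]
    rw [R7_sum3']
    refine Finset.sum_congr rfl fun a _ => Finset.sum_congr rfl fun e _ =>
      Finset.sum_congr rfl fun f _ => ?_
    rw [S.T_symm d a e, S.T_symm f a c]
    ring
  have h2 : ∑ p, S.arr.M d p * S.T p b c =
      ∑ a, ∑ e, (∑ f, S.T b f c * S.T a f e) * S.T a d e := by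
    simp only [Arr.M, Finset.sum_mul]
    rw [R7_sum3']
    refine Finset.sum_congr rfl fun a _ => Finset.sum_congr rfl fun e _ =>
      Finset.sum_congr rfl fun f _ => ?_
    change S.T d a e * S.T f a e * S.T f b c = _
    rw [S.T_symm d a e, S.T_symm f a e, S.T_symm f b c]
    ring
  rw [h1, h2, ← Finset.sum_sub_distrib, ← Finset.sum_add_distrib]
  refine Finset.sum_congr rfl fun a _ => ?_
  rw [S.R7_D_mul, S.R7_D_mul, ← Finset.sum_sub_distrib, ← Finset.sum_sub_distrib,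
    ← Finset.sum_add_distrib]
  exact Finset.sum_congr rfl fun e _ => by ring

/-- Write `B = D T - T T` (`D_T`), commute with `comm'`, keep the block of `τ`. -/
theorem simons' {τ : ι → ι → ι → R} (h1 : ∀ d c, S.arr.Tan fun b => τ b d c)
    (h2 : ∀ b c, S.arr.Tan fun d => τ b d c) (h3 : ∀ b d, S.arr.Nrm (τ b d)) :
    ∑ b, ∑ d, ∑ c, τ b d c * ∑ a, (S.D a (S.B b a d c) - S.D b (S.B a a d c)) =
    ∑ b, ∑ d, ∑ c, τ b d c *
      (∑ p, (∑ e, S.arr.HH e * S.T b p e) * S.T p d c - ∑ e, S.arr.G c e * S.T b d e +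
        2 * (∑ p, ∑ q, (∑ e, S.T d q e * S.T b p e) * S.T p q c) -
        ∑ p, S.arr.M b p * S.T p d c - ∑ p, S.arr.M d p * S.T p b c) := by
  have p1 : ∀ X : ι → ι → ι → R, (∀ d c, S.arr.Nrm fun b => X b d c) →
      ∑ b, ∑ d, ∑ c, τ b d c * X b d c = 0 := by
    intro X hX
    rw [R7_sum3']
    exact Finset.sum_eq_zero fun d _ => Finset.sum_eq_zero fun c _ => S.good.tn (h1 d c) (hX d c)
  have p2 : ∀ X : ι → ι → ι → R, (∀ b c, S.arr.Nrm fun d => X b d c) →
      ∑ b, ∑ d, ∑ c, τ b d c * X b d c = 0 := by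
    intro X hX
    refine Finset.sum_eq_zero fun b _ => ?_
    rw [Finset.sum_comm]
    exact Finset.sum_eq_zero fun c _ => S.good.tn (h2 b c) (hX b c)
  have p3 : ∀ X : ι → ι → ι → R, (∀ b d, S.arr.Tan fun c => X b d c) →
      ∑ b, ∑ d, ∑ c, τ b d c * X b d c = 0 := by
    intro X hX
    refine Finset.sum_eq_zero fun b _ => Finset.sum_eq_zero fun d _ => ?_
    rw [← S.good.tn (hX b d) (h3 b d)]
    exact Finset.sum_congr rfl fun c _ => mul_comm _ _
  have q1 := p1 _ S.R7_E1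
  have q2 := p2 _ S.R7_E3
  have q3 := p3 _ S.R7_E4
  have key : ∀ b d c, ∑ a, (S.D a (S.B b a d c) - S.D b (S.B a a d c)) =
      ∑ a, (S.D a (S.D b (S.T a d c)) - S.D b (S.D a (S.T a d c))) -
      ∑ a, (S.D a (∑ e, S.T b e a * S.T e d c) - S.D b (∑ e, S.T a e a * S.T e d c)) -
      ∑ a, (S.D a (∑ e, S.T b e d * S.T a e c) - S.D b (∑ e, S.T a e d * S.T a e c)) +
      ∑ a, (S.D a (∑ e, S.T b c e * S.T a d e) - S.D b (∑ e, S.T a c e * S.T a d e)) := by
    intro b d c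
    rw [← Finset.sum_sub_distrib, ← Finset.sum_sub_distrib, ← Finset.sum_add_distrib]
    refine Finset.sum_congr rfl fun a _ => ?_
    simp only [QA.B, map_sub, map_add]
    ring
  have lin : ∀ X Y A B C : ι → ι → ι → R, ∑ b, ∑ d, ∑ c, τ b d c * A b d c = 0 →
      ∑ b, ∑ d, ∑ c, τ b d c * B b d c = 0 → ∑ b, ∑ d, ∑ c, τ b d c * C b d c = 0 →
      (∀ b d c, X b d c = Y b d c + A b d c - B b d c + C b d c) →
      ∑ b, ∑ d, ∑ c, τ b d c * X b d c = ∑ b, ∑ d, ∑ c, τ b d c * Y b d c := by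
    intro X Y A B C hA hB hC h
    simp only [h, mul_add, mul_sub, Finset.sum_add_distrib, Finset.sum_sub_distrib]
    rw [hA, hB, hC, add_zero, sub_zero, add_zero]
  refine lin _ _ _ _ _ q1 q2 q3 fun b d c => ?_
  rw [key, S.R7_E2]
  ring

theorem simons : ∑ b, ∑ d, ∑ c, S.arr.T0 b d c *
    ∑ a, (S.D a (S.B b a d c) - S.D b (S.B a a d c)) = S.arr.Zs :=
  (S.simons' S.good.T0_tan (fun b c d => by
    simpa only [S.good.T0_symm b] using S.good.T0_tan b c d) S.good.T0_nrm).trans S.good.Zs_eq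

end Pool.Agent.Lib.MP_de485e_gt.Hi.QA
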