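import Pool.Agent.Lib.MP_de485e_gt.Hi.R5
import Pool.Agent.Lib.MP_de485e_gt.Hi.R6a
import Pool.Agent.Lib.MP_de485e_gt.Hi.R6b
import Pool.Agent.Lib.MP_de485e_gt.Hi.R6c
import Pool.Agent.Lib.MP_de485e_gt.Hi.R7

/-! Pointwise inequalities for the evolution of the invariants. -/

namespace Pool.Agent.Lib.MP_de485e_gt.Hi.QA

variable {ι : Type} [Fintype ι] {R : Type} [CommRing R] [Algebra ℝ R] (S : QA ι R)
  (ev : R →ₐ[ℝ] ℝ)

omit S ev in
private theorem R8_cs3 (f g : ι → ι → ι → ℝ) : (∑ a, ∑ b, ∑ c, f a b c * g a b c) ^ 2 ≤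
    (∑ a, ∑ b, ∑ c, f a b c * f a b c) * ∑ a, ∑ b, ∑ c, g a b c * g a b c := by
  have := Finset.sum_mul_sq_le_sq_mul_sq Finset.univ (fun x : ι × ι × ι => f x.1 x.2.1 x.2.2)
    (fun x => g x.1 x.2.1 x.2.2)
  simpa only [Fintype.sum_prod_type, sq] using this

omit S ev in
private theorem R8_cs4 (f g : ι → ι → ι → ι → ℝ) :
    (∑ k, ∑ a, ∑ b, ∑ c, f k a b c * g k a b c) ^ 2 ≤
      (∑ k, ∑ a, ∑ b, ∑ c, f k a b c * f k a b c) *
        ∑ k, ∑ a, ∑ b, ∑ c, g k a b c * g k a b c := by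
  have := Finset.sum_mul_sq_le_sq_mul_sq Finset.univ
    (fun x : ι × ι × ι × ι => f x.1 x.2.1 x.2.2.1 x.2.2.2)
    (fun x => g x.1 x.2.1 x.2.2.1 x.2.2.2)
  simpa only [Fintype.sum_prod_type, sq] using this

omit S ev in
private theorem R8_rot3 {M : Type} [AddCommMonoid M] (f : ι → ι → ι → M) :
    ∑ d, ∑ c, ∑ a, f a d c = ∑ a, ∑ d, ∑ c, f a d c :=
  (Finset.sum_congr rfl fun _ _ => Finset.sum_comm).trans Finset.sum_comm

omit S ev in
private theorem R8_rot4 {M : Type} [AddCommMonoid M] (f : ι → ι → ι → ι → M) :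
    ∑ b, ∑ d, ∑ c, ∑ a, f a b d c = ∑ a, ∑ b, ∑ d, ∑ c, f a b d c :=
  (Finset.sum_congr rfl fun b _ => R8_rot3 fun a => f a b).trans Finset.sum_comm

omit S ev in
private theorem R8_rot5 {M : Type} [AddCommMonoid M] (f : ι → ι → ι → ι → ι → M) :
    ∑ k, ∑ b, ∑ d, ∑ c, ∑ a, f a k b d c = ∑ a, ∑ k, ∑ b, ∑ d, ∑ c, f a k b d c :=
  (Finset.sum_congr rfl fun k _ => R8_rot4 fun a => f a k).trans Finset.sum_comm

omit S ev in
private theorem R8_diag (z : ι → ι → ι → ι → ι → ℝ) :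
    ∑ b, ∑ d, ∑ c, (∑ a, (z a b a d c - z b a a d c)) * ∑ a, (z a b a d c - z b a a d c) ≤
      4 * (Fintype.card ι : ℝ) * ∑ m, ∑ k, ∑ a, ∑ b, ∑ c, z m k a b c * z m k a b c := by
  have h0 : ∀ m k a, 0 ≤ ∑ b, ∑ c, z m k a b c * z m k a b c := fun m k a =>
    Finset.sum_nonneg fun b _ => Finset.sum_nonneg fun c _ => mul_self_nonneg _
  have h1 : ∑ b, ∑ d, ∑ c, ∑ a, z a b a d c * z a b a d c ≤
      ∑ m, ∑ k, ∑ a, ∑ b, ∑ c, z m k a b c * z m k a b c := by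
    rw [R8_rot4 fun a b d c => z a b a d c * z a b a d c]
    exact Finset.sum_le_sum fun m _ => Finset.sum_le_sum fun k _ =>
      Finset.single_le_sum (fun a _ => h0 m k a) (Finset.mem_univ m)
  have h2 : ∑ b, ∑ d, ∑ c, ∑ a, z b a a d c * z b a a d c ≤
      ∑ m, ∑ k, ∑ a, ∑ b, ∑ c, z m k a b c * z m k a b c := by
    refine Finset.sum_le_sum fun m _ => ?_
    rw [R8_rot3 fun a d c => z m a a d c * z m a a d c]
    exact Finset.sum_le_sum fun k _ =>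
      Finset.single_le_sum (fun a _ => h0 m k a) (Finset.mem_univ k)
  have h3 : ∀ b d c, (∑ a, (z a b a d c - z b a a d c)) * ∑ a, (z a b a d c - z b a a d c) ≤
      2 * (Fintype.card ι : ℝ) *
        (∑ a, z a b a d c * z a b a d c + ∑ a, z b a a d c * z b a a d c) := by
    intro b d c
    have h4 := sq_sum_le_card_mul_sum_sq (s := Finset.univ)
      (f := fun a => z a b a d c - z b a a d c)
    have h5 : ∑ a, (z a b a d c - z b a a d c) ^ 2 ≤
        ∑ a, 2 * (z a b a d c * z a b a d c + z b a a d c * z b a a d c) :=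
      Finset.sum_le_sum fun a _ => by linarith [sq_nonneg (z a b a d c + z b a a d c)]
    rw [← Finset.mul_sum, Finset.sum_add_distrib] at h5
    rw [Finset.card_univ] at h4
    have h6 := mul_le_mul_of_nonneg_left h5 (Nat.cast_nonneg (α := ℝ) (Fintype.card ι))
    linarith
  refine (Finset.sum_le_sum fun b _ => Finset.sum_le_sum fun d _ =>
    Finset.sum_le_sum fun c _ => h3 b d c).trans ?_
  simp only [← Finset.mul_sum, Finset.sum_add_distrib]
  have h7 := mul_le_mul_of_nonneg_left (add_le_add h1 h2)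
    (Nat.cast_nonneg (α := ℝ) (Fintype.card ι))
  linarith

private theorem R8_n : (2 : ℝ) ≤ S.n := by exact_mod_cast S.hn

private theorem R8_v : 0 ≤ ev S.arr.v := Arr.map_v S.arr ev ▸ Arr.v_nonneg _

private theorem R8_a2 : 0 ≤ ev S.arr.a2 := Arr.map_a2 S.arr ev ▸ Arr.a2_nonneg _

private theorem R8_gH : 0 ≤ ev S.arr.gH := Arr.map_gH S.arr ev ▸ Arr.gH_nonneg _

private theorem R8_W : 0 < ev S.arr.W := by
  have h : (S.n : ℝ) ^ 2 ≤ (S.arr.map ev).W := (S.good_pt ev).W_ge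
  have := S.R8_n
  rw [Arr.map_W] at h
  exact lt_of_lt_of_le (by positivity) h

theorem q_nonneg : 0 ≤ ev S.q := by
  simp only [q, map_sum, map_mul]
  exact Finset.sum_nonneg fun _ _ => Finset.sum_nonneg fun _ _ => Finset.sum_nonneg fun _ _ =>
    Finset.sum_nonneg fun _ _ => Finset.sum_nonneg fun _ _ => mul_self_nonneg _

theorem grad_nonneg (g : R) : 0 ≤ ev (S.grad g g) := by
  simp only [grad, map_sum, map_mul]
  exact Finset.sum_nonneg fun _ _ => mul_self_nonneg _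

theorem grad_sq_le (g h : R) : ev (S.grad g h) ^ 2 ≤ ev (S.grad g g) * ev (S.grad h h) := by
  simpa only [grad, map_sum, map_mul, sq] using Finset.sum_mul_sq_le_sq_mul_sq Finset.univ
    (fun a => ev (S.D a g)) fun a => ev (S.D a h)

theorem Lv_le : ev (S.L S.arr.v) ≤
    -(2 * ev S.q) + 100 * (Fintype.card ι : ℝ) ^ 7 * (ev S.arr.a2 * ev S.arr.v) := by
  have h1 : ∀ k a b c, S.L (S.B k a b c * S.B k a b c) =
      2 * (S.B k a b c * S.L (S.D k (S.T a b c))) -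
        2 * (S.B k a b c * S.L (∑ e, S.T k e a * S.T e b c)) -
        2 * (S.B k a b c * S.L (∑ e, S.T k e b * S.T a e c)) +
        2 * (S.B k a b c * S.L (∑ e, S.T k c e * S.T a b e)) -
        2 * ∑ m, S.D m (S.B k a b c) * S.D m (S.B k a b c) := by
    intro k a b c
    have : S.L (S.B k a b c) = S.L (S.D k (S.T a b c)) - S.L (∑ e, S.T k e a * S.T e b c) -
        S.L (∑ e, S.T k e b * S.T a e c) + S.L (∑ e, S.T k c e * S.T a b e) := by
      rw [← S.L_sub, ← S.L_sub, ← S.L_add]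
      rfl
    rw [S.L_mul, this, grad]
    ring
  have h2 : S.L S.arr.v =
      2 * (∑ k, ∑ a, ∑ b, ∑ c, S.B k a b c * S.L (S.D k (S.T a b c))) -
        2 * (∑ k, ∑ a, ∑ b, ∑ c, S.B k a b c * S.L (∑ e, S.T k e a * S.T e b c)) -
        2 * (∑ k, ∑ a, ∑ b, ∑ c, S.B k a b c * S.L (∑ e, S.T k e b * S.T a e c)) +
        2 * (∑ k, ∑ a, ∑ b, ∑ c, S.B k a b c * S.L (∑ e, S.T k c e * S.T a b e)) -
        2 * S.q := by
    have h3 : S.L S.arr.v = ∑ k, ∑ a, ∑ b, ∑ c, S.L (S.B k a b c * S.B k a b c) := by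
      simp only [← S.L_sum]
      rfl
    rw [h3, q, ← R8_rot5 fun m k a b c => S.D m (S.B k a b c) * S.D m (S.B k a b c)]
    simp only [h1]
    simp only [Finset.sum_sub_distrib, Finset.sum_add_distrib, ← Finset.mul_sum]
  have h4 : ∑ k, ∑ a, ∑ b, ∑ c, S.B k a b c * S.D k (S.L (S.T a b c)) =
      ∑ k, ∑ a, ∑ b, ∑ c, S.B k a b c * S.D k (S.LT0 a b c) +
        ∑ k, ∑ a, ∑ b, ∑ c, S.B k a b c * S.D k (S.LT1 a b c) := by
    simp only [S.L_T, map_add, mul_add, Finset.sum_add_distrib]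
  have e1 := S.B_LDT ev
  have e2 := S.B_DLT0 ev
  have e3 := S.B_DLT1 ev
  have e4 := abs_le.1 (S.B_LTT1 ev)
  have e5 := abs_le.1 (S.B_LTT2 ev)
  have e6 := abs_le.1 (S.B_LTT3 ev)
  have e7 : 0 ≤ (S.n : ℝ) * ev S.arr.v := mul_nonneg (Nat.cast_nonneg _) (S.R8_v ev)
  have e8 : 0 ≤ (Fintype.card ι : ℝ) ^ 7 * (ev S.arr.a2 * ev S.arr.v) :=
    mul_nonneg (by positivity) (mul_nonneg (S.R8_a2 ev) (S.R8_v ev))
  rw [h4, map_add] at e1
  rw [h2]
  simp only [map_sub ev, map_add ev, map_mul ev 2, map_ofNat]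
  linarith [e4.1, e5.1, e6.2]

theorem kato : ev (S.grad S.arr.v S.arr.v) ≤ 4 * ev S.arr.v * ev S.q := by
  have hv : ev S.arr.v = ∑ k, ∑ a, ∑ b, ∑ c, ev (S.B k a b c) * ev (S.B k a b c) := by
    simp only [← map_mul, ← map_sum]
    rfl
  simp only [grad, q, S.D_v, map_sum, map_mul, map_ofNat]
  rw [Finset.mul_sum]
  refine Finset.sum_le_sum fun m _ => ?_
  have := R8_cs4 (fun k a b c => ev (S.B k a b c)) fun k a b c => ev (S.D m (S.B k a b c))
  rw [← hv] at this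
  linarith

theorem Zs_sq_le : ev S.arr.Zs ^ 2 ≤ 4 * (Fintype.card ι : ℝ) * ev S.q * ev S.arr.u := by
  have hu : ev S.arr.u = ∑ a, ∑ b, ∑ c, ev (S.arr.T0 a b c) * ev (S.arr.T0 a b c) := by
    simp only [S.good.u_eq, map_sum, map_mul]
  have hu0 : 0 ≤ ev S.arr.u := Arr.map_u S.arr ev ▸ (S.good_pt ev).u_nonneg
  have h1 := R8_cs3 (fun a b c => ev (S.arr.T0 a b c))
    fun b d c => ∑ a, (ev (S.D a (S.B b a d c)) - ev (S.D b (S.B a a d c)))
  have h2 := R8_diag fun m k a b c => ev (S.D m (S.B k a b c))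
  rw [← hu] at h1
  rw [← S.simons, mul_comm _ (ev S.arr.u)]
  simp only [q, map_sum, map_mul, map_sub ev]
  exact h1.trans (mul_le_mul_of_nonneg_left h2 hu0)

theorem grad_e2_le : (S.n : ℝ) ^ 2 * ev (S.grad S.arr.e2 S.arr.e2) ≤
    4 * ev S.arr.e2 * ev S.arr.gH := by
  have hn := S.R8_n
  have h : ∑ k, (∑ c, (S.arr.map ev).HH c * (S.arr.map ev).Bt k c) ^ 2 ≤
      (S.n : ℝ) ^ 2 * (S.arr.map ev).e2 * (S.arr.map ev).gH := (S.good_pt ev).HBt_le
  simp only [Arr.map_HH, Arr.map_Bt, Arr.map_e2, Arr.map_gH] at h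
  have h1 : ev (S.grad S.arr.e2 S.arr.e2) =
      (2 / (S.n : ℝ) ^ 2) ^ 2 * ∑ k, (∑ c, ev (S.arr.HH c) * ev (S.arr.Bt k c)) ^ 2 := by
    simp only [grad, S.D_e2, map_sum, map_mul, map_smul, smul_eq_mul]
    rw [Finset.mul_sum]
    exact Finset.sum_congr rfl fun k _ => by ring
  have h2 := mul_le_mul_of_nonneg_left h
    (show 0 ≤ (S.n : ℝ) ^ 2 * (2 / (S.n : ℝ) ^ 2) ^ 2 by positivity)
  rw [h1, ← mul_assoc]
  refine h2.trans (le_of_eq ?_)
  field_simp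
  ring

theorem LW_le : ev (S.L S.arr.W) ≤ 2 * ev S.arr.a2 * ev S.arr.W := by
  have h := Arr.HGH_le (S.arr.map ev)
  simp only [Arr.map_HH, Arr.map_G, Arr.map_a2, Arr.map_W] at h
  have h1 := S.R8_gH ev
  have h2 : 0 ≤ (S.n : ℝ) * ev S.arr.W := mul_nonneg (Nat.cast_nonneg _) (S.R8_W ev).le
  rw [S.L_W']
  simp only [map_sub, map_add, map_neg, map_mul, map_sum, map_ofNat, map_natCast]
  linarith

/-- The gradient terms of the Andrews-Baker quantity have a sign (`codazzi`). -/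
theorem Lg_ge {k : ℝ} (hk : 2 * ((S.n : ℝ) - 1) * k = S.n + 2) :
    ev S.arr.Re - k / S.n * ev S.arr.Ru ≤ ev (S.L (S.arr.e2 - (k / S.n) • S.arr.u)) := by
  have hn := S.R8_n
  have h : 3 * (S.arr.map ev).gH ≤ ((S.n : ℝ) + 2) * (S.arr.map ev).v := (S.good_pt ev).codazzi
  rw [Arr.map_gH, Arr.map_v] at h
  rw [S.L_sub, S.L_smul, S.L_e2, S.L_u]
  simp only [map_sub, map_add, map_neg, map_mul, map_smul, map_ofNat, smul_eq_mul]
  have hn1 : (0 : ℝ) < S.n - 1 := by linarith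
  have hk' : k = (S.n + 2) / (2 * (S.n - 1)) := by
    rw [eq_div_iff (by positivity)]
    linarith
  have h1 : k / S.n * (2 * ev S.arr.v) - k / S.n * (2 / S.n * ev S.arr.gH) -
      2 / (S.n : ℝ) ^ 2 * ev S.arr.gH =
      ((S.n + 2) * ev S.arr.v - 3 * ev S.arr.gH) / (S.n * (S.n - 1)) := by
    rw [hk']
    field_simp
    ring
  have h2 : 0 ≤ ((S.n + 2) * ev S.arr.v - 3 * ev S.arr.gH) / (S.n * (S.n - 1)) :=
    div_nonneg (by linarith) (by positivity)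
  linarith

/-- Barrier for the growth of `W`. -/
theorem touch3 {ψ : R} {b ε : ℝ} (hD : ∀ a, S.D a ψ = 0) (hT : S.dt ψ = algebraMap ℝ R (-b))
    (he : ev (ψ * S.arr.W) = 1) (hu : ev S.arr.u ≤ ε * ev S.arr.W)
    (ht : S.Touch ev (ψ * S.arr.W)) : b ≤ 2 * (ε + (S.n : ℝ)⁻¹) := by
  have hW := S.R8_W ev
  obtain ⟨-, hL⟩ := ht
  rw [S.L_time_mul hD, hT] at hL
  simp only [map_add, map_mul, AlgHom.commutes, Algebra.algebraMap_self, RingHom.id_apply] at hL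
  rw [map_mul] at he
  have hψ : 0 < ev ψ := by
    by_contra hc
    have := mul_nonpos_of_nonpos_of_nonneg (not_lt.mp hc) hW.le
    linarith
  have hue : ev S.arr.u = ev S.arr.a2 - (S.n : ℝ)⁻¹ * ev S.arr.W := by
    rw [Arr.u, map_sub, map_smul]
    rfl
  have h1 := mul_le_mul_of_nonneg_left (S.LW_le ev) hψ.le
  have h2 : ev ψ * (2 * ev S.arr.a2 * ev S.arr.W) = 2 * ev S.arr.a2 := by
    rw [show ev ψ * (2 * ev S.arr.a2 * ev S.arr.W) = 2 * ev S.arr.a2 * (ev ψ * ev S.arr.W) by ring,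
      he, mul_one]
  refine le_of_mul_le_mul_right ?_ hW
  linarith

/-- Barrier for the linear functions. -/
theorem touch4 {E τ : R} (hD : ∀ a, S.D a E = 0) (hT : S.dt E = -(S.n * E))
    (hD' : ∀ a, S.D a τ = 0) (hT' : S.dt τ = 1) (c : ι → ℝ) {ε : ℝ} (hε : 0 < ε)
    (ht : S.Touch ev (E * ∑ a, c a • S.F a - ε • τ)) : False := by
  obtain ⟨-, hL⟩ := ht
  have hF : S.L (∑ a, c a • S.F a) = S.n * ∑ a, c a • S.F a := by
    rw [S.L_sum, Finset.mul_sum]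
    exact Finset.sum_congr rfl fun a _ => by rw [S.L_smul, S.L_F, mul_smul_comm]
  have key : S.L (E * ∑ a, c a • S.F a - ε • τ) = -(ε • (1 : R)) := by
    rw [S.L_sub, S.L_time_mul hD, S.L_smul, S.L_time hD', hT, hT', hF]
    ring
  rw [key, map_neg, map_smul, map_one, smul_eq_mul] at hL
  linarith

end Pool.Agent.Lib.MP_de485e_gt.Hi.QA
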