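import Pool.Agent.Lib.MP_de485e_gt.Hi.GeoDef
import Pool.Agent.Lib.MP_de485e_gt.Hi.Proj
import Pool.Agent.Lib.MP_de485e_gt.LiftChart

/-! Almost umbilical submanifolds are almost round. -/

open Set Filter Topology Metric
open scoped RealInnerProductSpace

namespace Pool.Agent.Lib.MP_de485e_gt.Hi

variable {n : ℕ} {P Q : Type} [NormedAddCommGroup P] [InnerProductSpace ℝ P] [FiniteDimensional ℝ P]
  [NormedAddCommGroup Q] [InnerProductSpace ℝ Q] [FiniteDimensional ℝ Q]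
  {M : Type} [TopologicalSpace M] [ChartedSpace P M] {F : ℝ → M → Q} {J : Set ℝ} {G : GeoData Q M}

namespace GeoLoc

variable (h : GeoLoc n P F J G) {t : ℝ} (ht : t ∈ J)
include h ht

theorem W_ge (x : M) : (n : ℝ) ^ 2 ≤ G.W t x := by
  obtain ⟨H, hp⟩ := h.pt t ht x
  rw [hp.W_eq]
  linarith [sq_nonneg ‖H‖]

theorem Round_n_pos : (0 : ℝ) < n := by
  have : (2 : ℝ) ≤ n := by exact_mod_cast h.hn
  linarith

theorem W_pos (x : M) : 0 < G.W t x := (pow_pos (h.Round_n_pos ht) 2).trans_le (h.W_ge ht x)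

theorem s_pos (x : M) : 0 < n / √(G.W t x) :=
  div_pos (h.Round_n_pos ht) (Real.sqrt_pos.2 (h.W_pos ht x))

theorem s_le (x : M) : n / √(G.W t x) ≤ 1 := by
  rw [div_le_one (Real.sqrt_pos.2 (h.W_pos ht x))]
  exact Real.le_sqrt_of_sq_le (h.W_ge ht x)

theorem s_sq (x : M) : (n / √(G.W t x)) ^ 2 = (n : ℝ) ^ 2 / G.W t x := by
  rw [div_pow, Real.sq_sqrt (h.W_pos ht x).le]

theorem Round_data (x : M) :
    ⟪F t x - G.m t x, F t x - G.m t x⟫ = (n : ℝ) ^ 2 / G.W t x ∧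
    ⟪F t x - G.m t x, F t x⟫ = (n : ℝ) ^ 2 / G.W t x ∧
    (∀ ξ, ⟪F t x - G.m t x, dF P (F t) x ξ⟫ = 0) ∧
    ∀ w, G.E t x w = G.Tn t x w +
      (G.W t x / (n : ℝ) ^ 2 * ⟪F t x - G.m t x, w⟫) • (F t x - G.m t x) := by
  obtain ⟨H, hp⟩ := h.pt t ht x
  have hW := h.W_pos ht x
  have hn := h.Round_n_pos ht
  have hFF : ⟪F t x, F t x⟫ = 1 := by rw [real_inner_self_eq_norm_sq, h.sphere t ht x, one_pow]
  have hHF : ⟪H, F t x⟫ = 0 := by rw [real_inner_comm]; exact hp.FH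
  have hNF : ⟪H - (n : ℝ) • F t x, F t x⟫ = -n := by
    rw [inner_sub_left, real_inner_smul_left, hHF, hFF]
    ring
  have hNN : ⟪H - (n : ℝ) • F t x, H - (n : ℝ) • F t x⟫ = G.W t x := by
    rw [inner_sub_right, real_inner_smul_right, hNF, inner_sub_left, real_inner_smul_left, hp.FH,
      real_inner_self_eq_norm_sq, hp.W_eq]
    ring
  have hy : F t x - G.m t x = (-(n / G.W t x)) • (H - (n : ℝ) • F t x) := by
    rw [hp.m_eq, neg_smul]
    abel
  rw [hy]
  refine ⟨?_, ?_, fun ξ => ?_, fun w => ?_⟩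
  · rw [real_inner_smul_left, real_inner_smul_right, hNN]
    field_simp
  · rw [real_inner_smul_left, hNF]
    ring
  · rw [real_inner_smul_left, real_inner_comm, inner_sub_right, real_inner_smul_right, hp.LH,
      hp.LF]
    ring
  · rw [hp.E_eq, real_inner_smul_left, smul_smul]
    congr 2
    field_simp

/-- `F - m = -(n / W) (H - n F)` and `‖H - n F‖ ^ 2 = W`. -/
theorem norm_F_sub_m (x : M) : ‖F t x - G.m t x‖ = n / √(G.W t x) := by
  refine (pow_left_inj₀ (norm_nonneg _) (h.s_pos ht x).le two_ne_zero).1 ?_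
  rw [h.s_sq ht, ← real_inner_self_eq_norm_sq, (h.Round_data ht x).1]

theorem norm_m_sq (x : M) : ‖G.m t x‖ ^ 2 = 1 - (n : ℝ) ^ 2 / G.W t x := by
  obtain ⟨h1, h2, -⟩ := h.Round_data ht x
  have e : G.m t x = F t x - (F t x - G.m t x) := by abel
  rw [e, norm_sub_sq_real, h.sphere t ht x, real_inner_comm, h2, ← real_inner_self_eq_norm_sq, h1]
  ring

theorem inner_m_F (x : M) : ⟪G.m t x, F t x⟫ = 1 - (n : ℝ) ^ 2 / G.W t x := by
  have h2 := (h.Round_data ht x).2.1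
  rw [inner_sub_left, real_inner_self_eq_norm_sq, h.sphere t ht x] at h2
  linarith

theorem Round_Tn_zero (x : M) {z : Q} (hz : ∀ ξ, ⟪z, dF P (F t) x ξ⟫ = 0) : G.Tn t x z = 0 := by
  obtain ⟨H, hp⟩ := h.pt t ht x
  obtain ⟨ξ, hξ⟩ := hp.Tn_range z
  refine inner_self_eq_zero (𝕜 := ℝ).1 ?_
  rw [hp.Tn_symm, hξ, hp.Tn_L, hz]

theorem Round_one (x : M) : G.W t x / (n : ℝ) ^ 2 * ((n : ℝ) ^ 2 / G.W t x) = 1 := by
  have hW := h.W_pos ht x
  have hn := h.Round_n_pos ht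
  field_simp

theorem E_F (x : M) : G.E t x (F t x) = F t x - G.m t x := by
  obtain ⟨H, hp⟩ := h.pt t ht x
  obtain ⟨-, h2, -, h4⟩ := h.Round_data ht x
  rw [h4, h2, h.Round_one ht, one_smul,
    h.Round_Tn_zero ht x fun ξ => by rw [real_inner_comm]; exact hp.LF ξ, zero_add]

theorem E_sub (x : M) : G.E t x (F t x - G.m t x) = F t x - G.m t x := by
  obtain ⟨h1, -, h3, h4⟩ := h.Round_data ht x
  rw [h4, h1, h.Round_one ht, one_smul, h.Round_Tn_zero ht x h3, zero_add]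

theorem E_dF (x : M) (ξ : P) : G.E t x (dF P (F t) x ξ) = dF P (F t) x ξ := by
  obtain ⟨H, hp⟩ := h.pt t ht x
  obtain ⟨-, -, h3, h4⟩ := h.Round_data ht x
  rw [h4, h3, mul_zero, zero_smul, add_zero, hp.Tn_L]

theorem E_Tn (x : M) (w : Q) : G.E t x (G.Tn t x w) = G.Tn t x w := by
  obtain ⟨H, hp⟩ := h.pt t ht x
  obtain ⟨ξ, hξ⟩ := hp.Tn_range w
  rw [hξ, h.E_dF ht]

theorem sub_perp (x : M) (ξ : P) : ⟪F t x - G.m t x, dF P (F t) x ξ⟫ = 0 :=
  (h.Round_data ht x).2.2.1 ξ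

theorem E_eq' (x : M) (w : Q) : G.E t x w = G.Tn t x w +
    (G.W t x / (n : ℝ) ^ 2 * ⟪F t x - G.m t x, w⟫) • (F t x - G.m t x) :=
  (h.Round_data ht x).2.2.2 w

/-- `V` is the span of the range of `dF` and of `F - m`. -/
theorem exists_V (x : M) :
    ∃ V : Submodule ℝ Q, Module.finrank ℝ V = n + 1 ∧ G.E t x = V.starProjection := by
  obtain ⟨H, hp⟩ := h.pt t ht x
  have hsym : ∀ w z, ⟪G.E t x w, z⟫ = ⟪w, G.E t x z⟫ := fun w z => by
    rw [h.E_eq' ht, h.E_eq' ht, inner_add_left, inner_add_right, hp.Tn_symm, real_inner_smul_left,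
      real_inner_smul_right, real_inner_comm w]
    ring
  refine ⟨LinearMap.range (dF P (F t) x).toLinearMap ⊔ ℝ ∙ (F t x - G.m t x), ?_, ?_⟩
  · rw [Submodule.finrank_sup_span_singleton, LinearMap.finrank_range_of_inj (h.imm t ht x), h.hP]
    rintro ⟨ξ, hξ⟩
    have h1 := h.sub_perp ht x ξ
    have h2 : dF P (F t) x ξ = F t x - G.m t x := hξ
    rw [h2, inner_self_eq_zero, ← norm_eq_zero, h.norm_F_sub_m ht] at h1
    exact (h.s_pos ht x).ne' h1
  · ext1 w
    refine (Submodule.eq_starProjection_of_mem_of_inner_eq_zero ?_ fun z hz => ?_).symm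
    · obtain ⟨ξ, hξ⟩ := hp.Tn_range w
      rw [h.E_eq' ht, hξ]
      exact Submodule.add_mem_sup ⟨ξ, rfl⟩
        (Submodule.smul_mem _ _ (Submodule.mem_span_singleton_self _))
    · obtain ⟨_, ⟨ξ, rfl⟩, b, hb, rfl⟩ := Submodule.mem_sup.1 hz
      obtain ⟨c, rfl⟩ := Submodule.mem_span_singleton.1 hb
      rw [inner_sub_left, hsym, map_add, map_smul, h.E_sub ht, ContinuousLinearMap.coe_coe,
        h.E_dF ht, sub_self]

theorem sff_le_W (x : M) (ξ : P) :
    ‖sff P (F t) x ξ ξ‖ ≤ 12 * √(G.W t x) * ‖dF P (F t) x ξ‖ ^ 2 := by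
  obtain ⟨H, hp⟩ := h.pt t ht x
  have h1 := hp.sff_le ξ ξ
  have hn : (2 : ℝ) ≤ n := by exact_mod_cast h.hn
  have hW := h.W_pos ht x
  have h2 : √(G.u t x) ≤ 11 * √(G.W t x) := by
    refine Real.sqrt_le_iff.2 ⟨by positivity, ?_⟩
    rw [mul_pow, Real.sq_sqrt hW.le]
    linarith [(h.u_le t ht x).2]
  have h3 : ‖H‖ ≤ √(G.W t x) := by
    apply Real.le_sqrt_of_sq_le
    rw [hp.W_eq]
    linarith [sq_nonneg (n : ℝ)]
  have h5 : ‖(⟪dF P (F t) x ξ, dF P (F t) x ξ⟫ / n) • H‖ ≤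
      ‖dF P (F t) x ξ‖ ^ 2 * √(G.W t x) := by
    rw [norm_smul, real_inner_self_eq_norm_sq, Real.norm_of_nonneg (by positivity)]
    exact mul_le_mul (div_le_self (sq_nonneg _) (by linarith)) h3 (norm_nonneg _) (sq_nonneg _)
  have h6 := norm_le_insert' (sff P (F t) x ξ ξ) ((⟪dF P (F t) x ξ, dF P (F t) x ξ⟫ / n) • H)
  have h7 := mul_le_mul_of_nonneg_right h2 (sq_nonneg ‖dF P (F t) x ξ‖)
  linarith

theorem Round_core (V : Submodule ℝ Q) (p : Q) (x : M)
    (h1 : ‖V.starProjection (F t x - p) - (F t x - G.m t x)‖ ≤ n / √(G.W t x) / 8)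
    (h2 : ∀ ξ, ‖V.starProjection (dF P (F t) x ξ) - dF P (F t) x ξ‖ ≤ ‖dF P (F t) x ξ‖ / 8) :
    V.orthogonalProjectionOnto (F t x - p) ≠ 0 ∧
    ‖V.orthogonalProjectionOnto (F t x - p)‖ ≤ 9 / 8 * (n / √(G.W t x)) ∧
    (∀ (X : P) (r : ℝ), V.orthogonalProjectionOnto (dF P (F t) x X) =
      r • V.orthogonalProjectionOnto (F t x - p) → X = 0) ∧
    ∀ (X : P) (r : ℝ), ⟪V.orthogonalProjectionOnto (F t x - p),
        V.orthogonalProjectionOnto (dF P (F t) x X) -
          r • V.orthogonalProjectionOnto (F t x - p)⟫ = 0 →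
      ‖dF P (F t) x X‖ ≤ 2 * ‖V.orthogonalProjectionOnto (dF P (F t) x X) -
          r • V.orthogonalProjectionOnto (F t x - p)‖ := by
  have hy := h.norm_F_sub_m ht x
  have hs := h.s_pos ht x
  have hc : ∀ (X : P) (r : ℝ), ⟪V.orthogonalProjectionOnto (F t x - p),
        V.orthogonalProjectionOnto (dF P (F t) x X) -
          r • V.orthogonalProjectionOnto (F t x - p)⟫ = 0 →
      ‖dF P (F t) x X‖ ≤ 2 * ‖V.orthogonalProjectionOnto (dF P (F t) x X) -
          r • V.orthogonalProjectionOnto (F t x - p)‖ := fun X r hr =>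
    radial_point (V.starProjection (F t x - p)) (F t x - G.m t x)
      (V.starProjection (dF P (F t) x X)) _ hs hy h1 (h2 X) (h.sub_perp ht x X) hr
  refine ⟨fun h0 => ?_, ?_, fun X r hX => ?_, hc⟩
  · have h3 : V.starProjection (F t x - p) = 0 := congrArg Subtype.val h0
    rw [h3, zero_sub, norm_neg, hy] at h1
    linarith
  · have := norm_le_insert' (V.starProjection (F t x - p)) (F t x - G.m t x)
    rw [hy] at this
    change ‖V.starProjection (F t x - p)‖ ≤ _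
    linarith
  · have h3 := hc X r (by rw [hX, sub_self, inner_zero_right])
    rw [hX, sub_self, norm_zero, mul_zero, norm_le_zero_iff] at h3
    exact h.imm t ht x (h3.trans (map_zero _).symm)

theorem Round_strict (V : Submodule ℝ Q) (p : Q) (x : M) :
    HasStrictFDerivAt ((fun y => V.orthogonalProjectionOnto (F t y - p)) ∘ (chartAt P x).symm)
      (V.orthogonalProjectionOnto.comp (dF P (F t) x)) (chartAt P x x) :=
  (V.orthogonalProjectionOnto.hasStrictFDerivAt).comp _ ((h.strict t ht x).sub_const p)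

variable [T2Space M] [CompactSpace M] [ConnectedSpace M]

/-- `lift_chart` with `E = V`, `G` the projection of `F t - p`, `Psi = 0`; `radial_point`. -/
theorem radial {V : Submodule ℝ Q} (hV : Module.finrank ℝ V = n + 1) (p : Q)
    (h1 : ∀ x, ‖V.starProjection (F t x - p) - (F t x - G.m t x)‖ ≤ n / √(G.W t x) / 8)
    (h2 : ∀ x ξ, ‖V.starProjection (dF P (F t) x ξ) - dF P (F t) x ξ‖ ≤ ‖dF P (F t) x ξ‖ / 8) :
    SubBij V p (F t) := by
  obtain ⟨x0⟩ : Nonempty M := inferInstance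
  obtain ⟨-, -, hb⟩ := lift_chart (W := ℝ) (P := P) (h.hn.trans_eq h.hP.symm) (by rw [hV, h.hP])
    (fun y => V.orthogonalProjectionOnto (F t y - p)) (fun _ => 0) continuous_const x0 5 0 1
    le_rfl zero_lt_one (by norm_num) (fun x _ => by
      obtain ⟨c1, -, c3, -⟩ := h.Round_core ht V p x (h1 x) (h2 x)
      exact ⟨chartAt P x, _, 0, mem_chart_source P x, h.Round_strict ht V p x,
        hasStrictFDerivAt_const (0 : ℝ) _, c1, c3, fun X r _ => by simp⟩)
  have hr : ∀ x, sproj V p (F t x) = ((‖V.orthogonalProjectionOnto (F t x - p)‖⁻¹ •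
      V.orthogonalProjectionOnto (F t x - p) : V) : Q) := fun x => rfl
  refine ⟨fun x _ => ?_, fun x _ y _ hxy => ?_, fun w hw => ?_⟩
  · have h3 := mem_sphere_zero_iff_norm.1 (hb.1 (mem_univ x))
    change sproj V p (F t x) ∈ V ∧ ‖sproj V p (F t x)‖ = 1
    rw [hr]
    exact ⟨Subtype.property _, h3⟩
  · refine hb.2.1 (mem_univ x) (mem_univ y) (Subtype.ext ?_)
    exact (hr x).symm.trans (Eq.trans hxy (hr y))
  · obtain ⟨x, -, hx⟩ := hb.2.2 (show (⟨w, hw.1⟩ : V) ∈ Metric.sphere (0 : V) 1 from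
      mem_sphere_zero_iff_norm.2 hw.2)
    exact ⟨x, mem_univ _, (hr x).trans (congrArg Subtype.val hx)⟩

/-- `lift_chart` with `V` from `exists_V` at `x₀`, `G` the projection of `F t - m t x₀`,
`s₀ = n / √(W x₀)`, `Psi = (E, m / s₀, W x₀ / W)` in the product (sup norm), `eps = 1 / 20`,
`kappa = 21 n ^ 2 η`, `k2 = 22 n ^ 2 η`. -/
theorem round (x₀ : M) {η : ℝ} (hη : 0 < η) (hη' : 3000 * (n : ℝ) ^ 2 * η ≤ 1)
    (hs : ∀ y, G.W t x₀ / 4 ≤ G.W t y → G.u t y ≤ η ^ 2 * G.W t y ∧ G.v t y ≤ η ^ 2 * G.W t y ^ 2)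
    (y : M) : ‖G.E t y - G.E t x₀‖ ≤ 90 * (n : ℝ) ^ 2 * η ∧
      ‖G.m t y - G.m t x₀‖ ≤ 90 * (n : ℝ) ^ 2 * η * (n / √(G.W t x₀)) ∧
      |G.W t x₀ / G.W t y - 1| ≤ 90 * (n : ℝ) ^ 2 * η := by
  obtain ⟨V, hV, hEV⟩ := h.exists_V ht x₀
  have hn := h.Round_n_pos ht
  have hW0 := h.W_pos ht x₀
  have hs0 := h.s_pos ht x₀
  have hsq := h.s_sq ht x₀
  set s0 : ℝ := n / √(G.W t x₀) with hs0def
  have hk : 0 < (n : ℝ) ^ 2 * η := by positivity
  let Psi : M → (Q →L[ℝ] Q) × Q × ℝ := fun z =>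
    (G.E t z, s0⁻¹ • G.m t z, G.W t x₀ * (G.W t z)⁻¹)
  have hPc : Continuous Psi :=
    (h.contE t ht).prodMk (((h.contm t ht).const_smul s0⁻¹).prodMk
      ((continuous_const (y := G.W t x₀)).mul
        ((h.contW t ht).inv₀ fun z => (h.W_pos ht z).ne')))
  have hsplit : ∀ z b, ‖Psi z - Psi x₀‖ ≤ b → ‖G.E t z - G.E t x₀‖ ≤ b ∧
      ‖G.m t z - G.m t x₀‖ ≤ b * s0 ∧ |G.W t x₀ / G.W t z - 1| ≤ b := by
    intro z b hb
    rw [norm_prod_le_iff, norm_prod_le_iff] at hb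
    obtain ⟨h1, h2, h3⟩ := hb
    change ‖s0⁻¹ • G.m t z - s0⁻¹ • G.m t x₀‖ ≤ b at h2
    change |G.W t x₀ * (G.W t z)⁻¹ - G.W t x₀ * (G.W t x₀)⁻¹| ≤ b at h3
    rw [← smul_sub, norm_smul, norm_inv, Real.norm_of_nonneg hs0.le, ← div_eq_inv_mul,
      div_le_iff₀ hs0] at h2
    rw [mul_inv_cancel₀ hW0.ne', ← div_eq_mul_inv] at h3
    exact ⟨h1, h2, h3⟩
  obtain ⟨hb, -, -⟩ := lift_chart (P := P) (h.hn.trans_eq h.hP.symm) (by rw [hV, h.hP])
    (fun y => V.orthogonalProjectionOnto (F t y - G.m t x₀)) Psi hPc x₀ (1 / 20)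
    (21 * ((n : ℝ) ^ 2 * η)) (22 * ((n : ℝ) ^ 2 * η)) (by linarith) (by linarith) (by linarith)
    (fun x hx => by
      obtain ⟨h1, h2, h3⟩ := hsplit x _ hx.le
      have hW := h.W_pos ht x
      have hsx := h.s_pos ht x
      have hsqx := h.s_sq ht x
      have hyx := h.norm_F_sub_m ht x
      have hrt : 0 < √(G.W t x) := Real.sqrt_pos.2 hW
      rw [abs_le] at h3
      have hW4 : G.W t x₀ / 4 ≤ G.W t x := by
        have : G.W t x₀ / G.W t x ≤ 4 := by linarith [h3.2]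
        rw [div_le_iff₀ hW] at this
        linarith
      have hfix : ∀ w, G.E t x w = w → ‖V.starProjection w - w‖ ≤ 1 / 20 * ‖w‖ := fun w hw => by
        have e : V.starProjection w - w = -(G.E t x - G.E t x₀) w := by
          rw [_root_.sub_apply, hw, hEV, neg_sub]
        rw [e, norm_neg]
        exact ((G.E t x - G.E t x₀).le_opNorm w).trans
          (mul_le_mul_of_nonneg_right h1 (norm_nonneg _))
      have hrel : (n / √(G.W t x)) ^ 2 = s0 ^ 2 * (G.W t x₀ / G.W t x) := by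
        rw [hsq, hsqx]
        field_simp
      have hlo : 9 / 10 * s0 ≤ n / √(G.W t x) := by
        refine (pow_le_pow_iff_left₀ (by positivity) hsx.le two_ne_zero).1 ?_
        rw [hrel]
        nlinarith only [h3.1, sq_nonneg s0]
      have hhi : n / √(G.W t x) ≤ 2 * s0 := by
        refine (pow_le_pow_iff_left₀ hsx.le (by positivity) two_ne_zero).1 ?_
        rw [hrel]
        nlinarith only [h3.2, sq_nonneg s0]
      obtain ⟨E', m', w', d1, d2, d3, hd⟩ := h.dx t ht x η hη.le (hs x hW4).1 (hs x hW4).2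
      obtain ⟨c1, c2, c3, c4⟩ := h.Round_core ht V (G.m t x₀) x (by
          have e : V.starProjection (F t x - G.m t x₀) - (F t x - G.m t x) =
              (V.starProjection (F t x - G.m t x) - (F t x - G.m t x)) +
                V.starProjection (G.m t x - G.m t x₀) := by
            simp only [map_sub]
            abel
          have k1 := hfix _ (h.E_sub ht x)
          have k2 := V.norm_starProjection_apply_le (G.m t x - G.m t x₀)
          rw [hyx] at k1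
          rw [e]
          exact (norm_add_le _ _).trans (by linarith))
        (fun ξ => (hfix _ (h.E_dF ht x ξ)).trans (by linarith [norm_nonneg (dF P (F t) x ξ)]))
      refine ⟨chartAt P x, _, E'.prod ((s0⁻¹ • m').prod (G.W t x₀ • w')),
        mem_chart_source P x, h.Round_strict ht V _ x,
        d1.prodMk ((d2.const_smul s0⁻¹).prodMk (d3.const_mul _)), c1, c3, fun X r hr => ?_⟩
      have hT := c4 X r hr
      obtain ⟨e1, e2, e3⟩ := hd X
      have hL := norm_nonneg (dF P (F t) x X)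
      have hPsi : ‖(E'.prod ((s0⁻¹ • m').prod (G.W t x₀ • w'))) X‖ ≤
          8 * n * η * √(G.W t x) * ‖dF P (F t) x X‖ := by
        rw [norm_prod_le_iff, norm_prod_le_iff]
        refine ⟨e1, ?_, ?_⟩
        · change ‖s0⁻¹ • m' X‖ ≤ _
          rw [norm_smul, norm_inv, Real.norm_of_nonneg hs0.le, ← div_eq_inv_mul,
            div_le_iff₀ hs0]
          rw [div_le_iff₀ hrt] at hhi
          have f1 := mul_le_mul_of_nonneg_left hhi
            (show 0 ≤ 4 * n * η * ‖dF P (F t) x X‖ by positivity)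
          linarith only [e2, f1]
        · change |G.W t x₀ * w' X| ≤ _
          rw [abs_mul, abs_of_pos hW0]
          refine (mul_le_mul (show G.W t x₀ ≤ 4 * (√(G.W t x) * √(G.W t x)) by
            rw [Real.mul_self_sqrt hW.le]; linarith) e3 (abs_nonneg _) (by positivity)).trans_eq ?_
          field_simp
          ring
      refine (mul_le_mul hPsi c2 (norm_nonneg _) (by positivity)).trans ?_
      have f5 : 8 * n * η * √(G.W t x) * ‖dF P (F t) x X‖ * (9 / 8 * (n / √(G.W t x))) =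
          21 * ((n : ℝ) ^ 2 * η) * (3 / 7 * ‖dF P (F t) x X‖) := by
        field_simp
        ring
      rw [f5]
      refine mul_le_mul_of_nonneg_left ?_ (by positivity)
      change _ ≤ ‖V.orthogonalProjectionOnto (dF P (F t) x X) -
          r • V.orthogonalProjectionOnto (F t x - G.m t x₀)‖
      linarith)
  have e90 : 4 * (22 * ((n : ℝ) ^ 2 * η)) ≤ 90 * (n : ℝ) ^ 2 * η := by linarith
  exact hsplit y _ ((hb y).trans e90)

end GeoLoc

end Pool.Agent.Lib.MP_de485e_gt.Hi
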